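import Pool.Agent.HTW.LaurentZero

/-!
# The growth of a Laurent polynomial
-/

namespace Pool.Agent.HTW

open Polynomial in
/-- A Laurent polynomial times a power of the variable is a polynomial. -/
theorem exists_poly {t : ℝ → ℝ} (ht : Laurent t) :
    ∃ (K : ℕ) (P : ℝ[X]), ∀ A : ℝ, 0 < A → P.eval A = A ^ K * t A := by
  obtain ⟨S, hS⟩ := ht
  -- a bound of the exponents
  obtain ⟨K, hK⟩ : ∃ K : ℕ, ∀ x ∈ S, 0 ≤ (K : ℤ) + x.2 := by
    clear hS
    induction S with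
    | nil => exact ⟨0, by simp⟩
    | cons x S ih =>
      obtain ⟨K, hK⟩ := ih
      refine ⟨K + x.2.natAbs, fun y hy => ?_⟩
      rcases List.mem_cons.1 hy with rfl | hy
      · have h3 := neg_abs_le y.2
        push_cast
        have h4 : (0 : ℤ) ≤ K := Int.natCast_nonneg K
        linarith
      · have h3 := hK y hy
        have h4 := abs_nonneg x.2
        push_cast
        linarith
  refine ⟨K, (S.map fun x => Polynomial.C x.1 * Polynomial.X ^ ((K : ℤ) + x.2).toNat).sum,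
    fun A hA => ?_⟩
  rw [hS A hA.ne']
  clear hS
  induction S with
  | nil => simp
  | cons x S ih =>
    have h3 := ih fun y hy => hK y (List.mem_cons_of_mem _ hy)
    have h4 := hK x List.mem_cons_self
    simp only [List.map_cons, List.sum_cons, eval_add, eval_mul, eval_C, eval_pow, eval_X,
      h3, mul_add]
    congr 1
    have h5 : A ^ ((K : ℤ) + x.2).toNat = A ^ K * A ^ x.2 := by
      rw [← zpow_natCast A (((K : ℤ) + x.2).toNat), Int.toNat_of_nonneg h4, zpow_add₀ hA.ne',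
        zpow_natCast]
    rw [h5]
    ring

open Polynomial Filter Topology in
/-- the size of a polynomial at infinity -/
theorem poly_top {P : ℝ[X]} (hP : P ≠ 0) : ∃ c : ℝ, 0 < c ∧ ∀ᶠ A : ℝ in atTop,
    c * A ^ P.natDegree ≤ |P.eval A| ∧ |P.eval A| ≤ c⁻¹ * A ^ P.natDegree := by
  have hL : 0 < |P.leadingCoeff| := abs_pos.2 (leadingCoeff_ne_zero.2 hP)
  have h1 : Tendsto (fun A : ℝ => eval A P / eval A (X ^ P.natDegree : ℝ[X])) atTop
      (𝓝 (P.leadingCoeff / (X ^ P.natDegree : ℝ[X]).leadingCoeff)) := by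
    refine Polynomial.div_tendsto_atTop_leadingCoeff_div_of_degree_eq P _ ?_
    rw [degree_X_pow, degree_eq_natDegree hP]
  rw [leadingCoeff_X_pow, div_one] at h1
  have h2 := h1.abs
  have h3 := h2.eventually (lt_mem_nhds (show |P.leadingCoeff| / 2 < |P.leadingCoeff| by linarith))
  have h4 := h2.eventually (gt_mem_nhds (show |P.leadingCoeff| < 2 * |P.leadingCoeff| by linarith))
  refine ⟨min (|P.leadingCoeff| / 2) (2 * |P.leadingCoeff|)⁻¹, by positivity, ?_⟩
  filter_upwards [h3, h4, eventually_gt_atTop 0] with A h5 h6 hA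
  have hAd : 0 < A ^ P.natDegree := pow_pos hA _
  rw [eval_pow, eval_X, abs_div, abs_of_pos hAd] at h5 h6
  constructor
  · refine (mul_le_mul_of_nonneg_right (min_le_left _ _) hAd.le).trans ?_
    exact ((lt_div_iff₀ hAd).1 h5).le
  · refine ((div_lt_iff₀ hAd).1 h6).le.trans (mul_le_mul_of_nonneg_right ?_ hAd.le)
    rw [le_inv_comm₀ (by positivity) (by positivity)]
    exact min_le_right _ _

open Polynomial Filter Topology in
/-- A Laurent polynomial which does not vanish has a highest and a lowest exponent. -/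
theorem laurent_asymp {t : ℝ → ℝ} (ht : Laurent t) {A₁ : ℝ} (h1 : 0 < A₁) (h2 : t A₁ ≠ 0) :
    ∃ (a b : ℤ) (c A₀ : ℝ), b ≤ a ∧ 0 < c ∧ 1 < A₀ ∧
      (∀ A : ℝ, A₀ ≤ A → c * A ^ a ≤ |t A|) ∧
      (∀ A : ℝ, A₀ ≤ A → |t A| ≤ c⁻¹ * A ^ a) ∧
      (∀ A : ℝ, A₀ ≤ A → c * A ^ (-b) ≤ |t A⁻¹|) ∧
      (∀ A : ℝ, A₀ ≤ A → |t A⁻¹| ≤ c⁻¹ * A ^ (-b)) := by
  obtain ⟨K, P, hP⟩ := exists_poly ht
  have hP0 : P ≠ 0 := by
    rintro rfl
    have h3 := hP A₁ h1
    rw [eval_zero] at h3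
    exact mul_ne_zero (pow_pos h1 _).ne' h2 h3.symm
  obtain ⟨c₁, hc₁, htop⟩ := poly_top hP0
  -- the lowest exponent
  obtain ⟨Q, hQ, hndvd⟩ := exists_eq_pow_rootMultiplicity_mul_and_not_dvd P hP0 0
  set m := P.rootMultiplicity 0 with hm
  have hQ0 : Q.eval 0 ≠ 0 := by
    intro h
    exact hndvd (dvd_iff_isRoot.2 h)
  have hQne : Q ≠ 0 := by
    rintro rfl
    exact hndvd (dvd_zero _)
  have hmd : m ≤ P.natDegree := by
    rw [hQ, natDegree_mul (pow_ne_zero _ (X_sub_C_ne_zero 0)) hQne, natDegree_pow,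
      natDegree_X_sub_C, mul_one]
    exact Nat.le_add_right _ _
  have hbot : ∀ᶠ A : ℝ in atTop, |Q.eval 0| / 2 ≤ |Q.eval A⁻¹| ∧
      |Q.eval A⁻¹| ≤ 2 * |Q.eval 0| := by
    have h3 : Tendsto (fun A : ℝ => |Q.eval A⁻¹|) atTop (𝓝 |Q.eval 0|) :=
      ((Q.continuous.tendsto 0).comp tendsto_inv_atTop_zero).abs
    have h0 := abs_pos.2 hQ0
    have h4 : |Q.eval 0| / 2 < |Q.eval 0| := by linarith
    have h5 : |Q.eval 0| < 2 * |Q.eval 0| := by linarith
    exact ((h3.eventually (lt_mem_nhds h4)).and (h3.eventually (gt_mem_nhds h5))).mono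
      fun A hA => ⟨le_of_lt hA.1, le_of_lt hA.2⟩
  obtain ⟨A₂, hA₂⟩ := eventually_atTop.1 (htop.and hbot)
  have hq : 0 < |Q.eval 0| / 2 := by
    have := abs_pos.2 hQ0
    linarith
  have hq2 : 0 < (2 * |Q.eval 0|)⁻¹ := by
    have := abs_pos.2 hQ0
    positivity
  -- the value at the inverse
  have hinv : ∀ A : ℝ, 0 < A → |t A⁻¹| = A ^ (-((m : ℤ) - K)) * |Q.eval A⁻¹| := by
    intro A hA0
    have hAi : 0 < A⁻¹ := inv_pos.2 hA0
    have h4 : P.eval A⁻¹ = (A⁻¹) ^ m * Q.eval A⁻¹ := by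
      conv_lhs => rw [hQ]
      simp
    have h5 := hP A⁻¹ hAi
    rw [h4] at h5
    have h7 : t A⁻¹ = A ^ K * ((A⁻¹) ^ m * Q.eval A⁻¹) := by
      rw [h5, inv_pow, ← mul_assoc, mul_inv_cancel₀ (pow_pos hA0 _).ne', one_mul]
    rw [h7, abs_mul, abs_mul, abs_of_pos (pow_pos hA0 _), abs_of_pos (pow_pos hAi _),
      neg_sub, zpow_sub₀ hA0.ne', zpow_natCast, zpow_natCast, inv_pow, div_eq_mul_inv, mul_assoc]
  refine ⟨(P.natDegree : ℤ) - K, (m : ℤ) - K, min (min c₁ (|Q.eval 0| / 2)) (2 * |Q.eval 0|)⁻¹,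
    max A₂ 2, by omega, lt_min (lt_min hc₁ hq) hq2,
    lt_of_lt_of_le one_lt_two (le_max_right _ _), ?_, ?_, ?_, ?_⟩
  · intro A hA
    have hA0 : 0 < A := by linarith [le_max_right A₂ 2]
    obtain ⟨⟨h3, -⟩, -⟩ := hA₂ A ((le_max_left _ _).trans hA)
    rw [hP A hA0, abs_mul, abs_of_pos (pow_pos hA0 _)] at h3
    rw [zpow_sub₀ hA0.ne', zpow_natCast, zpow_natCast, mul_div_assoc', div_le_iff₀
      (pow_pos hA0 _), mul_comm |t A|]
    exact (mul_le_mul_of_nonneg_right ((min_le_left _ _).trans (min_le_left _ _))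
      (by positivity)).trans h3
  · intro A hA
    have hA0 : 0 < A := by linarith [le_max_right A₂ 2]
    obtain ⟨⟨-, h3⟩, -⟩ := hA₂ A ((le_max_left _ _).trans hA)
    rw [hP A hA0, abs_mul, abs_of_pos (pow_pos hA0 _)] at h3
    rw [zpow_sub₀ hA0.ne', zpow_natCast, zpow_natCast, mul_div_assoc', le_div_iff₀
      (pow_pos hA0 _), mul_comm |t A|]
    refine h3.trans (mul_le_mul_of_nonneg_right ?_ (by positivity))
    exact inv_anti₀ (lt_min (lt_min hc₁ hq) hq2) ((min_le_left _ _).trans (min_le_left _ _))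
  · intro A hA
    have hA0 : 0 < A := by linarith [le_max_right A₂ 2]
    obtain ⟨-, h3, -⟩ := hA₂ A ((le_max_left _ _).trans hA)
    rw [hinv A hA0, mul_comm]
    exact mul_le_mul_of_nonneg_left (((min_le_left _ _).trans (min_le_right _ _)).trans h3)
      (by positivity)
  · intro A hA
    have hA0 : 0 < A := by linarith [le_max_right A₂ 2]
    obtain ⟨-, -, h3⟩ := hA₂ A ((le_max_left _ _).trans hA)
    rw [hinv A hA0, mul_comm]
    refine mul_le_mul_of_nonneg_right (h3.trans ?_) (by positivity)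
    rw [le_inv_comm₀ (by have := abs_pos.2 hQ0; positivity) (lt_min (lt_min hc₁ hq) hq2)]
    exact min_le_right _ _

end Pool.Agent.HTW
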