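import Pool.Agent.HTW.Planar

/-!
# Laurent polynomials with incompatible growth vanish (helper64)
-/

namespace Pool.Agent.HTW

open Polynomial in
/-- a polynomial with `|Q B| ≤ C B` on `(0, 1]` vanishes at `0` -/
theorem eval_zero_of_le {Q : ℝ[X]} {C : ℝ} (h : ∀ B : ℝ, 0 < B → B ≤ 1 → |Q.eval B| ≤ C * B) :
    Q.eval 0 = 0 := by
  have h1 : Filter.Tendsto (fun B : ℝ => |Q.eval B|) (nhdsWithin 0 (Set.Ioi 0))
      (nhds |Q.eval 0|) :=
    (Q.continuous.abs.tendsto 0).mono_left nhdsWithin_le_nhds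
  have h2 : Filter.Tendsto (fun B : ℝ => C * B) (nhdsWithin 0 (Set.Ioi 0)) (nhds 0) := by
    have : Filter.Tendsto (fun B : ℝ => C * B) (nhds 0) (nhds (C * 0)) :=
      (continuous_const.mul continuous_id).tendsto 0
    rw [mul_zero] at this
    exact this.mono_left nhdsWithin_le_nhds
  have h3 : |Q.eval 0| ≤ 0 := by
    refine le_of_tendsto_of_tendsto h1 h2 ?_
    have : Set.Ioo (0 : ℝ) 1 ∈ nhdsWithin (0 : ℝ) (Set.Ioi 0) :=
      Ioo_mem_nhdsGT one_pos
    filter_upwards [this] with B hB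
    exact h B hB.1 hB.2.le
  exact abs_nonpos_iff.1 h3

open Polynomial in
theorem poly_zero {P : ℝ[X]} {C : ℝ} (hC : 0 ≤ C) {X' Y' : ℤ} (hXY : X' < Y')
    (h1 : ∀ A : ℝ, 1 ≤ A → |P.eval A| ≤ C * A ^ X')
    (h2 : ∀ A : ℝ, 0 < A → A ≤ 1 → |P.eval A| ≤ C * A ^ Y') : P = 0 := by
  by_contra hP
  -- at infinity
  have hd : (P.natDegree : ℤ) ≤ X' := by
    by_contra hcon
    push Not at hcon
    have h3 : P.reverse.eval 0 = 0 := by
      refine eval_zero_of_le (C := C) fun B hB hB1 => ?_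
      have hA : 1 ≤ B⁻¹ := (one_le_inv₀ hB).2 hB1
      have hA0 : 0 < B⁻¹ := inv_pos.2 hB
      have h4 := h1 B⁻¹ hA
      have : Invertible B⁻¹ := invertibleOfNonzero hA0.ne'
      have h5 := eval₂_reverse_mul_pow (RingHom.id ℝ) B⁻¹ P
      rw [invOf_eq_inv, inv_inv] at h5
      have h6 : P.reverse.eval B * (B⁻¹) ^ P.natDegree = P.eval B⁻¹ := h5
      rw [← h6, abs_mul, abs_of_pos (pow_pos hA0 _)] at h4
      have h7 : |P.reverse.eval B| ≤ C * (B⁻¹) ^ (X' - P.natDegree) := by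
        rw [zpow_sub₀ hA0.ne', zpow_natCast, mul_div_assoc', le_div_iff₀ (pow_pos hA0 _)]
        exact h4
      refine h7.trans (mul_le_mul_of_nonneg_left ?_ hC)
      calc (B⁻¹) ^ (X' - P.natDegree) ≤ (B⁻¹) ^ (-1 : ℤ) :=
            zpow_le_zpow_right₀ hA (by omega)
        _ = B := by rw [zpow_neg_one, inv_inv]
    rw [← coeff_zero_eq_eval_zero, coeff_zero_reverse, leadingCoeff_eq_zero] at h3
    exact hP h3
  -- at zero
  obtain ⟨Q, hQ, hndvd⟩ := exists_eq_pow_rootMultiplicity_mul_and_not_dvd P hP 0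
  set m := P.rootMultiplicity 0 with hm
  have hQ0 : Q ≠ 0 := by
    rintro rfl
    exact hndvd (dvd_zero _)
  have hmd : m ≤ P.natDegree := by
    rw [hQ, natDegree_mul (pow_ne_zero _ (X_sub_C_ne_zero 0)) hQ0, natDegree_pow,
      natDegree_X_sub_C, mul_one]
    exact Nat.le_add_right _ _
  apply hndvd
  rw [dvd_iff_isRoot, IsRoot.def]
  refine eval_zero_of_le (C := C) fun B hB hB1 => ?_
  have h4 := h2 B hB hB1
  have h5 : P.eval B = B ^ m * Q.eval B := by
    conv_lhs => rw [hQ]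
    simp
  rw [h5, abs_mul, abs_of_pos (pow_pos hB _)] at h4
  have h7 : |Q.eval B| ≤ C * B ^ (Y' - m) := by
    rw [zpow_sub₀ hB.ne', zpow_natCast, mul_div_assoc', le_div_iff₀ (pow_pos hB _), mul_comm]
    exact h4
  refine h7.trans (mul_le_mul_of_nonneg_left ?_ hC)
  calc B ^ (Y' - m) ≤ B ^ (1 : ℤ) := zpow_le_zpow_right_of_le_one₀ hB hB1 (by omega)
    _ = B := zpow_one B

open Polynomial in
theorem laurent_zero {t : ℝ → ℝ} (ht : Laurent t) {C : ℝ} {X Y : ℤ} (hXY : X < Y)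
    (h1 : ∀ A : ℝ, 1 ≤ A → |t A| ≤ C * A ^ X)
    (h2 : ∀ A : ℝ, 0 < A → A ≤ 1 → |t A| ≤ C * A ^ Y) :
    ∀ A : ℝ, 0 < A → t A = 0 := by
  obtain ⟨S, hS⟩ := ht
  -- a bound of the exponents
  obtain ⟨K, hK⟩ : ∃ K : ℕ, ∀ x ∈ S, 0 ≤ (K : ℤ) + x.2 := by
    clear hS
    induction S with
    | nil => exact ⟨0, by simp⟩
    | cons x S ih =>
      obtain ⟨K, hK⟩ := ih
      refine ⟨K + x.2.natAbs, fun y hy => ?_⟩
      rcases List.mem_cons.1 hy with rfl | hy
      · have h3 := neg_abs_le y.2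
        push_cast
        have h4 : (0 : ℤ) ≤ K := Int.natCast_nonneg K
        linarith
      · have h3 := hK y hy
        have h4 := abs_nonneg x.2
        push_cast
        linarith
  set P : ℝ[X] := (S.map fun x => Polynomial.C x.1 * Polynomial.X ^ ((K : ℤ) + x.2).toNat).sum
    with hPdef
  have hP : ∀ A : ℝ, 0 < A → P.eval A = A ^ K * t A := by
    intro A hA
    rw [hS A hA.ne', hPdef]
    clear hPdef P hS
    induction S with
    | nil => simp
    | cons x S ih =>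
      have h3 := ih fun y hy => hK y (List.mem_cons_of_mem _ hy)
      have h4 := hK x List.mem_cons_self
      simp only [List.map_cons, List.sum_cons, eval_add, eval_mul, eval_C, eval_pow, eval_X,
        h3, mul_add]
      congr 1
      have h5 : A ^ ((K : ℤ) + x.2).toNat = A ^ K * A ^ x.2 := by
        rw [← zpow_natCast A (((K : ℤ) + x.2).toNat), Int.toNat_of_nonneg h4, zpow_add₀ hA.ne',
          zpow_natCast]
      rw [h5]
      ring
  have hC : 0 ≤ C := by
    have := h1 1 le_rfl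
    rw [one_zpow, mul_one] at this
    exact (abs_nonneg _).trans this
  have hP0 : P = 0 := by
    refine poly_zero hC (X' := K + X) (Y' := K + Y) (by omega) (fun A hA => ?_)
      (fun A hA hA1 => ?_)
    · have hA0 : 0 < A := by linarith
      rw [hP A hA0, abs_mul, abs_of_pos (pow_pos hA0 _), zpow_add₀ hA0.ne', zpow_natCast]
      calc A ^ K * |t A| ≤ A ^ K * (C * A ^ X) := mul_le_mul_of_nonneg_left (h1 A hA) (by positivity)
        _ = _ := by ring
    · rw [hP A hA, abs_mul, abs_of_pos (pow_pos hA _), zpow_add₀ hA.ne', zpow_natCast]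
      calc A ^ K * |t A| ≤ A ^ K * (C * A ^ Y) :=
            mul_le_mul_of_nonneg_left (h2 A hA hA1) (by positivity)
        _ = _ := by ring
  intro A hA
  have h3 := hP A hA
  rw [hP0, eval_zero] at h3
  exact (mul_eq_zero.1 h3.symm).resolve_left (pow_pos hA _).ne'

end Pool.Agent.HTW
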