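import Pool.Agent.HTW.Channel

/-!
# Retraction of cables

For a knot diagram `w` and a natural operator `f` from `a` to `b` strands which has a rotation
dual, `ev b w * f = f * ev a w`.  The proof uses the direct sum of the objects `a` and `b` (labels
in `Bool`): `f` together with its dual is an endomorphism of the sum and slides along the knot.
-/

set_option linter.unusedSectionVars false

namespace Pool.Agent.HTW

open Finset Polynomial

namespace Ret

section

variable {R : Type} [Ring R] [Algebra ℝ R] (D : TLData R) (n : Bool → ℕ) (F : Bool → R)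

/-- The value of a labelled elementary tangle at the left end, with `o` strands on the left. -/
noncomputable def base : Kind → ℕ → (List Bool → R) → (List Bool → R)
  | .cup, o, φ => fun ℓ => match ℓ with
    | y :: z :: v => if y = z then D.sh o (D.U (n y)) * φ v else 0
    | _ => 0
  | .cap, o, φ => fun v => ∑ y : Bool, D.sh o (D.N (n y)) * φ (y :: y :: v)
  | .pos, o, φ => fun ℓ => match ℓ with
    | z :: y :: v => D.sh o (D.X (n y) (n z)) * φ (y :: z :: v)
    | _ => 0
  | .neg, o, φ => fun ℓ => match ℓ with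
    | z :: y :: v => D.sh o (D.mirror.X (n y) (n z)) * φ (y :: z :: v)
    | _ => 0

/-- The coupon at the left end. -/
noncomputable def bC (o : ℕ) (φ : List Bool → R) : List Bool → R
  | [] => 0
  | y :: v => D.sh o (F y) * φ ((!y) :: v)

/-- An operator after `i` labels. -/
def atp (B : ℕ → (List Bool → R) → (List Bool → R)) : ℕ → ℕ → (List Bool → R) → (List Bool → R)
  | 0, o, φ => B o φ
  | i + 1, o, φ => fun ℓ => match ℓ with
    | [] => 0
    | y :: ℓ => atp B i (o + n y) (fun v => φ (y :: v)) ℓ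

/-- Locality of an operator. -/
structure Lc (B : ℕ → (List Bool → R) → (List Bool → R)) : Prop where
  zero : ∀ o ℓ, B o (fun _ => 0) ℓ = 0
  add : ∀ o φ ψ ℓ, B o (fun v => φ v + ψ v) ℓ = B o φ ℓ + B o ψ ℓ
  loc : ∀ p q T, D.Loc p q T → ∀ o ψ ℓ,
    B (o + q) (fun v => D.sh o T * ψ v) ℓ = D.sh o T * B (o + p) ψ ℓ

theorem loc_coef {p q : ℕ} {T K : R} (hT : D.Loc p q T) (o : ℕ) (r : R) :
    D.sh (o + q) K * (D.sh o T * r) = D.sh o T * (D.sh (o + p) K * r) := by
  rw [← mul_assoc, ← mul_assoc, D.sh_add, D.sh_add, ← map_mul, ← map_mul, hT]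

theorem lc_base (k : Kind) : Lc D (base D n k) where
  zero := by
    intro o ℓ
    cases k <;> simp only [base]
    · rcases ℓ with _ | ⟨y, _ | ⟨z, v⟩⟩ <;> simp
    · simp
    · rcases ℓ with _ | ⟨y, _ | ⟨z, v⟩⟩ <;> simp
    · rcases ℓ with _ | ⟨y, _ | ⟨z, v⟩⟩ <;> simp
  add := by
    intro o φ ψ ℓ
    cases k <;> simp only [base]
    · rcases ℓ with _ | ⟨y, _ | ⟨z, v⟩⟩
      · simp
      · simp
      · by_cases h : y = z
        · simp [h, mul_add]
        · simp [h]
    · simp only [mul_add, sum_add_distrib]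
    · rcases ℓ with _ | ⟨y, _ | ⟨z, v⟩⟩ <;> simp [mul_add]
    · rcases ℓ with _ | ⟨y, _ | ⟨z, v⟩⟩ <;> simp [mul_add]
  loc := by
    intro p q T hT o ψ ℓ
    cases k <;> simp only [base]
    · rcases ℓ with _ | ⟨y, _ | ⟨z, v⟩⟩
      · simp
      · simp
      · by_cases h : y = z
        · simp only [h, if_true]
          exact loc_coef D hT o _
        · simp [h]
    · rw [mul_sum]
      exact sum_congr rfl fun y _ => loc_coef D hT o _
    · rcases ℓ with _ | ⟨y, _ | ⟨z, v⟩⟩
      · simp
      · simp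
      · exact loc_coef D hT o _
    · rcases ℓ with _ | ⟨y, _ | ⟨z, v⟩⟩
      · simp
      · simp
      · exact loc_coef D hT o _

theorem lc_bC : Lc D (bC D F) where
  zero := by
    intro o ℓ
    cases ℓ <;> simp [bC]
  add := by
    intro o φ ψ ℓ
    cases ℓ <;> simp [bC, mul_add]
  loc := by
    intro p q T hT o ψ ℓ
    cases ℓ with
    | nil => simp [bC]
    | cons y v => exact loc_coef D hT o _

variable {D n}

theorem Lc.atp {B : ℕ → (List Bool → R) → (List Bool → R)} (h : Lc D B) (i : ℕ) :
    Lc D (atp n B i) := by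
  induction i with
  | zero => exact h
  | succ i ih =>
    refine ⟨?_, ?_, ?_⟩
    · intro o ℓ
      cases ℓ with
      | nil => rfl
      | cons y ℓ => exact ih.zero _ _
    · intro o φ ψ ℓ
      cases ℓ with
      | nil => exact (add_zero 0).symm
      | cons y ℓ => exact ih.add _ _ _ _
    · intro p q T hT o ψ ℓ
      cases ℓ with
      | nil => exact (mul_zero _).symm
      | cons y ℓ =>
        have h2 := ih.loc (p + n y) (q + n y) T (hT.ext (n y)) o (fun v => ψ (y :: v)) ℓ
        rw [← Nat.add_assoc, ← Nat.add_assoc] at h2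
        exact h2

theorem atp_atp (B : ℕ → (List Bool → R) → (List Bool → R)) (r i : ℕ) :
    ∀ o φ, atp n (atp n B r) i o φ = atp n B (r + i) o φ := by
  induction i with
  | zero =>
    intro o φ
    rfl
  | succ i ih =>
    intro o φ
    funext ℓ
    cases ℓ with
    | nil => rfl
    | cons y ℓ => exact congrFun (ih _ _) ℓ

theorem atp_comp (G H : ℕ → (List Bool → R) → (List Bool → R)) (i : ℕ) :
    ∀ o φ, atp n (fun o φ => G o (H o φ)) i o φ = atp n G i o (atp n H i o φ) := by
  induction i with
  | zero =>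
    intro o φ
    rfl
  | succ i ih =>
    intro o φ
    funext ℓ
    cases ℓ with
    | nil => rfl
    | cons y ℓ => exact congrFun (ih _ _) ℓ

/-- Relations between operators at the left end hold after `i` labels. -/
theorem atp_rel {G H G' H' : ℕ → (List Bool → R) → (List Bool → R)}
    (h : ∀ o φ, G o (H o φ) = G' o (H' o φ)) (i o : ℕ) (φ : List Bool → R) :
    atp n G i o (atp n H i o φ) = atp n G' i o (atp n H' i o φ) := by
  rw [← atp_comp, ← atp_comp]
  congr 1
  funext o φ
  exact h o φ

variable (D n)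

/-- `F true : n false → n true` and `F false : n true → n false` are natural and rotation dual
to each other. -/
structure DuF : Prop where
  nt : ∀ y, D.Nt (n (!y)) (n y) (F y)
  cup : ∀ y, F y * D.U (n (!y)) = D.sh (n y) (F (!y)) * D.U (n y)
  cap : ∀ y, D.N (n y) * F y = D.N (n (!y)) * D.sh (n (!y)) (F (!y))

variable {D n}

/-! ### Relations at the left end -/

theorem atp_succ_nil (B : ℕ → (List Bool → R) → (List Bool → R)) (i o : ℕ) (φ : List Bool → R) :
    atp n B (i + 1) o φ [] = 0 := rfl

theorem atp_succ_cons (B : ℕ → (List Bool → R) → (List Bool → R)) (i o : ℕ) (φ : List Bool → R)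
    (y : Bool) (ℓ : List Bool) :
    atp n B (i + 1) o φ (y :: ℓ) = atp n B i (o + n y) (fun v => φ (y :: v)) ℓ := rfl

theorem sl_rel {F : Bool → R} (hF : DuF D n F) {B : ℕ → (List Bool → R) → (List Bool → R)}
    (hB : Lc D B) (r : ℕ) (o : ℕ) (φ : List Bool → R) :
    bC D F o (atp n B (r + 1) o φ) = atp n B (r + 1) o (bC D F o φ) := by
  funext ℓ
  cases ℓ with
  | nil => rfl
  | cons y ℓ =>
    exact ((hB.atp r).loc (n (!y)) (n y) (F y) (hF.nt y).loc o (fun v => φ ((!y) :: v)) ℓ).symm

theorem cup_base (o : ℕ) (φ : List Bool → R) (y z : Bool) (v : List Bool) :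
    base D n .cup o φ (y :: z :: v) = if y = z then D.sh o (D.U (n y)) * φ v else 0 := rfl

theorem cap_base (o : ℕ) (φ : List Bool → R) (v : List Bool) :
    base D n .cap o φ v = ∑ y : Bool, D.sh o (D.N (n y)) * φ (y :: y :: v) := rfl

theorem loc_mul' {B : ℕ → (List Bool → R) → (List Bool → R)} (hB : Lc D B) (q : ℕ)
    {p p' : ℕ} {T : R} (hT : D.Loc p p' T) (o : ℕ) (ψ : List Bool → R) (v : List Bool) :
    atp n B q (o + p') (fun v => D.sh o T * ψ v) v = D.sh o T * atp n B q (o + p) ψ v :=
  (hB.atp q).loc p p' T hT o ψ v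

theorem sr_cup {B : ℕ → (List Bool → R) → (List Bool → R)} (hB : Lc D B) (q : ℕ) (o : ℕ)
    (φ : List Bool → R) :
    base D n .cup o (atp n B q o φ) = atp n B (q + 2) o (base D n .cup o φ) := by
  funext ℓ
  rcases ℓ with _ | ⟨y, _ | ⟨z, v⟩⟩
  · rfl
  · rfl
  · rw [cup_base, atp_succ_cons, atp_succ_cons]
    simp only [cup_base]
    by_cases h : y = z
    · subst h
      simp only [if_true]
      have h1 := loc_mul' (n := n) hB q (D.nt_U (n y)).loc o φ v
      rw [Nat.add_zero, two_mul, ← Nat.add_assoc] at h1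
      exact h1.symm
    · simp only [h, if_false]
      exact ((hB.atp q).zero _ _).symm

theorem sr_cap {B : ℕ → (List Bool → R) → (List Bool → R)} (hB : Lc D B) (q : ℕ) (o : ℕ)
    (φ : List Bool → R) :
    base D n .cap o (atp n B (q + 2) o φ) = atp n B q o (base D n .cap o φ) := by
  funext v
  rw [cap_base]
  simp only [atp_succ_cons]
  have e : base D n .cap o φ = fun v => D.sh o (D.N (n true)) * φ (true :: true :: v) +
      D.sh o (D.N (n false)) * φ (false :: false :: v) := by
    funext v
    rw [cap_base, Fintype.sum_bool]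
  rw [e, (hB.atp q).add, Fintype.sum_bool]
  have h1 : ∀ y : Bool, D.sh o (D.N (n y)) *
      atp n B q (o + n y + n y) (fun v => φ (y :: y :: v)) v =
      atp n B q o (fun v => D.sh o (D.N (n y)) * φ (y :: y :: v)) v := by
    intro y
    have h1 := loc_mul' (n := n) hB q (D.nt_N (n y)).loc o (fun v => φ (y :: y :: v)) v
    rw [Nat.add_zero, two_mul, ← Nat.add_assoc] at h1
    exact h1.symm
  rw [h1, h1]

theorem sr_pos {B : ℕ → (List Bool → R) → (List Bool → R)} (hB : Lc D B) (q : ℕ) (o : ℕ)
    (φ : List Bool → R) :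
    base D n .pos o (atp n B (q + 2) o φ) = atp n B (q + 2) o (base D n .pos o φ) := by
  funext ℓ
  rcases ℓ with _ | ⟨z, _ | ⟨y, v⟩⟩
  · rfl
  · rfl
  · show D.sh o (D.X (n y) (n z)) * atp n B q (o + n y + n z) (fun v => φ (y :: z :: v)) v =
      atp n B q (o + n z + n y) (fun v => D.sh o (D.X (n y) (n z)) * φ (y :: z :: v)) v
    have h1 := loc_mul' (n := n) hB q (D.nt_X (n y) (n z)).loc o (fun v => φ (y :: z :: v)) v
    rw [← Nat.add_assoc, ← Nat.add_assoc] at h1
    exact h1.symm

theorem sr_neg {B : ℕ → (List Bool → R) → (List Bool → R)} (hB : Lc D B) (q : ℕ) (o : ℕ)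
    (φ : List Bool → R) :
    base D n .neg o (atp n B (q + 2) o φ) = atp n B (q + 2) o (base D n .neg o φ) := by
  funext ℓ
  rcases ℓ with _ | ⟨z, _ | ⟨y, v⟩⟩
  · rfl
  · rfl
  · show D.sh o (D.mirror.X (n y) (n z)) *
        atp n B q (o + n y + n z) (fun v => φ (y :: z :: v)) v =
      atp n B q (o + n z + n y) (fun v => D.sh o (D.mirror.X (n y) (n z)) * φ (y :: z :: v)) v
    have hl : D.Loc (n y + n z) (n z + n y) (D.mirror.X (n y) (n z)) := by
      have := (D.mirror.nt_X (n y) (n z)).mirror
      rw [D.mirror_mirror] at this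
      exact this.loc
    have h1 := loc_mul' (n := n) hB q hl o (fun v => φ (y :: z :: v)) v
    rw [← Nat.add_assoc, ← Nat.add_assoc] at h1
    exact h1.symm

variable {F}

theorem cup_rel (hF : DuF D n F) (o : ℕ) (φ : List Bool → R) :
    bC D F o (base D n .cup o φ) = atp n (bC D F) 1 o (base D n .cup o φ) := by
  funext ℓ
  rcases ℓ with _ | ⟨y, _ | ⟨z, v⟩⟩
  · rfl
  · show D.sh o (F y) * 0 = 0
    rw [mul_zero]
  · show D.sh o (F y) * (if (!y) = z then D.sh o (D.U (n (!y))) * φ v else 0) =
      D.sh (o + n y) (F z) * (if y = (!z) then D.sh o (D.U (n y)) * φ v else 0)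
    have h2 : ((!y) = z) ↔ (y = (!z)) := by cases y <;> cases z <;> simp
    by_cases h : (!y) = z
    · rw [if_pos h, if_pos (h2.1 h), ← h, D.sh_add, ← mul_assoc, ← map_mul, ← mul_assoc,
        ← map_mul, hF.cup]
    · rw [if_neg h, if_neg (fun h' => h (h2.2 h')), mul_zero, mul_zero]

theorem cap_rel (hF : DuF D n F) (o : ℕ) (φ : List Bool → R) :
    base D n .cap o (bC D F o φ) = base D n .cap o (atp n (bC D F) 1 o φ) := by
  funext v
  rw [cap_base, cap_base]
  have e : ∀ y : Bool, D.sh o (D.N (n y)) * bC D F o φ (y :: y :: v) =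
      D.sh o (D.N (n (!y))) * atp n (bC D F) 1 o φ ((!y) :: (!y) :: v) := by
    intro y
    show D.sh o (D.N (n y)) * (D.sh o (F y) * φ ((!y) :: y :: v)) =
      D.sh o (D.N (n (!y))) * (D.sh (o + n (!y)) (F (!y)) * φ ((!y) :: (!(!y)) :: v))
    rw [D.sh_add, ← mul_assoc, ← map_mul, ← mul_assoc, ← map_mul, hF.cap, Bool.not_not]
  rw [Fintype.sum_bool, Fintype.sum_bool, e, e, add_comm]
  rfl

theorem pos_rel (hF : DuF D n F) (o : ℕ) (φ : List Bool → R) :
    base D n .pos o (bC D F o φ) = atp n (bC D F) 1 o (base D n .pos o φ) := by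
  funext ℓ
  rcases ℓ with _ | ⟨z, _ | ⟨y, v⟩⟩
  · rfl
  · rfl
  · show D.sh o (D.X (n y) (n z)) * (D.sh o (F y) * φ ((!y) :: z :: v)) =
      D.sh (o + n z) (F y) * (D.sh o (D.X (n (!y)) (n z)) * φ ((!y) :: z :: v))
    rw [D.sh_add, ← mul_assoc, ← map_mul, ← mul_assoc, ← map_mul, (hF.nt y).left]

theorem pos_rel' (hF : DuF D n F) (o : ℕ) (φ : List Bool → R) :
    base D n .pos o (atp n (bC D F) 1 o φ) = bC D F o (base D n .pos o φ) := by
  funext ℓ
  rcases ℓ with _ | ⟨z, _ | ⟨y, v⟩⟩
  · rfl
  · show 0 = D.sh o (F z) * 0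
    rw [mul_zero]
  · show D.sh o (D.X (n y) (n z)) * (D.sh (o + n y) (F z) * φ (y :: (!z) :: v)) =
      D.sh o (F z) * (D.sh o (D.X (n y) (n (!z))) * φ (y :: (!z) :: v))
    rw [D.sh_add, ← mul_assoc, ← map_mul, ← mul_assoc, ← map_mul, (hF.nt z).right]

theorem neg_rel (hF : DuF D n F) (o : ℕ) (φ : List Bool → R) :
    base D n .neg o (bC D F o φ) = atp n (bC D F) 1 o (base D n .neg o φ) := by
  funext ℓ
  rcases ℓ with _ | ⟨z, _ | ⟨y, v⟩⟩
  · rfl
  · rfl
  · show D.sh o (D.mirror.X (n y) (n z)) * (D.sh o (F y) * φ ((!y) :: z :: v)) =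
      D.sh (o + n z) (F y) * (D.sh o (D.mirror.X (n (!y)) (n z)) * φ ((!y) :: z :: v))
    rw [D.sh_add, ← mul_assoc, ← map_mul, ← mul_assoc, ← map_mul, (hF.nt y).left']

theorem neg_rel' (hF : DuF D n F) (o : ℕ) (φ : List Bool → R) :
    base D n .neg o (atp n (bC D F) 1 o φ) = bC D F o (base D n .neg o φ) := by
  funext ℓ
  rcases ℓ with _ | ⟨z, _ | ⟨y, v⟩⟩
  · rfl
  · show 0 = D.sh o (F z) * 0
    rw [mul_zero]
  · show D.sh o (D.mirror.X (n y) (n z)) * (D.sh (o + n y) (F z) * φ (y :: (!z) :: v)) =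
      D.sh o (F z) * (D.sh o (D.mirror.X (n y) (n (!z))) * φ (y :: (!z) :: v))
    rw [D.sh_add, ← mul_assoc, ← map_mul, ← mul_assoc, ← map_mul, (hF.nt z).right']

/-! ### Letters, coupons and words -/

variable (D n F)

/-- The labelled value of a letter. -/
noncomputable def lop (x : Letter) (φ : List Bool → R) : List Bool → R :=
  atp n (base D n x.1) x.2 0 φ

/-- The coupon at the position `q`. -/
noncomputable def cop (q : ℕ) (φ : List Bool → R) : List Bool → R := atp n (bC D F) q 0 φ

/-- The labelled value of a word. -/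
noncomputable def EV : Word → (List Bool → R) → (List Bool → R)
  | [], φ => φ
  | x :: w, φ => EV w (lop D n x φ)

variable {D n F}

theorem slide_l (hF : DuF D n F) (k : Kind) {i q : ℕ} (h : q < i) (φ : List Bool → R) :
    lop D n (k, i) (cop D n F q φ) = cop D n F q (lop D n (k, i) φ) := by
  obtain ⟨c, rfl⟩ := Nat.exists_eq_add_of_lt h
  have e : q + c + 1 = (c + 1) + q := by ring
  unfold lop cop
  rw [e]
  show atp n (base D n k) (c + 1 + q) 0 (atp n (bC D F) q 0 φ) =
    atp n (bC D F) q 0 (atp n (base D n k) (c + 1 + q) 0 φ)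
  rw [← atp_atp, ← atp_atp]
  exact (atp_rel (fun o φ => sl_rel hF (lc_base D n k) c o φ) q 0 φ).symm

theorem slide_r (k : Kind) (i q : ℕ) (φ : List Bool → R) :
    lop D n (k, i) (cop D n F (i + k.inn + q) φ) =
      cop D n F (i + k.out + q) (lop D n (k, i) φ) := by
  unfold lop cop
  show atp n (base D n k) i 0 (atp n (bC D F) (i + k.inn + q) 0 φ) =
    atp n (bC D F) (i + k.out + q) 0 (atp n (base D n k) i 0 φ)
  cases k with
  | cup =>
    rw [show i + Kind.cup.inn + q = q + i by simp [Kind.inn]; omega,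
      show i + Kind.cup.out + q = (q + 2) + i by simp [Kind.out]; omega, ← atp_atp, ← atp_atp]
    exact atp_rel (fun o φ => sr_cup (lc_bC D F) q o φ) i 0 φ
  | cap =>
    rw [show i + Kind.cap.inn + q = (q + 2) + i by simp [Kind.inn]; omega,
      show i + Kind.cap.out + q = q + i by simp [Kind.out]; omega, ← atp_atp, ← atp_atp]
    exact atp_rel (fun o φ => sr_cap (lc_bC D F) q o φ) i 0 φ
  | pos =>
    rw [show i + Kind.pos.inn + q = (q + 2) + i by simp [Kind.inn]; omega,
      show i + Kind.pos.out + q = (q + 2) + i by simp [Kind.out]; omega, ← atp_atp, ← atp_atp]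
    exact atp_rel (fun o φ => sr_pos (lc_bC D F) q o φ) i 0 φ
  | neg =>
    rw [show i + Kind.neg.inn + q = (q + 2) + i by simp [Kind.inn]; omega,
      show i + Kind.neg.out + q = (q + 2) + i by simp [Kind.out]; omega, ← atp_atp, ← atp_atp]
    exact atp_rel (fun o φ => sr_neg (lc_bC D F) q o φ) i 0 φ

theorem slide_cp (hF : DuF D n F) (i : ℕ) (φ : List Bool → R) :
    cop D n F i (lop D n (.cup, i) φ) = cop D n F (i + 1) (lop D n (.cup, i) φ) := by
  unfold lop cop
  show atp n (bC D F) i 0 (atp n (base D n .cup) i 0 φ) =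
    atp n (bC D F) (i + 1) 0 (atp n (base D n .cup) i 0 φ)
  rw [Nat.add_comm i 1, ← atp_atp]
  exact atp_rel (fun o φ => cup_rel hF o φ) i 0 φ

theorem slide_cp' (hF : DuF D n F) (i : ℕ) (φ : List Bool → R) :
    lop D n (.cap, i) (cop D n F i φ) = lop D n (.cap, i) (cop D n F (i + 1) φ) := by
  unfold lop cop
  show atp n (base D n .cap) i 0 (atp n (bC D F) i 0 φ) =
    atp n (base D n .cap) i 0 (atp n (bC D F) (i + 1) 0 φ)
  rw [Nat.add_comm i 1, ← atp_atp]
  exact atp_rel (fun o φ => cap_rel hF o φ) i 0 φ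

theorem slide_x (hF : DuF D n F) {k : Kind} (hk : k = .pos ∨ k = .neg) (i : ℕ)
    (φ : List Bool → R) :
    lop D n (k, i) (cop D n F i φ) = cop D n F (i + 1) (lop D n (k, i) φ) ∧
      lop D n (k, i) (cop D n F (i + 1) φ) = cop D n F i (lop D n (k, i) φ) := by
  unfold lop cop
  show atp n (base D n k) i 0 (atp n (bC D F) i 0 φ) =
      atp n (bC D F) (i + 1) 0 (atp n (base D n k) i 0 φ) ∧
    atp n (base D n k) i 0 (atp n (bC D F) (i + 1) 0 φ) =
      atp n (bC D F) i 0 (atp n (base D n k) i 0 φ)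
  rw [Nat.add_comm i 1, ← atp_atp, ← atp_atp]
  rcases hk with rfl | rfl
  · exact ⟨atp_rel (fun o φ => pos_rel hF o φ) i 0 φ, atp_rel (fun o φ => pos_rel' hF o φ) i 0 φ⟩
  · exact ⟨atp_rel (fun o φ => neg_rel hF o φ) i 0 φ, atp_rel (fun o φ => neg_rel' hF o φ) i 0 φ⟩

/-- The operators with the coupon at the points of the levels label the strands. -/
theorem run_cop (hF : DuF D n F) {w : Word} {α : Type} {ℓ : List α} {L₁ : List (List α)}
    {ℓ' : List α} (E : (List Bool → R) → (List Bool → R)) (h : Run w (ℓ :: L₁))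
    (hl : (ℓ :: L₁).getLast? = some ℓ') :
    ∃ L : List (List ((List Bool → R) → (List Bool → R))),
      Run w (((List.range ℓ.length).map
        (fun q => fun φ => EV D n w (cop D n F q (E φ)))) :: L) ∧
      (((List.range ℓ.length).map
        (fun q => fun φ => EV D n w (cop D n F q (E φ)))) :: L).getLast? =
        some ((List.range ℓ'.length).map
          (fun q => fun φ => cop D n F q (EV D n w (E φ)))) := by
  induction w generalizing ℓ L₁ E with
  | nil =>
    cases h
    simp only [List.getLast?_singleton, Option.some.injEq] at hl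
    subst hl
    exact ⟨[], Run.nil _, rfl⟩
  | cons x w ih =>
    cases h with
    | cons hs hr =>
      rename_i ℓ₁ rest
      rw [List.getLast?_cons_cons] at hl
      obtain ⟨L, hL1, hL2⟩ := ih (fun φ => lop D n x (E φ)) hr hl
      refine ⟨_, Run.cons ?_ hL1, ?_⟩
      · obtain ⟨k, i⟩ := x
        refine step_range hs _ _ ?_ ?_ ?_ ?_ ?_
        · intro q hq
          funext φ
          show EV D n w (lop D n (k, i) (cop D n F q (E φ))) =
            EV D n w (cop D n F q (lop D n (k, i) (E φ)))
          rw [slide_l hF k hq]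
        · intro q
          funext φ
          show EV D n w (lop D n (k, i) (cop D n F (i + k.inn + q) (E φ))) =
            EV D n w (cop D n F (i + k.out + q) (lop D n (k, i) (E φ)))
          rw [slide_r]
        · intro hk
          dsimp only at hk ⊢
          subst hk
          funext φ
          rw [slide_cp hF]
        · intro hk
          dsimp only at hk ⊢
          subst hk
          funext φ
          show EV D n w (lop D n (.cap, i) (cop D n F i (E φ))) =
            EV D n w (lop D n (.cap, i) (cop D n F (i + 1) (E φ)))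
          rw [slide_cp' hF]
        · intro hk
          dsimp only at hk ⊢
          constructor
          · funext φ
            show EV D n w (lop D n (k, i) (cop D n F i (E φ))) =
              EV D n w (cop D n F (i + 1) (lop D n (k, i) (E φ)))
            rw [(slide_x hF hk i _).1]
          · funext φ
            show EV D n w (lop D n (k, i) (cop D n F (i + 1) (E φ))) =
              EV D n w (cop D n F i (lop D n (k, i) (E φ)))
            rw [(slide_x hF hk i _).2]
      · rw [List.getLast?_cons_cons, hL2]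
        rfl

/-- The coupon slides along the knot. -/
theorem knot_cop (hF : DuF D n F) {w : Word} (hw : IsKnot w) (φ : List Bool → R) :
    EV D n w (cop D n F 0 φ) = cop D n F 0 (EV D n w φ) := by
  obtain ⟨L, hL, hl⟩ := hw.1
  obtain ⟨L', h1, h2⟩ := run_cop hF id hL hl
  have h3 := hw.2 _ _ _ h1
  obtain ⟨L₀, hL₀⟩ := getLast?_split h2
  have h4 := h3 ((List.range ([()] : List Unit).length).map
    (fun q => fun φ => cop D n F q (EV D n w (id φ)))) (by
      have : (List.range ([()] : List Unit).length).map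
        (fun q => fun φ => EV D n w (cop D n F q (id φ))) :: L' = _ := hL₀
      show _ ∈ (List.range ([()] : List Unit).length).map
        (fun q => fun φ => EV D n w (cop D n F q (id φ))) :: L'
      rw [this]
      simp) (fun φ => cop D n F 0 (EV D n w φ)) (by
      show _ ∈ [fun φ => cop D n F 0 (EV D n w (id φ))]
      exact List.mem_singleton.2 rfl)
  exact (congrFun h4 φ).symm

/-! ### Values on one labelling -/

variable (D n)

/-- The function with one value. -/
noncomputable def sgl (ℓ : List Bool) (r : R) : List Bool → R := fun ℓ' => if ℓ' = ℓ then r else 0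

/-- Functions on the lists which start with `u`. -/
noncomputable def pre (φ : List Bool → R) : List Bool → (List Bool → R)
  | [] => φ
  | y :: u => fun ℓ => match ℓ with
    | [] => 0
    | z :: ℓ => if z = y then pre φ u ℓ else 0

theorem pre_sgl (t : List Bool) (r : R) (u : List Bool) : pre (sgl t r) u = sgl (u ++ t) r := by
  induction u with
  | nil => rfl
  | cons y u ih =>
    funext ℓ
    cases ℓ with
    | nil => simp [pre, sgl]
    | cons z ℓ =>
      by_cases h : z = y
      · simp [pre, ih, h, sgl]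
      · simp [pre, h, sgl]

theorem pre_add (φ ψ : List Bool → R) (u : List Bool) :
    pre (fun v => φ v + ψ v) u = fun v => pre φ u v + pre ψ u v := by
  induction u with
  | nil => rfl
  | cons y u ih =>
    funext ℓ
    cases ℓ with
    | nil => simp [pre]
    | cons z ℓ =>
      by_cases h : z = y
      · simp [pre, ih, h]
      · simp [pre, h]

theorem pre_zero (u : List Bool) : pre (fun _ => (0 : R)) u = fun _ => 0 := by
  induction u with
  | nil => rfl
  | cons y u ih =>
    funext ℓ
    cases ℓ with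
    | nil => rfl
    | cons z ℓ => simp [pre, ih]

variable {D n}

theorem atp_pre {B : ℕ → (List Bool → R) → (List Bool → R)} (hB : Lc D B) (φ : List Bool → R)
    (u : List Bool) : ∀ o, atp n B u.length o (pre φ u) = pre (B (o + (u.map n).sum) φ) u := by
  induction u with
  | nil =>
    intro o
    simp [atp, pre]
  | cons y u ih =>
    intro o
    funext ℓ
    cases ℓ with
    | nil => rfl
    | cons z ℓ =>
      show atp n B u.length (o + n z) (fun v => if z = y then pre φ u v else 0) ℓ =
        if z = y then pre (B (o + ((y :: u).map n).sum) φ) u ℓ else 0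
      by_cases h : z = y
      · subst h
        simp only [if_true]
        rw [ih, List.map_cons, List.sum_cons, ← Nat.add_assoc]
      · simp only [h, if_false]
        exact (hB.atp _).zero _ _

theorem lop_sgl (k : Kind) (u t : List Bool) (r : R) : lop D n (k, u.length) (sgl (u ++ t) r) =
    pre (base D n k (u.map n).sum (sgl t r)) u := by
  unfold lop
  show atp n (base D n k) u.length 0 (sgl (u ++ t) r) = _
  rw [← pre_sgl, atp_pre (lc_base D n k), Nat.zero_add]

theorem lop_cup (u v : List Bool) (r : R) : lop D n (.cup, u.length) (sgl (u ++ v) r) =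
    fun ℓ => sgl (u ++ true :: true :: v) (D.sh (u.map n).sum (D.U (n true)) * r) ℓ +
      sgl (u ++ false :: false :: v) (D.sh (u.map n).sum (D.U (n false)) * r) ℓ := by
  have e : base D n .cup (u.map n).sum (sgl v r) = fun ℓ =>
      sgl (true :: true :: v) (D.sh (u.map n).sum (D.U (n true)) * r) ℓ +
      sgl (false :: false :: v) (D.sh (u.map n).sum (D.U (n false)) * r) ℓ := by
    funext ℓ
    rcases ℓ with _ | ⟨y, _ | ⟨z, v'⟩⟩
    · simp [base, sgl]
    · simp [base, sgl]
    · cases y <;> cases z <;> simp [base, sgl]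
  rw [lop_sgl, e, pre_add, pre_sgl, pre_sgl]

theorem lop_cap (u v : List Bool) (y : Bool) (r : R) :
    lop D n (.cap, u.length) (sgl (u ++ y :: y :: v) r) =
      sgl (u ++ v) (D.sh (u.map n).sum (D.N (n y)) * r) := by
  have e : base D n .cap (u.map n).sum (sgl (y :: y :: v) r) =
      sgl v (D.sh (u.map n).sum (D.N (n y)) * r) := by
    funext v'
    cases y <;> simp [base, sgl]
  rw [lop_sgl, e, pre_sgl]

theorem lop_cap_ne (u v : List Bool) {y z : Bool} (h : y ≠ z) (r : R) :
    lop D n (.cap, u.length) (sgl (u ++ y :: z :: v) r) = fun _ => 0 := by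
  have e : base D n .cap (u.map n).sum (sgl (y :: z :: v) r) = fun _ => 0 := by
    funext v'
    cases y <;> cases z <;> simp [base, sgl] at h ⊢
  rw [lop_sgl, e, pre_zero]

theorem lop_pos (u v : List Bool) (y z : Bool) (r : R) :
    lop D n (.pos, u.length) (sgl (u ++ y :: z :: v) r) =
      sgl (u ++ z :: y :: v) (D.sh (u.map n).sum (D.X (n y) (n z)) * r) := by
  have e : base D n .pos (u.map n).sum (sgl (y :: z :: v) r) =
      sgl (z :: y :: v) (D.sh (u.map n).sum (D.X (n y) (n z)) * r) := by
    funext ℓ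
    rcases ℓ with _ | ⟨y', _ | ⟨z', v'⟩⟩
    · simp [base, sgl]
    · simp [base, sgl]
    · cases y <;> cases z <;> cases y' <;> cases z' <;> simp [base, sgl]
  rw [lop_sgl, e, pre_sgl]

theorem lop_neg (u v : List Bool) (y z : Bool) (r : R) :
    lop D n (.neg, u.length) (sgl (u ++ y :: z :: v) r) =
      sgl (u ++ z :: y :: v) (D.sh (u.map n).sum (D.mirror.X (n y) (n z)) * r) := by
  have e : base D n .neg (u.map n).sum (sgl (y :: z :: v) r) =
      sgl (z :: y :: v) (D.sh (u.map n).sum (D.mirror.X (n y) (n z)) * r) := by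
    funext ℓ
    rcases ℓ with _ | ⟨y', _ | ⟨z', v'⟩⟩
    · simp [base, sgl]
    · simp [base, sgl]
    · cases y <;> cases z <;> cases y' <;> cases z' <;> simp [base, sgl]
  rw [lop_sgl, e, pre_sgl]

theorem lop_zero (x : Letter) : lop D n x (fun _ => 0) = fun _ => 0 := by
  funext ℓ
  exact ((lc_base D n x.1).atp x.2).zero 0 ℓ

theorem lop_add (x : Letter) (φ ψ : List Bool → R) :
    lop D n x (fun v => φ v + ψ v) = fun v => lop D n x φ v + lop D n x ψ v := by
  funext ℓ
  exact ((lc_base D n x.1).atp x.2).add 0 φ ψ ℓ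

theorem EV_zero (w : Word) : EV D n w (fun _ => 0) = fun _ => 0 := by
  induction w with
  | nil => rfl
  | cons x w ih => rw [EV, lop_zero, ih]

theorem EV_add (w : Word) (φ ψ : List Bool → R) :
    EV D n w (fun v => φ v + ψ v) = fun v => EV D n w φ v + EV D n w ψ v := by
  induction w generalizing φ ψ with
  | nil => rfl
  | cons x w ih => rw [EV, lop_add, ih, EV, EV]

theorem EV_add' (w : Word) (φ ψ : List Bool → R) (t : List Bool) :
    EV D n w (fun v => φ v + ψ v) t = EV D n w φ t + EV D n w ψ t :=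
  congrFun (EV_add w φ ψ) t

/-- If no run leads from `ℓ` to `t`, the value is zero. -/
theorem EV_vanish {w : Word} {a b : ℕ} (h : Len w a b) (t : List Bool) :
    ∀ (ℓ : List Bool) (r : R), ℓ.length = a →
      (∀ L, Run w (ℓ :: L) → (ℓ :: L).getLast? ≠ some t) → EV D n w (sgl ℓ r) t = 0 := by
  induction h with
  | nil a =>
    intro ℓ r _ hno
    have h := hno [] (Run.nil ℓ)
    simp only [List.getLast?_singleton, ne_eq, Option.some.injEq] at h
    show (if t = ℓ then r else 0) = 0
    rw [if_neg (fun h' => h h'.symm)]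
  | @cup w i a b hi hw ih =>
    intro ℓ r hl hno
    obtain ⟨u, v, rfl, rfl⟩ := split_le hl hi
    have key : ∀ (y : Bool) (r' : R), EV D n w (sgl (u ++ y :: y :: v) r') t = 0 := by
      intro y r'
      refine ih _ _ (by rw [← hl]; simp; omega) fun L hL => ?_
      have := hno _ (Run.cons (Step.cup u v y) hL)
      rwa [List.getLast?_cons_cons] at this
    rw [EV, lop_cup, EV_add', key, key, add_zero]
  | @cap w i a b hi hw ih =>
    intro ℓ r hl hno
    obtain ⟨u, v, y, z, rfl, rfl⟩ := split_two hl hi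
    by_cases h : y = z
    · subst h
      rw [EV, lop_cap]
      refine ih _ _ (by simp at hl ⊢; omega) fun L hL => ?_
      have := hno _ (Run.cons (Step.cap u v y) hL)
      rwa [List.getLast?_cons_cons] at this
    · rw [EV, lop_cap_ne u v h, EV_zero]
  | @pos w i a b hi hw ih =>
    intro ℓ r hl hno
    obtain ⟨u, v, y, z, rfl, rfl⟩ := split_two hl hi
    rw [EV, lop_pos]
    refine ih _ _ (by rw [← hl]; simp) fun L hL => ?_
    have := hno _ (Run.cons (Step.pos u v y z) hL)
    rwa [List.getLast?_cons_cons] at this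
  | @neg w i a b hi hw ih =>
    intro ℓ r hl hno
    obtain ⟨u, v, y, z, rfl, rfl⟩ := split_two hl hi
    rw [EV, lop_neg]
    refine ih _ _ (by rw [← hl]; simp) fun L hL => ?_
    have := hno _ (Run.cons (Step.neg u v y z) hL)
    rwa [List.getLast?_cons_cons] at this

theorem sum_const {u : List Bool} {y : Bool} (h : ∀ x ∈ u, x = y) :
    (u.map n).sum = n y * u.length := by
  induction u with
  | nil => simp
  | cons x u ih =>
    rw [List.map_cons, List.sum_cons, ih (fun z hz => h z (by simp [hz])), h x (by simp),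
      List.length_cons]
    ring

/-- If all runs from `ℓ` to `t` are constant, the value is the value of the cable. -/
theorem EV_const (t : List Bool) (y : Bool) (w : Word) :
    ∀ (ℓ : List Bool) (L : List (List Bool)), Run w (ℓ :: L) → (ℓ :: L).getLast? = some t →
      (∀ L', Run w (ℓ :: L') → (ℓ :: L').getLast? = some t → ∀ ℓ' ∈ ℓ :: L', ∀ x ∈ ℓ', x = y) →
      ∀ r, EV D n w (sgl ℓ r) t = D.ev (n y) w * r := by
  induction w with
  | nil =>
    intro ℓ L h hl _ r
    cases h
    simp only [List.getLast?_singleton, Option.some.injEq] at hl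
    subst hl
    show (if ℓ = ℓ then r else 0) = (1 : R) * r
    rw [if_pos rfl, one_mul]
  | cons x w ih =>
    intro ℓ L h hl hall r
    have hall0 := hall L h hl
    cases h with
    | @cons _ _ _ ℓ' rest hs hr =>
      rw [List.getLast?_cons_cons] at hl
      have hev : D.ev (n y) (x :: w) = D.ev (n y) w * D.evL (n y) x := rfl
      cases hs with
      | cup u v z =>
        have hz : z = y := hall0 (u ++ z :: z :: v) (by simp) z (by simp)
        subst hz
        have hu : ∀ x ∈ u, x = z := fun x hx => hall0 (u ++ z :: z :: v) (by simp) x (by simp [hx])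
        have h1 : EV D n w (sgl (u ++ z :: z :: v) (D.sh (u.map n).sum (D.U (n z)) * r)) t =
            D.ev (n z) w * (D.sh (u.map n).sum (D.U (n z)) * r) :=
          ih _ _ hr hl (fun L' hL' hl' ℓ'' hℓ'' => hall _ (Run.cons (Step.cup u v z) hL')
            (by rw [List.getLast?_cons_cons]; exact hl') ℓ'' (List.mem_cons_of_mem _ hℓ'')) _
        have h2 : ∀ r', EV D n w (sgl (u ++ (!z) :: (!z) :: v) r') t = 0 := by
          intro r'
          refine EV_vanish (hr.len rfl hl) t _ _ (by simp) fun L' hL' hl' => ?_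
          have h3 := hall _ (Run.cons (Step.cup u v (!z)) hL')
            (by rw [List.getLast?_cons_cons]; exact hl') (u ++ (!z) :: (!z) :: v) (by simp)
            (!z) (by simp)
          cases z <;> simp at h3
        rw [EV, lop_cup, EV_add', hev, mul_assoc]
        have e : D.evL (n z) (Kind.cup, u.length) = D.sh (u.map n).sum (D.U (n z)) := by
          rw [sum_const hu]
          rfl
        rw [e]
        cases z with
        | true =>
          rw [h1]
          have h3 := h2 (D.sh (u.map n).sum (D.U (n false)) * r)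
          rw [Bool.not_true] at h3
          rw [h3, add_zero]
        | false =>
          rw [h1]
          have h3 := h2 (D.sh (u.map n).sum (D.U (n true)) * r)
          rw [Bool.not_false] at h3
          rw [h3, zero_add]
      | cap u v z =>
        have hz : z = y := hall0 (u ++ z :: z :: v) (by simp) z (by simp)
        subst hz
        have hu : ∀ x ∈ u, x = z := fun x hx => hall0 (u ++ z :: z :: v) (by simp) x (by simp [hx])
        have e : D.evL (n z) (Kind.cap, u.length) = D.sh (u.map n).sum (D.N (n z)) := by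
          rw [sum_const hu]
          rfl
        rw [EV, lop_cap, hev, mul_assoc, e]
        exact ih _ _ hr hl (fun L' hL' hl' ℓ'' hℓ'' => hall _ (Run.cons (Step.cap u v z) hL')
            (by rw [List.getLast?_cons_cons]; exact hl') ℓ'' (List.mem_cons_of_mem _ hℓ'')) _
      | pos u v z z' =>
        have hz : z = y := hall0 (u ++ z :: z' :: v) (by simp) z (by simp)
        have hz' : z' = y := hall0 (u ++ z :: z' :: v) (by simp) z' (by simp)
        subst hz
        subst hz'
        have hu : ∀ x ∈ u, x = z' := fun x hx =>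
          hall0 (u ++ z' :: z' :: v) (by simp) x (by simp [hx])
        have e : D.evL (n z') (Kind.pos, u.length) =
            D.sh (u.map n).sum (D.X (n z') (n z')) := by
          rw [sum_const hu]
          rfl
        rw [EV, lop_pos, hev, mul_assoc, e]
        exact ih _ _ hr hl (fun L' hL' hl' ℓ'' hℓ'' => hall _ (Run.cons (Step.pos u v z' z') hL')
            (by rw [List.getLast?_cons_cons]; exact hl') ℓ'' (List.mem_cons_of_mem _ hℓ'')) _
      | neg u v z z' =>
        have hz : z = y := hall0 (u ++ z :: z' :: v) (by simp) z (by simp)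
        have hz' : z' = y := hall0 (u ++ z :: z' :: v) (by simp) z' (by simp)
        subst hz
        subst hz'
        have hu : ∀ x ∈ u, x = z' := fun x hx =>
          hall0 (u ++ z' :: z' :: v) (by simp) x (by simp [hx])
        have e : D.evL (n z') (Kind.neg, u.length) =
            D.sh (u.map n).sum (D.mirror.X (n z') (n z')) := by
          rw [sum_const hu]
          rfl
        rw [EV, lop_neg, hev, mul_assoc, e]
        exact ih _ _ hr hl (fun L' hL' hl' ℓ'' hℓ'' => hall _ (Run.cons (Step.neg u v z' z') hL')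
            (by rw [List.getLast?_cons_cons]; exact hl') ℓ'' (List.mem_cons_of_mem _ hℓ'')) _

theorem step_map {α β : Type} (f : α → β) {x : Letter} {ℓ ℓ' : List α} (h : Step x ℓ ℓ') :
    Step x (ℓ.map f) (ℓ'.map f) := by
  cases h with
  | cup u v y =>
    rw [List.map_append, List.map_append, List.map_cons, List.map_cons,
      ← List.length_map (as := u) f]
    exact Step.cup _ _ _
  | cap u v y =>
    rw [List.map_append, List.map_append, List.map_cons, List.map_cons,
      ← List.length_map (as := u) f]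
    exact Step.cap _ _ _
  | pos u v y z =>
    rw [List.map_append, List.map_append, List.map_cons, List.map_cons, List.map_cons,
      List.map_cons, ← List.length_map (as := u) f]
    exact Step.pos _ _ _ _
  | neg u v y z =>
    rw [List.map_append, List.map_append, List.map_cons, List.map_cons, List.map_cons,
      List.map_cons, ← List.length_map (as := u) f]
    exact Step.neg _ _ _ _

theorem run_map {α β : Type} (f : α → β) {w : Word} {L : List (List α)} (h : Run w L) :
    Run w (L.map (List.map f)) := by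
  induction h with
  | nil ℓ => exact Run.nil _
  | cons hs _ ih => exact Run.cons (step_map f hs) ih

theorem knot_diag {w : Word} (hw : IsKnot w) (y : Bool) (r : R) :
    EV D n w (sgl [y] r) [y] = D.ev (n y) w * r := by
  obtain ⟨L, hL, hl⟩ := hw.1
  have h1 := run_map (fun _ : Unit => y) hL
  have h2 := congrArg (Option.map (List.map (fun _ : Unit => y))) hl
  rw [← List.getLast?_map] at h2
  exact EV_const [y] y w [y] _ h1 h2 (fun L' hL' _ => hw.2 _ y L' hL') r

/-- The natural operators with a rotation dual slide along knots. -/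
theorem knot_retract {F : Bool → R} (hF : DuF D n F) {w : Word} (hw : IsKnot w) :
    D.ev (n true) w * F true = F true * D.ev (n false) w := by
  have h := congrFun (knot_cop hF hw (sgl [false] 1)) [true]
  have e1 : cop D n F 0 (sgl [false] 1) = sgl [true] (F true) := by
    funext ℓ
    rcases ℓ with _ | ⟨y, v⟩
    · simp [cop, atp, bC, sgl]
    · cases y
      · simp [cop, atp, bC, sgl]
      · by_cases hv : v = []
        · simp [cop, atp, bC, sgl, hv]
        · simp [cop, atp, bC, sgl, hv]
  have e2 : cop D n F 0 (EV D n w (sgl [false] 1)) [true] =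
      F true * EV D n w (sgl [false] 1) [false] := rfl
  rw [e1, e2, knot_diag hw, knot_diag hw, mul_one] at h
  exact h

end

end Ret

/-! ### The retraction of a cup -/

namespace TLData

variable {R : Type} [Ring R] [Algebra ℝ R] (D : TLData R)

/-- Sliding along a knot, in terms of one natural operator and its dual. -/
theorem slide_knot {a b : ℕ} {f f' : R} (hf : D.Nt a b f) (hf' : D.Nt b a f')
    (c1 : f * D.U a = D.sh b f' * D.U b) (c2 : f' * D.U b = D.sh a f * D.U a)
    (c3 : D.N b * f = D.N a * D.sh a f') (c4 : D.N a * f' = D.N b * D.sh b f)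
    {w : Word} (hw : IsKnot w) : D.ev b w * f = f * D.ev a w := by
  have hF : Ret.DuF D (fun y => cond y b a) (fun y => cond y f f') :=
    { nt := fun y => by cases y <;> assumption
      cup := fun y => by cases y <;> assumption
      cap := fun y => by cases y <;> assumption }
  exact Ret.knot_retract hF hw

theorem U_two : D.U 2 = D.sh 1 D.u * D.u := by
  show D.sh 1 D.u * (D.sh 0 D.u * D.U 0) = _
  rw [sh_zero]
  show D.sh 1 D.u * (D.u * 1) = _
  rw [mul_one]

theorem N_two : D.N 2 = D.n * D.sh 1 D.n := by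
  show D.N 0 * D.sh 0 D.n * D.sh 1 D.n = _
  rw [sh_zero]
  show 1 * D.n * D.sh 1 D.n = _
  rw [one_mul]

theorem sh1n_u : D.sh 1 D.n * D.u = 1 := D.Snu

theorem n_sh1u : D.n * D.sh 1 D.u = 1 := D.nSu

theorem sh2n_U2 : D.sh 2 D.n * D.U 2 = D.u := by
  have e2 : D.sh 2 D.n * D.sh 1 D.u = 1 := by
    have h : D.sh 1 (D.sh 1 D.n * D.u) = D.sh 1 1 := by rw [D.sh1n_u]
    rw [map_mul, map_one, ← D.sh_add] at h
    exact h
  rw [D.U_two, ← mul_assoc, e2, one_mul]

theorem n_U2 : D.n * D.U 2 = D.u := by
  rw [D.U_two, ← mul_assoc, D.n_sh1u, one_mul]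

theorem N2_u : D.N 2 * D.u = D.n := by
  rw [D.N_two, mul_assoc, D.sh1n_u, mul_one]

theorem N2_sh2u : D.N 2 * D.sh 2 D.u = D.n := by
  have e2 : D.sh 1 D.n * D.sh 2 D.u = 1 := by
    have h : D.sh 1 (D.n * D.sh 1 D.u) = D.sh 1 1 := by rw [D.n_sh1u]
    rw [map_mul, map_one, ← D.sh_add] at h
    exact h
  rw [D.N_two, mul_assoc, e2, mul_one]

theorem locU (m : ℕ) (Y : R) : D.U m * Y = D.sh (2 * m) Y * D.U m := (D.nt_U m).loc Y

theorem locN (m : ℕ) (Y : R) : D.N m * D.sh (2 * m) Y = Y * D.N m := (D.nt_N m).loc Y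

theorem locu (Y : R) : D.u * Y = D.sh 2 Y * D.u := (D.nt_u).loc Y

theorem locn (Y : R) : D.n * D.sh 2 Y = Y * D.n := (D.nt_n).loc Y

theorem cup_d1 (i k : ℕ) : D.sh i D.u * D.U (i + k) =
    D.sh (i + k + 2) (D.sh k D.n) * D.U (i + k + 2) := by
  have e1 : D.sh i D.u * D.U (i + k) = D.sh i (D.sh 2 (D.U k) * D.u) * D.U i := by
    rw [D.U_add, ← mul_assoc, ← map_mul, D.locu]
  have e2 : D.sh (i + k + 2) (D.sh k D.n) = D.sh i (D.sh 2 (D.sh (2 * k) D.n)) := by
    rw [← D.sh_add, ← D.sh_add, ← D.sh_add]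
    congr 2
    ring
  have e3 : D.U (i + k + 2) = D.sh i (D.sh 2 (D.U k) * D.U 2) * D.U i := by
    rw [show i + k + 2 = i + (2 + k) by ring, D.U_add, D.U_add 2 k]
  rw [e1, e2, e3, ← mul_assoc, ← map_mul]
  congr 2
  rw [← mul_assoc, ← map_mul, ← D.locU, map_mul, mul_assoc, D.sh2n_U2]

theorem cup_d2 (i k : ℕ) : D.sh k D.n * D.U (i + k + 2) =
    D.sh (i + k) (D.sh i D.u) * D.U (i + k) := by
  have e3 : D.U (i + k + 2) = D.sh k (D.sh 2 (D.U i) * D.U 2) * D.U k := by
    rw [show i + k + 2 = k + (2 + i) by ring, D.U_add, D.U_add 2 i]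
  have e4 : D.sh (i + k) (D.sh i D.u) * D.U (i + k) =
      D.sh k (D.sh (2 * i) D.u * D.U i) * D.U k := by
    rw [Nat.add_comm i k, D.U_add, ← D.sh_add, show k + i + i = k + 2 * i by ring, D.sh_add,
      map_mul, mul_assoc]
  rw [e3, e4, ← mul_assoc, ← map_mul]
  congr 2
  rw [← mul_assoc, D.locn, mul_assoc, D.n_U2, D.locU]

theorem cap_d1 (i k : ℕ) : D.N (i + k + 2) * D.sh i D.u =
    D.N (i + k) * D.sh (i + k) (D.sh k D.n) := by
  have e3 : D.N (i + k + 2) = D.N i * D.sh i (D.N 2 * D.sh 2 (D.N k)) := by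
    rw [show i + k + 2 = i + (2 + k) by ring, D.N_add, D.N_add 2 k]
  have e4 : D.N (i + k) * D.sh (i + k) (D.sh k D.n) =
      D.N i * D.sh i (D.N k * D.sh (2 * k) D.n) := by
    rw [D.N_add, ← D.sh_add, show i + k + k = i + 2 * k by ring, D.sh_add, map_mul, mul_assoc]
  rw [e3, e4, mul_assoc, ← map_mul]
  congr 2
  rw [mul_assoc, ← D.locu, ← mul_assoc, D.N2_u, D.locN]

theorem cap_d2 (i k : ℕ) : D.N (i + k) * D.sh k D.n =
    D.N (i + k + 2) * D.sh (i + k + 2) (D.sh i D.u) := by
  have e3 : D.N (i + k + 2) = D.N k * D.sh k (D.N 2 * D.sh 2 (D.N i)) := by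
    rw [show i + k + 2 = k + (2 + i) by ring, D.N_add, D.N_add 2 i]
  have e2 : D.sh (i + k + 2) (D.sh i D.u) = D.sh k (D.sh 2 (D.sh (2 * i) D.u)) := by
    rw [← D.sh_add, ← D.sh_add, ← D.sh_add]
    congr 2
    ring
  have e4 : D.N (i + k) * D.sh k D.n = D.N k * D.sh k (D.N i * D.n) := by
    rw [Nat.add_comm i k, D.N_add, map_mul, mul_assoc]
  rw [e2, e3, e4, mul_assoc (D.N k), ← map_mul]
  congr 2
  rw [mul_assoc, ← map_mul, D.locN, map_mul, ← mul_assoc, D.N2_sh2u, D.locn]

/-- A cup between neighbouring strands of the cable slides along the knot. -/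
theorem retract_u {w : Word} (hw : IsKnot w) {m i : ℕ} (h : i ≤ m) :
    D.ev (m + 2) w * D.sh i D.u = D.sh i D.u * D.ev m w := by
  obtain ⟨k, rfl⟩ := Nat.exists_eq_add_of_le h
  have h2 : D.Nt (i + k + 2) (i + k) (D.sh k D.n) := Nt.shn (by omega)
  exact D.slide_knot (Nt.shu h) h2 (D.cup_d1 i k) (D.cup_d2 i k) (D.cap_d1 i k) (D.cap_d2 i k) hw

/-- A cap between neighbouring strands of the cable slides along the knot. -/
theorem retract_n {w : Word} (hw : IsKnot w) {m i : ℕ} (h : i ≤ m) :
    D.ev m w * D.sh i D.n = D.sh i D.n * D.ev (m + 2) w := by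
  obtain ⟨k, rfl⟩ := Nat.exists_eq_add_of_le h
  have h1 : D.Nt (i + k) (i + k + 2) (D.sh k D.u) := Nt.shu (by omega)
  have h2 : D.Nt (i + k + 2) (i + k) (D.sh i D.n) := Nt.shn (by omega)
  refine D.slide_knot h2 h1 ?_ ?_ ?_ ?_ hw
  · have := D.cup_d2 k i
    rwa [Nat.add_comm k i] at this
  · have := D.cup_d1 k i
    rwa [Nat.add_comm k i] at this
  · have := D.cap_d2 k i
    rwa [Nat.add_comm k i] at this
  · have := D.cap_d1 k i
    rwa [Nat.add_comm k i] at this

/-! ### Operators which factor through `j` strands by retractable operators -/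

/-- Sums of products `c * T` through `j` strands such that `c` slides along the knot `w`. -/
def RThr (w : Word) (m j : ℕ) : AddSubgroup R :=
  AddSubgroup.closure {Y | ∃ c T, D.Nt j m c ∧ D.ev m w * c = c * D.ev j w ∧ D.Nt m j T ∧
    Y = c * T}

variable {D}

theorem RThr.mk {w : Word} {m j : ℕ} {c T : R} (hc : D.Nt j m c)
    (hw : D.ev m w * c = c * D.ev j w) (hT : D.Nt m j T) : c * T ∈ D.RThr w m j :=
  AddSubgroup.subset_closure ⟨c, T, hc, hw, hT, rfl⟩

theorem RThr.mul_right {w : Word} {m j : ℕ} {Y Z : R} (hY : Y ∈ D.RThr w m j)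
    (hZ : D.Nt m m Z) : Y * Z ∈ D.RThr w m j := by
  refine AddSubgroup.closure_induction (p := fun Y _ => Y * Z ∈ D.RThr w m j) ?_ ?_ ?_ ?_ hY
  · rintro _ ⟨c, T, hc, hw, hT, rfl⟩
    rw [mul_assoc]
    exact RThr.mk hc hw (hT.mul hZ)
  · rw [zero_mul]
    exact zero_mem _
  · intro x y _ _ hx hy
    rw [add_mul]
    exact add_mem hx hy
  · intro x _ hx
    rw [neg_mul]
    exact neg_mem hx

theorem RThr.smul {w : Word} {m j : ℕ} {Y : R} (hY : Y ∈ D.RThr w m j) (a : ℝ) :
    a • Y ∈ D.RThr w m j := by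
  refine AddSubgroup.closure_induction (p := fun Y _ => a • Y ∈ D.RThr w m j) ?_ ?_ ?_ ?_ hY
  · rintro _ ⟨c, T, hc, hw, hT, rfl⟩
    rw [← mul_smul_comm]
    exact RThr.mk hc hw (hT.smul a)
  · rw [smul_zero]
    exact zero_mem _
  · intro x y _ _ hx hy
    rw [smul_add]
    exact add_mem hx hy
  · intro x _ hx
    rw [smul_neg]
    exact neg_mem hx

theorem RThr.trans {w : Word} {m k j : ℕ} {c T Z : R} (hc : D.Nt k m c)
    (hw : D.ev m w * c = c * D.ev k w) (hT : D.Nt m k T)
    (hZ : Z ∈ D.RThr w k j) : c * Z * T ∈ D.RThr w m j := by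
  refine AddSubgroup.closure_induction (p := fun Z _ => c * Z * T ∈ D.RThr w m j) ?_ ?_ ?_ ?_ hZ
  · rintro _ ⟨c', T', hc', hw', hT', rfl⟩
    rw [← mul_assoc, mul_assoc (c * c')]
    refine RThr.mk (hc.mul hc') ?_ (hT'.mul hT)
    rw [← mul_assoc, hw, mul_assoc, hw', ← mul_assoc]
  · rw [mul_zero, zero_mul]
    exact zero_mem _
  · intro x y _ _ hx hy
    rw [mul_add, add_mul]
    exact add_mem hx hy
  · intro x _ hx
    rw [mul_neg, neg_mul]
    exact neg_mem hx

theorem RThr.scalar {w : Word} {m j : ℕ} {P P' : R} {t : ℝ}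
    (hP : ∀ c, D.Nt j m c → P * c = c * P') (ht : D.ev j w * P' = t • P') {Y : R}
    (hY : Y ∈ D.RThr w m j) : D.ev m w * (P * Y) = t • (P * Y) := by
  refine AddSubgroup.closure_induction
    (p := fun Y _ => D.ev m w * (P * Y) = t • (P * Y)) ?_ ?_ ?_ ?_ hY
  · rintro _ ⟨c, T, hc, hw, hT, rfl⟩
    have e : P * (c * T) = c * (P' * T) := by
      rw [← mul_assoc, hP c hc, mul_assoc]
    rw [e, ← mul_assoc, hw, mul_assoc, ← mul_assoc (D.ev j w), ht, smul_mul_assoc,
      mul_smul_comm]
  · rw [mul_zero, mul_zero, smul_zero]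
  · intro x y _ _ hx hy
    rw [mul_add, mul_add, hx, hy, smul_add]
  · intro x _ hx
    rw [mul_neg, mul_neg, hx, smul_neg]

variable (D)

theorem th_sub_mu_R {w : Word} (hw : IsKnot w) (m : ℕ) :
    D.th (m + 2) - D.mu (m + 2) • (1 : R) ∈ D.RThr w (m + 2) m := by
  have h := D.th_induct (m + 2)
    (fun Y c => D.Nt (m + 2) (m + 2) Y ∧ Y - c • (1 : R) ∈ D.RThr w (m + 2) m) ?_ ?_ ?_ ?_
    (m + 2) 0 (by omega)
  · exact h.2
  · refine ⟨D.nt_one _, ?_⟩
    rw [one_smul, sub_self]
    exact zero_mem _
  · rintro Y Z c d ⟨hY, hY'⟩ ⟨hZ, hZ'⟩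
    refine ⟨hY.mul hZ, ?_⟩
    have e : Y * Z - (c * d) • (1 : R) = (Y - c • (1 : R)) * Z + c • (Z - d • (1 : R)) := by
      rw [sub_mul, smul_sub, smul_mul_assoc, one_mul, smul_smul]
      abel
    rw [e]
    exact add_mem (RThr.mul_right hY' hZ) (RThr.smul hZ' c)
  · rintro Y c a ⟨hY, hY'⟩
    refine ⟨hY.smul a, ?_⟩
    rw [mul_smul, ← smul_sub]
    exact RThr.smul hY' a
  · intro i hi
    refine ⟨Nt.shsg (by omega), ?_⟩
    rw [sh_sg, add_sub_cancel_left]
    exact RThr.smul (RThr.mk (Nt.shu (by omega)) (D.retract_u hw (by omega))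
      (Nt.shn (by omega))) _

theorem hpoly_th_R {w : Word} (hw : IsKnot w) (j r : ℕ) :
    aeval (D.th (j + 2 * r)) (D.hpoly (j + 2 * r) j) ∈ D.RThr w (j + 2 * r) j := by
  induction r with
  | zero =>
    rw [Nat.mul_zero, Nat.add_zero, hpoly_self, map_one, ← mul_one (1 : R)]
    exact RThr.mk (D.nt_one j) (by rw [mul_one, one_mul]) (D.nt_one j)
  | succ r ih =>
    rw [show j + 2 * (r + 1) = j + 2 * r + 2 by ring, D.hpoly_succ (by omega), map_mul, map_sub,
      aeval_X, aeval_C, Algebra.algebraMap_eq_smul_one]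
    have hY := D.th_sub_mu_R hw (j + 2 * r)
    refine AddSubgroup.closure_induction
      (p := fun Y _ => aeval (D.th (j + 2 * r + 2)) (D.hpoly (j + 2 * r) j) * Y ∈
        D.RThr w (j + 2 * r + 2) j) ?_ ?_ ?_ ?_ hY
    · rintro _ ⟨c, T, hc, hw', hT, rfl⟩
      rw [← mul_assoc, aeval_comm hc.tw]
      exact RThr.trans hc hw' hT ih
    · rw [mul_zero]
      exact zero_mem _
    · intro x y _ _ hx hy
      rw [mul_add]
      exact add_mem hx hy
    · intro x _ hx
      rw [mul_neg]
      exact neg_mem hx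

end TLData

section

variable (A : ℝ) (hA : A ≠ 0) (h1 : 1 < A)
include h1

theorem Q_RThr {w : Word} (hw : IsKnot w) (M j : ℕ) (hj : j ∈ chans M) :
    Q A hA M j ∈ (tl A hA).RThr w M j := by
  have hj' := mem_chans.1 hj
  obtain ⟨r, rfl⟩ : ∃ r, M = j + 2 * r := ⟨(M - j) / 2, by omega⟩
  obtain ⟨q, hq⟩ := basis_hpoly (tl A hA) (j + 2 * r) j
  unfold Q
  rw [hq, mul_comm q, map_mul]
  exact TLData.RThr.mul_right ((tl A hA).hpoly_th_R hw j r) ((tl A hA).nt_aeval _ _)

theorem aeval_Q (m i : ℕ) (hi : i ∈ chans m) (p : ℝ[X]) :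
    aeval ((tl A hA).th m) p * Q A hA m i = (p.eval ((tl A hA).mu i)) • Q A hA m i := by
  induction p using Polynomial.induction_on with
  | C r =>
    rw [aeval_C, Algebra.algebraMap_eq_smul_one, smul_mul_assoc, one_mul, eval_C]
  | add p q hp hq =>
    rw [map_add, add_mul, hp, hq, eval_add, add_smul]
  | monomial n r ih =>
    rw [pow_succ, ← mul_assoc, map_mul, aeval_X, mul_assoc, th_Q A hA h1 m i hi, mul_smul_comm,
      ih, smul_smul, eval_mul_X, mul_comm]

/-- The projection to the channel `j` on `j` strands. -/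
theorem aeval_th_j (M j : ℕ) (hj : j ∈ chans M) :
    aeval ((tl A hA).th j) (Lagrange.basis (chans M) (tl A hA).mu j) = Q A hA j j := by
  have hj' := mem_chans.1 hj
  have e : aeval ((tl A hA).th j) (Lagrange.basis (chans M) (tl A hA).mu j) =
      aeval ((tl A hA).th j) (Lagrange.basis (chans M) (tl A hA).mu j) *
        ∑ i ∈ chans j, Q A hA j i := by
    rw [sum_Q A hA h1, mul_one]
  rw [e, mul_sum, sum_eq_single j]
  · rw [aeval_Q A hA h1 j j (self_mem_chans j), Lagrange.eval_basis_self
      (mu_injOn' A hA h1 (chans M)) hj, one_smul]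
  · intro i hi hij
    have hi' := mem_chans.1 hi
    rw [aeval_Q A hA h1 j i hi, Lagrange.eval_basis_of_ne (Ne.symm hij)
      (mem_chans.2 ⟨by omega, by omega⟩), zero_smul]
  · intro h
    exact absurd (self_mem_chans j) h

/-- MAIN RESULT of this file: on the channel `j` the value of the `M`-cable of a knot is the
scalar by which the `j`-cable acts on its top channel. -/
theorem ev_Q {w : Word} (hw : IsKnot w) {M j : ℕ} (hj : j ∈ chans M) {t : ℝ}
    (ht : (tl A hA).ev j w * Q A hA j j = t • Q A hA j j) :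
    (tl A hA).ev M w * Q A hA M j = t • Q A hA M j := by
  have hQ : ∀ c, (tl A hA).Nt j M c → Q A hA M j * c = c * Q A hA j j := by
    intro c hc
    have e := aeval_comm hc.tw (Lagrange.basis (chans M) (tl A hA).mu j)
    rw [aeval_th_j A hA h1 M j hj] at e
    exact e
  have h := TLData.RThr.scalar hQ ht (Q_RThr A hA h1 hw M j hj)
  rwa [Q_mul_self A hA h1 M j hj] at h

end

end Pool.Agent.HTW
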