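import Pool.Agent.HTW.Spec2

/-!
# Invariance of the coloured evaluation under the moves

`jj A m w` is the entry `(+...+, +...+)` of the value of the `m`-cable of `w`.  Under regular
isotopies it does not change, under Reidemeister I it changes by the factor `μ_m^{±1}`.
-/

namespace Pool.Agent.HTW

open Finset

/-- The coloured evaluation of a long diagram. -/
noncomputable def jj (A : ℝ) (hA : A ≠ 0) (m : ℕ) (w : Word) : ℝ :=
  ((tl A hA).ev m w (vplus m)) tt

/-- The coloured evaluation of the mirror image. -/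
noncomputable def jm (A : ℝ) (hA : A ≠ 0) (m : ℕ) (w : Word) : ℝ :=
  ((tl A hA).mirror.ev m w (vplus m)) tt

/-- The number of maxima and minima. -/
def extrema (w : Word) : ℕ := w.countP (fun x => x.1 = Kind.cup ∨ x.1 = Kind.cap)

/-- The exponent sum of a braid word. -/
def expSum (w : Word) : ℤ :=
  (w.countP (fun x => x.1 = Kind.pos) : ℤ) - (w.countP (fun x => x.1 = Kind.neg) : ℤ)

section Abstract

variable {R : Type} [Ring R] [Algebra ℝ R] (D : TLData R)

theorem wU_mirror (m : ℕ) : D.mirror.U m = D.U m := by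
  induction m with
  | zero => rfl
  | succ m ih =>
    show D.mirror.sh m D.u * D.mirror.U m = D.sh m D.u * D.U m
    rw [D.mirror_sh, ih]

theorem wN_mirror (m : ℕ) : D.mirror.N m = D.N m := by
  induction m with
  | zero => rfl
  | succ m ih =>
    show D.mirror.N m * D.mirror.sh m D.n = D.N m * D.sh m D.n
    rw [D.mirror_sh, ih]

/-- The block of a letter, locally. -/
theorem loc_blk (m : ℕ) (x : Kind) : D.Loc (m * x.inn) (m * x.out) (D.blk m x) := by
  cases x with
  | cup =>
    show D.Loc (m * 0) (m * 2) (D.U m)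
    rw [mul_zero, mul_comm m 2]
    exact (D.nt_U m).loc
  | cap =>
    show D.Loc (m * 2) (m * 0) (D.N m)
    rw [mul_zero, mul_comm m 2]
    exact (D.nt_N m).loc
  | pos =>
    show D.Loc (m * 2) (m * 2) (D.X m m)
    rw [mul_two]
    exact (D.nt_X m m).loc
  | neg =>
    show D.Loc (m * 2) (m * 2) (D.mirror.X m m)
    rw [mul_two]
    intro Y
    have h := (D.mirror.nt_X m m).loc Y
    rw [D.mirror_sh] at h
    exact h

/-- Operators far on the right of a letter. -/
theorem evL_far_right (m i d : ℕ) (x : Kind) (Y : R) :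
    D.evL m (x, i) * D.sh (m * (i + x.inn) + d) Y =
      D.sh (m * (i + x.out) + d) Y * D.evL m (x, i) := by
  have h := loc_blk D m x (D.sh d Y)
  have h2 := congrArg (D.sh (m * i)) h
  rw [map_mul, map_mul, ← D.sh_add, ← D.sh_add, ← D.sh_add, ← D.sh_add] at h2
  rw [← mul_add, ← mul_add] at h2
  exact h2

/-- The moves of regular isotopy do not change the value of the cables. -/
theorem ev_fmove (m : ℕ) {l r : Word} (h : FMove l r) : D.ev m l = D.ev m r := by
  have two : ∀ (j i : ℕ), m * (i + j) = m * i + m * j := fun j i => mul_add m i j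
  cases h with
  | far x y i d =>
    show 1 * D.sh (m * (i + x.out + d)) (D.blk m y) * D.evL m (x, i) =
      1 * D.evL m (x, i) * D.sh (m * (i + x.inn + d)) (D.blk m y)
    rw [one_mul, one_mul, mul_add m (i + x.out) d, mul_add m (i + x.inn) d]
    exact (evL_far_right D m i (m * d) x (D.blk m y)).symm
  | zig i =>
    show 1 * D.sh (m * (i + 1)) (D.N m) * D.sh (m * i) (D.U m) = 1
    rw [one_mul, two, mul_one, D.sh_add, ← map_mul, D.shN_U, map_one]
  | zag i =>
    show 1 * D.sh (m * i) (D.N m) * D.sh (m * (i + 1)) (D.U m) = 1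
    rw [one_mul, two, mul_one, D.sh_add, ← map_mul, D.N_shU, map_one]
  | r2a i =>
    show 1 * D.sh (m * i) (D.mirror.X m m) * D.sh (m * i) (D.X m m) = 1
    rw [one_mul, ← map_mul, D.mirror_X_X, map_one]
  | r2b i =>
    show 1 * D.sh (m * i) (D.X m m) * D.sh (m * i) (D.mirror.X m m) = 1
    rw [one_mul, ← map_mul, D.X_mirror_X, map_one]
  | r3 i =>
    show 1 * D.sh (m * i) (D.X m m) * D.sh (m * (i + 1)) (D.X m m) * D.sh (m * i) (D.X m m) =
      1 * D.sh (m * (i + 1)) (D.X m m) * D.sh (m * i) (D.X m m) * D.sh (m * (i + 1)) (D.X m m)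
    rw [one_mul, one_mul, two, mul_one, D.sh_add, ← map_mul, ← map_mul, ← map_mul, ← map_mul,
      D.braid3]
  | cupPos i =>
    show 1 * D.sh (m * i) (D.X m m) * D.sh (m * (i + 1)) (D.U m) =
      1 * D.sh (m * (i + 1)) (D.mirror.X m m) * D.sh (m * i) (D.U m)
    rw [one_mul, one_mul, two, mul_one, D.sh_add, D.sh_add, ← map_mul, ← map_mul, D.X_shU]
  | cupNeg i =>
    show 1 * D.sh (m * i) (D.mirror.X m m) * D.sh (m * (i + 1)) (D.U m) =
      1 * D.sh (m * (i + 1)) (D.X m m) * D.sh (m * i) (D.U m)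
    have h := D.mirror.X_shU m
    rw [D.mirror_mirror, D.mirror_sh, D.mirror_sh, wU_mirror] at h
    rw [one_mul, one_mul, two, mul_one, D.sh_add, D.sh_add, ← map_mul, ← map_mul, h]
  | capPos i =>
    show 1 * D.sh (m * (i + 1)) (D.N m) * D.sh (m * i) (D.X m m) =
      1 * D.sh (m * i) (D.N m) * D.sh (m * (i + 1)) (D.mirror.X m m)
    rw [one_mul, one_mul, two, mul_one, D.sh_add, D.sh_add, ← map_mul, ← map_mul, D.shN_X]
  | capNeg i =>
    show 1 * D.sh (m * (i + 1)) (D.N m) * D.sh (m * i) (D.mirror.X m m) =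
      1 * D.sh (m * i) (D.N m) * D.sh (m * (i + 1)) (D.X m m)
    have h := D.mirror.shN_X m
    rw [D.mirror_mirror, D.mirror_sh, D.mirror_sh, wN_mirror] at h
    rw [one_mul, one_mul, two, mul_one, D.sh_add, D.sh_add, ← map_mul, ← map_mul, h]

theorem ev_bmove (m : ℕ) {l r : Word} (h : BMove l r) : D.ev m l = D.ev m r := by
  cases h with
  | far x y hx hy i d =>
    have hx1 : x.inn = 2 := by rcases hx with rfl | rfl <;> rfl
    have hx2 : x.out = 2 := by rcases hx with rfl | rfl <;> rfl
    have h := ev_fmove D m (FMove.far x y i d)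
    rw [hx1, hx2] at h
    exact h
  | r2a i => exact ev_fmove D m (FMove.r2a i)
  | r2b i => exact ev_fmove D m (FMove.r2b i)
  | r3 i => exact ev_fmove D m (FMove.r3 i)

theorem ev_three (m : ℕ) (a l b : Word) :
    D.ev m (a ++ l ++ b) = D.ev m b * D.ev m l * D.ev m a := by
  rw [D.ev_append, D.ev_append, mul_assoc]

theorem regIso_ev (m : ℕ) {w w' : Word} (h : RegIso w w') : D.ev m w = D.ev m w' := by
  induction h with
  | rel x y h =>
    obtain ⟨_, _, a, b, l, r, hm, rfl, rfl⟩ := h
    rw [ev_three, ev_three, ev_fmove D m hm]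
  | refl x => rfl
  | symm x y _ ih => exact ih.symm
  | trans x y z _ _ ih1 ih2 => exact ih1.trans ih2

theorem braidEq_ev (m n : ℕ) {w w' : Word} (h : BraidEq n w w') : D.ev m w = D.ev m w' := by
  induction h with
  | rel x y h =>
    obtain ⟨_, _, a, b, l, r, hm, rfl, rfl⟩ := h
    rw [ev_three, ev_three, ev_bmove D m hm]
  | refl x => rfl
  | symm x y _ ih => exact ih.symm
  | trans x y z _ _ ih1 ih2 => exact ih1.trans ih2

/-- The labels of the levels of a run of `a ++ b`: the level between `a` and `b`. -/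
theorem run_append {α : Type} {a b : Word} {L : List (List α)} (h : Run (a ++ b) L) :
    ∃ L₁ ℓ L₂, L = L₁ ++ ℓ :: L₂ ∧ L₁.length = a.length ∧ Run a (L₁ ++ [ℓ]) ∧
      Run b (ℓ :: L₂) := by
  induction a generalizing L with
  | nil =>
    cases L with
    | nil => cases h
    | cons ℓ L => exact ⟨[], ℓ, L, rfl, rfl, Run.nil ℓ, h⟩
  | cons x a ih =>
    cases h with
    | cons hs hr =>
      rename_i ℓ ℓ' rest
      obtain ⟨L₁, ℓ₁, L₂, h1, h2, h3, h4⟩ := ih hr
      cases L₁ with
      | nil =>
        simp only [List.nil_append, List.cons.injEq] at h1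
        obtain ⟨rfl, rfl⟩ := h1
        refine ⟨[ℓ], ℓ', rest, rfl, by simp at h2; simp [← h2], ?_, h4⟩
        exact Run.cons hs h3
      | cons ℓ₀ L₁ =>
        simp only [List.cons_append, List.cons.injEq] at h1
        obtain ⟨rfl, rfl⟩ := h1
        refine ⟨ℓ :: ℓ' :: L₁, ℓ₁, L₂, rfl, by simp at h2 ⊢; omega, ?_, h4⟩
        exact Run.cons hs h3

/-- Runs of two words can be joined. -/
theorem run_join {α : Type} {a b : Word} {L₁ L₂ : List (List α)} {ℓ : List α}
    (h1 : Run a (L₁ ++ [ℓ])) (h2 : Run b (ℓ :: L₂)) : Run (a ++ b) (L₁ ++ ℓ :: L₂) := by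
  induction a generalizing L₁ with
  | nil =>
    cases L₁ with
    | nil => exact h2
    | cons x L₁ =>
      exfalso
      cases L₁ <;> cases h1
  | cons x a ih =>
    cases L₁ with
    | nil => cases h1
    | cons ℓ₀ L₁ =>
      cases L₁ with
      | nil =>
        cases h1 with
        | cons hs hr => exact Run.cons hs (ih (L₁ := []) hr)
      | cons ℓ₁ L₁ =>
        cases h1 with
        | cons hs hr => exact Run.cons hs (ih (L₁ := ℓ₁ :: L₁) hr)

theorem step_length {α : Type} {x : Letter} {ℓ ℓ' : List α} (h : Step x ℓ ℓ') :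
    ℓ'.length + x.1.inn = ℓ.length + x.1.out := by
  cases h <;> simp [Kind.inn, Kind.out] <;> omega

/-- The numbers of strands at the levels only depend on the number at the bottom. -/
theorem run_length {α β : Type} {w : Word} {ℓ : List α} {L : List (List α)} {ℓ₂ : List β}
    {L₂ : List (List β)} (h : Run w (ℓ :: L)) (h₂ : Run w (ℓ₂ :: L₂))
    (hl : ℓ.length = ℓ₂.length) :
    (ℓ :: L).map List.length = (ℓ₂ :: L₂).map List.length := by
  induction w generalizing ℓ L ℓ₂ L₂ with
  | nil =>
    cases h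
    cases h₂
    simp [hl]
  | cons x w ih =>
    cases h with
    | cons hs hr =>
      cases h₂ with
      | cons hs₂ hr₂ =>
        have e1 := step_length hs
        have e2 := step_length hs₂
        have e3 := ih hr hr₂ (by omega)
        rw [List.map_cons, e3, hl, ← List.map_cons]


/-- Steps between lists of values of functions. -/
theorem step_range {α β : Type} {x : Letter} {ℓ ℓ' : List α} (h : Step x ℓ ℓ') (f g : ℕ → β)
    (h1 : ∀ q, q < x.2 → f q = g q) (h2 : ∀ q, f (x.2 + x.1.inn + q) = g (x.2 + x.1.out + q))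
    (hcup : x.1 = Kind.cup → g x.2 = g (x.2 + 1))
    (hcap : x.1 = Kind.cap → f x.2 = f (x.2 + 1))
    (hx : x.1 = Kind.pos ∨ x.1 = Kind.neg → f x.2 = g (x.2 + 1) ∧ f (x.2 + 1) = g x.2) :
    Step x ((List.range ℓ.length).map f) ((List.range ℓ'.length).map g) := by
  have hr : ∀ (F : ℕ → β) (a b : ℕ), (List.range (a + b)).map F =
      (List.range a).map F ++ (List.range b).map (fun q => F (a + q)) := by
    intro F a b
    rw [List.range_add, List.map_append, List.map_map]
    rfl
  have hr2 : ∀ (F : ℕ → β) (a b : ℕ), (List.range (a + 2 + b)).map F =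
      (List.range a).map F ++ F a :: F (a + 1) :: (List.range b).map (fun q => F (a + 2 + q)) := by
    intro F a b
    rw [hr F (a + 2) b, hr F a 2, List.append_assoc]
    rfl
  have hu : ∀ a, a ≤ x.2 → (List.range a).map f = (List.range a).map g := by
    intro a ha
    refine List.map_congr_left fun q hq => h1 q ?_
    rw [List.mem_range] at hq
    omega
  cases h with
  | cup u v y =>
    have e1 : (u ++ v).length = u.length + v.length := by simp
    have e2 : (u ++ y :: y :: v).length = u.length + 2 + v.length := by simp; omega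
    rw [e1, e2, hr f, hr2 g, hu _ le_rfl]
    have e3 : (fun q => f (u.length + q)) = (fun q => g (u.length + 2 + q)) := funext h2
    rw [e3, ← hcup rfl]
    have h3 := Step.cup ((List.range u.length).map g)
      ((List.range v.length).map (fun q => g (u.length + 2 + q))) (g u.length)
    rw [List.length_map, List.length_range] at h3
    exact h3
  | cap u v y =>
    have e1 : (u ++ v).length = u.length + v.length := by simp
    have e2 : (u ++ y :: y :: v).length = u.length + 2 + v.length := by simp; omega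
    rw [e1, e2, hr g, hr2 f, hu _ le_rfl]
    have e3 : (fun q => f (u.length + 2 + q)) = (fun q => g (u.length + q)) := funext h2
    rw [e3, ← hcap rfl]
    have h3 := Step.cap ((List.range u.length).map g)
      ((List.range v.length).map (fun q => g (u.length + q))) (f u.length)
    rw [List.length_map, List.length_range] at h3
    exact h3
  | pos u v y z =>
    have e1 : (u ++ z :: y :: v).length = u.length + 2 + v.length := by simp; omega
    have e2 : (u ++ y :: z :: v).length = u.length + 2 + v.length := by simp; omega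
    rw [e1, e2, hr2 g, hr2 f, hu _ le_rfl]
    have e3 : (fun q => f (u.length + 2 + q)) = (fun q => g (u.length + 2 + q)) := funext h2
    obtain ⟨h4, h5⟩ := hx (Or.inl rfl)
    rw [e3]
    have h3 := Step.pos ((List.range u.length).map g)
      ((List.range v.length).map (fun q => g (u.length + 2 + q))) (f u.length) (f (u.length + 1))
    rw [List.length_map, List.length_range] at h3
    dsimp only at h4 h5
    rw [← h4, ← h5]
    exact h3
  | neg u v y z =>
    have e1 : (u ++ z :: y :: v).length = u.length + 2 + v.length := by simp; omega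
    have e2 : (u ++ y :: z :: v).length = u.length + 2 + v.length := by simp; omega
    rw [e1, e2, hr2 g, hr2 f, hu _ le_rfl]
    have e3 : (fun q => f (u.length + 2 + q)) = (fun q => g (u.length + 2 + q)) := funext h2
    obtain ⟨h4, h5⟩ := hx (Or.inr rfl)
    rw [e3]
    have h3 := Step.neg ((List.range u.length).map g)
      ((List.range v.length).map (fun q => g (u.length + 2 + q))) (f u.length) (f (u.length + 1))
    rw [List.length_map, List.length_range] at h3
    dsimp only at h4 h5
    rw [← h4, ← h5]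
    exact h3

/-- Moving the twist through a letter, strands on the left. -/
theorem slide_left (m i q : ℕ) (hq : q < i) (x : Kind) :
    D.evL m (x, i) * D.sh (m * q) (D.th m) = D.sh (m * q) (D.th m) * D.evL m (x, i) := by
  obtain ⟨c, rfl⟩ := Nat.exists_eq_add_of_lt hq
  have h := (D.nt_th m).loc (D.sh (m * c) (D.blk m x))
  have h2 := congrArg (D.sh (m * q)) h
  rw [map_mul, map_mul, ← D.sh_add, ← D.sh_add] at h2
  have e : m * q + m + m * c = m * (q + c + 1) := by ring
  rw [e] at h2
  exact h2.symm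

/-- Moving the twist through a letter, strands on the right. -/
theorem slide_right (m i q : ℕ) (x : Kind) :
    D.evL m (x, i) * D.sh (m * (i + x.inn + q)) (D.th m) =
      D.sh (m * (i + x.out + q)) (D.th m) * D.evL m (x, i) := by
  rw [mul_add m (i + x.inn) q, mul_add m (i + x.out) q]
  exact evL_far_right D m i (m * q) x (D.th m)

theorem slide_cup (m i : ℕ) :
    D.sh (m * i) (D.th m) * D.evL m (Kind.cup, i) =
      D.sh (m * (i + 1)) (D.th m) * D.evL m (Kind.cup, i) := by
  show D.sh (m * i) (D.th m) * D.sh (m * i) (D.U m) =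
    D.sh (m * (i + 1)) (D.th m) * D.sh (m * i) (D.U m)
  rw [mul_add, mul_one, D.sh_add, ← map_mul, ← map_mul, D.th_U]

theorem slide_cap (m i : ℕ) :
    D.evL m (Kind.cap, i) * D.sh (m * i) (D.th m) =
      D.evL m (Kind.cap, i) * D.sh (m * (i + 1)) (D.th m) := by
  show D.sh (m * i) (D.N m) * D.sh (m * i) (D.th m) =
    D.sh (m * i) (D.N m) * D.sh (m * (i + 1)) (D.th m)
  rw [mul_add, mul_one, D.sh_add, ← map_mul, ← map_mul, D.N_th]

theorem slide_cross (m i : ℕ) (x : Kind) (hx : x = Kind.pos ∨ x = Kind.neg) :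
    D.evL m (x, i) * D.sh (m * i) (D.th m) = D.sh (m * (i + 1)) (D.th m) * D.evL m (x, i) ∧
      D.evL m (x, i) * D.sh (m * (i + 1)) (D.th m) = D.sh (m * i) (D.th m) * D.evL m (x, i) := by
  rcases hx with rfl | rfl
  · constructor
    · show D.sh (m * i) (D.X m m) * D.sh (m * i) (D.th m) =
        D.sh (m * (i + 1)) (D.th m) * D.sh (m * i) (D.X m m)
      rw [mul_add, mul_one, D.sh_add, ← map_mul, ← map_mul, (D.nt_th m).left]
    · show D.sh (m * i) (D.X m m) * D.sh (m * (i + 1)) (D.th m) =
        D.sh (m * i) (D.th m) * D.sh (m * i) (D.X m m)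
      rw [mul_add, mul_one, D.sh_add, ← map_mul, ← map_mul, (D.nt_th m).right]
  · constructor
    · show D.sh (m * i) (D.mirror.X m m) * D.sh (m * i) (D.th m) =
        D.sh (m * (i + 1)) (D.th m) * D.sh (m * i) (D.mirror.X m m)
      rw [mul_add, mul_one, D.sh_add, ← map_mul, ← map_mul, (D.nt_th m).left']
    · show D.sh (m * i) (D.mirror.X m m) * D.sh (m * (i + 1)) (D.th m) =
        D.sh (m * i) (D.th m) * D.sh (m * i) (D.mirror.X m m)
      rw [mul_add, mul_one, D.sh_add, ← map_mul, ← map_mul, (D.nt_th m).right']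

/-- The operators with the twist inserted at the points of the levels label the strands. -/
theorem run_label (m : ℕ) {w : Word} {α : Type} {ℓ : List α} {L₁ : List (List α)}
    {ℓ' : List α} (E F : R) (h : Run w (ℓ :: L₁)) (hl : (ℓ :: L₁).getLast? = some ℓ') :
    ∃ L : List (List R),
      Run w (((List.range ℓ.length).map
        (fun q => F * (D.ev m w * D.sh (m * q) (D.th m)) * E)) :: L) ∧
      (((List.range ℓ.length).map
        (fun q => F * (D.ev m w * D.sh (m * q) (D.th m)) * E)) :: L).getLast? =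
        some ((List.range ℓ'.length).map
          (fun q => F * (D.sh (m * q) (D.th m) * D.ev m w) * E)) := by
  induction w generalizing ℓ L₁ E with
  | nil =>
    cases h
    simp only [List.getLast?_singleton, Option.some.injEq] at hl
    subst hl
    refine ⟨[], Run.nil _, ?_⟩
    have e : D.ev m [] = 1 := rfl
    simp only [e, List.getLast?_singleton, one_mul, mul_one]
  | cons x w ih =>
    cases h with
    | cons hs hr =>
      rename_i ℓ₁ rest
      rw [List.getLast?_cons_cons] at hl
      obtain ⟨L, hL1, hL2⟩ := ih (D.evL m x * E) hr hl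
      have ec : D.ev m (x :: w) = D.ev m w * D.evL m x := rfl
      refine ⟨_, Run.cons ?_ hL1, ?_⟩
      · rw [ec]
        obtain ⟨k, i⟩ := x
        have key : ∀ p q, D.evL m (k, i) * D.sh (m * p) (D.th m) =
            D.sh (m * q) (D.th m) * D.evL m (k, i) →
            F * (D.ev m w * D.evL m (k, i) * D.sh (m * p) (D.th m)) * E =
              F * (D.ev m w * D.sh (m * q) (D.th m)) * (D.evL m (k, i) * E) := by
          intro p q hpq
          rw [mul_assoc (D.ev m w), hpq]
          noncomm_ring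
        refine step_range hs _ _ ?_ ?_ ?_ ?_ ?_
        · intro q hq
          exact key _ _ (slide_left D m i q hq k)
        · intro q
          exact key _ _ (slide_right D m i q k)
        · intro hk
          dsimp only at hk ⊢
          subst hk
          have h5 := slide_cup D m i
          calc F * (D.ev m w * D.sh (m * i) (D.th m)) * (D.evL m (Kind.cup, i) * E) =
              F * (D.ev m w * (D.sh (m * i) (D.th m) * D.evL m (Kind.cup, i))) * E := by
                noncomm_ring
            _ = F * (D.ev m w * D.sh (m * (i + 1)) (D.th m)) * (D.evL m (Kind.cup, i) * E) := by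
                rw [h5]
                noncomm_ring
        · intro hk
          dsimp only at hk ⊢
          subst hk
          have h5 := slide_cap D m i
          rw [mul_assoc (D.ev m w), mul_assoc (D.ev m w), h5]
        · intro hk
          dsimp only at hk ⊢
          obtain ⟨h5, h6⟩ := slide_cross D m i k hk
          exact ⟨key _ _ h5, key _ _ h6⟩
      · rw [List.getLast?_cons_cons, hL2]
        refine congrArg some (List.map_congr_left fun q _ => ?_)
        rw [ec]
        noncomm_ring

theorem getLast?_split {α : Type} {l : List α} {x : α} (h : l.getLast? = some x) :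
    ∃ l', l = l' ++ [x] := by
  rcases List.eq_nil_or_concat l with rfl | ⟨l', y, rfl⟩
  · simp at h
  · simp at h
    exact ⟨l', by simp [h]⟩

/-- The twist inserted at the point `p` of the level between `a` and `b` can be moved to the
bottom. -/
theorem slide_th_run (m : ℕ) {a b : Word} (hw : IsKnot (a ++ b)) {ℓ : List Unit}
    {L₁ L₂ : List (List Unit)} (ha : Run a ([()] :: L₁))
    (hl : ([()] :: L₁).getLast? = some ℓ) (hb : Run b (ℓ :: L₂)) (p : ℕ) (hp : p < ℓ.length) :
    D.ev m b * D.sh (m * p) (D.th m) * D.ev m a = D.ev m (a ++ b) * D.th m := by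
  obtain ⟨L, hL1, hL2⟩ := run_label D m 1 (D.ev m b) ha hl
  obtain ⟨ℓ', hl'⟩ : ∃ ℓ', (ℓ :: L₂).getLast? = some ℓ' :=
    ⟨_, List.getLast?_eq_some_getLast (by simp)⟩
  obtain ⟨L', hL1', _⟩ := run_label D m (D.ev m a) 1 hb hl'
  have e1 : (List.range ([()] : List Unit).length).map
      (fun q => D.ev m b * (D.ev m a * D.sh (m * q) (D.th m)) * 1) =
      [D.ev m (a ++ b) * D.th m] := by
    have e : D.sh (m * 0) (D.th m) = D.th m := by
      rw [mul_zero]
      rfl
    show [D.ev m b * (D.ev m a * D.sh (m * 0) (D.th m)) * 1] = _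
    rw [e, mul_one, D.ev_append, mul_assoc]
  rw [e1] at hL1 hL2
  have e2 : (List.range ℓ.length).map
      (fun q => D.ev m b * (D.sh (m * q) (D.th m) * D.ev m a) * 1) =
      (List.range ℓ.length).map
      (fun q => 1 * (D.ev m b * D.sh (m * q) (D.th m)) * D.ev m a) := by
    refine List.map_congr_left fun q _ => ?_
    noncomm_ring
  obtain ⟨L₀, hL₀⟩ := getLast?_split hL2
  rw [e2] at hL₀
  rw [hL₀] at hL1
  have hj := run_join hL1 hL1'
  have e3 : ∃ L₃, L₀ ++ (List.range ℓ.length).map
      (fun q => 1 * (D.ev m b * D.sh (m * q) (D.th m)) * D.ev m a) :: L' =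
      [D.ev m (a ++ b) * D.th m] :: L₃ := by
    cases L₀ with
    | nil =>
      simp only [List.nil_append, List.cons.injEq] at hL₀
      exact ⟨L', by rw [List.nil_append, ← hL₀.1]⟩
    | cons x L₀ =>
      simp only [List.cons_append, List.cons.injEq] at hL₀
      exact ⟨_, by rw [List.cons_append, ← hL₀.1]⟩
  obtain ⟨L₃, hL₃⟩ := e3
  rw [hL₃] at hj
  have hk := hw.2 R _ L₃ hj
  have h4 := hk ((List.range ℓ.length).map
      (fun q => 1 * (D.ev m b * D.sh (m * q) (D.th m)) * D.ev m a)) (by
        rw [← hL₃]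
        simp) (1 * (D.ev m b * D.sh (m * p) (D.th m)) * D.ev m a) (by
        rw [List.mem_map]
        exact ⟨p, by rw [List.mem_range]; exact hp, rfl⟩)
  rw [one_mul] at h4
  exact h4

/-- The twist inserted anywhere in the `m`-cable of a knot diagram can be moved to the
bottom. -/
theorem slide_th (m : ℕ) {a b : Word} (hw : IsKnot (a ++ b)) (p : ℕ)
    (hp : ∃ (L : List (List Unit)) (ℓ : List Unit), Run a ([()] :: L) ∧
      ([()] :: L).getLast? = some ℓ ∧ p < ℓ.length) :
    D.ev m b * D.sh (m * p) (D.th m) * D.ev m a = D.ev m (a ++ b) * D.th m := by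
  obtain ⟨L, ℓ, hL, hl, hpl⟩ := hp
  obtain ⟨L', hL', _⟩ := hw.1
  obtain ⟨M₁, ℓ₁, M₂, h1, h2, h3, h4⟩ := run_append hL'
  obtain ⟨N, hN⟩ : ∃ N, M₁ ++ [ℓ₁] = [()] :: N := by
    cases M₁ with
    | nil =>
      simp only [List.nil_append, List.cons.injEq] at h1
      exact ⟨[], by rw [List.nil_append, ← h1.1]⟩
    | cons x M₁ =>
      simp only [List.cons_append, List.cons.injEq] at h1
      exact ⟨M₁ ++ [ℓ₁], by rw [List.cons_append, ← h1.1]⟩
  rw [hN] at h3
  have hl1 : ([()] :: N).getLast? = some ℓ₁ := by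
    rw [← hN]
    simp
  have h5 := run_length hL h3 rfl
  have h6 := congrArg List.getLast? h5
  rw [List.getLast?_map, List.getLast?_map, hl, hl1] at h6
  have h7 : ℓ.length = ℓ₁.length := Option.some.inj h6
  exact slide_th_run D m hw h3 hl1 h4 p (by omega)

/-- The bottom run of a word which is continued by one letter. -/
theorem run_split {a b : Word} {x : Letter} (hw : LongWord (a ++ [x] ++ b)) :
    ∃ (L₁ L₂ : List (List Unit)) (ℓ ℓ' : List Unit), Run a ([()] :: L₁) ∧
      ([()] :: L₁).getLast? = some ℓ ∧ Step x ℓ ℓ' ∧ Run (a ++ [x]) ([()] :: L₂) ∧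
      ([()] :: L₂).getLast? = some ℓ' := by
  obtain ⟨L, hL, _⟩ := hw
  have hfirst : ∀ (M₁ M₂ : List (List Unit)) (ℓ : List Unit) (K : List (List Unit)),
      [()] :: K = M₁ ++ ℓ :: M₂ → ∃ N, M₁ ++ [ℓ] = [()] :: N := by
    intro M₁ M₂ ℓ K h1
    cases M₁ with
    | nil =>
      simp only [List.nil_append, List.cons.injEq] at h1
      exact ⟨[], by rw [List.nil_append, ← h1.1]⟩
    | cons x M₁ =>
      simp only [List.cons_append, List.cons.injEq] at h1
      exact ⟨M₁ ++ [ℓ], by rw [List.cons_append, ← h1.1]⟩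
  obtain ⟨M₁, ℓ', M₂, h1, h2, h3, h4⟩ := run_append hL
  obtain ⟨N, hN⟩ := hfirst _ _ _ _ h1
  rw [hN] at h3
  obtain ⟨P₁, ℓ, P₂, g1, g2, g3, g4⟩ := run_append h3
  obtain ⟨N', hN'⟩ := hfirst _ _ _ _ g1
  rw [hN'] at g3
  have hs : ∃ ℓ₂ , Step x ℓ ℓ₂ ∧ P₂ = [ℓ₂] := by
    cases g4 with
    | cons hs hr =>
      cases hr
      exact ⟨_, hs, rfl⟩
  obtain ⟨ℓ₂, hs, rfl⟩ := hs
  have hℓ : ℓ₂ = ℓ' := by
    have h5 : ([()] :: N).getLast? = some ℓ' := by
      rw [← hN]
      simp
    rw [g1] at h5
    simp at h5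
    exact h5
  subst hℓ
  refine ⟨N', N, ℓ, ℓ₂, g3, ?_, hs, h3, ?_⟩
  · rw [← hN']
    simp
  · rw [← hN]
    simp

/-- Reidemeister I, one data. -/
theorem ev_rmove (m : ℕ) {l r a b : Word} (h : RMove l r) (hw : IsKnot (a ++ l ++ b))
    (hw' : IsKnot (a ++ r ++ b)) :
    (∃ i, (l = [(Kind.cup, i), (Kind.pos, i)] ∨ l = [(Kind.pos, i), (Kind.cap, i)]) ∧
      D.ev m (a ++ r ++ b) = D.ev m (a ++ l ++ b) * D.th m) ∨
    (∃ i, (l = [(Kind.cup, i), (Kind.neg, i)] ∨ l = [(Kind.neg, i), (Kind.cap, i)]) ∧
      D.ev m (a ++ l ++ b) = D.ev m (a ++ r ++ b) * D.th m) := by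
  cases h with
  | cupPos i =>
    left
    refine ⟨i, Or.inl rfl, ?_⟩
    have ew : a ++ [(Kind.cup, i), (Kind.pos, i)] ++ b =
        (a ++ [(Kind.cup, i)]) ++ [(Kind.pos, i)] ++ b := by simp
    rw [ew] at hw
    obtain ⟨L₁, L₂, ℓ, ℓ', h1, h2, h3, h4, h5⟩ := run_split hw.1
    have h6 : i < ℓ'.length := by
      cases h3
      simp
    have h7 := slide_th D m hw i ⟨L₂, ℓ', h4, h5, h6⟩
    rw [ew, ← h7, D.ev_append m (a ++ [(Kind.cup, i)]), D.ev_append m a, ev_three]
    have e1 : D.sh (m * i) (D.th m) * (D.ev m [(Kind.pos, i)] * D.ev m [(Kind.cup, i)]) =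
        D.ev m [(Kind.cup, i)] := by
      show D.sh (m * i) (D.th m) * (1 * D.sh (m * i) (D.X m m) * (1 * D.sh (m * i) (D.U m))) =
        1 * D.sh (m * i) (D.U m)
      rw [one_mul, one_mul, ← map_mul, D.X_U, ← map_mul, ← mul_assoc, D.th_mirror, one_mul]
    calc D.ev m b * (D.ev m [(Kind.cup, i)] * D.ev m a) =
        D.ev m b * ((D.sh (m * i) (D.th m) * (D.ev m [(Kind.pos, i)] *
          D.ev m [(Kind.cup, i)])) * D.ev m a) := by rw [e1]
      _ = D.ev m b * D.sh (m * i) (D.th m) * (D.ev m [(Kind.pos, i)] *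
          D.ev m [(Kind.cup, i)] * D.ev m a) := by noncomm_ring
  | cupNeg i =>
    right
    refine ⟨i, Or.inl rfl, ?_⟩
    obtain ⟨L₁, L₂, ℓ, ℓ', h1, h2, h3, h4, h5⟩ := run_split hw'.1
    have h6 : i < ℓ'.length := by
      cases h3
      simp
    have h7 := slide_th D m (a := a ++ [(Kind.cup, i)]) (b := b) hw' i ⟨L₂, ℓ', h4, h5, h6⟩
    rw [← h7, ev_three, D.ev_append]
    have e1 : D.ev m [(Kind.cup, i), (Kind.neg, i)] =
        D.sh (m * i) (D.th m) * D.ev m [(Kind.cup, i)] := by
      show 1 * D.sh (m * i) (D.mirror.X m m) * D.sh (m * i) (D.U m) =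
        D.sh (m * i) (D.th m) * (1 * D.sh (m * i) (D.U m))
      rw [one_mul, one_mul, ← map_mul, ← map_mul, D.mirror_X_U]
    rw [e1]
    noncomm_ring
  | capPos i =>
    left
    refine ⟨i, Or.inr rfl, ?_⟩
    obtain ⟨L₁, L₂, ℓ, ℓ', h1, h2, h3, h4, h5⟩ := run_split hw'.1
    have h6 : i < ℓ.length := by
      cases h3
      simp
    have hw2 : IsKnot (a ++ ([(Kind.pos, i), (Kind.cap, i)] ++ b)) := by
      rw [← List.append_assoc]
      exact hw
    have h7 := slide_th D m hw2 i ⟨L₁, ℓ, h1, h2, h6⟩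
    rw [← List.append_assoc] at h7
    rw [← h7, ev_three, D.ev_append]
    have e1 : D.ev m [(Kind.pos, i), (Kind.cap, i)] * D.sh (m * i) (D.th m) =
        D.ev m [(Kind.cap, i)] := by
      show 1 * D.sh (m * i) (D.N m) * D.sh (m * i) (D.X m m) * D.sh (m * i) (D.th m) =
        1 * D.sh (m * i) (D.N m)
      rw [one_mul, ← map_mul, D.N_X, ← map_mul, mul_assoc, D.mirror_th, mul_one]
    rw [← e1]
    noncomm_ring
  | capNeg i =>
    right
    refine ⟨i, Or.inr rfl, ?_⟩
    obtain ⟨L₁, L₂, ℓ, ℓ', h1, h2, h3, h4, h5⟩ := run_split hw'.1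
    have h6 : i < ℓ.length := by
      cases h3
      simp
    have hw2 : IsKnot (a ++ ([(Kind.cap, i)] ++ b)) := by
      rw [← List.append_assoc]
      exact hw'
    have h7 := slide_th D m hw2 i ⟨L₁, ℓ, h1, h2, h6⟩
    rw [← List.append_assoc] at h7
    rw [← h7, ev_three, D.ev_append]
    have e1 : D.ev m [(Kind.neg, i), (Kind.cap, i)] =
        D.ev m [(Kind.cap, i)] * D.sh (m * i) (D.th m) := by
      show 1 * D.sh (m * i) (D.N m) * D.sh (m * i) (D.mirror.X m m) =
        1 * D.sh (m * i) (D.N m) * D.sh (m * i) (D.th m)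
      rw [one_mul, ← map_mul, ← map_mul, D.N_mirror_X]
    rw [e1]
    noncomm_ring

/-- Reidemeister I. -/
theorem ev_rstep {w w' : Word} (h : RStep w w') :
    (∀ (D : TLData R) (m : ℕ), D.ev m w' = D.ev m w * D.th m ∧
        D.mirror.ev m w' = D.mirror.ev m w * D.mirror.th m) ∨
    (∀ (D : TLData R) (m : ℕ), D.ev m w = D.ev m w' * D.th m ∧
        D.mirror.ev m w = D.mirror.ev m w' * D.mirror.th m) := by
  obtain ⟨hw, hw', a, b, l, r, hm, rfl, rfl⟩ := h
  by_cases hl : ∃ i, l = [(Kind.cup, i), (Kind.pos, i)] ∨ l = [(Kind.pos, i), (Kind.cap, i)]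
  · left
    have key : ∀ (D : TLData R) (m : ℕ),
        D.ev m (a ++ r ++ b) = D.ev m (a ++ l ++ b) * D.th m := by
      intro D m
      rcases ev_rmove D m hm hw hw' with ⟨_, _, h⟩ | ⟨j, hj, _⟩
      · exact h
      · exfalso
        obtain ⟨i, hi⟩ := hl
        rcases hi with rfl | rfl <;> rcases hj with hj | hj <;> simp at hj
    exact fun D m => ⟨key D m, key D.mirror m⟩
  · right
    have key : ∀ (D : TLData R) (m : ℕ),
        D.ev m (a ++ l ++ b) = D.ev m (a ++ r ++ b) * D.th m := by
      intro D m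
      rcases ev_rmove D m hm hw hw' with ⟨i, hi, _⟩ | ⟨_, _, h⟩
      · exact absurd ⟨i, hi⟩ hl
      · exact h
    exact fun D m => ⟨key D m, key D.mirror m⟩

end Abstract

theorem mu_ne (A : ℝ) (hA : A ≠ 0) (m : ℕ) : (tl A hA).mu m ≠ 0 :=
  mul_ne_zero (pow_ne_zero _ (by norm_num)) (pow_ne_zero _ hA)

theorem mirror_th_vplus (A : ℝ) (hA : A ≠ 0) (m : ℕ) :
    (tl A hA).mirror.th m (vplus m) = ((tl A hA).mu m)⁻¹ • vplus m := by
  have h1 : ((tl A hA).mirror.th m * (tl A hA).th m) (vplus m) = vplus m := by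
    rw [(tl A hA).mirror_th]
    rfl
  have h2 : (tl A hA).mirror.th m ((tl A hA).th m (vplus m)) = vplus m := h1
  rw [th_vplus, map_smul] at h2
  have h3 : ((tl A hA).mu m)⁻¹ • ((tl A hA).mu m • (tl A hA).mirror.th m (vplus m)) =
      ((tl A hA).mu m)⁻¹ • vplus m := by rw [h2]
  rw [smul_smul, inv_mul_cancel₀ (mu_ne A hA m), one_smul] at h3
  exact h3

theorem isotopic_jj {w w' : Word} (h : Isotopic w w') :
    ∃ f : ℤ, ∀ (A : ℝ) (hA : A ≠ 0) (m : ℕ),
      jj A hA m w' = ((tl A hA).mu m) ^ f * jj A hA m w ∧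
      jm A hA m w' = ((tl A hA).mu m) ^ (-f) * jm A hA m w := by
  induction h with
  | rel x y h =>
    rcases h with h | h
    · have hr : RegIso x y := Relation.EqvGen.rel x y h
      refine ⟨0, fun A hA m => ⟨?_, ?_⟩⟩
      · rw [zpow_zero, one_mul]
        unfold jj
        rw [regIso_ev (tl A hA) m hr]
      · rw [neg_zero, zpow_zero, one_mul]
        unfold jm
        rw [regIso_ev (tl A hA).mirror m hr]
    · rcases ev_rstep (R := RR) h with h1 | h1
      · refine ⟨1, fun A hA m => ⟨?_, ?_⟩⟩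
        · rw [zpow_one]
          unfold jj
          rw [(h1 (tl A hA) m).1]
          show (tl A hA).ev m x ((tl A hA).th m (vplus m)) tt = _
          rw [th_vplus, map_smul]
          rfl
        · rw [zpow_neg_one]
          unfold jm
          rw [(h1 (tl A hA) m).2]
          show (tl A hA).mirror.ev m x ((tl A hA).mirror.th m (vplus m)) tt = _
          rw [mirror_th_vplus, map_smul]
          rfl
      · refine ⟨-1, fun A hA m => ⟨?_, ?_⟩⟩
        · have h2 : jj A hA m x = (tl A hA).mu m * jj A hA m y := by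
            unfold jj
            rw [(h1 (tl A hA) m).1]
            show (tl A hA).ev m y ((tl A hA).th m (vplus m)) tt = _
            rw [th_vplus, map_smul]
            rfl
          rw [h2, zpow_neg_one, inv_mul_cancel_left₀ (mu_ne A hA m)]
        · have h2 : jm A hA m x = ((tl A hA).mu m)⁻¹ * jm A hA m y := by
            unfold jm
            rw [(h1 (tl A hA) m).2]
            show (tl A hA).mirror.ev m y ((tl A hA).mirror.th m (vplus m)) tt = _
            rw [mirror_th_vplus, map_smul]
            rfl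
          rw [h2, neg_neg, zpow_one, mul_inv_cancel_left₀ (mu_ne A hA m)]
  | refl x =>
    exact ⟨0, fun A hA m => ⟨by rw [zpow_zero, one_mul], by rw [neg_zero, zpow_zero, one_mul]⟩⟩
  | symm x y _ ih =>
    obtain ⟨f, hf⟩ := ih
    refine ⟨-f, fun A hA m => ?_⟩
    obtain ⟨h1, h2⟩ := hf A hA m
    have h3 := mu_ne A hA m
    rw [h1, h2, ← mul_assoc, ← mul_assoc, ← zpow_add₀ h3, ← zpow_add₀ h3]
    simp
  | trans x y z _ _ ih1 ih2 =>
    obtain ⟨f, hf⟩ := ih1
    obtain ⟨g, hg⟩ := ih2
    refine ⟨g + f, fun A hA m => ?_⟩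
    obtain ⟨h1, h2⟩ := hf A hA m
    obtain ⟨h4, h5⟩ := hg A hA m
    have h3 := mu_ne A hA m
    rw [h4, h5, h1, h2, ← mul_assoc, ← mul_assoc, ← zpow_add₀ h3, ← zpow_add₀ h3,
      neg_add]
    exact ⟨rfl, rfl⟩

theorem expSum_append (a b : Word) : expSum (a ++ b) = expSum a + expSum b := by
  unfold expSum
  rw [List.countP_append, List.countP_append]
  push_cast
  ring

theorem braidEq_expSum {n : ℕ} {w w' : Word} (h : BraidEq n w w') :
    expSum w = expSum w' := by
  induction h with
  | rel x y h =>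
    obtain ⟨_, _, a, b, l, r, hm, rfl, rfl⟩ := h
    rw [expSum_append, expSum_append, expSum_append, expSum_append]
    have e : expSum l = expSum r := by
      cases hm with
      | far x y hx hy i d =>
        have e1 : ∀ u v : Letter, expSum [u, v] = expSum [v, u] := by
          intro u v
          have e2 : [u, v] = [u] ++ [v] := rfl
          have e3 : [v, u] = [v] ++ [u] := rfl
          rw [e2, e3, expSum_append, expSum_append, add_comm]
        exact e1 _ _
      | r2a i => simp [expSum]
      | r2b i => simp [expSum]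
      | r3 i => simp [expSum]
    rw [e]
  | refl x => rfl
  | symm x y _ ih => exact ih.symm
  | trans x y z _ _ ih1 ih2 => exact ih1.trans ih2

/-- The exponent of a letter in the norm bound. -/
theorem crossings_cons (x : Letter) (w : Word) :
    crossings (x :: w) = crossings w + crossings [x] := by
  unfold crossings
  rw [← List.singleton_append, List.countP_append, add_comm]

theorem extrema_cons (x : Letter) (w : Word) :
    extrema (x :: w) = extrema w + extrema [x] := by
  unfold extrema
  rw [← List.singleton_append, List.countP_append, add_comm]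

theorem Bd.mono {a b : ℕ} {T : RR} {C C' : ℝ} (h : Bd a b T C) (hC : C ≤ C') : Bd a b T C' :=
  fun f => (h f).trans (mul_le_mul_of_nonneg_right hC (ip_self_nonneg a f))

/-- Norm bound for one letter. -/
theorem bd_evL (A : ℝ) (hA : A ≠ 0) (h1 : 1 < A) (m : ℕ) {x : Letter} {ℓ ℓ' : List Unit}
    (h : Step x ℓ ℓ') :
    Bd (m * ℓ.length) (m * ℓ'.length) ((tl A hA).evL m x)
      (A ^ (2 * (m ^ 2 + 2 * m) * crossings [x]) *
        (A ^ 2 + (A⁻¹) ^ 2) ^ (m * extrema [x])) ∧
    Bd (m * ℓ.length) (m * ℓ'.length) ((tl A hA).mirror.evL m x)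
      (A ^ (2 * (m ^ 2 + 2 * m) * crossings [x]) *
        (A ^ 2 + (A⁻¹) ^ 2) ^ (m * extrema [x])) := by
  have hpow : A ^ (2 * (m * m)) ≤ A ^ (2 * (m ^ 2 + 2 * m)) := by
    refine pow_le_pow_right₀ h1.le ?_
    nlinarith
  cases h with
  | cup u v y =>
    have e1 : (u ++ v).length = u.length + v.length := by simp
    have e2 : (u ++ y :: y :: v).length = u.length + v.length + 2 := by simp; omega
    have e3 : crossings [(Kind.cup, u.length)] = 0 := by simp [crossings]
    have e4 : extrema [(Kind.cup, u.length)] = 1 := by simp [extrema]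
    rw [e1, e2, e3, e4, mul_zero, pow_zero, one_mul, mul_one]
    have e5 : m * (u.length + v.length + 2) = m * (u.length + v.length) + 2 * m := by ring
    rw [e5]
    have h2 := bd_U A hA h1.le m (m * (u.length + v.length)) (m * u.length)
      (Nat.mul_le_mul_left m (by omega))
    refine ⟨h2, ?_⟩
    have e6 : (tl A hA).mirror.evL m (Kind.cup, u.length) =
        (tl A hA).sh (m * u.length) ((tl A hA).U m) := by
      show (tl A hA).mirror.sh (m * u.length) ((tl A hA).mirror.U m) = _
      rw [(tl A hA).mirror_sh, wU_mirror]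
    rw [e6]
    exact h2
  | cap u v y =>
    have e1 : (u ++ v).length = u.length + v.length := by simp
    have e2 : (u ++ y :: y :: v).length = u.length + v.length + 2 := by simp; omega
    have e3 : crossings [(Kind.cap, u.length)] = 0 := by simp [crossings]
    have e4 : extrema [(Kind.cap, u.length)] = 1 := by simp [extrema]
    rw [e1, e2, e3, e4, mul_zero, pow_zero, one_mul, mul_one]
    have e5 : m * (u.length + v.length + 2) = m * (u.length + v.length) + 2 * m := by ring
    rw [e5]
    have h2 := bd_N A hA h1.le m (m * (u.length + v.length)) (m * u.length)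
      (Nat.mul_le_mul_left m (by omega))
    refine ⟨h2, ?_⟩
    have e6 : (tl A hA).mirror.evL m (Kind.cap, u.length) =
        (tl A hA).sh (m * u.length) ((tl A hA).N m) := by
      show (tl A hA).mirror.sh (m * u.length) ((tl A hA).mirror.N m) = _
      rw [(tl A hA).mirror_sh, wN_mirror]
    rw [e6]
    exact h2
  | pos u v y z =>
    have e1 : (u ++ z :: y :: v).length = u.length + v.length + 2 := by simp; omega
    have e3 : crossings [(Kind.pos, u.length)] = 1 := by simp [crossings]
    have e4 : extrema [(Kind.pos, u.length)] = 0 := by simp [extrema]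
    rw [e1, e3, e4, mul_zero, pow_zero, mul_one, mul_one]
    have hle : m * u.length + 2 * m ≤ m * (u.length + v.length + 2) := by nlinarith
    refine ⟨?_, ?_⟩
    · exact (bd_X A hA h1.le m m (m * (u.length + v.length + 2)) (m * u.length)
        (by omega)).mono hpow
    · have h2 := bd_mirror_X A hA h1 m (m * (u.length + v.length + 2)) (m * u.length) hle
      have e6 : (tl A hA).mirror.evL m (Kind.pos, u.length) =
          (tl A hA).sh (m * u.length) ((tl A hA).mirror.X m m) := by
        show (tl A hA).mirror.sh (m * u.length) ((tl A hA).mirror.X m m) = _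
        rw [(tl A hA).mirror_sh]
      rw [e6]
      exact h2
  | neg u v y z =>
    have e1 : (u ++ z :: y :: v).length = u.length + v.length + 2 := by simp; omega
    have e3 : crossings [(Kind.neg, u.length)] = 1 := by simp [crossings]
    have e4 : extrema [(Kind.neg, u.length)] = 0 := by simp [extrema]
    rw [e1, e3, e4, mul_zero, pow_zero, mul_one, mul_one]
    have hle : m * u.length + 2 * m ≤ m * (u.length + v.length + 2) := by nlinarith
    refine ⟨?_, ?_⟩
    · exact bd_mirror_X A hA h1 m (m * (u.length + v.length + 2)) (m * u.length) hle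
    · have h2 := (bd_X A hA h1.le m m (m * (u.length + v.length + 2)) (m * u.length)
        (by omega)).mono hpow
      have e6 : (tl A hA).mirror.evL m (Kind.neg, u.length) =
          (tl A hA).sh (m * u.length) ((tl A hA).X m m) := by
        show (tl A hA).mirror.sh (m * u.length) ((tl A hA).mirror.mirror.X m m) = _
        rw [(tl A hA).mirror_sh, (tl A hA).mirror_mirror]
      rw [e6]
      exact h2

theorem bd_ev_both (A : ℝ) (hA : A ≠ 0) (h1 : 1 < A) (m : ℕ) {w : Word}
    {ℓ : List Unit} {L : List (List Unit)} (h : Run w (ℓ :: L)) {ℓ' : List Unit}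
    (hL : (ℓ :: L).getLast? = some ℓ') :
    Bd (m * ℓ.length) (m * ℓ'.length) ((tl A hA).ev m w)
      (A ^ (2 * (m ^ 2 + 2 * m) * crossings w) * (A ^ 2 + (A⁻¹) ^ 2) ^ (m * extrema w)) ∧
    Bd (m * ℓ.length) (m * ℓ'.length) ((tl A hA).mirror.ev m w)
      (A ^ (2 * (m ^ 2 + 2 * m) * crossings w) * (A ^ 2 + (A⁻¹) ^ 2) ^ (m * extrema w)) := by
  induction w generalizing ℓ L with
  | nil =>
    cases h
    simp only [List.getLast?_singleton, Option.some.injEq] at hL
    subst hL
    have e3 : crossings [] = 0 := rfl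
    have e4 : extrema [] = 0 := rfl
    rw [e3, e4, mul_zero, mul_zero, pow_zero, pow_zero, one_mul]
    exact ⟨bd_one _, bd_one _⟩
  | cons x w ih =>
    cases h with
    | cons hs hr =>
      rw [List.getLast?_cons_cons] at hL
      obtain ⟨h2, h3⟩ := ih hr hL
      obtain ⟨h4, h5⟩ := bd_evL A hA h1 m hs
      have hA0 : 0 < A := by linarith
      have e : A ^ (2 * (m ^ 2 + 2 * m) * crossings (x :: w)) *
          (A ^ 2 + (A⁻¹) ^ 2) ^ (m * extrema (x :: w)) =
          (A ^ (2 * (m ^ 2 + 2 * m) * crossings w) * (A ^ 2 + (A⁻¹) ^ 2) ^ (m * extrema w)) *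
          (A ^ (2 * (m ^ 2 + 2 * m) * crossings [x]) *
            (A ^ 2 + (A⁻¹) ^ 2) ^ (m * extrema [x])) := by
        rw [crossings_cons, extrema_cons, mul_add (2 * (m ^ 2 + 2 * m)), mul_add m, pow_add,
          pow_add]
        ring
      rw [e]
      exact ⟨h2.mul (by positivity) h4, h3.mul (by positivity) h5⟩

/-- Norm bound for the cable of a word, given a run (i.e. the numbers of strands fit). -/
theorem bd_ev (A : ℝ) (hA : A ≠ 0) (h1 : 1 < A) (m : ℕ) {w : Word}
    {ℓ : List Unit} {L : List (List Unit)} (h : Run w (ℓ :: L)) {ℓ' : List Unit}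
    (hL : (ℓ :: L).getLast? = some ℓ') :
    Bd (m * ℓ.length) (m * ℓ'.length) ((tl A hA).ev m w)
      (A ^ (2 * (m ^ 2 + 2 * m) * crossings w) * (A ^ 2 + (A⁻¹) ^ 2) ^ (m * extrema w)) :=
  (bd_ev_both A hA h1 m h hL).1

theorem bd_mirror_ev (A : ℝ) (hA : A ≠ 0) (h1 : 1 < A) (m : ℕ) {w : Word}
    {ℓ : List Unit} {L : List (List Unit)} (h : Run w (ℓ :: L)) {ℓ' : List Unit}
    (hL : (ℓ :: L).getLast? = some ℓ') :
    Bd (m * ℓ.length) (m * ℓ'.length) ((tl A hA).mirror.ev m w)
      (A ^ (2 * (m ^ 2 + 2 * m) * crossings w) * (A ^ 2 + (A⁻¹) ^ 2) ^ (m * extrema w)) :=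
  (bd_ev_both A hA h1 m h hL).2

theorem sq_le_of_bd {m : ℕ} {T : RR} {C : ℝ} (h : Bd (m * 1) (m * 1) T C) :
    (T (vplus m)) tt ^ 2 ≤ C := by
  have h2 := h (vplus m)
  rw [mul_one, ip_vplus, mul_one] at h2
  exact (sq_apply_tt_le m _).trans h2

theorem jj_sq_le (A : ℝ) (hA : A ≠ 0) (h1 : 1 < A) (m : ℕ) {w : Word} (hw : LongWord w) :
    jj A hA m w ^ 2 ≤
      A ^ (2 * (m ^ 2 + 2 * m) * crossings w) * (A ^ 2 + (A⁻¹) ^ 2) ^ (m * extrema w) := by
  obtain ⟨L, hL, hl⟩ := hw
  exact sq_le_of_bd (bd_ev A hA h1 m hL hl)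

theorem jm_sq_le (A : ℝ) (hA : A ≠ 0) (h1 : 1 < A) (m : ℕ) {w : Word} (hw : LongWord w) :
    jm A hA m w ^ 2 ≤
      A ^ (2 * (m ^ 2 + 2 * m) * crossings w) * (A ^ 2 + (A⁻¹) ^ 2) ^ (m * extrema w) := by
  obtain ⟨L, hL, hl⟩ := hw
  exact sq_le_of_bd (bd_mirror_ev A hA h1 m hL hl)

end Pool.Agent.HTW
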