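import Pool.Agent.HTW.Planar
import Pool.Agent.HTW.Words

/-!
# Adequate diagrams

The circles of the all-A state of a diagram with letters of both signs, and the reduction to
words without negative letters: a negative letter is a positive letter turned by 90 degrees.
-/

namespace Pool.Agent.HTW

/-! ### Turning the negative letters -/

/-- A negative letter is turned by 90 degrees. -/
def rotL : Letter → Word
  | (.neg, i) => [(.cup, i + 2), (.pos, i + 1), (.cap, i)]
  | (.cup, i) => [(.cup, i)]
  | (.cap, i) => [(.cap, i)]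
  | (.pos, i) => [(.pos, i)]

/-- All negative letters are turned by 90 degrees. -/
def rot (w : Word) : Word := w.flatMap rotL

theorem rot_cons (x : Letter) (w : Word) : rot (x :: w) = rotL x ++ rot w := rfl

theorem ev_rotL {R : Type} [Ring R] [Algebra ℝ R] (D : TLData R) (m : ℕ) (x : Letter) :
    D.ev m (rotL x) = D.evL m x := by
  obtain ⟨k, i⟩ := x
  cases k with
  | cup => exact D.ev_single m _
  | cap => exact D.ev_single m _
  | pos => exact D.ev_single m _
  | neg =>
    have h1 : D.ev m [(Kind.cup, i + 1 + 1), (Kind.pos, i + 1)] =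
        D.ev m [(Kind.cup, i + 1), (Kind.neg, i + 1 + 1)] := ev_fmove D m (FMove.cupPos (i + 1))
    have h2 : D.ev m [(Kind.cap, i), (Kind.neg, i + 0 + 0)] =
        D.ev m [(Kind.neg, i + 2 + 0), (Kind.cap, i)] :=
      ev_fmove D m (FMove.far .cap .neg i 0)
    have h3 : D.ev m [(Kind.cup, i + 1), (Kind.cap, i)] = D.ev m [] := ev_fmove D m (FMove.zag i)
    have h4 : ∀ (a b : Word), D.ev m (a ++ b) = D.ev m b * D.ev m a := D.ev_append m
    show D.ev m ([(Kind.cup, i + 1 + 1), (Kind.pos, i + 1)] ++ [(Kind.cap, i)]) = _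
    rw [h4, h1, ← h4]
    show D.ev m ([(Kind.cup, i + 1)] ++ [(Kind.neg, i + 2 + 0), (Kind.cap, i)]) = _
    rw [h4, ← h2, ← h4]
    show D.ev m ([(Kind.cup, i + 1), (Kind.cap, i)] ++ [(Kind.neg, i)]) = _
    rw [h4, h3, ← h4]
    exact D.ev_single m _

theorem ev_rot {R : Type} [Ring R] [Algebra ℝ R] (D : TLData R) (m : ℕ) (w : Word) :
    D.ev m (rot w) = D.ev m w := by
  induction w with
  | nil => rfl
  | cons x w ih => rw [rot_cons, D.ev_append, ev_rotL, ih, D.ev_cons]

theorem rot_noNeg (w : Word) : ∀ x ∈ rot w, x.1 ≠ Kind.neg := by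
  intro x hx
  simp only [rot, List.mem_flatMap] at hx
  obtain ⟨⟨k, i⟩, _, hx⟩ := hx
  cases k <;> simp [rotL] at hx
  · rw [hx]; simp
  · rw [hx]; simp
  · rw [hx]; simp
  · rcases hx with rfl | rfl | rfl <;> simp

theorem crossings_append (v w : Word) : crossings (v ++ w) = crossings v + crossings w := by
  unfold crossings
  rw [List.countP_append]

theorem crossings_rot (w : Word) : crossings (rot w) = crossings w := by
  induction w with
  | nil => rfl
  | cons x w ih =>
    rw [rot_cons, crossings_append, ih, crossings_cons, add_comm]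
    congr 1
    obtain ⟨k, i⟩ := x
    cases k <;> rfl

/-! ### Runs with given ends -/

/-- There is a labelling with the given labels at the bottom and at the top. -/
def RE {α : Type} (w : Word) (ℓ ℓ' : List α) : Prop :=
  ∃ K : List (List α), Run w K ∧ K.head? = some ℓ ∧ K.getLast? = some ℓ'

theorem RE.nil {α : Type} (ℓ : List α) : RE [] ℓ ℓ := ⟨[ℓ], Run.nil ℓ, rfl, rfl⟩

theorem RE.cons {α : Type} {x : Letter} {w : Word} {ℓ ℓ' ℓ'' : List α} (h : Step x ℓ ℓ')
    (h' : RE w ℓ' ℓ'') : RE (x :: w) ℓ ℓ'' := by
  obtain ⟨K, hK, h1, h2⟩ := h'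
  cases K with
  | nil => simp at h1
  | cons k K =>
    simp only [List.head?_cons, Option.some.injEq] at h1
    subst h1
    exact ⟨ℓ :: k :: K, Run.cons h hK, rfl, by rw [List.getLast?_cons_cons]; exact h2⟩

theorem RE.trans {α : Type} {v w : Word} {ℓ ℓ' ℓ'' : List α} (h : RE v ℓ ℓ')
    (h' : RE w ℓ' ℓ'') : RE (v ++ w) ℓ ℓ'' := by
  obtain ⟨K, hK, h1, h2⟩ := h
  induction hK generalizing ℓ with
  | nil ℓ₁ =>
    simp only [List.head?_cons, List.getLast?_singleton, Option.some.injEq] at h1 h2
    subst h1
    subst h2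
    exact h'
  | cons hs _ ih =>
    simp only [List.head?_cons, Option.some.injEq] at h1
    subst h1
    rw [List.getLast?_cons_cons] at h2
    exact RE.cons hs (ih rfl h2)

theorem RE.of_step {α : Type} {x : Letter} {ℓ ℓ' : List α} (h : Step x ℓ ℓ') : RE [x] ℓ ℓ' :=
  RE.cons h (RE.nil _)

/-- The state of the turned word. -/
theorem AStep.re {α : Type} {x : Letter} {ℓ ℓ' : List α} (h : AStep x ℓ ℓ') :
    RE (flat (rotL x)) ℓ ℓ' := by
  cases h with
  | cup u v y => exact RE.of_step (Step.cup u v y)
  | cap u v y => exact RE.of_step (Step.cap u v y)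
  | pos u v x y => exact RE.nil _
  | neg u v x y =>
    have h1 : Step (Kind.cup, (u ++ [x, x]).length) (u ++ [x, x] ++ v)
        (u ++ [x, x] ++ y :: y :: v) := Step.cup (u ++ [x, x]) v y
    have h2 : Step (Kind.cap, u.length) (u ++ x :: x :: (y :: y :: v)) (u ++ y :: y :: v) :=
      Step.cap u (y :: y :: v) x
    have e1 : (u ++ [x, x]).length = u.length + 2 := by simp
    have e2 : u ++ [x, x] ++ v = u ++ x :: x :: v := by simp
    have e3 : u ++ [x, x] ++ y :: y :: v = u ++ x :: x :: (y :: y :: v) := by simp
    rw [e1, e2, e3] at h1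
    exact RE.cons h1 (RE.of_step h2)

theorem flat_append (v w : Word) : flat (v ++ w) = flat v ++ flat w := by
  unfold flat
  rw [List.filter_append]

theorem ARun.re {α : Type} {w : Word} {ℓ ℓ' : List α} (h : ARun w ℓ ℓ') :
    RE (flat (rot w)) ℓ ℓ' := by
  induction h with
  | nil ℓ => exact RE.nil ℓ
  | cons hs _ ih =>
    rw [rot_cons, flat_append]
    exact hs.re.trans ih

/-- The crossings of the turned word. -/
theorem rot_split {w a' b' : Word} {i' : ℕ} (h : rot w = a' ++ (Kind.pos, i') :: b') :
    ∃ (a b : Word) (x : Letter), w = a ++ x :: b ∧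
      ((x = (Kind.pos, i') ∧ a' = rot a ∧ b' = rot b) ∨
        (∃ i, x = (Kind.neg, i) ∧ i' = i + 1 ∧ a' = rot a ++ [(Kind.cup, i + 2)] ∧
          b' = (Kind.cap, i) :: rot b)) := by
  induction w generalizing a' with
  | nil => simp [rot] at h
  | cons y w ih =>
    rw [rot_cons] at h
    obtain ⟨k, i⟩ := y
    have lift : ∀ (a'' : Word), a' = rotL (k, i) ++ a'' → rot w = a'' ++ (Kind.pos, i') :: b' →
        ∃ (a b : Word) (x : Letter), (k, i) :: w = a ++ x :: b ∧
      ((x = (Kind.pos, i') ∧ a' = rot a ∧ b' = rot b) ∨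
        (∃ i, x = (Kind.neg, i) ∧ i' = i + 1 ∧ a' = rot a ++ [(Kind.cup, i + 2)] ∧
          b' = (Kind.cap, i) :: rot b)) := by
      intro a'' h1 h2
      obtain ⟨a, b, x, h3, h4⟩ := ih h2
      refine ⟨(k, i) :: a, b, x, by rw [h3]; rfl, ?_⟩
      rcases h4 with ⟨h5, h6, h7⟩ | ⟨j, h5, h6, h7, h8⟩
      · left
        exact ⟨h5, by rw [h1, h6, rot_cons], h7⟩
      · right
        exact ⟨j, h5, h6, by rw [h1, h7, rot_cons, List.append_assoc], h8⟩
    cases k with
    | cup =>
      cases a' with
      | nil => simp [rotL] at h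
      | cons y a' =>
        simp only [rotL, List.cons_append, List.nil_append, List.cons.injEq] at h
        exact lift a' (by rw [← h.1]; rfl) h.2
    | cap =>
      cases a' with
      | nil => simp [rotL] at h
      | cons y a' =>
        simp only [rotL, List.cons_append, List.nil_append, List.cons.injEq] at h
        exact lift a' (by rw [← h.1]; rfl) h.2
    | pos =>
      cases a' with
      | nil =>
        simp only [rotL, List.cons_append, List.nil_append, List.cons.injEq, Prod.mk.injEq,
          true_and] at h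
        exact ⟨[], w, (Kind.pos, i), rfl, Or.inl ⟨by rw [h.1], rfl, h.2.symm⟩⟩
      | cons y a' =>
        simp only [rotL, List.cons_append, List.nil_append, List.cons.injEq] at h
        exact lift a' (by rw [← h.1]; rfl) h.2
    | neg =>
      cases a' with
      | nil => simp [rotL] at h
      | cons y a' =>
        simp only [rotL, List.cons_append, List.nil_append, List.cons.injEq] at h
        obtain ⟨h1, h⟩ := h
        cases a' with
        | nil =>
          simp only [List.nil_append, List.cons.injEq, Prod.mk.injEq, true_and] at h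
          refine ⟨[], w, (Kind.neg, i), rfl, Or.inr ⟨i, rfl, h.1.symm, ?_, h.2.symm⟩⟩
          rw [← h1]
          rfl
        | cons z a' =>
          simp only [List.cons_append, List.cons.injEq] at h
          obtain ⟨h2, h⟩ := h
          cases a' with
          | nil => simp at h
          | cons t a' =>
            simp only [List.cons_append, List.cons.injEq] at h
            obtain ⟨h3, h⟩ := h
            exact lift a' (by rw [← h1, ← h2, ← h3]; rfl) h

theorem sep_of {M : ℕ} {a b : Word} {i : ℕ} {ℓ₀ ℓ : List Bool} (h0 : ℓ₀.length = M)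
    (h1 : RE a ℓ₀ ℓ) (h2 : RE b ℓ ℓ₀) (h3 : ℓ.getD i false ≠ ℓ.getD (i + 1) false) :
    Sep M a b i := by
  obtain ⟨K₁, hK₁, h4, h5⟩ := h1
  obtain ⟨K₂, hK₂, h6, h7⟩ := h2
  exact ⟨K₁, K₂, ℓ₀, ℓ, h0, hK₁, h4, h5, hK₂, h6, h7, h3⟩

/-- Adequacy of the turned word. -/
theorem adq_rot {n : ℕ} {w : Word} (h : AAdequate n w) : Adq n (rot w) := by
  intro a' b' i' h1
  obtain ⟨a, b, x, h2, h3⟩ := rot_split h1
  rcases h3 with ⟨rfl, rfl, rfl⟩ | ⟨i, rfl, rfl, rfl, rfl⟩
  · obtain ⟨t, ℓ, ℓ', h0, h4, h5, h6, h7⟩ := h.2 a b _ h2 (Or.inl rfl)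
    cases h5 with
    | pos u v x y =>
      refine sep_of (ℓ₀ := t) h0 h4.re h6.re ?_
      intro h8
      apply h7
      simp only
      rw [List.getElem?_append_right le_rfl, List.getElem?_append_right (by omega)]
      simp at h8
      simp [h8]
  · obtain ⟨t, ℓ, ℓ', h0, h4, h5, h6, h7⟩ := h.2 a b _ h2 (Or.inr rfl)
    cases h5 with
    | neg u v x y =>
      have h8 : Step (Kind.cup, (u ++ [x, x]).length) (u ++ [x, x] ++ v)
        (u ++ [x, x] ++ y :: y :: v) := Step.cup (u ++ [x, x]) v y
      have h9 : Step (Kind.cap, u.length) (u ++ x :: x :: (y :: y :: v)) (u ++ y :: y :: v) :=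
        Step.cap u (y :: y :: v) x
      have e1 : (u ++ [x, x]).length = u.length + 2 := by simp
      have e2 : u ++ [x, x] ++ v = u ++ x :: x :: v := by simp
      have e3 : u ++ [x, x] ++ y :: y :: v = u ++ x :: x :: (y :: y :: v) := by simp
      rw [e1, e2, e3] at h8
      refine sep_of (ℓ₀ := t) (ℓ := u ++ x :: x :: (y :: y :: v)) h0 ?_ ?_ ?_
      · rw [flat_append]
        exact h4.re.trans (RE.of_step h8)
      · have e4 : flat ((Kind.cap, u.length) :: rot b) = (Kind.cap, u.length) :: flat (rot b) :=
          rfl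
        rw [e4]
        exact RE.cons h9 h6.re
      · intro h10
        apply h7
        simp only
        rw [List.getElem?_append_right le_rfl, List.getElem?_append_right (by omega)]
        have e5 : (u ++ x :: x :: (y :: y :: v)).getD (u.length + 1) false = x := by
          rw [List.getD_append_right _ _ _ _ (by omega)]
          simp
        have e6 : (u ++ x :: x :: (y :: y :: v)).getD (u.length + 1 + 1) false = y := by
          rw [List.getD_append_right _ _ _ _ (by omega)]
          have : u.length + 1 + 1 - u.length = 2 := by omega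
          rw [this]
          simp
        rw [e5, e6] at h10
        simp [h10]

/-- The all-A state of the turned word consists of vertical arcs and circles. -/
theorem through_rot {n : ℕ} {w : Word} (h : AAdequate n w) :
    RE (flat (rot w)) (List.range n) (List.range n) := h.1.re

/-- The turned word is a diagram with the same numbers of strands. -/
theorem step_rotL {x : Letter} {ℓ ℓ' : List Unit} (h : Step x ℓ ℓ') : RE (rotL x) ℓ ℓ' := by
  cases h with
  | cup u v y => exact RE.of_step (Step.cup u v y)
  | cap u v y => exact RE.of_step (Step.cap u v y)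
  | pos u v x y => exact RE.of_step (Step.pos u v x y)
  | neg u v x y =>
    have h1 : Step (Kind.cup, (u ++ [x, y]).length) (u ++ [x, y] ++ v)
        (u ++ [x, y] ++ x :: x :: v) := Step.cup (u ++ [x, y]) v x
    have h2 : Step (Kind.pos, (u ++ [x]).length) (u ++ [x] ++ y :: x :: (x :: v))
        (u ++ [x] ++ x :: y :: (x :: v)) := Step.pos (u ++ [x]) (x :: v) y x
    have h3 : Step (Kind.cap, u.length) (u ++ x :: x :: (y :: x :: v)) (u ++ y :: x :: v) :=
      Step.cap u (y :: x :: v) x
    have e1 : (u ++ [x, y]).length = u.length + 2 := by simp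
    have e2 : u ++ [x, y] ++ v = u ++ x :: y :: v := by simp
    have e3 : u ++ [x, y] ++ x :: x :: v = u ++ [x] ++ y :: x :: (x :: v) := by simp
    have e4 : (u ++ [x]).length = u.length + 1 := by simp
    have e5 : u ++ [x] ++ x :: y :: (x :: v) = u ++ x :: x :: (y :: x :: v) := by simp
    rw [e1, e2, e3] at h1
    rw [e4] at h2
    rw [← e5] at h3
    exact RE.cons h1 (RE.cons h2 (RE.of_step h3))

theorem run_rot {w : Word} {K : List (List Unit)} (hK : Run w K) :
    ∀ {ℓ ℓ' : List Unit}, K.head? = some ℓ → K.getLast? = some ℓ' → RE (rot w) ℓ ℓ' := by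
  induction hK with
  | nil ℓ₁ =>
    intro ℓ ℓ' h1 h2
    simp only [List.head?_cons, List.getLast?_singleton, Option.some.injEq] at h1 h2
    subst h1
    subst h2
    exact RE.nil _
  | cons hs _ ih =>
    intro ℓ ℓ' h1 h2
    simp only [List.head?_cons, Option.some.injEq] at h1
    subst h1
    rw [List.getLast?_cons_cons] at h2
    rw [rot_cons]
    exact (step_rotL hs).trans (ih rfl h2)

theorem uRun_rot {n n' : ℕ} {w : Word} (h : URun n n' w) : URun n n' (rot w) := by
  obtain ⟨K, h1, h2, h3⟩ := h
  exact run_rot h1 h2 h3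

theorem uRun_of_long {w : Word} (h : LongWord w) : URun 1 1 w := by
  obtain ⟨L, h1, h2⟩ := h
  exact ⟨_, h1, rfl, h2⟩

theorem long_of_uRun {w : Word} (h : URun 1 1 w) : LongWord w := by
  obtain ⟨K, h1, h2, h3⟩ := h
  cases K with
  | nil => simp at h2
  | cons k K =>
    simp only [List.head?_cons, Option.some.injEq] at h2
    subst h2
    exact ⟨K, h1, h3⟩

/-- An adequate diagram has the right numbers of strands. -/
theorem AStep.unit {α : Type} {x : Letter} {ℓ ℓ' : List α} (h : AStep x ℓ ℓ') :
    Step x (List.replicate ℓ.length ()) (List.replicate ℓ'.length ()) := by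
  have e : ∀ (u : List α) (k : ℕ), List.replicate (u.length + k) () =
      List.replicate u.length () ++ List.replicate k () := by
    intro u k
    rw [List.replicate_append_replicate]
  have l : ∀ u : List α, u.length = (List.replicate u.length ()).length := by simp
  cases h with
  | cup u v y =>
    have h1 := Step.cup (List.replicate u.length ()) (List.replicate v.length ()) ()
    rw [← l] at h1
    rw [List.length_append, List.length_append, e, e]
    exact h1
  | cap u v y =>
    have h1 := Step.cap (List.replicate u.length ()) (List.replicate v.length ()) ()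
    rw [← l] at h1
    rw [List.length_append, List.length_append, e, e]
    exact h1
  | pos u v x y =>
    have h1 := Step.pos (List.replicate u.length ()) (List.replicate v.length ()) () ()
    rw [← l] at h1
    rw [List.length_append, e]
    exact h1
  | neg u v x y =>
    have h1 := Step.neg (List.replicate u.length ()) (List.replicate v.length ()) () ()
    rw [← l] at h1
    rw [List.length_append, List.length_append, e, e]
    exact h1

theorem ARun.unit {α : Type} {w : Word} {ℓ ℓ' : List α} (h : ARun w ℓ ℓ') :
    RE w (List.replicate ℓ.length ()) (List.replicate ℓ'.length ()) := by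
  induction h with
  | nil ℓ => exact RE.nil _
  | cons hs _ ih => exact RE.cons hs.unit ih

theorem AAdequate.uRun {n : ℕ} {w : Word} (h : AAdequate n w) : URun n n w := by
  have h1 := h.1.unit
  rw [List.length_range] at h1
  exact h1

end Pool.Agent.HTW
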