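import Pool.Agent.HTW.Defs

/-!
# Numbers of strands
-/

namespace Pool.Agent.HTW

/-- `w` is a diagram with `a` strands at the bottom and `b` strands at the top. -/
inductive Len : Word → ℕ → ℕ → Prop
  | nil (a : ℕ) : Len [] a a
  | cup {w : Word} {i a b : ℕ} : i ≤ a → Len w (a + 2) b → Len ((Kind.cup, i) :: w) a b
  | cap {w : Word} {i a b : ℕ} : i ≤ a → Len w a b → Len ((Kind.cap, i) :: w) (a + 2) b
  | pos {w : Word} {i a b : ℕ} : i ≤ a → Len w (a + 2) b → Len ((Kind.pos, i) :: w) (a + 2) b
  | neg {w : Word} {i a b : ℕ} : i ≤ a → Len w (a + 2) b → Len ((Kind.neg, i) :: w) (a + 2) b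

theorem Run.len {α : Type} {w : Word} {L : List (List α)} (h : Run w L) :
    ∀ {ℓ ℓ' : List α}, L.head? = some ℓ → L.getLast? = some ℓ' → Len w ℓ.length ℓ'.length := by
  induction h with
  | nil ℓ₀ =>
    intro ℓ ℓ' h1 h2
    simp only [List.head?_cons, Option.some.injEq, List.getLast?_singleton] at h1 h2
    subst h1
    subst h2
    exact Len.nil _
  | @cons x w ℓ₀ ℓ₁ rest hs hr ih =>
    intro ℓ ℓ' h1 h2
    simp only [List.head?_cons, Option.some.injEq] at h1
    subst h1
    have h3 : (ℓ₁ :: rest).getLast? = some ℓ' := by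
      rw [← h2]
      rfl
    have h4 := ih (ℓ := ℓ₁) rfl h3
    cases hs with
    | cup u v y =>
      refine Len.cup (by simp) ?_
      have e : (u ++ v).length + 2 = (u ++ y :: y :: v).length := by simp; omega
      rwa [e]
    | cap u v y =>
      have e : (u ++ y :: y :: v).length = (u ++ v).length + 2 := by simp; omega
      rw [e]
      exact Len.cap (by simp) h4
    | pos u v y z =>
      have e : (u ++ y :: z :: v).length = (u ++ v).length + 2 := by simp; omega
      have e' : (u ++ z :: y :: v).length = (u ++ v).length + 2 := by simp; omega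
      rw [e'] at h4
      rw [e]
      exact Len.pos (by simp) h4
    | neg u v y z =>
      have e : (u ++ y :: z :: v).length = (u ++ v).length + 2 := by simp; omega
      have e' : (u ++ z :: y :: v).length = (u ++ v).length + 2 := by simp; omega
      rw [e'] at h4
      rw [e]
      exact Len.neg (by simp) h4

theorem LongWord.len {w : Word} (h : LongWord w) : Len w 1 1 := by
  obtain ⟨L, hL, hl⟩ := h
  exact hL.len rfl hl

end Pool.Agent.HTW
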