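import Pool.Agent.HTW.States
import Pool.Agent.HTW.Words
import Pool.Agent.HTW.Len

/-!
# Cables of adequate diagrams are adequate (helper33)
-/

namespace Pool.Agent.HTW

open Finset

/-! ## Letters of a cable -/

theorem mem_shiftWord {k : ℕ} {w : Word} {x : Letter} (h : x ∈ shiftWord k w) :
    ∃ y ∈ w, x = (y.1, y.2 + k) := by
  obtain ⟨y, hy, rfl⟩ := List.mem_map.1 h
  exact ⟨y, hy, rfl⟩

theorem mem_blockWord {k : Kind} {q p : ℕ} {x : Letter} (h : x ∈ blockWord k q p) :
    x.1 = k ∧ x.2 + 2 ≤ p + q := by
  induction p generalizing x with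
  | zero => cases h
  | succ p ih =>
    rcases List.mem_append.1 h with h | h
    · obtain ⟨y, hy, rfl⟩ := mem_shiftWord h
      obtain ⟨h1, h2⟩ := ih hy
      exact ⟨h1, by dsimp only; omega⟩
    · obtain ⟨j, hj, rfl⟩ := List.mem_map.1 h
      rw [List.mem_range] at hj
      exact ⟨rfl, by dsimp only; omega⟩

/-- The letters of a cable. -/
theorem mem_cableLetter {m : ℕ} {y x : Letter} (h : x ∈ cableLetter m y) :
    x.1 = y.1 ∧ ((y.1 = Kind.pos ∨ y.1 = Kind.neg) → ∃ r, x.2 = m * y.2 + r ∧ r + 2 ≤ 2 * m) := by
  obtain ⟨k, i⟩ := y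
  cases k with
  | cup =>
    obtain ⟨j, hj, rfl⟩ := List.mem_map.1 h
    exact ⟨rfl, by rintro (h | h) <;> cases h⟩
  | cap =>
    obtain ⟨j, hj, rfl⟩ := List.mem_map.1 h
    exact ⟨rfl, by rintro (h | h) <;> cases h⟩
  | pos =>
    obtain ⟨y, hy, rfl⟩ := mem_shiftWord h
    obtain ⟨h1, h2⟩ := mem_blockWord hy
    exact ⟨h1, fun _ => ⟨y.2, by dsimp only; omega, by omega⟩⟩
  | neg =>
    obtain ⟨y, hy, rfl⟩ := mem_shiftWord h
    obtain ⟨h1, h2⟩ := mem_blockWord hy
    exact ⟨h1, fun _ => ⟨y.2, by dsimp only; omega, by omega⟩⟩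

theorem cable_cons (m : ℕ) (x : Letter) (w : Word) :
    cable m (x :: w) = cableLetter m x ++ cable m w := List.flatMap_cons

theorem noNeg_cable (m : ℕ) {w : Word} (hw : ∀ x ∈ w, x.1 ≠ Kind.neg) :
    ∀ x ∈ cable m w, x.1 ≠ Kind.neg := by
  intro x hx
  obtain ⟨y, hy, hxy⟩ := List.mem_flatMap.1 hx
  rw [(mem_cableLetter hxy).1]
  exact hw y hy

/-! ## The number of crossings -/

theorem crossings_append' (a b : Word) : crossings (a ++ b) = crossings a + crossings b := by
  unfold crossings
  rw [List.countP_append]

theorem crossings_all {w : Word} (h : ∀ x ∈ w, x.1 = Kind.pos ∨ x.1 = Kind.neg) :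
    crossings w = w.length := by
  unfold crossings
  rw [List.countP_eq_length]
  intro x hx
  simpa using h x hx

theorem crossings_none {w : Word} (h : ∀ x ∈ w, x.1 = Kind.cup ∨ x.1 = Kind.cap) :
    crossings w = 0 := by
  unfold crossings
  rw [List.countP_eq_zero]
  intro x hx
  rcases h x hx with h | h <;> simp [h]

theorem length_blockWord (k : Kind) (q p : ℕ) : (blockWord k q p).length = p * q := by
  induction p with
  | zero => simp [blockWord]
  | succ p ih =>
    simp only [blockWord, shiftWord, List.length_append, List.length_map, List.length_range, ih]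
    ring

theorem length_cableLetter_pos (m i : ℕ) : (cableLetter m (Kind.pos, i)).length = m ^ 2 := by
  simp only [cableLetter, shiftWord, List.length_map, length_blockWord]
  ring

theorem length_cableLetter_neg (m i : ℕ) : (cableLetter m (Kind.neg, i)).length = m ^ 2 := by
  simp only [cableLetter, shiftWord, List.length_map, length_blockWord]
  ring

theorem crossings_cableLetter (m : ℕ) (x : Letter) :
    crossings (cableLetter m x) = m ^ 2 * crossings [x] := by
  obtain ⟨k, i⟩ := x
  cases k with
  | cup =>
    rw [crossings_none fun y hy => Or.inl (mem_cableLetter hy).1]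
    rfl
  | cap =>
    rw [crossings_none fun y hy => Or.inr (mem_cableLetter hy).1]
    rfl
  | pos =>
    rw [crossings_all fun y hy => Or.inl (mem_cableLetter hy).1, length_cableLetter_pos]
    exact (mul_one _).symm
  | neg =>
    rw [crossings_all fun y hy => Or.inr (mem_cableLetter hy).1, length_cableLetter_neg]
    exact (mul_one _).symm

theorem crossings_cable (m : ℕ) (w : Word) : crossings (cable m w) = m ^ 2 * crossings w := by
  induction w with
  | nil => rfl
  | cons x w ih =>
    rw [cable_cons, crossings_append', ih, crossings_cableLetter, crossings_cons x w]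
    ring

/-! ## The numbers of strands -/

theorem Len.append {a b : Word} {p q r : ℕ} (ha : Len a p q) (hb : Len b q r) :
    Len (a ++ b) p r := by
  induction ha with
  | nil a => exact hb
  | cup hi _ ih => exact Len.cup hi (ih hb)
  | cap hi _ ih => exact Len.cap hi (ih hb)
  | pos hi _ ih => exact Len.pos hi (ih hb)
  | neg hi _ ih => exact Len.neg hi (ih hb)

theorem Len.split {a b : Word} {p r : ℕ} (h : Len (a ++ b) p r) :
    ∃ q, Len a p q ∧ Len b q r := by
  induction a generalizing p with
  | nil => exact ⟨p, Len.nil p, h⟩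
  | cons x a ih =>
    rw [List.cons_append] at h
    cases h with
    | cup hi h =>
      obtain ⟨q, h1, h2⟩ := ih h
      exact ⟨q, Len.cup hi h1, h2⟩
    | cap hi h =>
      obtain ⟨q, h1, h2⟩ := ih h
      exact ⟨q, Len.cap hi h1, h2⟩
    | pos hi h =>
      obtain ⟨q, h1, h2⟩ := ih h
      exact ⟨q, Len.pos hi h1, h2⟩
    | neg hi h =>
      obtain ⟨q, h1, h2⟩ := ih h
      exact ⟨q, Len.neg hi h1, h2⟩

theorem Len.unique {w : Word} {p q q' : ℕ} (h : Len w p q) (h' : Len w p q') : q = q' := by
  induction h with
  | nil a =>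
    cases h'
    rfl
  | cup _ _ ih =>
    cases h' with
    | cup _ h => exact ih h
  | cap _ _ ih =>
    cases h' with
    | cap _ h => exact ih h
  | pos _ _ ih =>
    cases h' with
    | pos _ h => exact ih h
  | neg _ _ ih =>
    cases h' with
    | neg _ h => exact ih h

theorem Len.cross {w : Word} {a : ℕ}
    (h : ∀ x ∈ w, (x.1 = Kind.pos ∨ x.1 = Kind.neg) ∧ x.2 + 2 ≤ a) : Len w a a := by
  induction w with
  | nil => exact Len.nil a
  | cons x w ih =>
    obtain ⟨k, i⟩ := x
    obtain ⟨h1, h2⟩ := h (k, i) (by simp)
    have h3 := ih fun x hx => h x (List.mem_cons_of_mem _ hx)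
    dsimp only at h1 h2
    obtain ⟨c, rfl⟩ : ∃ c, a = c + 2 := ⟨a - 2, by omega⟩
    rcases h1 with rfl | rfl
    · exact Len.pos (by omega) h3
    · exact Len.neg (by omega) h3

theorem len_cups (n c a : ℕ) (hc : c ≤ a) :
    Len ((List.range n).map (fun j => (Kind.cup, c + j))) a (a + 2 * n) := by
  induction n with
  | zero => exact Len.nil a
  | succ n ih =>
    rw [List.range_succ, List.map_append]
    refine Len.append ih ?_
    have e : a + 2 * (n + 1) = a + 2 * n + 2 := by ring
    rw [e]
    exact Len.cup (by omega) (Len.nil _)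

theorem len_caps (n c a : ℕ) (hc : c ≤ a) :
    Len ((List.range n).reverse.map (fun j => (Kind.cap, c + j))) (a + 2 * n) a := by
  induction n with
  | zero => exact Len.nil a
  | succ n ih =>
    rw [List.range_succ, List.reverse_append, List.map_append]
    have e : a + 2 * (n + 1) = a + 2 * n + 2 := by ring
    rw [e]
    exact Len.cap (by omega) ih

theorem len_cable (m : ℕ) {w : Word} {a b : ℕ} (h : Len w a b) :
    Len (cable m w) (m * a) (m * b) := by
  induction h with
  | nil a => exact Len.nil _
  | @cup w i a b hi _ ih =>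
    rw [cable_cons]
    refine Len.append ?_ ih
    rw [mul_add, mul_comm m 2]
    exact len_cups m (m * i) (m * a) (Nat.mul_le_mul_left m hi)
  | @cap w i a b hi _ ih =>
    rw [cable_cons]
    refine Len.append ?_ ih
    rw [mul_add, mul_comm m 2]
    exact len_caps m (m * i) (m * a) (Nat.mul_le_mul_left m hi)
  | @pos w i a b hi _ ih =>
    rw [cable_cons]
    refine Len.append (Len.cross fun x hx => ?_) ih
    obtain ⟨h1, h2⟩ := mem_cableLetter hx
    obtain ⟨r, h3, h4⟩ := h2 (Or.inl rfl)
    refine ⟨Or.inl h1, ?_⟩
    have h5 : m * i ≤ m * a := Nat.mul_le_mul_left m hi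
    dsimp only at h3
    rw [mul_add]
    omega
  | @neg w i a b hi _ ih =>
    rw [cable_cons]
    refine Len.append (Len.cross fun x hx => ?_) ih
    obtain ⟨h1, h2⟩ := mem_cableLetter hx
    obtain ⟨r, h3, h4⟩ := h2 (Or.inr rfl)
    refine ⟨Or.inr h1, ?_⟩
    have h5 : m * i ≤ m * a := Nat.mul_le_mul_left m hi
    dsimp only at h3
    rw [mul_add]
    omega

theorem len_flat {w : Word} {a b : ℕ} (h : Len w a b) : Len (flat w) a b := by
  induction h with
  | nil a => exact Len.nil _
  | cup hi _ ih =>
    unfold flat
    rw [List.filter_cons_of_pos (by simp)]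
    exact Len.cup hi ih
  | cap hi _ ih =>
    unfold flat
    rw [List.filter_cons_of_pos (by simp)]
    exact Len.cap hi ih
  | pos hi _ ih =>
    unfold flat
    rw [List.filter_cons_of_neg (by simp)]
    exact ih
  | neg hi _ ih =>
    unfold flat
    rw [List.filter_cons_of_neg (by simp)]
    exact ih

/-! ## Runs with given ends -/

/-- There is a labelling of `w` with `ℓ` at the bottom and `ℓ'` at the top. -/
inductive RT {α : Type} : Word → List α → List α → Prop
  | nil (ℓ : List α) : RT [] ℓ ℓ
  | cons {x : Letter} {w : Word} {ℓ ℓ' ℓ'' : List α} :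
      Step x ℓ ℓ' → RT w ℓ' ℓ'' → RT (x :: w) ℓ ℓ''

theorem RT.append {α : Type} {a b : Word} {ℓ₁ ℓ₂ ℓ₃ : List α} (ha : RT a ℓ₁ ℓ₂)
    (hb : RT b ℓ₂ ℓ₃) : RT (a ++ b) ℓ₁ ℓ₃ := by
  induction ha with
  | nil ℓ => exact hb
  | cons hs _ ih => exact RT.cons hs (ih hb)

theorem RT.run {α : Type} {w : Word} {ℓ ℓ' : List α} (h : RT w ℓ ℓ') :
    ∃ K : List (List α), Run w K ∧ K.head? = some ℓ ∧ K.getLast? = some ℓ' := by
  induction h with
  | nil ℓ => exact ⟨[ℓ], Run.nil ℓ, rfl, rfl⟩
  | @cons x w ℓ ℓ' ℓ'' hs _ ih =>
    obtain ⟨K, h1, h2, h3⟩ := ih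
    cases K with
    | nil => cases h2
    | cons k K =>
      simp only [List.head?_cons, Option.some.injEq] at h2
      subst h2
      exact ⟨ℓ :: k :: K, Run.cons hs h1, rfl, by rw [List.getLast?_cons_cons]; exact h3⟩

theorem Run.rt {α : Type} {w : Word} {K : List (List α)} (h : Run w K) {ℓ ℓ' : List α}
    (h1 : K.head? = some ℓ) (h2 : K.getLast? = some ℓ') : RT w ℓ ℓ' := by
  induction h generalizing ℓ with
  | nil ℓ₀ =>
    simp only [List.head?_cons, Option.some.injEq, List.getLast?_singleton] at h1 h2
    subst h1
    subst h2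
    exact RT.nil _
  | @cons x w ℓ₀ ℓ₁ rest hs hr ih =>
    simp only [List.head?_cons, Option.some.injEq] at h1
    subst h1
    rw [List.getLast?_cons_cons] at h2
    exact RT.cons hs (ih rfl h2)

theorem RT.len {α : Type} {w : Word} {ℓ ℓ' : List α} (h : RT w ℓ ℓ') :
    Len w ℓ.length ℓ'.length := by
  obtain ⟨K, h1, h2, h3⟩ := h.run
  exact h1.len h2 h3

theorem rep_split {a c : ℕ} (h : c ≤ a) :
    List.replicate a () = List.replicate c () ++ List.replicate (a - c) () := by
  rw [← List.replicate_add]
  congr 1
  omega

theorem Len.rt {w : Word} {a b : ℕ} (h : Len w a b) :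
    RT w (List.replicate a ()) (List.replicate b ()) := by
  induction h with
  | nil a => exact RT.nil _
  | @cup w i a b hi _ ih =>
    refine RT.cons ?_ ih
    have h1 := Step.cup (List.replicate i ()) (List.replicate (a - i) ()) ()
    rw [List.length_replicate, ← rep_split hi] at h1
    have e : List.replicate i () ++ () :: () :: List.replicate (a - i) () =
        List.replicate (a + 2) () := by
      rw [rep_split (show i ≤ a + 2 by omega), show a + 2 - i = (a - i) + 1 + 1 by omega]
      rfl
    rwa [e] at h1
  | @cap w i a b hi _ ih =>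
    refine RT.cons ?_ ih
    have h1 := Step.cap (List.replicate i ()) (List.replicate (a - i) ()) ()
    rw [List.length_replicate, ← rep_split hi] at h1
    have e : List.replicate i () ++ () :: () :: List.replicate (a - i) () =
        List.replicate (a + 2) () := by
      rw [rep_split (show i ≤ a + 2 by omega), show a + 2 - i = (a - i) + 1 + 1 by omega]
      rfl
    rwa [e] at h1
  | @pos w i a b hi _ ih =>
    refine RT.cons ?_ ih
    have h1 := Step.pos (List.replicate i ()) (List.replicate (a - i) ()) () ()
    rw [List.length_replicate] at h1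
    have e : List.replicate i () ++ () :: () :: List.replicate (a - i) () =
        List.replicate (a + 2) () := by
      rw [rep_split (show i ≤ a + 2 by omega), show a + 2 - i = (a - i) + 1 + 1 by omega]
      rfl
    rwa [e] at h1
  | @neg w i a b hi _ ih =>
    refine RT.cons ?_ ih
    have h1 := Step.neg (List.replicate i ()) (List.replicate (a - i) ()) () ()
    rw [List.length_replicate] at h1
    have e : List.replicate i () ++ () :: () :: List.replicate (a - i) () =
        List.replicate (a + 2) () := by
      rw [rep_split (show i ≤ a + 2 by omega), show a + 2 - i = (a - i) + 1 + 1 by omega]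
      rfl
    rwa [e] at h1

theorem Len.uRun {w : Word} {a b : ℕ} (h : Len w a b) : URun a b w := h.rt.run

theorem uRun_cable (m : ℕ) {w : Word} (hw : LongWord w) : URun m m (cable m w) := by
  have h := len_cable m hw.len
  rw [mul_one] at h
  exact h.uRun

/-! ## The all-A state of a cable -/

theorem flat_app (a b : Word) : flat (a ++ b) = flat a ++ flat b := List.filter_append ..

theorem flat_self {w : Word} (h : ∀ x ∈ w, x.1 = Kind.cup ∨ x.1 = Kind.cap) : flat w = w := by
  unfold flat
  rw [List.filter_eq_self]
  intro x hx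
  simpa using h x hx

theorem flat_none {w : Word} (h : ∀ x ∈ w, x.1 = Kind.pos ∨ x.1 = Kind.neg) : flat w = [] := by
  unfold flat
  rw [List.filter_eq_nil_iff]
  intro x hx
  rcases h x hx with h | h <;> simp [h]

theorem flat_flat (w : Word) : Flat (flat w) := by
  intro x hx
  have h := (List.mem_filter.1 hx).2
  simpa using h

theorem flat_cableLetter (m : ℕ) (x : Letter) :
    flat (cableLetter m x) = cable m (flat [x]) := by
  obtain ⟨k, i⟩ := x
  cases k with
  | cup =>
    rw [flat_self fun y hy => Or.inl (mem_cableLetter hy).1,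
      flat_self (w := [(Kind.cup, i)]) (by simp)]
    exact (List.append_nil _).symm
  | cap =>
    rw [flat_self fun y hy => Or.inr (mem_cableLetter hy).1,
      flat_self (w := [(Kind.cap, i)]) (by simp)]
    exact (List.append_nil _).symm
  | pos =>
    rw [flat_none fun y hy => Or.inl (mem_cableLetter hy).1,
      flat_none (w := [(Kind.pos, i)]) (by simp)]
    rfl
  | neg =>
    rw [flat_none fun y hy => Or.inr (mem_cableLetter hy).1,
      flat_none (w := [(Kind.neg, i)]) (by simp)]
    rfl

theorem cable_append (m : ℕ) (a b : Word) : cable m (a ++ b) = cable m a ++ cable m b :=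
  List.flatMap_append

theorem flat_cable' (m : ℕ) (w : Word) : flat (cable m w) = cable m (flat w) := by
  induction w with
  | nil => rfl
  | cons x w ih =>
    rw [cable_cons, flat_app, ih, flat_cableLetter, ← cable_append, ← flat_app]
    rfl

theorem flat_cable (m : ℕ) {w : Word} (hw : ∀ x ∈ w, x.1 ≠ Kind.neg) :
    flat (cable m w) = cable m (flat w) := flat_cable' m w

theorem flat_of_flat_cable (m : ℕ) {v : Word} (hv : Flat v) : Flat (cable m v) := by
  intro x hx
  obtain ⟨y, hy, hxy⟩ := List.mem_flatMap.1 hx
  rw [(mem_cableLetter hxy).1]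
  exact hv y hy

/-- The positions of the crossings of a cable. -/
theorem cable_split (m : ℕ) {w : Word} :
    ∀ (a b : Word) (i : ℕ), cable m w = a ++ (Kind.pos, i) :: b →
      ∃ (a₀ b₀ : Word) (i₀ r : ℕ), w = a₀ ++ (Kind.pos, i₀) :: b₀ ∧ i = m * i₀ + r ∧
        r + 2 ≤ 2 * m ∧ flat a = cable m (flat a₀) ∧ flat b = cable m (flat b₀) := by
  induction w with
  | nil =>
    intro a b i h
    exact absurd h (by simp [cable])
  | cons x w ih =>
    intro a b i h
    rw [cable_cons, List.append_eq_append_iff] at h
    have first : ∀ c : Word, a = cableLetter m x ++ c → cable m w = c ++ (Kind.pos, i) :: b →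
        ∃ (a₀ b₀ : Word) (i₀ r : ℕ), x :: w = a₀ ++ (Kind.pos, i₀) :: b₀ ∧ i = m * i₀ + r ∧
        r + 2 ≤ 2 * m ∧ flat a = cable m (flat a₀) ∧ flat b = cable m (flat b₀) := by
      intro c h1 h2
      obtain ⟨a₀, b₀, i₀, r, g1, g2, g3, g4, g5⟩ := ih c b i h2
      refine ⟨x :: a₀, b₀, i₀, r, by rw [g1]; rfl, g2, g3, ?_, g5⟩
      rw [h1, flat_app, g4, flat_cableLetter, ← cable_append, ← flat_app]
      rfl
    rcases h with ⟨c, h1, h2⟩ | ⟨c, h1, h2⟩
    · exact first c h1 h2
    · cases c with
      | nil => exact first [] (by rw [h1]; simp) h2.symm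
      | cons y c =>
        rw [List.cons_append, List.cons.injEq] at h2
        obtain ⟨h2, h3⟩ := h2
        subst h2
        have h4 : (Kind.pos, i) ∈ cableLetter m x := by
          rw [h1]
          simp
        obtain ⟨k, i₀⟩ := x
        obtain ⟨g1, g2⟩ := mem_cableLetter h4
        dsimp only at g1
        subst g1
        obtain ⟨r, g3, g4⟩ := g2 (Or.inl rfl)
        refine ⟨[], w, i₀, r, rfl, g3, g4, ?_, ?_⟩
        · refine flat_none fun y hy => Or.inl (mem_cableLetter (m := m) (y := (Kind.pos, i₀)) ?_).1
          rw [h1]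
          exact List.mem_append_left _ hy
        · have h5 : flat c = [] := by
            refine flat_none fun y hy =>
              Or.inl (mem_cableLetter (m := m) (y := (Kind.pos, i₀)) ?_).1
            rw [h1]
            exact List.mem_append_right _ (List.mem_cons_of_mem _ hy)
          rw [h3, flat_app, h5, flat_cable']
          rfl

/-! ## Labellings of a cable -/

/-- The labels of the strands of a cable: the block of a strand with the label `y` is `G s y`,
where `s` is the parity of the position of the strand. -/
def cblk {α β : Type} (G : Bool → α → List β) : Bool → List α → List β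
  | _, [] => []
  | s, y :: ℓ => G s y ++ cblk G (!s) ℓ

theorem cblk_append {α β : Type} (G : Bool → α → List β) (u v : List α) :
    ∀ s : Bool, cblk G s (u ++ v) = cblk G s u ++ cblk G (Bool.not^[u.length] s) v := by
  induction u with
  | nil =>
    intro s
    rfl
  | cons y u ih =>
    intro s
    rw [List.cons_append, cblk, cblk, ih, List.append_assoc]
    rfl

theorem length_cblk {α β : Type} {G : Bool → α → List β} {m : ℕ}
    (hG : ∀ s y, (G s y).length = m) (ℓ : List α) : ∀ s, (cblk G s ℓ).length = m * ℓ.length := by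
  induction ℓ with
  | nil =>
    intro s
    simp [cblk]
  | cons y ℓ ih =>
    intro s
    rw [cblk, List.length_append, ih, hG, List.length_cons]
    ring

theorem rt_cups {β : Type} (X Z H : List β) :
    RT ((List.range H.length).map (fun j => (Kind.cup, X.length + j))) (X ++ Z)
      (X ++ (H ++ (H.reverse ++ Z))) := by
  induction H using List.reverseRecOn with
  | nil => exact RT.nil _
  | append_singleton H h ih =>
    rw [List.length_append, List.length_singleton, List.range_succ, List.map_append]
    refine RT.append ih ?_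
    have h1 := Step.cup (X ++ H) (H.reverse ++ Z) h
    rw [List.length_append] at h1
    have h2 := RT.cons h1 (RT.nil _)
    simpa using h2

theorem rt_caps {β : Type} (X Z H : List β) :
    RT ((List.range H.length).reverse.map (fun j => (Kind.cap, X.length + j)))
      (X ++ (H ++ (H.reverse ++ Z))) (X ++ Z) := by
  induction H using List.reverseRecOn with
  | nil => exact RT.nil _
  | append_singleton H h ih =>
    rw [List.length_append, List.length_singleton, List.range_succ, List.reverse_append,
      List.map_append]
    have h1 := Step.cap (X ++ H) (H.reverse ++ Z) h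
    rw [List.length_append] at h1
    have h2 := RT.append (RT.cons h1 (RT.nil _)) (by
      rw [List.append_assoc]
      exact ih)
    simpa using h2

/-- The labelling of a cable which is given by a labelling of a planar word. -/
theorem rt_cable {α β : Type} {G : Bool → α → List β} {m : ℕ}
    (hG : ∀ s y, (G s y).length = m) (hR : ∀ s y, G (!s) y = (G s y).reverse) {v : Word}
    (hv : Flat v) {ℓ ℓ' : List α} (h : RT v ℓ ℓ') (s : Bool) :
    RT (cable m v) (cblk G s ℓ) (cblk G s ℓ') := by
  induction h with
  | nil ℓ => exact RT.nil _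
  | @cons x w ℓ₀ ℓ₁ ℓ₂ hs _ ih =>
    rw [cable_cons]
    refine RT.append ?_ (ih fun y hy => hv y (List.mem_cons_of_mem _ hy))
    cases hs with
    | cup u v y =>
      rw [cblk_append, cblk_append, cblk, cblk, Bool.not_not, hR, ← List.append_assoc (G _ y)]
      have h1 := rt_cups (cblk G s u) (cblk G (Bool.not^[u.length] s) v)
        (G (Bool.not^[u.length] s) y)
      rw [length_cblk hG, hG] at h1
      rw [List.append_assoc (G _ y)]
      exact h1
    | cap u v y =>
      rw [cblk_append, cblk_append, cblk, cblk, Bool.not_not, hR, ← List.append_assoc (G _ y)]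
      have h1 := rt_caps (cblk G s u) (cblk G (Bool.not^[u.length] s) v)
        (G (Bool.not^[u.length] s) y)
      rw [length_cblk hG, hG] at h1
      rw [List.append_assoc (G _ y)]
      exact h1
    | pos u v y z => rcases hv _ (List.mem_cons_self ..) with h | h <;> cases h
    | neg u v y z => rcases hv _ (List.mem_cons_self ..) with h | h <;> cases h

theorem sep_of_rt {a b : Word} {m i : ℕ} {ℓ₀ ℓ : List Bool} (h0 : ℓ₀.length = m)
    (ha : RT a ℓ₀ ℓ) (hb : RT b ℓ ℓ₀) (h : ℓ.getD i false ≠ ℓ.getD (i + 1) false) :
    Sep m a b i := by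
  obtain ⟨K₁, h1, h2, h3⟩ := ha.run
  obtain ⟨K₂, h4, h5, h6⟩ := hb.run
  exact ⟨K₁, K₂, ℓ₀, ℓ, h0, h1, h2, h3, h4, h5, h6, h⟩

theorem exists_flag (n : ℕ) : ∃ s : Bool, Bool.not^[n] s = true := by
  have h : Function.Surjective (Bool.not) := fun b => ⟨!b, by simp⟩
  exact h.iterate n true

/-- The labels inside of a block. -/
theorem getD_cblk {α : Type} {G : Bool → α → List Bool} {m : ℕ}
    (hG : ∀ s y, (G s y).length = m) (u v : List α) (y : α) (s : Bool) (t : ℕ) (ht : t < m) :
    (cblk G s (u ++ y :: v)).getD (m * u.length + t) false =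
      (G (Bool.not^[u.length] s) y).getD t false := by
  rw [cblk_append, cblk]
  have e : m * u.length = (cblk G s u).length := (length_cblk hG u s).symm
  rw [e, List.getD_append_right _ _ _ _ (by omega), Nat.add_sub_cancel_left,
    List.getD_append _ _ _ _ (by rw [hG]; exact ht)]

/-- Cables of adequate tangles are adequate. -/
theorem adq_cable_gen (m : ℕ) {n : ℕ} {w : Word} (hL : Len w n n)
    (ha : Adq n w) : Adq (m * n) (cable m w) := by
  intro a b i h
  obtain ⟨a₀, b₀, i₀, r, h1, h2, h3, h4, h5⟩ := cable_split m a b i h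
  rw [h4, h5]
  rw [h1] at hL
  obtain ⟨c, hL1, hL2⟩ := hL.split
  cases hL2 with
  | @pos _ _ c _ hi hL2 =>
  have hA := len_flat hL1
  have hB := len_flat hL2
  by_cases hr : r + 1 = m
  · -- the crossing between the last strand of a block and the first strand of the next one
    obtain ⟨K₁, K₂, ℓ₀, ℓ, g0, g1, g2, g3, g4, g5, g6, g7⟩ := ha a₀ b₀ i₀ h1
    have r1 := g1.rt g2 g3
    have r2 := g4.rt g5 g6
    have hlen : ℓ.length = c + 2 := by
      have h6 := r1.len
      rw [g0] at h6
      exact h6.unique hA
    let G : Bool → Bool → List Bool := fun _ y => List.replicate m y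
    have hG : ∀ s y, (G s y).length = m := fun s y => List.length_replicate
    have hR : ∀ s y, G (!s) y = (G s y).reverse := fun s y => (List.reverse_replicate ..).symm
    have r3 := rt_cable hG hR (flat_flat a₀) r1 true
    have r4 := rt_cable hG hR (flat_flat b₀) r2 true
    refine sep_of_rt (by rw [length_cblk hG, g0]) r3 r4 ?_
    obtain ⟨u, v, y, z, hu, huv⟩ : ∃ (u v : List Bool) (y z : Bool), u.length = i₀ ∧
        ℓ = u ++ y :: z :: v := by
      refine ⟨ℓ.take i₀, ℓ.drop (i₀ + 1 + 1), ℓ[i₀]'(by omega), ℓ[i₀ + 1]'(by omega), ?_, ?_⟩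
      · rw [List.length_take]
        omega
      · rw [← List.drop_eq_getElem_cons, ← List.drop_eq_getElem_cons, List.take_append_drop]
    have e1 : i = m * u.length + r := by rw [hu, h2]
    have e2 : i + 1 = m * (u ++ [y]).length + 0 := by
      rw [List.length_append, hu, h2, List.length_singleton, mul_add]
      omega
    have k1 : (cblk G true ℓ).getD i false = y := by
      rw [e1, huv, getD_cblk hG u (z :: v) y true r (by omega)]
      show (List.replicate m y).getD r false = y
      rw [List.getD_eq_getElem _ _ (by rw [List.length_replicate]; omega),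
        List.getElem_replicate]
    have k2 : (cblk G true ℓ).getD (i + 1) false = z := by
      have huv' : ℓ = (u ++ [y]) ++ z :: v := by rw [huv]; simp
      rw [e2, huv', getD_cblk hG (u ++ [y]) v z true 0 (by omega)]
      show (List.replicate m z).getD 0 false = z
      rw [List.getD_eq_getElem _ _ (by rw [List.length_replicate]; omega),
        List.getElem_replicate]
    rw [k1, k2]
    have k3 : ℓ.getD i₀ false = y := by
      rw [huv, ← hu, List.getD_append_right _ _ _ _ le_rfl, Nat.sub_self]
      rfl
    have k4 : ℓ.getD (i₀ + 1) false = z := by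
      rw [huv, ← hu, List.getD_append_right _ _ _ _ (Nat.le_succ _),
        show u.length.succ - u.length = 1 by omega]
      rfl
    rw [k3, k4] at g7
    exact g7
  · -- a crossing inside of a block
    obtain ⟨p, t, hp, ht, hit⟩ : ∃ p t : ℕ, p < c + 2 ∧ t + 1 < m ∧ i = m * p + t := by
      by_cases hr2 : r < m
      · exact ⟨i₀, r, by omega, by omega, h2⟩
      · refine ⟨i₀ + 1, r - m, by omega, by omega, ?_⟩
        rw [mul_add, h2]
        omega
    obtain ⟨s, hs⟩ := exists_flag p
    let H : List Bool := (List.range m).map (fun j => decide (j ≤ t))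
    have hH : H.length = m := by simp [H]
    let G : Bool → Unit → List Bool := fun s _ => if s then H else H.reverse
    have hG : ∀ s y, (G s y).length = m := by
      intro s y
      cases s
      · show H.reverse.length = m
        rw [List.length_reverse, hH]
      · exact hH
    have hR : ∀ s y, G (!s) y = (G s y).reverse := by
      intro s y
      cases s
      · show H = H.reverse.reverse
        rw [List.reverse_reverse]
      · rfl
    have r3 := rt_cable hG hR (flat_flat a₀) hA.rt s
    have r4 := rt_cable hG hR (flat_flat b₀) hB.rt s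
    refine sep_of_rt (by rw [length_cblk hG, List.length_replicate]) r3 r4 ?_
    have huv : List.replicate (c + 2) () =
        List.replicate p () ++ () :: List.replicate (c + 1 - p) () := by
      rw [rep_split (show p ≤ c + 2 by omega), show c + 2 - p = (c + 1 - p) + 1 by omega]
      rfl
    have hget : ∀ q < m, (cblk G s (List.replicate (c + 2) ())).getD (m * p + q) false =
        decide (q ≤ t) := by
      intro q hq
      have h6 := getD_cblk hG (List.replicate p ()) (List.replicate (c + 1 - p) ()) () s q hq
      rw [List.length_replicate, hs, ← huv] at h6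
      rw [h6]
      show H.getD q false = _
      rw [List.getD_eq_getElem _ _ (by omega)]
      simp [H]
    rw [hit, hget t (by omega), add_assoc, hget (t + 1) ht]
    simp

theorem adq_cable (m : ℕ) {w : Word} (hw : ∀ x ∈ w, x.1 ≠ Kind.neg) (hl : LongWord w)
    (ha : Adq 1 w) : Adq m (cable m w) := by
  have h := adq_cable_gen m hl.len ha
  rwa [mul_one] at h

/-! ## The coloured evaluation -/

theorem dl_lt {D : TLData RR} (hD : D.A = 2) : 1 < |D.dl| := by
  unfold TLData.dl
  rw [hD]
  rw [lt_abs]
  right
  norm_num

end Pool.Agent.HTW
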