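import Pool.Agent.HTW.NormHS
import Pool.Agent.HTW.CableAdq
import Pool.Agent.HTW.Adequate

/-!
# The top coefficient and the norm of the cables of an adequate tangle (helper33)
-/

namespace Pool.Agent.HTW

open Finset

theorem URun.len {M M' : ℕ} {w : Word} (h : URun M M' w) : Len w M M' := by
  obtain ⟨K, h1, h2, h3⟩ := h
  have h4 := h1.len h2 h3
  rwa [List.length_replicate, List.length_replicate] at h4

theorem RE.rt {α : Type} {w : Word} {ℓ ℓ' : List α} (h : RE w ℓ ℓ') : RT w ℓ ℓ' := by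
  obtain ⟨K, h1, h2, h3⟩ := h
  exact h1.rt h2 h3

theorem range_ne {n i : ℕ} (h : i + 2 ≤ n) : (List.range n)[i]? ≠ (List.range n)[i + 1]? := by
  rw [List.getElem?_range (by omega), List.getElem?_range (by omega)]
  simp

/-- Distinct labels on the strands of the cable. -/
def gpair (m : ℕ) (s : Bool) (y : ℕ) : List (ℕ × ℕ) :=
  if s then (List.range m).map (fun j => (y, j)) else ((List.range m).map (fun j => (y, j))).reverse

theorem length_gpair (m : ℕ) (s : Bool) (y : ℕ) : (gpair m s y).length = m := by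
  cases s <;> simp [gpair]

theorem gpair_not (m : ℕ) (s : Bool) (y : ℕ) : gpair m (!s) y = (gpair m s y).reverse := by
  cases s <;> simp [gpair]

theorem nodup_gpair (m : ℕ) (s : Bool) (y : ℕ) : (gpair m s y).Nodup := by
  have h : ((List.range m).map (fun j => (y, j))).Nodup :=
    List.nodup_range.map fun i j hij => (Prod.mk.injEq _ _ _ _ ▸ hij).2
  cases s
  · exact List.nodup_reverse.2 h
  · exact h

theorem mem_gpair {m : ℕ} {s : Bool} {y : ℕ} {p : ℕ × ℕ} (h : p ∈ gpair m s y) : p.1 = y := by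
  cases s
  · simp only [gpair, Bool.false_eq_true, if_false, List.mem_reverse, List.mem_map] at h
    obtain ⟨j, _, rfl⟩ := h
    rfl
  · simp only [gpair, if_true, List.mem_map] at h
    obtain ⟨j, _, rfl⟩ := h
    rfl

theorem mem_cblk_gpair {m : ℕ} {ℓ : List ℕ} {p : ℕ × ℕ} :
    ∀ {s : Bool}, p ∈ cblk (gpair m) s ℓ → p.1 ∈ ℓ := by
  induction ℓ with
  | nil =>
    intro s h
    exact absurd h (by simp [cblk])
  | cons y ℓ ih =>
    intro s h
    rw [cblk, List.mem_append] at h
    rcases h with h | h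
    · rw [mem_gpair h]
      exact List.mem_cons_self ..
    · exact List.mem_cons_of_mem _ (ih h)

theorem nodup_cblk (m : ℕ) {ℓ : List ℕ} (hℓ : ℓ.Nodup) : ∀ s : Bool, (cblk (gpair m) s ℓ).Nodup := by
  induction ℓ with
  | nil =>
    intro s
    exact List.nodup_nil
  | cons y ℓ ih =>
    intro s
    rw [List.nodup_cons] at hℓ
    rw [cblk, List.nodup_append]
    refine ⟨nodup_gpair m s y, ih hℓ.2 _, fun p hp q hq hpq => ?_⟩
    subst hpq
    apply hℓ.1
    rw [← mem_gpair hp]
    exact mem_cblk_gpair hq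

theorem getElem?_ne_of_nodup {α : Type} {l : List α} (h : l.Nodup) {i : ℕ}
    (hi : i + 2 ≤ l.length) : l[i]? ≠ l[i + 1]? := by
  rw [List.getElem?_eq_getElem (by omega), List.getElem?_eq_getElem (by omega)]
  intro h1
  have h2 := h.getElem_inj_iff.1 (Option.some.inj h1)
  omega

/-- MAIN RESULT of the state sum part. -/
theorem tangle_top {n : ℕ} {w : Word} (hw : AAdequate n w) :
    ∃ κ : ℕ, ∀ m : ℕ, ∃ (t : ℝ → ℝ) (C : ℝ), 0 ≤ C ∧ Laurent t ∧
      (∀ (R : Type) [Ring R] [Algebra ℝ R] (D : TLData R), ∃ Z : ℕ → R,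
        D.ev m w = t D.A • (1 : R) + ∑ i ∈ range (m * n - 1), Z i * D.sh i D.n) ∧
      (∀ A : ℝ, 1 ≤ A → |t A| ≤ C * A ^ (m ^ 2 * crossings w + m * κ)) ∧
      (∀ A : ℝ, 1 ≤ A → A ^ 2 * A ^ (m ^ 2 * crossings w + m * κ) ≤
          A ^ 2 * |t A| + C * A ^ (m ^ 2 * crossings w + m * κ)) ∧
      (∀ (A : ℝ) (hA : A ≠ 0), 1 < A → Bd (m * n) (m * n) ((tl A hA).ev m w)
        ((C * A ^ (m ^ 2 * crossings w + m * κ + 2 * (m * n))) ^ 2)) := by
  -- the turned word
  have hlen : Len (rot w) n n := (uRun_rot hw.uRun).len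
  have hflen : Len (flat (rot w)) n n := len_flat hlen
  have hfl : Flat (flat (rot w)) := flat_flat _
  have hneg := rot_noNeg w
  have hadq := adq_rot hw
  have hthr := (through_rot hw).rt
  obtain ⟨L, hL1, hL2⟩ : ∃ k : ℕ, (Lab n (flat (rot w))).ncard = 2 ^ (n + k) ∧
      ∀ (R : Type) [Ring R] [Algebra ℝ R] (D : TLData R) (m : ℕ),
        D.ev m (flat (rot w)) = ((D.dl ^ m) ^ k) • (1 : R) := by
    rcases flat_strong hfl hflen.uRun with h | ⟨i, hi, _, h⟩
    · exact h
    · exfalso
      obtain ⟨K, h1, h2, _⟩ := hthr.run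
      exact range_ne hi (h ℕ K _ h1 h2)
  refine ⟨2 * L, fun m => ?_⟩
  -- its cable
  have hcl : Len (cable m (flat (rot w))) (m * n) (m * n) := len_cable m hflen
  have hcf : Flat (cable m (flat (rot w))) := flat_of_flat_cable m hfl
  have hW := noNeg_cable m hneg
  have hfc : flat (cable m (rot w)) = cable m (flat (rot w)) := flat_cable m hneg
  have hev : ∀ (R : Type) [Ring R] [Algebra ℝ R] (D : TLData R),
      D.ev 1 (flat (cable m (rot w))) = D.dl ^ (m * L) • (1 : R) := by
    intro R _ _ D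
    rw [hfc, TLData.ev_cable, one_mul, hL2 R D m, pow_mul]
  have hcount : (Lab (m * n) (flat (cable m (rot w)))).ncard = 2 ^ (m * n + m * L) := by
    rw [hfc]
    rcases flat_strong hcf hcl.uRun with ⟨k, hk1, hk2⟩ | ⟨i, hi, _, h⟩
    · have two : (2 : ℝ) ≠ 0 := two_ne_zero
      have hdl := dl_lt (D := tl 2 two) rfl
      have h := hk2 RR (tl 2 two) 1
      have h' := hev RR (tl 2 two)
      rw [hfc] at h'
      rw [h'] at h
      have hvp : vplus 0 tt = 1 := if_pos fun k hk => absurd hk (Nat.not_lt_zero k)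
      have h3 := congrArg (fun T : RR => (T (vplus 0)) tt) h
      have h4 : ∀ r : ℝ, ((r • (1 : RR)) (vplus 0)) tt = r := by
        intro r
        show r • (vplus 0) tt = r
        rw [hvp, smul_eq_mul, mul_one]
      rw [h4, h4, ← pow_mul, one_mul] at h3
      have h5 := congrArg abs h3
      rw [abs_pow, abs_pow] at h5
      have h6 : m * L = k :=
        pow_right_injective₀ (by linarith) (by linarith [hdl] : |(tl 2 two).dl| ≠ 1) h5
      rw [h6, hk1]
    · exfalso
      have h1 := rt_cable (G := gpair m) (length_gpair m) (gpair_not m) hfl hthr true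
      obtain ⟨K, h2, h3, _⟩ := h1.run
      refine getElem?_ne_of_nodup (nodup_cblk m List.nodup_range true) ?_ (h _ K _ h2 h3)
      rw [length_cblk (length_gpair m), List.length_range]
      exact hi
  have hU : URun (m * n) (m * n) (cable m (rot w)) := (len_cable m hlen).uRun
  obtain ⟨t, C₁, hC₁, hLt, ht1, ht2, ht3⟩ := top_coeff hW (k₀ := m * L) hU hcount
  obtain ⟨C₂, hC₂, hB⟩ := norm_hs hW (k₀ := m * L) hU hev
  have hcr : crossings (cable m (rot w)) = m ^ 2 * crossings w := by
    rw [crossings_cable, crossings_rot]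
  have hex : m ^ 2 * crossings w + 2 * (m * L) = m ^ 2 * crossings w + m * (2 * L) := by ring
  rw [hcr] at ht2 ht3 hB
  rw [hex] at ht2 ht3 hB
  have hevw : ∀ (R : Type) [Ring R] [Algebra ℝ R] (D : TLData R),
      D.ev 1 (cable m (rot w)) = D.ev m w := by
    intro R _ _ D
    rw [TLData.ev_cable, one_mul, ev_rot]
  have hadqc := adq_cable_gen m hlen hadq
  refine ⟨t, max C₁ C₂, hC₁.trans (le_max_left _ _), hLt, ?_, ?_, ?_, ?_⟩
  · intro R _ _ D
    obtain ⟨Z, hZ⟩ := ht1 R D
    exact ⟨Z, by rw [← hevw]; exact hZ⟩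
  · intro A hA
    refine (ht2 A hA).trans (mul_le_mul_of_nonneg_right (le_max_left _ _) ?_)
    exact pow_nonneg (by linarith) _
  · intro A hA
    refine (ht3 hadqc hev A hA).trans ?_
    have h1 : C₁ * A ^ (m ^ 2 * crossings w + m * (2 * L)) ≤
        max C₁ C₂ * A ^ (m ^ 2 * crossings w + m * (2 * L)) :=
      mul_le_mul_of_nonneg_right (le_max_left _ _) (pow_nonneg (by linarith) _)
    linarith
  · intro A hA h1
    have h2 := hB A hA h1
    rw [hevw] at h2
    refine h2.mono ?_
    have h3 : 0 ≤ A ^ (m ^ 2 * crossings w + m * (2 * L) + 2 * (m * n)) :=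
      pow_nonneg (by linarith) _
    exact pow_le_pow_left₀ (mul_nonneg hC₂ h3)
      (mul_le_mul_of_nonneg_right (le_max_right _ _) h3) 2

end Pool.Agent.HTW
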