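import Pool.Agent.HTW.TSide
import Pool.Agent.HTW.TangleTop
import Pool.Agent.HTW.Retract
import Pool.Agent.HTW.LaurentZero

/-!
# The crossing number of satellites of adequate knots: assembly
-/

namespace Pool.Agent.HTW

open Finset

/-! ### Top coefficients in the concrete model -/

section Top

variable (A : ℝ) (hA : A ≠ 0)

theorem dl_ne (A : ℝ) (hA : A ≠ 0) : (tl A hA).dl ≠ 0 := by
  unfold TLData.dl
  have h1 : (tl A hA).A = A := rfl
  rw [h1]
  have : 0 < A ^ 2 + (A⁻¹) ^ 2 := by positivity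
  intro h
  linarith

theorem shn_vplus (M i : ℕ) (hi : i + 2 ≤ M) : (tl A hA).sh i (tl A hA).n (vplus M) = 0 := by
  have h1 := sg_vplus A hA M i hi
  rw [TLData.sh_sg, LinearMap.add_apply, LinearMap.smul_apply, LinearMap.smul_apply,
    Module.End.mul_apply, Module.End.one_apply] at h1
  have hAA : (tl A hA).A = A := rfl
  rw [hAA] at h1
  have h2 : A⁻¹ • (tl A hA).sh i (tl A hA).u ((tl A hA).sh i (tl A hA).n (vplus M)) = 0 := by
    have := h1
    exact left_eq_add.1 this.symm
  have h3 : (tl A hA).sh i (tl A hA).u ((tl A hA).sh i (tl A hA).n (vplus M)) = 0 :=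
    (smul_eq_zero.1 h2).resolve_left (inv_ne_zero hA)
  have h4 := congrArg ((tl A hA).sh i (tl A hA).n) h3
  rw [map_zero, ← Module.End.mul_apply, ← map_mul, (tl A hA).nu, map_smul, map_one,
    LinearMap.smul_apply, Module.End.one_apply] at h4
  exact (smul_eq_zero.1 h4).resolve_left (dl_ne A hA)

/-- The action on the top vector. -/
theorem top_vplus {M : ℕ} {T : RR} {t : ℝ}
    (h : ∃ Z : ℕ → RR, T = t • (1 : RR) + ∑ i ∈ range (M - 1), Z i * (tl A hA).sh i (tl A hA).n) :
    T (vplus M) = t • vplus M := by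
  obtain ⟨Z, hZ⟩ := h
  rw [hZ, LinearMap.add_apply, LinearMap.smul_apply, Module.End.one_apply,
    LinearMap.sum_apply, Finset.sum_eq_zero, add_zero]
  intro i hi
  rw [Module.End.mul_apply, shn_vplus A hA M i (by have := mem_range.1 hi; omega), map_zero]

/-- The action on the top channel. -/
theorem top_Q (h1 : 1 < A) {M : ℕ} {T : RR} {t : ℝ}
    (h : ∃ Z : ℕ → RR, T = t • (1 : RR) + ∑ i ∈ range (M - 1), Z i * (tl A hA).sh i (tl A hA).n) :
    T * Q A hA M M = t • Q A hA M M := by
  obtain ⟨Z, hZ⟩ := h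
  rw [hZ, add_mul, smul_mul_assoc, one_mul, Finset.sum_mul, Finset.sum_eq_zero, add_zero]
  intro i hi
  have hi' := mem_range.1 hi
  obtain ⟨M', rfl⟩ : ∃ M', M = M' + 2 := ⟨M - 2, by omega⟩
  rw [mul_assoc, shn_Q A hA h1 M' i (by omega), mul_zero]

theorem vplus_tt (M : ℕ) : vplus M tt = 1 := by
  unfold vplus
  exact if_pos fun k _ => rfl

theorem shX1_vplus (M q k : ℕ) (h : k + q + 1 ≤ M) :
    (tl A hA).sh k ((tl A hA).X1 q) (vplus M) = A ^ q • vplus M := by
  induction q with
  | zero =>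
    show (tl A hA).sh k 1 (vplus M) = _
    rw [map_one, Module.End.one_apply, pow_zero, one_smul]
  | succ q ih =>
    show (tl A hA).sh k ((tl A hA).sh q (tl A hA).sg * (tl A hA).X1 q) (vplus M) = _
    rw [map_mul, ← TLData.sh_add, Module.End.mul_apply, ih (by omega), map_smul,
      sg_vplus A hA M (k + q) (by omega), smul_smul, pow_succ]

theorem shX_vplus (M p q k : ℕ) (h : k + p + q ≤ M) :
    (tl A hA).sh k ((tl A hA).X p q) (vplus M) = A ^ (p * q) • vplus M := by
  induction p generalizing k with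
  | zero =>
    show (tl A hA).sh k 1 (vplus M) = _
    rw [map_one, Module.End.one_apply, zero_mul, pow_zero, one_smul]
  | succ p ih =>
    show (tl A hA).sh k ((tl A hA).X1 q * (tl A hA).S ((tl A hA).X p q)) (vplus M) = _
    rw [map_mul, ← (tl A hA).sh_succR, Module.End.mul_apply, ih (k + 1) (by omega), map_smul,
      shX1_vplus A hA M q k (by omega), smul_smul]
    congr 1
    ring

theorem shmX_vplus (M p q k : ℕ) (h : k + p + q ≤ M) :
    (tl A hA).sh k ((tl A hA).mirror.X p q) (vplus M) = (A ^ (p * q))⁻¹ • vplus M := by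
  have e1 := shX_vplus A hA M q p k (by omega)
  have e2 : (tl A hA).sh k ((tl A hA).mirror.X p q)
      ((tl A hA).sh k ((tl A hA).X q p) (vplus M)) = vplus M := by
    rw [← Module.End.mul_apply, ← map_mul, (tl A hA).mirror_X_X q p, map_one,
      Module.End.one_apply]
  rw [e1, map_smul, mul_comm q p] at e2
  calc (tl A hA).sh k ((tl A hA).mirror.X p q) (vplus M)
      = (A ^ (p * q))⁻¹ • (A ^ (p * q) •
          ((tl A hA).sh k ((tl A hA).mirror.X p q) (vplus M))) := by
        rw [smul_smul, inv_mul_cancel₀ (pow_ne_zero _ hA), one_smul]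
    _ = _ := by rw [e2]

theorem ev_braid_vplus (N n : ℕ) {w : Word} (hw : IsBraid n w) :
    (tl A hA).ev N w (vplus (N * n)) = ((A ^ (N ^ 2)) ^ (expSum w)) • vplus (N * n) := by
  induction w with
  | nil =>
    show (1 : RR) (vplus (N * n)) = _
    rw [Module.End.one_apply, expSum_nil, zpow_zero, one_smul]
  | cons x w ih =>
    have hx := hw x List.mem_cons_self
    have ih' := ih (fun y hy => hw y (List.mem_cons_of_mem _ hy))
    have e : expSum (x :: w) = expSum [x] + expSum w := expSum_append [x] w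
    have hle : N * x.2 + N + N ≤ N * n := by
      have := Nat.mul_le_mul_left N hx.2
      calc N * x.2 + N + N = N * (x.2 + 2) := by ring
        _ ≤ N * n := this
    have h2 : (tl A hA).evL N x (vplus (N * n)) =
        ((A ^ (N ^ 2)) ^ (expSum [x])) • vplus (N * n) := by
      obtain ⟨k, i⟩ := x
      rcases hx.1 with h | h
      · simp only at h
        subst h
        have e1 : expSum [(Kind.pos, i)] = 1 := rfl
        show (tl A hA).sh (N * i) ((tl A hA).X N N) (vplus (N * n)) = _
        rw [shX_vplus A hA _ N N (N * i) hle, e1, zpow_one, sq]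
      · simp only at h
        subst h
        have e1 : expSum [(Kind.neg, i)] = -1 := rfl
        show (tl A hA).sh (N * i) ((tl A hA).mirror.X N N) (vplus (N * n)) = _
        rw [shmX_vplus A hA _ N N (N * i) hle, e1, zpow_neg_one, sq]
    rw [(tl A hA).ev_cons, Module.End.mul_apply, h2, map_smul, ih', smul_smul, e,
      zpow_add₀ (pow_ne_zero _ hA)]

end Top

/-! ### Domination -/

theorem half_le {A C t : ℝ} {E : ℕ} (h1 : 1 ≤ A) (hC : 2 * C ≤ A ^ 2)
    (h : A ^ 2 * A ^ E ≤ A ^ 2 * |t| + C * A ^ E) : (1 / 2) * A ^ E ≤ |t| := by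
  have hA2 : 0 < A ^ 2 := by positivity
  have h3 : C * A ^ E ≤ A ^ 2 * ((1 / 2) * A ^ E) := by
    have : 0 < A ^ E := by positivity
    nlinarith
  have h4 : A ^ 2 * ((1 / 2) * A ^ E) ≤ A ^ 2 * |t| := by
    have : A ^ 2 * A ^ E = A ^ 2 * ((1 / 2) * A ^ E) + A ^ 2 * ((1 / 2) * A ^ E) := by ring
    linarith
  exact le_of_mul_le_mul_left h4 hA2

theorem dom_of_adequate {D : Word} (hD : IsKnot D) (hDA : AAdequate 1 D) :
    ∃ κ, Dom D (crossings D) κ := by
  obtain ⟨κ, hκ⟩ := tangle_top hDA
  refine ⟨κ, ?_⟩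
  choose t C hC _ hev hup hlow _ using hκ
  intro M
  refine ⟨∑ j ∈ range (M + 1), C j, max 2 (2 * C M), Finset.sum_nonneg fun j _ => hC j,
    lt_of_lt_of_le one_lt_two (le_max_left _ _), ?_⟩
  intro A hA hAA
  have h2 : 2 ≤ A := (le_max_left _ _).trans hAA
  have h1 : 1 < A := by linarith
  have hCM : 2 * C M ≤ A ^ 2 := by
    have : 2 * C M ≤ A := (le_max_right _ _).trans hAA
    nlinarith
  have htop : ∀ j, (tl A hA).ev j D * Q A hA j j = t j A • Q A hA j j := by
    intro j
    have h3 := hev j RR (tl A hA)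
    rw [mul_one] at h3
    exact top_Q A hA h1 h3
  have hjj : jj A hA M D = t M A := by
    have h3 := hev M RR (tl A hA)
    rw [mul_one] at h3
    unfold jj
    rw [top_vplus A hA h3, Pi.smul_apply, vplus_tt, smul_eq_mul, mul_one]
    rfl
  refine ⟨?_, ?_⟩
  · rw [hjj]
    exact half_le h1.le hCM (hlow M A h1.le)
  · intro j hj
    rw [ev_Q A hA h1 hD hj (htop j)]
    have h3 := (bd_Q A hA h1 M j M 0 hj (by omega)).smul (t j A)
    rw [(tl A hA).sh_zero, mul_one] at h3
    refine h3.mono ?_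
    rw [← sq_abs]
    refine pow_le_pow_left₀ (abs_nonneg _) ?_ 2
    refine (hup j A h1.le).trans ?_
    have hjM : j ≤ M := (mem_chans.1 hj).1
    refine mul_le_mul ?_ ?_ (by positivity) (Finset.sum_nonneg fun j _ => hC j)
    · exact Finset.single_le_sum (f := C) (fun j _ => hC j) (mem_range.2 (by omega))
    · exact pow_le_pow_right₀ h1.le (by
        have := Nat.mul_le_mul_right κ hjM
        omega)

/-- The data of the top channel of an adequate tangle. -/
structure TopData (n : ℕ) (P : Word) (κ : ℕ) (t : ℕ → ℝ → ℝ) (C : ℕ → ℝ) : Prop where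
  hC : ∀ m, 0 ≤ C m
  laurent : ∀ m, Laurent (t m)
  ev : ∀ (m : ℕ) (R : Type) [Ring R] [Algebra ℝ R] (D : TLData R), ∃ Z : ℕ → R,
    D.ev m P = t m D.A • (1 : R) + ∑ i ∈ range (m * n - 1), Z i * D.sh i D.n
  up : ∀ (m : ℕ) (A : ℝ), 1 ≤ A → |t m A| ≤ C m * A ^ (m ^ 2 * crossings P + m * κ)
  low : ∀ (m : ℕ) (A : ℝ), 1 ≤ A → A ^ 2 * A ^ (m ^ 2 * crossings P + m * κ) ≤
    A ^ 2 * |t m A| + C m * A ^ (m ^ 2 * crossings P + m * κ)
  bd : ∀ (m : ℕ) (A : ℝ) (hA : A ≠ 0), 1 < A → Bd (m * n) (m * n) ((tl A hA).ev m P)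
    ((C m * A ^ (m ^ 2 * crossings P + m * κ + 2 * (m * n))) ^ 2)

theorem topData_of_adequate {n : ℕ} {P : Word} (hP : AAdequate n P) :
    ∃ (κ : ℕ) (t : ℕ → ℝ → ℝ) (C : ℕ → ℝ), TopData n P κ t C := by
  obtain ⟨κ, hκ⟩ := tangle_top hP
  choose t C hC hl hev hup hlow hbd using hκ
  exact ⟨κ, t, C, hC, hl, hev, hup, hlow, hbd⟩

theorem TopData.domT {n : ℕ} {P : Word} {κ : ℕ} {t : ℕ → ℝ → ℝ} {C : ℕ → ℝ}
    (h : TopData n P κ t C) : DomT n P (crossings P) κ := by
  intro N
  refine ⟨C N, max 2 (2 * C N), h.hC N, lt_of_lt_of_le one_lt_two (le_max_left _ _), ?_⟩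
  intro A hA hAA
  have h2 : 2 ≤ A := (le_max_left _ _).trans hAA
  have h1 : 1 < A := by linarith
  have hCM : 2 * C N ≤ A ^ 2 := by
    have : 2 * C N ≤ A := (le_max_right _ _).trans hAA
    nlinarith
  exact ⟨t N A, top_Q A hA h1 (h.ev N RR (tl A hA)), half_le h1.le hCM (h.low N A h1.le),
    h.up N A h1.le, h.bd N A hA h1⟩

/-! ### The two sides of a pattern -/

theorem tiso_ev {R : Type} [Ring R] [Algebra ℝ R] (D : TLData R) (m : ℕ) {n : ℕ} {w w' : Word}
    (h : TIso n w w') : D.ev m w = D.ev m w' := by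
  induction h with
  | rel w w' h =>
    obtain ⟨_, _, a, b, l, r, hm, rfl, rfl⟩ := h
    rw [D.ev_append, D.ev_append, D.ev_append, D.ev_append, ev_fmove D m hm]
  | refl w => rfl
  | symm w w' _ ih => exact ih.symm
  | trans w w' w'' _ _ ih ih' => exact ih.trans ih'

theorem mirror_mirror_word (w : Word) : mirror (mirror w) = w := by
  unfold mirror
  rw [List.map_map]
  conv_rhs => rw [← List.map_id w]
  refine List.map_congr_left fun x _ => ?_
  obtain ⟨k, i⟩ := x
  cases k <;> rfl

theorem mirror_twists_pos (n m : ℕ) : mirror (twists .pos n m) = twists .neg n m := by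
  induction m with
  | zero => rfl
  | succ m ih =>
    have h : ∀ k, twists k n (m + 1) = twistWord k n ++ twists k n m := by
      intro k
      simp [twists, List.replicate_succ]
    rw [h, h, TLData.mirror_append, TLData.mirror_twistWord, ih]

theorem mirror_twists_neg (n m : ℕ) : mirror (twists .neg n m) = twists .pos n m := by
  rw [← mirror_twists_pos, mirror_mirror_word]

theorem pattern_rel {n : ℕ} {T P Q' : Word} {m m' : ℕ}
    (hT1 : TIso n T (P ++ twists .neg n m)) (hT2 : TIso n T (mirror Q' ++ twists .pos n m'))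
    {κ κ' : ℕ} {t t' : ℕ → ℝ → ℝ} {C C' : ℕ → ℝ} (hP : TopData n P κ t C)
    (hQ : TopData n Q' κ' t' C') (N : ℕ) (A : ℝ) (hA : A ≠ 0) :
    (A ^ (N ^ 2)) ^ ((m * (n * (n - 1)) : ℤ)) * t N A⁻¹ =
      (A ^ (N ^ 2)) ^ (-(m' * (n * (n - 1)) : ℤ)) * t' N A := by
  have hbn : ∀ k, IsBraid n (twists .neg n k) := isBraid_twists _ (Or.inr rfl) n
  have hbp : ∀ k, IsBraid n (twists .pos n k) := isBraid_twists _ (Or.inl rfl) n
  -- the first form
  have e1 : (tl A hA).mirror.ev N T (vplus (N * n)) =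
      ((A ^ (N ^ 2)) ^ ((m * (n * (n - 1)) : ℤ)) * t N A⁻¹) • vplus (N * n) := by
    rw [tiso_ev _ N hT1, TLData.ev_append, Module.End.mul_apply]
    have h1 := hP.ev N RR (tl A hA).mirror
    obtain ⟨Z, hZ⟩ := h1
    have h2 : (tl A hA).mirror.ev N P (vplus (N * n)) = t N A⁻¹ • vplus (N * n) := by
      refine top_vplus A hA ⟨Z, ?_⟩
      rw [hZ]
      simp only [TLData.mirror_sh]
      rfl
    rw [h2, map_smul, ← (tl A hA).ev_mirror, mirror_twists_neg,
      ev_braid_vplus A hA N n (hbp m), smul_smul, mul_comm (t N A⁻¹)]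
    have h3 : expSum (twists .pos n m) = (m * (n * (n - 1)) : ℤ) := by
      have h4 := expSum_mirror (twists .pos n m)
      rw [mirror_twists_pos, expSum_twists_neg] at h4
      linarith
    rw [h3]
  -- the second form
  have e2 : (tl A hA).mirror.ev N T (vplus (N * n)) =
      ((A ^ (N ^ 2)) ^ (-(m' * (n * (n - 1)) : ℤ)) * t' N A) • vplus (N * n) := by
    rw [tiso_ev _ N hT2, ← (tl A hA).ev_mirror, TLData.mirror_append, mirror_mirror_word,
      mirror_twists_pos, TLData.ev_append, Module.End.mul_apply,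
      top_vplus A hA (hQ.ev N RR (tl A hA)), map_smul, ev_braid_vplus A hA N n (hbn m'),
      smul_smul, expSum_twists_neg, mul_comm (t' N _)]
    rfl
  have e3 := congrFun (e1.symm.trans e2) tt
  rw [Pi.smul_apply, Pi.smul_apply, vplus_tt, smul_eq_mul, smul_eq_mul, mul_one, mul_one] at e3
  exact e3

/-- The exponents of the two sides of the pattern. -/
theorem pattern_le {n : ℕ} {T P Q' : Word} {m m' : ℕ}
    (hT1 : TIso n T (P ++ twists .neg n m)) (hT2 : TIso n T (mirror Q' ++ twists .pos n m'))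
    {κ κ' : ℕ} {t t' : ℕ → ℝ → ℝ} {C C' : ℕ → ℝ} (hP : TopData n P κ t C)
    (hQ : TopData n Q' κ' t' C') :
    0 ≤ ((crossings P : ℤ) - m * (n * (n - 1))) + ((crossings Q' : ℤ) - m' * (n * (n - 1))) := by
  by_contra hcon
  rw [not_le] at hcon
  set N : ℕ := κ + κ' + 1 with hN
  set X : ℤ := ((N ^ 2 * crossings P + N * κ : ℕ) : ℤ) with hX
  set Y : ℤ := (N : ℤ) ^ 2 * (m * (n * (n - 1)) + m' * (n * (n - 1)) - crossings Q') -
    N * κ' with hY
  have hXY : X < Y := by
    have h1 : (1 : ℤ) ≤ m * (n * (n - 1)) + m' * (n * (n - 1)) - crossings Q' - crossings P := by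
      linarith
    have h2 : Y - X = (N : ℤ) ^ 2 * (m * (n * (n - 1)) + m' * (n * (n - 1)) -
        crossings Q' - crossings P) - N * (κ + κ') := by
      rw [hX, hY]
      push_cast
      ring
    have h3 : (N : ℤ) = κ + κ' + 1 := by
      rw [hN]
      push_cast
      ring
    have h4 : (N : ℤ) ^ 2 * 1 ≤ (N : ℤ) ^ 2 * (m * (n * (n - 1)) + m' * (n * (n - 1)) -
        crossings Q' - crossings P) := mul_le_mul_of_nonneg_left h1 (by positivity)
    have h5 : (N : ℤ) ^ 2 - N * (κ + κ') = N := by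
      rw [h3]
      ring
    have h6 : (0 : ℤ) < N := by
      rw [h3]
      positivity
    linarith
  have h0 : ∀ A : ℝ, 0 < A → t N A = 0 := by
    refine laurent_zero (hP.laurent N) (C := max (C N) (C' N)) hXY ?_ ?_
    · intro A hA
      refine (hP.up N A hA).trans ?_
      rw [hX, zpow_natCast]
      exact mul_le_mul_of_nonneg_right (le_max_left _ _) (by positivity)
    · intro B hB hB1
      have hB0 : B ≠ 0 := hB.ne'
      have hA1 : 1 ≤ B⁻¹ := (one_le_inv₀ hB).2 hB1
      have h1 := pattern_rel hT1 hT2 hP hQ N B⁻¹ (inv_ne_zero hB0)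
      rw [inv_inv] at h1
      have h2 := hQ.up N B⁻¹ hA1
      have hx : (B⁻¹ ^ (N ^ 2)) ^ ((m * (n * (n - 1)) : ℤ)) =
          B ^ (-((N : ℤ) ^ 2 * (m * (n * (n - 1)) : ℤ))) := by
        rw [← zpow_natCast B⁻¹ (N ^ 2), ← zpow_mul, inv_zpow, ← zpow_neg]
        push_cast
        rfl
      have hy : (B⁻¹ ^ (N ^ 2)) ^ (-(m' * (n * (n - 1)) : ℤ)) =
          B ^ ((N : ℤ) ^ 2 * (m' * (n * (n - 1)) : ℤ)) := by
        rw [← zpow_natCast B⁻¹ (N ^ 2), ← zpow_mul, inv_zpow, ← zpow_neg]
        congr 1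
        push_cast
        ring
      have hz : B⁻¹ ^ (N ^ 2 * crossings Q' + N * κ') =
          B ^ (-((N ^ 2 * crossings Q' + N * κ' : ℕ) : ℤ)) := by
        rw [zpow_neg, zpow_natCast, inv_pow]
      rw [hx, hy] at h1
      rw [hz] at h2
      have h3 : t N B = B ^ ((N : ℤ) ^ 2 * (m * (n * (n - 1)) : ℤ)) *
          (B ^ ((N : ℤ) ^ 2 * (m' * (n * (n - 1)) : ℤ)) * t' N B⁻¹) := by
        rw [← h1, ← mul_assoc, ← zpow_add₀ hB0]
        simp
      rw [h3, abs_mul, abs_mul, abs_of_pos (zpow_pos hB _), abs_of_pos (zpow_pos hB _)]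
      calc B ^ ((N : ℤ) ^ 2 * (m * (n * (n - 1)) : ℤ)) *
            (B ^ ((N : ℤ) ^ 2 * (m' * (n * (n - 1)) : ℤ)) * |t' N B⁻¹|)
          ≤ B ^ ((N : ℤ) ^ 2 * (m * (n * (n - 1)) : ℤ)) *
            (B ^ ((N : ℤ) ^ 2 * (m' * (n * (n - 1)) : ℤ)) *
              (max (C N) (C' N) * B ^ (-((N ^ 2 * crossings Q' + N * κ' : ℕ) : ℤ)))) := by
            refine mul_le_mul_of_nonneg_left ?_ (zpow_nonneg hB.le _)
            refine mul_le_mul_of_nonneg_left ?_ (zpow_nonneg hB.le _)
            exact h2.trans (mul_le_mul_of_nonneg_right (le_max_right _ _)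
              (zpow_nonneg hB.le _))
        _ = max (C N) (C' N) * B ^ Y := by
            have e : Y = (N : ℤ) ^ 2 * (m * (n * (n - 1)) : ℤ) +
                ((N : ℤ) ^ 2 * (m' * (n * (n - 1)) : ℤ) +
                  -((N ^ 2 * crossings Q' + N * κ' : ℕ) : ℤ)) := by
              rw [hY]
              push_cast
              ring
            rw [e, zpow_add₀ hB0, zpow_add₀ hB0]
            ring
  -- contradiction
  obtain ⟨A₀, h1, h2⟩ : ∃ A : ℝ, 1 ≤ A ∧ 2 * C N ≤ A ^ 2 := by
    refine ⟨max 1 (2 * C N), le_max_left _ _, ?_⟩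
    have h3 : 1 ≤ max 1 (2 * C N) := le_max_left _ _
    have h4 : 2 * C N ≤ max 1 (2 * C N) := le_max_right _ _
    nlinarith
  have h3 := half_le h1 h2 (hP.low N A₀ h1)
  rw [h0 A₀ (by linarith), abs_zero] at h3
  have h4 : 0 < (1 / 2) * A₀ ^ (N ^ 2 * crossings P + N * κ) := by positivity
  linarith

/-! ### The satellite word -/

theorem jj_sat (A : ℝ) (hA : A ≠ 0) (N n : ℕ) (D T : Word) :
    jj A hA N (sat D n T) = satv A hA N n D T := by
  unfold jj satv sat
  rw [TLData.ev_append, TLData.ev_append, TLData.ev_append, TLData.ev_cups, TLData.ev_caps,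
    TLData.ev_cable, mul_one]
  simp only [mul_assoc]

theorem mirror_cableLetter (n : ℕ) (x : Letter) :
    mirror (cableLetter n x) = cableLetter n (x.1.mirror, x.2) := by
  obtain ⟨k, i⟩ := x
  cases k with
  | cup =>
    show mirror ((List.range n).map (fun j => (Kind.cup, n * i + j))) =
      (List.range n).map (fun j => (Kind.cup, n * i + j))
    unfold mirror
    rw [List.map_map]
    rfl
  | cap =>
    show mirror ((List.range n).reverse.map (fun j => (Kind.cap, n * i + j))) =
      (List.range n).reverse.map (fun j => (Kind.cap, n * i + j))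
    unfold mirror
    rw [List.map_map]
    rfl
  | pos =>
    show mirror (shiftWord (n * i) (blockWord .pos n n)) = shiftWord (n * i) (blockWord .neg n n)
    rw [TLData.mirror_shiftWord, TLData.mirror_blockWord]
  | neg =>
    show mirror (shiftWord (n * i) (blockWord .neg n n)) = shiftWord (n * i) (blockWord .pos n n)
    rw [← TLData.mirror_blockWord, ← TLData.mirror_shiftWord, mirror_mirror_word]

theorem mirror_cable (n : ℕ) (w : Word) : mirror (cable n w) = cable n (mirror w) := by
  induction w with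
  | nil => rfl
  | cons x w ih =>
    show mirror (cableLetter n x ++ cable n w) =
      cableLetter n (x.1.mirror, x.2) ++ cable n (mirror w)
    rw [TLData.mirror_append, ih, mirror_cableLetter]

theorem mirror_sat (D : Word) (n : ℕ) (T : Word) :
    mirror (sat D n T) = sat (mirror D) n (mirror T) := by
  unfold sat
  rw [TLData.mirror_append, TLData.mirror_append, TLData.mirror_append, mirror_cable]
  congr 1
  · congr 1
    congr 1
    unfold mirror
    rw [List.map_map]
    rfl
  · unfold mirror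
    rw [List.map_map]
    rfl

theorem jm_sat (A : ℝ) (hA : A ≠ 0) (N n : ℕ) (D T : Word) :
    jm A hA N (sat D n T) = satv A hA N n (mirror D) (mirror T) := by
  rw [← jj_sat, ← mirror_sat]
  unfold jm jj
  rw [TLData.ev_mirror]

theorem satv_congr (A : ℝ) (hA : A ≠ 0) (N n : ℕ) (D : Word) {T T' : Word}
    (h : (tl A hA).ev N T = (tl A hA).ev N T') :
    satv A hA N n D T = satv A hA N n D T' := by
  unfold satv
  rw [h]

/-! ### Knots -/

theorem isotopic_isKnot {w w' : Word} (h : Isotopic w w') : IsKnot w ↔ IsKnot w' := by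
  induction h with
  | rel w w' h =>
    rcases h with h | h
    · exact ⟨fun _ => h.2.1, fun _ => h.1⟩
    · exact ⟨fun _ => h.2.1, fun _ => h.1⟩
  | refl w => rfl
  | symm w w' _ ih => exact ih.symm
  | trans w w' w'' _ _ ih ih' => exact ih.trans ih'

theorem step_mirror {α : Type} {x : Letter} {ℓ ℓ' : List α} (h : Step x ℓ ℓ') :
    Step (x.1.mirror, x.2) ℓ ℓ' := by
  cases h with
  | cup u v y => exact Step.cup u v y
  | cap u v y => exact Step.cap u v y
  | pos u v x y => exact Step.neg u v x y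
  | neg u v x y => exact Step.pos u v x y

theorem run_mirror {α : Type} {w : Word} {K : List (List α)} (h : Run w K) :
    Run (mirror w) K := by
  induction h with
  | nil ℓ => exact Run.nil ℓ
  | cons hs _ ih => exact Run.cons (step_mirror hs) ih

theorem isKnot_mirror {w : Word} (h : IsKnot w) : IsKnot (mirror w) := by
  obtain ⟨⟨L, h1, h2⟩, h3⟩ := h
  refine ⟨⟨L, run_mirror h1, h2⟩, ?_⟩
  intro α x K hK
  have := run_mirror hK
  rw [mirror_mirror_word] at this
  exact h3 α x K this

theorem crossings_mirror (w : Word) : crossings (mirror w) = crossings w := by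
  unfold crossings mirror
  rw [List.countP_map]
  refine List.countP_congr fun x _ => ?_
  obtain ⟨k, i⟩ := x
  cases k <;> simp [Kind.mirror]

theorem crossingNumber_le {w w' : Word} (h : Isotopic w w') : crossingNumber w ≤ crossings w' :=
  Nat.sInf_le ⟨w', h, rfl⟩

theorem crossingNumber_spec (w : Word) :
    ∃ w' : Word, Isotopic w w' ∧ crossings w' = crossingNumber w :=
  Nat.sInf_mem (s := {k | ∃ w' : Word, Isotopic w w' ∧ crossings w' = k})
    ⟨crossings w, w, Relation.EqvGen.refl w, rfl⟩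

/-! ### The theorem -/

/-- The lower bound for the number of crossings of every diagram of the satellite. -/
theorem main_le {D : Word} (hD : IsKnot D) (hDA : AAdequate 1 D) (hDB : AAdequate 1 (mirror D))
    {n : ℕ} (hn : 1 ≤ n) {T P Q' : Word} {m m' : ℕ}
    (hT1 : TIso n T (P ++ twists .neg n m)) (hT2 : TIso n T (mirror Q' ++ twists .pos n m'))
    (hP : AAdequate n P) (hQ : AAdequate n Q') (hm : m < crossings D) (hm' : m' < crossings D)
    (hK : IsKnot (sat D n T)) {D' : Word} (hD' : Isotopic (sat D n T) D') :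
    2 * (n ^ 2 * crossings D) + (crossings P + crossings Q' - (m + m') * (n * (n - 1))) ≤
      2 * crossings D' := by
  obtain ⟨κA, hdA⟩ := dom_of_adequate hD hDA
  obtain ⟨κB, hdB⟩ := dom_of_adequate (isKnot_mirror hD) hDB
  rw [crossings_mirror] at hdB
  obtain ⟨κP, t, C, hPt⟩ := topData_of_adequate hP
  obtain ⟨κQ, t', C', hQt⟩ := topData_of_adequate hQ
  have hD'k : IsKnot D' := (isotopic_isKnot hD').1 hK
  obtain ⟨f, hf⟩ := isotopic_jj hD'
  have hA := side hdA hD.1 hn hPt.domT hP.uRun hm f (crossings D') (extrema D') (by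
    intro A hA h1 N
    have e1 : satv A hA N n D (P ++ twists .neg n m) = jj A hA N (sat D n T) := by
      rw [jj_sat]
      exact (satv_congr A hA N n D (tiso_ev _ N hT1)).symm
    rw [e1, ← (hf A hA N).1]
    exact jj_sq_le A hA h1 N hD'k.1)
  have hB := side hdB (isKnot_mirror hD).1 hn hQt.domT hQ.uRun hm' (-f) (crossings D')
    (extrema D') (by
    intro A hA h1 N
    have e1 : satv A hA N n (mirror D) (Q' ++ twists .neg n m') = jm A hA N (sat D n T) := by
      rw [jm_sat]
      refine (satv_congr A hA N n (mirror D) ?_).symm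
      rw [TLData.ev_mirror, tiso_ev _ N hT2, ← TLData.ev_mirror, TLData.mirror_append,
        mirror_mirror_word, mirror_twists_pos]
    rw [e1, ← (hf A hA N).2]
    exact jm_sq_le A hA h1 N hD'k.1)
  have hPQ := pattern_le hT1 hT2 hPt hQt
  obtain ⟨n', rfl⟩ : ∃ n', n = n' + 1 := ⟨n - 1, by omega⟩
  rw [Nat.add_sub_cancel]
  push_cast at hA hB hPQ
  have h1 : (m + m') * ((n' + 1) * n') ≤ crossings P + crossings Q' := by
    zify
    linarith
  zify [h1]
  linarith

/-- The crossing number of a satellite of an adequate knot. -/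
theorem main {D : Word} (hD : IsKnot D) (hDA : AAdequate 1 D) (hDB : AAdequate 1 (mirror D))
    {n : ℕ} (hn : 1 ≤ n) {T P Q' : Word} {m m' : ℕ}
    (hT1 : TIso n T (P ++ twists .neg n m)) (hT2 : TIso n T (mirror Q' ++ twists .pos n m'))
    (hP : AAdequate n P) (hQ : AAdequate n Q') (hm : m < crossings D) (hm' : m' < crossings D)
    (hK : IsKnot (sat D n T)) :
    2 * (n ^ 2 * crossingNumber D) +
        (crossings P + crossings Q' - (m + m') * (n * (n - 1))) ≤
      2 * crossingNumber (sat D n T) := by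
  obtain ⟨D', h1, h2⟩ := crossingNumber_spec (sat D n T)
  rw [← h2]
  have h3 := main_le hD hDA hDB hn hT1 hT2 hP hQ hm hm' hK h1
  have h4 : n ^ 2 * crossingNumber D ≤ n ^ 2 * crossings D :=
    Nat.mul_le_mul_left _ (crossingNumber_le (Relation.EqvGen.refl D))
  omega

/-- The number of crossings of an adequate diagram is the crossing number. -/
theorem crossingNumber_adequate {D : Word} (hD : IsKnot D) (hDA : AAdequate 1 D)
    (hDB : AAdequate 1 (mirror D)) (hc : 0 < crossings D) : crossingNumber D = crossings D := by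
  refine le_antisymm (crossingNumber_le (Relation.EqvGen.refl D)) ?_
  obtain ⟨D', h1, h2⟩ := crossingNumber_spec D
  rw [← h2]
  have e1 : sat D 1 [] = cable 1 D := by
    unfold sat
    simp
  have e2 : cable 1 D = D := by
    unfold cable
    conv_rhs => rw [← List.flatMap_singleton' D]
    congr 1
    funext x
    obtain ⟨k, i⟩ := x
    cases k <;> simp [cableLetter, blockWord, shiftWord]
  have hnil : AAdequate 1 [] := ⟨ARun.nil _, fun a b x h => by simp at h⟩
  have e3 : ∀ k, twists k 1 0 = [] := fun k => rfl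
  have h3 := main_le (n := 1) (T := []) (P := []) (Q' := []) (m := 0) (m' := 0) hD hDA hDB le_rfl
    (by rw [e3]; exact Relation.EqvGen.refl _) (by rw [e3]; exact Relation.EqvGen.refl _)
    hnil hnil hc hc (by rw [e1, e2]; exact hD) (D' := D') (by rw [e1, e2]; exact h1)
  omega

end Pool.Agent.HTW
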