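import Pool.Agent.HTW.KDefs
import Pool.Agent.HTW.Final

/-!
# Patterns up to isotopy with kinks
-/

namespace Pool.Agent.HTW

open Finset

/-! ### Labellings of the pattern -/

theorem step_ext {α : Type} {x : Letter} {ℓ ℓ' : List α} (h : Step x ℓ ℓ') (v : List α) :
    Step x (ℓ ++ v) (ℓ' ++ v) := by
  cases h with
  | cup u v' y => simpa using Step.cup u (v' ++ v) y
  | cap u v' y => simpa using Step.cap u (v' ++ v) y
  | pos u v' x y => simpa using Step.pos u (v' ++ v) x y
  | neg u v' x y => simpa using Step.neg u (v' ++ v) x y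

theorem run_ext {α : Type} {w : Word} {K : List (List α)} (h : Run w K) (v : List α) :
    Run w (K.map (fun ℓ => ℓ ++ v)) := by
  induction h with
  | nil ℓ => exact Run.nil _
  | cons hs _ ih => exact Run.cons (step_ext hs v) ih

theorem step_uncup {α : Type} {i : ℕ} {ℓ ℓ' : List α} (h : Step (Kind.cup, i) ℓ ℓ') :
    ℓ'.length = ℓ.length + 2 := by
  have := step_length h
  simpa [Kind.inn, Kind.out] using this

/-- The number of strands after `k` cups. -/
theorem cups_length {α : Type} (k i : ℕ) {M : List (List α)} {ℓ₀ ℓ₁ : List α}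
    (h : Run ((List.range k).map (fun j => (Kind.cup, i + j))) M) (h0 : M.head? = some ℓ₀)
    (h1 : M.getLast? = some ℓ₁) : ℓ₁.length = ℓ₀.length + 2 * k := by
  have h2 := h.len h0 h1
  have key : ∀ (k i a b : ℕ), Len ((List.range k).map (fun j => (Kind.cup, i + j))) a b →
      b = a + 2 * k := by
    intro k
    induction k with
    | zero =>
      intro i a b h
      cases h
      rfl
    | succ k ih =>
      intro i a b h
      rw [List.range_succ_eq_map, List.map_cons, List.map_map] at h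
      have e : (fun j => (Kind.cup, i + j)) ∘ Nat.succ =
          fun j => (Kind.cup, (i + 1) + j) := by
        funext j
        simp only [Function.comp, Nat.succ_eq_add_one, Prod.mk.injEq, true_and]
        omega
      rw [e] at h
      cases h with
      | cup _ h' =>
        have := ih _ _ _ h'
        omega
  exact key k i _ _ h2

/-- A labelling of the pattern tangle with constant ends is constant, if the satellite is a
knot. -/
theorem sat_label {D T : Word} {n : ℕ} (hn : 1 ≤ n) (hK : IsKnot (sat D n T)) {α : Type}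
    {x : α} {K : List (List α)} (hT : Run T K) (h1 : K.head? = some (List.replicate n x))
    (h2 : K.getLast? = some (List.replicate n x)) : ∀ ℓ ∈ K, ∀ y ∈ ℓ, y = x := by
  obtain ⟨L, hL, _⟩ := hK.1
  have esat : sat D n T = (List.range (n - 1)).map (fun j => (Kind.cup, 1 + j)) ++
      (T ++ (cable n D ++ (List.range (n - 1)).reverse.map (fun j => (Kind.cap, 1 + j)))) := by
    unfold sat
    simp only [List.append_assoc]
  set C := (List.range (n - 1)).map (fun j => (Kind.cup, 1 + j)) with hC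
  set E := cable n D ++ (List.range (n - 1)).reverse.map (fun j => (Kind.cap, 1 + j)) with hE
  rw [esat] at hL
  obtain ⟨L₁, ℓ₁, L₂, e1, _, r1, r2⟩ := run_append hL
  obtain ⟨M₁, ℓ₂, M₂, e2, _, r3, r4⟩ := run_append r2
  -- the constant labellings outside
  have c1 := Ret.run_map (fun _ : Unit => x) r1
  have c4 := Ret.run_map (fun _ : Unit => x) r4
  rw [List.map_append, List.map_cons, List.map_nil] at c1
  rw [List.map_cons] at c4
  have hlen1 : ℓ₁.length = 2 * n - 1 := by
    have h3 : (L₁ ++ [ℓ₁]).head? = some [()] := by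
      cases L₁ with
      | nil =>
        simp only [List.nil_append, List.cons.injEq] at e1
        simp [← e1.1]
      | cons y L₁ =>
        simp only [List.cons_append, List.cons.injEq] at e1
        simp [← e1.1]
    have h4 := cups_length (ℓ₁ := ℓ₁) (n - 1) 1 r1 h3 (by simp)
    simp only [List.length_singleton] at h4
    omega
  have hrep : ∀ (ℓ : List Unit), ℓ.map (fun _ : Unit => x) = List.replicate ℓ.length x := by
    intro ℓ
    exact List.map_const' ..
  -- the labelling of the pattern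
  have c2 := run_ext hT (List.replicate (n - 1) x)
  have hn2 : List.replicate n x ++ List.replicate (n - 1) x = List.replicate (2 * n - 1) x := by
    rw [List.replicate_append_replicate]
    congr 1
    omega
  have hhead : (K.map (fun ℓ => ℓ ++ List.replicate (n - 1) x)).head? =
      some (List.replicate (2 * n - 1) x) := by
    rw [List.head?_map, h1, Option.map_some, hn2]
  have hlast : (K.map (fun ℓ => ℓ ++ List.replicate (n - 1) x)).getLast? =
      some (List.replicate (2 * n - 1) x) := by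
    rw [List.getLast?_map, h2, Option.map_some, hn2]
  set K' := K.map (fun ℓ => ℓ ++ List.replicate (n - 1) x) with hK'
  obtain ⟨K₀, hK₀⟩ := getLast?_split hlast
  have hlen2 : ℓ₂.length = 2 * n - 1 := by
    obtain ⟨K₁, hK₁⟩ : ∃ K₁, K' = List.replicate (2 * n - 1) x :: K₁ := by
      cases hk : K' with
      | nil =>
        rw [hk] at hhead
        simp at hhead
      | cons y K₁ =>
        rw [hk] at hhead
        simp only [List.head?_cons, Option.some.injEq] at hhead
        exact ⟨K₁, by rw [hhead]⟩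
    obtain ⟨N₁, hN₁⟩ : ∃ N₁, M₁ ++ [ℓ₂] = ℓ₁ :: N₁ := by
      cases M₁ with
      | nil =>
        simp only [List.nil_append, List.cons.injEq] at e2
        exact ⟨[], by rw [List.nil_append, ← e2.1]⟩
      | cons y M₁ =>
        simp only [List.cons_append, List.cons.injEq] at e2
        exact ⟨M₁ ++ [ℓ₂], by rw [List.cons_append, ← e2.1]⟩
    have r3' := r3
    rw [hN₁] at r3'
    rw [hK₁] at c2
    have h5 := run_length r3' c2 (by rw [hlen1, List.length_replicate])
    have h6 := congrArg List.getLast? h5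
    rw [← hN₁, ← hK₁, List.getLast?_map, List.getLast?_map, hlast] at h6
    simpa using h6
  -- join
  rw [hK₀] at c2
  rw [hrep ℓ₂, hlen2] at c4
  have j1 := run_join c2 c4
  obtain ⟨J, hJ⟩ : ∃ J, K₀ ++ List.replicate (2 * n - 1) x ::
      M₂.map (List.map (fun _ : Unit => x)) = List.replicate (2 * n - 1) x :: J := by
    cases hk : K₀ with
    | nil => exact ⟨_, rfl⟩
    | cons y K₁ =>
      rw [hK₀, hk, List.cons_append, List.head?_cons, Option.some.injEq] at hhead
      exact ⟨_, by rw [List.cons_append, hhead]⟩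
  have j1' := j1
  rw [hJ] at j1'
  rw [hrep ℓ₁, hlen1] at c1
  have j2 := run_join c1 j1'
  rw [← esat] at j2
  obtain ⟨J', hJ'⟩ : ∃ J', L₁.map (List.map (fun _ : Unit => x)) ++
      List.replicate (2 * n - 1) x :: J = [x] :: J' := by
    cases L₁ with
    | nil =>
      simp only [List.nil_append, List.cons.injEq] at e1
      rw [← e1.1, List.length_singleton] at hlen1
      refine ⟨J, ?_⟩
      rw [← hlen1]
      rfl
    | cons y L₁ =>
      simp only [List.cons_append, List.cons.injEq] at e1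
      exact ⟨_, by rw [List.map_cons, List.cons_append, ← e1.1]; rfl⟩
  rw [hJ'] at j2
  have hk := hK.2 α x J' j2
  intro ℓ hℓ y hy
  refine hk (ℓ ++ List.replicate (n - 1) x) ?_ y (List.mem_append_left _ hy)
  rw [← hJ', ← hJ]
  refine List.mem_append_right _ ?_
  have h7 : ℓ ++ List.replicate (n - 1) x ∈ K' := List.mem_map_of_mem hℓ
  rw [hK₀] at h7
  rcases List.mem_append.1 h7 with h8 | h8
  · exact List.mem_append_left _ h8
  · rw [List.mem_singleton] at h8
    rw [h8]
    exact List.mem_append_right _ List.mem_cons_self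

/-! ### The twist slides out of the pattern -/

theorem len_unique {w : Word} {a b b' : ℕ} (h : Len w a b) (h' : Len w a b') : b = b' := by
  induction h with
  | nil a =>
    cases h'
    rfl
  | cup _ _ ih =>
    cases h' with
    | cup _ h'' => exact ih h''
  | cap _ _ ih =>
    cases h' with
    | cap _ h'' => exact ih h''
  | pos _ _ ih =>
    cases h' with
    | pos _ h'' => exact ih h''
  | neg _ _ ih =>
    cases h' with
    | neg _ h'' => exact ih h''

theorem slide_top (D' : TLData RR) {D T : Word} {n : ℕ} (hn : 1 ≤ n)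
    (hK : IsKnot (sat D n T)) (hT : URun n n T) (m : ℕ) (Φ : RR → ℝ) (c : ℝ)
    (hb : ∀ q, q < n → Φ (D'.ev m T * D'.sh (m * q) (D'.th m)) = c)
    (ht : ∀ q, q < n → Φ (D'.sh (m * q) (D'.th m) * D'.ev m T) = c)
    {a b : Word} (hab : T = a ++ b) {p k : ℕ} (hk : Len a n k) (hp : p < k) :
    Φ (D'.ev m b * D'.sh (m * p) (D'.th m) * D'.ev m a) = c := by
  subst hab
  obtain ⟨K, hK1, hK2, hK3⟩ := hT
  obtain ⟨M₁, ℓ, M₂, e1, _, r1, r2⟩ := run_append hK1
  obtain ⟨N, hN⟩ : ∃ N, M₁ ++ [ℓ] = List.replicate n () :: N := by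
    cases M₁ with
    | nil =>
      rw [e1, List.nil_append, List.head?_cons, Option.some.injEq] at hK2
      exact ⟨[], by rw [List.nil_append, hK2]⟩
    | cons y M₁ =>
      rw [e1, List.cons_append, List.head?_cons, Option.some.injEq] at hK2
      exact ⟨M₁ ++ [ℓ], by rw [List.cons_append, hK2]⟩
  rw [hN] at r1
  have hl1 : (List.replicate n () :: N).getLast? = some ℓ := by
    rw [← hN]
    simp
  have hlen : ℓ.length = k := by
    have h1 := r1.len rfl hl1
    rw [List.length_replicate] at h1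
    exact len_unique h1 hk
  have hl2 : (ℓ :: M₂).getLast? = some (List.replicate n ()) := by
    rw [← hK3, e1, List.getLast?_append]
    cases hh : (ℓ :: M₂).getLast? with
    | none => simp at hh
    | some z => simp
  obtain ⟨L, hL1, hL2⟩ := run_label D' m 1 (D'.ev m b) r1 hl1
  obtain ⟨L', hL1', hL2'⟩ := run_label D' m (D'.ev m a) 1 r2 hl2
  have e2 : (List.range ℓ.length).map
      (fun q => D'.ev m b * (D'.sh (m * q) (D'.th m) * D'.ev m a) * 1) =
      (List.range ℓ.length).map
      (fun q => 1 * (D'.ev m b * D'.sh (m * q) (D'.th m)) * D'.ev m a) := by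
    refine List.map_congr_left fun q _ => ?_
    noncomm_ring
  obtain ⟨L₀, hL₀⟩ := getLast?_split hL2
  rw [e2] at hL₀
  rw [hL₀] at hL1
  have hj := run_join hL1 hL1'
  have hj2 := Ret.run_map Φ hj
  have e3 : ∀ q < n, D'.ev m b * (D'.ev m a * D'.sh (m * q) (D'.th m)) * 1 =
      D'.ev m (a ++ b) * D'.sh (m * q) (D'.th m) := by
    intro q _
    rw [D'.ev_append]
    noncomm_ring
  have e4 : ∀ q < n, 1 * (D'.sh (m * q) (D'.th m) * D'.ev m b) * D'.ev m a =
      D'.sh (m * q) (D'.th m) * D'.ev m (a ++ b) := by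
    intro q _
    rw [D'.ev_append]
    noncomm_ring
  have hfin := sat_label hn hK (x := c) hj2 ?_ ?_
  · have h5 := hfin (((List.range ℓ.length).map
      (fun q => 1 * (D'.ev m b * D'.sh (m * q) (D'.th m)) * D'.ev m a)).map Φ) (by
        refine List.mem_map_of_mem ?_
        refine List.mem_append_right _ List.mem_cons_self)
        (Φ (1 * (D'.ev m b * D'.sh (m * p) (D'.th m)) * D'.ev m a)) (by
        refine List.mem_map_of_mem ?_
        rw [List.mem_map]
        exact ⟨p, by rw [List.mem_range, hlen]; exact hp, rfl⟩)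
    rw [one_mul] at h5
    exact h5
  · rw [List.head?_map]
    have h6 : (L₀ ++ (List.range ℓ.length).map
        (fun q => 1 * (D'.ev m b * D'.sh (m * q) (D'.th m)) * D'.ev m a) :: L').head? =
        some ((List.range (List.replicate n ()).length).map
        (fun q => D'.ev m b * (D'.ev m a * D'.sh (m * q) (D'.th m)) * 1)) := by
      cases L₀ with
      | nil =>
        simp only [List.nil_append, List.cons.injEq] at hL₀
        rw [List.nil_append, List.head?_cons, ← hL₀.1]
      | cons y L₀ =>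
        simp only [List.cons_append, List.cons.injEq] at hL₀
        rw [List.cons_append, List.head?_cons, ← hL₀.1]
    rw [h6, Option.map_some, List.map_map, List.length_replicate]
    congr 1
    rw [List.eq_replicate_iff]
    refine ⟨by simp, fun y hy => ?_⟩
    rw [List.mem_map] at hy
    obtain ⟨q, hq, rfl⟩ := hy
    rw [List.mem_range] at hq
    show Φ (D'.ev m b * (D'.ev m a * D'.sh (m * q) (D'.th m)) * 1) = c
    rw [e3 q hq]
    exact hb q hq
  · rw [List.getLast?_map]
    have h6 : (L₀ ++ (List.range ℓ.length).map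
        (fun q => 1 * (D'.ev m b * D'.sh (m * q) (D'.th m)) * D'.ev m a) :: L').getLast? =
        some ((List.range (List.replicate n ()).length).map
        (fun q => 1 * (D'.sh (m * q) (D'.th m) * D'.ev m b) * D'.ev m a)) := by
      rw [List.getLast?_append, hL2']
      rfl
    rw [h6, Option.map_some, List.map_map, List.length_replicate]
    congr 1
    rw [List.eq_replicate_iff]
    refine ⟨by simp, fun y hy => ?_⟩
    rw [List.mem_map] at hy
    obtain ⟨q, hq, rfl⟩ := hy
    rw [List.mem_range] at hq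
    show Φ (1 * (D'.sh (m * q) (D'.th m) * D'.ev m b) * D'.ev m a) = c
    rw [e4 q hq]
    exact ht q hq

/-! ### The top coefficient of a pattern and kinks -/

/-- The coefficient of the top vector. -/
noncomputable def topf (D' : TLData RR) (m n : ℕ) (w : Word) : ℝ :=
  ip (m * n) (D'.ev m w (vplus (m * n))) (vplus (m * n))

theorem top_slide {D' : TLData RR} (hG : Good D') {μ' : ℝ} {m n : ℕ}
    (hμ : ∀ q, q < n → D'.sh (m * q) (D'.th m) (vplus (m * n)) = μ' • vplus (m * n))
    {D T a b : Word} (hn : 1 ≤ n) (hK : IsKnot (sat D n T)) (hT : URun n n T)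
    (hab : T = a ++ b) {p k : ℕ} (hk : Len a n k) (hp : p < k) :
    ip (m * n) ((D'.ev m b * D'.sh (m * p) (D'.th m) * D'.ev m a) (vplus (m * n)))
      (vplus (m * n)) = μ' * topf D' m n T := by
  refine slide_top D' hn hK hT m (fun X => ip (m * n) (X (vplus (m * n))) (vplus (m * n)))
    (μ' * topf D' m n T) ?_ ?_ hab hk hp
  · intro q hq
    show ip (m * n) (D'.ev m T (D'.sh (m * q) (D'.th m) (vplus (m * n)))) (vplus (m * n)) = _
    rw [hμ q hq, map_smul, ip_smul_left]
    rfl
  · intro q hq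
    show ip (m * n) (D'.sh (m * q) (D'.th m) (D'.ev m T (vplus (m * n)))) (vplus (m * n)) = _
    have hle : m * q + m ≤ m * n := by
      have := Nat.mul_le_mul_left m (Nat.succ_le_of_lt hq)
      rwa [Nat.mul_succ] at this
    obtain ⟨c, hc⟩ := Nat.exists_eq_add_of_le hle
    have h1 := hG.adj_sh (hG.adj_th m (m + c) (by omega)) (m * q)
    have h2 : m + c + m * q = m * n := by omega
    rw [h2] at h1
    rw [h1, hμ q hq, ip_smul_right]
    rfl

theorem top_kmove {D' : TLData RR} (hG : Good D') {μ' : ℝ} {m n : ℕ}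
    (hμ : ∀ q, q < n → D'.sh (m * q) (D'.th m) (vplus (m * n)) = μ' • vplus (m * n))
    {D : Word} (hn : 1 ≤ n) {e : ℤ} {w w' : Word} (h : KStep D n e w w') :
    (e = 1 ∧ topf D' m n w' = μ' * topf D' m n w) ∨
      (e = -1 ∧ topf D' m n w = μ' * topf D' m n w') := by
  obtain ⟨hr, hr', hw, hw', a, b, l, r, hm, rfl, rfl⟩ := h
  have hl := NHS.len_of_uRun hr
  have hl' := NHS.len_of_uRun hr'
  have len_split : ∀ {u v : Word} {x y : ℕ}, Len (u ++ v) x y → ∃ z, Len u x z ∧ Len v z y := by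
    intro u
    induction u with
    | nil => intro v x y h; exact ⟨x, Len.nil x, h⟩
    | cons t u ih =>
      intro v x y h
      cases h with
      | cup h1 h2 =>
        obtain ⟨z, h3, h4⟩ := ih h2
        exact ⟨z, Len.cup h1 h3, h4⟩
      | cap h1 h2 =>
        obtain ⟨z, h3, h4⟩ := ih h2
        exact ⟨z, Len.cap h1 h3, h4⟩
      | pos h1 h2 =>
        obtain ⟨z, h3, h4⟩ := ih h2
        exact ⟨z, Len.pos h1 h3, h4⟩
      | neg h1 h2 =>
        obtain ⟨z, h3, h4⟩ := ih h2
        exact ⟨z, Len.neg h1 h3, h4⟩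
  cases hm with
  | cupPos i =>
    left
    refine ⟨rfl, ?_⟩
    obtain ⟨z, h1, h2⟩ := len_split hl
    have h3 : ∃ z', Len (a ++ [(Kind.cup, i), (Kind.pos, i)]) n z ∧ z = z' + 2 ∧ i ≤ z' := by
      obtain ⟨z₁, h4, h5⟩ := len_split h1
      cases h5 with
      | cup h6 h7 =>
        cases h7 with
        | pos h8 h9 =>
          have := h9
          cases h9
          exact ⟨z₁, h1, rfl, h8⟩
    obtain ⟨z', h4, h5, h6⟩ := h3
    have h7 := top_slide hG hμ hn hw hr rfl h4 (p := i) (by omega)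
    rw [← h7]
    unfold topf
    congr 2
    rw [ev_three, D'.ev_append m a]
    have e1 : D'.sh (m * i) (D'.th m) * D'.ev m [(Kind.cup, i), (Kind.pos, i)] =
        D'.ev m [(Kind.cup, i)] := by
      show D'.sh (m * i) (D'.th m) * (1 * D'.sh (m * i) (D'.X m m) * D'.sh (m * i) (D'.U m)) =
        1 * D'.sh (m * i) (D'.U m)
      rw [one_mul, one_mul, ← map_mul, D'.X_U, ← map_mul, ← mul_assoc, D'.th_mirror, one_mul]
    rw [← e1]
    noncomm_ring
  | cupNeg i =>
    right
    refine ⟨rfl, ?_⟩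
    obtain ⟨z, h1, h2⟩ := len_split hl'
    have h3 : ∃ z', z = z' + 2 ∧ i ≤ z' := by
      obtain ⟨z₁, h4, h5⟩ := len_split h1
      cases h5 with
      | cup h6 h7 =>
        cases h7
        exact ⟨z₁, rfl, h6⟩
    obtain ⟨z', h5, h6⟩ := h3
    have h7 := top_slide hG hμ hn hw' hr' rfl h1 (p := i) (by omega)
    rw [← h7]
    unfold topf
    congr 2
    rw [ev_three, D'.ev_append m a]
    have e1 : D'.ev m [(Kind.cup, i), (Kind.neg, i)] =
        D'.sh (m * i) (D'.th m) * D'.ev m [(Kind.cup, i)] := by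
      show 1 * D'.sh (m * i) (D'.mirror.X m m) * D'.sh (m * i) (D'.U m) =
        D'.sh (m * i) (D'.th m) * (1 * D'.sh (m * i) (D'.U m))
      rw [one_mul, one_mul, ← map_mul, ← map_mul, D'.mirror_X_U]
    rw [e1]
    noncomm_ring
  | capPos i =>
    left
    refine ⟨rfl, ?_⟩
    have hl2 : Len (a ++ ([(Kind.pos, i), (Kind.cap, i)] ++ b)) n n := by
      rw [← List.append_assoc]
      exact hl
    obtain ⟨z, h1, h2⟩ := len_split hl2
    have h3 : i < z := by
      cases h2 with
      | pos h4 h5 => omega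
    have h7 := top_slide hG hμ hn hw hr (List.append_assoc _ _ _) h1 (p := i) h3
    rw [← h7]
    unfold topf
    congr 2
    rw [ev_three, D'.ev_append m [(Kind.pos, i), (Kind.cap, i)]]
    have e1 : D'.ev m [(Kind.pos, i), (Kind.cap, i)] * D'.sh (m * i) (D'.th m) =
        D'.ev m [(Kind.cap, i)] := by
      show 1 * D'.sh (m * i) (D'.N m) * D'.sh (m * i) (D'.X m m) * D'.sh (m * i) (D'.th m) =
        1 * D'.sh (m * i) (D'.N m)
      rw [one_mul, ← map_mul, D'.N_X, ← map_mul, mul_assoc, D'.mirror_th, mul_one]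
    rw [← e1]
    noncomm_ring
  | capNeg i =>
    right
    refine ⟨rfl, ?_⟩
    have hl2 : Len (a ++ ([(Kind.cap, i)] ++ b)) n n := by
      rw [← List.append_assoc]
      exact hl'
    obtain ⟨z, h1, h2⟩ := len_split hl2
    have h3 : i < z := by
      cases h2 with
      | cap h4 h5 => omega
    have h7 := top_slide hG hμ hn hw' hr' (List.append_assoc _ _ _) h1 (p := i) h3
    rw [← h7]
    unfold topf
    congr 2
    rw [ev_three, D'.ev_append m [(Kind.cap, i)]]
    have e1 : D'.ev m [(Kind.neg, i), (Kind.cap, i)] =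
        D'.ev m [(Kind.cap, i)] * D'.sh (m * i) (D'.th m) := by
      show 1 * D'.sh (m * i) (D'.N m) * D'.sh (m * i) (D'.mirror.X m m) =
        1 * D'.sh (m * i) (D'.N m) * D'.sh (m * i) (D'.th m)
      rw [one_mul, ← map_mul, ← map_mul, D'.N_mirror_X]
    rw [e1]
    noncomm_ring

theorem sh_th_vplus (A : ℝ) (hA : A ≠ 0) (m n q : ℕ) (hq : q < n) :
    (tl A hA).sh (m * q) ((tl A hA).th m) (vplus (m * n)) =
      (tl A hA).mu m • vplus (m * n) := by
  have hle : m * q + m ≤ m * n := by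
    have := Nat.mul_le_mul_left m (Nat.succ_le_of_lt hq)
    rwa [Nat.mul_succ] at this
  refine (tl A hA).th_induct (m * n) (fun Y c => Y (vplus (m * n)) = c • vplus (m * n))
    ?_ ?_ ?_ ?_ m (m * q) hle
  · rw [one_smul]
    rfl
  · intro Y Z c d hY hZ
    rw [Module.End.mul_apply, hZ, map_smul, hY, smul_smul, mul_comm]
  · intro Y c a hY
    rw [LinearMap.smul_apply, hY, smul_smul]
  · exact fun i hi => sg_vplus A hA (m * n) i hi

theorem sh_mirror_th_vplus (A : ℝ) (hA : A ≠ 0) (m n q : ℕ) (hq : q < n) :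
    (tl A hA).mirror.sh (m * q) ((tl A hA).mirror.th m) (vplus (m * n)) =
      ((tl A hA).mu m)⁻¹ • vplus (m * n) := by
  rw [TLData.mirror_sh]
  have h1 : ((tl A hA).sh (m * q) ((tl A hA).mirror.th m))
      (((tl A hA).sh (m * q) ((tl A hA).th m)) (vplus (m * n))) = vplus (m * n) := by
    rw [← Module.End.mul_apply, ← map_mul, (tl A hA).mirror_th, map_one]
    rfl
  rw [sh_th_vplus A hA m n q hq, map_smul] at h1
  have h3 : ((tl A hA).mu m)⁻¹ • ((tl A hA).mu m •
      ((tl A hA).sh (m * q) ((tl A hA).mirror.th m)) (vplus (m * n))) =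
      ((tl A hA).mu m)⁻¹ • vplus (m * n) := by rw [h1]
  rw [smul_smul, inv_mul_cancel₀ (mu_ne A hA m), one_smul] at h3
  exact h3

theorem piso_top {D : Word} {n : ℕ} (hn : 1 ≤ n) {f : ℤ} {w w' : Word} (h : PIso D n f w w')
    (A : ℝ) (hA : A ≠ 0) (m : ℕ) :
    topf (tl A hA) m n w' = ((tl A hA).mu m) ^ f * topf (tl A hA) m n w ∧
      topf (tl A hA).mirror m n w' = ((tl A hA).mu m) ^ (-f) * topf (tl A hA).mirror m n w := by
  have hμ := mu_ne A hA m
  induction h with
  | refl w => simp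
  | reg h =>
    have hr := Relation.EqvGen.rel _ _ h
    unfold topf
    rw [tiso_ev (tl A hA) m hr, tiso_ev (tl A hA).mirror m hr]
    simp
  | kink h =>
    have h1 := top_kmove (good_tl A hA) (m := m) (sh_th_vplus A hA m n) hn h
    have h2 := top_kmove (good_mirror A hA) (m := m) (sh_mirror_th_vplus A hA m n) hn h
    rcases h1 with ⟨rfl, h1⟩ | ⟨rfl, h1⟩
    · rcases h2 with ⟨_, h2⟩ | ⟨h3, _⟩
      · rw [h1, h2, zpow_one, zpow_neg_one]
        exact ⟨rfl, rfl⟩
      · exact absurd h3 (by norm_num)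
    · rcases h2 with ⟨h3, _⟩ | ⟨_, h2⟩
      · exact absurd h3 (by norm_num)
      · rw [h1, h2, neg_neg, zpow_one, zpow_neg_one, ← mul_assoc, ← mul_assoc,
          inv_mul_cancel₀ hμ, mul_inv_cancel₀ hμ, one_mul, one_mul]
        exact ⟨rfl, rfl⟩
  | symm _ ih =>
    rw [ih.1, ih.2, ← mul_assoc, ← mul_assoc, ← zpow_add₀ hμ, ← zpow_add₀ hμ]
    simp
  | trans _ _ ih1 ih2 =>
    rw [ih2.1, ih2.2, ih1.1, ih1.2, ← mul_assoc, ← mul_assoc, ← zpow_add₀ hμ, ← zpow_add₀ hμ]
    refine ⟨?_, ?_⟩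
    · congr 2
      ring
    · congr 2
      ring

/-! ### The satellite and kinks -/

theorem sat_split (D : Word) (n : ℕ) (a l b : Word) :
    sat D n (a ++ l ++ b) = ((List.range (n - 1)).map (fun j => (Kind.cup, 1 + j)) ++ a) ++ l ++
      (b ++ (cable n D ++ (List.range (n - 1)).reverse.map (fun j => (Kind.cap, 1 + j)))) := by
  unfold sat
  simp only [List.append_assoc]

theorem ev_kmove {R : Type} [Ring R] [Algebra ℝ R] (D : TLData R) (m : ℕ) {e : ℤ}
    {l r a b : Word} (h : KMove e l r) (hw : IsKnot (a ++ l ++ b))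
    (hw' : IsKnot (a ++ r ++ b)) :
    (e = 1 ∧ D.ev m (a ++ r ++ b) = D.ev m (a ++ l ++ b) * D.th m) ∨
      (e = -1 ∧ D.ev m (a ++ l ++ b) = D.ev m (a ++ r ++ b) * D.th m) := by
  cases h with
  | cupPos i =>
    rcases ev_rmove D m (RMove.cupPos i) hw hw' with ⟨_, _, h⟩ | ⟨j, hj, _⟩
    · exact Or.inl ⟨rfl, h⟩
    · rcases hj with hj | hj <;> simp at hj
  | capPos i =>
    rcases ev_rmove D m (RMove.capPos i) hw hw' with ⟨_, _, h⟩ | ⟨j, hj, _⟩
    · exact Or.inl ⟨rfl, h⟩
    · rcases hj with hj | hj <;> simp at hj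
  | cupNeg i =>
    rcases ev_rmove D m (RMove.cupNeg i) hw hw' with ⟨j, hj, _⟩ | ⟨_, _, h⟩
    · rcases hj with hj | hj <;> simp at hj
    · exact Or.inr ⟨rfl, h⟩
  | capNeg i =>
    rcases ev_rmove D m (RMove.capNeg i) hw hw' with ⟨j, hj, _⟩ | ⟨_, _, h⟩
    · rcases hj with hj | hj <;> simp at hj
    · exact Or.inr ⟨rfl, h⟩

theorem piso_jj {D : Word} {n : ℕ} {f : ℤ} {w w' : Word} (h : PIso D n f w w')
    (A : ℝ) (hA : A ≠ 0) (m : ℕ) :
    jj A hA m (sat D n w') = ((tl A hA).mu m) ^ f * jj A hA m (sat D n w) ∧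
      jm A hA m (sat D n w') = ((tl A hA).mu m) ^ (-f) * jm A hA m (sat D n w) := by
  have hμ := mu_ne A hA m
  induction h with
  | refl w => simp
  | @reg w w' h =>
    have hr := Relation.EqvGen.rel _ _ h
    refine ⟨?_, ?_⟩
    · rw [jj_sat, jj_sat, satv_congr A hA m n D (tiso_ev (tl A hA) m hr)]
      simp
    · have e : (tl A hA).ev m (mirror w) = (tl A hA).ev m (mirror w') := by
        rw [TLData.ev_mirror, TLData.ev_mirror, tiso_ev (tl A hA).mirror m hr]
      rw [jm_sat, jm_sat, satv_congr A hA m n (mirror D) e]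
      simp
  | kink h =>
    obtain ⟨_, _, hw, hw', a, b, l, r, hm, rfl, rfl⟩ := h
    rw [sat_split] at hw hw'
    rw [sat_split, sat_split]
    have h1 := ev_kmove (tl A hA) m hm hw hw'
    have h2 := ev_kmove (tl A hA).mirror m hm hw hw'
    unfold jj jm
    rcases h1 with ⟨rfl, h1⟩ | ⟨rfl, h1⟩
    · rcases h2 with ⟨_, h2⟩ | ⟨h3, _⟩
      · rw [h1, h2, Module.End.mul_apply, Module.End.mul_apply, th_vplus, mirror_th_vplus,
          map_smul, map_smul, zpow_one, zpow_neg_one]
        exact ⟨rfl, rfl⟩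
      · exact absurd h3 (by norm_num)
    · rcases h2 with ⟨h3, _⟩ | ⟨_, h2⟩
      · exact absurd h3 (by norm_num)
      · rw [h1, h2, Module.End.mul_apply, Module.End.mul_apply, th_vplus, mirror_th_vplus,
          map_smul, map_smul, neg_neg, zpow_one, zpow_neg_one, Pi.smul_apply, Pi.smul_apply,
          smul_eq_mul, smul_eq_mul, ← mul_assoc, ← mul_assoc,
          inv_mul_cancel₀ hμ, mul_inv_cancel₀ hμ, one_mul, one_mul]
        exact ⟨rfl, rfl⟩
  | symm _ ih =>
    rw [ih.1, ih.2, ← mul_assoc, ← mul_assoc, ← zpow_add₀ hμ, ← zpow_add₀ hμ]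
    simp
  | trans _ _ ih1 ih2 =>
    rw [ih2.1, ih2.2, ih1.1, ih1.2, ← mul_assoc, ← mul_assoc, ← zpow_add₀ hμ, ← zpow_add₀ hμ]
    refine ⟨?_, ?_⟩
    · congr 2
      ring
    · congr 2
      ring

/-! ### The two sides of a pattern, with kinks -/

theorem abs_mu' {A : ℝ} (hA : A ≠ 0) (h0 : 0 < A) (m : ℕ) :
    |(tl A hA).mu m| = A ^ (m ^ 2 + 2 * m) := by
  show |(-1) ^ m * A ^ (m ^ 2 + 2 * m)| = _
  rw [abs_mul, abs_pow, abs_neg, abs_one, one_pow, one_mul, abs_of_pos (by positivity)]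

theorem topf_side {n : ℕ} {P : Word} {k : ℕ} {κ : ℕ} {t : ℕ → ℝ → ℝ} {C : ℕ → ℝ}
    (hP : TopData n P κ t C) (N : ℕ) (A : ℝ) (hA : A ≠ 0) :
    topf (tl A hA).mirror N n (P ++ twists .neg n k) =
      (A ^ (N ^ 2)) ^ ((k * (n * (n - 1)) : ℤ)) * t N A⁻¹ := by
  have hbp : ∀ k, IsBraid n (twists .pos n k) := isBraid_twists _ (Or.inl rfl) n
  have e1 : (tl A hA).mirror.ev N (P ++ twists .neg n k) (vplus (N * n)) =
      ((A ^ (N ^ 2)) ^ ((k * (n * (n - 1)) : ℤ)) * t N A⁻¹) • vplus (N * n) := by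
    rw [TLData.ev_append, Module.End.mul_apply]
    have h1 := hP.ev N RR (tl A hA).mirror
    obtain ⟨Z, hZ⟩ := h1
    have h2 : (tl A hA).mirror.ev N P (vplus (N * n)) = t N A⁻¹ • vplus (N * n) := by
      refine top_vplus A hA ⟨Z, ?_⟩
      rw [hZ]
      simp only [TLData.mirror_sh]
      rfl
    rw [h2, map_smul, ← (tl A hA).ev_mirror, mirror_twists_neg,
      ev_braid_vplus A hA N n (hbp k), smul_smul, mul_comm (t N A⁻¹)]
    have h3 : expSum (twists .pos n k) = (k * (n * (n - 1)) : ℤ) := by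
      have h4 := expSum_mirror (twists .pos n k)
      rw [mirror_twists_pos, expSum_twists_neg] at h4
      linarith
    rw [h3]
  unfold topf
  rw [e1, ip_smul_left, ip_vplus, mul_one]

theorem topf_side' {n : ℕ} {Q' : Word} {l : ℕ} {κ : ℕ} {t : ℕ → ℝ → ℝ} {C : ℕ → ℝ}
    (hQ : TopData n Q' κ t C) (N : ℕ) (A : ℝ) (hA : A ≠ 0) :
    topf (tl A hA).mirror N n (mirror Q' ++ twists .pos n l) =
      (A ^ (N ^ 2)) ^ (-(l * (n * (n - 1)) : ℤ)) * t N A := by
  have hbn : ∀ k, IsBraid n (twists .neg n k) := isBraid_twists _ (Or.inr rfl) n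
  have e2 : (tl A hA).mirror.ev N (mirror Q' ++ twists .pos n l) (vplus (N * n)) =
      ((A ^ (N ^ 2)) ^ (-(l * (n * (n - 1)) : ℤ)) * t N A) • vplus (N * n) := by
    rw [← (tl A hA).ev_mirror, TLData.mirror_append, mirror_mirror_word,
      mirror_twists_pos, TLData.ev_append, Module.End.mul_apply,
      top_vplus A hA (hQ.ev N RR (tl A hA)), map_smul, ev_braid_vplus A hA N n (hbn l),
      smul_smul, expSum_twists_neg, mul_comm (t N _)]
    rfl
  unfold topf
  rw [e2, ip_smul_left, ip_vplus, mul_one]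

/-- The exponents of the two sides of the pattern. -/
theorem pattern_le_kink {D : Word} {n : ℕ} (hn : 1 ≤ n) {T P Q' : Word} {m m' : ℕ} {f g : ℤ}
    (hT1 : PIso D n f T (P ++ twists .neg n m))
    (hT2 : PIso D n g T (mirror Q' ++ twists .pos n m'))
    {κ κ' : ℕ} {t t' : ℕ → ℝ → ℝ} {C C' : ℕ → ℝ} (hP : TopData n P κ t C)
    (hQ : TopData n Q' κ' t' C') :
    0 ≤ ((crossings P : ℤ) - m * (n * (n - 1))) + ((crossings Q' : ℤ) - m' * (n * (n - 1))) +
      (g - f) := by
  by_contra hcon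
  rw [not_le] at hcon
  set S : ℤ := ((crossings P : ℤ) - m * (n * (n - 1))) +
    ((crossings Q' : ℤ) - m' * (n * (n - 1))) + (g - f) with hS
  set N : ℕ := κ + κ' + 2 * (g - f).natAbs + 1 with hN
  set X : ℤ := ((N ^ 2 * crossings P + N * κ : ℕ) : ℤ) with hX
  set Y : ℤ := -(((N : ℤ) ^ 2 + 2 * N) * (g - f) -
    (N : ℤ) ^ 2 * (m * (n * (n - 1)) + m' * (n * (n - 1))) +
    (N ^ 2 * crossings Q' + N * κ' : ℕ)) with hY
  have hXY : X < Y := by
    have h1 : S ≤ -1 := by omega
    have h2 : Y - X = -((N : ℤ) ^ 2 * S + N * (κ + κ' + 2 * (g - f))) := by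
      rw [hX, hY, hS]
      push_cast
      ring
    have h3 : (N : ℤ) = κ + κ' + 2 * |g - f| + 1 := by
      rw [hN]
      push_cast
      rfl
    have h4 : (g - f) ≤ |g - f| := le_abs_self _
    have h6 : (0 : ℤ) < N := by
      rw [h3]
      positivity
    have h5 : (κ : ℤ) + κ' + 2 * (g - f) ≤ N - 1 := by
      rw [h3]
      linarith
    have h7 : (N : ℤ) * (κ + κ' + 2 * (g - f)) ≤ N * (N - 1) :=
      mul_le_mul_of_nonneg_left h5 h6.le
    have h8 : (N : ℤ) ^ 2 * S ≤ (N : ℤ) ^ 2 * (-1) :=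
      mul_le_mul_of_nonneg_left h1 (by positivity)
    nlinarith
  have h0 : ∀ A : ℝ, 0 < A → t N A = 0 := by
    refine laurent_zero (hP.laurent N) (C := max (C N) (C' N)) hXY ?_ ?_
    · intro A hA
      refine (hP.up N A hA).trans ?_
      rw [hX, zpow_natCast]
      exact mul_le_mul_of_nonneg_right (le_max_left _ _) (by positivity)
    · intro B hB hB1
      have hB0 : B ≠ 0 := hB.ne'
      have hA1 : 1 ≤ B⁻¹ := (one_le_inv₀ hB).2 hB1
      have hA0 : 0 < B⁻¹ := by positivity
      have hAne : B⁻¹ ≠ 0 := inv_ne_zero hB0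
      have hμ := mu_ne B⁻¹ hAne N
      have r1 := (piso_top hn hT1 B⁻¹ hAne N).2
      have r2 := (piso_top hn hT2 B⁻¹ hAne N).2
      rw [topf_side hP N B⁻¹ hAne, inv_inv] at r1
      rw [topf_side' hQ N B⁻¹ hAne] at r2
      have h2 := hQ.up N B⁻¹ hA1
      set μ := (tl B⁻¹ hAne).mu N with hμd
      set T₀ := topf (tl B⁻¹ hAne).mirror N n T with hT₀
      have hx : (B⁻¹ ^ (N ^ 2)) ^ ((m * (n * (n - 1)) : ℤ)) ≠ 0 :=
        zpow_ne_zero _ (pow_ne_zero _ hAne)
      have h3 : t N B = ((B⁻¹ ^ (N ^ 2)) ^ ((m * (n * (n - 1)) : ℤ)))⁻¹ *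
          (μ ^ (g - f) * ((B⁻¹ ^ (N ^ 2)) ^ (-(m' * (n * (n - 1)) : ℤ)) * t' N B⁻¹)) := by
        rw [r2, ← mul_assoc (μ ^ (g - f)), ← zpow_add₀ hμ,
          show g - f + -g = -f by ring, ← r1, ← mul_assoc, inv_mul_cancel₀ hx, one_mul]
      have hμa : |μ ^ (g - f)| = B⁻¹ ^ (((N : ℤ) ^ 2 + 2 * N) * (g - f)) := by
        rw [abs_zpow, hμd, abs_mu' hAne hA0, zpow_mul]
        congr 1
      have hpm : ((B⁻¹ ^ (N ^ 2)) ^ ((m * (n * (n - 1)) : ℤ)))⁻¹ =
          B⁻¹ ^ (-((N : ℤ) ^ 2 * (m * (n * (n - 1))))) := by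
        rw [← zpow_neg, ← zpow_natCast B⁻¹ (N ^ 2), ← zpow_mul]
        congr 1
        push_cast
        ring
      have hpm' : (B⁻¹ ^ (N ^ 2)) ^ (-(m' * (n * (n - 1)) : ℤ)) =
          B⁻¹ ^ (-((N : ℤ) ^ 2 * (m' * (n * (n - 1))))) := by
        rw [← zpow_natCast B⁻¹ (N ^ 2), ← zpow_mul]
        congr 1
        push_cast
        ring
      rw [h3, hpm, hpm', abs_mul, abs_mul, abs_mul, hμa, abs_of_pos (zpow_pos hA0 _),
        abs_of_pos (zpow_pos hA0 _)]
      have h4 : |t' N B⁻¹| ≤ max (C N) (C' N) *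
          B⁻¹ ^ (((N ^ 2 * crossings Q' + N * κ' : ℕ) : ℤ)) := by
        rw [zpow_natCast]
        exact h2.trans (mul_le_mul_of_nonneg_right (le_max_right _ _) (by positivity))
      calc B⁻¹ ^ (-((N : ℤ) ^ 2 * (m * (n * (n - 1))))) *
            (B⁻¹ ^ (((N : ℤ) ^ 2 + 2 * N) * (g - f)) *
              (B⁻¹ ^ (-((N : ℤ) ^ 2 * (m' * (n * (n - 1))))) * |t' N B⁻¹|))
          ≤ B⁻¹ ^ (-((N : ℤ) ^ 2 * (m * (n * (n - 1))))) *
            (B⁻¹ ^ (((N : ℤ) ^ 2 + 2 * N) * (g - f)) *
              (B⁻¹ ^ (-((N : ℤ) ^ 2 * (m' * (n * (n - 1))))) * (max (C N) (C' N) *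
                B⁻¹ ^ (((N ^ 2 * crossings Q' + N * κ' : ℕ) : ℤ))))) := by
            refine mul_le_mul_of_nonneg_left ?_ (zpow_nonneg hA0.le _)
            refine mul_le_mul_of_nonneg_left ?_ (zpow_nonneg hA0.le _)
            exact mul_le_mul_of_nonneg_left h4 (zpow_nonneg hA0.le _)
        _ = max (C N) (C' N) * B ^ Y := by
            have e : -Y = -((N : ℤ) ^ 2 * (m * (n * (n - 1)))) +
                (((N : ℤ) ^ 2 + 2 * N) * (g - f) +
                (-((N : ℤ) ^ 2 * (m' * (n * (n - 1)))) +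
                ((N ^ 2 * crossings Q' + N * κ' : ℕ) : ℤ))) := by
              rw [hY]
              ring
            have e' : B ^ Y = B⁻¹ ^ (-Y) := by
              rw [inv_zpow', neg_neg]
            rw [e', e, zpow_add₀ hAne, zpow_add₀ hAne, zpow_add₀ hAne]
            ring
  -- contradiction
  obtain ⟨A₀, h1, h2⟩ : ∃ A : ℝ, 1 ≤ A ∧ 2 * C N ≤ A ^ 2 := by
    refine ⟨max 1 (2 * C N), le_max_left _ _, ?_⟩
    have h3 : 1 ≤ max 1 (2 * C N) := le_max_left _ _
    have h4 : 2 * C N ≤ max 1 (2 * C N) := le_max_right _ _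
    nlinarith
  have h3 := half_le h1 h2 (hP.low N A₀ h1)
  rw [h0 A₀ (by linarith), abs_zero] at h3
  have h4 : 0 < (1 / 2) * A₀ ^ (N ^ 2 * crossings P + N * κ) := by positivity
  linarith

/-! ### The theorem -/

/-- The lower bound for the number of crossings of every diagram of the satellite. -/
theorem main_kink_le {D : Word} (hD : IsKnot D) (hDA : AAdequate 1 D)
    (hDB : AAdequate 1 (mirror D)) {n : ℕ} (hn : 1 ≤ n) {T P Q' : Word} {m m' : ℕ} {f g : ℤ}
    (hT1 : PIso D n f T (P ++ twists .neg n m))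
    (hT2 : PIso D n g T (mirror Q' ++ twists .pos n m'))
    (hP : AAdequate n P) (hQ : AAdequate n Q') (hm : m < crossings D) (hm' : m' < crossings D)
    (hK : IsKnot (sat D n T)) {D' : Word} (hD' : Isotopic (sat D n T) D') :
    0 ≤ (crossings P + crossings Q' : ℤ) - (m + m') * (n * (n - 1)) + (g - f) ∧
      2 * ((n : ℤ) ^ 2 * crossings D) + ((crossings P + crossings Q' : ℤ) -
        (m + m') * (n * (n - 1)) + (g - f)) ≤ 2 * crossings D' := by
  obtain ⟨κA, hdA⟩ := dom_of_adequate hD hDA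
  obtain ⟨κB, hdB⟩ := dom_of_adequate (isKnot_mirror hD) hDB
  rw [crossings_mirror] at hdB
  obtain ⟨κP, t, C, hPt⟩ := topData_of_adequate hP
  obtain ⟨κQ, t', C', hQt⟩ := topData_of_adequate hQ
  have hD'k : IsKnot D' := (isotopic_isKnot hD').1 hK
  obtain ⟨F, hF⟩ := isotopic_jj hD'
  have hA := side hdA hD.1 hn hPt.domT hP.uRun hm (F - f) (crossings D') (extrema D') (by
    intro A hA h1 N
    have hμ := mu_ne A hA N
    have e1 : (tl A hA).mu N ^ (F - f) * satv A hA N n D (P ++ twists .neg n m) =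
        jj A hA N D' := by
      rw [← jj_sat, (piso_jj hT1 A hA N).1, (hF A hA N).1, ← mul_assoc, ← zpow_add₀ hμ]
      congr 2
      ring
    rw [e1]
    exact jj_sq_le A hA h1 N hD'k.1)
  have hB := side hdB (isKnot_mirror hD).1 hn hQt.domT hQ.uRun hm' (-F + g) (crossings D')
    (extrema D') (by
    intro A hA h1 N
    have hμ := mu_ne A hA N
    have e1 : (tl A hA).mu N ^ (-F + g) * satv A hA N n (mirror D) (Q' ++ twists .neg n m') =
        jm A hA N D' := by
      have e2 : satv A hA N n (mirror D) (Q' ++ twists .neg n m') =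
          jm A hA N (sat D n (mirror Q' ++ twists .pos n m')) := by
        rw [jm_sat, TLData.mirror_append, mirror_mirror_word, mirror_twists_pos]
      rw [e2, (piso_jj hT2 A hA N).2, (hF A hA N).2, ← mul_assoc, ← zpow_add₀ hμ]
      congr 2
      ring
    rw [e1]
    exact jm_sq_le A hA h1 N hD'k.1)
  have hPQ := pattern_le_kink hn hT1 hT2 hPt hQt
  refine ⟨?_, ?_⟩
  · linarith
  · linarith

/-- The crossing number of a satellite of an adequate knot. -/
theorem main_kink {D : Word} (hD : IsKnot D) (hDA : AAdequate 1 D)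
    (hDB : AAdequate 1 (mirror D)) {n : ℕ} (hn : 1 ≤ n) {T P Q' : Word} {m m' : ℕ} {f g : ℤ}
    (hT1 : PIso D n f T (P ++ twists .neg n m))
    (hT2 : PIso D n g T (mirror Q' ++ twists .pos n m'))
    (hP : AAdequate n P) (hQ : AAdequate n Q') (hm : m < crossings D) (hm' : m' < crossings D)
    (hK : IsKnot (sat D n T)) :
    0 ≤ (crossings P + crossings Q' : ℤ) - (m + m') * (n * (n - 1)) + (g - f) ∧
      2 * ((n : ℤ) ^ 2 * crossingNumber D) + ((crossings P + crossings Q' : ℤ) -
        (m + m') * (n * (n - 1)) + (g - f)) ≤ 2 * crossingNumber (sat D n T) := by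
  obtain ⟨D', h1, h2⟩ := crossingNumber_spec (sat D n T)
  rw [← h2]
  obtain ⟨h3, h4⟩ := main_kink_le hD hDA hDB hn hT1 hT2 hP hQ hm hm' hK h1
  refine ⟨h3, ?_⟩
  have h5 : (n : ℤ) ^ 2 * crossingNumber D ≤ (n : ℤ) ^ 2 * crossings D := by
    have := crossingNumber_le (Relation.EqvGen.refl D)
    exact mul_le_mul_of_nonneg_left (by exact_mod_cast this) (by positivity)
  linarith

end Pool.Agent.HTW
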