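import Pool.Agent.HTW.OriB

/-!
# The top coefficient of a tangle with parallel strands is not zero
-/

namespace Pool.Agent.HTW

/-- At `A = 1`, the top coefficient of the cables of a tangle whose strands can be oriented
upwards at all ends is not zero. -/
theorem orient_top {n : ℕ} {T : Word}
    (hT : ORun T (List.replicate n true) (List.replicate n true))
    (hone : ∀ K : List (List Bool), Run T K → K.head? = some (List.replicate n false) →
      K.getLast? = some (List.replicate n false) → ∀ ℓ ∈ K, ∀ y ∈ ℓ, y = false) (N : ℕ) :
    ((tl 1 one_ne_zero).ev N T (vplus (N * n))) tt ≠ 0 := by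
  rcases Ori.top Ori.one_tl hT hone N with h | h <;> rw [h] <;> norm_num

end Pool.Agent.HTW
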