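import Pool.Agent.HTW.Planarity
import Pool.Agent.HTW.TangleTop
import Pool.Agent.HTW.Final

/-!
# Upper bounds for all diagrams, the top scalar of an arbitrary tangle (helper33)
-/

namespace Pool.Agent.HTW

open Finset

/-- The top coefficient of the cables of an arbitrary tangle. -/
theorem exists_top (n N : ℕ) {T : Word} (hT : URun n n T) :
    ∃ t : ℝ → ℝ, Laurent t ∧
      ∀ (R : Type) [Ring R] [Algebra ℝ R] (D : TLData R), ∃ Z : ℕ → R,
        D.ev N T = t D.A • (1 : R) + ∑ i ∈ range (N * n - 1), Z i * D.sh i D.n := by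
  have hlen : Len (rot T) n n := (uRun_rot hT).len
  have hW : ∀ x ∈ cable N (rot T), x.1 ≠ Kind.neg := noNeg_cable N (rot_noNeg T)
  have hM : URun (N * n) (N * n) (cable N (rot T)) := (len_cable N hlen).uRun
  have hev : ∀ (R : Type) [Ring R] [Algebra ℝ R] (D : TLData R),
      D.ev 1 (cable N (rot T)) = D.ev N T := by
    intro R _ _ D
    rw [TLData.ev_cable, one_mul, ev_rot]
  obtain ⟨hU, hrest⟩ := ST.urun_flat hW hM
  obtain ⟨τ, C₀, hC₀, hLτ, hτ1, _⟩ := ST.state_one (ST.flat_is_flat _) hU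
  obtain ⟨t', C', hC', hLt', ht1, _⟩ := ST.state_sum (crossings (cable N (rot T))) (N * n)
    (ST.rest (cable N (rot T))) fun s hs => ⟨(hrest s hs).1, (hrest s hs).2.1⟩
  refine ⟨fun A => 1 * A ^ (crossings (cable N (rot T)) : ℤ) * τ A + t' A,
    ST.laurent_add (ST.laurent_mono hLτ 1 _) hLt', ?_⟩
  intro R _ _ D
  obtain ⟨Z, hZ⟩ := hτ1 R D
  obtain ⟨Z', hZ'⟩ := ht1 R D
  refine ⟨fun i => D.A ^ crossings (cable N (rot T)) • Z i + Z' i, ?_⟩
  beta_reduce
  rw [← hev, ST.ev_states D hW, hZ, hZ', smul_add, smul_smul, one_mul, add_smul, Finset.smul_sum,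
    zpow_natCast]
  simp only [add_mul, smul_mul_assoc, Finset.sum_add_distrib]
  abel

/-- Labels can be renamed. -/
theorem Step.map {α β : Type} (f : α → β) {x : Letter} {ℓ ℓ' : List α} (h : Step x ℓ ℓ') :
    Step x (ℓ.map f) (ℓ'.map f) := by
  cases h with
  | cup u v y =>
    have h1 := Step.cup (u.map f) (v.map f) (f y)
    rw [List.length_map] at h1
    simpa using h1
  | cap u v y =>
    have h1 := Step.cap (u.map f) (v.map f) (f y)
    rw [List.length_map] at h1
    simpa using h1
  | pos u v x y =>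
    have h1 := Step.pos (u.map f) (v.map f) (f x) (f y)
    rw [List.length_map] at h1
    simpa using h1
  | neg u v x y =>
    have h1 := Step.neg (u.map f) (v.map f) (f x) (f y)
    rw [List.length_map] at h1
    simpa using h1

theorem RT.map {α β : Type} (f : α → β) {w : Word} {ℓ ℓ' : List α} (h : RT w ℓ ℓ') :
    RT w (ℓ.map f) (ℓ'.map f) := by
  induction h with
  | nil ℓ => exact RT.nil _
  | cons hs _ ih => exact RT.cons (hs.map f) ih

/-- The all-A state of a diagram and of the turned diagram have the same value. -/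
theorem ev_stA {R : Type} [Ring R] [Algebra ℝ R] (D : TLData R) (m : ℕ) (w : Word) :
    D.ev m (stA w) = D.ev m (flat (rot w)) := by
  induction w with
  | nil => rfl
  | cons x w ih =>
    have e1 : stA (x :: w) = stL x ++ stA w := rfl
    rw [e1, rot_cons, flat_app, D.ev_append, D.ev_append, ih]
    congr 1
    obtain ⟨k, i⟩ := x
    cases k with
    | cup => rfl
    | cap => rfl
    | pos => rfl
    | neg => exact ev_fmove D m (FMove.far Kind.cap Kind.cup i 0)

theorem flat_stA (w : Word) : Flat (stA w) := by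
  intro x hx
  simp only [stA, List.mem_flatMap] at hx
  obtain ⟨⟨k, i⟩, _, hx⟩ := hx
  cases k <;> simp [stL] at hx
  · rw [hx]; simp
  · rw [hx]; simp
  · rcases hx with hx | hx <;> rw [hx] <;> simp

theorem len_stA {w : Word} {a b : ℕ} (h : Len w a b) : Len (stA w) a b := by
  induction h with
  | nil a => exact Len.nil _
  | cup hi _ ih => exact Len.cup hi ih
  | cap hi _ ih => exact Len.cap hi ih
  | pos hi _ ih => exact ih
  | neg hi _ ih => exact Len.cap hi (Len.cup hi ih)

/-- The exponent of a power of the value of a circle is determined. -/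
theorem dl_pow_inj {a b : ℕ} (h : ∀ (R : Type) [Ring R] [Algebra ℝ R] (D : TLData R),
    D.dl ^ a • (1 : R) = D.dl ^ b • (1 : R)) : a = b := by
  have two : (2 : ℝ) ≠ 0 := two_ne_zero
  have hdl := dl_lt (D := tl 2 two) rfl
  have hvp : vplus 0 tt = 1 := if_pos fun k hk => absurd hk (Nat.not_lt_zero k)
  have h3 := congrArg (fun T : RR => (T (vplus 0)) tt) (h RR (tl 2 two))
  have h4 : ∀ r : ℝ, ((r • (1 : RR)) (vplus 0)) tt = r := by
    intro r
    show r • (vplus 0) tt = r
    rw [hvp, smul_eq_mul, mul_one]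
  beta_reduce at h3
  rw [h4, h4] at h3
  have h5 := congrArg abs h3
  rw [abs_pow, abs_pow] at h5
  exact pow_right_injective₀ (by linarith) (by linarith [hdl] : |(tl 2 two).dl| ≠ 1) h5

/-- The bound of the coloured evaluation of an arbitrary long knot diagram in terms of the number
of circles of its all-A state. -/
theorem upper_long {w : Word} (hw : LongWord w) :
    ∃ k : ℕ, (Lab 1 (stA w)).ncard = 2 ^ (1 + k) ∧
      ∀ m : ℕ, ∃ C : ℝ, 0 ≤ C ∧ ∀ (A : ℝ) (hA : A ≠ 0), 1 ≤ A →
        |jj A hA m w| ≤ C * A ^ (m ^ 2 * crossings w + 2 * (m * k)) := by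
  have hlen0 : Len w 1 1 := (uRun_of_long hw).len
  have hlen : Len (rot w) 1 1 := (uRun_rot (uRun_of_long hw)).len
  have hflen : Len (flat (rot w)) 1 1 := len_flat hlen
  have hfl : Flat (flat (rot w)) := flat_flat _
  have hneg := rot_noNeg w
  obtain ⟨k, hk1, hk2⟩ : ∃ k : ℕ, (Lab 1 (stA w)).ncard = 2 ^ (1 + k) ∧
      ∀ (R : Type) [Ring R] [Algebra ℝ R] (D : TLData R) (m : ℕ),
        D.ev m (stA w) = ((D.dl ^ m) ^ k) • (1 : R) := by
    rcases flat_strong (flat_stA w) (len_stA hlen0).uRun with h | ⟨i, hi, _, _⟩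
    · exact h
    · exfalso
      omega
  refine ⟨k, hk1, fun m => ?_⟩
  -- its cable
  have hcl : Len (cable m (flat (rot w))) (m * 1) (m * 1) := len_cable m hflen
  have hcf : Flat (cable m (flat (rot w))) := flat_of_flat_cable m hfl
  have hW := noNeg_cable m hneg
  have hfc : flat (cable m (rot w)) = cable m (flat (rot w)) := flat_cable m hneg
  have hev : ∀ (R : Type) [Ring R] [Algebra ℝ R] (D : TLData R),
      D.ev 1 (flat (cable m (rot w))) = D.dl ^ (m * k) • (1 : R) := by
    intro R _ _ D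
    rw [hfc, TLData.ev_cable, one_mul, ← ev_stA, hk2 R D m, pow_mul]
  have hcount : (Lab (m * 1) (flat (cable m (rot w)))).ncard = 2 ^ (m * 1 + m * k) := by
    rw [hfc]
    rcases flat_strong hcf hcl.uRun with ⟨k', hk1', hk2'⟩ | ⟨i, hi, _, h⟩
    · have h6 : m * k = k' := dl_pow_inj fun R _ _ D => by
        rw [← hev, hfc, hk2' R D 1, pow_one]
      rw [h6, hk1']
    · exfalso
      have hthr : RT (flat (rot w)) [0] [0] := hflen.rt.map (fun _ : Unit => (0 : ℕ))
      have h1 := rt_cable (G := gpair m) (length_gpair m) (gpair_not m) hfl hthr true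
      obtain ⟨K, h2, h3, _⟩ := h1.run
      refine getElem?_ne_of_nodup (nodup_cblk m (List.nodup_singleton 0) true) ?_ (h _ K _ h2 h3)
      rw [length_cblk (length_gpair m)]
      exact hi
  have hU : URun (m * 1) (m * 1) (cable m (rot w)) := (len_cable m hlen).uRun
  obtain ⟨t, C₁, hC₁, _, ht1, ht2, _⟩ := top_coeff hW (k₀ := m * k) hU hcount
  refine ⟨C₁, hC₁, fun A hA hA1 => ?_⟩
  have hcr : crossings (cable m (rot w)) = m ^ 2 * crossings w := by
    rw [crossings_cable, crossings_rot]
  have h3 := ht1 RR (tl A hA)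
  rw [mul_one, TLData.ev_cable, one_mul, ev_rot] at h3
  have hjj : jj A hA m w = t A := by
    unfold jj
    rw [top_vplus A hA h3, Pi.smul_apply, vplus_tt, smul_eq_mul, mul_one]
    rfl
  rw [hjj, ← hcr]
  exact ht2 A hA1

end Pool.Agent.HTW
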