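import Pool.Agent.HTW.OneSide
import Pool.Agent.HTW.Kinks
import Pool.Agent.HTW.Upper
import Pool.Agent.HTW.Orient
import Pool.Agent.HTW.Asymp

/-!
# Satellites whose pattern has winding number equal to its wrapping number
-/

namespace Pool.Agent.HTW

open Finset

/-- The signed number of full twists. -/
def tsg : Kind → ℕ → ℤ
  | .neg, m => -m
  | _, m => m

theorem tsg_mirror {k : Kind} (hk : k = .pos ∨ k = .neg) (m : ℕ) :
    tsg k.mirror m = -tsg k m := by
  rcases hk with rfl | rfl <;> simp [tsg, Kind.mirror]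

theorem nt_pow {R : Type} [Ring R] [Algebra ℝ R] (D : TLData R) {M : ℕ} {X : R}
    (h : D.Nt M M X) (k : ℕ) : D.Nt M M (X ^ k) := by
  induction k with
  | zero =>
    rw [pow_zero]
    exact D.nt_one M
  | succ k ih =>
    rw [pow_succ]
    exact ih.mul h

/-- The twist operator. -/
noncomputable def Thk (k : Kind) (M m : ℕ) (A : ℝ) (hA : A ≠ 0) : RR :=
  match k with
  | .neg => (tl A hA).mirror.th M ^ m
  | _ => (tl A hA).th M ^ m

theorem thk_spec {k : Kind} (hk : k = .pos ∨ k = .neg) (M m : ℕ) (A : ℝ) (hA : A ≠ 0)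
    (h1 : 1 < A) : (tl A hA).Nt M M (Thk k M m A hA) ∧
      ∀ j ∈ chans M, Thk k M m A hA * Q A hA M j =
        ((tl A hA).mu j) ^ (tsg k m) • Q A hA M j := by
  rcases hk with rfl | rfl
  · refine ⟨nt_pow _ ((tl A hA).nt_th M) m, ?_⟩
    intro j hj
    show (tl A hA).th M ^ m * Q A hA M j = ((tl A hA).mu j) ^ ((m : ℕ) : ℤ) • Q A hA M j
    rw [zpow_natCast]
    induction m with
    | zero => rw [pow_zero, pow_zero, one_mul, one_smul]
    | succ m ih =>
      rw [pow_succ, mul_assoc, th_Q A hA h1 M j hj, mul_smul_comm, ih, smul_smul, pow_succ,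
        mul_comm]
  · have hn : (tl A hA).Nt M M ((tl A hA).mirror.th M) := by
      have h := ((tl A hA).mirror.nt_th M).mirror
      rwa [TLData.mirror_mirror] at h
    refine ⟨nt_pow _ hn m, ?_⟩
    intro j hj
    show (tl A hA).mirror.th M ^ m * Q A hA M j =
      ((tl A hA).mu j) ^ (-((m : ℕ) : ℤ)) • Q A hA M j
    rw [zpow_neg, zpow_natCast, ← inv_pow]
    induction m with
    | zero => rw [pow_zero, pow_zero, one_mul, one_smul]
    | succ m ih =>
      rw [pow_succ, mul_assoc, mirror_th_Q A hA h1 M j hj, mul_smul_comm, ih, smul_smul,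
        pow_succ, mul_comm]

/-- The coloured evaluation of a satellite with twists. -/
theorem abs_jj_sat {k : Kind} (hk : k = .pos ∨ k = .neg) {A : ℝ} (hA : A ≠ 0) (h1 : 1 < A)
    {N n m : ℕ} (hn : 1 ≤ n) {w T : Word} (hT : URun n n T)
    (hK : IsKnot (sat w n (T ++ twists k n m))) :
    |opv A hA N n w (Thk k (N * n) m A hA * (tl A hA).ev N T)| =
      A ^ (tsg k m * (n * ((N : ℤ) ^ 2 + 2 * N))) * |jj A hA N (sat w n (T ++ twists k n m))| := by
  have hA0 : 0 < A := lt_trans one_pos h1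
  rcases hk with rfl | rfl
  · have h2 := opv_pos A hA (N := N) hn hT hK
    show |opv A hA N n w ((tl A hA).th (N * n) ^ m * (tl A hA).ev N T)| = _
    rw [h2, abs_mul, abs_pow, abs_mu A hA h1, ← pow_mul, ← zpow_natCast]
    congr 2
    show (((N ^ 2 + 2 * N) * (n * m) : ℕ) : ℤ) = (m : ℤ) * (n * ((N : ℤ) ^ 2 + 2 * N))
    push_cast
    ring
  · have h2 := opv_neg A hA (N := N) hn hT hK
    show |opv A hA N n w ((tl A hA).mirror.th (N * n) ^ m * (tl A hA).ev N T)| = _
    rw [h2, abs_mul, abs_pow, abs_inv, abs_mu A hA h1, inv_pow, ← pow_mul, ← zpow_natCast,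
      ← zpow_neg]
    congr 2
    show -(((N ^ 2 + 2 * N) * (n * m) : ℕ) : ℤ) = -(m : ℤ) * (n * ((N : ℤ) ^ 2 + 2 * N))
    push_cast
    ring

/-- The gap of the exponents. -/
theorem gap_ineq {k : Kind} (hk : k = .pos ∨ k = .neg) {M m c j : ℕ} {U a L : ℤ} (hm : m ≤ c)
    (hj : j + 2 ≤ M) (hUa : U - a ≤ 2 * L)
    (hg1 : 2 * (c : ℤ) ≤ M * ((c : ℤ) - m))
    (hg2 : L + 2 * c < 2 * (M * ((c : ℤ) - m))) :
    U + (j : ℤ) ^ 2 * c + tsg k m * ((j : ℤ) ^ 2 + 2 * j) <
      a + (M : ℤ) ^ 2 * c + tsg k m * ((M : ℤ) ^ 2 + 2 * (M : ℤ)) := by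
  obtain ⟨x, rfl⟩ : ∃ x, M = j + 2 + x := ⟨M - (j + 2), by omega⟩
  obtain ⟨d, rfl⟩ : ∃ d, c = m + d := ⟨c - m, by omega⟩
  push_cast at hg1 hg2 ⊢
  have hj0 : (0 : ℤ) ≤ j := Int.natCast_nonneg j
  have hx0 : (0 : ℤ) ≤ x := Int.natCast_nonneg x
  have hm0 : (0 : ℤ) ≤ m := Int.natCast_nonneg m
  have hd0 : (0 : ℤ) ≤ d := Int.natCast_nonneg d
  have e1 : (m : ℤ) + d - m = d := by ring
  rw [e1] at hg1 hg2
  rcases hk with rfl | rfl
  · show U + (j : ℤ) ^ 2 * (m + d) + m * ((j : ℤ) ^ 2 + 2 * j) <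
      a + ((j : ℤ) + 2 + x) ^ 2 * (m + d) + m * (((j : ℤ) + 2 + x) ^ 2 + 2 * ((j : ℤ) + 2 + x))
    have h1 : (0 : ℤ) ≤ (x + 2) * (2 * j + 2 + x) * m := by positivity
    have h2 : (0 : ℤ) ≤ (x + 2) * (2 * j + 2 + x) := by positivity
    nlinarith [mul_nonneg hx0 hd0, mul_nonneg hj0 hd0, mul_nonneg (mul_nonneg hx0 hj0) hd0,
      mul_nonneg (mul_nonneg hx0 hx0) hd0, mul_nonneg hx0 hm0, mul_nonneg hj0 hm0,
      mul_nonneg (mul_nonneg hx0 hj0) hm0, mul_nonneg (mul_nonneg hx0 hx0) hm0]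
  · show U + (j : ℤ) ^ 2 * (m + d) + -(m : ℤ) * ((j : ℤ) ^ 2 + 2 * j) <
      a + ((j : ℤ) + 2 + x) ^ 2 * (m + d) + -(m : ℤ) * (((j : ℤ) + 2 + x) ^ 2 +
        2 * ((j : ℤ) + 2 + x))
    -- the difference is `x (d (j + ...) - 2 m)`
    have h3 : 0 ≤ (x : ℤ) * (((j : ℤ) + 2 + x) * d - 2 * (m + d)) :=
      mul_nonneg hx0 (by linarith)
    nlinarith [mul_nonneg hx0 hd0, mul_nonneg hj0 hd0, mul_nonneg (mul_nonneg hx0 hj0) hd0]

/-- The lower bound of one side. -/
theorem jj_ge_side {w : Word} {c κ : ℕ} (hD : Dom w c κ) (hw : LongWord w) {n N : ℕ}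
    (hn : 1 ≤ n) {T : Word} (hTr : URun n n T) {t : ℝ → ℝ}
    (ht : ∀ (A : ℝ) (hA : A ≠ 0), 1 < A →
      (tl A hA).ev N T * Q A hA (N * n) (N * n) = t A • Q A hA (N * n) (N * n))
    {a : ℤ} {c₀ A₀ : ℝ} (hc₀ : 0 < c₀) (hA₀ : 1 < A₀)
    (hlow : ∀ A : ℝ, A₀ ≤ A → c₀ * A ^ a ≤ |t A|)
    (hup : ∀ A : ℝ, A₀ ≤ A → |t A| ≤ c₀⁻¹ * A ^ a)
    {k : Kind} (hk : k = .pos ∨ k = .neg) {m : ℕ} (hm : m ≤ c)
    (hK : IsKnot (sat w n (T ++ twists k n m))) {L : ℤ}
    (hUa : (uexp N T : ℤ) - a ≤ 2 * L)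
    (hgap : 2 ≤ N * n → 2 * (c : ℤ) ≤ ((N * n : ℕ) : ℤ) * ((c : ℤ) - m) ∧
      L + 2 * c < 2 * (((N * n : ℕ) : ℤ) * ((c : ℤ) - m))) :
    ∃ c₁ A₁ : ℝ, 0 < c₁ ∧ 1 < A₁ ∧ ∀ (A : ℝ) (hA : A ≠ 0), A₁ ≤ A →
      c₁ * A ^ (eexp N n c κ a + tsg k m * ((N : ℤ) ^ 2 * (n * (n - 1)))) ≤
        |jj A hA N (sat w n (T ++ twists k n m))| := by
  obtain ⟨c₁, A₁, h1, h2, h3⟩ := opv_ge_N hD hw hn hTr ht (C₀ := 2 ^ (N * extrema T))
    (by positivity) (U := uexp N T) (fun A hA h1 => bd_ev_sharp A hA h1 N hTr) hc₀ hA₀ hlow hup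
    (tsg k m) (fun A hA => Thk k (N * n) m A hA)
    (fun A hA h1 => thk_spec hk (N * n) m A hA h1) (by
      intro j hj
      obtain ⟨g1, g2⟩ := hgap (by omega)
      exact gap_ineq hk hm hj hUa g1 g2)
  refine ⟨c₁, A₁, h1, h2, ?_⟩
  intro A hA hAA
  have hA1 : 1 < A := lt_of_lt_of_le h2 hAA
  have hA0 : 0 < A := lt_trans one_pos hA1
  have h4 := h3 A hA hAA
  rw [abs_jj_sat hk hA hA1 hn hTr hK] at h4
  set V : ℤ := tsg k m * (n * ((N : ℤ) ^ 2 + 2 * N)) with hV
  have h5 : 0 < A ^ V := zpow_pos hA0 _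
  have e : eexp N n c κ a + tsg k m * (((N * n : ℕ) : ℤ) ^ 2 + 2 * ((N * n : ℕ) : ℤ)) =
      V + (eexp N n c κ a + tsg k m * ((N : ℤ) ^ 2 * (n * (n - 1)))) := by
    rw [hV]
    push_cast
    ring
  rw [e, zpow_add₀ hA] at h4
  have h6 : A ^ V * (c₁ * A ^ (eexp N n c κ a + tsg k m * ((N : ℤ) ^ 2 * (n * (n - 1))))) ≤
      A ^ V * |jj A hA N (sat w n (T ++ twists k n m))| := by
    calc _ = c₁ * (A ^ V * A ^ (eexp N n c κ a +
          tsg k m * ((N : ℤ) ^ 2 * (n * (n - 1))))) := by ring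
      _ ≤ _ := h4
  exact le_of_mul_le_mul_left h6 h5

/-- The inequality of the exponents for one side. -/
theorem exp_side {K D' : Word} {N c' κ' : ℕ} {f E : ℤ} {c₁ A₁ C : ℝ} (h1 : 0 < c₁) (h2 : 1 < A₁)
    (hlow : ∀ (A : ℝ) (hA : A ≠ 0), A₁ ≤ A → c₁ * A ^ E ≤ |jj A hA N K|)
    (hf : ∀ (A : ℝ) (hA : A ≠ 0), jj A hA N D' = ((tl A hA).mu N) ^ f * jj A hA N K)
    (hup : ∀ (A : ℝ) (hA : A ≠ 0), 1 ≤ A →
      |jj A hA N D'| ≤ C * A ^ (N ^ 2 * c' + 2 * (N * κ'))) :
    f * ((N : ℤ) ^ 2 + 2 * N) + E ≤ (N : ℤ) ^ 2 * c' + 2 * (N * κ') := by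
  refine exp_le_of (c := c₁) (C := C) h1 h2 ?_
  intro A hAA
  have hA1 : 1 < A := lt_of_lt_of_le h2 hAA
  have hA0 : 0 < A := lt_trans one_pos hA1
  have hA : A ≠ 0 := hA0.ne'
  have h3 := hup A hA hA1.le
  rw [hf A hA, abs_mul, abs_zpow, abs_mu A hA hA1, ← zpow_natCast, ← zpow_mul] at h3
  have e1 : (((N ^ 2 + 2 * N : ℕ) : ℤ) * f) = f * ((N : ℤ) ^ 2 + 2 * N) := by
    push_cast
    ring
  rw [e1, ← zpow_natCast A (N ^ 2 * c' + 2 * (N * κ'))] at h3
  have e2 : ((N ^ 2 * c' + 2 * (N * κ') : ℕ) : ℤ) = (N : ℤ) ^ 2 * c' + 2 * (N * κ') := by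
    push_cast
    ring
  rw [e2] at h3
  refine le_trans ?_ h3
  rw [zpow_add₀ hA]
  calc c₁ * (A ^ (f * ((N : ℤ) ^ 2 + 2 * N)) * A ^ E)
      = A ^ (f * ((N : ℤ) ^ 2 + 2 * N)) * (c₁ * A ^ E) := by ring
    _ ≤ _ := mul_le_mul_of_nonneg_left (hlow A hA hAA) (zpow_nonneg hA0.le _)

/-- The top scalar is bounded by the norm. -/
theorem abs_top_le {N n : ℕ} {T : Word} (hT : URun n n T) {A τ : ℝ} (hA : A ≠ 0) (h1 : 1 < A)
    (hτ : (tl A hA).ev N T (vplus (N * n)) = τ • vplus (N * n)) :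
    |τ| ≤ 2 ^ (N * extrema T) * A ^ uexp N T := by
  have hA0 : 0 < A := lt_trans one_pos h1
  have h2 := entry_le (bd_ev_sharp A hA h1 N hT) (List.replicate (N * n) true) (by simp)
  rw [cvec_replicate, pre_replicate, hτ, Pi.smul_apply, vplus_tt, smul_eq_mul, mul_one] at h2
  exact abs_le_of_sq_le_sq h2 (by positivity)

theorem oRun_uRun {T : Word} {ℓ ℓ' : List Bool} (h : ORun T ℓ ℓ') :
    URun ℓ.length ℓ'.length T := by
  refine Len.uRun ?_
  induction h with
  | nil ℓ => exact Len.nil _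
  | cons hs _ ih =>
    cases hs with
    | cup u v y =>
      simp only [List.length_append, List.length_cons] at ih ⊢
      exact Len.cup (by omega) (by
        rw [show u.length + v.length + 2 = u.length + (v.length + 1 + 1) by omega]
        exact ih)
    | cap u v y =>
      simp only [List.length_append, List.length_cons] at ih ⊢
      rw [show u.length + (v.length + 1 + 1) = u.length + v.length + 2 by omega]
      exact Len.cap (by omega) ih
    | pos u v x y =>
      simp only [List.length_append, List.length_cons] at ih ⊢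
      rw [show u.length + (v.length + 1 + 1) = u.length + v.length + 2 by omega]
      refine Len.pos (by omega) ?_
      rw [show u.length + v.length + 2 = u.length + (v.length + 1 + 1) by omega]
      exact ih
    | neg u v x y =>
      simp only [List.length_append, List.length_cons] at ih ⊢
      rw [show u.length + (v.length + 1 + 1) = u.length + v.length + 2 by omega]
      refine Len.neg (by omega) ?_
      rw [show u.length + v.length + 2 = u.length + (v.length + 1 + 1) by omega]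
      exact ih

theorem mirror_twists {k : Kind} (hk : k = .pos ∨ k = .neg) (n m : ℕ) :
    mirror (twists k n m) = twists k.mirror n m := by
  rcases hk with rfl | rfl
  · exact mirror_twists_pos n m
  · exact mirror_twists_neg n m

theorem uRun_mirror {n n' : ℕ} {w : Word} (h : URun n n' w) : URun n n' (mirror w) := by
  obtain ⟨K, h1, h2, h3⟩ := h
  exact ⟨K, run_mirror h1, h2, h3⟩

/-- For every `N`, the top coefficient of the `N`-cable of the tangle is not identically zero. -/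
def TopNe (n : ℕ) (T : Word) : Prop :=
  ∀ N : ℕ, ∃ (A : ℝ) (hA : A ≠ 0), 0 < A ∧ ((tl A hA).ev N T (vplus (N * n))) tt ≠ 0

/-- All the strands of the tangle can be oriented upwards. -/
theorem topNe_orient {D T β : Word} {n : ℕ} (hn : 1 ≤ n)
    (hT : ORun T (List.replicate n true) (List.replicate n true)) (hβ : Len β n n)
    (hK : IsKnot (sat D n (T ++ β))) : TopNe n T := by
  intro N
  refine ⟨1, one_ne_zero, one_pos, orient_top hT ?_ N⟩
  intro K h1 h2 h3
  obtain ⟨K₀, hK₀⟩ := getLast?_split h3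
  obtain ⟨J, g1, g2, g3⟩ := hβ.uRun
  have g4 := Ret.run_map (fun _ : Unit => false) g1
  cases J with
  | nil => simp at g2
  | cons j J =>
    simp only [List.head?_cons, Option.some.injEq] at g2
    subst g2
    have e1 : List.map (fun _ : Unit => false) (List.replicate n ()) =
        List.replicate n false := List.map_replicate ..
    rw [List.map_cons, e1] at g4
    rw [hK₀] at h1
    have g5 := run_join h1 g4
    have g6 := sat_label hn hK g5 (x := false) (by
      rw [hK₀] at h2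
      cases K₀ with
      | nil => simp
      | cons y K₀ => simpa using h2) (by
      have g7 : (List.replicate n false :: J.map (List.map (fun _ : Unit => false))) =
          (List.replicate n () :: J).map (List.map (fun _ : Unit => false)) := by
        rw [List.map_cons, e1]
      rw [List.getLast?_append, g7, List.getLast?_map, g3, Option.map_some, e1]
      rfl)
    intro ℓ hℓ
    refine g6 ℓ ?_
    rw [hK₀] at hℓ
    rcases List.mem_append.1 hℓ with h4 | h4
    · exact List.mem_append_left _ h4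
    · rw [List.mem_singleton] at h4
      rw [h4]
      exact List.mem_append_right _ List.mem_cons_self

theorem exists_large (C : ℝ) : ∃ A : ℝ, 1 ≤ A ∧ 2 * C ≤ A ^ 2 := by
  refine ⟨max 1 (2 * C), le_max_left _ _, ?_⟩
  have h3 : 1 ≤ max 1 (2 * C) := le_max_left _ _
  have h4 : 2 * C ≤ max 1 (2 * C) := le_max_right _ _
  nlinarith

/-- A-adequate tangles. -/
theorem topNe_adequate {T : Word} {n : ℕ} (hT : AAdequate n T) : TopNe n T := by
  obtain ⟨κ, t, C, h⟩ := topData_of_adequate hT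
  intro N
  obtain ⟨A, h1, h2⟩ := exists_large (C N)
  have hA0 : 0 < A := by linarith
  refine ⟨A, hA0.ne', hA0, ?_⟩
  rw [top_vplus A hA0.ne' (h.ev N RR (tl A hA0.ne')), Pi.smul_apply, vplus_tt, smul_eq_mul,
    mul_one]
  have h3 := half_le h1 h2 (h.low N A h1)
  have h4 : 0 < (1 / 2) * A ^ (N ^ 2 * crossings T + N * κ) := by positivity
  intro h5
  have h6 : t N A = 0 := h5
  rw [h6, abs_zero] at h3
  linarith

/-- B-adequate tangles. -/
theorem topNe_mirror {T : Word} {n : ℕ} (hT : AAdequate n (mirror T)) : TopNe n T := by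
  obtain ⟨κ, t, C, h⟩ := topData_of_adequate hT
  intro N
  obtain ⟨A, h1, h2⟩ := exists_large (C N)
  have hA0 : 0 < A := by linarith
  have hA : A ≠ 0 := hA0.ne'
  have hB : A⁻¹ ≠ 0 := inv_ne_zero hA
  refine ⟨A⁻¹, hB, by positivity, ?_⟩
  have e : (tl A⁻¹ hB).ev N T (vplus (N * n)) = t N A • vplus (N * n) := by
    refine top_vplus A⁻¹ hB ?_
    obtain ⟨Z, hZ⟩ := h.ev N RR (tl A⁻¹ hB).mirror
    refine ⟨Z, ?_⟩
    rw [← TLData.ev_mirror, mirror_mirror_word] at hZ
    rw [hZ]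
    simp only [TLData.mirror_sh]
    have e2 : (tl A⁻¹ hB).mirror.A = A := inv_inv A
    rw [e2]
    rfl
  rw [e, Pi.smul_apply, vplus_tt, smul_eq_mul, mul_one]
  have h3 := half_le h1 h2 (h.low N A h1)
  have h4 : 0 < (1 / 2) * A ^ (N ^ 2 * crossings (mirror T) + N * κ) := by positivity
  intro h5
  rw [h5, abs_zero] at h3
  linarith

/-- The bound at the level `N`. -/
theorem level_le {D : Word} (hD : IsKnot D) (hDA : AAdequate 1 D) (hDB : AAdequate 1 (mirror D))
    {n : ℕ} (hn : 1 ≤ n) {T : Word} (hTu : URun n n T) (hne : TopNe n T)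
    {k : Kind} (hk : k = .pos ∨ k = .neg) {m : ℕ} (hm : m ≤ crossings D)
    (hK : IsKnot (sat D n (T ++ twists k n m))) {D' : Word}
    (hD' : Isotopic (sat D n (T ++ twists k n m)) D') {N : ℕ} (hN : 1 ≤ N)
    (hgap : 2 ≤ N * n →
      2 * (crossings D : ℤ) ≤ ((N * n : ℕ) : ℤ) * ((crossings D : ℤ) - m) ∧
      ((N * (N * crossings T + T.length) : ℕ) : ℤ) + 2 * (crossings D : ℤ) <
        2 * (((N * n : ℕ) : ℤ) * ((crossings D : ℤ) - m))) :
    N * (n ^ 2 * crossings D) ≤ (N + 1) * crossings D' := by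
  obtain ⟨κA, hdA⟩ := dom_of_adequate hD hDA
  obtain ⟨κB, hdB⟩ := dom_of_adequate (isKnot_mirror hD) hDB
  rw [crossings_mirror] at hdB
  have hD'k : IsKnot D' := (isotopic_isKnot hD').1 hK
  obtain ⟨f, hf⟩ := isotopic_jj hD'
  have hTm : URun n n (mirror T) := uRun_mirror hTu
  -- the top scalar
  obtain ⟨t, htL, ht⟩ := exists_top n N hTu
  have hvA : ∀ (A : ℝ) (hA : A ≠ 0),
      (tl A hA).ev N T (vplus (N * n)) = t A • vplus (N * n) :=
    fun A hA => top_vplus A hA (ht RR (tl A hA))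
  have hmZ : ∀ (A : ℝ) (hA : A ≠ 0), ∃ Z : ℕ → RR, (tl A hA).ev N (mirror T) =
      t A⁻¹ • (1 : RR) + ∑ i ∈ range (N * n - 1), Z i * (tl A hA).sh i (tl A hA).n := by
    intro A hA
    obtain ⟨Z, hZ⟩ := ht RR (tl A hA).mirror
    refine ⟨Z, ?_⟩
    rw [TLData.ev_mirror, hZ]
    simp only [TLData.mirror_sh]
    rfl
  have hvB : ∀ (A : ℝ) (hA : A ≠ 0),
      (tl A hA).ev N (mirror T) (vplus (N * n)) = t A⁻¹ • vplus (N * n) :=
    fun A hA => top_vplus A hA (hmZ A hA)
  obtain ⟨α, hα, hα0, hne'⟩ := hne N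
  rw [hvA α hα, Pi.smul_apply, vplus_tt, smul_eq_mul, mul_one] at hne'
  obtain ⟨a, b, c₀, A₀, hab, hc₀, hA₀, hl1, hu1, hl2, hu2⟩ := laurent_asymp htL hα0 hne'
  set L : ℤ := ((N * (N * crossings T + T.length) : ℕ) : ℤ) with hL
  have hU : (uexp N T : ℤ) + uexp N (mirror T) = 2 * L := by
    rw [hL]
    exact_mod_cast uexp_add_mirror N T
  have haU : a ≤ uexp N T := by
    refine exp_le_of (C := 2 ^ (N * extrema T)) hc₀ hA₀ ?_
    intro A hAA
    have hA1 : 1 < A := lt_of_lt_of_le hA₀ hAA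
    have hA : A ≠ 0 := by positivity
    rw [zpow_natCast]
    exact (hl1 A hAA).trans (abs_top_le hTu hA hA1 (hvA A hA))
  have hbU : -b ≤ uexp N (mirror T) := by
    refine exp_le_of (C := 2 ^ (N * extrema (mirror T))) hc₀ hA₀ ?_
    intro A hAA
    have hA1 : 1 < A := lt_of_lt_of_le hA₀ hAA
    have hA : A ≠ 0 := by positivity
    rw [zpow_natCast]
    exact (hl2 A hAA).trans (abs_top_le hTm hA hA1 (hvB A hA))
  -- the two sides
  obtain ⟨kA, hkA1, hkA2⟩ := upper_long hD'k.1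
  obtain ⟨CA, _, hCA⟩ := hkA2 N
  obtain ⟨kB, hkB1, hkB2⟩ := upper_long (isKnot_mirror hD'k).1
  obtain ⟨CB, _, hCB⟩ := hkB2 N
  rw [crossings_mirror] at hCB
  obtain ⟨c₁, A₁, p1, p2, p3⟩ := jj_ge_side hdA hD.1 hn hTu
    (fun A hA h1 => top_Q A hA h1 (ht RR (tl A hA))) hc₀ hA₀ hl1 hu1 hk hm hK
    (L := L) (by linarith) hgap
  have hsA := exp_side p1 p2 p3 (fun A hA => (hf A hA N).1) hCA
  have hKm : mirror (sat D n (T ++ twists k n m)) =
      sat (mirror D) n (mirror T ++ twists k.mirror n m) := by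
    rw [mirror_sat, TLData.mirror_append, mirror_twists hk]
  have hk' : k.mirror = .pos ∨ k.mirror = .neg := by
    rcases hk with rfl | rfl
    · exact Or.inr rfl
    · exact Or.inl rfl
  obtain ⟨c₂, A₂, q1, q2, q3⟩ := jj_ge_side hdB (isKnot_mirror hD).1 hn hTm
    (t := fun A => t A⁻¹)
    (fun A hA h1 => top_Q A hA h1 (hmZ A hA)) hc₀ hA₀ hl2 hu2 hk' hm
    (by rw [← hKm]; exact isKnot_mirror hK) (L := L) (by linarith) hgap
  have hjm : ∀ (A : ℝ) (hA : A ≠ 0) (v : Word), jm A hA N v = jj A hA N (mirror v) := by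
    intro A hA v
    unfold jm jj
    rw [TLData.ev_mirror]
  have hsB := exp_side (K := mirror (sat D n (T ++ twists k n m))) (D' := mirror D') q1 q2
    (by rw [hKm]; exact q3) (f := -f) (fun A hA => by
      rw [← hjm, ← hjm]
      exact (hf A hA N).2) hCB
  -- Kauffman's inequality
  have hkk : kA + kB ≤ crossings D' := by
    have h1 := lab_mul_le hD'k
    rw [hkA1, hkB1, ← pow_add] at h1
    have h2 := (Nat.pow_le_pow_iff_right (by norm_num : 1 < 2)).1 h1
    omega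
  -- the sum
  rw [tsg_mirror hk] at hsB
  unfold eexp at hsA hsB
  have hκ : (kA : ℤ) + kB ≤ crossings D' := by exact_mod_cast hkk
  have hN' : (1 : ℤ) ≤ N := by exact_mod_cast hN
  have h5 : (N : ℤ) ^ 2 * (n ^ 2 * crossings D) ≤
      (N : ℤ) ^ 2 * crossings D' + N * crossings D' := by
    have h6 : (N : ℤ) * (kA + kB) ≤ N * crossings D' :=
      mul_le_mul_of_nonneg_left hκ (by linarith)
    have h7 : (0 : ℤ) ≤ ((N * (n - 1) : ℕ) : ℤ) := Int.natCast_nonneg _
    have h8 : (0 : ℤ) ≤ (((N * n) ^ 2 * crossings D + N * n * κA : ℕ) : ℤ) -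
        (N : ℤ) ^ 2 * (n ^ 2 * crossings D) := by
      push_cast
      have : (0 : ℤ) ≤ N * n * κA := by positivity
      linarith
    have h9 : (0 : ℤ) ≤ (((N * n) ^ 2 * crossings D + N * n * κB : ℕ) : ℤ) -
        (N : ℤ) ^ 2 * (n ^ 2 * crossings D) := by
      push_cast
      have : (0 : ℤ) ≤ N * n * κB := by positivity
      linarith
    linarith
  have h10 : (N : ℤ) * (N * (n ^ 2 * crossings D)) ≤ N * ((N + 1) * crossings D') := by
    calc (N : ℤ) * (N * (n ^ 2 * crossings D)) = (N : ℤ) ^ 2 * (n ^ 2 * crossings D) := by ring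
      _ ≤ _ := h5
      _ = _ := by ring
  have h11 : (N : ℤ) * (n ^ 2 * crossings D) ≤ (N + 1) * crossings D' :=
    le_of_mul_le_mul_left h10 (by linarith)
  exact_mod_cast h11

/-- The arithmetic of the choice of the level. -/
theorem choose_level {n c d s p c' : ℕ} (_hd : 1 ≤ d) (hdc : d ≤ c) (hps : p ≤ s)
    (h : ∀ N : ℕ, 1 ≤ N → (2 ≤ N * n → 2 * c ≤ N * n * d ∧
      N * (N * p + s) + 2 * c < 2 * (N * n * d)) → N * (n ^ 2 * c) ≤ (N + 1) * c') :
    d ^ 2 * (n ^ 2 * c) ≤ d ^ 2 * c' + 2 * (n + 1) * (s + 1) * c ^ 2 := by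
  set q := n * d / (s + 1) with hq
  have hq1 : (s + 1) * q ≤ n * d := Nat.mul_div_le _ _
  have hq2 : n * d < (s + 1) * (q + 1) := Nat.lt_mul_div_succ _ (by omega)
  by_cases hq3 : q ≤ 1
  · have h1 : n * d ≤ (s + 1) * 2 := hq2.le.trans (Nat.mul_le_mul_left _ (by omega))
    calc d ^ 2 * (n ^ 2 * c) = (n * d) * (n * d) * c := by ring
      _ ≤ (n * c) * ((s + 1) * 2) * c := by
          refine Nat.mul_le_mul_right _ (Nat.mul_le_mul (Nat.mul_le_mul_left _ hdc) h1)
      _ = 2 * n * (s + 1) * c ^ 2 := by ring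
      _ ≤ 2 * (n + 1) * (s + 1) * c ^ 2 := by
          refine Nat.mul_le_mul_right _ (Nat.mul_le_mul_right _ (by omega))
      _ ≤ _ := Nat.le_add_left _ _
  · obtain ⟨N, hN⟩ : ∃ N, q = N + 1 := ⟨q - 1, by omega⟩
    have hN1 : 1 ≤ N := by omega
    by_cases hC : N * n * d < 2 * c
    · have h1 : (n * d) * (n * d) ≤ 2 * (n + 1) * (s + 1) * c := by
        calc (n * d) * (n * d) ≤ (s + 1) * (q + 1) * (n * d) := Nat.mul_le_mul_right _ hq2.le
          _ = (s + 1) * (N * n * d + 2 * (n * d)) := by rw [hN]; ring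
          _ ≤ (s + 1) * (2 * c + 2 * (n * c)) := by
              refine Nat.mul_le_mul_left _ (Nat.add_le_add hC.le ?_)
              exact Nat.mul_le_mul_left _ (Nat.mul_le_mul_left _ hdc)
          _ = 2 * (n + 1) * (s + 1) * c := by ring
      calc d ^ 2 * (n ^ 2 * c) = (n * d) * (n * d) * c := by ring
        _ ≤ 2 * (n + 1) * (s + 1) * c * c := Nat.mul_le_mul_right _ h1
        _ = 2 * (n + 1) * (s + 1) * c ^ 2 := by ring
        _ ≤ _ := Nat.le_add_left _ _
    · rw [not_lt] at hC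
      have h1 : N * (N * p + s) < N * n * d := by
        rw [mul_assoc]
        refine Nat.mul_lt_mul_of_pos_left ?_ hN1
        calc N * p + s ≤ N * s + s := Nat.add_le_add_right (Nat.mul_le_mul_left _ hps) _
          _ = s * (N + 1) := by ring
          _ < (s + 1) * (N + 1) := Nat.mul_lt_mul_of_pos_right (by omega) (by omega)
          _ ≤ n * d := by rw [← hN]; exact hq1
      have h2 := h N hN1 fun _ => ⟨hC, by omega⟩
      have h3 : (n * d) * (n * d) ≤ 2 * (n + 1) * (s + 1) * c * q := by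
        calc (n * d) * (n * d) ≤ (s + 1) * (q + 1) * (n * c) :=
              Nat.mul_le_mul hq2.le (Nat.mul_le_mul_left _ hdc)
          _ ≤ (s + 1) * (2 * q) * ((n + 1) * c) := by
              refine Nat.mul_le_mul (Nat.mul_le_mul_left _ (by omega))
                (Nat.mul_le_mul_right _ (by omega))
          _ = _ := by ring
      have h4 : q * (d ^ 2 * (n ^ 2 * c)) ≤
          q * (d ^ 2 * c' + 2 * (n + 1) * (s + 1) * c ^ 2) := by
        calc q * (d ^ 2 * (n ^ 2 * c)) = d ^ 2 * (N * (n ^ 2 * c)) + (n * d) * (n * d) * c := by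
              rw [hN]
              ring
          _ ≤ d ^ 2 * ((N + 1) * c') + 2 * (n + 1) * (s + 1) * c * q * c :=
              Nat.add_le_add (Nat.mul_le_mul_left _ h2) (Nat.mul_le_mul_right _ h3)
          _ = _ := by
              rw [← hN]
              ring
      exact Nat.le_of_mul_le_mul_left h4 (by omega)

theorem crossings_le_length (w : Word) : crossings w ≤ w.length := List.countP_le_length

/-- The crossing number of a satellite, up to a constant: the strands of the pattern tangle can be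
oriented upwards, or the tangle or its mirror image is A-adequate. -/
theorem additive {D : Word} (hD : IsKnot D) (hDA : AAdequate 1 D)
    (hDB : AAdequate 1 (mirror D)) {n : ℕ} (hn : 1 ≤ n) {T : Word}
    (hT : ORun T (List.replicate n true) (List.replicate n true) ∨ AAdequate n T ∨
      AAdequate n (mirror T))
    {k : Kind} (hk : k = .pos ∨ k = .neg) {m : ℕ} (hm : m < crossings D)
    (hK : IsKnot (sat D n (T ++ twists k n m))) :
    (crossings D - m) ^ 2 * (n ^ 2 * crossings D) ≤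
      (crossings D - m) ^ 2 * crossingNumber (sat D n (T ++ twists k n m)) +
        2 * (n + 1) * (T.length + 1) * crossings D ^ 2 := by
  obtain ⟨D', h1, h2⟩ := crossingNumber_spec (sat D n (T ++ twists k n m))
  rw [← h2]
  obtain ⟨hTu, hne⟩ : URun n n T ∧ TopNe n T := by
    rcases hT with hT | hT | hT
    · have h := oRun_uRun hT
      rw [List.length_replicate] at h
      exact ⟨h, topNe_orient hn hT (Len.cross (isBraid_twists k hk n m)) hK⟩
    · exact ⟨hT.uRun, topNe_adequate hT⟩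
    · have h := uRun_mirror hT.uRun
      rw [mirror_mirror_word] at h
      exact ⟨h, topNe_mirror hT⟩
  refine choose_level (by omega) (Nat.sub_le _ _) (crossings_le_length T) ?_
  intro N hN hg
  refine level_le hD hDA hDB hn hTu hne hk hm.le hK h1 hN ?_
  intro h3
  obtain ⟨h4, h5⟩ := hg h3
  have e : ((crossings D : ℤ) - m) = ((crossings D - m : ℕ) : ℤ) := by
    push_cast [Nat.cast_sub hm.le]
    ring
  rw [e]
  exact ⟨by exact_mod_cast h4, by exact_mod_cast h5⟩

end Pool.Agent.HTW
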