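import Pool.Agent.HTW.Ring

/-!
# The full twist modulo cups

Products of crossings of `m + 2` strands are scalars modulo the sums of products `c * T` with
`c` from `m` to `m + 2` strands and `T` from `m + 2` to `m` strands.
-/

namespace Pool.Agent.HTW

open Finset Polynomial

namespace TLData

variable {R : Type} [Ring R] [Algebra ℝ R] (D : TLData R)

theorem sh_succ' (k : ℕ) (T : R) : D.sh k (D.S T) = D.sh (k + 1) T := by
  rw [D.sh_add k 1]
  rfl

/-- Induction for the full twist. -/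
theorem th_induct (M : ℕ) (P : R → ℝ → Prop) (h1 : P 1 1)
    (hmul : ∀ Y Z c d, P Y c → P Z d → P (Y * Z) (c * d))
    (hsmul : ∀ Y c (a : ℝ), P Y c → P (a • Y) (a * c))
    (hsg : ∀ i, i + 2 ≤ M → P (D.sh i D.sg) D.A) (m k : ℕ) (h : k + m ≤ M) :
    P (D.sh k (D.th m)) (D.mu m) := by
  have hX1 : ∀ q k, k + q + 1 ≤ M → P (D.sh k (D.X1 q)) (D.A ^ q) := by
    intro q
    induction q with
    | zero =>
      intro k _
      rw [X1, map_one, pow_zero]
      exact h1
    | succ q ih =>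
      intro k hk
      rw [X1, map_mul, ← D.sh_add, pow_succ']
      exact hmul _ _ _ _ (hsg _ (by omega)) (ih k (by omega))
  have hX : ∀ p q k, k + p + q ≤ M → P (D.sh k (D.X p q)) (D.A ^ (p * q)) := by
    intro p
    induction p with
    | zero =>
      intro q k _
      rw [X, map_one, Nat.zero_mul, pow_zero]
      exact h1
    | succ p ih =>
      intro q k hk
      rw [X, map_mul, D.sh_succ', show (p + 1) * q = q + p * q by ring, pow_add]
      exact hmul _ _ _ _ (hX1 q k (by omega)) (ih q (k + 1) (by omega))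
  induction m generalizing k with
  | zero =>
    rw [th, map_one, mu, pow_zero]
    simpa using h1
  | succ m ih =>
    have e : D.mu (m + 1) = (-(D.A ^ 3)) * (D.A ^ (m * 1) * D.A ^ m * D.mu m) := by
      unfold mu
      ring
    rw [th, map_smul, map_mul, map_mul, D.sh_succ', e]
    refine hsmul _ _ _ (hmul _ _ _ _ (hmul _ _ _ _ (hX m 1 k (by omega)) (hX1 m k (by omega)))
      (ih (k + 1) (by omega)))

/-- Sums of products `c * T` which factor through `j` strands. -/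
def Thr (m j : ℕ) : AddSubgroup R :=
  AddSubgroup.closure {Y | ∃ c T, D.Nt j m c ∧ D.Nt m j T ∧ Y = c * T}

variable {D}

theorem Thr.mk {m j : ℕ} {c T : R} (hc : D.Nt j m c) (hT : D.Nt m j T) : c * T ∈ D.Thr m j :=
  AddSubgroup.subset_closure ⟨c, T, hc, hT, rfl⟩

theorem Thr.mul_right {m j : ℕ} {Y Z : R} (hY : Y ∈ D.Thr m j) (hZ : D.Nt m m Z) :
    Y * Z ∈ D.Thr m j := by
  refine AddSubgroup.closure_induction (p := fun Y _ => Y * Z ∈ D.Thr m j) ?_ ?_ ?_ ?_ hY
  · rintro _ ⟨c, T, hc, hT, rfl⟩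
    rw [mul_assoc]
    exact Thr.mk hc (hT.mul hZ)
  · rw [zero_mul]
    exact zero_mem _
  · intro x y _ _ hx hy
    rw [add_mul]
    exact add_mem hx hy
  · intro x _ hx
    rw [neg_mul]
    exact neg_mem hx

theorem Thr.mul_left {m j : ℕ} {Y Z : R} (hY : Y ∈ D.Thr m j) (hZ : D.Nt m m Z) :
    Z * Y ∈ D.Thr m j := by
  refine AddSubgroup.closure_induction (p := fun Y _ => Z * Y ∈ D.Thr m j) ?_ ?_ ?_ ?_ hY
  · rintro _ ⟨c, T, hc, hT, rfl⟩
    rw [← mul_assoc]
    exact Thr.mk (hZ.mul hc) hT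
  · rw [mul_zero]
    exact zero_mem _
  · intro x y _ _ hx hy
    rw [mul_add]
    exact add_mem hx hy
  · intro x _ hx
    rw [mul_neg]
    exact neg_mem hx

theorem Thr.smul {m j : ℕ} {Y : R} (hY : Y ∈ D.Thr m j) (a : ℝ) : a • Y ∈ D.Thr m j := by
  refine AddSubgroup.closure_induction (p := fun Y _ => a • Y ∈ D.Thr m j) ?_ ?_ ?_ ?_ hY
  · rintro _ ⟨c, T, hc, hT, rfl⟩
    rw [← smul_mul_assoc]
    exact Thr.mk (hc.smul a) hT
  · rw [smul_zero]
    exact zero_mem _
  · intro x y _ _ hx hy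
    rw [smul_add]
    exact add_mem hx hy
  · intro x _ hx
    rw [smul_neg]
    exact neg_mem hx

theorem Nt.shu {i m : ℕ} (h : i ≤ m) : D.Nt m (m + 2) (D.sh i D.u) := by
  have h1 := (D.nt_u.sh i).ext (m - i)
  have e1 : i + 0 + (m - i) = m := by omega
  have e2 : i + 2 + (m - i) = m + 2 := by omega
  rwa [e1, e2] at h1

theorem Nt.shn {i m : ℕ} (h : i ≤ m) : D.Nt (m + 2) m (D.sh i D.n) := by
  have h1 := (D.nt_n.sh i).ext (m - i)
  have e1 : i + 0 + (m - i) = m := by omega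
  have e2 : i + 2 + (m - i) = m + 2 := by omega
  rwa [e1, e2] at h1

theorem Nt.shsg {i m : ℕ} (h : i ≤ m) : D.Nt (m + 2) (m + 2) (D.sh i D.sg) := by
  have h1 := (D.nt_sg.sh i).ext (m - i)
  have e2 : i + 2 + (m - i) = m + 2 := by omega
  rwa [e2] at h1

variable (D)

theorem sh_sg (i : ℕ) : D.sh i D.sg = D.A • (1 : R) + D.A⁻¹ • (D.sh i D.u * D.sh i D.n) := by
  rw [sg, map_add, map_smul, map_smul, map_one, map_mul]

/-- The full twist is a scalar modulo cups. -/
theorem th_sub_mu (m : ℕ) : D.th (m + 2) - D.mu (m + 2) • (1 : R) ∈ D.Thr (m + 2) m := by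
  have h := D.th_induct (m + 2)
    (fun Y c => D.Nt (m + 2) (m + 2) Y ∧ Y - c • (1 : R) ∈ D.Thr (m + 2) m) ?_ ?_ ?_ ?_ (m + 2) 0
    (by omega)
  · exact h.2
  · refine ⟨D.nt_one _, ?_⟩
    rw [one_smul, sub_self]
    exact zero_mem _
  · rintro Y Z c d ⟨hY, hY'⟩ ⟨hZ, hZ'⟩
    refine ⟨hY.mul hZ, ?_⟩
    have e : Y * Z - (c * d) • (1 : R) = (Y - c • (1 : R)) * Z + c • (Z - d • (1 : R)) := by
      rw [sub_mul, smul_sub, smul_mul_assoc, one_mul, smul_smul]
      abel
    rw [e]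
    exact add_mem (Thr.mul_right hY' hZ) (Thr.smul hZ' c)
  · rintro Y c a ⟨hY, hY'⟩
    refine ⟨hY.smul a, ?_⟩
    rw [mul_smul, ← smul_sub]
    exact Thr.smul hY' a
  · intro i hi
    refine ⟨Nt.shsg (by omega), ?_⟩
    rw [sh_sg, add_sub_cancel_left]
    exact Thr.smul (Thr.mk (Nt.shu (by omega)) (Nt.shn (by omega))) _

theorem th_zero : D.th 0 = D.mu 0 • (1 : R) := by
  simp [th, mu]

theorem th_one : D.th 1 = D.mu 1 • (1 : R) := by
  have e : D.mu 1 = -(D.A ^ 3) := by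
    unfold mu
    ring
  rw [e, th, X, X1, th, map_one, mul_one, mul_one]

end TLData

end Pool.Agent.HTW
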