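import Pool.Agent.HTW.Defs

/-!
# Regular isotopy and braids

Further definitions (not used in the statement of the theorem).
-/

namespace Pool.Agent.HTW

/-- Regular isotopy of knot diagrams. -/
def RegIso (w w' : Word) : Prop := Relation.EqvGen FStep w w'

/-- The local moves of braid equivalence. -/
inductive BMove : Word → Word → Prop
  | far (x y : Kind) (hx : x = .pos ∨ x = .neg) (hy : y = .pos ∨ y = .neg) (i d : ℕ) :
      BMove [(x, i), (y, i + 2 + d)] [(y, i + 2 + d), (x, i)]
  | r2a (i : ℕ) : BMove [(.pos, i), (.neg, i)] []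
  | r2b (i : ℕ) : BMove [(.neg, i), (.pos, i)] []
  | r3 (i : ℕ) :
      BMove [(.pos, i), (.pos, i + 1), (.pos, i)] [(.pos, i + 1), (.pos, i), (.pos, i + 1)]

/-- A word in the generators of the braid group on `n` strands and their inverses. -/
def IsBraid (n : ℕ) (w : Word) : Prop :=
  ∀ x ∈ w, (x.1 = Kind.pos ∨ x.1 = Kind.neg) ∧ x.2 + 2 ≤ n

/-- A word in the generators of the braid group on `n` strands (no inverses). -/
def IsPosBraid (n : ℕ) (w : Word) : Prop :=
  ∀ x ∈ w, x.1 = Kind.pos ∧ x.2 + 2 ≤ n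

/-- Equality of braids on `n` strands. -/
def BraidEq (n : ℕ) (w w' : Word) : Prop :=
  Relation.EqvGen (fun v v' => IsBraid n v ∧ IsBraid n v' ∧
    ∃ a b l r : Word, BMove l r ∧ v = a ++ l ++ b ∧ v' = a ++ r ++ b) w w'

end Pool.Agent.HTW
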