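import Pool.Agent.HTW.TDefs

/-!
# Positive braids are A-adequate tangles
-/

namespace Pool.Agent.HTW

theorem split_at {α : Type} (ℓ : List α) (i : ℕ) (h : i + 2 ≤ ℓ.length) :
    ∃ (u v : List α) (x y : α), ℓ = u ++ x :: y :: v ∧ u.length = i := by
  refine ⟨ℓ.take i, ℓ.drop (i + 2), ℓ[i], ℓ[i + 1], ?_, ?_⟩
  · conv_lhs => rw [← List.take_append_drop i ℓ]
    congr 1
    rw [List.drop_eq_getElem_cons (by omega), List.drop_eq_getElem_cons (by omega)]
  · rw [List.length_take]
    omega

theorem aRun_pos {α : Type} {n : ℕ} {P : Word} (hP : IsPosBraid n P) (ℓ : List α)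
    (hℓ : ℓ.length = n) : ARun P ℓ ℓ := by
  induction P with
  | nil => exact ARun.nil ℓ
  | cons x P ih =>
    have hx := hP x List.mem_cons_self
    have ih' := ih (fun y hy => hP y (List.mem_cons_of_mem _ hy))
    obtain ⟨k, i⟩ := x
    have h1 := hx.1
    simp only at h1
    subst h1
    obtain ⟨u, v, y, z, rfl, rfl⟩ := split_at ℓ i (by rw [hℓ]; exact hx.2)
    exact ARun.cons (AStep.pos u v y z) ih'

/-- Positive braids are A-adequate. -/
theorem adequate_of_posBraid {n : ℕ} {P : Word} (hP : IsPosBraid n P) : AAdequate n P := by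
  refine ⟨aRun_pos hP _ (List.length_range), ?_⟩
  intro a b x h hx
  have hmem : x ∈ P := by rw [h]; simp
  have hx' := hP x hmem
  obtain ⟨k, i⟩ := x
  have h1 := hx'.1
  have hi := hx'.2
  simp only at h1 hi
  subst h1
  have ha : IsPosBraid n a := fun y hy => hP y (by rw [h]; simp [hy])
  have hb : IsPosBraid n b := fun y hy => hP y (by rw [h]; simp [hy])
  have hlen : (List.replicate i false ++ false :: true ::
      List.replicate (n - (i + 2)) false).length = n := by
    simp
    omega
  refine ⟨List.replicate i false ++ false :: true :: List.replicate (n - (i + 2)) false,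
    _, _, hlen, aRun_pos ha _ hlen, ?_, aRun_pos hb _ hlen, ?_⟩
  · have h2 := AStep.pos (List.replicate i false) (List.replicate (n - (i + 2)) false) false true
    rw [List.length_replicate] at h2
    exact h2
  · rw [List.getElem?_append_right (by simp), List.getElem?_append_right (by simp)]
    simp

theorem step_braid {n : ℕ} {x : Letter} (hx : x.1 = Kind.pos ∨ x.1 = Kind.neg)
    (hi : x.2 + 2 ≤ n) : Step x (List.replicate n ()) (List.replicate n ()) := by
  obtain ⟨k, i⟩ := x
  simp only at hx hi
  have e : List.replicate n () = List.replicate i () ++ () :: () ::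
      List.replicate (n - (i + 2)) () := by
    have : n = i + (2 + (n - (i + 2))) := by omega
    conv_lhs => rw [this, ← List.replicate_append_replicate, ← List.replicate_append_replicate]
    rfl
  have l : (List.replicate i ()).length = i := by simp
  rw [e]
  rcases hx with rfl | rfl
  · have h := Step.pos (List.replicate i ()) (List.replicate (n - (i + 2)) ()) () ()
    rw [l] at h
    exact h
  · have h := Step.neg (List.replicate i ()) (List.replicate (n - (i + 2)) ()) () ()
    rw [l] at h
    exact h

theorem uRun_braid {n : ℕ} {w : Word} (hw : IsBraid n w) : URun n n w := by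
  induction w with
  | nil => exact ⟨[List.replicate n ()], Run.nil _, rfl, rfl⟩
  | cons x w ih =>
    have hx := hw x List.mem_cons_self
    obtain ⟨K, h1, h2, h3⟩ := ih (fun y hy => hw y (List.mem_cons_of_mem _ hy))
    cases K with
    | nil => simp at h2
    | cons k K =>
      simp only [List.head?_cons, Option.some.injEq] at h2
      subst h2
      exact ⟨_, Run.cons (step_braid hx.1 hx.2) h1, rfl, by
        rw [List.getLast?_cons_cons]; exact h3⟩

/-- Equality of braids implies isotopy of tangles. -/
theorem tIso_of_braidEq {n : ℕ} {w w' : Word} (h : BraidEq n w w') : TIso n w w' := by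
  induction h with
  | rel w w' h =>
    obtain ⟨h1, h2, a, b, l, r, h3, h4, h5⟩ := h
    refine Relation.EqvGen.rel _ _ ⟨uRun_braid h1, uRun_braid h2, a, b, l, r, ?_, h4, h5⟩
    cases h3 with
    | far x y hx hy i d =>
      have h6 : x.out = 2 ∧ x.inn = 2 := by
        rcases hx with rfl | rfl <;> exact ⟨rfl, rfl⟩
      have h7 := FMove.far x y i d
      rw [h6.1, h6.2] at h7
      exact h7
    | r2a i => exact FMove.r2a i
    | r2b i => exact FMove.r2b i
    | r3 i => exact FMove.r3 i
  | refl w => exact Relation.EqvGen.refl w
  | symm w w' _ ih => exact Relation.EqvGen.symm _ _ ih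
  | trans w w' w'' _ _ ih ih' => exact Relation.EqvGen.trans _ _ _ ih ih'

end Pool.Agent.HTW
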