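import Pool.Agent.HTW.Words
import Pool.Agent.HTW.Len

/-!
# The norm of the cable of the companion on a channel

For a knot diagram `w` without negative letters, the `m`-cable restricted to the channel `j`
has norm at most `A^(j^2 c) (A^2 + A^-2)^(m h)`, because all strands of the diagram carry the
channel `j`.
-/

set_option linter.unusedSectionVars false

namespace Pool.Agent.HTW

open Finset

/-- The diagram has no negative letters. -/
def NoNeg (w : Word) : Prop := ∀ x ∈ w, x.1 ≠ Kind.neg

/-- `Q m j₁ ⊗ ... ⊗ Q m j_a`. -/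
noncomputable def QQ (A : ℝ) (hA : A ≠ 0) (m : ℕ) : List ℕ → RR
  | [] => 1
  | j :: J => Q A hA m j * (tl A hA).sh m (QQ A hA m J)

/-! ### Splitting lists -/

theorem split_le {α : Type} {J : List α} {i a : ℕ} (hJ : J.length = a) (hi : i ≤ a) :
    ∃ u v : List α, J = u ++ v ∧ u.length = i :=
  ⟨J.take i, J.drop i, (List.take_append_drop i J).symm, by
    rw [List.length_take]
    omega⟩

theorem split_two {α : Type} {J : List α} {i a : ℕ} (hJ : J.length = a + 2) (hi : i ≤ a) :
    ∃ (u v : List α) (y z : α), J = u ++ y :: z :: v ∧ u.length = i := by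
  obtain ⟨u, v, rfl, hu⟩ := split_le (i := i) hJ (by omega)
  rw [List.length_append, hu] at hJ
  rcases v with _ | ⟨y, _ | ⟨z, v⟩⟩
  · simp at hJ
    omega
  · simp at hJ
    omega
  · exact ⟨u, v, y, z, rfl, hu⟩

/-! ### Tensor products of projections -/

theorem crossings_nil : crossings [] = 0 := rfl

theorem extrema_nil : extrema [] = 0 := rfl

theorem bd_zero (a b : ℕ) {C : ℝ} (hC : 0 ≤ C) : Bd a b 0 C := by
  intro f
  have h : ip b ((0 : RR) f) ((0 : RR) f) = 0 := by
    rw [LinearMap.zero_apply, ← ipL_apply, map_zero]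
  rw [h]
  exact mul_nonneg hC (ip_self_nonneg a f)

section

variable (A : ℝ) (hA : A ≠ 0) (m : ℕ)

theorem ev_cons (x : Letter) (w : Word) : (tl A hA).ev m (x :: w) =
    (tl A hA).ev m w * (tl A hA).evL m x := rfl

theorem QQ_append (u v : List ℕ) :
    QQ A hA m (u ++ v) = QQ A hA m u * (tl A hA).sh (m * u.length) (QQ A hA m v) := by
  induction u with
  | nil =>
    rw [List.nil_append, List.length_nil, Nat.mul_zero]
    exact (one_mul _).symm
  | cons j u ih =>
    rw [List.cons_append, QQ, QQ, ih, map_mul, ← TLData.sh_add, mul_assoc, List.length_cons,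
      show m + m * u.length = m * (u.length + 1) by ring]

variable (h1 : 1 < A)
include h1

theorem nt_QQ (J : List ℕ) : (tl A hA).Nt (m * J.length) (m * J.length) (QQ A hA m J) := by
  induction J with
  | nil => exact (tl A hA).nt_one _
  | cons j J ih =>
    rw [QQ, List.length_cons, show m * (J.length + 1) = m + m * J.length by ring]
    exact ((nt_Q A hA h1 m j).ext _).mul (ih.sh m)

theorem QQ_mul_self {J : List ℕ} (hJ : ∀ y ∈ J, y ∈ chans m) :
    QQ A hA m J * QQ A hA m J = QQ A hA m J := by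
  induction J with
  | nil => exact one_mul _
  | cons j J ih =>
    have e := (nt_Q A hA h1 m j).loc (QQ A hA m J)
    rw [QQ]
    calc Q A hA m j * (tl A hA).sh m (QQ A hA m J) * (Q A hA m j * (tl A hA).sh m (QQ A hA m J))
        = Q A hA m j * ((tl A hA).sh m (QQ A hA m J) * Q A hA m j) *
            (tl A hA).sh m (QQ A hA m J) := by simp only [mul_assoc]
      _ = (Q A hA m j * Q A hA m j) * (tl A hA).sh m (QQ A hA m J * QQ A hA m J) := by
          rw [← e, map_mul]
          simp only [mul_assoc]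
      _ = _ := by
          rw [Q_mul_self A hA h1 m j (hJ j (by simp)), ih (fun y hy => hJ y (by simp [hy]))]

theorem bd_QQ {J : List ℕ} (hJ : ∀ y ∈ J, y ∈ chans m) (a : ℕ) (h : m * J.length ≤ a) :
    Bd a a (QQ A hA m J) 1 := by
  induction J generalizing a with
  | nil =>
    intro f
    rw [one_mul]
    exact le_refl _
  | cons j J ih =>
    rw [List.length_cons, show m * (J.length + 1) = m + m * J.length by ring] at h
    have b1 := bd_Q A hA h1 m j a 0 (hJ j (by simp)) (by omega)
    have b2 := (ih (fun y hy => hJ y (by simp [hy])) (a - m) (by omega)).sh A hA m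
    rw [Nat.sub_add_cancel (by omega)] at b2
    have b3 := Bd.mul zero_le_one b1 b2
    rw [one_mul] at b3
    exact b3

/-! ### Letters and projections -/

theorem QQ_two (u v : List ℕ) (y z : ℕ) : QQ A hA m (u ++ y :: z :: v) =
    QQ A hA m u * (tl A hA).sh (m * u.length) (Q A hA m y * (tl A hA).sh m (Q A hA m z) *
      (tl A hA).sh (2 * m) (QQ A hA m v)) := by
  have e : (tl A hA).sh m (Q A hA m z * (tl A hA).sh m (QQ A hA m v)) =
      (tl A hA).sh m (Q A hA m z) * (tl A hA).sh (2 * m) (QQ A hA m v) := by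
    rw [map_mul, ← TLData.sh_add, ← two_mul]
  rw [QQ_append, QQ, QQ, e, ← mul_assoc (Q A hA m y)]

theorem nt_QsQ (y z : ℕ) :
    (tl A hA).Nt (2 * m) (2 * m) (Q A hA m y * (tl A hA).sh m (Q A hA m z)) := by
  rw [show 2 * m = m + m by ring]
  exact ((nt_Q A hA h1 m y).ext m).mul ((nt_Q A hA h1 m z).sh m)

/-- Letters on the right of `u`. -/
theorem sh_mul_QQ (u : List ℕ) (T Y : RR) :
    (tl A hA).sh (m * u.length) T * (QQ A hA m u * (tl A hA).sh (m * u.length) Y) =
      QQ A hA m u * (tl A hA).sh (m * u.length) (T * Y) := by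
  rw [← mul_assoc, ← (nt_QQ A hA m h1 u).loc T, mul_assoc, ← map_mul]

theorem cup_QQ (u v : List ℕ) : (tl A hA).evL m (Kind.cup, u.length) * QQ A hA m (u ++ v) =
    ∑ y ∈ chans m, QQ A hA m (u ++ y :: y :: v) * (tl A hA).evL m (Kind.cup, u.length) := by
  have e1 : ∀ y ∈ chans m, Q A hA m y * (tl A hA).sh m (Q A hA m y) * (tl A hA).U m =
      Q A hA m y * (tl A hA).U m := by
    intro y hy
    rw [mul_assoc, ← Q_U A hA h1, ← mul_assoc, Q_mul_self A hA h1 m y hy]
  have e2 : (tl A hA).U m * QQ A hA m v = (tl A hA).sh (2 * m) (QQ A hA m v) * (tl A hA).U m :=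
    ((tl A hA).nt_U m).loc _
  have e3 : ∀ y ∈ chans m, QQ A hA m (u ++ y :: y :: v) * (tl A hA).evL m (Kind.cup, u.length) =
      QQ A hA m u * (tl A hA).sh (m * u.length)
        ((tl A hA).sh (2 * m) (QQ A hA m v) * (Q A hA m y * (tl A hA).U m)) := by
    intro y hy
    rw [QQ_two A hA m h1, TLData.evL, TLData.blk, mul_assoc, ← map_mul,
      (nt_QsQ A hA m h1 y y).loc, mul_assoc, e1 y hy]
  rw [sum_congr rfl e3, ← mul_sum, ← map_sum, ← mul_sum, ← sum_mul, sum_Q A hA h1, one_mul,
    ← e2, QQ_append, TLData.evL, TLData.blk, sh_mul_QQ A hA m h1]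

theorem cap_QQ_ne {u v : List ℕ} {y z : ℕ} (hy : y ∈ chans m) (hz : z ∈ chans m) (h : y ≠ z) :
    (tl A hA).evL m (Kind.cap, u.length) * QQ A hA m (u ++ y :: z :: v) = 0 := by
  rw [QQ_two A hA m h1, TLData.evL, TLData.blk, sh_mul_QQ A hA m h1, ← mul_assoc, ← mul_assoc,
    N_Q A hA h1, mul_assoc ((tl A hA).N m), ← map_mul, Q_mul_Q A hA h1 m y z hy hz h, map_zero,
    mul_zero, zero_mul, map_zero, mul_zero]

theorem QQ_split {u v : List ℕ} (hu : ∀ x ∈ u, x ∈ chans m) (hv : ∀ x ∈ v, x ∈ chans m)
    (Z : RR) : QQ A hA m (u ++ v) * (QQ A hA m u * (tl A hA).sh (m * u.length)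
      (QQ A hA m v * Z)) = QQ A hA m u * (tl A hA).sh (m * u.length) (QQ A hA m v * Z) := by
  rw [QQ_append, mul_assoc (QQ A hA m u), sh_mul_QQ A hA m h1, ← mul_assoc (QQ A hA m v)
    (QQ A hA m v), QQ_mul_self A hA m h1 hv, ← mul_assoc, QQ_mul_self A hA m h1 hu]

theorem cap_QQ {u v : List ℕ} {y : ℕ} (hu : ∀ x ∈ u, x ∈ chans m) (hv : ∀ x ∈ v, x ∈ chans m) :
    (tl A hA).evL m (Kind.cap, u.length) * QQ A hA m (u ++ y :: y :: v) =
      QQ A hA m (u ++ v) * ((tl A hA).evL m (Kind.cap, u.length) *
        QQ A hA m (u ++ y :: y :: v)) := by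
  have e2 : (tl A hA).N m * (Q A hA m y * (tl A hA).sh m (Q A hA m y) *
      (tl A hA).sh (2 * m) (QQ A hA m v)) = QQ A hA m v * ((tl A hA).N m *
        (Q A hA m y * (tl A hA).sh m (Q A hA m y))) := by
    rw [(nt_QsQ A hA m h1 y y).loc, ← mul_assoc, ((tl A hA).nt_N m).loc, mul_assoc]
    rfl
  rw [QQ_two A hA m h1, TLData.evL, TLData.blk, sh_mul_QQ A hA m h1, e2,
    QQ_split A hA m h1 hu hv]

theorem pos_QQ {u v : List ℕ} {y z : ℕ} :
    (tl A hA).evL m (Kind.pos, u.length) * QQ A hA m (u ++ y :: z :: v) =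
      QQ A hA m (u ++ z :: y :: v) * (tl A hA).evL m (Kind.pos, u.length) := by
  have e1 : (tl A hA).X m m * (Q A hA m y * (tl A hA).sh m (Q A hA m z)) =
      Q A hA m z * (tl A hA).sh m (Q A hA m y) * (tl A hA).X m m := by
    rw [← mul_assoc, (nt_Q A hA h1 m y).left, mul_assoc, (nt_Q A hA h1 m z).right, ← mul_assoc,
      (nt_Q A hA h1 m z).loc]
  have e2 : (tl A hA).X m m * (tl A hA).sh (2 * m) (QQ A hA m v) =
      (tl A hA).sh (2 * m) (QQ A hA m v) * (tl A hA).X m m := by
    have := ((tl A hA).nt_X m m).loc (QQ A hA m v)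
    rwa [← two_mul] at this
  have e3 : (tl A hA).evL m (Kind.pos, u.length) =
      (tl A hA).sh (m * u.length) ((tl A hA).X m m) := rfl
  rw [QQ_two A hA m h1, QQ_two A hA m h1, e3, sh_mul_QQ A hA m h1, mul_assoc (QQ A hA m u),
    ← map_mul, ← mul_assoc ((tl A hA).X m m), e1, mul_assoc, e2, ← mul_assoc]

theorem pos_QQ_bd {u v : List ℕ} {j : ℕ} (hj : j ∈ chans m) (hu : ∀ x ∈ u, x ∈ chans m)
    (hv : ∀ x ∈ v, x ∈ chans m) (a : ℕ) (ha : m * (u ++ j :: j :: v).length ≤ a) :
    Bd a a ((tl A hA).evL m (Kind.pos, u.length) * QQ A hA m (u ++ j :: j :: v))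
      (A ^ (2 * j ^ 2)) := by
  have hJ : ∀ x ∈ u ++ j :: j :: v, x ∈ chans m := by
    intro x hx
    simp only [List.mem_append, List.mem_cons] at hx
    rcases hx with h | h | h | h
    · exact hu x h
    · exact h ▸ hj
    · exact h ▸ hj
    · exact hv x h
  have hP : Q A hA m j * (tl A hA).sh m (Q A hA m j) *
      (Q A hA m j * (tl A hA).sh m (Q A hA m j)) =
      Q A hA m j * (tl A hA).sh m (Q A hA m j) := by
    have := QQ_mul_self A hA m h1 (J := [j, j]) (by simpa using hj)
    simpa [QQ] using this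
  have e : (tl A hA).evL m (Kind.pos, u.length) * QQ A hA m (u ++ j :: j :: v) =
      (tl A hA).sh (m * u.length) ((tl A hA).X m m * (Q A hA m j *
        (tl A hA).sh m (Q A hA m j))) * QQ A hA m (u ++ j :: j :: v) := by
    rw [QQ_two A hA m h1, sh_mul_QQ A hA m h1, TLData.evL, TLData.blk, sh_mul_QQ A hA m h1]
    congr 2
    rw [mul_assoc ((tl A hA).X m m), ← mul_assoc (Q A hA m j * (tl A hA).sh m (Q A hA m j)), hP]
  rw [e]
  have hl : m * (u ++ j :: j :: v).length = m * u.length + 2 * m + m * v.length := by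
    simp
    ring
  have b1 := bd_X_Q A hA h1 m j a (m * u.length) hj (by omega)
  have b2 := bd_QQ A hA m h1 hJ a ha
  have b3 := Bd.mul (by positivity) b1 b2
  rwa [mul_one] at b3

/-! ### The induction -/

/-- If the labels `J` do not fit, the value is zero. -/
theorem vanish {w : Word} {a b : ℕ} (h : Len w a b) (hn : NoNeg w) :
    ∀ J : List ℕ, J.length = a → (∀ y ∈ J, y ∈ chans m) → (∀ L, ¬ Run w (J :: L)) →
      (tl A hA).ev m w * QQ A hA m J = 0 := by
  induction h with
  | nil a =>
    intro J _ _ hno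
    exact absurd (Run.nil J) (hno [])
  | @cup w i a b hi hw ih =>
    intro J hJ hc hno
    obtain ⟨u, v, rfl, rfl⟩ := split_le hJ hi
    have hn' : NoNeg w := fun x hx => hn x (List.mem_cons_of_mem _ hx)
    rw [ev_cons, mul_assoc, cup_QQ A hA m h1, mul_sum]
    refine sum_eq_zero fun y hy => ?_
    rw [← mul_assoc, ih hn' (u ++ y :: y :: v) (by
      rw [← hJ]
      simp
      omega) ?_ ?_, zero_mul]
    · intro x hx
      simp only [List.mem_append, List.mem_cons] at hx hc
      rcases hx with hx | hx | hx | hx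
      · exact hc x (Or.inl hx)
      · exact hx ▸ hy
      · exact hx ▸ hy
      · exact hc x (Or.inr hx)
    · intro L hL
      exact hno _ (Run.cons (Step.cup u v y) hL)
  | @cap w i a b hi hw ih =>
    intro J hJ hc hno
    obtain ⟨u, v, y, z, rfl, rfl⟩ := split_two hJ hi
    have hn' : NoNeg w := fun x hx => hn x (List.mem_cons_of_mem _ hx)
    simp only [List.mem_append, List.mem_cons] at hc
    rw [ev_cons, mul_assoc]
    by_cases hyz : y = z
    · subst hyz
      rw [cap_QQ A hA m h1 (fun x hx => hc x (Or.inl hx))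
        (fun x hx => hc x (Or.inr (Or.inr (Or.inr hx)))), ← mul_assoc,
        ih hn' (u ++ v) (by
          simp only [List.length_append, List.length_cons] at hJ ⊢
          omega) ?_ ?_, zero_mul]
      · intro x hx
        rw [List.mem_append] at hx
        rcases hx with hx | hx
        · exact hc x (Or.inl hx)
        · exact hc x (Or.inr (Or.inr (Or.inr hx)))
      · intro L hL
        exact hno _ (Run.cons (Step.cap u v y) hL)
    · rw [cap_QQ_ne A hA m h1 (hc y (by simp)) (hc z (by simp)) hyz, mul_zero]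
  | @pos w i a b hi hw ih =>
    intro J hJ hc hno
    obtain ⟨u, v, y, z, rfl, rfl⟩ := split_two hJ hi
    have hn' : NoNeg w := fun x hx => hn x (List.mem_cons_of_mem _ hx)
    rw [ev_cons, mul_assoc, pos_QQ A hA m h1, ← mul_assoc, ih hn' (u ++ z :: y :: v) (by
      rw [← hJ]
      simp) ?_ ?_, zero_mul]
    · intro x hx
      simp only [List.mem_append, List.mem_cons] at hx hc
      exact hc x (by tauto)
    · intro L hL
      exact hno _ (Run.cons (Step.pos u v y z) hL)
  | @neg w i a b hi hw ih =>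
    intro J _ _ _
    exact absurd rfl (hn (Kind.neg, i) (by simp))

theorem bd_run {j : ℕ} (hj : j ∈ chans m) {w : Word} {a b : ℕ} (h : Len w a b) (hn : NoNeg w) :
    ∀ J : List ℕ, J.length = a → (∀ y ∈ J, y ∈ chans m) →
      (∀ L, Run w (J :: L) → ∀ ℓ ∈ J :: L, ∀ y ∈ ℓ, y = j) →
      Bd (m * a) (m * b) ((tl A hA).ev m w * QQ A hA m J)
        (A ^ (2 * j ^ 2 * crossings w) * (A ^ 2 + (A⁻¹) ^ 2) ^ (m * extrema w)) := by
  have hA0 : 0 < A := by linarith
  induction h with
  | nil a =>
    intro J hJ hc _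
    rw [crossings_nil, extrema_nil, Nat.mul_zero, Nat.mul_zero, pow_zero, pow_zero, mul_one]
    have e : (tl A hA).ev m [] * QQ A hA m J = QQ A hA m J := one_mul _
    rw [e]
    exact bd_QQ A hA m h1 hc _ (by rw [hJ])
  | @cup w i a b hi hw ih =>
    intro J hJ hc hall
    obtain ⟨u, v, rfl, rfl⟩ := split_le hJ hi
    have hn' : NoNeg w := fun x hx => hn x (List.mem_cons_of_mem _ hx)
    have hc' : ∀ y ∈ chans m, ∀ x ∈ u ++ y :: y :: v, x ∈ chans m := by
      intro y hy x hx
      simp only [List.mem_append, List.mem_cons] at hx hc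
      rcases hx with hx | hx | hx | hx
      · exact hc x (Or.inl hx)
      · exact hx ▸ hy
      · exact hx ▸ hy
      · exact hc x (Or.inr hx)
    have hl : ∀ y, (u ++ y :: y :: v).length = a + 2 := by
      intro y
      rw [← hJ]
      simp
      omega
    have e : (tl A hA).ev m ((Kind.cup, u.length) :: w) * QQ A hA m (u ++ v) =
        (tl A hA).ev m w * QQ A hA m (u ++ j :: j :: v) *
          (tl A hA).sh (m * u.length) ((tl A hA).U m) := by
      rw [ev_cons, mul_assoc, cup_QQ A hA m h1, mul_sum, sum_eq_single j]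
      · rw [← mul_assoc]
        rfl
      · intro y hy hyj
        rw [← mul_assoc, vanish A hA m h1 hw hn' (u ++ y :: y :: v) (hl y) (hc' y hy) ?_, zero_mul]
        intro L hL
        exact hyj (hall _ (Run.cons (Step.cup u v y) hL) (u ++ y :: y :: v) (by simp) y (by simp))
      · intro h'
        exact absurd hj h'
    have b1 := ih hn' (u ++ j :: j :: v) (hl j) (hc' j hj) (fun L hL ℓ hℓ =>
      hall _ (Run.cons (Step.cup u v j) hL) ℓ (List.mem_cons_of_mem _ hℓ))
    have b2 := bd_U A hA h1.le m (m * a) (m * u.length) (Nat.mul_le_mul_left m hi)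
    rw [show m * a + 2 * m = m * (a + 2) by ring] at b2
    have b3 := Bd.mul (by positivity) b1 b2
    rw [e]
    have e1 : crossings ((Kind.cup, u.length) :: w) = crossings w := by
      simp [crossings]
    have e2 : extrema ((Kind.cup, u.length) :: w) = extrema w + 1 := by
      simp [extrema]
    rw [e1, e2, show m * (extrema w + 1) = m * extrema w + m by ring, pow_add, ← mul_assoc]
    exact b3
  | @cap w i a b hi hw ih =>
    intro J hJ hc hall
    obtain ⟨u, v, y, z, rfl, rfl⟩ := split_two hJ hi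
    have hn' : NoNeg w := fun x hx => hn x (List.mem_cons_of_mem _ hx)
    have hc0 := hc
    simp only [List.mem_append, List.mem_cons] at hc
    by_cases hyz : y = z
    · subst hyz
      have e : (tl A hA).ev m ((Kind.cap, u.length) :: w) * QQ A hA m (u ++ y :: y :: v) =
          (tl A hA).ev m w * QQ A hA m (u ++ v) *
            ((tl A hA).sh (m * u.length) ((tl A hA).N m) * QQ A hA m (u ++ y :: y :: v)) := by
        rw [ev_cons, mul_assoc, cap_QQ A hA m h1 (fun x hx => hc x (Or.inl hx))
          (fun x hx => hc x (Or.inr (Or.inr (Or.inr hx)))), ← mul_assoc]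
        rfl
      have hl : (u ++ v).length = a := by
        simp only [List.length_append, List.length_cons] at hJ ⊢
        omega
      have b1 := ih hn' (u ++ v) hl (by
        intro x hx
        rw [List.mem_append] at hx
        rcases hx with hx | hx
        · exact hc x (Or.inl hx)
        · exact hc x (Or.inr (Or.inr (Or.inr hx)))) (fun L hL ℓ hℓ =>
        hall _ (Run.cons (Step.cap u v y) hL) ℓ (List.mem_cons_of_mem _ hℓ))
      have b2 := bd_N A hA h1.le m (m * a) (m * u.length) (Nat.mul_le_mul_left m hi)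
      rw [show m * a + 2 * m = m * (a + 2) by ring] at b2
      have b3 := bd_QQ A hA m h1 hc0 (m * (a + 2)) (by rw [hJ])
      have b4 := Bd.mul (by positivity) b1 (Bd.mul (by positivity) b2 b3)
      rw [e]
      have e1 : crossings ((Kind.cap, u.length) :: w) = crossings w := by
        simp [crossings]
      have e2 : extrema ((Kind.cap, u.length) :: w) = extrema w + 1 := by
        simp [extrema]
      rw [e1, e2, show m * (extrema w + 1) = m * extrema w + m by ring, pow_add,
        ← mul_assoc (A ^ (2 * j ^ 2 * crossings w))]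
      rw [mul_one] at b4
      exact b4
    · rw [ev_cons, mul_assoc, cap_QQ_ne A hA m h1 (hc y (by simp)) (hc z (by simp)) hyz, mul_zero]
      exact bd_zero _ _ (by positivity)
  | @pos w i a b hi hw ih =>
    intro J hJ hc hall
    have hn' : NoNeg w := fun x hx => hn x (List.mem_cons_of_mem _ hx)
    by_cases hex : ∃ L, Run ((Kind.pos, i) :: w) (J :: L)
    · obtain ⟨L, hL⟩ := hex
      obtain ⟨u, v, y, z, rfl, rfl⟩ := split_two hJ hi
      have hy : y = j := hall L hL (u ++ y :: z :: v) (by simp) y (by simp)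
      have hz : z = j := hall L hL (u ++ y :: z :: v) (by simp) z (by simp)
      subst hy
      subst hz
      have hc' := hc
      simp only [List.mem_append, List.mem_cons] at hc'
      have e : (tl A hA).ev m ((Kind.pos, u.length) :: w) * QQ A hA m (u ++ z :: z :: v) =
          (tl A hA).ev m w * QQ A hA m (u ++ z :: z :: v) *
            ((tl A hA).evL m (Kind.pos, u.length) * QQ A hA m (u ++ z :: z :: v)) := by
        rw [ev_cons, mul_assoc, mul_assoc, ← mul_assoc (QQ A hA m (u ++ z :: z :: v)),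
          ← pos_QQ A hA m h1, mul_assoc ((tl A hA).evL m (Kind.pos, u.length)),
          QQ_mul_self A hA m h1 hc]
      have b1 := ih hn' (u ++ z :: z :: v) hJ hc (fun L hL ℓ hℓ =>
        hall _ (Run.cons (Step.pos u v z z) hL) ℓ (List.mem_cons_of_mem _ hℓ))
      have b2 := pos_QQ_bd A hA m h1 (u := u) (v := v) hj
        (fun x hx => hc' x (Or.inl hx)) (fun x hx => hc' x (Or.inr (Or.inr (Or.inr hx))))
        (m * (a + 2)) (by rw [hJ])
      have b3 := Bd.mul (by positivity) b1 b2
      rw [e]
      have e1 : crossings ((Kind.pos, u.length) :: w) = crossings w + 1 := by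
        simp [crossings]
      have e2 : extrema ((Kind.pos, u.length) :: w) = extrema w := by
        simp [extrema]
      rw [e1, e2, show 2 * z ^ 2 * (crossings w + 1) = 2 * z ^ 2 * crossings w + 2 * z ^ 2 by ring,
        pow_add, mul_right_comm]
      exact b3
    · rw [vanish A hA m h1 (Len.pos hi hw) hn J hJ hc (fun L hL => hex ⟨L, hL⟩)]
      exact bd_zero _ _ (by positivity)
  | @neg w i a b hi hw ih =>
    intro J _ _ _
    exact absurd rfl (hn (Kind.neg, i) (by simp))

end

/-- MAIN RESULT of this file. -/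
theorem bd_ev_Q (A : ℝ) (hA : A ≠ 0) (h1 : 1 < A) (m j : ℕ) (hj : j ∈ chans m) {w : Word}
    (hw : IsKnot w) (hn : NoNeg w) :
    Bd m m ((tl A hA).ev m w * Q A hA m j)
      (A ^ (2 * j ^ 2 * crossings w) * (A ^ 2 + (A⁻¹) ^ 2) ^ (m * extrema w)) := by
  have h := bd_run A hA m h1 hj hw.1.len hn [j] rfl (by simpa using hj)
    (fun L hL ℓ hℓ y hy => hw.2 ℕ j L hL ℓ hℓ y hy)
  have e : QQ A hA m [j] = Q A hA m j := by
    rw [QQ, QQ, map_one, mul_one]
  rw [e, Nat.mul_one] at h
  exact h

end Pool.Agent.HTW
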