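import Pool.Agent.HTW.Defs

/-!
# The clasp with twists: adequacy (helper43)
-/

namespace Pool.Agent.HTW

/-- the clasp, with two positive crossings -/
def clasp : Word := [(.cup, 1), (.pos, 0), (.pos, 2), (.cap, 1)]

theorem aRun_append {α : Type} {a b : Word} {s t u : List α} (h : ARun a s t) (h' : ARun b t u) :
    ARun (a ++ b) s u := by
  induction h with
  | nil => exact h'
  | cons hx _ ih => exact ARun.cons hx (ih h')

theorem aRun_pos {α : Type} (x y : α) (v : List α) (j : ℕ) :
    ARun (List.replicate j (Kind.pos, 0)) (x :: y :: v) (x :: y :: v) := by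
  induction j with
  | zero => exact ARun.nil _
  | succ j ih => exact ARun.cons (AStep.pos [] v x y) ih

theorem aRun_clasp {α : Type} (x y z : α) : ARun clasp [x, z] [x, z] :=
  ARun.cons (AStep.cup [x] [z] y) (ARun.cons (AStep.pos [] [y, z] x y)
    (ARun.cons (AStep.pos [x, y] [] y z) (ARun.cons (AStep.cap [x] [z] y) (ARun.nil _))))

theorem crossing_split {j : ℕ} {a b : Word} {x : Letter}
    (h : clasp ++ List.replicate j (Kind.pos, 0) = a ++ x :: b)
    (hx : x.1 = Kind.pos ∨ x.1 = Kind.neg) :
    (a = [(.cup, 1)] ∧ x = (.pos, 0) ∧ b = [(.pos, 2), (.cap, 1)] ++ List.replicate j (.pos, 0)) ∨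
    (a = [(.cup, 1), (.pos, 0)] ∧ x = (.pos, 2) ∧ b = [(.cap, 1)] ++ List.replicate j (.pos, 0)) ∨
    (∃ k l, a = clasp ++ List.replicate k (.pos, 0) ∧ x = (.pos, 0) ∧
      b = List.replicate l (.pos, 0)) := by
  match a, h with
  | [], h =>
    simp only [clasp, List.cons_append, List.nil_append, List.cons.injEq] at h
    rw [← h.1] at hx
    simp at hx
  | [a1], h =>
    simp only [clasp, List.cons_append, List.nil_append, List.cons.injEq] at h
    left
    exact ⟨by rw [h.1], h.2.1.symm, h.2.2.symm⟩
  | [a1, a2], h =>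
    simp only [clasp, List.cons_append, List.nil_append, List.cons.injEq] at h
    right; left
    exact ⟨by rw [h.1, h.2.1], h.2.2.1.symm, h.2.2.2.symm⟩
  | [a1, a2, a3], h =>
    simp only [clasp, List.cons_append, List.nil_append, List.cons.injEq] at h
    rw [← h.2.2.2.1] at hx
    simp at hx
  | a1 :: a2 :: a3 :: a4 :: c, h =>
    simp only [clasp, List.cons_append, List.nil_append, List.cons.injEq] at h
    obtain ⟨h1, h2, h3, h4, h5⟩ := h
    right; right
    have h6 := congrArg List.length h5
    have hall : ∀ z ∈ c ++ x :: b, z = ((Kind.pos, 0) : Letter) := fun z hz =>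
      List.eq_of_mem_replicate (h5 ▸ hz)
    refine ⟨c.length, b.length, ?_, hall x (by simp), ?_⟩
    · rw [← h1, ← h2, ← h3, ← h4]
      simp only [clasp, List.cons_append, List.nil_append, List.cons.injEq, true_and]
      exact List.eq_replicate_iff.mpr ⟨rfl, fun z hz => hall z (by simp [hz])⟩
    · exact List.eq_replicate_iff.mpr ⟨rfl, fun z hz => hall z (by simp [hz])⟩

/-- The clasp followed by `j` positive crossings is A-adequate. -/
theorem aAdequate_clasp (j : ℕ) : AAdequate 2 (clasp ++ List.replicate j (Kind.pos, 0)) := by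
  refine ⟨aRun_append (aRun_clasp 0 0 1) (aRun_pos 0 1 [] j), ?_⟩
  intro a b x hw hx
  rcases crossing_split hw hx with ⟨rfl, rfl, rfl⟩ | ⟨rfl, rfl, rfl⟩ | ⟨k, l, rfl, rfl, rfl⟩
  · refine ⟨[true, true], [true, false, false, true], [true, false, false, true], rfl,
      ARun.cons (AStep.cup [true] [true] false) (ARun.nil _), AStep.pos [] [false, true] true false,
      ?_, by simp⟩
    exact ARun.cons (AStep.pos [true, false] [] false true)
      (ARun.cons (AStep.cap [true] [true] false) (aRun_pos _ _ _ j))
  · refine ⟨[true, true], [true, false, false, true], [true, false, false, true], rfl,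
      ARun.cons (AStep.cup [true] [true] false) (ARun.cons (AStep.pos [] [false, true] true false)
        (ARun.nil _)), AStep.pos [true, false] [] false true, ?_, by simp⟩
    exact ARun.cons (AStep.cap [true] [true] false) (aRun_pos _ _ _ j)
  · refine ⟨[true, false], [true, false], [true, false], rfl,
      aRun_append (aRun_clasp true true false) (aRun_pos _ _ _ k), AStep.pos [] [] true false,
      aRun_pos _ _ _ l, by simp⟩

theorem run_pos {α : Type} (x y : α) (k : Kind) (hk : k = .pos ∨ k = .neg) (j : ℕ) :
    ∃ K : List (List α), Run (List.replicate j (k, 0)) K ∧ K.head? = some [x, y] ∧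
      (K.getLast? = some [x, y] ∨ K.getLast? = some [y, x]) := by
  induction j generalizing x y with
  | zero => exact ⟨[[x, y]], Run.nil _, rfl, Or.inl rfl⟩
  | succ j ih =>
    obtain ⟨K, hK, hh, hl⟩ := ih y x
    cases K with
    | nil => simp at hh
    | cons l K =>
      simp only [List.head?_cons, Option.some.injEq] at hh
      subst hh
      refine ⟨[x, y] :: [y, x] :: K, Run.cons ?_ hK, rfl, ?_⟩
      · rcases hk with rfl | rfl
        · exact Step.pos [] [] x y
        · exact Step.neg [] [] x y
      · rw [List.getLast?_cons_cons]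
        exact hl.symm

/-- any word with the letters of the clasp (with arbitrary crossings), followed by `j` crossings,
is a tangle on two strands -/
theorem uRun_clasp' (k1 k2 k : Kind) (h1 : k1 = .pos ∨ k1 = .neg) (h2 : k2 = .pos ∨ k2 = .neg)
    (h : k = .pos ∨ k = .neg) (j : ℕ) :
    URun 2 2 ([(Kind.cup, 1), (k1, 0), (k2, 2), (Kind.cap, 1)] ++ List.replicate j (k, 0)) := by
  obtain ⟨K, hK, hh, hl⟩ := run_pos () () k h j
  cases K with
  | nil => simp at hh
  | cons l K =>
    simp only [List.head?_cons, Option.some.injEq] at hh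
    subst hh
    refine ⟨[(), ()] :: [(), (), (), ()] :: [(), (), (), ()] :: [(), (), (), ()] :: [(), ()] :: K,
      ?_, rfl, ?_⟩
    · refine Run.cons (Step.cup [()] [()] ()) (Run.cons ?_ (Run.cons ?_
        (Run.cons (Step.cap [()] [()] ()) hK)))
      · rcases h1 with rfl | rfl
        · exact Step.pos [] [(), ()] () ()
        · exact Step.neg [] [(), ()] () ()
      · rcases h2 with rfl | rfl
        · exact Step.pos [(), ()] [] () ()
        · exact Step.neg [(), ()] [] () ()
    · rw [List.getLast?_cons_cons, List.getLast?_cons_cons, List.getLast?_cons_cons,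
        List.getLast?_cons_cons]
      rcases hl with hl | hl <;> rw [hl] <;> rfl

theorem uRun_clasp (j : ℕ) : URun 2 2 (clasp ++ List.replicate j (Kind.pos, 0)) :=
  uRun_clasp' _ _ _ (Or.inl rfl) (Or.inl rfl) (Or.inl rfl) j

theorem uRun_clasp_neg (j : ℕ) : URun 2 2 (clasp ++ List.replicate j (Kind.neg, 0)) :=
  uRun_clasp' _ _ _ (Or.inl rfl) (Or.inl rfl) (Or.inr rfl) j

/-- the mirror images -/
theorem uRun_mirror_clasp (j : ℕ) : URun 2 2 (mirror clasp ++ List.replicate j (Kind.pos, 0)) :=
  uRun_clasp' _ _ _ (Or.inr rfl) (Or.inr rfl) (Or.inl rfl) j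

theorem uRun_mirror_clasp_neg (j : ℕ) :
    URun 2 2 (mirror clasp ++ List.replicate j (Kind.neg, 0)) :=
  uRun_clasp' _ _ _ (Or.inr rfl) (Or.inr rfl) (Or.inr rfl) j

end Pool.Agent.HTW
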