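import Pool.Agent.HTW.Cvec

/-!
# Closing strands

The value of the satellite word is a quantum trace over the closed strands.
-/

namespace Pool.Agent.HTW

open Finset

/-- The vector given by a list of signs. -/
noncomputable def vec (α : List Bool) : Hf :=
  fun s => if ∀ k (hk : k < α.length), s k = α[k] then 1 else 0

/-- The sequence which starts with the list `α` and continues with `+`. -/
def strm (α : List Bool) : ℕ → Bool := fun k => α.getD k true

/-- The sum of the signs. -/
def sgn : List Bool → ℤ
  | [] => 0
  | x :: α => (if x then 1 else -1) + sgn α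

theorem vec_eq (α : List Bool) : vec α = cvec α := by
  induction α with
  | nil =>
    funext s
    simp [vec, cvec]
  | cons x α ih =>
    funext s
    show vec (x :: α) s = if s 0 = x then cvec α (stail s) else 0
    rw [← ih]
    unfold vec stail
    by_cases h : s 0 = x
    · rw [if_pos h]
      congr 1
      apply propext
      constructor
      · intro h1 k hk
        have := h1 (k + 1) (by simpa using hk)
        simpa using this
      · intro h1 k hk
        cases k with
        | zero => simpa using h
        | succ k =>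
          have := h1 k (by simpa using hk)
          simpa using this
    · rw [if_neg h, if_neg]
      intro h1
      exact h (h1 0 (by simp))

/-- Put a list in front of a sequence. -/
def pre : List Bool → (ℕ → Bool) → (ℕ → Bool)
  | [], t => t
  | x :: α, t => scons x (pre α t)

theorem strm_eq (α : List Bool) : strm α = pre α tt := by
  induction α with
  | nil =>
    funext k
    simp [strm, pre, tt]
  | cons x α ih =>
    funext k
    cases k with
    | zero => simp [strm, pre, scons]
    | succ k =>
      show (x :: α).getD (k + 1) true = pre α tt k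
      rw [← ih]
      simp [strm]

theorem pre_append (α β : List Bool) (t : ℕ → Bool) : pre (α ++ β) t = pre α (pre β t) := by
  induction α with
  | nil => rfl
  | cons x α ih =>
    show scons x (pre (α ++ β) t) = scons x (pre α (pre β t))
    rw [ih]

/-- The sequences agree on the first entries. -/
theorem pre_agree (α : List Bool) (t t' : ℕ → Bool) : ∀ k < α.length, pre α t k = pre α t' k := by
  induction α with
  | nil =>
    intro k hk
    simp at hk
  | cons x α ih =>
    intro k hk
    cases k with
    | zero => rfl
    | succ k =>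
      show pre α t k = pre α t' k
      exact ih k (by simpa using hk)

theorem sh_pre (A : ℝ) (hA : A ≠ 0) (Y : RR) (α : List Bool) (g : Hf) (t : ℕ → Bool) :
    ((tl A hA).sh α.length Y) g (pre α t) = Y (fun t' => g (pre α t')) t := by
  induction α generalizing g with
  | nil => rfl
  | cons x α ih =>
    show ((tl A hA).sh α.length Y) (fun s' => g (scons x s')) (pre α t) = _
    rw [ih]
    rfl

/-- Drop the first entries. -/
def sdrop (k : ℕ) (s : ℕ → Bool) : ℕ → Bool := fun j => s (j + k)

theorem sdrop_stail (k : ℕ) (s : ℕ → Bool) : sdrop k (stail s) = sdrop (k + 1) s := by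
  funext j
  show s (j + k + 1) = s (j + (k + 1))
  rfl

theorem sdrop_pre (α : List Bool) (t : ℕ → Bool) : sdrop α.length (pre α t) = t := by
  induction α with
  | nil => rfl
  | cons x α ih =>
    show sdrop (α.length + 1) (scons x (pre α t)) = t
    rw [← sdrop_stail]
    exact ih

theorem cvec_append (α β : List Bool) (s : ℕ → Bool) :
    cvec (α ++ β) s = cvec α s * cvec β (sdrop α.length s) := by
  induction α generalizing s with
  | nil =>
    show cvec β s = 1 * cvec β s
    rw [one_mul]
  | cons x α ih =>
    show (if s 0 = x then cvec (α ++ β) (stail s) else 0) =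
      (if s 0 = x then cvec α (stail s) else 0) * cvec β (sdrop (α.length + 1) s)
    rw [ih, sdrop_stail]
    split_ifs <;> simp

/-- Operators on the strands after the first ones. -/
theorem sh_cvec (A : ℝ) (hA : A ≠ 0) (Y : RR) (α β : List Bool) (s : ℕ → Bool) :
    ((tl A hA).sh α.length Y) (cvec (α ++ β)) s =
      cvec α s * Y (cvec β) (sdrop α.length s) := by
  induction α generalizing s with
  | nil =>
    show Y (cvec β) s = 1 * Y (cvec β) s
    rw [one_mul]
  | cons x α ih =>
    show ((tl A hA).sh α.length Y) (fun s' => cvec (x :: (α ++ β)) (scons (s 0) s')) (stail s) =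
      (if s 0 = x then cvec α (stail s) else 0) * Y (cvec β) (sdrop (α.length + 1) s)
    by_cases h : s 0 = x
    · have e1 : (fun s' => cvec (x :: (α ++ β)) (scons (s 0) s')) = cvec (α ++ β) := by
        funext s'
        show (if s 0 = x then cvec (α ++ β) s' else 0) = _
        rw [if_pos h]
      rw [e1, ih, if_pos h, sdrop_stail]
    · have e1 : (fun s' => cvec (x :: (α ++ β)) (scons (s 0) s')) = (0 : Hf) := by
        funext s'
        show (if s 0 = x then cvec (α ++ β) s' else 0) = _
        rw [if_neg h]
        rfl
      rw [e1, map_zero, if_neg h, zero_mul]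
      rfl

/-- Multiplication by a function. -/
noncomputable def mulEnd (g : Hf) : RR where
  toFun f := g * f
  map_add' := mul_add g
  map_smul' := by
    intro c f
    simp

theorem sh_mulEnd (A : ℝ) (hA : A ≠ 0) (g : Hf) (k : ℕ) (f : Hf) (s : ℕ → Bool) :
    ((tl A hA).sh k (mulEnd g)) f s = g (sdrop k s) * f s := by
  induction k generalizing f s with
  | zero => rfl
  | succ k ih =>
    show ((tl A hA).sh k (mulEnd g)) (fun s' => f (scons (s 0) s')) (stail s) = _
    rw [ih, sdrop_stail]
    congr 2
    funext j
    cases j <;> rfl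

/-- A local operator does not change the later entries. -/
theorem loc_cvec (A : ℝ) (hA : A ≠ 0) {T : RR} (β γ : List Bool)
    (hT : (tl A hA).Loc β.length β.length T) (s : ℕ → Bool) :
    T (cvec (β ++ γ)) s = cvec γ (sdrop β.length s) * T (cvec β) s := by
  have h1 := hT (mulEnd (cvec γ))
  have h2 : (T * (tl A hA).sh β.length (mulEnd (cvec γ))) (cvec β) s =
      ((tl A hA).sh β.length (mulEnd (cvec γ)) * T) (cvec β) s := by rw [h1]
  rw [Module.End.mul_apply, Module.End.mul_apply, sh_mulEnd] at h2
  rw [← h2]
  have h3 : cvec (β ++ γ) = ((tl A hA).sh β.length (mulEnd (cvec γ))) (cvec β) := by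
    funext s'
    rw [sh_mulEnd, cvec_append, mul_comm]
  rw [h3]

theorem u_cvec (A : ℝ) (hA : A ≠ 0) : (tl A hA).u (cvec []) =
    A • cvec [true, false] + (-A⁻¹) • cvec [false, true] := by
  funext s
  show wt A (s 0) (s 1) * 1 = A * (if s 0 = true then (if s 1 = false then 1 else 0) else 0) +
    (-A⁻¹) * (if s 0 = false then (if s 1 = true then 1 else 0) else 0)
  cases s 0 <;> cases s 1 <;> simp [wt]

theorem dep_cvec (α : List Bool) : Dep α.length (cvec α) := by
  induction α with
  | nil =>
    intro s s' _
    rfl
  | cons x α ih =>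
    intro s s' h
    show (if s 0 = x then cvec α (stail s) else 0) = (if s' 0 = x then cvec α (stail s') else 0)
    rw [h 0 (by simp), ih (stail s) (stail s') (fun k hk => h (k + 1) (by simpa using hk))]

/-- Closing one strand. -/
theorem close_one (A : ℝ) (hA : A ≠ 0) (α : List Bool) {T : RR}
    (hT : (tl A hA).Loc (α.length + 1) (α.length + 1) T) :
    ((tl A hA).sh α.length (tl A hA).n * T * (tl A hA).sh α.length (tl A hA).u) (cvec α)
      (pre α tt) =
      -(A ^ 2 * T (cvec (α ++ [true])) (pre (α ++ [true]) tt) +
        (A⁻¹) ^ 2 * T (cvec (α ++ [false])) (pre (α ++ [false]) tt)) := by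
  have hlen : ∀ x : Bool, (α ++ [x]).length = α.length + 1 := by simp
  have h1 : (tl A hA).sh α.length (tl A hA).u (cvec α) =
      A • cvec (α ++ [true, false]) + (-A⁻¹) • cvec (α ++ [false, true]) := by
    have h2 := sh_cvec A hA (tl A hA).u α []
    rw [List.append_nil] at h2
    funext s
    rw [h2, u_cvec]
    simp only [Pi.add_apply, Pi.smul_apply, smul_eq_mul, cvec_append]
    ring
  have h3 : ∀ x y x' y' : Bool, T (cvec (α ++ [x', y'])) (pre α (scons x (scons y tt))) =
      (if y = y' then 1 else 0) * T (cvec (α ++ [x'])) (pre (α ++ [x]) tt) := by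
    intro x y x' y'
    have h4 := loc_cvec A hA (α ++ [x']) [y'] (T := T) (by rw [hlen]; exact hT)
      (pre α (scons x (scons y tt)))
    have e1 : α ++ [x', y'] = α ++ [x'] ++ [y'] := by simp
    rw [e1, h4]
    congr 1
    · have e2 : pre α (scons x (scons y tt)) = pre (α ++ [x]) (scons y tt) := by
        rw [pre_append]
        rfl
      have e3 : (α ++ [x']).length = (α ++ [x]).length := by simp
      rw [e2, e3, sdrop_pre]
      show (if y = y' then 1 else 0) = _
      rfl
    · have hdep : Dep (α.length + 1) (cvec (α ++ [x'])) := by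
        have := dep_cvec (α ++ [x'])
        rwa [hlen] at this
      have e2 : pre α (scons x (scons y tt)) = pre (α ++ [x]) (scons y tt) := by
        rw [pre_append]
        rfl
      rw [e2]
      exact dep_of_loc A hA hT hdep _ _ (by
        have := pre_agree (α ++ [x]) (scons y tt) tt
        rw [hlen] at this
        exact this)
  rw [Module.End.mul_apply, Module.End.mul_apply, h1, sh_pre]
  show ∑ x : Bool, ∑ y : Bool, -(wt A x y) *
    T (A • cvec (α ++ [true, false]) + (-A⁻¹) • cvec (α ++ [false, true]))
      (pre α (scons x (scons y tt))) = _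
  simp only [map_add, map_smul, Pi.add_apply, Pi.smul_apply, smul_eq_mul, h3]
  simp only [Fintype.sum_bool, wt]
  simp
  ring

/-- Closing one strand gives a local operator. -/
theorem loc_close (A : ℝ) (hA : A ≠ 0) (c : ℕ) {T : RR}
    (hT : (tl A hA).Loc (c + 1) (c + 1) T) :
    (tl A hA).Loc c c ((tl A hA).sh c (tl A hA).n * T * (tl A hA).sh c (tl A hA).u) := by
  intro Y
  have h1 := hT ((tl A hA).S Y)
  rw [TLData.sh_add] at h1
  have e0 : (tl A hA).sh 1 ((tl A hA).S Y) = (tl A hA).S ((tl A hA).S Y) := rfl
  rw [e0] at h1
  have h2 : (tl A hA).sh c ((tl A hA).S ((tl A hA).S Y)) * (tl A hA).sh c (tl A hA).u =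
      (tl A hA).sh c (tl A hA).u * (tl A hA).sh c Y := by
    rw [← map_mul, (tl A hA).SSu, map_mul]
  have h3 : (tl A hA).sh c (tl A hA).n * (tl A hA).sh c ((tl A hA).S ((tl A hA).S Y)) =
      (tl A hA).sh c Y * (tl A hA).sh c (tl A hA).n := by
    rw [← map_mul, (tl A hA).nSS, map_mul]
  rw [mul_assoc, mul_assoc, ← h2, ← mul_assoc T, h1, mul_assoc, ← mul_assoc, h3, mul_assoc,
    mul_assoc]

theorem sgn_append (α : List Bool) (x : Bool) :
    sgn (α ++ [x]) = sgn α + (if x then 1 else -1) := by
  induction α with
  | nil => simp [sgn]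
  | cons y α ih =>
    show (if y then 1 else -1) + sgn (α ++ [x]) = (if y then 1 else -1) + sgn α + _
    rw [ih]
    ring

theorem cvec_replicate' (m : ℕ) : vplus m = cvec (List.replicate m true) :=
  (cvec_replicate m).symm

/-- Closing strands, for any list on the left. -/
theorem close_gen (A : ℝ) (hA : A ≠ 0) (α : List Bool) (k : ℕ) (T : RR)
    (hT : (tl A hA).Loc (α.length + k) (α.length + k) T) :
    ((tl A hA).sh α.length ((tl A hA).N k) * T * (tl A hA).sh α.length ((tl A hA).U k))
      (cvec α) (pre α tt) =
      (-1) ^ k * ∑ ε : Fin k → Bool, A ^ (2 * sgn (List.ofFn ε)) *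
        (T (cvec (α ++ List.ofFn ε))) (pre (α ++ List.ofFn ε) tt) := by
  induction k generalizing T with
  | zero =>
    have e1 : (tl A hA).N 0 = 1 := rfl
    have e2 : (tl A hA).U 0 = 1 := rfl
    rw [e1, e2, map_one, one_mul, mul_one]
    simp [sgn]
  | succ k ih =>
    have hT' : (tl A hA).Loc (α.length + k + 1) (α.length + k + 1) T := hT
    have h1 := ih _ (loc_close A hA (α.length + k) hT')
    have e1 : (tl A hA).sh α.length ((tl A hA).N (k + 1)) * T *
        (tl A hA).sh α.length ((tl A hA).U (k + 1)) =
        (tl A hA).sh α.length ((tl A hA).N k) *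
          ((tl A hA).sh (α.length + k) (tl A hA).n * T *
            (tl A hA).sh (α.length + k) (tl A hA).u) *
          (tl A hA).sh α.length ((tl A hA).U k) := by
      have e2 : (tl A hA).N (k + 1) = (tl A hA).N k * (tl A hA).sh k (tl A hA).n := rfl
      have e3 : (tl A hA).U (k + 1) = (tl A hA).sh k (tl A hA).u * (tl A hA).U k := rfl
      rw [e2, e3, map_mul, map_mul, TLData.sh_add, TLData.sh_add]
      noncomm_ring
    rw [e1, h1]
    have h2 : ∀ ε : Fin k → Bool,
        ((tl A hA).sh (α.length + k) (tl A hA).n * T *
            (tl A hA).sh (α.length + k) (tl A hA).u) (cvec (α ++ List.ofFn ε))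
          (pre (α ++ List.ofFn ε) tt) =
        -(A ^ 2 * T (cvec (α ++ List.ofFn ε ++ [true])) (pre (α ++ List.ofFn ε ++ [true]) tt) +
        (A⁻¹) ^ 2 * T (cvec (α ++ List.ofFn ε ++ [false]))
          (pre (α ++ List.ofFn ε ++ [false]) tt)) := by
      intro ε
      have h3 : (α ++ List.ofFn ε).length = α.length + k := by simp
      have h4 := close_one A hA (α ++ List.ofFn ε) (T := T) (by rw [h3]; exact hT')
      rw [h3] at h4
      exact h4
    simp only [h2]
    have h5 : ∑ ε : Fin (k + 1) → Bool, A ^ (2 * sgn (List.ofFn ε)) *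
        (T (cvec (α ++ List.ofFn ε))) (pre (α ++ List.ofFn ε) tt) =
        ∑ ε : Fin k → Bool, ∑ x : Bool, A ^ (2 * sgn (List.ofFn ε ++ [x])) *
        (T (cvec (α ++ List.ofFn ε ++ [x]))) (pre (α ++ List.ofFn ε ++ [x]) tt) := by
      rw [← (Fin.snocEquiv (fun _ : Fin (k + 1) => Bool)).sum_comp, Fintype.sum_prod_type_right]
      refine Finset.sum_congr rfl fun ε _ => Finset.sum_congr rfl fun x _ => ?_
      have e4 : List.ofFn ((Fin.snocEquiv (fun _ : Fin (k + 1) => Bool)) (x, ε)) =
          List.ofFn ε ++ [x] := by
        rw [List.ofFn_succ', List.concat_eq_append]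
        simp [Fin.snocEquiv]
      rw [e4, List.append_assoc]
    rw [h5, pow_succ (-1 : ℝ) k, mul_assoc]
    congr 1
    rw [neg_one_mul, ← Finset.sum_neg_distrib]
    refine Finset.sum_congr rfl fun ε _ => ?_
    rw [Fintype.sum_bool, sgn_append, sgn_append]
    have e5 : A ^ (2 * (sgn (List.ofFn ε) + (if true then 1 else -1))) =
        A ^ (2 * sgn (List.ofFn ε)) * A ^ 2 := by
      have : (2 * (sgn (List.ofFn ε) + (if true then 1 else -1)) : ℤ) =
        2 * sgn (List.ofFn ε) + 2 := by simp; ring
      rw [this, zpow_add₀ hA]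
      rfl
    have e6 : A ^ (2 * (sgn (List.ofFn ε) + (if false = true then 1 else -1))) =
        A ^ (2 * sgn (List.ofFn ε)) * (A⁻¹) ^ 2 := by
      have : (2 * (sgn (List.ofFn ε) + (if false = true then 1 else -1)) : ℤ) =
        2 * sgn (List.ofFn ε) + (-2) := by simp; ring
      rw [this, zpow_add₀ hA, zpow_neg, inv_pow]
      rfl
    rw [e5, e6]
    ring

/-- MAIN RESULT of this file: closing `k` strands on the right of the first `a` strands. -/
theorem close_eq (A : ℝ) (hA : A ≠ 0) (a k : ℕ) (T : RR)
    (hT : (tl A hA).Loc (a + k) (a + k) T) :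
    ((tl A hA).sh a ((tl A hA).N k) * T * (tl A hA).sh a ((tl A hA).U k)) (vplus a) tt =
      (-1) ^ k * ∑ ε : Fin k → Bool, A ^ (2 * sgn (List.ofFn ε)) *
        (T (vec (List.replicate a true ++ List.ofFn ε)))
          (strm (List.replicate a true ++ List.ofFn ε)) := by
  have h1 := close_gen A hA (List.replicate a true) k T (by
    rw [List.length_replicate]
    exact hT)
  have e1 : ∀ n : ℕ, pre (List.replicate n true) tt = tt := by
    intro n
    induction n with
    | zero => rfl
    | succ n ih =>
      rw [List.replicate_succ]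
      show scons true (pre (List.replicate n true) tt) = tt
      rw [ih]
      funext j
      cases j <;> rfl
  rw [List.length_replicate, cvec_replicate, e1] at h1
  simp only [vec_eq, strm_eq]
  exact h1

end Pool.Agent.HTW
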