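import Pool.Agent.HTW.Words

/-!
# Vectors given by lists of signs
-/

namespace Pool.Agent.HTW

/-- The vector given by a list of signs. -/
noncomputable def cvec : List Bool → Hf
  | [] => fun _ => 1
  | x :: α => fun s => if s 0 = x then cvec α (stail s) else 0

theorem cvec_replicate (m : ℕ) : cvec (List.replicate m true) = vplus m := by
  induction m with
  | zero =>
    funext s
    simp [cvec, vplus]
  | succ m ih =>
    funext s
    rw [List.replicate_succ]
    show (if s 0 = true then cvec (List.replicate m true) (stail s) else 0) = vplus (m + 1) s
    rw [ih]
    unfold vplus stail
    by_cases h : s 0 = true
    · rw [if_pos h]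
      congr 1
      apply propext
      constructor
      · intro h1 k hk
        cases k with
        | zero => exact h
        | succ k => exact h1 k (by omega)
      · intro h1 k hk
        exact h1 (k + 1) (by omega)
    · rw [if_neg h, if_neg]
      intro h1
      exact h (h1 0 (by omega))

end Pool.Agent.HTW
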