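import Mathlib

/-!
# The crossing number of satellites of adequate knots: definitions (problem MP_04f515_gt)

Knots are given by long knot diagrams in Morse position, written as words in elementary
tangles and read from the bottom to the top.  A *letter* `(k, i)` is a cup, a cap or a crossing
with `i` vertical strands to its left.  Two knot words are isotopic if they are related by the
moves of Turaev (planar isotopies, sliding of a crossing through a maximum or a minimum, and
the Reidemeister moves I, II, III).
-/

namespace Pool.Agent.HTW

/-- The kinds of elementary tangles: `cup` (a minimum, creates two strands), `cap` (a maximum,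
joins two strands), and the two crossings of two neighbouring vertical strands. -/
inductive Kind
  | cup | cap | pos | neg
  deriving DecidableEq

/-- Number of strands below the elementary tangle. -/
def Kind.inn : Kind → ℕ
  | .cup => 0
  | .cap => 2
  | .pos => 2
  | .neg => 2

/-- Number of strands above the elementary tangle. -/
def Kind.out : Kind → ℕ
  | .cup => 2
  | .cap => 0
  | .pos => 2
  | .neg => 2

/-- The crossing is changed, cups and caps are kept. -/
def Kind.mirror : Kind → Kind
  | .cup => .cup
  | .cap => .cap
  | .pos => .neg
  | .neg => .pos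

/-- A letter: an elementary tangle with `i` vertical strands to its left (and any number to
its right). -/
abbrev Letter := Kind × ℕ

/-- A word is a diagram in Morse position, read from the bottom to the top. -/
abbrev Word := List Letter

/-- The number of crossings of a diagram. -/
def crossings (w : Word) : ℕ :=
  w.countP (fun x => x.1 = Kind.pos ∨ x.1 = Kind.neg)

/-- Shift to the right by `k` strands. -/
def shiftWord (k : ℕ) (w : Word) : Word := w.map (fun x => (x.1, x.2 + k))

/-- The mirror image: all crossings are changed. -/
def mirror (w : Word) : Word := w.map (fun x => (x.1.mirror, x.2))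

/-! ## Labellings of the strands, knots -/

/-- `Step x ℓ ℓ'`: the lists `ℓ` and `ℓ'` label the strands just below and just above the
letter `x`, and the labelling is constant along the strands. -/
inductive Step {α : Type} : Letter → List α → List α → Prop
  | cup (u v : List α) (y : α) : Step (Kind.cup, u.length) (u ++ v) (u ++ y :: y :: v)
  | cap (u v : List α) (y : α) : Step (Kind.cap, u.length) (u ++ y :: y :: v) (u ++ v)
  | pos (u v : List α) (x y : α) :
      Step (Kind.pos, u.length) (u ++ x :: y :: v) (u ++ y :: x :: v)
  | neg (u v : List α) (x y : α) :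
      Step (Kind.neg, u.length) (u ++ x :: y :: v) (u ++ y :: x :: v)

/-- `Run w L`: `L` is the list of the labellings at all levels of the diagram `w` (from the
bottom to the top), for a labelling of the strands which is constant along the strands. -/
inductive Run {α : Type} : Word → List (List α) → Prop
  | nil (ℓ : List α) : Run [] [ℓ]
  | cons {x : Letter} {w : Word} {ℓ ℓ' : List α} {rest : List (List α)} :
      Step x ℓ ℓ' → Run w (ℓ' :: rest) → Run (x :: w) (ℓ :: ℓ' :: rest)

/-- `w` is a diagram with one strand at the bottom and one strand at the top. -/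
def LongWord (w : Word) : Prop :=
  ∃ L : List (List Unit), Run w ([()] :: L) ∧ ([()] :: L).getLast? = some [()]

/-- `w` is a long knot diagram: one strand at the bottom and at the top, and only one
component, i.e. every labelling which is constant along the strands is constant. -/
def IsKnot (w : Word) : Prop :=
  LongWord w ∧ ∀ (α : Type) (x : α) (L : List (List α)), Run w ([x] :: L) →
    ∀ ℓ ∈ [x] :: L, ∀ y ∈ ℓ, y = x

/-! ## The moves -/

/-- The local moves of regular isotopy: planar isotopies, crossings sliding through maxima
and minima, Reidemeister moves II and III. -/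
inductive FMove : Word → Word → Prop
  | far (x y : Kind) (i d : ℕ) :
      FMove [(x, i), (y, i + x.out + d)] [(y, i + x.inn + d), (x, i)]
  | zig (i : ℕ) : FMove [(.cup, i), (.cap, i + 1)] []
  | zag (i : ℕ) : FMove [(.cup, i + 1), (.cap, i)] []
  | r2a (i : ℕ) : FMove [(.pos, i), (.neg, i)] []
  | r2b (i : ℕ) : FMove [(.neg, i), (.pos, i)] []
  | r3 (i : ℕ) :
      FMove [(.pos, i), (.pos, i + 1), (.pos, i)] [(.pos, i + 1), (.pos, i), (.pos, i + 1)]
  | cupPos (i : ℕ) : FMove [(.cup, i + 1), (.pos, i)] [(.cup, i), (.neg, i + 1)]
  | cupNeg (i : ℕ) : FMove [(.cup, i + 1), (.neg, i)] [(.cup, i), (.pos, i + 1)]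
  | capPos (i : ℕ) : FMove [(.pos, i), (.cap, i + 1)] [(.neg, i + 1), (.cap, i)]
  | capNeg (i : ℕ) : FMove [(.neg, i), (.cap, i + 1)] [(.pos, i + 1), (.cap, i)]

/-- The Reidemeister moves I. -/
inductive RMove : Word → Word → Prop
  | cupPos (i : ℕ) : RMove [(.cup, i), (.pos, i)] [(.cup, i)]
  | cupNeg (i : ℕ) : RMove [(.cup, i), (.neg, i)] [(.cup, i)]
  | capPos (i : ℕ) : RMove [(.pos, i), (.cap, i)] [(.cap, i)]
  | capNeg (i : ℕ) : RMove [(.neg, i), (.cap, i)] [(.cap, i)]

/-- Both words are knot diagrams and the second one is obtained from the first one by one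
move of regular isotopy. -/
def FStep (w w' : Word) : Prop :=
  IsKnot w ∧ IsKnot w' ∧ ∃ a b l r : Word, FMove l r ∧ w = a ++ l ++ b ∧ w' = a ++ r ++ b

/-- Both words are knot diagrams and the second one is obtained from the first one by one
Reidemeister move I. -/
def RStep (w w' : Word) : Prop :=
  IsKnot w ∧ IsKnot w' ∧ ∃ a b l r : Word, RMove l r ∧ w = a ++ l ++ b ∧ w' = a ++ r ++ b

/-- Isotopy of knots, in terms of diagrams. -/
def Isotopic (w w' : Word) : Prop :=
  Relation.EqvGen (fun a b => FStep a b ∨ RStep a b) w w'

/-- The crossing number of the knot with the diagram `w`. -/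
noncomputable def crossingNumber (w : Word) : ℕ :=
  sInf {k | ∃ w' : Word, Isotopic w w' ∧ crossings w' = k}

/-! ## Twists, cables and satellites -/

/-- The block of `p` strands crosses the block of `q` strands to its right; `p * q` crossings
of kind `k`. -/
def blockWord (k : Kind) (q : ℕ) : ℕ → Word
  | 0 => []
  | p + 1 => shiftWord 1 (blockWord k q p) ++ (List.range q).map (fun j => (k, j))

/-- The full twist of kind `k` on `n` strands, with `n (n - 1)` crossings. -/
def twistWord (k : Kind) : ℕ → Word
  | 0 => []
  | n + 1 => shiftWord 1 (twistWord k n) ++ (List.range n).map (fun j => (k, j)) ++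
      (List.range n).reverse.map (fun j => (k, j))

/-- `m` full twists. -/
def twists (k : Kind) (n m : ℕ) : Word := (List.replicate m (twistWord k n)).flatten

/-- The blackboard `n`-cable of a letter. -/
def cableLetter (n : ℕ) : Letter → Word
  | (.cup, i) => (List.range n).map (fun j => (Kind.cup, n * i + j))
  | (.cap, i) => (List.range n).reverse.map (fun j => (Kind.cap, n * i + j))
  | (.pos, i) => shiftWord (n * i) (blockWord .pos n n)
  | (.neg, i) => shiftWord (n * i) (blockWord .neg n n)

/-- The blackboard `n`-cable of a diagram. -/
def cable (n : ℕ) (w : Word) : Word := w.flatMap (cableLetter n)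

/-- The satellite of the knot `D` whose pattern is the closure (in a solid torus) of the tangle
`T` with `n` strands at the bottom and at the top: the blackboard `n`-cable of `D` with the tangle
`T` inserted, the strands `1, ..., n - 1` being closed up on the right (strand `0` is the long
strand of the satellite). -/
def sat (D : Word) (n : ℕ) (T : Word) : Word :=
  (List.range (n - 1)).map (fun j => (Kind.cup, 1 + j)) ++ T ++ cable n D ++
    (List.range (n - 1)).reverse.map (fun j => (Kind.cap, 1 + j))

/-! ## Tangles and adequate diagrams -/

/-- `w` is a diagram with `M` strands at the bottom and `M'` strands at the top. -/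
def URun (M M' : ℕ) (w : Word) : Prop :=
  ∃ K : List (List Unit), Run w K ∧ K.head? = some (List.replicate M ()) ∧
    K.getLast? = some (List.replicate M' ())

/-- Both words are diagrams of tangles with `n` strands at the bottom and `n` strands at the top
and the second one is obtained from the first one by one move of regular isotopy. -/
def TStep (n : ℕ) (w w' : Word) : Prop :=
  URun n n w ∧ URun n n w' ∧
    ∃ a b l r : Word, FMove l r ∧ w = a ++ l ++ b ∧ w' = a ++ r ++ b

/-- Regular isotopy of tangles with `n` strands at the bottom and at the top (the ends are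
fixed). -/
def TIso (n : ℕ) (w w' : Word) : Prop := Relation.EqvGen (TStep n) w w'

/-- The Reidemeister moves I; the integer is the writhe of the second word minus the writhe of
the first one. -/
inductive KMove : ℤ → Word → Word → Prop
  | cupPos (i : ℕ) : KMove 1 [(.cup, i), (.pos, i)] [(.cup, i)]
  | cupNeg (i : ℕ) : KMove (-1) [(.cup, i), (.neg, i)] [(.cup, i)]
  | capPos (i : ℕ) : KMove 1 [(.pos, i), (.cap, i)] [(.cap, i)]
  | capNeg (i : ℕ) : KMove (-1) [(.neg, i), (.cap, i)] [(.cap, i)]

/-- `w` and `w'` are diagrams of tangles with `n` strands at the bottom and at the top, the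
satellites of `D` with these tangles are knots, and `w'` is obtained from `w` by one Reidemeister
move I, which changes the writhe by `e`. -/
def KStep (D : Word) (n : ℕ) (e : ℤ) (w w' : Word) : Prop :=
  URun n n w ∧ URun n n w' ∧ IsKnot (sat D n w) ∧ IsKnot (sat D n w') ∧
    ∃ a b l r : Word, KMove e l r ∧ w = a ++ l ++ b ∧ w' = a ++ r ++ b

/-- `PIso D n f w w'`: isotopy of the pattern tangles `w` and `w'`, by planar isotopies and
Reidemeister moves I, II, III; `f` is the writhe of `w'` minus the writhe of `w` (the sum of the
changes in the moves I). -/
inductive PIso (D : Word) (n : ℕ) : ℤ → Word → Word → Prop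
  | refl (w : Word) : PIso D n 0 w w
  | reg {w w' : Word} : TStep n w w' → PIso D n 0 w w'
  | kink {e : ℤ} {w w' : Word} : KStep D n e w w' → PIso D n e w w'
  | symm {f : ℤ} {w w' : Word} : PIso D n f w w' → PIso D n (-f) w' w
  | trans {f g : ℤ} {w w' w'' : Word} :
      PIso D n f w w' → PIso D n g w' w'' → PIso D n (f + g) w w''

/-- `AStep x ℓ ℓ'`: the lists `ℓ` and `ℓ'` label the arcs of the all-A state just below and just
above the letter `x`, and the labelling is constant along the arcs.  A positive crossing is
replaced by two vertical arcs, a negative crossing by two horizontal ones. -/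
inductive AStep {α : Type} : Letter → List α → List α → Prop
  | cup (u v : List α) (y : α) : AStep (Kind.cup, u.length) (u ++ v) (u ++ y :: y :: v)
  | cap (u v : List α) (y : α) : AStep (Kind.cap, u.length) (u ++ y :: y :: v) (u ++ v)
  | pos (u v : List α) (x y : α) :
      AStep (Kind.pos, u.length) (u ++ x :: y :: v) (u ++ x :: y :: v)
  | neg (u v : List α) (x y : α) :
      AStep (Kind.neg, u.length) (u ++ x :: x :: v) (u ++ y :: y :: v)

/-- `ARun w ℓ ℓ'`: there is a labelling of the all-A state of `w`, constant along the arcs, with
the labels `ℓ` at the bottom and `ℓ'` at the top. -/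
inductive ARun {α : Type} : Word → List α → List α → Prop
  | nil (ℓ : List α) : ARun [] ℓ ℓ
  | cons {x : Letter} {w : Word} {ℓ ℓ' ℓ'' : List α} :
      AStep x ℓ ℓ' → ARun w ℓ' ℓ'' → ARun (x :: w) ℓ ℓ''

/-- The diagram `w` of a tangle with `n` strands at the bottom and at the top is A-adequate:
the all-A state consists of `n` arcs, which join the `i`-th lower end to the `i`-th upper end
(`i < n`), and of circles; and at every crossing the two arcs of the state (the one at the lower
left end and the one at the upper right end) lie on different components of the state, i.e. some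
colouring of the components gives them different colours. -/
def AAdequate (n : ℕ) (w : Word) : Prop :=
  ARun w (List.range n) (List.range n) ∧
  ∀ (a b : Word) (x : Letter), w = a ++ x :: b → (x.1 = Kind.pos ∨ x.1 = Kind.neg) →
    ∃ t ℓ ℓ' : List Bool, t.length = n ∧ ARun a t ℓ ∧ AStep x ℓ ℓ' ∧ ARun b ℓ' t ∧
      ℓ[x.2]? ≠ ℓ'[x.2 + 1]?

end Pool.Agent.HTW
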