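import Pool.Agent.HTW.Planar
import Pool.Agent.HTW.Words
import Pool.Agent.HTW.Len

/-!
# Reduction of planar words (helper45)
-/

namespace Pool.Agent.HTW

open Finset

theorem TLData.N_U {R : Type} [Ring R] [Algebra ℝ R] (D : TLData R) (m : ℕ) :
    D.N m * D.U m = D.dl ^ m • (1 : R) := by
  induction m with
  | zero =>
    show (1 : R) * 1 = D.dl ^ 0 • (1 : R)
    rw [pow_zero, one_smul, one_mul]
  | succ m ih =>
    have h1 : D.n * D.u = D.dl • (1 : R) := D.nu
    rw [D.N_succ, D.U_succ, mul_assoc, ← mul_assoc (D.sh m D.n), ← map_mul, h1, map_smul, map_one,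
      smul_mul_assoc, one_mul, mul_smul_comm, ih, smul_smul, pow_succ']

/-! ### Counting labellings -/

/-- The lists of `M` Boolean labels. -/
def BL (M : ℕ) : Finset (List Bool) := (Finset.univ : Finset (Fin M → Bool)).image List.ofFn

theorem mem_BL {M : ℕ} {ℓ : List Bool} : ℓ ∈ BL M ↔ ℓ.length = M := by
  constructor
  · intro h
    obtain ⟨f, _, rfl⟩ := Finset.mem_image.1 h
    exact List.length_ofFn
  · rintro rfl
    exact Finset.mem_image.2 ⟨fun i => ℓ.get i, Finset.mem_univ _, List.ofFn_get ℓ⟩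

theorem card_BL (M : ℕ) : (BL M).card = 2 ^ M := by
  rw [BL, Finset.card_image_of_injective _ List.ofFn_injective, Finset.card_univ,
    Fintype.card_fun, Fintype.card_fin, Fintype.card_bool]

/-- Insert two labels `y` at the position `i`. -/
def ins {α : Type} (i : ℕ) (y : α) (ℓ : List α) : List α := ℓ.take i ++ y :: y :: ℓ.drop i

/-- Remove the labels at the positions `i` and `i + 1`. -/
def rem2 {α : Type} (i : ℕ) (ℓ : List α) : List α := ℓ.take i ++ ℓ.drop (i + 2)

theorem ins_append {α : Type} (u v : List α) (y : α) :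
    ins u.length y (u ++ v) = u ++ y :: y :: v := by
  simp [ins]

theorem rem2_append {α : Type} (u v : List α) (x y : α) :
    rem2 u.length (u ++ x :: y :: v) = u ++ v := by
  simp [rem2, List.drop_append]

theorem getElem_append_one {α : Type} (u v : List α) (x y : α) :
    (u ++ x :: y :: v)[u.length]? = some x := by
  simp

theorem getElem_append_two {α : Type} (u v : List α) (x y : α) :
    (u ++ x :: y :: v)[u.length + 1]? = some y := by
  simp

/-- The sum over the labellings just above the letter. -/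
def stp : Letter → (List Bool → ℕ) → List Bool → ℕ
  | (.cup, i), ψ, ℓ => ∑ y : Bool, ψ (ins i y ℓ)
  | (.cap, i), ψ, ℓ => if ℓ[i]? = ℓ[i + 1]? then ψ (rem2 i ℓ) else 0
  | (.pos, _), _, _ => 0
  | (.neg, _), _, _ => 0

theorem stp_cup (u v : List Bool) (ψ : List Bool → ℕ) :
    stp (.cup, u.length) ψ (u ++ v) = ∑ y : Bool, ψ (u ++ y :: y :: v) := by
  simp only [stp, ins_append]

theorem stp_cap (u v : List Bool) (x y : Bool) (ψ : List Bool → ℕ) :
    stp (.cap, u.length) ψ (u ++ x :: y :: v) = if x = y then ψ (u ++ v) else 0 := by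
  simp only [stp, rem2_append, getElem_append_one, getElem_append_two, Option.some.injEq]

/-- The sum over all labellings of the word which begin with a given list. -/
def act : Word → (List Bool → ℕ) → List Bool → ℕ
  | [], ψ => ψ
  | x :: w, ψ => stp x (act w ψ)

theorem act_append (a b : Word) (ψ : List Bool → ℕ) : act (a ++ b) ψ = act a (act b ψ) := by
  induction a with
  | nil => rfl
  | cons x a ih =>
    show stp x (act (a ++ b) ψ) = stp x (act a (act b ψ))
    rw [ih]

/-- The indicator function of a list. -/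
def ind (ℓ' : List Bool) : List Bool → ℕ := fun ℓ => if ℓ = ℓ' then 1 else 0

/-- The labellings of a planar word which begin with `ℓ`. -/
def runs : Word → List Bool → Finset (List (List Bool))
  | [], ℓ => {[ℓ]}
  | (.cup, i) :: w, ℓ =>
    (Finset.univ : Finset Bool).biUnion fun y => (runs w (ins i y ℓ)).image (fun K => ℓ :: K)
  | (.cap, i) :: w, ℓ =>
    if ℓ[i]? = ℓ[i + 1]? then (runs w (rem2 i ℓ)).image (fun K => ℓ :: K) else ∅
  | (.pos, _) :: _, _ => ∅
  | (.neg, _) :: _, _ => ∅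

theorem Flat.tail {x : Letter} {w : Word} (h : Flat (x :: w)) : Flat w :=
  fun z hz => h z (List.mem_cons_of_mem _ hz)

theorem run_mem {v : Word} {K : List (List Bool)} (h : Run v K) (hv : Flat v) {ℓ : List Bool}
    (hℓ : K.head? = some ℓ) : K ∈ runs v ℓ := by
  induction h generalizing ℓ with
  | nil ℓ₀ =>
    simp only [List.head?_cons, Option.some.injEq] at hℓ
    subst hℓ
    simp [runs]
  | @cons x w ℓ₀ ℓ₁ rest hs hr ih =>
    simp only [List.head?_cons, Option.some.injEq] at hℓ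
    subst hℓ
    have h1 := ih hv.tail (ℓ := ℓ₁) rfl
    cases hs with
    | cup u v y =>
      refine Finset.mem_biUnion.2 ⟨y, Finset.mem_univ _, Finset.mem_image.2 ⟨_, ?_, rfl⟩⟩
      rw [ins_append]
      exact h1
    | cap u v y =>
      show _ ∈ (if (u ++ y :: y :: v)[u.length]? = (u ++ y :: y :: v)[u.length + 1]?
        then _ else _)
      rw [if_pos (by rw [getElem_append_one, getElem_append_two])]
      refine Finset.mem_image.2 ⟨_, ?_, rfl⟩
      rw [rem2_append]
      exact h1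
    | pos u v y z =>
      have h2 := hv (Kind.pos, u.length) (List.mem_cons_self ..)
      simp at h2
    | neg u v y z =>
      have h2 := hv (Kind.neg, u.length) (List.mem_cons_self ..)
      simp at h2

theorem step_ins {α : Type} {i : ℕ} {ℓ : List α} (h : i ≤ ℓ.length) (y : α) :
    Step (Kind.cup, i) ℓ (ins i y ℓ) := by
  have h1 := Step.cup (ℓ.take i) (ℓ.drop i) y
  rw [List.take_append_drop, List.length_take_of_le h] at h1
  exact h1

theorem split2 {α : Type} {i : ℕ} {ℓ : List α} (h : i + 2 ≤ ℓ.length) :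
    ∃ (u v : List α) (x y : α), u.length = i ∧ ℓ = u ++ x :: y :: v := by
  have h1 : i < ℓ.length := by omega
  have h2 : i + 1 < ℓ.length := by omega
  refine ⟨ℓ.take i, ℓ.drop (i + 2), ℓ[i], ℓ[i + 1], List.length_take_of_le (by omega), ?_⟩
  rw [← List.drop_eq_getElem_cons h2, ← List.drop_eq_getElem_cons h1, List.take_append_drop]

theorem step_rem2 {α : Type} {i : ℕ} {ℓ : List α} (h : i + 2 ≤ ℓ.length)
    (he : ℓ[i]? = ℓ[i + 1]?) :
    Step (Kind.cap, i) ℓ (rem2 i ℓ) := by
  obtain ⟨u, v, x, y, rfl, rfl⟩ := split2 h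
  rw [getElem_append_one, getElem_append_two, Option.some.injEq] at he
  subst he
  rw [rem2_append]
  exact Step.cap u v x

theorem length_ins {α : Type} {i : ℕ} {ℓ : List α} (h : i ≤ ℓ.length) (y : α) :
    (ins i y ℓ).length = ℓ.length + 2 := by
  simp [ins]
  omega

theorem length_rem2 {α : Type} {i : ℕ} {ℓ : List α} (h : i + 2 ≤ ℓ.length) :
    (rem2 i ℓ).length + 2 = ℓ.length := by
  simp [rem2]
  omega

theorem mem_run {v : Word} {a b : ℕ} (hl : Len v a b) (hv : Flat v) {ℓ : List Bool}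
    (hℓ : ℓ.length = a) {K : List (List Bool)} (hK : K ∈ runs v ℓ) :
    Run v K ∧ K.head? = some ℓ := by
  induction hl generalizing ℓ K with
  | nil a =>
    simp only [runs, Finset.mem_singleton] at hK
    subst hK
    exact ⟨Run.nil ℓ, rfl⟩
  | @cup w i a b hi hw ih =>
    obtain ⟨y, _, hy⟩ := Finset.mem_biUnion.1 hK
    obtain ⟨K', hK', rfl⟩ := Finset.mem_image.1 hy
    subst hℓ
    obtain ⟨h1, h2⟩ := ih hv.tail (length_ins hi y) hK'
    cases K' with
    | nil => simp at h2
    | cons ℓ₁ rest =>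
      simp only [List.head?_cons, Option.some.injEq] at h2
      subst h2
      exact ⟨Run.cons (step_ins hi y) h1, rfl⟩
  | @cap w i a b hi hw ih =>
    have hi' : i + 2 ≤ ℓ.length := by omega
    by_cases he : ℓ[i]? = ℓ[i + 1]?
    · have hK₂ : K ∈ (runs w (rem2 i ℓ)).image (fun K => ℓ :: K) := by
        have h3 : runs ((Kind.cap, i) :: w) ℓ =
            (runs w (rem2 i ℓ)).image (fun K => ℓ :: K) := if_pos he
        rw [← h3]
        exact hK
      obtain ⟨K', hK', rfl⟩ := Finset.mem_image.1 hK₂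
      have h3 := length_rem2 hi'
      obtain ⟨h1, h2⟩ := ih hv.tail (ℓ := rem2 i ℓ) (by omega) hK'
      cases K' with
      | nil => simp at h2
      | cons ℓ₁ rest =>
        simp only [List.head?_cons, Option.some.injEq] at h2
        subst h2
        exact ⟨Run.cons (step_rem2 hi' he) h1, rfl⟩
    · have h3 : runs ((Kind.cap, i) :: w) ℓ = ∅ := if_neg he
      rw [h3] at hK
      simp at hK
  | @pos w i a b hi hw ih =>
    have h2 := hv (Kind.pos, i) (List.mem_cons_self ..)
    simp at h2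
  | @neg w i a b hi hw ih =>
    have h2 := hv (Kind.neg, i) (List.mem_cons_self ..)
    simp at h2

theorem runs_ne_nil {v : Word} {ℓ : List Bool} {K : List (List Bool)} (hK : K ∈ runs v ℓ) :
    ∃ rest, K = ℓ :: rest := by
  cases v with
  | nil =>
    simp only [runs, Finset.mem_singleton] at hK
    exact ⟨[], hK⟩
  | cons x w =>
    obtain ⟨k, i⟩ := x
    cases k with
    | cup =>
      obtain ⟨y, _, hy⟩ := Finset.mem_biUnion.1 hK
      obtain ⟨K', _, rfl⟩ := Finset.mem_image.1 hy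
      exact ⟨K', rfl⟩
    | cap =>
      by_cases he : ℓ[i]? = ℓ[i + 1]?
      · have h3 : runs ((Kind.cap, i) :: w) ℓ =
            (runs w (rem2 i ℓ)).image (fun K => ℓ :: K) := if_pos he
        rw [h3] at hK
        obtain ⟨K', _, rfl⟩ := Finset.mem_image.1 hK
        exact ⟨K', rfl⟩
      · have h3 : runs ((Kind.cap, i) :: w) ℓ = ∅ := if_neg he
        rw [h3] at hK
        simp at hK
    | pos => simp [runs] at hK
    | neg => simp [runs] at hK

theorem card_filter_cons (S : Finset (List (List Bool))) (ℓ ℓ' : List Bool)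
    (hS : ∀ K ∈ S, K ≠ []) :
    ((S.image (fun K => ℓ :: K)).filter (fun K => K.getLast? = some ℓ')).card =
      (S.filter (fun K => K.getLast? = some ℓ')).card := by
  have h1 : (S.image (fun K => ℓ :: K)).filter (fun K => K.getLast? = some ℓ') =
      (S.filter (fun K => K.getLast? = some ℓ')).image (fun K => ℓ :: K) := by
    ext K
    simp only [Finset.mem_filter, Finset.mem_image]
    constructor
    · rintro ⟨⟨K', hK', rfl⟩, h2⟩
      refine ⟨K', ⟨hK', ?_⟩, rfl⟩
      rw [← h2, List.getLast?_cons_of_ne_nil (hS K' hK')]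
    · rintro ⟨K', ⟨hK', h2⟩, rfl⟩
      refine ⟨⟨K', hK', rfl⟩, ?_⟩
      rw [List.getLast?_cons_of_ne_nil (hS K' hK'), h2]
  rw [h1, Finset.card_image_of_injective]
  intro K K' h
  exact (List.cons.inj h).2

theorem card_runs (v : Word) (ℓ ℓ' : List Bool) :
    ((runs v ℓ).filter (fun K => K.getLast? = some ℓ')).card = act v (ind ℓ') ℓ := by
  induction v generalizing ℓ with
  | nil =>
    show (({[ℓ]} : Finset (List (List Bool))).filter (fun K => K.getLast? = some ℓ')).card =
      if ℓ = ℓ' then 1 else 0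
    rw [Finset.filter_singleton]
    by_cases h : ℓ = ℓ'
    · rw [if_pos h, if_pos (by rw [h]; rfl)]
      rfl
    · rw [if_neg h, if_neg (by simpa using h)]
      rfl
  | cons x w ih =>
    obtain ⟨k, i⟩ := x
    cases k with
    | cup =>
      show (((Finset.univ : Finset Bool).biUnion fun y =>
        (runs w (ins i y ℓ)).image (fun K => ℓ :: K)).filter
          (fun K => K.getLast? = some ℓ')).card = ∑ y : Bool, act w (ind ℓ') (ins i y ℓ)
      rw [Finset.filter_biUnion, Finset.card_biUnion]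
      · refine Finset.sum_congr rfl fun y _ => ?_
        rw [card_filter_cons _ _ _ (fun K hK => ?_), ih]
        obtain ⟨rest, rfl⟩ := runs_ne_nil hK
        exact List.cons_ne_nil _ _
      · intro y _ y' _ hyy
        rw [Function.onFun, Finset.disjoint_left]
        intro K hK hK'
        obtain ⟨K₁, h1, rfl⟩ := Finset.mem_image.1 (Finset.mem_filter.1 hK).1
        obtain ⟨K₂, h2, h3⟩ := Finset.mem_image.1 (Finset.mem_filter.1 hK').1
        obtain ⟨r1, rfl⟩ := runs_ne_nil h1
        obtain ⟨r2, rfl⟩ := runs_ne_nil h2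
        have h4 := (List.cons.inj (List.cons.inj h3).2).1
        apply hyy
        unfold ins at h4
        have h5 := List.append_cancel_left h4
        exact (List.cons.inj h5).1.symm
    | cap =>
      show ((if ℓ[i]? = ℓ[i + 1]? then (runs w (rem2 i ℓ)).image (fun K => ℓ :: K)
        else ∅).filter (fun K => K.getLast? = some ℓ')).card =
          if ℓ[i]? = ℓ[i + 1]? then act w (ind ℓ') (rem2 i ℓ) else 0
      by_cases he : ℓ[i]? = ℓ[i + 1]?
      · rw [if_pos he, if_pos he, card_filter_cons _ _ _ (fun K hK => ?_), ih]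
        obtain ⟨rest, rfl⟩ := runs_ne_nil hK
        exact List.cons_ne_nil _ _
      · rw [if_neg he, if_neg he]
        rfl
    | pos => rfl
    | neg => rfl

/-- The closed labellings as a finite set. -/
def LabF (M : ℕ) (v : Word) : Finset (List (List Bool)) :=
  (BL M).biUnion fun ℓ => (runs v ℓ).filter (fun K => K.getLast? = some ℓ)

theorem lab_subset {v : Word} (hv : Flat v) (M : ℕ) : Lab M v ⊆ (LabF M v : Set _) := by
  rintro K ⟨hK, ℓ, hℓ, h1, h2⟩
  exact Finset.mem_coe.2 (Finset.mem_biUnion.2 ⟨ℓ, mem_BL.2 hℓ,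
    Finset.mem_filter.2 ⟨run_mem hK hv h1, h2⟩⟩)

theorem lab_finite {v : Word} (hv : Flat v) (M : ℕ) : (Lab M v).Finite :=
  (LabF M v).finite_toSet.subset (lab_subset hv M)

theorem lab_eq {v : Word} (hv : Flat v) {M M' : ℕ} (hl : Len v M M') :
    Lab M v = (LabF M v : Set _) := by
  refine Set.Subset.antisymm (lab_subset hv M) ?_
  intro K hK
  obtain ⟨ℓ, hℓ, h1⟩ := Finset.mem_biUnion.1 (Finset.mem_coe.1 hK)
  obtain ⟨h2, h3⟩ := Finset.mem_filter.1 h1
  obtain ⟨h4, h5⟩ := mem_run hl hv (mem_BL.1 hℓ) h2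
  exact ⟨h4, ℓ, mem_BL.1 hℓ, h5, h3⟩

/-- The number of closed labellings. -/
def tot (M : ℕ) (v : Word) : ℕ := ∑ ℓ ∈ BL M, act v (ind ℓ) ℓ

theorem ncard_lab {v : Word} (hv : Flat v) {M M' : ℕ} (hl : Len v M M') :
    (Lab M v).ncard = tot M v := by
  rw [lab_eq hv hl, Set.ncard_coe_finset, LabF, Finset.card_biUnion]
  · exact Finset.sum_congr rfl fun ℓ _ => card_runs v ℓ ℓ
  · intro ℓ _ ℓ' _ hll
    rw [Function.onFun, Finset.disjoint_left]
    intro K hK hK'
    obtain ⟨r1, rfl⟩ := runs_ne_nil (Finset.mem_filter.1 hK).1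
    obtain ⟨r2, h2⟩ := runs_ne_nil (Finset.mem_filter.1 hK').1
    exact hll (List.cons.inj h2).1

/-! ### The moves -/

theorem split0 {α : Type} {i : ℕ} {ℓ : List α} (h : i ≤ ℓ.length) :
    ∃ u v : List α, u.length = i ∧ ℓ = u ++ v :=
  ⟨ℓ.take i, ℓ.drop i, List.length_take_of_le h, (List.take_append_drop i ℓ).symm⟩

theorem split1 {α : Type} {i : ℕ} {ℓ : List α} (h : i + 1 ≤ ℓ.length) :
    ∃ (u v : List α) (x : α), u.length = i ∧ ℓ = u ++ x :: v := by
  have h1 : i < ℓ.length := by omega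
  refine ⟨ℓ.take i, ℓ.drop (i + 1), ℓ[i], List.length_take_of_le (by omega), ?_⟩
  rw [← List.drop_eq_getElem_cons h1, List.take_append_drop]

theorem stp_cap' (u v : List Bool) (x y : Bool) (ψ : List Bool → ℕ) {j : ℕ} {ℓ : List Bool}
    (hj : j = u.length) (hℓ : ℓ = u ++ x :: y :: v) :
    stp (.cap, j) ψ ℓ = if x = y then ψ (u ++ v) else 0 := by
  subst hj hℓ
  exact stp_cap u v x y ψ

theorem stp_cup' (u v : List Bool) (ψ : List Bool → ℕ) {j : ℕ} {ℓ : List Bool}
    (hj : j = u.length) (hℓ : ℓ = u ++ v) :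
    stp (.cup, j) ψ ℓ = ∑ y : Bool, ψ (u ++ y :: y :: v) := by
  subst hj hℓ
  exact stp_cup u v ψ

theorem act_circle {i : ℕ} {ℓ : List Bool} (h : i ≤ ℓ.length) (c : Word) (ψ : List Bool → ℕ) :
    act ((Kind.cup, i) :: (Kind.cap, i) :: c) ψ ℓ = 2 * act c ψ ℓ := by
  obtain ⟨u, v, rfl, rfl⟩ := split0 h
  show stp (Kind.cup, u.length) (stp (Kind.cap, u.length) (act c ψ)) (u ++ v) = _
  rw [stp_cup, Fintype.sum_bool, stp_cap, stp_cap, if_pos rfl, if_pos rfl, two_mul]

theorem act_zig {i : ℕ} {ℓ : List Bool} (h : i + 1 ≤ ℓ.length) (c : Word)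
    (ψ : List Bool → ℕ) :
    act ((Kind.cup, i) :: (Kind.cap, i + 1) :: c) ψ ℓ = act c ψ ℓ := by
  obtain ⟨u, v, x, rfl, rfl⟩ := split1 h
  show stp (Kind.cup, u.length) (stp (Kind.cap, u.length + 1) (act c ψ)) (u ++ x :: v) = _
  have h1 : ∀ y : Bool, stp (Kind.cap, u.length + 1) (act c ψ) (u ++ y :: y :: x :: v) =
      if y = x then act c ψ (u ++ y :: v) else 0 := by
    intro y
    rw [stp_cap' (u ++ [y]) v y x _ (by simp) (by simp)]
    simp
  rw [stp_cup, Fintype.sum_bool, h1, h1]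
  cases x <;> simp

theorem act_zag {i : ℕ} {ℓ : List Bool} (h : i + 1 ≤ ℓ.length) (c : Word)
    (ψ : List Bool → ℕ) :
    act ((Kind.cup, i + 1) :: (Kind.cap, i) :: c) ψ ℓ = act c ψ ℓ := by
  obtain ⟨u, v, x, rfl, rfl⟩ := split1 h
  show stp (Kind.cup, u.length + 1) (stp (Kind.cap, u.length) (act c ψ)) (u ++ x :: v) = _
  have h1 : ∀ y : Bool, stp (Kind.cap, u.length) (act c ψ) ((u ++ [x]) ++ y :: y :: v) =
      if x = y then act c ψ (u ++ y :: v) else 0 := by
    intro y
    rw [stp_cap' u (y :: v) x y _ rfl (by simp)]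
  rw [stp_cup' (u ++ [x]) v _ (by simp) (by simp), Fintype.sum_bool, h1, h1]
  cases x <;> simp

theorem act_far {i d : ℕ} {ℓ : List Bool} (h : i + 2 + d ≤ ℓ.length) (c : Word)
    (ψ : List Bool → ℕ) :
    act ((Kind.cup, i) :: (Kind.cap, i + 2 + d) :: c) ψ ℓ =
      act ((Kind.cap, i + d) :: (Kind.cup, i) :: c) ψ ℓ := by
  obtain ⟨u, v, x, y, hu, rfl⟩ := split2 (i := i + d) (ℓ := ℓ) (by omega)
  obtain ⟨u, w, rfl, rfl⟩ := split0 (i := i) (ℓ := u) (by omega)
  have hw : w.length = d := by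
    rw [List.length_append] at hu
    omega
  subst hw
  show stp (Kind.cup, u.length) (stp (Kind.cap, u.length + 2 + w.length) (act c ψ)) _ =
    stp (Kind.cap, u.length + w.length) (stp (Kind.cup, u.length) (act c ψ)) _
  rw [stp_cup' u (w ++ x :: y :: v) _ rfl (by simp), stp_cap' (u ++ w) v x y _ (by simp) rfl,
    stp_cup' u (w ++ v) _ rfl (by simp)]
  have h1 : ∀ z : Bool, stp (Kind.cap, u.length + 2 + w.length) (act c ψ)
      (u ++ z :: z :: (w ++ x :: y :: v)) =
      if x = y then act c ψ (u ++ z :: z :: (w ++ v)) else 0 := by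
    intro z
    rw [stp_cap' (u ++ z :: z :: w) v x y _ (by simp; omega) (by simp)]
    simp
  rw [Finset.sum_congr rfl fun z _ => h1 z]
  by_cases hxy : x = y
  · simp only [if_pos hxy]
  · simp only [if_neg hxy, Finset.sum_const_zero]

theorem act_far' {j d : ℕ} {ℓ : List Bool} (h : j + 2 + d ≤ ℓ.length) (c : Word)
    (ψ : List Bool → ℕ) :
    act ((Kind.cup, j + 2 + d) :: (Kind.cap, j) :: c) ψ ℓ =
      act ((Kind.cap, j) :: (Kind.cup, j + d) :: c) ψ ℓ := by
  obtain ⟨u, v, x, y, hu, rfl⟩ := split2 (i := j) (ℓ := ℓ) (by omega)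
  obtain ⟨w, v, hw, rfl⟩ := split0 (i := d) (ℓ := v) (by
    simp only [List.length_append, List.length_cons] at h
    omega)
  subst hu hw
  show stp (Kind.cup, u.length + 2 + w.length) (stp (Kind.cap, u.length) (act c ψ)) _ =
    stp (Kind.cap, u.length) (stp (Kind.cup, u.length + w.length) (act c ψ)) _
  rw [stp_cup' (u ++ x :: y :: w) v _ (by simp; omega) (by simp),
    stp_cap' u (w ++ v) x y _ rfl rfl, stp_cup' (u ++ w) v _ (by simp) (by simp)]
  have h1 : ∀ z : Bool, stp (Kind.cap, u.length) (act c ψ)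
      (u ++ x :: y :: w ++ z :: z :: v) =
      if x = y then act c ψ (u ++ w ++ z :: z :: v) else 0 := by
    intro z
    rw [stp_cap' u (w ++ z :: z :: v) x y _ rfl (by simp)]
    simp
  rw [Finset.sum_congr rfl fun z _ => h1 z]
  by_cases hxy : x = y
  · simp only [if_pos hxy]
  · simp only [if_neg hxy, Finset.sum_const_zero]

/-! ### The moves for labellings -/

theorem Step.cup_inv {α : Type} {i : ℕ} {ℓ ℓ' : List α} (h : Step (Kind.cup, i) ℓ ℓ') :
    ∃ (u v : List α) (y : α), u.length = i ∧ ℓ = u ++ v ∧ ℓ' = u ++ y :: y :: v := by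
  cases h with
  | cup u v y => exact ⟨u, v, y, rfl, rfl, rfl⟩

theorem Step.cap_inv {α : Type} {i : ℕ} {ℓ ℓ' : List α} (h : Step (Kind.cap, i) ℓ ℓ') :
    ∃ (u v : List α) (y : α), u.length = i ∧ ℓ = u ++ y :: y :: v ∧ ℓ' = u ++ v := by
  cases h with
  | cap u v y => exact ⟨u, v, y, rfl, rfl, rfl⟩

theorem step_circle {α : Type} {i : ℕ} {ℓ ℓ₁ ℓ₂ : List α} (h1 : Step (Kind.cup, i) ℓ ℓ₁)
    (h2 : Step (Kind.cap, i) ℓ₁ ℓ₂) : ℓ₂ = ℓ := by
  obtain ⟨u, v, y, hu, rfl, rfl⟩ := h1.cup_inv
  obtain ⟨u', v', y', hu', h3, rfl⟩ := h2.cap_inv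
  obtain ⟨h4, h5⟩ := List.append_inj h3 (by omega)
  subst h4
  have h6 := (List.cons.inj (List.cons.inj h5).2).2
  rw [h6]

theorem step_zig {α : Type} {i : ℕ} {ℓ ℓ₁ ℓ₂ : List α} (h1 : Step (Kind.cup, i) ℓ ℓ₁)
    (h2 : Step (Kind.cap, i + 1) ℓ₁ ℓ₂) : ℓ₂ = ℓ := by
  obtain ⟨u, v, y, hu, rfl, rfl⟩ := h1.cup_inv
  obtain ⟨u', v', y', hu', h3, rfl⟩ := h2.cap_inv
  have h3' : (u ++ [y]) ++ y :: v = u' ++ y' :: y' :: v' := by rw [← h3]; simp
  obtain ⟨h4, h5⟩ := List.append_inj h3' (by simp; omega)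
  subst h4
  obtain ⟨h6, h7⟩ := List.cons.inj h5
  rw [h7, h6]
  simp

theorem step_zag {α : Type} {i : ℕ} {ℓ ℓ₁ ℓ₂ : List α} (h1 : Step (Kind.cup, i + 1) ℓ ℓ₁)
    (h2 : Step (Kind.cap, i) ℓ₁ ℓ₂) : ℓ₂ = ℓ := by
  obtain ⟨u, v, y, hu, rfl, rfl⟩ := h1.cup_inv
  obtain ⟨u', v', y', hu', h3, rfl⟩ := h2.cap_inv
  obtain ⟨w, t, x, hw, rfl⟩ := split1 (i := i) (ℓ := u) (by omega)
  have ht : t = [] := by
    rw [List.length_append, List.length_cons] at hu
    exact List.length_eq_zero_iff.1 (by omega)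
  subst ht
  have h3' : w ++ x :: y :: y :: v = u' ++ y' :: y' :: v' := by rw [← h3]; simp
  obtain ⟨h4, h5⟩ := List.append_inj h3' (by omega)
  subst h4
  obtain ⟨h6, h7⟩ := List.cons.inj h5
  obtain ⟨h8, h9⟩ := List.cons.inj h7
  rw [← h9, h6, h8]
  simp

theorem step_far {α : Type} {i d : ℕ} {ℓ ℓ₁ ℓ₂ : List α} (h1 : Step (Kind.cup, i) ℓ ℓ₁)
    (h2 : Step (Kind.cap, i + 2 + d) ℓ₁ ℓ₂) :
    ∃ ℓ₁', Step (Kind.cap, i + d) ℓ ℓ₁' ∧ Step (Kind.cup, i) ℓ₁' ℓ₂ := by
  obtain ⟨u, v, y, hu, rfl, rfl⟩ := h1.cup_inv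
  obtain ⟨u', v', y', hu', h3, rfl⟩ := h2.cap_inv
  have hlen := congrArg List.length h3
  simp only [List.length_append, List.length_cons] at hlen
  obtain ⟨w, t, hw, rfl⟩ := split0 (i := d) (ℓ := v) (by omega)
  have h3' : (u ++ y :: y :: w) ++ t = u' ++ y' :: y' :: v' := by rw [← h3]; simp
  obtain ⟨h4, h5⟩ := List.append_inj h3' (by simp; omega)
  subst h4 h5
  subst hu hw
  refine ⟨u ++ w ++ v', ?_, ?_⟩
  · have h6 := Step.cap (u ++ w) v' y'
    rw [List.length_append] at h6
    rw [← List.append_assoc]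
    exact h6
  · have h6 := Step.cup u (w ++ v') y
    rw [← List.append_assoc] at h6
    have e : u ++ y :: y :: w ++ v' = u ++ y :: y :: (w ++ v') := by simp
    rw [e]
    exact h6

theorem step_far' {α : Type} {j d : ℕ} {ℓ ℓ₁ ℓ₂ : List α}
    (h1 : Step (Kind.cup, j + 2 + d) ℓ ℓ₁) (h2 : Step (Kind.cap, j) ℓ₁ ℓ₂) :
    ∃ ℓ₁', Step (Kind.cap, j) ℓ ℓ₁' ∧ Step (Kind.cup, j + d) ℓ₁' ℓ₂ := by
  obtain ⟨u, v, y, hu, rfl, rfl⟩ := h1.cup_inv
  obtain ⟨u', v', y', hu', h3, rfl⟩ := h2.cap_inv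
  obtain ⟨w, t, x, x', hw, rfl⟩ := split2 (i := j) (ℓ := u) (by omega)
  have h3' : w ++ x :: x' :: (t ++ y :: y :: v) = u' ++ y' :: y' :: v' := by rw [← h3]; simp
  obtain ⟨h4, h5⟩ := List.append_inj h3' (by omega)
  subst h4
  obtain ⟨h6, h7⟩ := List.cons.inj h5
  obtain ⟨h8, h9⟩ := List.cons.inj h7
  subst h6
  subst h8
  subst h9
  have ht : t.length = d := by
    simp only [List.length_append, List.length_cons] at hu
    omega
  subst ht hw
  refine ⟨w ++ (t ++ v), ?_, ?_⟩
  · have h6 := Step.cap w (t ++ v) x'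
    have e : w ++ x' :: x' :: t ++ v = w ++ x' :: x' :: (t ++ v) := by simp
    rw [e]
    exact h6
  · have h6 := Step.cup (w ++ t) v y
    rw [List.length_append, List.append_assoc, List.append_assoc] at h6
    exact h6

/-! ### Reduction -/

/-- `v` and `v'` have the same value, up to `k` circles. -/
structure Red (M : ℕ) (v v' : Word) (k : ℕ) : Prop where
  ev : ∀ (R : Type) [Ring R] [Algebra ℝ R] (D : TLData R) (m : ℕ),
    D.ev m v = ((D.dl ^ m) ^ k) • D.ev m v'
  act : ∀ (ψ : List Bool → ℕ) (ℓ : List Bool), ℓ.length = M → act v ψ ℓ = 2 ^ k * act v' ψ ℓ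
  run : ∀ (α : Type) (K : List (List α)) (ℓ : List α), Run v K → K.head? = some ℓ →
    ∃ K', Run v' K' ∧ K'.head? = some ℓ
  len : ∀ M', Len v M M' → Len v' M M'

theorem Red.refl (M : ℕ) (v : Word) : Red M v v 0 where
  ev R _ _ D m := by rw [pow_zero, one_smul]
  act ψ ℓ _ := by rw [pow_zero, one_mul]
  run α K ℓ h1 h2 := ⟨K, h1, h2⟩
  len M' h := h

theorem Red.trans {M : ℕ} {v v' v'' : Word} {k k' : ℕ} (h : Red M v v' k)
    (h' : Red M v' v'' k') : Red M v v'' (k + k') where
  ev R _ _ D m := by rw [h.ev, h'.ev, smul_smul, pow_add]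
  act ψ ℓ hℓ := by rw [h.act ψ ℓ hℓ, h'.act ψ ℓ hℓ, pow_add, mul_assoc]
  run α K ℓ h1 h2 := by
    obtain ⟨K', h3, h4⟩ := h.run α K ℓ h1 h2
    exact h'.run α K' ℓ h3 h4
  len M' h1 := h'.len M' (h.len M' h1)

theorem Red.cup {M i : ℕ} {v v' : Word} {k : ℕ} (h : Red (M + 2) v v' k) (hi : i ≤ M) :
    Red M ((Kind.cup, i) :: v) ((Kind.cup, i) :: v') k where
  ev R _ _ D m := by
    rw [TLData.ev_cons, TLData.ev_cons, h.ev, smul_mul_assoc]
  act ψ ℓ hℓ := by
    show ∑ y : Bool, Pool.Agent.HTW.act v ψ (ins i y ℓ) =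
      2 ^ k * ∑ y : Bool, Pool.Agent.HTW.act v' ψ (ins i y ℓ)
    rw [Finset.mul_sum]
    refine Finset.sum_congr rfl fun y _ => ?_
    exact h.act ψ _ (by rw [length_ins (by omega), hℓ])
  run α K ℓ h1 h2 := by
    cases h1 with
    | cons hs hr =>
      rename_i ℓ₀ ℓ₁ rest
      simp only [List.head?_cons, Option.some.injEq] at h2
      subst h2
      obtain ⟨K', h3, h4⟩ := h.run α _ ℓ₁ hr rfl
      cases K' with
      | nil => simp at h4
      | cons ℓ₂ rest' =>
        simp only [List.head?_cons, Option.some.injEq] at h4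
        subst h4
        exact ⟨_, Run.cons hs h3, rfl⟩
  len M' h1 := by
    cases h1 with
    | cup h2 h3 => exact Len.cup h2 (h.len M' h3)

theorem ev_two {R : Type} [Ring R] [Algebra ℝ R] (D : TLData R) (m : ℕ) (x y : Letter)
    (c : Word) : D.ev m (x :: y :: c) = D.ev m c * D.ev m [x, y] :=
  D.ev_append m [x, y] c

theorem ev_circle {R : Type} [Ring R] [Algebra ℝ R] (D : TLData R) (m i : ℕ) :
    D.ev m [(Kind.cup, i), (Kind.cap, i)] = D.dl ^ m • (1 : R) := by
  show 1 * D.sh (m * i) (D.N m) * D.sh (m * i) (D.U m) = _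
  rw [one_mul, ← map_mul, D.N_U, map_smul, map_one]

theorem run_two {α : Type} {x y : Letter} {c : Word} {K : List (List α)}
    (h : Run (x :: y :: c) K) {ℓ : List α} (hℓ : K.head? = some ℓ) :
    ∃ ℓ₁ ℓ₂ rest, Step x ℓ ℓ₁ ∧ Step y ℓ₁ ℓ₂ ∧ Run c (ℓ₂ :: rest) := by
  cases h with
  | cons hs hr =>
    simp only [List.head?_cons, Option.some.injEq] at hℓ
    subst hℓ
    cases hr with
    | cons hs' hr' => exact ⟨_, _, _, hs, hs', hr'⟩

theorem red_circle (M i : ℕ) (hi : i ≤ M) (c : Word) :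
    Red M ((Kind.cup, i) :: (Kind.cap, i) :: c) c 1 where
  ev R _ _ D m := by
    rw [ev_two, ev_circle, mul_smul_comm, mul_one, pow_one]
  act ψ ℓ hℓ := by rw [act_circle (by omega), pow_one]
  run α K ℓ h1 h2 := by
    obtain ⟨ℓ₁, ℓ₂, rest, h3, h4, h5⟩ := run_two h1 h2
    rw [step_circle h3 h4] at h5
    exact ⟨_, h5, rfl⟩
  len M' h1 := by
    cases h1 with
    | cup h2 h3 =>
      cases h3 with
      | cap h4 h5 => exact h5

theorem red_zig (M i : ℕ) (hi : i + 1 ≤ M) (c : Word) :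
    Red M ((Kind.cup, i) :: (Kind.cap, i + 1) :: c) c 0 where
  ev R _ _ D m := by
    rw [ev_two, ev_fmove D m (FMove.zig i), TLData.ev_nil, mul_one, pow_zero, one_smul]
  act ψ ℓ hℓ := by rw [act_zig (by omega), pow_zero, one_mul]
  run α K ℓ h1 h2 := by
    obtain ⟨ℓ₁, ℓ₂, rest, h3, h4, h5⟩ := run_two h1 h2
    rw [step_zig h3 h4] at h5
    exact ⟨_, h5, rfl⟩
  len M' h1 := by
    cases h1 with
    | cup h2 h3 =>
      cases h3 with
      | cap h4 h5 => exact h5

theorem red_zag (M i : ℕ) (hi : i + 1 ≤ M) (c : Word) :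
    Red M ((Kind.cup, i + 1) :: (Kind.cap, i) :: c) c 0 where
  ev R _ _ D m := by
    rw [ev_two, ev_fmove D m (FMove.zag i), TLData.ev_nil, mul_one, pow_zero, one_smul]
  act ψ ℓ hℓ := by rw [act_zag (by omega), pow_zero, one_mul]
  run α K ℓ h1 h2 := by
    obtain ⟨ℓ₁, ℓ₂, rest, h3, h4, h5⟩ := run_two h1 h2
    rw [step_zag h3 h4] at h5
    exact ⟨_, h5, rfl⟩
  len M' h1 := by
    cases h1 with
    | cup h2 h3 =>
      cases h3 with
      | cap h4 h5 => exact h5

theorem red_far (M i d : ℕ) (hi : i + 2 + d ≤ M) (c : Word) :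
    Red M ((Kind.cup, i) :: (Kind.cap, i + 2 + d) :: c)
      ((Kind.cap, i + d) :: (Kind.cup, i) :: c) 0 where
  ev R _ _ D m := by
    rw [ev_two, ev_two D m (Kind.cap, i + d)]
    have h := ev_fmove D m (FMove.far Kind.cup Kind.cap i d)
    rw [pow_zero, one_smul]
    exact congrArg (fun Z => D.ev m c * Z) h
  act ψ ℓ hℓ := by rw [act_far (by omega), pow_zero, one_mul]
  run α K ℓ h1 h2 := by
    obtain ⟨ℓ₁, ℓ₂, rest, h3, h4, h5⟩ := run_two h1 h2
    obtain ⟨ℓ₃, h6, h7⟩ := step_far h3 h4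
    exact ⟨_, Run.cons h6 (Run.cons h7 h5), rfl⟩
  len M' h1 := by
    cases h1 with
    | cup h2 h3 =>
      cases h3 with
      | cap h4 h5 =>
        obtain ⟨N, rfl⟩ := Nat.exists_eq_add_of_le' (show 2 ≤ M by omega)
        exact Len.cap (by omega) (Len.cup (by omega) h5)

theorem red_far' (M j d : ℕ) (hi : j + 2 + d ≤ M) (c : Word) :
    Red M ((Kind.cup, j + 2 + d) :: (Kind.cap, j) :: c)
      ((Kind.cap, j) :: (Kind.cup, j + d) :: c) 0 where
  ev R _ _ D m := by
    rw [ev_two, ev_two D m (Kind.cap, j)]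
    have h := ev_fmove D m (FMove.far Kind.cap Kind.cup j d)
    rw [pow_zero, one_smul]
    exact congrArg (fun Z => D.ev m c * Z) h.symm
  act ψ ℓ hℓ := by rw [act_far' (by omega), pow_zero, one_mul]
  run α K ℓ h1 h2 := by
    obtain ⟨ℓ₁, ℓ₂, rest, h3, h4, h5⟩ := run_two h1 h2
    obtain ⟨ℓ₃, h6, h7⟩ := step_far' h3 h4
    exact ⟨_, Run.cons h6 (Run.cons h7 h5), rfl⟩
  len M' h1 := by
    cases h1 with
    | cup h2 h3 =>
      cases h3 with
      | cap h4 h5 =>
        obtain ⟨N, rfl⟩ := Nat.exists_eq_add_of_le' (show 2 ≤ M by omega)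
        exact Len.cap (by omega) (Len.cup (by omega) h5)

/-- Every planar word can be reduced to a word with cups only, or to a word starting with a
cap. -/
theorem exists_red (n : ℕ) : ∀ (v : Word), v.length ≤ n → Flat v → ∀ M M' : ℕ, Len v M M' →
    ∃ (k : ℕ) (v' : Word), Red M v v' k ∧ v'.length ≤ v.length ∧ Flat v' ∧
      ((∀ x ∈ v', x.1 = Kind.cup) ∨ ∃ i b, v' = (Kind.cap, i) :: b) := by
  induction n with
  | zero =>
    intro v hn hv M M' hl
    have h0 : v = [] := List.length_eq_zero_iff.1 (by omega)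
    subst h0
    exact ⟨0, [], Red.refl _ _, le_rfl, hv, Or.inl (by simp)⟩
  | succ n ih =>
    intro v hn hv M M' hl
    cases hl with
    | nil =>
      exact ⟨0, [], Red.refl _ _, le_rfl, hv, Or.inl (by simp)⟩
    | @cup w i _ _ hi hw =>
      simp only [List.length_cons] at hn
      obtain ⟨k, w', h1, h2, h3, h4⟩ := ih w (by omega) hv.tail _ _ hw
      rcases h4 with h4 | ⟨j, c, rfl⟩
      · refine ⟨k, (Kind.cup, i) :: w', h1.cup hi, by simpa using h2, ?_, Or.inl ?_⟩
        · intro x hx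
          rcases List.mem_cons.1 hx with rfl | hx
          · exact Or.inl rfl
          · exact h3 x hx
        · intro x hx
          rcases List.mem_cons.1 hx with rfl | hx
          · rfl
          · exact h4 x hx
      · have h5 := h1.cup hi
        have h6 := h1.len _ hw
        have hc : Flat c := h3.tail
        simp only [List.length_cons] at h2
        cases h6 with
        | cap hj hc' =>
          have key : ∀ q, Red M ((Kind.cup, i) :: (Kind.cap, j) :: c) c q →
              ∃ (k : ℕ) (v' : Word), Red M ((Kind.cup, i) :: w) v' k ∧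
                v'.length ≤ ((Kind.cup, i) :: w).length ∧ Flat v' ∧
                ((∀ x ∈ v', x.1 = Kind.cup) ∨ ∃ i b, v' = (Kind.cap, i) :: b) := by
            intro q hq
            obtain ⟨k', v', g1, g2, g3, g4⟩ := ih c (by omega) hc _ _ hc'
            refine ⟨k + (q + k'), v', h5.trans (hq.trans g1), ?_, g3, g4⟩
            simp only [List.length_cons]
            omega
          rcases Nat.lt_trichotomy i j with hij | hij | hij
          · rcases Nat.eq_or_lt_of_le (Nat.succ_le_of_lt hij) with hij' | hij'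
            · subst hij'
              exact key 0 (red_zig M i (by omega) c)
            · obtain ⟨d, rfl⟩ := Nat.exists_eq_add_of_le (show i + 2 ≤ j by omega)
              refine ⟨k + 0, _, h5.trans (red_far M i d (by omega) c), by simpa using h2, ?_,
                Or.inr ⟨_, _, rfl⟩⟩
              intro x hx
              simp only [List.mem_cons] at hx
              rcases hx with rfl | rfl | hx
              · exact Or.inr rfl
              · exact Or.inl rfl
              · exact hc x hx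
          · subst hij
            exact key 1 (red_circle M i (by omega) c)
          · rcases Nat.eq_or_lt_of_le (Nat.succ_le_of_lt hij) with hij' | hij'
            · subst hij'
              exact key 0 (red_zag M j (by omega) c)
            · obtain ⟨d, rfl⟩ := Nat.exists_eq_add_of_le (show j + 2 ≤ i by omega)
              refine ⟨k + 0, _, h5.trans (red_far' M j d (by omega) c), by simpa using h2, ?_,
                Or.inr ⟨_, _, rfl⟩⟩
              intro x hx
              simp only [List.mem_cons] at hx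
              rcases hx with rfl | rfl | hx
              · exact Or.inr rfl
              · exact Or.inl rfl
              · exact hc x hx
    | @cap w i _ _ hi hw =>
      exact ⟨0, _, Red.refl _ _, le_rfl, hv, Or.inr ⟨_, _, rfl⟩⟩
    | @pos w i _ _ hi hw =>
      have h2 := hv (Kind.pos, i) (List.mem_cons_self ..)
      simp at h2
    | @neg w i _ _ hi hw =>
      have h2 := hv (Kind.neg, i) (List.mem_cons_self ..)
      simp at h2

theorem len_all_cups {v : Word} {M M' : ℕ} (hl : Len v M M') (h : ∀ x ∈ v, x.1 = Kind.cup) :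
    M' = M + 2 * v.length := by
  induction hl with
  | nil a => simp
  | cup hi hw ih =>
    rw [ih fun x hx => h x (List.mem_cons_of_mem _ hx), List.length_cons]
    ring
  | cap hi hw ih => exact absurd (h _ (List.mem_cons_self ..)) (by simp)
  | pos hi hw ih => exact absurd (h _ (List.mem_cons_self ..)) (by simp)
  | neg hi hw ih => exact absurd (h _ (List.mem_cons_self ..)) (by simp)

/-- A planar word with `M` strands at the bottom and at the top is a scalar (a power of the value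
of a circle), or it starts with a cap; in the second case two neighbouring lower ends always
have the same label. -/
theorem flat_strong {v : Word} (hv : Flat v) {M : ℕ} (hM : URun M M v) :
    (∃ k : ℕ, (Lab M v).ncard = 2 ^ (M + k) ∧
      ∀ (R : Type) [Ring R] [Algebra ℝ R] (D : TLData R) (m : ℕ),
        D.ev m v = ((D.dl ^ m) ^ k) • (1 : R)) ∨
    (∃ i : ℕ, i + 2 ≤ M ∧
      (∀ (R : Type) [Ring R] [Algebra ℝ R] (D : TLData R) (m : ℕ),
        ∃ Z : R, D.ev m v = Z * D.sh (m * i) (D.N m)) ∧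
      (∀ (α : Type) (K : List (List α)) (ℓ : List α), Run v K → K.head? = some ℓ →
        ℓ[i]? = ℓ[i + 1]?)) := by
  obtain ⟨K, hK, h1, h2⟩ := hM
  have hl : Len v M M := by
    have h3 := hK.len h1 h2
    rwa [List.length_replicate] at h3
  obtain ⟨k, v', hr, _, _, h3⟩ := exists_red v.length v le_rfl hv M M hl
  have hl' := hr.len M hl
  rcases h3 with h3 | ⟨i, b, rfl⟩
  · left
    have h4 := len_all_cups hl' h3
    have h5 : v' = [] := List.length_eq_zero_iff.1 (by omega)
    subst h5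
    refine ⟨k, ?_, fun R _ _ D m => ?_⟩
    · rw [ncard_lab hv hl, tot, Finset.sum_congr rfl fun ℓ hℓ => hr.act (ind ℓ) ℓ (mem_BL.1 hℓ)]
      have h6 : ∀ ℓ : List Bool, 2 ^ k * act [] (ind ℓ) ℓ = 2 ^ k := by
        intro ℓ
        show 2 ^ k * (if ℓ = ℓ then 1 else 0) = 2 ^ k
        rw [if_pos rfl, mul_one]
      rw [Finset.sum_congr rfl fun ℓ _ => h6 ℓ, Finset.sum_const, card_BL, smul_eq_mul, pow_add]
    · rw [hr.ev]
      rfl
  · right
    cases hl' with
    | cap hi hb =>
      refine ⟨i, by omega, fun R _ _ D m => ?_, fun α K ℓ hK hℓ => ?_⟩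
      · refine ⟨((D.dl ^ m) ^ k) • D.ev m b, ?_⟩
        rw [hr.ev, TLData.ev_cons, smul_mul_assoc]
        rfl
      · obtain ⟨K', h4, h5⟩ := hr.run α K ℓ hK hℓ
        cases h4 with
        | cons hs _ =>
          simp only [List.head?_cons, Option.some.injEq] at h5
          subst h5
          obtain ⟨u, w, y, rfl, rfl, _⟩ := hs.cap_inv
          rw [getElem_append_one, getElem_append_two]

/-- A planar word with `M` strands at the bottom and at the top is a scalar (a power of the value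
of a circle), or it starts with a cap. -/
theorem flat_main {v : Word} (hv : Flat v) {M : ℕ} (hM : URun M M v) :
    (∃ k : ℕ, (Lab M v).ncard = 2 ^ (M + k) ∧
      ∀ (R : Type) [Ring R] [Algebra ℝ R] (D : TLData R) (m : ℕ),
        D.ev m v = ((D.dl ^ m) ^ k) • (1 : R)) ∨
    (∃ i : ℕ, i + 2 ≤ M ∧
      ∀ (R : Type) [Ring R] [Algebra ℝ R] (D : TLData R) (m : ℕ),
        ∃ Z : R, D.ev m v = Z * D.sh (m * i) (D.N m)) := by
  rcases flat_strong hv hM with h | ⟨i, hi, h, _⟩
  · exact Or.inl h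
  · exact Or.inr ⟨i, hi, h⟩

end Pool.Agent.HTW
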