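import Pool.Agent.HTW.Kinks

/-!
# One side, in general

`w` is the companion, `β` the pattern word.  The top channel of the satellite dominates by
assumption.
-/

namespace Pool.Agent.HTW

open Finset

/-- The top channel of the satellite dominates: it is the top channel of `w` times a scalar of
the order `A^τ`, and the other channels are smaller by the factor `A^2`. -/
def GDom (w β : Word) (n c κ : ℕ) (τ : ℤ) (N : ℕ) : Prop :=
  ∃ C A₀ : ℝ, 0 ≤ C ∧ 1 < A₀ ∧ ∀ (A : ℝ) (hA : A ≠ 0), A₀ ≤ A →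
    (tl A hA).Nt (N * n) (N * n) ((tl A hA).ev N β) ∧
    (∃ t : ℝ, Tch A hA N n w β (N * n) =
        t • ((tl A hA).ev (N * n) w * Q A hA (N * n) (N * n)) ∧
      (1 / 2) * A ^ τ ≤ |t| ∧ |t| ≤ C * A ^ τ) ∧
    ∀ j ∈ chans (N * n), j ≠ N * n → Bd (N * n) (N * n) (Tch A hA N n w β j)
      ((C * A ^ (τ + (((N * n) ^ 2 * c + N * n * κ : ℕ) : ℤ) - 2)) ^ 2)

/-- The main exponent. -/
def gexp (N n c κ : ℕ) (τ : ℤ) : ℤ :=
  2 * ((N * (n - 1) : ℕ) : ℤ) + (τ + (((N * n) ^ 2 * c + N * n * κ : ℕ) : ℤ))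

theorem gterm_top (A : ℝ) (hA : A ≠ 0) (h1 : 1 < A) {N n : ℕ} (hn : 1 ≤ n) {w β : Word}
    (c κ : ℕ) {τ : ℤ} {t : ℝ}
    (ht : Tch A hA N n w β (N * n) = t • ((tl A hA).ev (N * n) w * Q A hA (N * n) (N * n)))
    (ht1 : (1 / 2) * A ^ τ ≤ |t|)
    (hjj : (1 / 2) * A ^ ((N * n) ^ 2 * c + N * n * κ) ≤ |jj A hA (N * n) w|) :
    (1 / 4) * A ^ (gexp N n c κ τ) ≤ |tterm A hA N n w β (fun _ => true, N * n)| := by
  have hM : N + N * (n - 1) = N * n := by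
    obtain ⟨n', rfl⟩ : ∃ n', n = n' + 1 := ⟨n - 1, by omega⟩
    rw [Nat.add_sub_cancel]
    ring
  have hA0 : 0 < A := lt_trans one_pos h1
  have e1 : lab N (N * (n - 1)) (fun _ => true) = List.replicate (N * n) true := by
    unfold lab
    rw [List.ofFn_const, List.replicate_append_replicate, hM]
  have e2 : tterm A hA N n w β (fun _ => true, N * n) =
      A ^ (2 * ((N * (n - 1) : ℕ) : ℤ)) * (t * jj A hA (N * n) w) := by
    unfold tterm
    simp only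
    rw [e1, pre_replicate, cvec_replicate, List.ofFn_const, sgn_replicate,
      ht, LinearMap.smul_apply, Pi.smul_apply,
      Module.End.mul_apply, Q_vplus A hA h1, smul_eq_mul]
    rfl
  rw [e2, abs_mul, abs_mul, abs_of_pos (zpow_pos hA0 _)]
  calc (1 / 4) * A ^ (gexp N n c κ τ)
      = A ^ (2 * ((N * (n - 1) : ℕ) : ℤ)) * (((1 / 2) * A ^ τ) *
          ((1 / 2) * A ^ ((N * n) ^ 2 * c + N * n * κ))) := by
        unfold gexp
        rw [zpow_add₀ hA, zpow_add₀ hA, zpow_natCast A ((N * n) ^ 2 * c + N * n * κ)]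
        ring
    _ ≤ _ := by
        refine mul_le_mul_of_nonneg_left ?_ (zpow_nonneg hA0.le _)
        exact mul_le_mul ht1 hjj (by positivity) (abs_nonneg _)

theorem gterm_top_ne (A : ℝ) (hA : A ≠ 0) (h1 : 1 < A) {N n : ℕ} (hn : 1 ≤ n) {w β : Word}
    (c κ : ℕ) {τ : ℤ} {C C' : ℝ} (hC : 0 ≤ C) (hC' : 0 ≤ C') {t : ℝ}
    (ht : Tch A hA N n w β (N * n) = t • ((tl A hA).ev (N * n) w * Q A hA (N * n) (N * n)))
    (ht1 : |t| ≤ C' * A ^ τ)
    (hB : Bd (N * n) (N * n) ((tl A hA).ev (N * n) w * Q A hA (N * n) (N * n))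
      ((C * A ^ ((N * n) ^ 2 * c + N * n * κ)) ^ 2))
    {ε : Fin (N * (n - 1)) → Bool} (hε : ε ≠ fun _ => true) :
    |tterm A hA N n w β (ε, N * n)| ≤ C * C' * A ^ (gexp N n c κ τ - 2) := by
  have hM : N + N * (n - 1) = N * n := by
    obtain ⟨n', rfl⟩ : ∃ n', n = n' + 1 := ⟨n - 1, by omega⟩
    rw [Nat.add_sub_cancel]
    ring
  have hA0 : 0 < A := lt_trans one_pos h1
  have h2 := hB.smul t
  rw [← ht, ← mul_pow] at h2
  have h3 := entry_le h2 (lab N _ ε) (by rw [length_lab, hM])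
  rw [← sq_abs (t * _)] at h3
  have h4 := abs_le_of_sq_le_sq h3 (abs_nonneg _)
  have h5 : |Tch A hA N n w β (N * n) (cvec (lab N _ ε)) (pre (lab N _ ε) tt)| ≤
      (C' * A ^ τ) * (C * A ^ ((N * n) ^ 2 * c + N * n * κ)) := by
    refine h4.trans ?_
    rw [abs_mul, abs_of_nonneg (a := C * _) (by positivity)]
    exact mul_le_mul_of_nonneg_right ht1 (by positivity)
  have h6 : 2 * sgn (List.ofFn ε) ≤ 2 * ((N * (n - 1) : ℕ) : ℤ) - 2 := by
    have h7 := sgn_le' (List.ofFn ε) (by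
      intro h8
      rw [List.length_ofFn, ← List.ofFn_const] at h8
      exact hε (List.ofFn_injective h8))
    rw [List.length_ofFn] at h7
    omega
  unfold tterm
  rw [abs_mul, abs_of_pos (zpow_pos hA0 _)]
  calc A ^ (2 * sgn (List.ofFn ε)) * |Tch A hA N n w β (N * n)
        (cvec (lab N _ ε)) (pre (lab N _ ε) tt)|
      ≤ A ^ (2 * ((N * (n - 1) : ℕ) : ℤ) - 2) *
        ((C' * A ^ τ) * (C * A ^ ((N * n) ^ 2 * c + N * n * κ))) := by
        refine mul_le_mul (zpow_le_zpow_right₀ h1.le h6) h5 (abs_nonneg _)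
          (zpow_nonneg hA0.le _)
    _ = C * C' * A ^ (gexp N n c κ τ - 2) := by
        have e3 : gexp N n c κ τ - 2 = (2 * ((N * (n - 1) : ℕ) : ℤ) - 2) + τ +
            (((N * n) ^ 2 * c + N * n * κ : ℕ) : ℤ) := by
          unfold gexp
          ring
        rw [e3, zpow_add₀ hA, zpow_add₀ hA, zpow_natCast A ((N * n) ^ 2 * c + N * n * κ)]
        ring

theorem gterm_low (A : ℝ) (hA : A ≠ 0) (h1 : 1 < A) {N n : ℕ} (hn : 1 ≤ n) {w β : Word}
    (c κ : ℕ) {τ : ℤ} {C : ℝ} (hC : 0 ≤ C) {j : ℕ}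
    (hB : Bd (N * n) (N * n) (Tch A hA N n w β j)
      ((C * A ^ (τ + (((N * n) ^ 2 * c + N * n * κ : ℕ) : ℤ) - 2)) ^ 2))
    (ε : Fin (N * (n - 1)) → Bool) :
    |tterm A hA N n w β (ε, j)| ≤ C * A ^ (gexp N n c κ τ - 2) := by
  have hM : N + N * (n - 1) = N * n := by
    obtain ⟨n', rfl⟩ : ∃ n', n = n' + 1 := ⟨n - 1, by omega⟩
    rw [Nat.add_sub_cancel]
    ring
  have hA0 : 0 < A := lt_trans one_pos h1
  have h3 := entry_le hB (lab N _ ε) (by rw [length_lab, hM])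
  have h5 := abs_le_of_sq_le_sq h3 (mul_nonneg hC (zpow_nonneg hA0.le _))
  have h6 : 2 * sgn (List.ofFn ε) ≤ 2 * ((N * (n - 1) : ℕ) : ℤ) := by
    have h7 := sgn_le (List.ofFn ε)
    rw [List.length_ofFn] at h7
    omega
  unfold tterm
  rw [abs_mul, abs_of_pos (zpow_pos hA0 _)]
  calc A ^ (2 * sgn (List.ofFn ε)) * |Tch A hA N n w β j
        (cvec (lab N _ ε)) (pre (lab N _ ε) tt)|
      ≤ A ^ (2 * ((N * (n - 1) : ℕ) : ℤ)) *
        (C * A ^ (τ + (((N * n) ^ 2 * c + N * n * κ : ℕ) : ℤ) - 2)) := by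
        refine mul_le_mul (zpow_le_zpow_right₀ h1.le h6) h5 (abs_nonneg _)
          (zpow_nonneg hA0.le _)
    _ = C * A ^ (gexp N n c κ τ - 2) := by
        have e3 : gexp N n c κ τ - 2 = 2 * ((N * (n - 1) : ℕ) : ℤ) +
            (τ + (((N * n) ^ 2 * c + N * n * κ : ℕ) : ℤ) - 2) := by
          unfold gexp
          ring
        rw [e3, zpow_add₀ hA (2 * ((N * (n - 1) : ℕ) : ℤ))]
        ring

/-- The lower bound of the evaluation of the satellite. -/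
theorem gsatv_ge {w β : Word} {c κ : ℕ} (hD : Dom w c κ) (hw : LongWord w) {n : ℕ}
    (hn : 1 ≤ n) {N : ℕ} {τ : ℤ} (hG : GDom w β n c κ τ N) :
    ∃ A₁ : ℝ, 1 < A₁ ∧ ∀ (A : ℝ) (hA : A ≠ 0), A₁ ≤ A →
      (1 / 8) * A ^ (gexp N n c κ τ) ≤ |satv A hA N n w β| := by
  obtain ⟨C, A₀, hC, hA₀, hdom⟩ := hD (N * n)
  obtain ⟨C', A₀', hC', hA₀', hdom'⟩ := hG
  set s := (Finset.univ : Finset (Fin (N * (n - 1)) → Bool)) ×ˢ chans (N * n) with hs
  set K : ℝ := C * C' + C' with hK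
  have hK0 : 0 ≤ K := add_nonneg (mul_nonneg hC hC') hC'
  refine ⟨max (max A₀ A₀') (8 * (s.card * K) + 1),
    lt_of_lt_of_le hA₀ ((le_max_left _ _).trans (le_max_left _ _)), ?_⟩
  intro A hA hAA
  have hAA₀ : A₀ ≤ A := (le_max_left _ _).trans ((le_max_left _ _).trans hAA)
  have hAA₀' : A₀' ≤ A := (le_max_right _ _).trans ((le_max_left _ _).trans hAA)
  have hAK : 8 * (s.card * K) + 1 ≤ A := (le_max_right _ _).trans hAA
  have h1 : 1 < A := lt_of_lt_of_le hA₀ hAA₀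
  have hA0 : 0 < A := lt_trans one_pos h1
  obtain ⟨hj1, hj2⟩ := hdom A hA hAA₀
  obtain ⟨hN', ⟨t, ht, ht1, ht2⟩, hlow⟩ := hdom' A hA hAA₀'
  set E := gexp N n c κ τ with hE
  set top : (Fin (N * (n - 1)) → Bool) × ℕ := (fun _ => true, N * n) with htop
  have htop_mem : top ∈ s := by
    rw [hs, Finset.mem_product]
    exact ⟨Finset.mem_univ _, self_mem_chans _⟩
  have hE0 : 0 ≤ A ^ (E - 2) := zpow_nonneg hA0.le _
  have hb : ∀ x ∈ s.erase top, |tterm A hA N n w β x| ≤ K * A ^ (E - 2) := by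
    intro x hx
    obtain ⟨hx1, hx2⟩ := Finset.mem_erase.1 hx
    rw [hs, Finset.mem_product] at hx2
    obtain ⟨ε, j⟩ := x
    by_cases hjM : j = N * n
    · subst hjM
      refine (gterm_top_ne A hA h1 hn c κ hC hC' ht ht2 (hj2 _ (self_mem_chans _)) ?_).trans ?_
      · intro h
        apply hx1
        rw [htop, h]
      · exact mul_le_mul_of_nonneg_right (by rw [hK]; linarith) hE0
    · refine (gterm_low A hA h1 hn c κ hC' (hlow j hx2.2 hjM) ε).trans ?_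
      refine mul_le_mul_of_nonneg_right ?_ hE0
      rw [hK]
      have := mul_nonneg hC hC'
      linarith
  have hsum : |∑ x ∈ s.erase top, tterm A hA N n w β x| ≤ s.card * (K * A ^ (E - 2)) := by
    refine (Finset.abs_sum_le_sum_abs _ _).trans ?_
    refine (Finset.sum_le_card_nsmul _ _ _ hb).trans ?_
    rw [nsmul_eq_mul]
    refine mul_le_mul_of_nonneg_right ?_ (mul_nonneg hK0 hE0)
    exact_mod_cast Finset.card_le_card (Finset.erase_subset _ _)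
  have hmain := gterm_top A hA h1 hn c κ ht ht1 hj1
  have e : |satv A hA N n w β| = |∑ x ∈ s, tterm A hA N n w β x| := by
    rw [satv_eq A hA h1 hn hw hN', abs_mul, abs_pow, abs_neg, abs_one, one_pow, one_mul]
  rw [e, ← Finset.add_sum_erase s _ htop_mem]
  have h3 : |tterm A hA N n w β top| - |∑ x ∈ s.erase top, tterm A hA N n w β x| ≤
      |tterm A hA N n w β top + ∑ x ∈ s.erase top, tterm A hA N n w β x| := by
    have := abs_sub_abs_le_abs_sub (tterm A hA N n w β top)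
      (-∑ x ∈ s.erase top, tterm A hA N n w β x)
    rwa [abs_neg, sub_neg_eq_add] at this
  refine le_trans ?_ h3
  have h4 : A ^ E = A ^ 2 * A ^ (E - 2) := by
    rw [← zpow_natCast A 2, ← zpow_add₀ hA]
    congr 1
    push_cast
    ring
  have h5 : 0 < A ^ (E - 2) := zpow_pos hA0 _
  have h6 : 8 * (s.card * K) ≤ A ^ 2 := by nlinarith
  have h7 : 8 * (s.card * (K * A ^ (E - 2))) ≤ A ^ E := by
    rw [h4]
    calc 8 * (s.card * (K * A ^ (E - 2))) = 8 * (s.card * K) * A ^ (E - 2) := by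
          ring
      _ ≤ A ^ 2 * A ^ (E - 2) := mul_le_mul_of_nonneg_right h6 h5.le
  linarith

/-- The exponent inequality. -/
theorem gside {w β : Word} {c κ : ℕ} (hD : Dom w c κ) (hw : LongWord w) {n : ℕ} (hn : 1 ≤ n)
    {e : ℤ} {κ' N₀ : ℕ}
    (hG : ∀ N, N₀ ≤ N → GDom w β n c κ ((N : ℤ) ^ 2 * e + ((N * κ' : ℕ) : ℤ)) N)
    (f : ℤ) (c' h' : ℕ)
    (H : ∀ (A : ℝ) (hA : A ≠ 0), 1 < A → ∀ N : ℕ,
      (((tl A hA).mu N) ^ f * satv A hA N n w β) ^ 2 ≤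
        A ^ (2 * (N ^ 2 + 2 * N) * c') * (A ^ 2 + (A⁻¹) ^ 2) ^ (N * h')) :
    f + e + (n : ℤ) ^ 2 * c ≤ c' := by
  by_contra hcon
  rw [not_le] at hcon
  set N : ℕ := N₀ + 2 * c' + h' + 2 * f.natAbs + 1 with hN
  obtain ⟨A₁, hA₁, hge⟩ := gsatv_ge hD hw hn (hG N (by omega))
  set τ : ℤ := (N : ℤ) ^ 2 * e + ((N * κ' : ℕ) : ℤ) with hτ
  set A : ℝ := max A₁ (64 * 2 ^ (N * h') + 1) with hAd
  have hA1 : A₁ ≤ A := le_max_left _ _
  have h1 : 1 < A := lt_of_lt_of_le hA₁ hA1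
  have hA0 : 0 < A := lt_trans one_pos h1
  have hA : A ≠ 0 := hA0.ne'
  have h2 := hge A hA hA1
  have h3 := H A hA h1 N
  set X : ℕ := 2 * (N ^ 2 + 2 * N) * c' + 2 * (N * h') with hX
  set Y : ℤ := ((N ^ 2 + 2 * N : ℕ) : ℤ) * f + gexp N n c κ τ with hY
  have h4 : (1 / 8) * A ^ Y ≤ |((tl A hA).mu N) ^ f * satv A hA N n w β| := by
    rw [abs_mul, abs_zpow, abs_mu A hA h1, hY, zpow_add₀ hA, zpow_mul, zpow_natCast]
    calc (1 / 8) * ((A ^ (N ^ 2 + 2 * N)) ^ f * A ^ gexp N n c κ τ)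
        = (A ^ (N ^ 2 + 2 * N)) ^ f * ((1 / 8) * A ^ gexp N n c κ τ) := by ring
      _ ≤ _ := mul_le_mul_of_nonneg_left h2 (zpow_nonneg (by positivity) _)
  have h5 : ((1 / 8) * A ^ Y) ^ 2 ≤ (((tl A hA).mu N) ^ f * satv A hA N n w β) ^ 2 := by
    rw [← sq_abs (((tl A hA).mu N) ^ f * _)]
    exact pow_le_pow_left₀ (mul_nonneg (by norm_num) (zpow_nonneg hA0.le _)) h4 2
  have h6 : (A ^ 2 + (A⁻¹) ^ 2) ^ (N * h') ≤ (2 * A ^ 2) ^ (N * h') := by
    refine pow_le_pow_left₀ (by positivity) ?_ _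
    have : A⁻¹ ≤ A := (inv_lt_one_of_one_lt₀ h1).le.trans h1.le
    have h7 : (A⁻¹) ^ 2 ≤ A ^ 2 := pow_le_pow_left₀ (by positivity) this 2
    linarith
  have h7 : ((1 / 8) * A ^ Y) ^ 2 ≤ 2 ^ (N * h') * A ^ (X : ℤ) := by
    refine h5.trans (h3.trans ?_)
    calc A ^ (2 * (N ^ 2 + 2 * N) * c') * (A ^ 2 + (A⁻¹) ^ 2) ^ (N * h')
        ≤ A ^ (2 * (N ^ 2 + 2 * N) * c') * (2 * A ^ 2) ^ (N * h') :=
          mul_le_mul_of_nonneg_left h6 (by positivity)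
      _ = 2 ^ (N * h') * A ^ (X : ℤ) := by
          rw [zpow_natCast, hX, pow_add, mul_pow, ← pow_mul]
          ring
  have h8 : ((1 / 8) * A ^ Y) ^ 2 = (1 / 64) * A ^ (2 * Y) := by
    rw [mul_pow, ← zpow_natCast (A ^ Y) 2, ← zpow_mul]
    rw [show Y * ((2 : ℕ) : ℤ) = 2 * Y by push_cast; ring]
    norm_num
  have h9 : (X : ℤ) + 1 ≤ 2 * Y := by
    have hf : -(f.natAbs : ℤ) ≤ f := by omega
    have hNz : (N : ℤ) = N₀ + 2 * c' + h' + 2 * f.natAbs + 1 := by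
      rw [hN]
      push_cast
      ring
    have hk : (0 : ℤ) ≤ ((N * (n - 1) : ℕ) : ℤ) := Int.natCast_nonneg _
    have hκ : (0 : ℤ) ≤ (N : ℤ) * n * κ := by positivity
    have hκ' : (0 : ℤ) ≤ (N : ℤ) * κ' := by positivity
    have hm0 : (0 : ℤ) ≤ N₀ := Int.natCast_nonneg N₀
    have hc0 : (0 : ℤ) ≤ c' := Int.natCast_nonneg c'
    have hh0 : (0 : ℤ) ≤ h' := Int.natCast_nonneg h'
    have hf0 : (0 : ℤ) ≤ f.natAbs := Int.natCast_nonneg _
    have hY' : 2 * Y - X = 4 * ((N * (n - 1) : ℕ) : ℤ) + 2 * ((N : ℤ) * n * κ) +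
        2 * ((N : ℤ) * κ') + 2 * (N : ℤ) ^ 2 * (f + e + (n : ℤ) ^ 2 * c - c' - 1) +
        2 * N * (N + 2 * f - 2 * c' - h') := by
      rw [hY, hX, hτ]
      unfold gexp
      push_cast
      ring
    have hN1 : (1 : ℤ) ≤ N := by omega
    have h10 : (0 : ℤ) ≤ 2 * (N : ℤ) ^ 2 * (f + e + (n : ℤ) ^ 2 * c - c' - 1) := by
      refine mul_nonneg (by positivity) ?_
      linarith
    have h11 : (1 : ℤ) ≤ N + 2 * f - 2 * c' - h' := by omega
    have h12 : (2 : ℤ) ≤ 2 * N * (N + 2 * f - 2 * c' - h') := by nlinarith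
    linarith
  have h10 : A ^ ((X : ℤ) + 1) ≤ A ^ (2 * Y) := zpow_le_zpow_right₀ h1.le h9
  rw [h8] at h7
  rw [zpow_add₀ hA, zpow_one] at h10
  have h11 : 0 < A ^ (X : ℤ) := zpow_pos hA0 _
  have h12 : A ^ (X : ℤ) * A ≤ A ^ (X : ℤ) * (64 * 2 ^ (N * h')) := by
    calc A ^ (X : ℤ) * A ≤ A ^ (2 * Y) := h10
      _ ≤ 64 * (2 ^ (N * h') * A ^ (X : ℤ)) := by linarith
      _ = _ := by ring
  have h13 := le_of_mul_le_mul_left h12 h11
  have h14 : 64 * 2 ^ (N * h') + 1 ≤ A := le_max_right _ _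
  linarith

end Pool.Agent.HTW
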