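import Pool.Agent.HTW.Braids

/-!
# Every braid is a positive braid followed by negative full twists
-/

namespace Pool.Agent.HTW

/-! ### Algebra in a group with braid relations -/

section grp

variable {H : Type} [Group H]

/-- The braid relations for the generators `s 0, ..., s (m - 1)`. -/
structure BRel (s : ℕ → H) (m : ℕ) : Prop where
  far : ∀ i j, i + 2 ≤ j → j < m → Commute (s i) (s j)
  br : ∀ i, i + 1 < m → s i * s (i + 1) * s i = s (i + 1) * s i * s (i + 1)

/-- `s 0 * ... * s (n - 1)` -/
def grow (s : ℕ → H) (n : ℕ) : H := ((List.range n).map s).prod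

/-- `s (n - 1) * ... * s 0` -/
def gwor (s : ℕ → H) (n : ℕ) : H := ((List.range n).reverse.map s).prod

/-- the full twist -/
def gtw : ℕ → (ℕ → H) → H
  | 0, _ => 1
  | n + 1, s => gtw n (fun i => s (i + 1)) * grow s n * gwor s n

theorem grow_succ (s : ℕ → H) (n : ℕ) : grow s (n + 1) = grow s n * s n := by
  simp [grow, List.range_succ]

theorem gwor_succ (s : ℕ → H) (n : ℕ) : gwor s (n + 1) = s n * gwor s n := by
  simp [gwor, List.range_succ]

theorem grow_succ' (s : ℕ → H) (n : ℕ) :
    grow s (n + 1) = s 0 * grow (fun i => s (i + 1)) n := by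
  simp [grow, List.range_succ_eq_map, List.map_map, Function.comp_def]

theorem gwor_succ' (s : ℕ → H) (n : ℕ) :
    gwor s (n + 1) = gwor (fun i => s (i + 1)) n * s 0 := by
  simp [gwor, List.range_succ_eq_map, List.map_map, Function.comp_def, List.map_reverse]

theorem BRel.mono {s : ℕ → H} {m m' : ℕ} (h : BRel s m) (hm : m' ≤ m) : BRel s m' :=
  ⟨fun i j hij hj => h.far i j hij (by omega), fun i hi => h.br i (by omega)⟩

theorem BRel.shift {s : ℕ → H} {m : ℕ} (h : BRel s (m + 1)) : BRel (fun i => s (i + 1)) m :=
  ⟨fun i j hij hj => h.far (i + 1) (j + 1) (by omega) (by omega),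
    fun i hi => h.br (i + 1) (by omega)⟩

theorem BRel.inv {s : ℕ → H} {m : ℕ} (h : BRel s m) : BRel (fun i => (s i)⁻¹) m :=
  ⟨fun i j hij hj => (h.far i j hij hj).inv_inv, fun i hi => by
    have := congrArg (fun x : H => x⁻¹) (h.br i hi)
    simpa [mul_inv_rev, mul_assoc] using this⟩

theorem commute_grow {s : ℕ → H} {x : H} {n : ℕ} (h : ∀ i, i < n → Commute x (s i)) :
    Commute x (grow s n) := by
  induction n with
  | zero => simp [grow]
  | succ n ih =>
    rw [grow_succ]
    exact (ih fun i hi => h i (by omega)).mul_right (h n (by omega))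

theorem commute_gwor {s : ℕ → H} {x : H} {n : ℕ} (h : ∀ i, i < n → Commute x (s i)) :
    Commute x (gwor s n) := by
  induction n with
  | zero => simp [gwor]
  | succ n ih =>
    rw [gwor_succ]
    exact (h n (by omega)).mul_right (ih fun i hi => h i (by omega))

theorem commute_gtw {x : H} {n : ℕ} : ∀ {s : ℕ → H}, (∀ i, i + 2 ≤ n → Commute x (s i)) →
    Commute x (gtw n s) := by
  induction n with
  | zero =>
    intro s _
    exact Commute.one_right x
  | succ n ih =>
    intro s h
    refine ((ih fun i hi => h (i + 1) (by omega)).mul_right (commute_grow fun i hi => ?_)).mul_right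
      (commute_gwor fun i hi => ?_)
    · exact h i (by omega)
    · exact h i (by omega)

theorem grow_comm {s : ℕ → H} {n : ℕ} (h : BRel s n) (i : ℕ) (hi : i + 1 < n) :
    s (i + 1) * grow s n = grow s n * s i := by
  induction n with
  | zero => omega
  | succ n ih =>
    rw [grow_succ]
    by_cases h1 : i + 1 < n
    · rw [← mul_assoc, ih (h.mono (by omega)) h1, mul_assoc, mul_assoc,
        (h.far i n (by omega) (by omega)).eq]
    · obtain rfl : n = i + 1 := by omega
      rw [grow_succ]
      have h2 : Commute (s (i + 1)) (grow s i) :=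
        commute_grow fun j hj => (h.far j (i + 1) (by omega) (by omega)).symm
      calc s (i + 1) * (grow s i * s i * s (i + 1))
          = s (i + 1) * grow s i * (s i * s (i + 1)) := by simp only [mul_assoc]
        _ = grow s i * (s (i + 1) * s i * s (i + 1)) := by rw [h2.eq]; simp only [mul_assoc]
        _ = grow s i * s i * s (i + 1) * s i := by
            rw [← h.br i (by omega)]; simp only [mul_assoc]

theorem gwor_comm {s : ℕ → H} {n : ℕ} (h : BRel s n) (i : ℕ) (hi : i + 1 < n) :
    s i * gwor s n = gwor s n * s (i + 1) := by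
  induction n with
  | zero => omega
  | succ n ih =>
    rw [gwor_succ]
    by_cases h1 : i + 1 < n
    · rw [← mul_assoc, (h.far i n (by omega) (by omega)).eq, mul_assoc,
        ih (h.mono (by omega)) h1, mul_assoc]
    · obtain rfl : n = i + 1 := by omega
      rw [gwor_succ]
      have h2 : Commute (s (i + 1)) (gwor s i) :=
        commute_gwor fun j hj => (h.far j (i + 1) (by omega) (by omega)).symm
      calc s i * (s (i + 1) * (s i * gwor s i))
          = s i * s (i + 1) * s i * gwor s i := by simp only [mul_assoc]
        _ = s (i + 1) * s i * (s (i + 1) * gwor s i) := by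
            rw [h.br i (by omega)]; simp only [mul_assoc]
        _ = s (i + 1) * (s i * gwor s i) * s (i + 1) := by rw [h2.eq]; simp only [mul_assoc]

theorem rw_comm {s : ℕ → H} {n : ℕ} (h : BRel s n) (i : ℕ) (hi : i + 1 < n) :
    Commute (s (i + 1)) (grow s n * gwor s n) := by
  show s (i + 1) * (grow s n * gwor s n) = grow s n * gwor s n * s (i + 1)
  rw [← mul_assoc, grow_comm h i hi, mul_assoc, gwor_comm h i hi, mul_assoc]

/-- The full twist is central. -/
theorem gtw_comm {n : ℕ} : ∀ {s : ℕ → H}, BRel s (n - 1) → ∀ i, i + 2 ≤ n →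
    Commute (s i) (gtw n s) := by
  induction n with
  | zero => intro s _ i hi; omega
  | succ n ih =>
    intro s h i hi
    have hn : n + 1 - 1 = n := by omega
    rw [hn] at h
    obtain _ | i := i
    · obtain ⟨m, rfl⟩ : ∃ m, n = m + 1 := ⟨n - 1, by omega⟩
      set s' : ℕ → H := fun i => s (i + 1) with hs'
      set P0 := grow s (m + 1) * gwor s (m + 1) with hP0
      set P1 := grow s' m * gwor s' m with hP1
      have e0 : P0 = s 0 * P1 * s 0 := by
        rw [hP0, hP1, grow_succ', gwor_succ', ← hs']
        simp only [mul_assoc]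
      have hc : Commute P0 P1 := by
        refine Commute.mul_right (commute_grow fun j hj => ?_) (commute_gwor fun j hj => ?_)
        · exact (rw_comm h j (by omega)).symm
        · exact (rw_comm h j (by omega)).symm
      have e1 : gtw (m + 1 + 1) s = gtw m (fun i => s' (i + 1)) * (P1 * P0) := by
        show gtw m (fun i => s' (i + 1)) * grow s' m * gwor s' m * grow s (m + 1) *
          gwor s (m + 1) = _
        rw [hP0, hP1]
        simp only [mul_assoc]
      rw [e1]
      refine Commute.mul_right (commute_gtw fun j hj => ?_) ?_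
      · exact h.far 0 (j + 2) (by omega) (by omega)
      · show s 0 * (P1 * P0) = P1 * P0 * s 0
        calc s 0 * (P1 * P0) = s 0 * P1 * s 0 * P1 * s 0 := by rw [e0]; simp only [mul_assoc]
          _ = P0 * P1 * s 0 := by rw [← e0]
          _ = P1 * P0 * s 0 := by rw [hc.eq]
    · obtain ⟨m, rfl⟩ : ∃ m, n = m + 1 := ⟨n - 1, by omega⟩
      show Commute (s (i + 1)) (gtw (m + 1) (fun i => s (i + 1)) * grow s (m + 1) *
        gwor s (m + 1))
      rw [mul_assoc]
      refine Commute.mul_right ?_ (rw_comm h i (by omega))
      exact ih (s := fun i => s (i + 1)) (by simpa using h.shift) i (by omega)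

/-- The full twist ends with any generator. -/
theorem gtw_split {n : ℕ} : ∀ {s : ℕ → H}, BRel s (n - 1) → ∀ i, i + 2 ≤ n →
    ∃ L : List ℕ, (∀ j ∈ L, j + 2 ≤ n) ∧ gtw n s = (L.map s).prod * s i := by
  induction n with
  | zero => intro s _ i hi; omega
  | succ n ih =>
    intro s h i hi
    have hn : n + 1 - 1 = n := by omega
    rw [hn] at h
    obtain ⟨m, rfl⟩ : ∃ m, n = m + 1 := ⟨n - 1, by omega⟩
    -- a list for the twist on the last strands
    have hlist : ∀ (k : ℕ) (u : ℕ → H), ∃ L : List ℕ, (∀ j ∈ L, j + 2 ≤ k) ∧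
        gtw k u = (L.map u).prod := by
      intro k
      induction k with
      | zero => intro u; exact ⟨[], by simp, rfl⟩
      | succ k ihk =>
        intro u
        obtain ⟨L, hL, hL2⟩ := ihk (fun i => u (i + 1))
        refine ⟨L.map (· + 1) ++ List.range k ++ (List.range k).reverse, ?_, ?_⟩
        · intro j hj
          simp only [List.mem_append, List.mem_map, List.mem_range, List.mem_reverse] at hj
          rcases hj with (⟨a, ha, rfl⟩ | hj) | hj
          · have := hL a ha; omega
          · omega
          · omega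
        · show gtw k (fun i => u (i + 1)) * grow u k * gwor u k = _
          rw [hL2, grow, gwor]
          simp [List.map_append, List.prod_append, List.map_map, Function.comp_def, mul_assoc]
    obtain _ | i := i
    · obtain ⟨L, hL, hL2⟩ := hlist (m + 1) (fun i => s (i + 1))
      refine ⟨L.map (· + 1) ++ List.range (m + 1) ++ ((List.range m).reverse).map (· + 1), ?_, ?_⟩
      · intro j hj
        simp only [List.mem_append, List.mem_map, List.mem_range, List.mem_reverse] at hj
        rcases hj with (⟨a, ha, rfl⟩ | hj) | ⟨a, ha, rfl⟩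
        · have := hL a ha; omega
        · omega
        · omega
      · show gtw (m + 1) (fun i => s (i + 1)) * grow s (m + 1) * gwor s (m + 1) = _
        rw [hL2, gwor_succ', grow, gwor]
        simp [List.map_append, List.prod_append, List.map_map, Function.comp_def, mul_assoc]
    · obtain ⟨L, hL, hL2⟩ := ih (s := fun i => s (i + 1)) (by simpa using h.shift) i (by omega)
      refine ⟨L.map (· + 1) ++ List.range (m + 1) ++ (List.range (m + 1)).reverse, ?_, ?_⟩
      · intro j hj
        simp only [List.mem_append, List.mem_map, List.mem_range, List.mem_reverse] at hj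
        rcases hj with (⟨a, ha, rfl⟩ | hj) | hj
        · have := hL a ha; omega
        · omega
        · omega
      · show gtw (m + 1) (fun i => s (i + 1)) * grow s (m + 1) * gwor s (m + 1) = _
        have h2 := (rw_comm h i (by omega)).eq
        have e : ((L.map (· + 1) ++ List.range (m + 1) ++ (List.range (m + 1)).reverse).map s).prod =
            (L.map fun i => s (i + 1)).prod * (grow s (m + 1) * gwor s (m + 1)) := by
          rw [grow, gwor]
          simp only [List.map_append, List.prod_append, List.map_map, Function.comp_def, mul_assoc]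
        rw [hL2, e, mul_assoc, mul_assoc, mul_assoc, ← h2]

theorem gtw_inv {n : ℕ} : ∀ {s : ℕ → H}, BRel s (n - 1) →
    gtw n (fun i => (s i)⁻¹) = (gtw n s)⁻¹ := by
  induction n with
  | zero => intro s _; simp [gtw]
  | succ n ih =>
    intro s h
    have hn : n + 1 - 1 = n := by omega
    rw [hn] at h
    have hr : ∀ k, grow (fun i => (s i)⁻¹) k = (gwor s k)⁻¹ := by
      intro k
      induction k with
      | zero => simp [grow, gwor]
      | succ k ihk => rw [grow_succ, gwor_succ, ihk, mul_inv_rev]
    have hw : ∀ k, gwor (fun i => (s i)⁻¹) k = (grow s k)⁻¹ := by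
      intro k
      induction k with
      | zero => simp [grow, gwor]
      | succ k ihk => rw [grow_succ, gwor_succ, ihk, mul_inv_rev]
    show gtw n (fun i => (s (i + 1))⁻¹) * grow (fun i => (s i)⁻¹) n *
      gwor (fun i => (s i)⁻¹) n = (gtw n (fun i => s (i + 1)) * grow s n * gwor s n)⁻¹
    obtain _ | m := n
    · simp [gtw, grow, gwor]
    rw [ih (s := fun i => s (i + 1)) (by simpa using h.shift), hr, hw]
    have hc : Commute (grow s (m + 1) * gwor s (m + 1)) (gtw (m + 1) (fun i => s (i + 1))) :=
      commute_gtw fun j hj => (rw_comm h j (by omega)).symm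
    have e1 : gtw (m + 1) (fun i => s (i + 1)) * grow s (m + 1) * gwor s (m + 1) =
        grow s (m + 1) * gwor s (m + 1) * gtw (m + 1) (fun i => s (i + 1)) := by
      rw [hc.eq, mul_assoc]
    rw [e1, mul_inv_rev, mul_inv_rev, mul_assoc]

/-- Every word in the generators and their inverses is a positive word times negative
full twists. -/
theorem gform {n : ℕ} {s : ℕ → H} (h : BRel s (n - 1)) (W : List (Bool × ℕ))
    (hW : ∀ x ∈ W, x.2 + 2 ≤ n) :
    ∃ L : List ℕ, (∀ j ∈ L, j + 2 ≤ n) ∧
      (W.map fun x => if x.1 then s x.2 else (s x.2)⁻¹).prod =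
        (L.map s).prod * ((gtw n s)⁻¹) ^ (W.countP fun x => !x.1) := by
  induction W with
  | nil => exact ⟨[], by simp, by simp⟩
  | cons x W ih =>
    obtain ⟨L, hL, hL2⟩ := ih fun y hy => hW y (List.mem_cons_of_mem _ hy)
    have hx := hW x List.mem_cons_self
    obtain ⟨b, i⟩ := x
    rw [List.map_cons, List.prod_cons, hL2]
    cases b with
    | true =>
      refine ⟨i :: L, ?_, ?_⟩
      · intro j hj
        rcases List.mem_cons.1 hj with rfl | hj
        · exact hx
        · exact hL j hj
      · simp [mul_assoc]
    | false =>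
      obtain ⟨L', hL', hL2'⟩ := gtw_split h i hx
      refine ⟨L' ++ L, ?_, ?_⟩
      · intro j hj
        rcases List.mem_append.1 hj with hj | hj
        · exact hL' j hj
        · exact hL j hj
      · have e1 : (s i)⁻¹ = (gtw n s)⁻¹ * (L'.map s).prod := by
          rw [hL2', mul_inv_rev, mul_assoc, inv_mul_cancel, mul_one]
        have hc : ∀ L : List ℕ, (∀ j ∈ L, j + 2 ≤ n) →
            Commute ((gtw n s)⁻¹) (L.map s).prod := by
          intro L hL
          induction L with
          | nil => simp
          | cons j L ihL =>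
            rw [List.map_cons, List.prod_cons]
            exact ((gtw_comm h j (hL j List.mem_cons_self)).symm.inv_left).mul_right
              (ihL fun j hj => hL j (List.mem_cons_of_mem _ hj))
        have e2 : (List.map s (L' ++ L)).prod = (L'.map s).prod * (L.map s).prod := by
          rw [List.map_append, List.prod_append]
        have hcount : (((false, i) :: W).countP fun x => !x.1) = (W.countP fun x => !x.1) + 1 := by
          simp
        rw [hcount, e2, pow_succ']
        simp only [Bool.false_eq_true, if_false]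
        rw [e1]
        have h3 := (hc L' hL').eq
        have h4 := (hc L hL).eq
        calc (gtw n s)⁻¹ * (L'.map s).prod * ((L.map s).prod *
              (gtw n s)⁻¹ ^ (W.countP fun x => !x.1))
            = ((gtw n s)⁻¹ * (L'.map s).prod) * (L.map s).prod *
              (gtw n s)⁻¹ ^ (W.countP fun x => !x.1) := by simp only [mul_assoc]
          _ = (L'.map s).prod * ((gtw n s)⁻¹ * (L.map s).prod) *
              (gtw n s)⁻¹ ^ (W.countP fun x => !x.1) := by rw [h3]; simp only [mul_assoc]
          _ = (L'.map s).prod * (L.map s).prod * ((gtw n s)⁻¹ *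
              (gtw n s)⁻¹ ^ (W.countP fun x => !x.1)) := by rw [h4]; simp only [mul_assoc]

end grp

/-! ### The braid group as a quotient -/

/-- The letters which are not crossings of the `n` strands are deleted. -/
def gfl (n : ℕ) (w : Word) : Word :=
  w.filter fun x => decide ((x.1 = Kind.pos ∨ x.1 = Kind.neg) ∧ x.2 + 2 ≤ n)

theorem gfl_append (n : ℕ) (v w : Word) : gfl n (v ++ w) = gfl n v ++ gfl n w :=
  List.filter_append ..

theorem isBraid_gfl (n : ℕ) (w : Word) : IsBraid n (gfl n w) := by
  intro x hx
  have := (List.mem_filter.1 hx).2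
  simpa using this

theorem gfl_of_isBraid {n : ℕ} {w : Word} (h : IsBraid n w) : gfl n w = w := by
  unfold gfl
  rw [List.filter_eq_self]
  intro x hx
  simpa using h x hx

theorem gisBraid_append {n : ℕ} {v w : Word} (hv : IsBraid n v) (hw : IsBraid n w) :
    IsBraid n (v ++ w) := by
  intro x hx
  rcases List.mem_append.1 hx with h | h
  · exact hv x h
  · exact hw x h

theorem braidEq_left {n : ℕ} {a v w : Word} (ha : IsBraid n a) (h : BraidEq n v w) :
    BraidEq n (a ++ v) (a ++ w) := by
  induction h with
  | rel v w h =>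
    obtain ⟨h1, h2, c, b, l, r, h3, h4, h5⟩ := h
    exact Relation.EqvGen.rel _ _ ⟨gisBraid_append ha h1, gisBraid_append ha h2, a ++ c, b, l, r,
      h3, by rw [h4]; simp, by rw [h5]; simp⟩
  | refl w => exact Relation.EqvGen.refl _
  | symm w w' _ ih => exact Relation.EqvGen.symm _ _ ih
  | trans w w' w'' _ _ ih ih' => exact Relation.EqvGen.trans _ _ _ ih ih'

theorem braidEq_right {n : ℕ} {a v w : Word} (ha : IsBraid n a) (h : BraidEq n v w) :
    BraidEq n (v ++ a) (w ++ a) := by
  induction h with
  | rel v w h =>
    obtain ⟨h1, h2, c, b, l, r, h3, h4, h5⟩ := h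
    exact Relation.EqvGen.rel _ _ ⟨gisBraid_append h1 ha, gisBraid_append h2 ha, c, b ++ a, l, r,
      h3, by rw [h4]; simp, by rw [h5]; simp⟩
  | refl w => exact Relation.EqvGen.refl _
  | symm w w' _ ih => exact Relation.EqvGen.symm _ _ ih
  | trans w w' w'' _ _ ih ih' => exact Relation.EqvGen.trans _ _ _ ih ih'

/-- Equality in the braid group. -/
def gsetoid (n : ℕ) : Setoid Word where
  r v w := BraidEq n (gfl n v) (gfl n w)
  iseqv := ⟨fun _ => Relation.EqvGen.refl _, fun h => Relation.EqvGen.symm _ _ h,
    fun h h' => Relation.EqvGen.trans _ _ _ h h'⟩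

/-- The braid group (as a monoid). -/
def GB (n : ℕ) : Type := Quotient (gsetoid n)

/-- The class of a word. -/
def gcl (n : ℕ) (w : Word) : GB n := Quotient.mk (gsetoid n) w

theorem gcl_eq {n : ℕ} {v w : Word} (hv : IsBraid n v) (hw : IsBraid n w) :
    gcl n v = gcl n w ↔ BraidEq n v w := by
  constructor
  · intro h
    have h1 : BraidEq n (gfl n v) (gfl n w) := Quotient.exact h
    rwa [gfl_of_isBraid hv, gfl_of_isBraid hw] at h1
  · intro h
    apply Quotient.sound
    show BraidEq n (gfl n v) (gfl n w)
    rwa [gfl_of_isBraid hv, gfl_of_isBraid hw]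

instance (n : ℕ) : Monoid (GB n) where
  mul := Quotient.map₂ (· ++ ·) (by
    intro v v' h w w' h'
    show BraidEq n (gfl n (v ++ w)) (gfl n (v' ++ w'))
    rw [gfl_append, gfl_append]
    exact Relation.EqvGen.trans _ _ _ (braidEq_right (isBraid_gfl n w) h)
      (braidEq_left (isBraid_gfl n v') h'))
  one := gcl n []
  mul_assoc := by
    rintro ⟨a⟩ ⟨b⟩ ⟨c⟩
    show gcl n ((a ++ b) ++ c) = gcl n (a ++ (b ++ c))
    rw [List.append_assoc]
  one_mul := by
    rintro ⟨a⟩
    rfl
  mul_one := by
    rintro ⟨a⟩
    show gcl n (a ++ []) = gcl n a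
    rw [List.append_nil]

theorem gcl_append (n : ℕ) (v w : Word) : gcl n (v ++ w) = gcl n v * gcl n w := rfl

theorem gcl_nil (n : ℕ) : gcl n [] = 1 := rfl

theorem gcl_bmove {n : ℕ} {l r : Word} (h : BMove l r) (hl : IsBraid n l) (hr : IsBraid n r) :
    gcl n l = gcl n r :=
  (gcl_eq hl hr).2 (Relation.EqvGen.rel _ _ ⟨hl, hr, [], [], l, r, h, by simp, by simp⟩)

theorem gcl_not {n : ℕ} {x : Letter} (h : ¬ ((x.1 = Kind.pos ∨ x.1 = Kind.neg) ∧ x.2 + 2 ≤ n)) :
    gcl n [x] = 1 := by
  apply Quotient.sound
  show BraidEq n (gfl n [x]) (gfl n [])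
  have : gfl n [x] = [] := by
    unfold gfl
    rw [List.filter_cons_of_neg (by simpa using h), List.filter_nil]
  rw [this]
  exact Relation.EqvGen.refl _

/-- The generators. -/
def gs (n i : ℕ) : (GB n)ˣ where
  val := gcl n [(.pos, i)]
  inv := gcl n [(.neg, i)]
  val_inv := by
    by_cases h : i + 2 ≤ n
    · rw [← gcl_append, ← gcl_nil]
      exact gcl_bmove (BMove.r2a i) (by intro x hx; simp at hx; rcases hx with rfl | rfl <;> simp [h])
        (by intro x hx; simp at hx)
    · rw [gcl_not (by simp; omega), gcl_not (by simp; omega), one_mul]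
  inv_val := by
    by_cases h : i + 2 ≤ n
    · rw [← gcl_append, ← gcl_nil]
      exact gcl_bmove (BMove.r2b i) (by intro x hx; simp at hx; rcases hx with rfl | rfl <;> simp [h])
        (by intro x hx; simp at hx)
    · rw [gcl_not (by simp; omega), gcl_not (by simp; omega), one_mul]

theorem gs_brel (n : ℕ) : BRel (gs n) (n - 1) where
  far i j hij hj := by
    obtain ⟨d, rfl⟩ : ∃ d, j = i + 2 + d := ⟨j - (i + 2), by omega⟩
    apply Units.ext
    show gcl n [(.pos, i)] * gcl n [(.pos, i + 2 + d)] =
      gcl n [(.pos, i + 2 + d)] * gcl n [(.pos, i)]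
    rw [← gcl_append, ← gcl_append]
    exact gcl_bmove (BMove.far .pos .pos (Or.inl rfl) (Or.inl rfl) i d)
      (by intro x hx; simp at hx; rcases hx with rfl | rfl <;> simp <;> omega)
      (by intro x hx; simp at hx; rcases hx with rfl | rfl <;> simp <;> omega)
  br i hi := by
    apply Units.ext
    show gcl n [(.pos, i)] * gcl n [(.pos, i + 1)] * gcl n [(.pos, i)] =
      gcl n [(.pos, i + 1)] * gcl n [(.pos, i)] * gcl n [(.pos, i + 1)]
    rw [← gcl_append, ← gcl_append, ← gcl_append, ← gcl_append]
    exact gcl_bmove (BMove.r3 i)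
      (by intro x hx; simp at hx; rcases hx with rfl | rfl | rfl <;> simp <;> omega)
      (by intro x hx; simp at hx; rcases hx with rfl | rfl | rfl <;> simp <;> omega)

/-- The value of a letter. -/
def gval (n : ℕ) (x : Letter) : (GB n)ˣ :=
  if x.1 = .pos then gs n x.2 else if x.1 = .neg then (gs n x.2)⁻¹ else 1

theorem gcl_word (n : ℕ) (w : Word) : gcl n w = ((w.map (gval n)).prod : (GB n)ˣ) := by
  induction w with
  | nil => rfl
  | cons x w ih =>
    rw [List.map_cons, List.prod_cons, Units.val_mul, ← ih]
    have h1 : gcl n (x :: w) = gcl n [x] * gcl n w := rfl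
    rw [h1]
    congr 1
    obtain ⟨k, i⟩ := x
    unfold gval
    cases k with
    | cup => rw [if_neg (by simp), if_neg (by simp)]; exact gcl_not (by simp)
    | cap => rw [if_neg (by simp), if_neg (by simp)]; exact gcl_not (by simp)
    | pos => rw [if_pos rfl]; rfl
    | neg => rw [if_neg (by simp), if_pos rfl]; rfl

theorem braidEq_of_prod {n : ℕ} {v w : Word} (hv : IsBraid n v) (hw : IsBraid n w)
    (h : (v.map (gval n)).prod = (w.map (gval n)).prod) : BraidEq n v w := by
  rw [← gcl_eq hv hw, gcl_word, gcl_word, h]

theorem gval_twistWord (n : ℕ) (k : Kind) : ∀ (m d : ℕ),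
    ((shiftWord d (twistWord k m)).map (gval n)).prod = gtw m (fun i => gval n (k, i + d)) := by
  intro m
  induction m with
  | zero => intro d; simp [twistWord, shiftWord, gtw]
  | succ m ih =>
    intro d
    have e1 : shiftWord d (twistWord k (m + 1)) = shiftWord (d + 1) (twistWord k m) ++
        (List.range m).map (fun j => (k, j + d)) ++
        (List.range m).reverse.map (fun j => (k, j + d)) := by
      simp [twistWord, shiftWord, List.map_map, Function.comp_def, add_assoc, add_comm 1 d]
    rw [e1, List.map_append, List.map_append, List.prod_append, List.prod_append, ih (d + 1)]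
    show _ = gtw m (fun i => gval n (k, i + 1 + d)) * grow (fun i => gval n (k, i + d)) m *
      gwor (fun i => gval n (k, i + d)) m
    unfold grow gwor
    rw [List.map_map, List.map_map]
    have e2 : (fun i => gval n (k, i + (d + 1))) = (fun i => gval n (k, i + 1 + d)) := by
      funext i
      rw [add_assoc, add_comm 1 d]
    rw [e2]
    rfl

theorem gval_twists (n m : ℕ) (k : Kind) :
    ((twists k n m).map (gval n)).prod = (gtw n (fun i => gval n (k, i))) ^ m := by
  induction m with
  | zero => simp [twists]
  | succ m ih =>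
    have e : twists k n (m + 1) = twistWord k n ++ twists k n m := by
      simp [twists, List.replicate_succ]
    have e0 : shiftWord 0 (twistWord k n) = twistWord k n := by
      simp [shiftWord]
    have h := gval_twistWord n k n 0
    rw [e0] at h
    rw [e, List.map_append, List.prod_append, ih, h, pow_succ']
    rfl

theorem gisBraid_twists (k : Kind) (hk : k = .pos ∨ k = .neg) (n t : ℕ) :
    IsBraid n (twists k n t) := by
  have h1 : ∀ m, IsBraid m (twistWord k m) := by
    intro m
    induction m with
    | zero => intro x hx; simp [twistWord] at hx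
    | succ m ih =>
      intro x hx
      simp only [twistWord, shiftWord, List.mem_append, List.mem_map, List.mem_range,
        List.mem_reverse] at hx
      rcases hx with (⟨y, hy, rfl⟩ | ⟨j, hj, rfl⟩) | ⟨j, hj, rfl⟩
      · have := ih y hy
        exact ⟨this.1, by have := this.2; simp only; omega⟩
      · exact ⟨hk, by simp only; omega⟩
      · exact ⟨hk, by simp only; omega⟩
  intro x hx
  simp only [twists, List.mem_flatten, List.mem_replicate] at hx
  obtain ⟨l, ⟨_, rfl⟩, hx⟩ := hx
  exact h1 n x hx

/-- **Every braid is a positive braid followed by negative full twists.** -/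
theorem braid_form {n : ℕ} {β : Word} (hβ : IsBraid n β) :
    ∃ P, IsPosBraid n P ∧
      TIso n β (P ++ twists .neg n (β.countP (fun x => x.1 = Kind.neg))) := by
  obtain ⟨L, hL, hL2⟩ := gform (gs_brel n) (β.map fun x => (decide (x.1 = Kind.pos), x.2)) (by
    intro x hx
    obtain ⟨y, hy, rfl⟩ := List.mem_map.1 hx
    exact (hβ y hy).2)
  refine ⟨L.map fun i => (Kind.pos, i), ?_, tIso_of_braidEq (braidEq_of_prod hβ ?_ ?_)⟩
  · intro x hx
    obtain ⟨i, hi, rfl⟩ := List.mem_map.1 hx
    exact ⟨rfl, hL i hi⟩
  · refine gisBraid_append ?_ (gisBraid_twists _ (Or.inr rfl) _ _)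
    intro x hx
    obtain ⟨i, hi, rfl⟩ := List.mem_map.1 hx
    exact ⟨Or.inl rfl, hL i hi⟩
  · have e1 : (β.map (gval n)).prod = ((β.map fun x => (decide (x.1 = Kind.pos), x.2)).map
        fun x => if x.1 then gs n x.2 else (gs n x.2)⁻¹).prod := by
      rw [List.map_map]
      congr 1
      apply List.map_congr_left
      intro x hx
      rcases (hβ x hx).1 with h | h <;> simp [gval, h]
    have e2 : ((β.map fun x => (decide (x.1 = Kind.pos), x.2)).countP fun x => !x.1) =
        β.countP (fun x => x.1 = Kind.neg) := by
      rw [List.countP_map]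
      apply List.countP_congr
      intro x hx
      rcases (hβ x hx).1 with h | h <;> simp [h]
    rw [e1, hL2, e2, List.map_append, List.prod_append, gval_twists, List.map_map]
    have e3 : (fun i => gval n (Kind.neg, i)) = fun i => (gs n i)⁻¹ := by
      funext i
      simp [gval]
    rw [e3, gtw_inv (gs_brel n)]
    rfl

/-- The mirror image of `braid_form`. -/
theorem braid_form' {n : ℕ} {β : Word} (hβ : IsBraid n β) :
    ∃ Q, IsPosBraid n Q ∧
      TIso n β (mirror Q ++ twists .pos n (β.countP (fun x => x.1 = Kind.pos))) := by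
  obtain ⟨L, hL, hL2⟩ := gform (gs_brel n).inv
    (β.map fun x => (decide (x.1 = Kind.neg), x.2)) (by
    intro x hx
    obtain ⟨y, hy, rfl⟩ := List.mem_map.1 hx
    exact (hβ y hy).2)
  refine ⟨L.map fun i => (Kind.pos, i), ?_, tIso_of_braidEq (braidEq_of_prod hβ ?_ ?_)⟩
  · intro x hx
    obtain ⟨i, hi, rfl⟩ := List.mem_map.1 hx
    exact ⟨rfl, hL i hi⟩
  · refine gisBraid_append ?_ (gisBraid_twists _ (Or.inl rfl) _ _)
    intro x hx
    simp only [mirror, List.mem_map] at hx
    obtain ⟨y, ⟨i, hi, rfl⟩, rfl⟩ := hx
    exact ⟨Or.inr rfl, hL i hi⟩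
  · have e1 : (β.map (gval n)).prod = ((β.map fun x => (decide (x.1 = Kind.neg), x.2)).map
        fun x => if x.1 then (gs n x.2)⁻¹ else ((gs n x.2)⁻¹)⁻¹).prod := by
      rw [List.map_map]
      congr 1
      apply List.map_congr_left
      intro x hx
      rcases (hβ x hx).1 with h | h <;> simp [gval, h]
    have e2 : ((β.map fun x => (decide (x.1 = Kind.neg), x.2)).countP fun x => !x.1) =
        β.countP (fun x => x.1 = Kind.pos) := by
      rw [List.countP_map]
      apply List.countP_congr
      intro x hx
      rcases (hβ x hx).1 with h | h <;> simp [h]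
    rw [e1, hL2, e2, List.map_append, List.prod_append, gval_twists, mirror, List.map_map,
      List.map_map]
    have e3 : (fun i => gval n (Kind.pos, i)) = fun i => ((gs n i)⁻¹)⁻¹ := by
      funext i
      simp [gval]
    rw [e3, gtw_inv (gs_brel n).inv]
    rfl

end Pool.Agent.HTW
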