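import Pool.Agent.HTW.Defs

/-!
# Clasps
-/

namespace Pool.Agent.HTW

/-- The clasp of two strands with crossings of kind `c`: an arc joining the two lower ends and
an arc joining the two upper ends, hooked together. -/
def clasp (c : Kind) : Word := [(.cup, 1), (c, 0), (c, 2), (.cap, 1)]

end Pool.Agent.HTW
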