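import Pool.Agent.HTW.FlatRed

/-!
# Labellings with a relation at the crossings, and their Fourier transform (helper52)

The inequality `|V| |W| ≤ |V ∩ W| |V + W|` and the duality between the labellings with even sum at
each crossing and the labellings which are constant at each crossing.
-/

namespace Pool.Agent.HTW.Pl

open Finset

/-- A relation between the labels below and above a crossing. -/
abbrev Rel := Kind → Bool → Bool → Bool → Bool → Bool

/-- the all-A state -/
def rA : Rel
  | .pos, a, b, a', b' => (a' == a) && (b' == b)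
  | _, a, b, a', b' => (a == b) && (a' == b')

/-- the all-B state -/
def rB : Rel
  | .neg, a, b, a', b' => (a' == a) && (b' == b)
  | _, a, b, a', b' => (a == b) && (a' == b')

/-- even sum -/
def rX : Rel := fun _ a b a' b' => xor a b == xor a' b'

/-- constant -/
def rE : Rel := fun _ a b a' b' => (a == b) && ((a' == a) && (b' == a))

/-- replace the labels at the positions `i` and `i + 1` -/
def rep (i : ℕ) (a b : Bool) (ℓ : List Bool) : List Bool := ℓ.take i ++ a :: b :: ℓ.drop (i + 2)

theorem rep_append (u v : List Bool) (a b x y : Bool) :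
    rep u.length x y (u ++ a :: b :: v) = u ++ x :: y :: v := by
  simp [rep, List.drop_append]

theorem getD_one (u v : List Bool) (x y : Bool) : (u ++ x :: y :: v).getD u.length false = x := by
  simp

theorem getD_two (u v : List Bool) (x y : Bool) :
    (u ++ x :: y :: v).getD (u.length + 1) false = y := by
  simp

/-- the sum over the labellings just above the letter -/
def st (R : Rel) : Letter → (List Bool → ℤ) → List Bool → ℤ
  | (.cup, i), g, ℓ => g (ins i false ℓ) + g (ins i true ℓ)
  | (.cap, i), g, ℓ => if ℓ[i]? = ℓ[i + 1]? then g (rem2 i ℓ) else 0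
  | (.pos, i), g, ℓ => ∑ a : Bool, ∑ b : Bool,
      if R .pos (ℓ.getD i false) (ℓ.getD (i + 1) false) a b then g (rep i a b ℓ) else 0
  | (.neg, i), g, ℓ => ∑ a : Bool, ∑ b : Bool,
      if R .neg (ℓ.getD i false) (ℓ.getD (i + 1) false) a b then g (rep i a b ℓ) else 0

theorem st_cup (R : Rel) (u v : List Bool) (g : List Bool → ℤ) :
    st R (.cup, u.length) g (u ++ v) =
      g (u ++ false :: false :: v) + g (u ++ true :: true :: v) := by
  simp only [st, ins_append]

theorem st_cap (R : Rel) (u v : List Bool) (x y : Bool) (g : List Bool → ℤ) :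
    st R (.cap, u.length) g (u ++ x :: y :: v) = if x = y then g (u ++ v) else 0 := by
  simp only [st, rem2_append, getElem_append_one, getElem_append_two, Option.some.injEq]

theorem st_cross (R : Rel) {k : Kind} (hk : k = .pos ∨ k = .neg) (u v : List Bool) (x y : Bool)
    (g : List Bool → ℤ) :
    st R (k, u.length) g (u ++ x :: y :: v) =
      ∑ a : Bool, ∑ b : Bool, if R k x y a b then g (u ++ a :: b :: v) else 0 := by
  rcases hk with rfl | rfl <;>
  simp only [st, rep_append, getD_one, getD_two]

theorem st_cons (R : Rel) (k : Kind) (i : ℕ) (g : List Bool → ℤ) (c : Bool) (ℓ : List Bool) :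
    st R (k, i + 1) g (c :: ℓ) = st R (k, i) (fun ℓ' => g (c :: ℓ')) ℓ := by
  cases k <;> rfl

/-- The sum over all labellings of the word which begin with a given list. -/
def ga (R : Rel) : Word → (List Bool → ℤ) → List Bool → ℤ
  | [], ψ => ψ
  | x :: w, ψ => st R x (ga R w ψ)

theorem st_add (R : Rel) (x : Letter) (g h : List Bool → ℤ) (ℓ : List Bool) :
    st R x (fun ℓ => g ℓ + h ℓ) ℓ = st R x g ℓ + st R x h ℓ := by
  obtain ⟨k, i⟩ := x
  cases k with
  | cup => simp only [st]; ring
  | cap => simp only [st]; split_ifs <;> simp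
  | pos =>
    simp only [st, Fintype.sum_bool]
    split_ifs <;> ring
  | neg =>
    simp only [st, Fintype.sum_bool]
    split_ifs <;> ring

theorem st_smul (R : Rel) (x : Letter) (c : ℤ) (g : List Bool → ℤ) (ℓ : List Bool) :
    st R x (fun ℓ => c * g ℓ) ℓ = c * st R x g ℓ := by
  obtain ⟨k, i⟩ := x
  cases k with
  | cup => simp only [st]; ring
  | cap => simp only [st]; split_ifs <;> simp
  | pos =>
    simp only [st, Fintype.sum_bool]
    split_ifs <;> ring
  | neg =>
    simp only [st, Fintype.sum_bool]
    split_ifs <;> ring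

theorem ga_add (R : Rel) (w : Word) (g h : List Bool → ℤ) :
    ga R w (fun ℓ => g ℓ + h ℓ) = fun ℓ => ga R w g ℓ + ga R w h ℓ := by
  induction w with
  | nil => rfl
  | cons x w ih =>
    funext ℓ
    show st R x (ga R w (fun ℓ => g ℓ + h ℓ)) ℓ = _
    rw [ih]
    exact st_add R x _ _ ℓ

theorem ga_smul (R : Rel) (w : Word) (c : ℤ) (g : List Bool → ℤ) :
    ga R w (fun ℓ => c * g ℓ) = fun ℓ => c * ga R w g ℓ := by
  induction w with
  | nil => rfl
  | cons x w ih =>
    funext ℓ
    show st R x (ga R w (fun ℓ => c * g ℓ)) ℓ = _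
    rw [ih]
    exact st_smul R x c _ ℓ

/-! ### The Fourier transform -/

/-- sign -/
def sg (c : Bool) : ℤ := if c then -1 else 1

/-- the Fourier transform -/
def FT : ℕ → (List Bool → ℤ) → List Bool → ℤ
  | 0, ψ, _ => ψ []
  | _ + 1, _, [] => 0
  | m + 1, ψ, c :: ℓ => FT m (fun v => ψ (false :: v)) ℓ + sg c * FT m (fun v => ψ (true :: v)) ℓ

theorem FT_cons (m : ℕ) (ψ : List Bool → ℤ) (c : Bool) (ℓ : List Bool) :
    FT (m + 1) ψ (c :: ℓ) =
      FT m (fun v => ψ (false :: v)) ℓ + sg c * FT m (fun v => ψ (true :: v)) ℓ := rfl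

theorem FT_add (m : ℕ) : ∀ (g h : List Bool → ℤ) (ℓ : List Bool),
    FT m (fun ℓ => g ℓ + h ℓ) ℓ = FT m g ℓ + FT m h ℓ := by
  induction m with
  | zero => intro g h ℓ; rfl
  | succ m ih =>
    intro g h ℓ
    cases ℓ with
    | nil => rfl
    | cons c ℓ =>
      rw [FT_cons, FT_cons, FT_cons, ih, ih]
      ring

theorem FT_smul (m : ℕ) : ∀ (c : ℤ) (g : List Bool → ℤ) (ℓ : List Bool),
    FT m (fun ℓ => c * g ℓ) ℓ = c * FT m g ℓ := by
  induction m with
  | zero => intro c g ℓ; rfl
  | succ m ih =>
    intro c g ℓ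
    cases ℓ with
    | nil => simp [FT]
    | cons d ℓ =>
      rw [FT_cons, FT_cons, ih, ih]
      ring

theorem FT_zero (m : ℕ) (ℓ : List Bool) : FT m (fun _ => 0) ℓ = 0 := by
  have := FT_smul m 0 (fun _ => 0) ℓ
  simpa using this

theorem ft_cup (R R' : Rel) (v : List Bool) : ∀ (u : List Bool) (ψ : List Bool → ℤ),
    2 * FT (u.length + v.length) (st R (.cup, u.length) ψ) (u ++ v) =
      st R' (.cup, u.length) (FT (u.length + v.length + 2) ψ) (u ++ v) := by
  intro u
  induction u with
  | nil =>
    intro ψ
    have h1 : st R (Kind.cup, 0) ψ = fun ℓ => ψ (false :: false :: ℓ) + ψ (true :: true :: ℓ) := by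
      funext ℓ
      rfl
    show 2 * FT (0 + v.length) (st R (Kind.cup, 0) ψ) v =
      FT (0 + v.length + 2) ψ (false :: false :: v) + FT (0 + v.length + 2) ψ (true :: true :: v)
    rw [zero_add, h1, FT_add, FT_cons, FT_cons, FT_cons, FT_cons, FT_cons, FT_cons]
    simp only [sg]
    norm_num
    ring
  | cons c u ih =>
    intro ψ
    have h1 : (c :: u).length + v.length = u.length + v.length + 1 := by
      simp
      omega
    have h2 : (c :: u).length + v.length + 2 = u.length + v.length + 2 + 1 := by
      simp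
      omega
    rw [h1, List.cons_append, List.length_cons, FT_cons]
    have h3 : ∀ d : Bool, (fun v => st R (Kind.cup, u.length + 1) ψ (d :: v)) =
        st R (Kind.cup, u.length) (fun ℓ' => ψ (d :: ℓ')) := by
      intro d
      funext ℓ
      exact st_cons R _ _ ψ d ℓ
    rw [h3, h3, st_cons]
    have h4 : (fun ℓ' => FT (u.length + v.length + 1 + 2) ψ (c :: ℓ')) = fun ℓ' =>
        FT (u.length + v.length + 2) (fun v => ψ (false :: v)) ℓ' +
          sg c * FT (u.length + v.length + 2) (fun v => ψ (true :: v)) ℓ' := by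
      funext ℓ'
      exact FT_cons _ _ _ _
    rw [h4, st_add, st_smul, ← ih, ← ih]
    ring

theorem ft_cap (R R' : Rel) (v : List Bool) (a b : Bool) : ∀ (u : List Bool) (ψ : List Bool → ℤ),
    FT (u.length + v.length + 2) (st R (.cap, u.length) ψ) (u ++ a :: b :: v) =
      2 * st R' (.cap, u.length) (FT (u.length + v.length) ψ) (u ++ a :: b :: v) := by
  intro u
  induction u with
  | nil =>
    intro ψ
    show FT (0 + v.length + 2) (st R (Kind.cap, 0) ψ) (a :: b :: v) =
      2 * st R' (Kind.cap, 0) (FT (0 + v.length) ψ) (a :: b :: v)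
    have hs := st_cap R' [] v a b (FT (0 + v.length) ψ)
    simp only [List.length_nil, List.nil_append] at hs
    rw [hs, zero_add, FT_cons, FT_cons, FT_cons]
    have h0 : ∀ x y : Bool, (fun v => st R (Kind.cap, 0) ψ (x :: y :: v)) =
        fun v => (if x = y then 1 else 0) * ψ v := by
      intro x y
      funext ℓ
      have := st_cap R [] ℓ x y ψ
      simp only [List.length_nil, List.nil_append] at this
      rw [this]
      split_ifs <;> simp
    rw [h0, h0, h0, h0, FT_smul, FT_smul, FT_smul, FT_smul]
    cases a <;> cases b <;> simp [sg] <;> ring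
  | cons c u ih =>
    intro ψ
    have h1 : (c :: u).length + v.length + 2 = u.length + v.length + 2 + 1 := by
      simp
      omega
    have h2 : (c :: u).length + v.length = u.length + v.length + 1 := by
      simp
      omega
    rw [h1, h2, List.cons_append, List.length_cons, FT_cons]
    have h3 : ∀ d : Bool, (fun v => st R (Kind.cap, u.length + 1) ψ (d :: v)) =
        st R (Kind.cap, u.length) (fun ℓ' => ψ (d :: ℓ')) := by
      intro d
      funext ℓ
      exact st_cons R _ _ ψ d ℓ
    rw [h3, h3, st_cons]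
    have h4 : (fun ℓ' => FT (u.length + v.length + 1) ψ (c :: ℓ')) = fun ℓ' =>
        FT (u.length + v.length) (fun v => ψ (false :: v)) ℓ' +
          sg c * FT (u.length + v.length) (fun v => ψ (true :: v)) ℓ' := by
      funext ℓ'
      exact FT_cons _ _ _ _
    rw [h4, st_add, st_smul, ih, ih]
    ring

theorem ft_cross {k : Kind} (hk : k = .pos ∨ k = .neg) (v : List Bool) (a b : Bool) :
    ∀ (u : List Bool) (ψ : List Bool → ℤ),
    FT (u.length + v.length + 2) (st rX (k, u.length) ψ) (u ++ a :: b :: v) =
      2 * st rE (k, u.length) (FT (u.length + v.length + 2) ψ) (u ++ a :: b :: v) := by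
  intro u
  induction u with
  | nil =>
    intro ψ
    show FT (0 + v.length + 2) (st rX (k, 0) ψ) (a :: b :: v) =
      2 * st rE (k, 0) (FT (0 + v.length + 2) ψ) (a :: b :: v)
    have hs := st_cross rE hk [] v a b (FT (0 + v.length + 2) ψ)
    simp only [List.length_nil, List.nil_append] at hs
    rw [hs, zero_add, FT_cons, FT_cons, FT_cons]
    have h0 : ∀ x y : Bool, (fun v => st rX (k, 0) ψ (x :: y :: v)) =
        fun ℓ => (if xor x y = false then 1 else 0) *
          (ψ (false :: false :: ℓ) + ψ (true :: true :: ℓ)) +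
          (if xor x y = false then 0 else 1) *
          (ψ (false :: true :: ℓ) + ψ (true :: false :: ℓ)) := by
      intro x y
      funext ℓ
      have := st_cross rX hk [] ℓ x y ψ
      simp only [List.length_nil, List.nil_append] at this
      rw [this]
      cases x <;> cases y <;> simp [rX] <;> ring
    have h5 : ∀ x y : Bool, FT v.length (fun v => st rX (k, 0) ψ (x :: y :: v)) v =
        (if xor x y = false then 1 else 0) *
          (FT v.length (fun ℓ => ψ (false :: false :: ℓ)) v +
            FT v.length (fun ℓ => ψ (true :: true :: ℓ)) v) +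
          (if xor x y = false then 0 else 1) *
          (FT v.length (fun ℓ => ψ (false :: true :: ℓ)) v +
            FT v.length (fun ℓ => ψ (true :: false :: ℓ)) v) := by
      intro x y
      rw [h0, FT_add, FT_smul, FT_smul, FT_add, FT_add]
    rw [h5, h5, h5, h5]
    simp only [Fintype.sum_bool, FT_cons]
    cases a <;> cases b <;> simp [sg, rE] <;> ring
  | cons c u ih =>
    intro ψ
    have h1 : (c :: u).length + v.length + 2 = u.length + v.length + 2 + 1 := by
      simp
      omega
    rw [h1, List.cons_append, List.length_cons, FT_cons]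
    have h3 : ∀ d : Bool, (fun v => st rX (k, u.length + 1) ψ (d :: v)) =
        st rX (k, u.length) (fun ℓ' => ψ (d :: ℓ')) := by
      intro d
      funext ℓ
      exact st_cons rX _ _ ψ d ℓ
    rw [h3, h3, st_cons]
    have h4 : (fun ℓ' => FT (u.length + v.length + 2 + 1) ψ (c :: ℓ')) = fun ℓ' =>
        FT (u.length + v.length + 2) (fun v => ψ (false :: v)) ℓ' +
          sg c * FT (u.length + v.length + 2) (fun v => ψ (true :: v)) ℓ' := by
      funext ℓ'
      exact FT_cons _ _ _ _
    rw [h4, st_add, st_smul, ih, ih]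
    ring

/-- `st` depends only on the values on the lists of the right length -/
theorem st_congr (R : Rel) (k : Kind) {i : ℕ} {g h : List Bool → ℤ} {ℓ : List Bool}
    (hi : i + k.inn ≤ ℓ.length)
    (hgh : ∀ ℓ' : List Bool, ℓ'.length + k.inn = ℓ.length + k.out → g ℓ' = h ℓ') :
    st R (k, i) g ℓ = st R (k, i) h ℓ := by
  cases k with
  | cup =>
    simp only [Kind.inn, Kind.out] at hi hgh
    simp only [st]
    rw [hgh _ (by rw [length_ins (by omega)]), hgh _ (by rw [length_ins (by omega)])]
  | cap =>
    simp only [Kind.inn, Kind.out] at hi hgh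
    simp only [st]
    rw [hgh _ (by rw [length_rem2 hi]; omega)]
  | pos =>
    simp only [Kind.inn, Kind.out] at hi hgh
    simp only [st]
    refine Finset.sum_congr rfl fun a _ => Finset.sum_congr rfl fun b _ => ?_
    rw [hgh _ (by simp [rep]; omega)]
  | neg =>
    simp only [Kind.inn, Kind.out] at hi hgh
    simp only [st]
    refine Finset.sum_congr rfl fun a _ => Finset.sum_congr rfl fun b _ => ?_
    rw [hgh _ (by simp [rep]; omega)]

/-- the duality -/
theorem duality {w : Word} {a b : ℕ} (hl : Len w a b) : ∀ (ψ : List Bool → ℤ) (j j' : ℕ),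
    a + 2 * j' = b + 2 * j → ∀ ℓ : List Bool, ℓ.length = a →
      2 ^ j' * FT a (ga rX w ψ) ℓ = 2 ^ (j + crossings w) * ga rE w (FT b ψ) ℓ := by
  induction hl with
  | nil a =>
    intro ψ j j' hj ℓ hℓ
    have : j = j' := by omega
    subst this
    simp [ga, crossings]
  | @cup w i a b hi hw ih =>
    intro ψ j j' hj ℓ hℓ
    have h1 := ih ψ (j + 1) j' (by omega)
    obtain ⟨u, v, hu, rfl⟩ : ∃ u v : List Bool, u.length = i ∧ ℓ = u ++ v :=
      ⟨ℓ.take i, ℓ.drop i, List.length_take_of_le (by omega), (List.take_append_drop _ _).symm⟩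
    subst hu
    have ha : a = u.length + v.length := by rw [← hℓ, List.length_append]
    subst ha
    have h2 := ft_cup rX rE v u (ga rX w ψ)
    have hc : crossings ((Kind.cup, u.length) :: w) = crossings w := by
      simp [crossings]
    have h3 : st rE (Kind.cup, u.length) (fun ℓ => 2 ^ j' *
        FT (u.length + v.length + 2) (ga rX w ψ) ℓ) (u ++ v) =
        st rE (Kind.cup, u.length) (fun ℓ => 2 ^ (j + 1 + crossings w) *
          ga rE w (FT b ψ) ℓ) (u ++ v) := by
      apply st_congr rE Kind.cup (by simp [Kind.inn])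
      intro ℓ' hℓ'
      simp only [Kind.inn, Kind.out, List.length_append] at hℓ'
      exact h1 ℓ' (by omega)
    rw [st_smul, st_smul, ← h2] at h3
    show 2 ^ j' * FT (u.length + v.length) (st rX (Kind.cup, u.length) (ga rX w ψ)) (u ++ v) =
      2 ^ (j + crossings ((Kind.cup, u.length) :: w)) *
        st rE (Kind.cup, u.length) (ga rE w (FT b ψ)) (u ++ v)
    rw [hc]
    have h4 : (2 : ℤ) ^ (j + 1 + crossings w) = 2 * 2 ^ (j + crossings w) := by
      rw [← pow_succ']
      congr 1
      omega
    rw [h4] at h3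
    linarith
  | @cap w i a b hi hw ih =>
    intro ψ j j' hj ℓ hℓ
    have h1 := ih ψ j (j' + 1) (by omega)
    obtain ⟨u, v, x, y, hu, rfl⟩ := split2 (i := i) (ℓ := ℓ) (by omega)
    subst hu
    have ha : a = u.length + v.length := by
      simp only [List.length_append, List.length_cons] at hℓ
      omega
    subst ha
    have h2 := ft_cap rX rE v x y u (ga rX w ψ)
    have hc : crossings ((Kind.cap, u.length) :: w) = crossings w := by
      simp [crossings]
    have h3 : st rE (Kind.cap, u.length) (fun ℓ => 2 ^ (j' + 1) *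
        FT (u.length + v.length) (ga rX w ψ) ℓ) (u ++ x :: y :: v) =
        st rE (Kind.cap, u.length) (fun ℓ => 2 ^ (j + crossings w) *
          ga rE w (FT b ψ) ℓ) (u ++ x :: y :: v) := by
      apply st_congr rE Kind.cap (by simp [Kind.inn])
      intro ℓ' hℓ'
      simp only [Kind.inn, Kind.out, List.length_append, List.length_cons] at hℓ'
      exact h1 ℓ' (by omega)
    rw [st_smul, st_smul] at h3
    show 2 ^ j' * FT (u.length + v.length + 2) (st rX (Kind.cap, u.length) (ga rX w ψ))
      (u ++ x :: y :: v) = 2 ^ (j + crossings ((Kind.cap, u.length) :: w)) *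
        st rE (Kind.cap, u.length) (ga rE w (FT b ψ)) (u ++ x :: y :: v)
    rw [hc, h2, ← h3, pow_succ]
    ring
  | @pos w i a b hi hw ih =>
    intro ψ j j' hj ℓ hℓ
    have h1 := ih ψ j j' (by omega)
    obtain ⟨u, v, x, y, hu, rfl⟩ := split2 (i := i) (ℓ := ℓ) (by omega)
    subst hu
    have ha : a = u.length + v.length := by
      simp only [List.length_append, List.length_cons] at hℓ
      omega
    subst ha
    have h2 := ft_cross (k := Kind.pos) (Or.inl rfl) v x y u (ga rX w ψ)
    have hc : crossings ((Kind.pos, u.length) :: w) = crossings w + 1 := by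
      simp [crossings]
    have h3 : st rE (Kind.pos, u.length) (fun ℓ => 2 ^ j' *
        FT (u.length + v.length + 2) (ga rX w ψ) ℓ) (u ++ x :: y :: v) =
        st rE (Kind.pos, u.length) (fun ℓ => 2 ^ (j + crossings w) *
          ga rE w (FT b ψ) ℓ) (u ++ x :: y :: v) := by
      apply st_congr rE Kind.pos (by simp [Kind.inn])
      intro ℓ' hℓ'
      simp only [Kind.inn, Kind.out, List.length_append, List.length_cons] at hℓ'
      exact h1 ℓ' (by omega)
    rw [st_smul, st_smul] at h3
    show 2 ^ j' * FT (u.length + v.length + 2) (st rX (Kind.pos, u.length) (ga rX w ψ))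
      (u ++ x :: y :: v) = 2 ^ (j + crossings ((Kind.pos, u.length) :: w)) *
        st rE (Kind.pos, u.length) (ga rE w (FT b ψ)) (u ++ x :: y :: v)
    rw [hc, h2, ← add_assoc, pow_succ]
    linear_combination 2 * h3
  | @neg w i a b hi hw ih =>
    intro ψ j j' hj ℓ hℓ
    have h1 := ih ψ j j' (by omega)
    obtain ⟨u, v, x, y, hu, rfl⟩ := split2 (i := i) (ℓ := ℓ) (by omega)
    subst hu
    have ha : a = u.length + v.length := by
      simp only [List.length_append, List.length_cons] at hℓ
      omega
    subst ha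
    have h2 := ft_cross (k := Kind.neg) (Or.inr rfl) v x y u (ga rX w ψ)
    have hc : crossings ((Kind.neg, u.length) :: w) = crossings w + 1 := by
      simp [crossings]
    have h3 : st rE (Kind.neg, u.length) (fun ℓ => 2 ^ j' *
        FT (u.length + v.length + 2) (ga rX w ψ) ℓ) (u ++ x :: y :: v) =
        st rE (Kind.neg, u.length) (fun ℓ => 2 ^ (j + crossings w) *
          ga rE w (FT b ψ) ℓ) (u ++ x :: y :: v) := by
      apply st_congr rE Kind.neg (by simp [Kind.inn])
      intro ℓ' hℓ'
      simp only [Kind.inn, Kind.out, List.length_append, List.length_cons] at hℓ'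
      exact h1 ℓ' (by omega)
    rw [st_smul, st_smul] at h3
    show 2 ^ j' * FT (u.length + v.length + 2) (st rX (Kind.neg, u.length) (ga rX w ψ))
      (u ++ x :: y :: v) = 2 ^ (j + crossings ((Kind.neg, u.length) :: w)) *
        st rE (Kind.neg, u.length) (ga rE w (FT b ψ)) (u ++ x :: y :: v)
    rw [hc, h2, ← add_assoc, pow_succ]
    linear_combination 2 * h3

/-- indicator -/
def idl (ℓ' : List Bool) : List Bool → ℤ := fun ℓ => if ℓ = ℓ' then 1 else 0

/-- the trace -/
def trc (R : Rel) (w : Word) : ℤ := ga R w (idl [false]) [false] + ga R w (idl [true]) [true]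

theorem ga_congr (R : Rel) {w : Word} {a b : ℕ} (hl : Len w a b) {g h : List Bool → ℤ}
    (hgh : ∀ ℓ : List Bool, ℓ.length = b → g ℓ = h ℓ) :
    ∀ ℓ : List Bool, ℓ.length = a → ga R w g ℓ = ga R w h ℓ := by
  induction hl with
  | nil a => exact hgh
  | @cup w i a b hi hw ih =>
    intro ℓ hℓ
    exact st_congr R Kind.cup (by simp [Kind.inn]; omega) fun ℓ' hℓ' =>
      ih hgh ℓ' (by simp [Kind.inn, Kind.out] at hℓ'; omega)
  | @cap w i a b hi hw ih =>
    intro ℓ hℓ
    exact st_congr R Kind.cap (by simp [Kind.inn]; omega) fun ℓ' hℓ' =>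
      ih hgh ℓ' (by simp [Kind.inn, Kind.out] at hℓ'; omega)
  | @pos w i a b hi hw ih =>
    intro ℓ hℓ
    exact st_congr R Kind.pos (by simp [Kind.inn]; omega) fun ℓ' hℓ' =>
      ih hgh ℓ' (by simp [Kind.inn, Kind.out] at hℓ'; omega)
  | @neg w i a b hi hw ih =>
    intro ℓ hℓ
    exact st_congr R Kind.neg (by simp [Kind.inn]; omega) fun ℓ' hℓ' =>
      ih hgh ℓ' (by simp [Kind.inn, Kind.out] at hℓ'; omega)

theorem trc_eq {w : Word} (hl : Len w 1 1) : trc rX w = 2 ^ crossings w * trc rE w := by
  have hd : ∀ (ψ : List Bool → ℤ) (x : Bool), FT 1 (ga rX w ψ) [x] =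
      2 ^ crossings w * ga rE w (FT 1 ψ) [x] := by
    intro ψ x
    have := duality hl ψ 0 0 rfl [x] rfl
    simpa using this
  have hF : ∀ (ψ : List Bool → ℤ) (x : Bool), FT 1 ψ [x] = ψ [false] + sg x * ψ [true] := by
    intro ψ x
    rfl
  have h1 : ∀ x : Bool, ga rE w (FT 1 (idl [false])) [x] =
      ga rE w (idl [false]) [x] + ga rE w (idl [true]) [x] := by
    intro x
    have := congrFun (ga_add rE w (idl [false]) (idl [true])) [x]
    rw [← this]
    refine ga_congr rE hl ?_ [x] rfl
    intro ℓ hℓ
    obtain ⟨y, rfl⟩ := List.length_eq_one_iff.1 hℓ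
    rw [hF]
    cases y <;> simp [idl, sg]
  have h2 : ∀ x : Bool, ga rE w (FT 1 (idl [true])) [x] =
      ga rE w (idl [false]) [x] + (-1) * ga rE w (idl [true]) [x] := by
    intro x
    have h3 := congrFun (ga_add rE w (idl [false]) (fun ℓ => (-1) * idl [true] ℓ)) [x]
    have h4 := congrFun (ga_smul rE w (-1) (idl [true])) [x]
    rw [← h4, ← h3]
    refine ga_congr rE hl ?_ [x] rfl
    intro ℓ hℓ
    obtain ⟨y, rfl⟩ := List.length_eq_one_iff.1 hℓ
    rw [hF]
    cases y <;> simp [idl, sg]
  have a1 := hd (idl [false]) false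
  have a2 := hd (idl [false]) true
  have a3 := hd (idl [true]) false
  have a4 := hd (idl [true]) true
  rw [hF, h1] at a1 a2
  rw [hF, h2] at a3 a4
  simp only [sg] at a1 a2 a3 a4
  unfold trc
  norm_num at a1 a2 a3 a4
  have key : 2 * (ga rX w (idl [false]) [false] + ga rX w (idl [true]) [true]) =
      2 * (2 ^ crossings w * (ga rE w (idl [false]) [false] + ga rE w (idl [true]) [true])) := by
    linear_combination a1 + a2 + a3 - a4
  linarith

end Pool.Agent.HTW.Pl
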