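import Pool.Agent.HTW.LabMul

/-!
# Counting the labellings (helper52)
-/

namespace Pool.Agent.HTW.Pl

open Finset

/-- the labellings just above the letter -/
def succ (R : Rel) : Letter → List Bool → Finset (List Bool)
  | (.cup, i), ℓ => (univ : Finset Bool).image (fun y => ins i y ℓ)
  | (.cap, i), ℓ => if ℓ[i]? = ℓ[i + 1]? then {rem2 i ℓ} else ∅
  | (.pos, i), ℓ => ((univ : Finset (Bool × Bool)).filter
      (fun p => R .pos (ℓ.getD i false) (ℓ.getD (i + 1) false) p.1 p.2 = true)).image
        (fun p => rep i p.1 p.2 ℓ)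
  | (.neg, i), ℓ => ((univ : Finset (Bool × Bool)).filter
      (fun p => R .neg (ℓ.getD i false) (ℓ.getD (i + 1) false) p.1 p.2 = true)).image
        (fun p => rep i p.1 p.2 ℓ)

theorem mem_succ_cup {R : Rel} {u v ℓ' : List Bool} :
    ℓ' ∈ succ R (.cup, u.length) (u ++ v) ↔ ∃ y, ℓ' = u ++ y :: y :: v := by
  simp only [succ, mem_image, mem_univ, true_and, ins_append]
  constructor
  · rintro ⟨y, rfl⟩
    exact ⟨y, rfl⟩
  · rintro ⟨y, rfl⟩
    exact ⟨y, rfl⟩

theorem mem_succ_cap {R : Rel} {u v ℓ' : List Bool} {a b : Bool} :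
    ℓ' ∈ succ R (.cap, u.length) (u ++ a :: b :: v) ↔ a = b ∧ ℓ' = u ++ v := by
  simp only [succ, rem2_append, getElem_append_one, getElem_append_two, Option.some.injEq]
  split_ifs with h
  · simp [h]
  · simp [h]

theorem mem_succ_cross {R : Rel} {k : Kind} (hk : k = .pos ∨ k = .neg) {u v ℓ' : List Bool}
    {a b : Bool} : ℓ' ∈ succ R (k, u.length) (u ++ a :: b :: v) ↔
      ∃ a' b', R k a b a' b' = true ∧ ℓ' = u ++ a' :: b' :: v := by
  rcases hk with rfl | rfl <;>
  · simp only [succ, mem_image, mem_filter, mem_univ, true_and, rep_append, getD_one, getD_two]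
    constructor
    · rintro ⟨p, hp, rfl⟩
      exact ⟨p.1, p.2, hp, rfl⟩
    · rintro ⟨a', b', hp, rfl⟩
      exact ⟨(a', b'), hp, rfl⟩

theorem ins_inj {i : ℕ} {y y' : Bool} {ℓ : List Bool} (h : ins i y ℓ = ins i y' ℓ) : y = y' := by
  unfold ins at h
  exact (List.cons.inj (List.append_cancel_left h)).1

theorem rep_inj {i : ℕ} {a b a' b' : Bool} {ℓ : List Bool} (h : rep i a b ℓ = rep i a' b' ℓ) :
    a = a' ∧ b = b' := by
  unfold rep at h
  have h1 := List.cons.inj (List.append_cancel_left h)
  exact ⟨h1.1, (List.cons.inj h1.2).1⟩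

theorem sum_succ (R : Rel) (x : Letter) (g : List Bool → ℤ) (ℓ : List Bool) :
    ∑ ℓ' ∈ succ R x ℓ, g ℓ' = st R x g ℓ := by
  obtain ⟨k, i⟩ := x
  cases k with
  | cup =>
    simp only [succ, st]
    rw [Finset.sum_image (fun y _ y' _ h => ins_inj h), Fintype.sum_bool, add_comm]
  | cap =>
    simp only [succ, st]
    split_ifs <;> simp
  | pos =>
    simp only [succ, st]
    rw [Finset.sum_image (fun p _ p' _ h => Prod.ext (rep_inj h).1 (rep_inj h).2),
      Finset.sum_filter, Fintype.sum_prod_type]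
  | neg =>
    simp only [succ, st]
    rw [Finset.sum_image (fun p _ p' _ h => Prod.ext (rep_inj h).1 (rep_inj h).2),
      Finset.sum_filter, Fintype.sum_prod_type]

/-- the labellings of the word which begin with `ℓ` -/
def gr (R : Rel) : Word → List Bool → Finset (List (List Bool))
  | [], ℓ => {[ℓ]}
  | x :: w, ℓ => (succ R x ℓ).biUnion fun ℓ' => (gr R w ℓ').image (fun K => ℓ :: K)

theorem gr_head {R : Rel} {w : Word} {ℓ : List Bool} {K : List (List Bool)} (hK : K ∈ gr R w ℓ) :
    ∃ rest, K = ℓ :: rest := by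
  cases w with
  | nil =>
    simp only [gr, Finset.mem_singleton] at hK
    exact ⟨[], hK⟩
  | cons x w =>
    obtain ⟨y, _, hy⟩ := Finset.mem_biUnion.1 hK
    obtain ⟨K', _, rfl⟩ := Finset.mem_image.1 hy
    exact ⟨K', rfl⟩

theorem card_gr (R : Rel) (w : Word) (ℓ ℓ' : List Bool) :
    (((gr R w ℓ).filter (fun K => K.getLast? = some ℓ')).card : ℤ) = ga R w (idl ℓ') ℓ := by
  induction w generalizing ℓ with
  | nil =>
    show ((({[ℓ]} : Finset (List (List Bool))).filter (fun K => K.getLast? = some ℓ')).card : ℤ) =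
      if ℓ = ℓ' then 1 else 0
    rw [Finset.filter_singleton]
    by_cases h : ℓ = ℓ'
    · rw [if_pos h, if_pos (by rw [h]; rfl)]
      rfl
    · rw [if_neg h, if_neg (by simpa using h)]
      rfl
  | cons x w ih =>
    show ((((succ R x ℓ).biUnion fun ℓ' => (gr R w ℓ').image (fun K => ℓ :: K)).filter
      (fun K => K.getLast? = some ℓ')).card : ℤ) = st R x (ga R w (idl ℓ')) ℓ
    rw [← sum_succ, Finset.filter_biUnion, Finset.card_biUnion]
    · push_cast
      refine Finset.sum_congr rfl fun y _ => ?_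
      rw [card_filter_cons _ _ _ (fun K hK => ?_), ih]
      obtain ⟨rest, rfl⟩ := gr_head hK
      exact List.cons_ne_nil _ _
    · intro y _ y' _ hyy
      rw [Function.onFun, Finset.disjoint_left]
      intro K hK hK'
      obtain ⟨K₁, h1, rfl⟩ := Finset.mem_image.1 (Finset.mem_filter.1 hK).1
      obtain ⟨K₂, h2, h3⟩ := Finset.mem_image.1 (Finset.mem_filter.1 hK').1
      obtain ⟨r1, rfl⟩ := gr_head h1
      obtain ⟨r2, rfl⟩ := gr_head h2
      exact hyy (List.cons.inj (List.cons.inj h3).2).1.symm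

/-! ### Sums of labellings -/

/-- the sum of two lists -/
def xl (ℓ m : List Bool) : List Bool := List.zipWith xor ℓ m

/-- the sum of two labellings -/
def xL (K L : List (List Bool)) : List (List Bool) := List.zipWith xl K L

theorem xl_append {u u' v v' : List Bool} (h : u.length = u'.length) :
    xl (u ++ v) (u' ++ v') = xl u u' ++ xl v v' := by
  unfold xl
  rw [List.zipWith_append h]

theorem xl_cancel : ∀ {ℓ m : List Bool}, ℓ.length = m.length → xl (xl ℓ m) m = ℓ := by
  intro ℓ
  induction ℓ with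
  | nil => intro m _; simp [xl]
  | cons a ℓ ih =>
    intro m h
    cases m with
    | nil => simp at h
    | cons b m =>
      have h1 := ih (m := m) (by simpa using h)
      simp only [xl, List.zipWith_cons_cons] at h1 ⊢
      rw [h1]
      simp

theorem xl_swap : ∀ {a b c d : List Bool}, a.length = b.length → a.length = c.length →
    a.length = d.length → xl a b = xl c d → xl a c = xl b d := by
  intro a
  induction a with
  | nil =>
    intro b c d hb hc hd _
    have := List.length_eq_zero_iff.1 hb.symm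
    have := List.length_eq_zero_iff.1 hc.symm
    subst_vars
    simp [xl]
  | cons x a ih =>
    intro b c d hb hc hd h
    cases b with
    | nil => simp at hb
    | cons y b =>
      cases c with
      | nil => simp at hc
      | cons z c =>
        cases d with
        | nil => simp at hd
        | cons t d =>
          simp only [xl, List.zipWith_cons_cons] at h ⊢
          obtain ⟨h1, h2⟩ := List.cons.inj h
          have h3 := ih (b := b) (c := c) (d := d) (by simpa using hb) (by simpa using hc)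
            (by simpa using hd) h2
          simp only [xl] at h3
          rw [h3]
          congr 1
          revert h1
          cases x <;> cases y <;> cases z <;> cases t <;> simp

theorem xL_cancel : ∀ {K L : List (List Bool)}, K.map List.length = L.map List.length →
    xL (xL K L) L = K := by
  intro K
  induction K with
  | nil => intro m _; simp [xL]
  | cons a K ih =>
    intro L h
    cases L with
    | nil => simp at h
    | cons b L =>
      simp only [List.map_cons, List.cons.injEq] at h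
      have h1 := ih (L := L) h.2
      simp only [xL, List.zipWith_cons_cons] at h1 ⊢
      rw [h1, xl_cancel h.1]

theorem xL_swap : ∀ {A B C D : List (List Bool)}, A.map List.length = B.map List.length →
    A.map List.length = C.map List.length → A.map List.length = D.map List.length →
    xL A B = xL C D → xL A C = xL B D := by
  intro A
  induction A with
  | nil =>
    intro B C D hb hc hd _
    have h1 : B = [] := by simpa using hb.symm
    have h2 : C = [] := by simpa using hc.symm
    subst h1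
    subst h2
    simp [xL]
  | cons x A ih =>
    intro B C D hb hc hd h
    cases B with
    | nil => simp at hb
    | cons y B =>
      cases C with
      | nil => simp at hc
      | cons z C =>
        cases D with
        | nil => simp at hd
        | cons t D =>
          simp only [List.map_cons, List.cons.injEq] at hb hc hd
          simp only [xL, List.zipWith_cons_cons] at h ⊢
          obtain ⟨h1, h2⟩ := List.cons.inj h
          have h3 := ih hb.2 hc.2 hd.2 h2
          simp only [xL] at h3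
          rw [h3, xl_swap hb.1 hc.1 hd.1 h1]

theorem getLast_zip {α : Type} (f : α → α → α) : ∀ {K L : List α}, K.length = L.length →
    ∀ {p q : α}, K.getLast? = some p → L.getLast? = some q →
      (List.zipWith f K L).getLast? = some (f p q) := by
  intro K
  induction K with
  | nil => intro L _ p q h; simp at h
  | cons a K ih =>
    intro L h p q h1 h2
    cases L with
    | nil => simp at h
    | cons b L =>
      cases K with
      | nil =>
        cases L with
        | nil =>
          simp only [List.getLast?_singleton, Option.some.injEq] at h1 h2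
          subst h1
          subst h2
          rfl
        | cons c L => simp at h
      | cons d K =>
        cases L with
        | nil => simp at h
        | cons c L =>
          have h3 := ih (L := c :: L) (by simpa using h) (p := p) (q := q)
            (by rw [← h1]; rfl) (by rw [← h2]; rfl)
          rw [← h3]
          rfl

theorem succ_xor {R R' R'' : Rel}
    (hR : ∀ k a b a' b' c d c' d', R k a b a' b' = true → R' k c d c' d' = true →
      R'' k (xor a c) (xor b d) (xor a' c') (xor b' d') = true)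
    {k : Kind} {i : ℕ} {ℓ m ℓ' m' : List Bool} (hi : i + k.inn ≤ ℓ.length)
    (hlm : ℓ.length = m.length) (h : ℓ' ∈ succ R (k, i) ℓ) (h' : m' ∈ succ R' (k, i) m) :
    xl ℓ' m' ∈ succ R'' (k, i) (xl ℓ m) ∧ ℓ'.length = m'.length ∧
      ℓ'.length + k.inn = ℓ.length + k.out := by
  have hcross : ∀ (hk : k = .pos ∨ k = .neg), xl ℓ' m' ∈ succ R'' (k, i) (xl ℓ m) ∧
      ℓ'.length = m'.length ∧ ℓ'.length + k.inn = ℓ.length + k.out := by
    intro hk
    have hin : k.inn = 2 ∧ k.out = 2 := by
      rcases hk with rfl | rfl <;> exact ⟨rfl, rfl⟩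
    rw [hin.1, hin.2]
    rw [hin.1] at hi
    obtain ⟨u, v, x, y, hu, rfl⟩ := split2 hi
    obtain ⟨u', v', x', y', hu', rfl⟩ := split2 (ℓ := m) (i := i) (by omega)
    have huu : u.length = u'.length := by rw [hu, hu']
    have hvv : v.length = v'.length := by
      simp only [List.length_append, List.length_cons] at hlm
      omega
    rw [← hu] at h
    rw [← hu'] at h'
    obtain ⟨a, b, hab, rfl⟩ := (mem_succ_cross hk).1 h
    obtain ⟨c, d, hcd, rfl⟩ := (mem_succ_cross hk).1 h'
    refine ⟨?_, by simp [huu, hvv], by simp⟩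
    have e1 : xl (u ++ x :: y :: v) (u' ++ x' :: y' :: v') =
        xl u u' ++ xor x x' :: xor y y' :: xl v v' := by
      rw [xl_append huu]
      rfl
    have e2 : xl (u ++ a :: b :: v) (u' ++ c :: d :: v') =
        xl u u' ++ xor a c :: xor b d :: xl v v' := by
      rw [xl_append huu]
      rfl
    have e3 : i = (xl u u').length := by
      rw [xl, List.length_zipWith, ← huu, min_self, hu]
    rw [e1, e2, e3]
    exact (mem_succ_cross hk).2 ⟨_, _, hR _ _ _ _ _ _ _ _ _ hab hcd, rfl⟩
  cases k with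
  | cup =>
    have hi' : i ≤ ℓ.length := by simpa [Kind.inn] using hi
    obtain ⟨u, v, hu, rfl⟩ : ∃ u v : List Bool, u.length = i ∧ ℓ = u ++ v :=
      ⟨ℓ.take i, ℓ.drop i, List.length_take_of_le hi', (List.take_append_drop _ _).symm⟩
    obtain ⟨u', v', hu', rfl⟩ : ∃ u v : List Bool, u.length = i ∧ m = u ++ v :=
      ⟨m.take i, m.drop i, List.length_take_of_le (by omega), (List.take_append_drop _ _).symm⟩
    have huu : u.length = u'.length := by rw [hu, hu']
    have hvv : v.length = v'.length := by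
      simp only [List.length_append] at hlm
      omega
    rw [← hu] at h
    rw [← hu'] at h'
    obtain ⟨y, rfl⟩ := mem_succ_cup.1 h
    obtain ⟨y', rfl⟩ := mem_succ_cup.1 h'
    refine ⟨?_, by simp [huu, hvv], by simp [Kind.inn, Kind.out]; omega⟩
    have e2 : xl (u ++ y :: y :: v) (u' ++ y' :: y' :: v') =
        xl u u' ++ xor y y' :: xor y y' :: xl v v' := by
      rw [xl_append huu]
      rfl
    have e3 : i = (xl u u').length := by
      rw [xl, List.length_zipWith, ← huu, min_self, hu]
    rw [xl_append huu, e2, e3]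
    exact mem_succ_cup.2 ⟨_, rfl⟩
  | cap =>
    obtain ⟨u, v, x, y, hu, rfl⟩ := split2 (ℓ := ℓ) (i := i) hi
    obtain ⟨u', v', x', y', hu', rfl⟩ := split2 (ℓ := m) (i := i) (by rw [← hlm]; exact hi)
    have huu : u.length = u'.length := by rw [hu, hu']
    have hvv : v.length = v'.length := by
      simp only [List.length_append, List.length_cons] at hlm
      omega
    rw [← hu] at h
    rw [← hu'] at h'
    obtain ⟨rfl, rfl⟩ := mem_succ_cap.1 h
    obtain ⟨rfl, rfl⟩ := mem_succ_cap.1 h'
    refine ⟨?_, by simp [huu, hvv], by simp [Kind.inn, Kind.out]; omega⟩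
    have e2 : xl (u ++ x :: x :: v) (u' ++ x' :: x' :: v') =
        xl u u' ++ xor x x' :: xor x x' :: xl v v' := by
      rw [xl_append huu]
      rfl
    have e3 : i = (xl u u').length := by
      rw [xl, List.length_zipWith, ← huu, min_self, hu]
    rw [e2, xl_append huu, e3]
    exact mem_succ_cap.2 ⟨rfl, rfl⟩
  | pos => exact hcross (Or.inl rfl)
  | neg => exact hcross (Or.inr rfl)

theorem len_cons {k : Kind} {i : ℕ} {w : Word} {a b : ℕ} (h : Len ((k, i) :: w) a b) :
    i + k.inn ≤ a ∧ ∀ a', a' + k.inn = a + k.out → Len w a' b := by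
  cases h with
  | cup hi hw =>
    refine ⟨by simpa [Kind.inn] using hi, fun a' ha' => ?_⟩
    simp only [Kind.inn, Kind.out] at ha'
    have : a' = a + 2 := by omega
    rwa [this]
  | @cap _ _ a₀ _ hi hw =>
    refine ⟨by simp only [Kind.inn]; omega, fun a' ha' => ?_⟩
    simp only [Kind.inn, Kind.out] at ha'
    have e : a' = a₀ := by omega
    rwa [e]
  | @pos _ _ a₀ _ hi hw =>
    refine ⟨by simp only [Kind.inn]; omega, fun a' ha' => ?_⟩
    simp only [Kind.inn, Kind.out] at ha'
    have e : a' = a₀ + 2 := by omega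
    rwa [e]
  | @neg _ _ a₀ _ hi hw =>
    refine ⟨by simp only [Kind.inn]; omega, fun a' ha' => ?_⟩
    simp only [Kind.inn, Kind.out] at ha'
    have e : a' = a₀ + 2 := by omega
    rwa [e]

theorem gr_xor {R R' R'' : Rel}
    (hR : ∀ k a b a' b' c d c' d', R k a b a' b' = true → R' k c d c' d' = true →
      R'' k (xor a c) (xor b d) (xor a' c') (xor b' d') = true) :
    ∀ {w : Word} {a b : ℕ}, Len w a b → ∀ {ℓ m : List Bool}, ℓ.length = a → m.length = a →
      ∀ {K L : List (List Bool)}, K ∈ gr R w ℓ → L ∈ gr R' w m →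
        xL K L ∈ gr R'' w (xl ℓ m) ∧ K.map List.length = L.map List.length := by
  intro w
  induction w with
  | nil =>
    intro a b _ ℓ m hℓ hm K L hK hL
    simp only [gr, Finset.mem_singleton] at hK hL
    subst hK
    subst hL
    exact ⟨by simp [gr, xL], by simp [hℓ, hm]⟩
  | cons x w ih =>
    intro a b hl ℓ m hℓ hm K L hK hL
    obtain ⟨k, i⟩ := x
    obtain ⟨hi, hl'⟩ := len_cons hl
    obtain ⟨ℓ', h1, h2⟩ := Finset.mem_biUnion.1 hK
    obtain ⟨K', hK', rfl⟩ := Finset.mem_image.1 h2
    obtain ⟨m', h3, h4⟩ := Finset.mem_biUnion.1 hL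
    obtain ⟨L', hL', rfl⟩ := Finset.mem_image.1 h4
    obtain ⟨s1, s2, s3⟩ := succ_xor hR (by rw [hℓ]; exact hi) (by rw [hℓ, hm]) h1 h3
    obtain ⟨t1, t2⟩ := ih (hl' ℓ'.length (by rw [s3, hℓ])) rfl s2.symm hK' hL'
    refine ⟨Finset.mem_biUnion.2 ⟨_, s1, Finset.mem_image.2 ⟨_, t1, rfl⟩⟩, ?_⟩
    simp only [List.map_cons]
    rw [t2, hℓ, hm]

theorem gr_shape {R R' : Rel} {w : Word} {a b : ℕ} (hl : Len w a b) {ℓ m : List Bool}
    (hℓ : ℓ.length = a) (hm : m.length = a) {K L : List (List Bool)} (hK : K ∈ gr R w ℓ)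
    (hL : L ∈ gr R' w m) : K.map List.length = L.map List.length :=
  (gr_xor (R'' := fun _ _ _ _ _ => true) (fun _ _ _ _ _ _ _ _ _ _ _ => rfl) hl hℓ hm hK hL).2

theorem gr_inter : ∀ {w : Word} {a b : ℕ}, Len w a b → ∀ {ℓ : List Bool}, ℓ.length = a →
      ∀ {K : List (List Bool)}, K ∈ gr rA w ℓ → K ∈ gr rB w ℓ → K ∈ gr rE w ℓ := by
  intro w
  induction w with
  | nil =>
    intro a b _ ℓ hℓ K hK _
    exact hK
  | cons x w ih =>
    intro a b hl ℓ hℓ K hK hL
    obtain ⟨k, i⟩ := x
    obtain ⟨hi, hl'⟩ := len_cons hl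
    obtain ⟨ℓ', h1, h2⟩ := Finset.mem_biUnion.1 hK
    obtain ⟨K', hK', rfl⟩ := Finset.mem_image.1 h2
    obtain ⟨m', h3, h4⟩ := Finset.mem_biUnion.1 hL
    obtain ⟨L', hL', he⟩ := Finset.mem_image.1 h4
    have he' := (List.cons.inj he).2
    subst he'
    obtain ⟨r1, e1⟩ := gr_head hK'
    obtain ⟨r2, e2⟩ := gr_head hL'
    have hmm : m' = ℓ' := (List.cons.inj (e2.symm.trans e1)).1
    subst hmm
    have s3 : m'.length + k.inn = ℓ.length + k.out :=
      (succ_xor (R'' := fun _ _ _ _ _ => true) (fun _ _ _ _ _ _ _ _ _ _ _ => rfl)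
        (by rw [hℓ]; exact hi) rfl h1 h3).2.2
    have t1 := ih (hl' m'.length (by rw [s3, hℓ])) rfl hK' hL'
    refine Finset.mem_biUnion.2 ⟨m', ?_, Finset.mem_image.2 ⟨_, t1, rfl⟩⟩
    have hcross : ∀ (hk : k = .pos ∨ k = .neg), m' ∈ succ rE (k, i) ℓ := by
      intro hk
      have hin : k.inn = 2 := by
        rcases hk with rfl | rfl <;> rfl
      rw [hin, ← hℓ] at hi
      obtain ⟨u, v, x, y, hu, rfl⟩ := split2 hi
      rw [← hu] at h1 h3 ⊢
      obtain ⟨a, b, hab, rfl⟩ := (mem_succ_cross hk).1 h1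
      obtain ⟨c, d, hcd, he⟩ := (mem_succ_cross hk).1 h3
      obtain ⟨rfl, he2⟩ := List.cons.inj (List.append_cancel_left he)
      obtain ⟨rfl, _⟩ := List.cons.inj he2
      refine (mem_succ_cross hk).2 ⟨a, b, ?_, rfl⟩
      rcases hk with rfl | rfl <;> revert hab hcd <;>
        cases x <;> cases y <;> cases a <;> cases b <;> simp [rA, rB, rE]
    cases k with
    | cup => exact h1
    | cap => exact h1
    | pos => exact hcross (Or.inl rfl)
    | neg => exact hcross (Or.inr rfl)

theorem gr_run : ∀ {w : Word} {a b : ℕ}, Len w a b → ∀ {ℓ : List Bool}, ℓ.length = a →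
      ∀ {K : List (List Bool)}, K ∈ gr rE w ℓ → Run w K := by
  intro w
  induction w with
  | nil =>
    intro a b _ ℓ hℓ K hK
    simp only [gr, Finset.mem_singleton] at hK
    subst hK
    exact Run.nil ℓ
  | cons x w ih =>
    intro a b hl ℓ hℓ K hK
    obtain ⟨k, i⟩ := x
    obtain ⟨hi, hl'⟩ := len_cons hl
    obtain ⟨ℓ', h1, h2⟩ := Finset.mem_biUnion.1 hK
    obtain ⟨K', hK', rfl⟩ := Finset.mem_image.1 h2
    have s3 : ℓ'.length + k.inn = ℓ.length + k.out :=
      (succ_xor (R'' := fun _ _ _ _ _ => true) (fun _ _ _ _ _ _ _ _ _ _ _ => rfl)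
        (by rw [hℓ]; exact hi) rfl h1 h1).2.2
    have t1 := ih (hl' ℓ'.length (by rw [s3, hℓ])) rfl hK'
    obtain ⟨r1, rfl⟩ := gr_head hK'
    refine Run.cons ?_ t1
    have hcross : ∀ (hk : k = .pos ∨ k = .neg), Step (k, i) ℓ ℓ' := by
      intro hk
      have hin : k.inn = 2 := by
        rcases hk with rfl | rfl <;> rfl
      rw [hin, ← hℓ] at hi
      obtain ⟨u, v, x, y, hu, rfl⟩ := split2 hi
      rw [← hu] at h1 ⊢
      obtain ⟨a, b, hab, rfl⟩ := (mem_succ_cross hk).1 h1
      simp only [rE, Bool.and_eq_true, beq_iff_eq] at hab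
      obtain ⟨rfl, rfl, rfl⟩ := hab
      rcases hk with rfl | rfl
      · exact Step.pos u v _ _
      · exact Step.neg u v _ _
    cases k with
    | cup =>
      have hi' : i ≤ ℓ.length := by rw [hℓ]; simpa [Kind.inn] using hi
      obtain ⟨u, v, hu, rfl⟩ : ∃ u v : List Bool, u.length = i ∧ ℓ = u ++ v :=
        ⟨ℓ.take i, ℓ.drop i, List.length_take_of_le hi', (List.take_append_drop _ _).symm⟩
      rw [← hu] at h1 ⊢
      obtain ⟨y, rfl⟩ := mem_succ_cup.1 h1
      exact Step.cup u v y
    | cap =>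
      obtain ⟨u, v, x, y, hu, rfl⟩ := split2 (ℓ := ℓ) (i := i) (by rw [hℓ]; exact hi)
      rw [← hu] at h1 ⊢
      obtain ⟨rfl, rfl⟩ := mem_succ_cap.1 h1
      exact Step.cap u v x
    | pos => exact hcross (Or.inl rfl)
    | neg => exact hcross (Or.inr rfl)

/-! ### Closed labellings -/

/-- the labellings with the same label at the bottom and at the top -/
def Cl (R : Rel) (w : Word) : Finset (List (List Bool)) :=
  ((gr R w [false]).filter (fun K => K.getLast? = some [false])) ∪
    ((gr R w [true]).filter (fun K => K.getLast? = some [true]))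

theorem mem_Cl {R : Rel} {w : Word} {K : List (List Bool)} :
    K ∈ Cl R w ↔ ∃ x : Bool, K ∈ gr R w [x] ∧ K.getLast? = some [x] := by
  unfold Cl
  rw [Finset.mem_union, Finset.mem_filter, Finset.mem_filter]
  constructor
  · rintro (h | h)
    · exact ⟨_, h⟩
    · exact ⟨_, h⟩
  · rintro ⟨x, h⟩
    cases x
    · exact Or.inl h
    · exact Or.inr h

theorem card_Cl (R : Rel) (w : Word) : ((Cl R w).card : ℤ) = trc R w := by
  unfold Cl trc
  rw [Finset.card_union_of_disjoint, Nat.cast_add, card_gr, card_gr]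
  rw [Finset.disjoint_left]
  intro K hK hK'
  obtain ⟨r1, rfl⟩ := gr_head (Finset.mem_filter.1 hK).1
  obtain ⟨r2, h2⟩ := gr_head (Finset.mem_filter.1 hK').1
  simp at h2

theorem Cl_xor {R R' R'' : Rel}
    (hR : ∀ k a b a' b' c d c' d', R k a b a' b' = true → R' k c d c' d' = true →
      R'' k (xor a c) (xor b d) (xor a' c') (xor b' d') = true) {w : Word} (hl : Len w 1 1)
    {K L : List (List Bool)} (hK : K ∈ Cl R w) (hL : L ∈ Cl R' w) : xL K L ∈ Cl R'' w := by
  obtain ⟨x, h1, h2⟩ := mem_Cl.1 hK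
  obtain ⟨y, h3, h4⟩ := mem_Cl.1 hL
  obtain ⟨h5, h6⟩ := gr_xor hR hl (ℓ := [x]) (m := [y]) rfl rfl h1 h3
  refine mem_Cl.2 ⟨xor x y, h5, ?_⟩
  have h7 : K.length = L.length := by
    have := congrArg List.length h6
    simpa using this
  exact getLast_zip xl h7 h2 h4

theorem Cl_shape {R R' : Rel} {w : Word} (hl : Len w 1 1)
    {K L : List (List Bool)} (hK : K ∈ Cl R w) (hL : L ∈ Cl R' w) :
    K.map List.length = L.map List.length := by
  obtain ⟨x, h1, h2⟩ := mem_Cl.1 hK
  obtain ⟨y, h3, h4⟩ := mem_Cl.1 hL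
  exact gr_shape hl (ℓ := [x]) (m := [y]) rfl rfl h1 h3

theorem Cl_inter {w : Word} (hl : Len w 1 1) {K : List (List Bool)} (hA : K ∈ Cl rA w)
    (hB : K ∈ Cl rB w) : K ∈ Cl rE w := by
  obtain ⟨x, h1, h2⟩ := mem_Cl.1 hA
  obtain ⟨y, h3, h4⟩ := mem_Cl.1 hB
  obtain ⟨r1, e1⟩ := gr_head h1
  obtain ⟨r2, e2⟩ := gr_head h3
  have : [x] = [y] := (List.cons.inj (e1.symm.trans e2)).1
  have hxy : x = y := by simpa using this
  subst hxy
  exact mem_Cl.2 ⟨x, gr_inter hl rfl h1 h3, h2⟩

theorem card_mul {w : Word} (hl : Len w 1 1) :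
    (Cl rA w).card * (Cl rB w).card ≤ (Cl rX w).card * (Cl rE w).card := by
  classical
  have hAA : ∀ (k : Kind) (a b a' b' c d c' d' : Bool), rA k a b a' b' = true →
      rA k c d c' d' = true → rA k (xor a c) (xor b d) (xor a' c') (xor b' d') = true := by
    intro k a b a' b' c d c' d'
    cases k <;> simp only [rA, Bool.and_eq_true, beq_iff_eq] <;> rintro ⟨rfl, rfl⟩ ⟨rfl, rfl⟩ <;>
      exact ⟨rfl, rfl⟩
  have hBB : ∀ (k : Kind) (a b a' b' c d c' d' : Bool), rB k a b a' b' = true →
      rB k c d c' d' = true → rB k (xor a c) (xor b d) (xor a' c') (xor b' d') = true := by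
    intro k a b a' b' c d c' d'
    cases k <;> simp only [rB, Bool.and_eq_true, beq_iff_eq] <;> rintro ⟨rfl, rfl⟩ ⟨rfl, rfl⟩ <;>
      exact ⟨rfl, rfl⟩
  have hAB : ∀ (k : Kind) (a b a' b' c d c' d' : Bool), rA k a b a' b' = true →
      rB k c d c' d' = true → rX k (xor a c) (xor b d) (xor a' c') (xor b' d') = true := by
    intro k a b a' b' c d c' d'
    cases k <;> revert a b a' b' c d c' d' <;> decide
  rw [← Finset.card_product, ← Finset.card_product]
  set P := Cl rA w ×ˢ Cl rB w with hP
  let rp : List (List Bool) → List (List Bool) × List (List Bool) := fun x =>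
    if h : ∃ p ∈ P, xL p.1 p.2 = x then h.choose else ([], [])
  have hrp : ∀ p ∈ P, rp (xL p.1 p.2) ∈ P ∧
      xL (rp (xL p.1 p.2)).1 (rp (xL p.1 p.2)).2 = xL p.1 p.2 := by
    intro p hp
    have hex : ∃ q ∈ P, xL q.1 q.2 = xL p.1 p.2 := ⟨p, hp, rfl⟩
    have : rp (xL p.1 p.2) = hex.choose := dif_pos hex
    rw [this]
    exact hex.choose_spec
  refine Finset.card_le_card_of_injOn
    (fun p => (xL p.1 p.2, xL p.1 (rp (xL p.1 p.2)).1)) ?_ ?_
  · intro p hp
    obtain ⟨hA, hB⟩ := Finset.mem_product.1 (Finset.mem_coe.1 hp)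
    obtain ⟨h1, h2⟩ := hrp p hp
    obtain ⟨hA', hB'⟩ := Finset.mem_product.1 h1
    refine Finset.mem_coe.2 (Finset.mem_product.2 ⟨Cl_xor hAB hl hA hB, ?_⟩)
    refine Cl_inter hl (Cl_xor hAA hl hA hA') ?_
    have h3 : xL p.1 (rp (xL p.1 p.2)).1 = xL p.2 (rp (xL p.1 p.2)).2 :=
      xL_swap (Cl_shape hl hA hB) (Cl_shape hl hA hA') (Cl_shape hl hA hB') h2.symm
    show xL p.1 (rp (xL p.1 p.2)).1 ∈ Cl rB w
    rw [h3]
    exact Cl_xor hBB hl hB hB'
  · intro p hp q hq hpq
    obtain ⟨hA, hB⟩ := Finset.mem_product.1 (Finset.mem_coe.1 hp)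
    obtain ⟨hA', hB'⟩ := Finset.mem_product.1 (Finset.mem_coe.1 hq)
    obtain ⟨e1, e2⟩ := Prod.mk.inj hpq
    obtain ⟨h1, -⟩ := hrp p hp
    obtain ⟨hA0, hB0⟩ := Finset.mem_product.1 h1
    rw [← e1] at e2
    have e3 : p.1 = q.1 := by
      rw [← xL_cancel (Cl_shape hl hA hA0), e2, xL_cancel (Cl_shape hl hA' hA0)]
    have e4 : p.2 = q.2 := by
      have h5 : xL p.2 p.1 = xL q.2 q.1 := by
        have hcomm : ∀ a b : List Bool, xl a b = xl b a := by
          intro a b
          unfold xl
          exact List.zipWith_comm_of_comm (fun x y => Bool.xor_comm x y)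
        have hc : ∀ A B : List (List Bool), xL A B = xL B A := by
          intro A B
          unfold xL
          exact List.zipWith_comm_of_comm hcomm
        rw [hc p.2, hc q.2]
        exact e1
      rw [← xL_cancel (Cl_shape hl hB hA), h5, e3, xL_cancel (Cl_shape hl hB' hA')]
    exact Prod.ext e3 e4

theorem card_E {w : Word} (hw : IsKnot w) : (Cl rE w).card ≤ 2 := by
  have hl : Len w 1 1 := hw.1.len
  have key : ∀ x : Bool, ((gr rE w [x]).filter (fun K => K.getLast? = some [x])).card ≤ 1 := by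
    intro x
    rw [Finset.card_le_one]
    have hall : ∀ K ∈ gr rE w [x], K = (K.map List.length).map (fun n => List.replicate n x) := by
      intro K hK
      have hr := gr_run hl rfl hK
      obtain ⟨r, rfl⟩ := gr_head hK
      have h1 := hw.2 Bool x r hr
      rw [List.map_map]
      nth_rewrite 1 [← List.map_id ([x] :: r)]
      refine List.map_congr_left fun ℓ hℓ => ?_
      exact List.eq_replicate_iff.2 ⟨rfl, fun y hy => h1 ℓ hℓ y hy⟩
    intro K hK L hL
    rw [Finset.mem_filter] at hK hL
    rw [hall K hK.1, hall L hL.1, gr_shape hl (ℓ := [x]) (m := [x]) rfl rfl hK.1 hL.1]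
  unfold Cl
  refine (Finset.card_union_le _ _).trans ?_
  have h1 := key false
  have h2 := key true
  omega

theorem main {w : Word} (hw : IsKnot w) :
    (Cl rA w).card * (Cl rB w).card ≤ 2 ^ (crossings w + 2) := by
  have hl : Len w 1 1 := hw.1.len
  refine (card_mul hl).trans ?_
  have h1 : ((Cl rX w).card : ℤ) = 2 ^ crossings w * ((Cl rE w).card : ℤ) := by
    rw [card_Cl, card_Cl, trc_eq hl]
  have h2 : (Cl rX w).card = 2 ^ crossings w * (Cl rE w).card := by exact_mod_cast h1
  have h3 := card_E hw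
  rw [h2, pow_add, mul_assoc]
  refine Nat.mul_le_mul_left _ ?_
  calc (Cl rE w).card * (Cl rE w).card ≤ 2 * 2 := Nat.mul_le_mul h3 h3
    _ = 2 ^ 2 := by norm_num

end Pool.Agent.HTW.Pl
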