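import Pool.Agent.HTW.TSide

/-!
# The size of the coloured evaluation of a satellite at a fixed level

The cable number `N` is fixed, the pattern is an arbitrary tangle whose top coefficient does not
vanish.
-/

namespace Pool.Agent.HTW

open Finset

/-- The number of positive letters. -/
def posc (w : Word) : ℕ := w.countP (fun x => x.1 = Kind.pos)

/-- The number of negative letters. -/
def negc (w : Word) : ℕ := w.countP (fun x => x.1 = Kind.neg)

theorem posc_cons (x : Letter) (w : Word) : posc (x :: w) = posc w + posc [x] := by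
  unfold posc
  rw [List.countP_cons, List.countP_cons, List.countP_nil, Nat.zero_add]

theorem negc_cons (x : Letter) (w : Word) : negc (x :: w) = negc w + negc [x] := by
  unfold negc
  rw [List.countP_cons, List.countP_cons, List.countP_nil, Nat.zero_add]

theorem posc_add_negc (w : Word) : posc w + negc w = crossings w := by
  induction w with
  | nil => rfl
  | cons x w ih =>
    rw [posc_cons, negc_cons, crossings_cons, ← ih]
    obtain ⟨k, i⟩ := x
    cases k <;> simp [posc, negc, crossings] <;> omega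

theorem crossings_add_extrema (w : Word) : crossings w + extrema w = w.length := by
  induction w with
  | nil => rfl
  | cons x w ih =>
    rw [crossings_cons, extrema_cons, List.length_cons, ← ih]
    obtain ⟨k, i⟩ := x
    cases k <;> simp [extrema, crossings] <;> omega

theorem posc_mirror (w : Word) : posc (mirror w) = negc w := by
  induction w with
  | nil => rfl
  | cons x w ih =>
    show posc ((x.1.mirror, x.2) :: mirror w) = _
    rw [posc_cons, negc_cons, ih]
    obtain ⟨k, i⟩ := x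
    cases k <;> simp [posc, negc, Kind.mirror]

theorem negc_mirror (w : Word) : negc (mirror w) = posc w := by
  induction w with
  | nil => rfl
  | cons x w ih =>
    show negc ((x.1.mirror, x.2) :: mirror w) = _
    rw [posc_cons, negc_cons, ih]
    obtain ⟨k, i⟩ := x
    cases k <;> simp [posc, negc, Kind.mirror]

theorem extrema_mirror (w : Word) : extrema (mirror w) = extrema w := by
  induction w with
  | nil => rfl
  | cons x w ih =>
    show extrema ((x.1.mirror, x.2) :: mirror w) = _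
    rw [extrema_cons, extrema_cons, ih]
    obtain ⟨k, i⟩ := x
    cases k <;> simp [extrema, Kind.mirror]

/-- The exponent of the norm bound. -/
def uexp (m : ℕ) (w : Word) : ℕ := m ^ 2 * posc w + (m ^ 2 + 2 * m) * negc w + m * extrema w

theorem uexp_cons (m : ℕ) (x : Letter) (w : Word) : uexp m (x :: w) = uexp m w + uexp m [x] := by
  unfold uexp
  rw [posc_cons, negc_cons, extrema_cons]
  ring

theorem uexp_add_mirror (m : ℕ) (w : Word) :
    uexp m w + uexp m (mirror w) = 2 * (m * (m * crossings w + w.length)) := by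
  unfold uexp
  rw [posc_mirror, negc_mirror, extrema_mirror, ← crossings_add_extrema, ← posc_add_negc]
  ring

/-- Norm bound for one letter. -/
theorem bd_evL_sharp (A : ℝ) (hA : A ≠ 0) (h1 : 1 < A) (m : ℕ) {x : Letter} {ℓ ℓ' : List Unit}
    (h : Step x ℓ ℓ') :
    Bd (m * ℓ.length) (m * ℓ'.length) ((tl A hA).evL m x)
      ((2 ^ (m * extrema [x]) * A ^ uexp m [x]) ^ 2) := by
  have hA0 : 0 < A := by linarith
  have hAA : A ^ 2 + (A⁻¹) ^ 2 ≤ 2 * A ^ 2 := by
    have : A⁻¹ ≤ A := (inv_lt_one_of_one_lt₀ h1).le.trans h1.le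
    have h7 : (A⁻¹) ^ 2 ≤ A ^ 2 := pow_le_pow_left₀ (by positivity) this 2
    linarith
  have hcc : (A ^ 2 + (A⁻¹) ^ 2) ^ m ≤ (2 ^ m * A ^ m) ^ 2 := by
    calc (A ^ 2 + (A⁻¹) ^ 2) ^ m ≤ (2 * A ^ 2) ^ m := pow_le_pow_left₀ (by positivity) hAA m
      _ = 2 ^ m * (A ^ m) ^ 2 := by rw [mul_pow]; ring
      _ ≤ (2 ^ m) ^ 2 * (A ^ m) ^ 2 := by
          refine mul_le_mul_of_nonneg_right ?_ (by positivity)
          have h2 : (1 : ℝ) ≤ 2 ^ m := one_le_pow₀ (by norm_num)
          nlinarith
      _ = (2 ^ m * A ^ m) ^ 2 := by ring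
  cases h with
  | cup u v y =>
    have e1 : (u ++ v).length = u.length + v.length := by simp
    have e2 : (u ++ y :: y :: v).length = u.length + v.length + 2 := by simp; omega
    have e4 : extrema [(Kind.cup, u.length)] = 1 := by simp [extrema]
    have e5 : uexp m [(Kind.cup, u.length)] = m := by simp [uexp, posc, negc, extrema]
    rw [e1, e2, e4, e5, mul_one]
    have e6 : m * (u.length + v.length + 2) = m * (u.length + v.length) + 2 * m := by ring
    rw [e6]
    exact (bd_U A hA h1.le m (m * (u.length + v.length)) (m * u.length)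
      (Nat.mul_le_mul_left m (by omega))).mono hcc
  | cap u v y =>
    have e1 : (u ++ v).length = u.length + v.length := by simp
    have e2 : (u ++ y :: y :: v).length = u.length + v.length + 2 := by simp; omega
    have e4 : extrema [(Kind.cap, u.length)] = 1 := by simp [extrema]
    have e5 : uexp m [(Kind.cap, u.length)] = m := by simp [uexp, posc, negc, extrema]
    rw [e1, e2, e4, e5, mul_one]
    have e6 : m * (u.length + v.length + 2) = m * (u.length + v.length) + 2 * m := by ring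
    rw [e6]
    exact (bd_N A hA h1.le m (m * (u.length + v.length)) (m * u.length)
      (Nat.mul_le_mul_left m (by omega))).mono hcc
  | pos u v y z =>
    have e1 : (u ++ z :: y :: v).length = u.length + v.length + 2 := by simp; omega
    have e2 : (u ++ y :: z :: v).length = u.length + v.length + 2 := by simp; omega
    have e4 : extrema [(Kind.pos, u.length)] = 0 := by simp [extrema]
    have e5 : uexp m [(Kind.pos, u.length)] = m ^ 2 := by simp [uexp, posc, negc, extrema]
    rw [e1, e4, e5, mul_zero, pow_zero, one_mul]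
    have hle : m * u.length + m + m ≤ m * (u.length + v.length + 2) := by nlinarith
    refine (bd_X A hA h1.le m m (m * (u.length + v.length + 2)) (m * u.length) hle).mono
      (le_of_eq ?_)
    rw [← pow_mul]
    congr 1
    ring
  | neg u v y z =>
    have e1 : (u ++ z :: y :: v).length = u.length + v.length + 2 := by simp; omega
    have e4 : extrema [(Kind.neg, u.length)] = 0 := by simp [extrema]
    have e5 : uexp m [(Kind.neg, u.length)] = m ^ 2 + 2 * m := by
      simp [uexp, posc, negc, extrema]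
    rw [e1, e4, e5, mul_zero, pow_zero, one_mul]
    have hle : m * u.length + 2 * m ≤ m * (u.length + v.length + 2) := by nlinarith
    refine (bd_mirror_X A hA h1 m (m * (u.length + v.length + 2)) (m * u.length) hle).mono
      (le_of_eq ?_)
    rw [← pow_mul]
    congr 1
    ring

theorem bd_ev_sharp_run (A : ℝ) (hA : A ≠ 0) (h1 : 1 < A) (m : ℕ) {w : Word}
    {ℓ : List Unit} {L : List (List Unit)} (h : Run w (ℓ :: L)) {ℓ' : List Unit}
    (hL : (ℓ :: L).getLast? = some ℓ') :
    Bd (m * ℓ.length) (m * ℓ'.length) ((tl A hA).ev m w)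
      ((2 ^ (m * extrema w) * A ^ uexp m w) ^ 2) := by
  induction w generalizing ℓ L with
  | nil =>
    cases h
    simp only [List.getLast?_singleton, Option.some.injEq] at hL
    subst hL
    have e4 : extrema [] = 0 := rfl
    have e5 : uexp m [] = 0 := by simp [uexp, posc, negc, extrema]
    rw [e4, e5, mul_zero, pow_zero, pow_zero, one_mul, one_pow]
    exact bd_one _
  | cons x w ih =>
    cases h with
    | cons hs hr =>
      rw [List.getLast?_cons_cons] at hL
      have h2 := ih hr hL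
      have h4 := bd_evL_sharp A hA h1 m hs
      have e : (2 ^ (m * extrema (x :: w)) * A ^ uexp m (x :: w)) ^ 2 =
          (2 ^ (m * extrema w) * A ^ uexp m w) ^ 2 *
            (2 ^ (m * extrema [x]) * A ^ uexp m [x]) ^ 2 := by
        rw [extrema_cons, uexp_cons, mul_add, pow_add, pow_add]
        ring
      rw [e]
      exact h2.mul (by positivity) h4

/-- The norm of the cable of a tangle. -/
theorem bd_ev_sharp (A : ℝ) (hA : A ≠ 0) (h1 : 1 < A) (m : ℕ) {w : Word} {a b : ℕ}
    (h : URun a b w) :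
    Bd (m * a) (m * b) ((tl A hA).ev m w) ((2 ^ (m * extrema w) * A ^ uexp m w) ^ 2) := by
  obtain ⟨K, hK, h2, h3⟩ := h
  cases K with
  | nil => simp at h2
  | cons ℓ K =>
    simp only [List.head?_cons, Option.some.injEq] at h2
    have h4 := bd_ev_sharp_run A hA h1 m hK h3
    rwa [h2, List.length_replicate, List.length_replicate] at h4

/-- The exponents can be compared. -/
theorem exp_le_of {c C A₁ : ℝ} {x y : ℤ} (hc : 0 < c) (hA₁ : 1 < A₁)
    (h : ∀ A : ℝ, A₁ ≤ A → c * A ^ x ≤ C * A ^ y) : x ≤ y := by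
  by_contra hcon
  rw [not_le] at hcon
  set A : ℝ := max A₁ (C / c + 1) with hA
  have h1 : A₁ ≤ A := le_max_left _ _
  have h2 : C / c + 1 ≤ A := le_max_right _ _
  have hA1 : 1 < A := lt_of_lt_of_le hA₁ h1
  have hA0 : 0 < A := by linarith
  have h3 := h A h1
  have h4 : A ^ (y + 1) ≤ A ^ x := zpow_le_zpow_right₀ hA1.le (by omega)
  rw [zpow_add₀ hA0.ne', zpow_one] at h4
  have h5 : 0 < A ^ y := zpow_pos hA0 _
  have h6 : c * (A ^ y * A) ≤ C * A ^ y := (mul_le_mul_of_nonneg_left h4 hc.le).trans h3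
  have h7 : c * A ≤ C := by
    have h8 : (c * A) * A ^ y ≤ C * A ^ y := by
      calc (c * A) * A ^ y = c * (A ^ y * A) := by ring
        _ ≤ _ := h6
    exact le_of_mul_le_mul_right h8 h5
  have h9 : C < c * A := by
    have h10 : c * (C / c + 1) ≤ c * A := mul_le_mul_of_nonneg_left h2 hc.le
    have h11 : c * (C / c + 1) = C + c := by field_simp
    linarith
  linarith

/-- The main exponent. -/
def eexp (N n c κ : ℕ) (a : ℤ) : ℤ :=
  2 * ((N * (n - 1) : ℕ) : ℤ) + (a + (((N * n) ^ 2 * c + N * n * κ : ℕ) : ℤ))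

/-! ### An operator in place of the pattern -/

/-- The coloured evaluation with an operator in place of the pattern. -/
noncomputable def opv (A : ℝ) (hA : A ≠ 0) (N n : ℕ) (w : Word) (B : RR) : ℝ :=
  (((tl A hA).sh N ((tl A hA).N (N * (n - 1))) * ((tl A hA).ev (N * n) w * B) *
    (tl A hA).sh N ((tl A hA).U (N * (n - 1)))) (vplus N)) tt

/-- The operator of the channel `j`. -/
noncomputable def Och (A : ℝ) (hA : A ≠ 0) (N n : ℕ) (w : Word) (B : RR) (j : ℕ) : RR :=
  (tl A hA).ev (N * n) w * Q A hA (N * n) j * B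

/-- The term of the state `ε` and of the channel `j`. -/
noncomputable def oterm (A : ℝ) (hA : A ≠ 0) (N n : ℕ) (w : Word) (B : RR)
    (x : (Fin (N * (n - 1)) → Bool) × ℕ) : ℝ :=
  A ^ (2 * sgn (List.ofFn x.1)) *
    (Och A hA N n w B x.2 (cvec (lab N _ x.1))) (pre (lab N _ x.1) tt)

theorem opv_eq (A : ℝ) (hA : A ≠ 0) (h1 : 1 < A) {N n : ℕ} (hn : 1 ≤ n) {w : Word} {B : RR}
    (hw : LongWord w) (hβ : (tl A hA).Nt (N * n) (N * n) B) :
    opv A hA N n w B = (-1) ^ (N * (n - 1)) *
      ∑ x ∈ (Finset.univ : Finset (Fin (N * (n - 1)) → Bool)) ×ˢ chans (N * n),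
        oterm A hA N n w B x := by
  have hM : N + N * (n - 1) = N * n := by
    obtain ⟨n', rfl⟩ : ∃ n', n = n' + 1 := ⟨n - 1, by omega⟩
    rw [Nat.add_sub_cancel]
    ring
  have hT : (tl A hA).Loc (N + N * (n - 1)) (N + N * (n - 1))
      ((tl A hA).ev (N * n) w * B) := by
    rw [hM]
    exact ((nt_long (tl A hA) (N * n) hw).mul hβ).loc
  unfold opv
  rw [close_eq A hA N (N * (n - 1)) _ hT, Finset.sum_product]
  congr 1
  refine Finset.sum_congr rfl fun ε _ => ?_
  have e : (tl A hA).ev (N * n) w * B = ∑ j ∈ chans (N * n), Och A hA N n w B j := by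
    unfold Och
    rw [← Finset.sum_mul, ← Finset.mul_sum, sum_Q A hA h1, mul_one]
  rw [e, LinearMap.sum_apply, Finset.sum_apply, Finset.mul_sum]
  refine Finset.sum_congr rfl fun j _ => ?_
  unfold oterm lab
  rw [vec_eq, strm_eq]

/-- The lower bound of the evaluation of the satellite. -/
theorem opv_ge_N {w : Word} {c κ : ℕ} (hD : Dom w c κ) (hw : LongWord w) {n N : ℕ} (hn : 1 ≤ n)
    {T : Word} (hTr : URun n n T) {t : ℝ → ℝ}
    (ht : ∀ (A : ℝ) (hA : A ≠ 0), 1 < A →
      (tl A hA).ev N T * Q A hA (N * n) (N * n) = t A • Q A hA (N * n) (N * n))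
    {U : ℕ} {C₀ : ℝ} (hC₀ : 0 ≤ C₀)
    (hbd : ∀ (A : ℝ) (hA : A ≠ 0), 1 < A → Bd (N * n) (N * n) ((tl A hA).ev N T)
      ((C₀ * A ^ U) ^ 2))
    {a : ℤ} {c₀ A₀ : ℝ} (hc₀ : 0 < c₀) (hA₀ : 1 < A₀)
    (hlow : ∀ A : ℝ, A₀ ≤ A → c₀ * A ^ a ≤ |t A|)
    (hup : ∀ A : ℝ, A₀ ≤ A → |t A| ≤ c₀⁻¹ * A ^ a)
    (e : ℤ) (Θ : ∀ (A : ℝ), A ≠ 0 → RR)
    (hΘ : ∀ (A : ℝ) (hA : A ≠ 0), 1 < A → (tl A hA).Nt (N * n) (N * n) (Θ A hA) ∧
      ∀ j ∈ chans (N * n), Θ A hA * Q A hA (N * n) j = ((tl A hA).mu j) ^ e • Q A hA (N * n) j)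
    (hgap : ∀ j : ℕ, j + 2 ≤ N * n → (U : ℤ) + j ^ 2 * c + e * (j ^ 2 + 2 * j) <
      a + ((N * n : ℕ) : ℤ) ^ 2 * c + e * (((N * n : ℕ) : ℤ) ^ 2 + 2 * ((N * n : ℕ) : ℤ))) :
    ∃ c₁ A₁ : ℝ, 0 < c₁ ∧ 1 < A₁ ∧ ∀ (A : ℝ) (hA : A ≠ 0), A₁ ≤ A →
      c₁ * A ^ (eexp N n c κ a + e * (((N * n : ℕ) : ℤ) ^ 2 + 2 * ((N * n : ℕ) : ℤ))) ≤
        |opv A hA N n w (Θ A hA * (tl A hA).ev N T)| := by
  obtain ⟨C, A₂, hC, hA₂, hdom⟩ := hD (N * n)
  set s := (Finset.univ : Finset (Fin (N * (n - 1)) → Bool)) ×ˢ chans (N * n) with hs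
  set K : ℝ := C * c₀⁻¹ + C * C₀ with hK
  have hK0 : 0 ≤ K := by positivity
  have hM : N + N * (n - 1) = N * n := by
    obtain ⟨n', rfl⟩ : ∃ n', n = n' + 1 := ⟨n - 1, by omega⟩
    rw [Nat.add_sub_cancel]
    ring
  refine ⟨c₀ / 4, max (max A₀ A₂) (4 * (s.card * K) / c₀ + 1), by positivity,
    lt_of_lt_of_le hA₀ ((le_max_left _ _).trans (le_max_left _ _)), ?_⟩
  intro A hA hAA
  have hAA₀ : A₀ ≤ A := (le_max_left _ _).trans ((le_max_left _ _).trans hAA)
  have hAA₂ : A₂ ≤ A := (le_max_right _ _).trans ((le_max_left _ _).trans hAA)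
  have hAK : 4 * (s.card * K) / c₀ + 1 ≤ A := (le_max_right _ _).trans hAA
  have h1 : 1 < A := lt_of_lt_of_le hA₀ hAA₀
  have hA0 : 0 < A := lt_trans one_pos h1
  obtain ⟨hj1, hj2⟩ := hdom A hA hAA₂
  obtain ⟨hΘ1, hΘ2⟩ := hΘ A hA h1
  have hNT : (tl A hA).Nt (N * n) (N * n) ((tl A hA).ev N T) := nt_uRun (tl A hA) N hTr
  have hN' := hΘ1.mul hNT
  set B : RR := Θ A hA * (tl A hA).ev N T with hB
  set V : ℤ := e * (((N * n : ℕ) : ℤ) ^ 2 + 2 * ((N * n : ℕ) : ℤ)) with hV
  set E := eexp N n c κ a + V with hE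
  have hmu : ∀ j : ℕ, |(tl A hA).mu j ^ e| = A ^ (e * ((j : ℤ) ^ 2 + 2 * j)) := by
    intro j
    rw [abs_zpow, abs_mu A hA h1, ← zpow_natCast, ← zpow_mul]
    congr 1
    push_cast
    ring
  have hmuM : |(tl A hA).mu (N * n) ^ e| = A ^ V := by
    rw [hmu, hV]
  set top : (Fin (N * (n - 1)) → Bool) × ℕ := (fun _ => true, N * n) with htop
  have htop_mem : top ∈ s := by
    rw [hs, Finset.mem_product]
    exact ⟨Finset.mem_univ _, self_mem_chans _⟩
  have hOj : ∀ j ∈ chans (N * n), Och A hA N n w B j = ((tl A hA).mu j) ^ e •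
      ((tl A hA).ev (N * n) w * Q A hA (N * n) j * (tl A hA).ev N T) := by
    intro j hj
    unfold Och
    calc (tl A hA).ev (N * n) w * Q A hA (N * n) j * B
        = (tl A hA).ev (N * n) w * (Q A hA (N * n) j * Θ A hA) * (tl A hA).ev N T := by
          rw [hB]
          noncomm_ring
      _ = (tl A hA).ev (N * n) w * (Θ A hA * Q A hA (N * n) j) * (tl A hA).ev N T := by
          rw [commute_Q A hA _ _ hΘ1]
      _ = _ := by rw [hΘ2 j hj, mul_smul_comm, smul_mul_assoc]
  have hTop : Och A hA N n w B (N * n) = ((tl A hA).mu (N * n) ^ e * t A) •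
      ((tl A hA).ev (N * n) w * Q A hA (N * n) (N * n)) := by
    rw [hOj _ (self_mem_chans _), mul_assoc, commute_Q A hA _ _ hNT, ht A hA h1, mul_smul_comm,
      smul_smul]
  have hl := hlow A hAA₀
  have hu := hup A hAA₀
  have he : |opv A hA N n w B| = |∑ x ∈ s, oterm A hA N n w B x| := by
    rw [opv_eq A hA h1 hn hw hN', abs_mul, abs_pow, abs_neg, abs_one, one_pow, one_mul]
  -- the top term
  have hmain : c₀ / 2 * A ^ E ≤ |oterm A hA N n w B top| := by
    have e1 : lab N (N * (n - 1)) (fun _ => true) = List.replicate (N * n) true := by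
      unfold lab
      rw [List.ofFn_const, List.replicate_append_replicate, hM]
    have e2 : oterm A hA N n w B top =
        A ^ (2 * ((N * (n - 1) : ℕ) : ℤ)) * (((tl A hA).mu (N * n) ^ e * t A) *
          jj A hA (N * n) w) := by
      unfold oterm
      rw [htop]
      simp only
      rw [e1, pre_replicate, cvec_replicate, List.ofFn_const, sgn_replicate, hTop,
        LinearMap.smul_apply, Pi.smul_apply, Module.End.mul_apply, Q_vplus A hA h1, smul_eq_mul]
      rfl
    rw [e2, abs_mul, abs_mul, abs_mul, hmuM, abs_of_pos (zpow_pos hA0 _), hE]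
    unfold eexp
    rw [zpow_add₀ hA, zpow_add₀ hA, zpow_add₀ hA, zpow_natCast]
    calc c₀ / 2 * (A ^ (2 * ((N * (n - 1) : ℕ) : ℤ)) *
          (A ^ a * A ^ ((N * n) ^ 2 * c + N * n * κ)) * A ^ V)
        = A ^ (2 * ((N * (n - 1) : ℕ) : ℤ)) * (A ^ V * (c₀ * A ^ a) *
            ((1 / 2) * A ^ ((N * n) ^ 2 * c + N * n * κ))) := by ring
      _ ≤ _ := by
          refine mul_le_mul_of_nonneg_left ?_ (zpow_nonneg hA0.le _)
          exact mul_le_mul (mul_le_mul_of_nonneg_left hl (zpow_nonneg hA0.le _)) hj1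
            (by positivity) (by positivity)
  -- the other terms
  have hb : ∀ x ∈ s.erase top, |oterm A hA N n w B x| ≤ K * A ^ (E - 1) := by
    intro x hx
    obtain ⟨hx1, hx2⟩ := Finset.mem_erase.1 hx
    rw [hs, Finset.mem_product] at hx2
    obtain ⟨ε, j⟩ := x
    by_cases hjM : j = N * n
    · subst hjM
      have hε : ε ≠ fun _ => true := by
        intro h
        apply hx1
        rw [htop, h]
      have h2 := (hj2 _ (self_mem_chans _)).smul ((tl A hA).mu (N * n) ^ e * t A)
      rw [← hTop, ← mul_pow] at h2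
      have h3 := entry_le h2 (lab N _ ε) (by rw [length_lab, hM])
      rw [← sq_abs ((tl A hA).mu (N * n) ^ e * t A * _)] at h3
      have h4 := abs_le_of_sq_le_sq h3 (abs_nonneg _)
      have h5 : |Och A hA N n w B (N * n) (cvec (lab N _ ε)) (pre (lab N _ ε) tt)| ≤
          (A ^ V * (c₀⁻¹ * A ^ a)) * (C * A ^ ((N * n) ^ 2 * c + N * n * κ)) := by
        refine h4.trans ?_
        rw [abs_mul, abs_mul, hmuM, abs_of_nonneg (a := C * _) (by positivity)]
        exact mul_le_mul_of_nonneg_right (mul_le_mul_of_nonneg_left hu (zpow_nonneg hA0.le _))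
          (by positivity)
      have h6 : 2 * sgn (List.ofFn ε) ≤ 2 * ((N * (n - 1) : ℕ) : ℤ) - 1 := by
        have h7 := sgn_le' (List.ofFn ε) (by
          intro h8
          rw [List.length_ofFn, ← List.ofFn_const] at h8
          exact hε (List.ofFn_injective h8))
        rw [List.length_ofFn] at h7
        omega
      unfold oterm
      rw [abs_mul, abs_of_pos (zpow_pos hA0 _)]
      calc A ^ (2 * sgn (List.ofFn ε)) * |Och A hA N n w B (N * n)
            (cvec (lab N _ ε)) (pre (lab N _ ε) tt)|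
          ≤ A ^ (2 * ((N * (n - 1) : ℕ) : ℤ) - 1) *
            ((A ^ V * (c₀⁻¹ * A ^ a)) * (C * A ^ ((N * n) ^ 2 * c + N * n * κ))) := by
            refine mul_le_mul (zpow_le_zpow_right₀ h1.le h6) h5 (abs_nonneg _)
              (zpow_nonneg hA0.le _)
        _ = C * c₀⁻¹ * A ^ (E - 1) := by
            have e3 : E - 1 = (2 * ((N * (n - 1) : ℕ) : ℤ) - 1) +
                (V + (a + (((N * n) ^ 2 * c + N * n * κ : ℕ) : ℤ))) := by
              rw [hE]
              unfold eexp
              ring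
            rw [e3, zpow_add₀ hA (2 * ((N * (n - 1) : ℕ) : ℤ) - 1), zpow_add₀ hA V,
              zpow_add₀ hA a, zpow_natCast]
            ring
        _ ≤ K * A ^ (E - 1) := by
            refine mul_le_mul_of_nonneg_right ?_ (zpow_nonneg hA0.le _)
            rw [hK]
            have : 0 ≤ C * C₀ := mul_nonneg hC hC₀
            linarith
    · have hjc := hx2.2
      have hj3 : j + 2 ≤ N * n := by
        have := mem_chans.1 hjc
        omega
      have h2 := ((hj2 j hjc).mul (by positivity) (hbd A hA h1)).smul ((tl A hA).mu j ^ e)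
      have h3 : Bd (N * n) (N * n) (Och A hA N n w B j)
          ((A ^ (e * ((j : ℤ) ^ 2 + 2 * j)) *
            ((C * A ^ (j ^ 2 * c + N * n * κ)) * (C₀ * A ^ U))) ^ 2) := by
        rw [hOj j hjc, mul_pow, mul_pow (C * A ^ (j ^ 2 * c + N * n * κ)), ← hmu, sq_abs]
        exact h2
      have h4 := abs_le_of_sq_le_sq (entry_le h3 (lab N _ ε) (by rw [length_lab, hM]))
        (by positivity)
      have h6 : 2 * sgn (List.ofFn ε) ≤ 2 * ((N * (n - 1) : ℕ) : ℤ) := by
        have h7 := sgn_le (List.ofFn ε)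
        rw [List.length_ofFn] at h7
        omega
      have hexp : e * ((j : ℤ) ^ 2 + 2 * j) + (((j ^ 2 * c + N * n * κ : ℕ) : ℤ) + (U : ℤ)) ≤
          (V + (a + (((N * n) ^ 2 * c + N * n * κ : ℕ) : ℤ))) - 1 := by
        have h8 := hgap j hj3
        push_cast at h8 ⊢
        linarith
      unfold oterm
      rw [abs_mul, abs_of_pos (zpow_pos hA0 _)]
      calc A ^ (2 * sgn (List.ofFn ε)) * |Och A hA N n w B j
            (cvec (lab N _ ε)) (pre (lab N _ ε) tt)|
          ≤ A ^ (2 * ((N * (n - 1) : ℕ) : ℤ)) * (A ^ (e * ((j : ℤ) ^ 2 + 2 * j)) *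
            ((C * A ^ (j ^ 2 * c + N * n * κ)) * (C₀ * A ^ U))) := by
            refine mul_le_mul (zpow_le_zpow_right₀ h1.le h6) h4 (abs_nonneg _)
              (zpow_nonneg hA0.le _)
        _ = C * C₀ * A ^ (2 * ((N * (n - 1) : ℕ) : ℤ) + (e * ((j : ℤ) ^ 2 + 2 * j) +
              (((j ^ 2 * c + N * n * κ : ℕ) : ℤ) + (U : ℤ)))) := by
            rw [zpow_add₀ hA, zpow_add₀ hA (e * ((j : ℤ) ^ 2 + 2 * j)), zpow_add₀ hA,
              zpow_natCast, zpow_natCast]
            ring
        _ ≤ C * C₀ * A ^ (E - 1) := by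
            refine mul_le_mul_of_nonneg_left (zpow_le_zpow_right₀ h1.le ?_) (mul_nonneg hC hC₀)
            rw [hE]
            unfold eexp
            linarith
        _ ≤ K * A ^ (E - 1) := by
            refine mul_le_mul_of_nonneg_right ?_ (zpow_nonneg hA0.le _)
            rw [hK]
            have : 0 ≤ C * c₀⁻¹ := by positivity
            linarith
  have hsum : |∑ x ∈ s.erase top, oterm A hA N n w B x| ≤ s.card * (K * A ^ (E - 1)) := by
    refine (Finset.abs_sum_le_sum_abs _ _).trans ?_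
    refine (Finset.sum_le_card_nsmul _ _ _ hb).trans ?_
    rw [nsmul_eq_mul]
    refine mul_le_mul_of_nonneg_right ?_ (mul_nonneg hK0 (zpow_nonneg hA0.le _))
    exact_mod_cast Finset.card_le_card (Finset.erase_subset _ _)
  rw [he, ← Finset.add_sum_erase s _ htop_mem]
  have h3 : |oterm A hA N n w B top| - |∑ x ∈ s.erase top, oterm A hA N n w B x| ≤
      |oterm A hA N n w B top + ∑ x ∈ s.erase top, oterm A hA N n w B x| := by
    have := abs_sub_abs_le_abs_sub (oterm A hA N n w B top)
      (-∑ x ∈ s.erase top, oterm A hA N n w B x)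
    rwa [abs_neg, sub_neg_eq_add] at this
  refine le_trans ?_ h3
  have h4 : A ^ E = A * A ^ (E - 1) := by
    have h6 : A ^ (1 + (E - 1)) = A ^ (1 : ℤ) * A ^ (E - 1) := zpow_add₀ hA _ _
    rw [zpow_one] at h6
    rw [← h6]
    congr 1
    ring
  have h5 : 0 < A ^ (E - 1) := zpow_pos hA0 _
  have h6 : s.card * K ≤ c₀ / 4 * A := by
    have h7 : 4 * (s.card * K) / c₀ ≤ A := by linarith
    rw [div_le_iff₀ hc₀] at h7
    linarith
  have h7 : s.card * (K * A ^ (E - 1)) ≤ c₀ / 4 * A ^ E := by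
    rw [h4]
    calc (s.card : ℝ) * (K * A ^ (E - 1)) = (s.card * K) * A ^ (E - 1) := by ring
      _ ≤ (c₀ / 4 * A) * A ^ (E - 1) := mul_le_mul_of_nonneg_right h6 h5.le
      _ = _ := by ring
  have h8 : c₀ / 2 * A ^ E = c₀ / 4 * A ^ E + c₀ / 4 * A ^ E := by ring
  linarith

end Pool.Agent.HTW
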