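import Pool.Agent.HTW.Closure

/-!
# The exponent inequality for one side

The value of the satellite word is expanded over the channels of the full twist; the top
channel dominates all the others when `A → ∞`.
-/

namespace Pool.Agent.HTW

open Finset Polynomial

/-! ### Abstract facts -/

section Abstract

variable {R : Type} [Ring R] [Algebra ℝ R] (D : TLData R)

theorem nt_evL (m : ℕ) (x : Letter) (r : ℕ) :
    D.Nt (m * (x.2 + x.1.inn + r)) (m * (x.2 + x.1.out + r)) (D.evL m x) := by
  obtain ⟨k, i⟩ := x
  cases k with
  | cup =>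
    have h := ((D.nt_U m).sh (m * i)).ext (m * r)
    refine h.cast ?_ ?_
    · show m * i + 0 + m * r = m * (i + 0 + r)
      ring
    · show m * i + 2 * m + m * r = m * (i + 2 + r)
      ring
  | cap =>
    have h := ((D.nt_N m).sh (m * i)).ext (m * r)
    refine h.cast ?_ ?_
    · show m * i + 2 * m + m * r = m * (i + 2 + r)
      ring
    · show m * i + 0 + m * r = m * (i + 0 + r)
      ring
  | pos =>
    have h := ((D.nt_X m m).sh (m * i)).ext (m * r)
    refine h.cast ?_ ?_
    · show m * i + (m + m) + m * r = m * (i + 2 + r)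
      ring
    · show m * i + (m + m) + m * r = m * (i + 2 + r)
      ring
  | neg =>
    have h0 : D.Nt (m + m) (m + m) (D.mirror.X m m) := by
      have h1 := (D.mirror.nt_X m m).mirror
      rwa [TLData.mirror_mirror] at h1
    have h := (h0.sh (m * i)).ext (m * r)
    refine h.cast ?_ ?_
    · show m * i + (m + m) + m * r = m * (i + 2 + r)
      ring
    · show m * i + (m + m) + m * r = m * (i + 2 + r)
      ring

theorem nt_step (m : ℕ) {α : Type} {x : Letter} {ℓ ℓ' : List α} (h : Step x ℓ ℓ') :
    D.Nt (m * ℓ.length) (m * ℓ'.length) (D.evL m x) := by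
  cases h with
  | cup u v y =>
    refine (nt_evL D m (Kind.cup, u.length) v.length).cast ?_ ?_
    · simp [Kind.inn]
    · simp [Kind.out]; left; ring
  | cap u v y =>
    refine (nt_evL D m (Kind.cap, u.length) v.length).cast ?_ ?_
    · simp [Kind.inn]; left; ring
    · simp [Kind.out]
  | pos u v x y =>
    refine (nt_evL D m (Kind.pos, u.length) v.length).cast ?_ ?_
    · simp [Kind.inn]; left; ring
    · simp [Kind.out]; left; ring
  | neg u v x y =>
    refine (nt_evL D m (Kind.neg, u.length) v.length).cast ?_ ?_
    · simp [Kind.inn]; left; ring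
    · simp [Kind.out]; left; ring

theorem nt_run (m : ℕ) {α : Type} {w : Word} {K : List (List α)} (h : Run w K) :
    ∀ {ℓ ℓ' : List α} {L : List (List α)}, K = ℓ :: L → K.getLast? = some ℓ' →
      D.Nt (m * ℓ.length) (m * ℓ'.length) (D.ev m w) := by
  induction h with
  | nil ℓ =>
    intro ℓ₁ ℓ₂ L h1 h2
    cases h1
    simp only [List.getLast?_singleton, Option.some.injEq] at h2
    subst h2
    exact D.nt_one _
  | @cons x w ℓ ℓ' rest hs hr ih =>
    intro ℓ₁ ℓ₂ L h1 h2
    cases h1
    rw [List.getLast?_cons_cons] at h2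
    exact (ih rfl h2).mul (nt_step D m hs)

theorem nt_long (m : ℕ) {w : Word} (h : LongWord w) : D.Nt m m (D.ev m w) := by
  obtain ⟨L, h1, h2⟩ := h
  have := nt_run D m h1 rfl h2
  refine this.cast ?_ ?_ <;> simp

theorem nt_braid (m n : ℕ) {w : Word} (h : IsBraid n w) : D.Nt (m * n) (m * n) (D.ev m w) := by
  induction w with
  | nil => exact D.nt_one _
  | cons x w ih =>
    refine (ih fun y hy => h y (List.mem_cons_of_mem _ hy)).mul ?_
    have hx := h x List.mem_cons_self
    have h1 : x.1.inn = 2 ∧ x.1.out = 2 := by
      rcases hx.1 with h2 | h2 <;> rw [h2] <;> exact ⟨rfl, rfl⟩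
    have h2 := nt_evL D m x (n - (x.2 + 2))
    rw [h1.1, h1.2] at h2
    refine h2.cast ?_ ?_ <;>
    · congr 1
      have := hx.2
      omega

theorem mirror_par (m : ℕ) (T : R) (n : ℕ) : D.mirror.par m T n = D.par m T n := by
  induction n with
  | zero => rfl
  | succ n ih =>
    show T * D.mirror.sh m (D.mirror.par m T n) = T * D.sh m (D.par m T n)
    rw [ih, D.mirror_sh]

theorem par_mul_par (m n : ℕ) {T T' : R} (h : T' * T = 1) (hl : D.Loc m m T) :
    D.par m T' n * D.par m T n = 1 := by
  induction n with
  | zero => exact one_mul 1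
  | succ n ih =>
    show T' * D.sh m (D.par m T' n) * (T * D.sh m (D.par m T n)) = 1
    calc T' * D.sh m (D.par m T' n) * (T * D.sh m (D.par m T n))
        = T' * (D.sh m (D.par m T' n) * T) * D.sh m (D.par m T n) := by
          simp only [mul_assoc]
      _ = T' * T * D.sh m (D.par m T' n * D.par m T n) := by
          rw [← hl, map_mul]
          simp only [mul_assoc]
      _ = 1 := by rw [h, ih, map_one, one_mul]

theorem ev_twistWord_neg (m n : ℕ) :
    D.ev m (twistWord .neg n) = D.mirror.th (m * n) * D.par m (D.th m) n := by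
  have h := D.mirror.ev_twistWord m n
  rw [← D.ev_mirror, TLData.mirror_twistWord, mirror_par] at h
  have h1 := par_mul_par D m n (D.mirror_th m) (D.nt_th m).loc
  calc D.ev m (twistWord .neg n)
      = D.ev m (twistWord .neg n) * (D.par m (D.mirror.th m) n * D.par m (D.th m) n) := by
        rw [h1, mul_one]
    _ = _ := by rw [← mul_assoc, h]

theorem nt_par (m n : ℕ) : D.Nt (m * n) (m * n) (D.par m (D.th m) n) := by
  induction n with
  | zero => exact D.nt_one _
  | succ n ih =>
    have h1 := (D.nt_th m).ext (m * n)
    have h2 := ih.sh m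
    refine (h1.mul h2).cast ?_ ?_ <;> ring

theorem ev_twists_neg (m n t : ℕ) :
    D.ev m (twists .neg n t) = D.mirror.th (m * n) ^ t * D.par m (D.th m) n ^ t := by
  have hc : Commute (D.mirror.th (m * n)) (D.par m (D.th m) n) := (nt_par D m n).tw'
  rw [← hc.mul_pow, ← ev_twistWord_neg]
  induction t with
  | zero =>
    show (1 : R) = _
    rw [pow_zero]
  | succ t ih =>
    show D.ev m ((List.replicate (t + 1) (twistWord .neg n)).flatten) = _
    rw [List.replicate_succ, List.flatten_cons, D.ev_append, pow_succ, ← ih]
    rfl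

end Abstract

/-! ### The exponent sum -/

theorem expSum_nil : expSum [] = 0 := rfl

theorem expSum_shiftWord (k : ℕ) (w : Word) : expSum (shiftWord k w) = expSum w := by
  unfold expSum shiftWord
  rw [List.countP_map, List.countP_map]
  rfl

theorem expSum_mirror (w : Word) : expSum (mirror w) = -expSum w := by
  unfold expSum mirror
  rw [List.countP_map, List.countP_map]
  have h1 : ((fun x : Letter => decide (x.1 = Kind.pos)) ∘ fun x : Letter => (x.1.mirror, x.2)) =
      fun x : Letter => decide (x.1 = Kind.neg) := by
    funext x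
    obtain ⟨k, i⟩ := x
    cases k <;> rfl
  have h2 : ((fun x : Letter => decide (x.1 = Kind.neg)) ∘ fun x : Letter => (x.1.mirror, x.2)) =
      fun x : Letter => decide (x.1 = Kind.pos) := by
    funext x
    obtain ⟨k, i⟩ := x
    cases k <;> rfl
  rw [h1, h2]
  ring

theorem expSum_pos {w : Word} (h : ∀ x ∈ w, x.1 = Kind.pos) : expSum w = w.length := by
  unfold expSum
  have h1 : w.countP (fun x => x.1 = Kind.pos) = w.length := by
    rw [List.countP_eq_length]
    intro x hx
    simp [h x hx]
  have h2 : w.countP (fun x => x.1 = Kind.neg) = 0 := by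
    rw [List.countP_eq_zero]
    intro x hx
    simp [h x hx]
  rw [h1, h2]
  simp

theorem twistWord_pos_mem (n : ℕ) : ∀ x ∈ twistWord .pos n, x.1 = Kind.pos := by
  induction n with
  | zero => intro x hx; simp [twistWord] at hx
  | succ n ih =>
    intro x hx
    simp only [twistWord, shiftWord, List.mem_append, List.mem_map, List.mem_range,
      List.mem_reverse] at hx
    rcases hx with (⟨y, hy, rfl⟩ | ⟨j, _, rfl⟩) | ⟨j, _, rfl⟩
    · exact ih y hy
    · rfl
    · rfl

theorem length_twistWord (k : Kind) (n : ℕ) : ((twistWord k n).length : ℤ) = n * (n - 1) := by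
  induction n with
  | zero => rfl
  | succ n ih =>
    simp only [twistWord, shiftWord, List.length_append, List.length_map, List.length_range,
      List.length_reverse]
    push_cast
    rw [ih]
    ring

theorem expSum_twistWord_neg (n : ℕ) : expSum (twistWord .neg n) = -(n * (n - 1)) := by
  rw [← TLData.mirror_twistWord, expSum_mirror, expSum_pos (twistWord_pos_mem n),
    length_twistWord]

theorem expSum_twists_neg (n t : ℕ) : expSum (twists .neg n t) = -(t * (n * (n - 1))) := by
  induction t with
  | zero => simp [twists, expSum]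
  | succ t ih =>
    have h : twists .neg n (t + 1) = twistWord .neg n ++ twists .neg n t := by
      simp [twists, List.replicate_succ]
    rw [h, expSum_append, ih, expSum_twistWord_neg]
    push_cast
    ring

/-! ### Braids -/

theorem isBraid_append {n : ℕ} {v w : Word} (hv : IsBraid n v) (hw : IsBraid n w) :
    IsBraid n (v ++ w) := by
  intro x hx
  rcases List.mem_append.1 hx with h | h
  · exact hv x h
  · exact hw x h

theorem isBraid_pos {n : ℕ} {v : Word} (hv : IsPosBraid n v) : IsBraid n v :=
  fun x hx => ⟨Or.inl (hv x hx).1, (hv x hx).2⟩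

theorem isBraid_twistWord (k : Kind) (hk : k = .pos ∨ k = .neg) (n : ℕ) :
    IsBraid n (twistWord k n) := by
  induction n with
  | zero => intro x hx; simp [twistWord] at hx
  | succ n ih =>
    intro x hx
    simp only [twistWord, shiftWord, List.mem_append, List.mem_map, List.mem_range,
      List.mem_reverse] at hx
    rcases hx with (⟨y, hy, rfl⟩ | ⟨j, hj, rfl⟩) | ⟨j, hj, rfl⟩
    · have := ih y hy
      exact ⟨this.1, by have := this.2; simp only; omega⟩
    · exact ⟨hk, by simp only; omega⟩
    · exact ⟨hk, by simp only; omega⟩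

theorem isBraid_twists (k : Kind) (hk : k = .pos ∨ k = .neg) (n t : ℕ) :
    IsBraid n (twists k n t) := by
  intro x hx
  simp only [twists, List.mem_flatten, List.mem_replicate] at hx
  obtain ⟨l, ⟨_, rfl⟩, hx⟩ := hx
  exact isBraid_twistWord k hk n x hx

end Pool.Agent.HTW
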