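import Pool.Agent.HTW.States
import Pool.Agent.HTW.Side
import Pool.Agent.HTW.Len

/-!
# Norm bound through the quantum trace (helper36)

`‖T‖² ≤ Σ_ε ‖T* v_ε‖² ≤ A^(2M) |qtrace(T T*)|`, and the quantum trace of `T T*` is the value of
the closed diagram `cups ++ flipW W ++ W ++ caps`, estimated by `top_coeff` with `M = 0`.
-/

namespace Pool.Agent.HTW

open Finset

/-- The diagram upside down. -/
def flipW (w : Word) : Word :=
  w.reverse.map (fun x => (match x.1 with
    | .cup => Kind.cap
    | .cap => Kind.cup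
    | .pos => Kind.pos
    | .neg => Kind.neg, x.2))

namespace NHS

/-! ## Words upside down -/

theorem flipW_append (a b : Word) : flipW (a ++ b) = flipW b ++ flipW a := by
  unfold flipW
  rw [List.reverse_append, List.map_append]

theorem flipW_cup (i : ℕ) (w : Word) : flipW ((Kind.cup, i) :: w) = flipW w ++ [(Kind.cap, i)] := by
  unfold flipW
  rw [List.reverse_cons, List.map_append]
  rfl

theorem flipW_cap (i : ℕ) (w : Word) : flipW ((Kind.cap, i) :: w) = flipW w ++ [(Kind.cup, i)] := by
  unfold flipW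
  rw [List.reverse_cons, List.map_append]
  rfl

theorem flipW_pos (i : ℕ) (w : Word) : flipW ((Kind.pos, i) :: w) = flipW w ++ [(Kind.pos, i)] := by
  unfold flipW
  rw [List.reverse_cons, List.map_append]
  rfl

theorem flipW_neg (i : ℕ) (w : Word) : flipW ((Kind.neg, i) :: w) = flipW w ++ [(Kind.neg, i)] := by
  unfold flipW
  rw [List.reverse_cons, List.map_append]
  rfl

theorem len_append {a b : Word} {p q r : ℕ} (ha : Len a p q) (hb : Len b q r) :
    Len (a ++ b) p r := by
  induction ha with
  | nil a => exact hb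
  | cup hi _ ih => exact Len.cup hi (ih hb)
  | cap hi _ ih => exact Len.cap hi (ih hb)
  | pos hi _ ih => exact Len.pos hi (ih hb)
  | neg hi _ ih => exact Len.neg hi (ih hb)

theorem len_flipW {w : Word} {a b : ℕ} (h : Len w a b) : Len (flipW w) b a := by
  induction h with
  | nil a => exact Len.nil a
  | @cup w i a b hi _ ih =>
    rw [flipW_cup]
    exact len_append ih (Len.cap hi (Len.nil a))
  | @cap w i a b hi _ ih =>
    rw [flipW_cap]
    exact len_append ih (Len.cup hi (Len.nil _))
  | @pos w i a b hi _ ih =>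
    rw [flipW_pos]
    exact len_append ih (Len.pos hi (Len.nil _))
  | @neg w i a b hi _ ih =>
    rw [flipW_neg]
    exact len_append ih (Len.neg hi (Len.nil _))

theorem len_add {w : Word} {a b : ℕ} (h : Len w a b) (k : ℕ) : Len w (a + k) (b + k) := by
  induction h with
  | nil a => exact Len.nil _
  | @cup w i a b hi _ ih =>
    refine Len.cup (by omega) ?_
    rw [show a + k + 2 = a + 2 + k by omega]
    exact ih
  | @cap w i a b hi _ ih =>
    rw [show a + 2 + k = a + k + 2 by omega]
    exact Len.cap (by omega) ih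
  | @pos w i a b hi _ ih =>
    rw [show a + 2 + k = a + k + 2 by omega]
    refine Len.pos (by omega) ?_
    rw [show a + k + 2 = a + 2 + k by omega]
    exact ih
  | @neg w i a b hi _ ih =>
    rw [show a + 2 + k = a + k + 2 by omega]
    refine Len.neg (by omega) ?_
    rw [show a + k + 2 = a + 2 + k by omega]
    exact ih

theorem len_cups (n : ℕ) : Len ((List.range n).map (fun j => ((Kind.cup, j) : Letter))) 0 (2 * n) := by
  induction n with
  | zero => exact Len.nil 0
  | succ n ih =>
    rw [List.range_succ, List.map_append]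
    refine len_append ih ?_
    rw [show 2 * (n + 1) = 2 * n + 2 by ring]
    exact Len.cup (by omega) (Len.nil _)

theorem len_caps (n : ℕ) :
    Len ((List.range n).reverse.map (fun j => ((Kind.cap, j) : Letter))) (2 * n) 0 := by
  induction n with
  | zero => exact Len.nil 0
  | succ n ih =>
    rw [List.range_succ, List.reverse_append, List.map_append]
    rw [show 2 * (n + 1) = 2 * n + 2 by ring]
    exact Len.cap (by omega) ih

theorem rep_split {a c : ℕ} (h : c ≤ a) :
    List.replicate a () = List.replicate c () ++ List.replicate (a - c) () := by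
  rw [← List.replicate_add]
  congr 1
  omega

theorem uRun_nil (a : ℕ) : URun a a [] := ⟨[List.replicate a ()], Run.nil _, rfl, rfl⟩

theorem uRun_cons {x : Letter} {w : Word} {a a' b : ℕ}
    (h : Step x (List.replicate a ()) (List.replicate a' ())) (hw : URun a' b w) :
    URun a b (x :: w) := by
  obtain ⟨K, h1, h2, h3⟩ := hw
  cases K with
  | nil => cases h2
  | cons k K =>
    simp only [List.head?_cons, Option.some.injEq] at h2
    subst h2
    exact ⟨List.replicate a () :: List.replicate a' () :: K, Run.cons h h1, rfl,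
      by rw [List.getLast?_cons_cons]; exact h3⟩

theorem uRun_of_len {w : Word} {a b : ℕ} (h : Len w a b) : URun a b w := by
  induction h with
  | nil a => exact uRun_nil a
  | @cup w i a b hi _ ih =>
    refine uRun_cons ?_ ih
    have h1 := Step.cup (List.replicate i ()) (List.replicate (a - i) ()) ()
    rw [List.length_replicate, ← rep_split hi] at h1
    have e : List.replicate i () ++ () :: () :: List.replicate (a - i) () =
        List.replicate (a + 2) () := by
      rw [rep_split (show i ≤ a + 2 by omega), show a + 2 - i = (a - i) + 1 + 1 by omega]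
      rfl
    rwa [e] at h1
  | @cap w i a b hi _ ih =>
    refine uRun_cons ?_ ih
    have h1 := Step.cap (List.replicate i ()) (List.replicate (a - i) ()) ()
    rw [List.length_replicate, ← rep_split hi] at h1
    have e : List.replicate i () ++ () :: () :: List.replicate (a - i) () =
        List.replicate (a + 2) () := by
      rw [rep_split (show i ≤ a + 2 by omega), show a + 2 - i = (a - i) + 1 + 1 by omega]
      rfl
    rwa [e] at h1
  | @pos w i a b hi _ ih =>
    refine uRun_cons ?_ ih
    have h1 := Step.pos (List.replicate i ()) (List.replicate (a - i) ()) () ()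
    rw [List.length_replicate] at h1
    have e : List.replicate i () ++ () :: () :: List.replicate (a - i) () =
        List.replicate (a + 2) () := by
      rw [rep_split (show i ≤ a + 2 by omega), show a + 2 - i = (a - i) + 1 + 1 by omega]
      rfl
    rwa [e] at h1
  | @neg w i a b hi _ ih =>
    refine uRun_cons ?_ ih
    have h1 := Step.neg (List.replicate i ()) (List.replicate (a - i) ()) () ()
    rw [List.length_replicate] at h1
    have e : List.replicate i () ++ () :: () :: List.replicate (a - i) () =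
        List.replicate (a + 2) () := by
      rw [rep_split (show i ≤ a + 2 by omega), show a + 2 - i = (a - i) + 1 + 1 by omega]
      rfl
    rwa [e] at h1

theorem len_of_uRun {w : Word} {a b : ℕ} (h : URun a b w) : Len w a b := by
  obtain ⟨K, h1, h2, h3⟩ := h
  have := h1.len h2 h3
  rwa [List.length_replicate, List.length_replicate] at this

theorem noNeg_flipW {w : Word} (hw : ∀ x ∈ w, x.1 ≠ Kind.neg) :
    ∀ x ∈ flipW w, x.1 ≠ Kind.neg := by
  intro x hx
  unfold flipW at hx
  rw [List.mem_map] at hx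
  obtain ⟨⟨k, i⟩, hy, rfl⟩ := hx
  have := hw _ (List.mem_reverse.1 hy)
  cases k
  · exact Kind.noConfusion
  · exact Kind.noConfusion
  · exact Kind.noConfusion
  · exact absurd rfl this

theorem crossings_append (a b : Word) : crossings (a ++ b) = crossings a + crossings b := by
  unfold crossings
  rw [List.countP_append]

theorem crossings_flipW (w : Word) : crossings (flipW w) = crossings w := by
  induction w with
  | nil => rfl
  | cons x w ih =>
    obtain ⟨k, i⟩ := x
    have e : ((k, i) :: w : Word) = [(k, i)] ++ w := rfl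
    rw [e, flipW_append, crossings_append, crossings_append, ih, add_comm]
    congr 1
    cases k <;> rfl

theorem flat_append (a b : Word) : flat (a ++ b) = flat a ++ flat b := by
  unfold flat
  rw [List.filter_append]

theorem flat_flipW (w : Word) : flat (flipW w) = flipW (flat w) := by
  induction w with
  | nil => rfl
  | cons x w ih =>
    obtain ⟨k, i⟩ := x
    have e : ((k, i) :: w : Word) = [(k, i)] ++ w := rfl
    rw [e, flipW_append, flat_append, flat_append, flipW_append, ih]
    congr 1
    cases k <;> rfl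

theorem flat_flat (w : Word) : Flat (flat w) := by
  intro x hx
  unfold flat at hx
  rw [List.mem_filter] at hx
  simpa using hx.2

theorem crossings_of_flat {w : Word} (hw : Flat w) : crossings w = 0 := by
  unfold crossings
  rw [List.countP_eq_zero]
  intro x hx
  rcases hw x hx with h | h <;> simp [h]

theorem flat_of_flat {w : Word} (hw : Flat w) : flat w = w := by
  unfold flat
  rw [List.filter_eq_self]
  intro x hx
  simpa using hw x hx

/-! ## Adjoints -/

section

variable (A : ℝ) (hA : A ≠ 0)

theorem U_one : (tl A hA).U 1 = (tl A hA).u := by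
  show (tl A hA).sh 0 (tl A hA).u * 1 = _
  rw [mul_one]
  rfl

theorem N_one : (tl A hA).N 1 = (tl A hA).n := by
  show 1 * (tl A hA).sh 0 (tl A hA).n = _
  rw [one_mul]
  rfl

theorem X_one {D : TLData RR} : D.X 1 1 = D.sg := by
  show (D.sh 0 D.sg * 1) * D.S 1 = _
  rw [mul_one, map_one, mul_one]
  rfl

theorem ev1_cup (i : ℕ) : (tl A hA).evL 1 (Kind.cup, i) = (tl A hA).sh i (tl A hA).u := by
  show (tl A hA).sh (1 * i) ((tl A hA).U 1) = _
  rw [one_mul, U_one]

theorem ev1_cap (i : ℕ) : (tl A hA).evL 1 (Kind.cap, i) = (tl A hA).sh i (tl A hA).n := by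
  show (tl A hA).sh (1 * i) ((tl A hA).N 1) = _
  rw [one_mul, N_one]

theorem ev1_pos (i : ℕ) : (tl A hA).evL 1 (Kind.pos, i) = (tl A hA).sh i (tl A hA).sg := by
  show (tl A hA).sh (1 * i) ((tl A hA).X 1 1) = _
  rw [one_mul, X_one]

theorem ev1_neg (i : ℕ) : (tl A hA).evL 1 (Kind.neg, i) = (tl A hA).sh i (tl A hA).mirror.sg := by
  show (tl A hA).sh (1 * i) ((tl A hA).mirror.X 1 1) = _
  rw [one_mul, X_one]

theorem ev1_single (x : Letter) (w : Word) :
    (tl A hA).ev 1 (w ++ [x]) = (tl A hA).evL 1 x * (tl A hA).ev 1 w := by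
  rw [TLData.ev_append]
  show (1 * (tl A hA).evL 1 x) * _ = _
  rw [one_mul]

theorem ev1_cons (x : Letter) (w : Word) :
    (tl A hA).ev 1 (x :: w) = (tl A hA).ev 1 w * (tl A hA).evL 1 x := rfl

omit hA in
theorem neg_mul_smul (X Z : RR) (k : ℕ) :
    (-X) * ((-1 : ℝ) ^ k • Z) = (-1 : ℝ) ^ (k + 1) • (X * Z) := by
  refine LinearMap.ext fun f => ?_
  show -(X ((-1 : ℝ) ^ k • Z f)) = (-1 : ℝ) ^ (k + 1) • X (Z f)
  rw [map_smul, pow_succ, mul_neg_one, neg_smul]

/-- The adjoint of a diagram is the diagram upside down, up to a sign. -/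
theorem adj_ev {w : Word} {a b : ℕ} (h : Len w a b) :
    Adj a b ((tl A hA).ev 1 w) (((-1 : ℝ) ^ (extrema w)) • (tl A hA).ev 1 (flipW w)) := by
  induction h with
  | nil a =>
    have e : extrema [] = 0 := rfl
    rw [e, pow_zero, one_smul]
    exact adj_one a
  | @cup w i a b hi _ ih =>
    rw [flipW_cup, ev1_single, ev1_cons, ev1_cup, ev1_cap, extrema_cons]
    obtain ⟨c, rfl⟩ := Nat.exists_eq_add_of_le hi
    have h1 := (adj_u A hA c).sh A hA i
    rw [map_neg, show c + i = i + c by ring, show c + 2 + i = i + c + 2 by ring] at h1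
    have h2 := ih.mul h1
    rw [neg_mul_smul] at h2
    exact h2
  | @cap w i a b hi _ ih =>
    rw [flipW_cap, ev1_single, ev1_cons, ev1_cup, ev1_cap, extrema_cons]
    obtain ⟨c, rfl⟩ := Nat.exists_eq_add_of_le hi
    have h1 := (adj_n A hA c).sh A hA i
    rw [map_neg, show c + i = i + c by ring, show c + 2 + i = i + c + 2 by ring] at h1
    have h2 := ih.mul h1
    rw [neg_mul_smul] at h2
    exact h2
  | @pos w i a b hi _ ih =>
    rw [flipW_pos, ev1_single, ev1_cons, ev1_pos, extrema_cons]
    have h1 := (good_tl A hA).adj_sh_sg i (a + 2) (by omega)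
    have h2 := ih.mul h1
    rw [mul_smul_comm] at h2
    exact h2
  | @neg w i a b hi _ ih =>
    rw [flipW_neg, ev1_single, ev1_cons, ev1_neg, extrema_cons]
    have h1 := (good_mirror A hA).adj_sh_sg i (a + 2) (by omega)
    rw [TLData.mirror_sh] at h1
    have h2 := ih.mul h1
    rw [mul_smul_comm] at h2
    exact h2

/-- The value of a diagram is local. -/
theorem loc_ev {w : Word} {a b : ℕ} (h : Len w a b) : (tl A hA).Loc a b ((tl A hA).ev 1 w) := by
  induction h with
  | nil a => exact TLData.loc_one a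
  | @cup w i a b hi _ ih =>
    obtain ⟨c, rfl⟩ := Nat.exists_eq_add_of_le hi
    exact ih.mul ((nt_evL (tl A hA) 1 (Kind.cup, i) c).loc.cast (by simp [Kind.inn])
      (by simp [Kind.out]; ring))
  | @cap w i a b hi _ ih =>
    obtain ⟨c, rfl⟩ := Nat.exists_eq_add_of_le hi
    exact ih.mul ((nt_evL (tl A hA) 1 (Kind.cap, i) c).loc.cast (by simp [Kind.inn]; ring)
      (by simp [Kind.out]))
  | @pos w i a b hi _ ih =>
    obtain ⟨c, rfl⟩ := Nat.exists_eq_add_of_le hi
    exact ih.mul ((nt_evL (tl A hA) 1 (Kind.pos, i) c).loc.cast (by simp [Kind.inn]; ring)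
      (by simp [Kind.out]; ring))
  | @neg w i a b hi _ ih =>
    obtain ⟨c, rfl⟩ := Nat.exists_eq_add_of_le hi
    exact ih.mul ((nt_evL (tl A hA) 1 (Kind.neg, i) c).loc.cast (by simp [Kind.inn]; ring)
      (by simp [Kind.out]; ring))

/-! ## The bound -/

theorem ip_cvec_right (α : List Bool) (f : Hf) : ip α.length f (cvec α) = f (pre α tt) := by
  induction α generalizing f with
  | nil =>
    show f tt * 1 = f tt
    rw [mul_one]
  | cons x α ih =>
    show ∑ y : Bool, ip α.length (fun s => f (scons y s)) (fun s => cvec (x :: α) (scons y s)) = _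
    rw [Finset.sum_eq_single x]
    · have e1 : (fun s => cvec (x :: α) (scons x s)) = cvec α := by
        funext s
        show (if x = x then cvec α s else 0) = cvec α s
        rw [if_pos rfl]
      rw [e1, ih]
      rfl
    · intro y _ hy
      have e1 : (fun s => cvec (x :: α) (scons y s)) = (0 : Hf) := by
        funext s
        show (if y = x then cvec α s else 0) = 0
        rw [if_neg hy]
      rw [e1, ip_symm, ip_zero_left]
    · intro h
      exact absurd (Finset.mem_univ x) h

theorem ip_eq_sum (M : ℕ) (f g : Hf) :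
    ip M f g = ∑ ε : Fin M → Bool, f (pre (List.ofFn ε) tt) * g (pre (List.ofFn ε) tt) := by
  induction M generalizing f g with
  | zero =>
    rw [Fintype.sum_unique]
    rfl
  | succ M ih =>
    show ∑ x : Bool, ip M (fun s => f (scons x s)) (fun s => g (scons x s)) = _
    rw [← (Fin.consEquiv (fun _ : Fin (M + 1) => Bool)).sum_comp, Fintype.sum_prod_type]
    refine Finset.sum_congr rfl fun x _ => ?_
    rw [ih]
    refine Finset.sum_congr rfl fun ε _ => ?_
    have e : List.ofFn ((Fin.consEquiv (fun _ : Fin (M + 1) => Bool)) (x, ε)) =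
        x :: List.ofFn ε := by
      rw [List.ofFn_succ]
      rfl
    rw [e]
    rfl

/-- The Hilbert-Schmidt bound. -/
theorem bd_hs {M : ℕ} {T T' : RR} (h : Adj M M T T') : Bd M M T
    (∑ ε : Fin M → Bool, (T (T' (cvec (List.ofFn ε)))) (pre (List.ofFn ε) tt)) := by
  intro f
  have hlen : ∀ ε : Fin M → Bool, (List.ofFn ε).length = M := fun ε => List.length_ofFn
  have h1 : ∀ ε : Fin M → Bool, (T f) (pre (List.ofFn ε) tt) =
      ip M f (T' (cvec (List.ofFn ε))) := by
    intro ε
    have h2 := ip_cvec_right (List.ofFn ε) (T f)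
    rw [hlen] at h2
    rw [← h2, h f]
  have h3 : ∀ ε : Fin M → Bool, ip M (T' (cvec (List.ofFn ε))) (T' (cvec (List.ofFn ε))) =
      (T (T' (cvec (List.ofFn ε)))) (pre (List.ofFn ε) tt) := by
    intro ε
    have h2 := ip_cvec_right (List.ofFn ε) (T (T' (cvec (List.ofFn ε))))
    rw [hlen] at h2
    rw [← h2, h]
  rw [ip_eq_sum M (T f) (T f), Finset.sum_mul]
  refine Finset.sum_le_sum fun ε _ => ?_
  rw [h1, ← h3, ← sq, mul_comm]
  exact ip_mul_le M f _

theorem neg_le_sgn (α : List Bool) : -(α.length : ℤ) ≤ sgn α := by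
  induction α with
  | nil => simp [sgn]
  | cons x α ih =>
    show -((α.length + 1 : ℕ) : ℤ) ≤ (if x then 1 else -1) + sgn α
    push_cast
    cases x <;> simp <;> omega

theorem len_flat {w : Word} {a b : ℕ} (h : Len w a b) : Len (flat w) a b := by
  induction h with
  | nil a => exact Len.nil _
  | cup hi _ ih =>
    unfold flat
    rw [List.filter_cons_of_pos (by simp)]
    exact Len.cup hi ih
  | cap hi _ ih =>
    unfold flat
    rw [List.filter_cons_of_pos (by simp)]
    exact Len.cap hi ih
  | pos hi _ ih =>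
    unfold flat
    rw [List.filter_cons_of_neg (by simp)]
    exact ih
  | neg hi _ ih =>
    unfold flat
    rw [List.filter_cons_of_neg (by simp)]
    exact ih

/-- `M` nested cups. -/
def cupsW (M : ℕ) : Word := cableLetter M (Kind.cup, 0)

/-- `M` nested caps. -/
def capsW (M : ℕ) : Word := cableLetter M (Kind.cap, 0)

theorem cupsW_eq (M : ℕ) : cupsW M = (List.range M).map (fun j => ((Kind.cup, j) : Letter)) := by
  show (List.range M).map (fun j => (Kind.cup, M * 0 + j)) = _
  simp

theorem capsW_eq (M : ℕ) :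
    capsW M = (List.range M).reverse.map (fun j => ((Kind.cap, j) : Letter)) := by
  show (List.range M).reverse.map (fun j => (Kind.cap, M * 0 + j)) = _
  simp

theorem flat_cupsW (M : ℕ) : Flat (cupsW M) := by
  intro x hx
  rw [cupsW_eq, List.mem_map] at hx
  obtain ⟨j, _, rfl⟩ := hx
  exact Or.inl rfl

theorem flat_capsW (M : ℕ) : Flat (capsW M) := by
  intro x hx
  rw [capsW_eq, List.mem_map] at hx
  obtain ⟨j, _, rfl⟩ := hx
  exact Or.inr rfl

/-- The closed diagram. -/
def clo (M : ℕ) (a b : Word) : Word := cupsW M ++ (a ++ (b ++ capsW M))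

theorem ev_clo (M : ℕ) (a b : Word) : (tl A hA).ev 1 (clo M a b) =
    (tl A hA).N M * ((tl A hA).ev 1 b * (tl A hA).ev 1 a) * (tl A hA).U M := by
  have h1 : (tl A hA).ev 1 (cupsW M) = (tl A hA).U M := by
    show (tl A hA).ev 1 (cableLetter M (Kind.cup, 0)) = _
    rw [TLData.ev_cableLetter]
    show (tl A hA).sh (1 * M * 0) ((tl A hA).U (1 * M)) = _
    rw [one_mul]
    rfl
  have h2 : (tl A hA).ev 1 (capsW M) = (tl A hA).N M := by
    show (tl A hA).ev 1 (cableLetter M (Kind.cap, 0)) = _
    rw [TLData.ev_cableLetter]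
    show (tl A hA).sh (1 * M * 0) ((tl A hA).N (1 * M)) = _
    rw [one_mul]
    rfl
  unfold clo
  rw [TLData.ev_append, TLData.ev_append, TLData.ev_append, h1, h2, mul_assoc (TLData.N _ M)]

theorem len_clo {M : ℕ} {a b : Word} (ha : Len a M M) (hb : Len b M M) : Len (clo M a b) 0 0 := by
  unfold clo
  rw [cupsW_eq, capsW_eq]
  have h1 := len_add ha M
  have h2 := len_add hb M
  rw [← two_mul] at h1 h2
  exact len_append (len_cups M) (len_append h1 (len_append h2 (len_caps M)))

theorem flat_clo (M : ℕ) (a b : Word) : flat (clo M a b) = clo M (flat a) (flat b) := by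
  unfold clo
  rw [flat_append, flat_append, flat_append, flat_of_flat (flat_cupsW M),
    flat_of_flat (flat_capsW M)]

theorem crossings_clo (M : ℕ) (a b : Word) :
    crossings (clo M a b) = crossings a + crossings b := by
  unfold clo
  rw [crossings_append, crossings_append, crossings_append, crossings_of_flat (flat_cupsW M),
    crossings_of_flat (flat_capsW M), zero_add, add_zero]

theorem sq_sign (k : ℕ) : ((-1 : ℝ) ^ k) * ((-1 : ℝ) ^ k) = 1 := by
  rw [← mul_pow]
  norm_num

/-- The adjoint of a scalar. -/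
theorem flip_scalar {w : Word} {M : ℕ} (h : Len w M M) {c : ℝ}
    (hc : (tl A hA).ev 1 w = c • (1 : RR)) :
    (tl A hA).ev 1 (flipW w) = ((-1 : ℝ) ^ (extrema w) * c) • (1 : RR) := by
  have h1 := adj_ev A hA h
  rw [hc] at h1
  have h2 : (tl A hA).ev 1 (flipW w) - ((-1 : ℝ) ^ (extrema w) * c) • (1 : RR) = 0 := by
    have hl : (tl A hA).Loc M M ((tl A hA).ev 1 (flipW w)) := loc_ev A hA (len_flipW h)
    have hl2 : (tl A hA).Loc M M
        ((tl A hA).ev 1 (flipW w) - ((-1 : ℝ) ^ (extrema w) * c) • (1 : RR)) := by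
      have e : (tl A hA).ev 1 (flipW w) - ((-1 : ℝ) ^ (extrema w) * c) • (1 : RR) =
          (tl A hA).ev 1 (flipW w) + (-((-1 : ℝ) ^ (extrema w) * c)) • (1 : RR) := by
        refine LinearMap.ext fun f => ?_
        show (tl A hA).ev 1 (flipW w) f - ((-1 : ℝ) ^ (extrema w) * c) • f =
          (tl A hA).ev 1 (flipW w) f + (-((-1 : ℝ) ^ (extrema w) * c)) • f
        rw [neg_smul, sub_eq_add_neg]
      rw [e]
      exact hl.add ((TLData.loc_one M).smul _)
    refine eq_zero_of_dep A hA hl2 fun f hf => ?_
    refine eq_zero_of_ip (dep_of_loc A hA hl2 hf) ?_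
    set g := ((tl A hA).ev 1 (flipW w) - ((-1 : ℝ) ^ (extrema w) * c) • (1 : RR)) f with hg
    have h3 : ip M (c • g) f = ip M g ((-1 : ℝ) ^ (extrema w) • (tl A hA).ev 1 (flipW w) f) := h1 g f
    rw [ip_smul_left, ip_smul_right] at h3
    have h4 : g = (tl A hA).ev 1 (flipW w) f + (-((-1 : ℝ) ^ (extrema w) * c)) • f := by
      rw [neg_smul, ← sub_eq_add_neg]
      rfl
    have h5 : ip M g g = ip M g ((tl A hA).ev 1 (flipW w) f) +
        (-((-1 : ℝ) ^ (extrema w) * c)) * ip M g f := by
      conv_lhs => rw [h4]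
      rw [ip_add_left, ip_smul_left, ip_symm, ip_symm M f, ← h4]
    rw [h5]
    have h6 := sq_sign (extrema w)
    have h7 : (-1 : ℝ) ^ (extrema w) * (c * ip M g f) =
        ((-1 : ℝ) ^ (extrema w) * (-1 : ℝ) ^ (extrema w)) * ip M g ((tl A hA).ev 1 (flipW w) f) := by
      rw [h3]
      ring
    rw [h6, one_mul] at h7
    rw [← h7]
    ring
  exact sub_eq_zero.1 h2

end

end NHS

open NHS in
theorem norm_hs {W : Word} (hW : ∀ x ∈ W, x.1 ≠ Kind.neg) {M k₀ : ℕ} (hM : URun M M W)
    (h0 : ∀ (R : Type) [Ring R] [Algebra ℝ R] (D : TLData R),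
      D.ev 1 (flat W) = D.dl ^ k₀ • (1 : R)) :
    ∃ C : ℝ, 0 ≤ C ∧ ∀ (A : ℝ) (hA : A ≠ 0), 1 < A →
      Bd M M ((tl A hA).ev 1 W) ((C * A ^ (crossings W + 2 * k₀ + 2 * M)) ^ 2) := by
  have hlen := len_of_uRun hM
  have hlen' := len_flipW hlen
  have hV : ∀ x ∈ clo M (flipW W) W, x.1 ≠ Kind.neg := by
    intro x hx
    unfold clo at hx
    simp only [List.mem_append] at hx
    rcases hx with h | h | h | h
    · rcases flat_cupsW M x h with h' | h' <;> rw [h'] <;> exact Kind.noConfusion
    · exact noNeg_flipW hW x h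
    · exact hW x h
    · rcases flat_capsW M x h with h' | h' <;> rw [h'] <;> exact Kind.noConfusion
  have hVlen := len_clo hlen' hlen
  have hvp : (vplus 0) tt = 1 := if_pos fun k hk => absurd hk (Nat.not_lt_zero k)
  -- the number of circles
  have hcount : (Lab 0 (flat (clo M (flipW W) W))).ncard = 2 ^ (0 + (2 * k₀ + M)) := by
    rcases flat_main (flat_flat _) (uRun_of_len (len_flat hVlen)) with ⟨k, hk1, hk2⟩ | ⟨i, hi, _⟩
    · have two : (2 : ℝ) ≠ 0 := two_ne_zero
      have h1 := hk2 RR (tl 2 two) 1
      rw [flat_clo, ev_clo, flat_flipW, flip_scalar 2 two (len_flat hlen) (h0 RR (tl 2 two)),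
        h0 RR (tl 2 two)] at h1
      have h2 : (tl 2 two).N M * ((tl 2 two).dl ^ k₀ • (1 : RR) *
          ((-1 : ℝ) ^ extrema (flat W) * (tl 2 two).dl ^ k₀) • (1 : RR)) * (tl 2 two).U M =
          (((-1 : ℝ) ^ extrema (flat W)) * (tl 2 two).dl ^ (2 * k₀ + M)) • (1 : RR) := by
        rw [smul_mul_smul_comm, mul_one, mul_smul_comm, smul_mul_assoc, mul_one, TLData.N_U,
          smul_smul]
        congr 1
        ring
      rw [h2, pow_one] at h1
      have h3 := congrArg (fun T : RR => |(T (vplus 0)) tt|) h1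
      have h4 : ∀ r : ℝ, ((r • (1 : RR)) (vplus 0)) tt = r := by
        intro r
        show r • (vplus 0) tt = r
        rw [hvp, smul_eq_mul, mul_one]
      simp only [h4] at h3
      rw [abs_mul, abs_pow, abs_pow, abs_pow, abs_neg, abs_one, one_pow, one_mul] at h3
      have hdl : 1 < |(tl 2 two).dl| := by
        unfold TLData.dl
        have : (tl 2 two).A = 2 := rfl
        rw [this, lt_abs]
        right
        norm_num
      have h5 : 2 * k₀ + M = k :=
        (pow_right_injective₀ (by linarith) (by linarith [hdl] : |(tl 2 two).dl| ≠ 1)) h3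
      rw [hk1, h5]
    · exact absurd hi (by omega)
  obtain ⟨t, C, hC, ht⟩ := top_coeff hV (M := 0) (k₀ := 2 * k₀ + M)
    (uRun_of_len hVlen) hcount
  have ht1 : ∀ (R : Type) [Ring R] [Algebra ℝ R] (D : TLData R), ∃ Z : ℕ → R,
      D.ev 1 (clo M (flipW W) W) = t D.A • (1 : R) + ∑ i ∈ range (0 - 1), Z i * D.sh i D.n := by
    first
      | exact ht.1
      | exact ht.2.1
  have ht2 : ∀ A : ℝ, 1 ≤ A →
      |t A| ≤ C * A ^ (crossings (clo M (flipW W) W) + 2 * (2 * k₀ + M)) := by
    first
      | exact ht.2.1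
      | exact ht.2.2.1
  refine ⟨C + 1, by linarith, fun A hA h1 => ?_⟩
  have hA0 : 0 < A := by linarith
  set s : ℝ := (-1 : ℝ) ^ extrema W with hs
  set T := (tl A hA).ev 1 W with hT
  set T' := (tl A hA).ev 1 (flipW W) with hT'
  have hadj : Adj M M T (s • T') := adj_ev A hA hlen
  have hbd := bd_hs hadj
  refine hbd.mono ?_
  -- the value of the closed diagram
  have hval : ((tl A hA).N M * (T * T') * (tl A hA).U M) (vplus 0) tt = t A := by
    obtain ⟨Z, hZ⟩ := ht1 RR (tl A hA)
    rw [ev_clo] at hZ
    rw [← hT, ← hT'] at hZ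
    rw [hZ]
    simp only [Nat.zero_sub, Finset.range_zero, Finset.sum_empty, add_zero]
    show t A • (vplus 0) tt = t A
    rw [hvp, smul_eq_mul, mul_one]
  have hloc : (tl A hA).Loc (0 + M) (0 + M) (T * T') := by
    rw [zero_add]
    exact (loc_ev A hA hlen).mul (loc_ev A hA hlen')
  have hclose := close_eq A hA 0 M (T * T') hloc
  have e1 : (tl A hA).sh 0 ((tl A hA).N M) = (tl A hA).N M := rfl
  have e2 : (tl A hA).sh 0 ((tl A hA).U M) = (tl A hA).U M := rfl
  rw [e1, e2, hval] at hclose
  have hterm : ∀ ε : Fin M → Bool, (T ((s • T') (cvec (List.ofFn ε)))) (pre (List.ofFn ε) tt) =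
      s * ((T * T') (vec (List.replicate 0 true ++ List.ofFn ε)))
        (strm (List.replicate 0 true ++ List.ofFn ε)) := by
    intro ε
    rw [vec_eq, strm_eq, List.replicate_zero, List.nil_append]
    show (T (s • T' (cvec (List.ofFn ε)))) (pre (List.ofFn ε) tt) = _
    rw [LinearMap.map_smul]
    rfl
  have hpos : ∀ ε : Fin M → Bool,
      0 ≤ (T ((s • T') (cvec (List.ofFn ε)))) (pre (List.ofFn ε) tt) := by
    intro ε
    have h2 := ip_cvec_right (List.ofFn ε) (T ((s • T') (cvec (List.ofFn ε))))
    rw [List.length_ofFn] at h2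
    rw [← h2, hadj]
    exact ip_self_nonneg _ _
  calc ∑ ε : Fin M → Bool, (T ((s • T') (cvec (List.ofFn ε)))) (pre (List.ofFn ε) tt)
      ≤ ∑ ε : Fin M → Bool, A ^ (2 * M) * (A ^ (2 * sgn (List.ofFn ε)) *
          (T ((s • T') (cvec (List.ofFn ε)))) (pre (List.ofFn ε) tt)) := by
        refine Finset.sum_le_sum fun ε _ => ?_
        rw [← mul_assoc]
        refine le_mul_of_one_le_left (hpos ε) ?_
        have h2 := neg_le_sgn (List.ofFn ε)
        rw [List.length_ofFn] at h2
        have e3 : A ^ (2 * M) * A ^ (2 * sgn (List.ofFn ε)) =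
            A ^ (2 * (M : ℤ) + 2 * sgn (List.ofFn ε)) := by
          rw [zpow_add₀ hA]
          congr 1
        rw [e3]
        exact one_le_zpow₀ h1.le (by omega)
    _ = A ^ (2 * M) * (s * ((-1) ^ M * t A)) := by
        have e4 : s * ((-1) ^ M * t A) = ∑ ε : Fin M → Bool, A ^ (2 * sgn (List.ofFn ε)) *
            (T ((s • T') (cvec (List.ofFn ε)))) (pre (List.ofFn ε) tt) := by
          rw [hclose, ← mul_assoc ((-1 : ℝ) ^ M), sq_sign, one_mul, Finset.mul_sum]
          refine Finset.sum_congr rfl fun ε _ => ?_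
          rw [hterm]
          ring
        rw [e4, Finset.mul_sum]
    _ ≤ A ^ (2 * M) * |t A| := by
        refine mul_le_mul_of_nonneg_left ?_ (by positivity)
        refine (le_abs_self _).trans ?_
        rw [abs_mul, abs_mul, hs, abs_pow, abs_pow, abs_neg, abs_one, one_pow, one_pow, one_mul,
          one_mul]
    _ ≤ A ^ (2 * M) * (C * A ^ (crossings (clo M (flipW W) W) + 2 * (2 * k₀ + M))) := by
        refine mul_le_mul_of_nonneg_left (ht2 A h1.le) (by positivity)
    _ = C * (A ^ (crossings W + 2 * k₀ + 2 * M)) ^ 2 := by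
        rw [crossings_clo, crossings_flipW]
        ring
    _ ≤ (C + 1) ^ 2 * (A ^ (crossings W + 2 * k₀ + 2 * M)) ^ 2 := by
        refine mul_le_mul_of_nonneg_right ?_ (by positivity)
        nlinarith
    _ = ((C + 1) * A ^ (crossings W + 2 * k₀ + 2 * M)) ^ 2 := by ring

end Pool.Agent.HTW
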