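import Pool.Agent.HTW.Defs

/-!
# Orientations of tangles
-/

namespace Pool.Agent.HTW

/-- `OStep x ℓ ℓ'`: the lists `ℓ` and `ℓ'` give the directions (`true` is upwards) of the strands
just below and just above the letter `x`, for an orientation of the strands. -/
inductive OStep : Letter → List Bool → List Bool → Prop
  | cup (u v : List Bool) (y : Bool) : OStep (Kind.cup, u.length) (u ++ v) (u ++ y :: (!y) :: v)
  | cap (u v : List Bool) (y : Bool) : OStep (Kind.cap, u.length) (u ++ y :: (!y) :: v) (u ++ v)
  | pos (u v : List Bool) (x y : Bool) :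
      OStep (Kind.pos, u.length) (u ++ x :: y :: v) (u ++ y :: x :: v)
  | neg (u v : List Bool) (x y : Bool) :
      OStep (Kind.neg, u.length) (u ++ x :: y :: v) (u ++ y :: x :: v)

/-- `ORun w ℓ ℓ'`: the strands of the diagram `w` can be oriented such that `ℓ` and `ℓ'` are the
directions (`true` is upwards) at the lower and at the upper ends. -/
inductive ORun : Word → List Bool → List Bool → Prop
  | nil (ℓ : List Bool) : ORun [] ℓ ℓ
  | cons {x : Letter} {w : Word} {ℓ ℓ' ℓ'' : List Bool} :
      OStep x ℓ ℓ' → ORun w ℓ' ℓ'' → ORun (x :: w) ℓ ℓ''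

end Pool.Agent.HTW
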