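import Pool.Agent.HTW.SlideT
import Pool.Agent.HTW.LevelN
import Pool.Agent.HTW.TangleTop
import Pool.Agent.HTW.NormHS

/-!
# The coloured evaluation of a satellite with twists
-/

namespace Pool.Agent.HTW

open Finset

/-- The level above the pattern of a satellite. -/
theorem sat_levels {w T : Word} {n : ℕ} (hn : 1 ≤ n) (hT : URun n n T)
    (hK : IsKnot (sat w n T)) :
    ∃ (ℓ : List Unit) (L₁ L₂ : List (List Unit)),
      Run ((List.range (n - 1)).map (fun j => (Kind.cup, 1 + j)) ++ T) ([()] :: L₁) ∧
      ([()] :: L₁).getLast? = some ℓ ∧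
      Run (cable n w ++ (List.range (n - 1)).reverse.map (fun j => (Kind.cap, 1 + j)))
        (ℓ :: L₂) ∧ n ≤ ℓ.length := by
  obtain ⟨L, hL, _⟩ := hK.1
  have e : sat w n T = ((List.range (n - 1)).map (fun j => (Kind.cup, 1 + j)) ++ T) ++
      (cable n w ++ (List.range (n - 1)).reverse.map (fun j => (Kind.cap, 1 + j))) := by
    unfold sat
    simp only [List.append_assoc]
  rw [e] at hL
  obtain ⟨M₁, ℓ, M₂, e1, _, r1, r2⟩ := run_append hL
  obtain ⟨N, hN⟩ : ∃ N, M₁ ++ [ℓ] = [()] :: N := by
    cases M₁ with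
    | nil =>
      simp only [List.nil_append, List.cons.injEq] at e1
      exact ⟨[], by rw [List.nil_append, ← e1.1]⟩
    | cons y M₁ =>
      simp only [List.cons_append, List.cons.injEq] at e1
      exact ⟨M₁ ++ [ℓ], by rw [List.cons_append, ← e1.1]⟩
  rw [hN] at r1
  have hl1 : ([()] :: N).getLast? = some ℓ := by
    rw [← hN]
    simp
  refine ⟨ℓ, N, M₂, r1, hl1, r2, ?_⟩
  have h1 := r1.len rfl hl1
  rw [List.length_singleton] at h1
  have h2 : Len ((List.range (n - 1)).map (fun j => (Kind.cup, 1 + j)) ++ T) 1 (n + (n - 1)) := by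
    refine Len.append (len_cups (n - 1) 1 1 le_rfl) ?_
    have e3 : 1 + 2 * (n - 1) = n + (n - 1) := by omega
    rw [e3]
    exact NHS.len_add hT.len (n - 1)
  have h3 := h1.unique h2
  omega

section Abstract

variable {R : Type} [Ring R] [Algebra ℝ R] (D : TLData R)

theorem par_mpar_pow (m n k : ℕ) :
    D.par m (D.th m) n ^ k * D.par m (D.mirror.th m) n ^ k = 1 := by
  have h1 : D.par m (D.mirror.th m) n * D.par m (D.th m) n = 1 :=
    par_mul_par D m n (D.mirror_th m) (D.nt_th m).loc
  have hnt : D.Nt m m (D.mirror.th m) := by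
    have h := (D.mirror.nt_th m).mirror
    rwa [TLData.mirror_mirror] at h
  have h2 : D.par m (D.th m) n * D.par m (D.mirror.th m) n = 1 :=
    par_mul_par D m n (D.th_mirror m) hnt.loc
  have hc : Commute (D.par m (D.th m) n) (D.par m (D.mirror.th m) n) := h2.trans h1.symm
  rw [← hc.mul_pow, h2, one_pow]

theorem mpar_par_pow (m n k : ℕ) :
    D.par m (D.mirror.th m) n ^ k * D.par m (D.th m) n ^ k = 1 := by
  have h1 : D.par m (D.mirror.th m) n * D.par m (D.th m) n = 1 :=
    par_mul_par D m n (D.mirror_th m) (D.nt_th m).loc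
  have hnt : D.Nt m m (D.mirror.th m) := by
    have h := (D.mirror.nt_th m).mirror
    rwa [TLData.mirror_mirror] at h
  have h2 : D.par m (D.th m) n * D.par m (D.mirror.th m) n = 1 :=
    par_mul_par D m n (D.th_mirror m) hnt.loc
  have hc : Commute (D.par m (D.mirror.th m) n) (D.par m (D.th m) n) := h1.trans h2.symm
  rw [← hc.mul_pow, h1, one_pow]

theorem par_twist_pos (m n k : ℕ) :
    D.par m (D.th m) n ^ k * D.ev m (twists .pos n k) = D.th (m * n) ^ k := by
  rw [ev_twists_pos]
  have hc : Commute (D.par m (D.th m) n) (D.th (m * n)) := (nt_par D m n).tw.symm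
  rw [← mul_assoc, (hc.pow_pow k k).eq, mul_assoc, par_mpar_pow, mul_one]

theorem mpar_twist_neg (m n k : ℕ) :
    D.par m (D.mirror.th m) n ^ k * D.ev m (twists .neg n k) = D.mirror.th (m * n) ^ k := by
  have h := par_twist_pos D.mirror m n k
  rw [mirror_par, ← D.ev_mirror] at h
  have h2 : mirror (twists .pos n k) = twists .neg n k := by
    have e : mirror (twists .pos n k) =
        (List.replicate k (mirror (twistWord .pos n))).flatten := by
      unfold mirror twists
      rw [List.map_flatten, List.map_replicate]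
    rw [e, TLData.mirror_twistWord]
    rfl
  rw [h2] at h
  exact h

end Abstract

section Concrete

variable (A : ℝ) (hA : A ≠ 0)

theorem th_pow_vplus (N k : ℕ) :
    ((tl A hA).th N ^ k) (vplus N) = (tl A hA).mu N ^ k • vplus N := by
  induction k with
  | zero => rw [pow_zero, pow_zero, one_smul, Module.End.one_apply]
  | succ k ih =>
    rw [pow_succ, Module.End.mul_apply, th_vplus, map_smul, ih, smul_smul, pow_succ, mul_comm]

theorem mth_pow_vplus (N k : ℕ) :
    ((tl A hA).mirror.th N ^ k) (vplus N) = ((tl A hA).mu N)⁻¹ ^ k • vplus N := by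
  induction k with
  | zero => rw [pow_zero, pow_zero, one_smul, Module.End.one_apply]
  | succ k ih =>
    rw [pow_succ, Module.End.mul_apply, mirror_th_vplus, map_smul, ih, smul_smul, pow_succ,
      mul_comm]

theorem opv_eq_of {N n : ℕ} {w T β : Word} {X Y B Z : RR} {c : ℝ}
    (h : (tl A hA).ev N (cable n w ++
        (List.range (n - 1)).reverse.map (fun j => (Kind.cap, 1 + j))) * X *
        (tl A hA).ev N ((List.range (n - 1)).map (fun j => (Kind.cup, 1 + j)) ++ (T ++ β)) =
      (tl A hA).ev N (sat w n (T ++ β)) * Y)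
    (hX : X * (tl A hA).ev N β = Z) (hY : Y (vplus N) = c • vplus N)
    (hB : B = Z * (tl A hA).ev N T) :
    opv A hA N n w B = c * jj A hA N (sat w n (T ++ β)) := by
  have h2 := congrArg (fun S : RR => (S (vplus N)) tt) h
  beta_reduce at h2
  rw [Module.End.mul_apply ((tl A hA).ev N (sat w n (T ++ β))), hY, map_smul, Pi.smul_apply,
    smul_eq_mul] at h2
  unfold opv jj
  rw [← h2, hB, ← hX]
  rw [TLData.ev_append, TLData.ev_append, TLData.ev_append, TLData.ev_cups, TLData.ev_caps,
    TLData.ev_cable, mul_one]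
  simp only [mul_assoc]

/-- The coloured evaluation of a satellite with positive twists. -/
theorem opv_pos {N n k : ℕ} (hn : 1 ≤ n) {w T : Word} (hT : URun n n T)
    (hK : IsKnot (sat w n (T ++ twists .pos n k))) :
    opv A hA N n w ((tl A hA).th (N * n) ^ k * (tl A hA).ev N T) =
      (tl A hA).mu N ^ (n * k) * jj A hA N (sat w n (T ++ twists .pos n k)) := by
  have hT' : URun n n (T ++ twists .pos n k) :=
    (hT.len.append (Len.cross (isBraid_twists _ (Or.inl rfl) n k))).uRun
  obtain ⟨ℓ, L₁, L₂, h1, h2, h3, h4⟩ := sat_levels hn hT' hK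
  have e : sat w n (T ++ twists .pos n k) =
      ((List.range (n - 1)).map (fun j => (Kind.cup, 1 + j)) ++ (T ++ twists .pos n k)) ++
      (cable n w ++ (List.range (n - 1)).reverse.map (fun j => (Kind.cap, 1 + j))) := by
    unfold sat
    simp only [List.append_assoc]
  have hw : IsKnot (((List.range (n - 1)).map (fun j => (Kind.cup, 1 + j)) ++
      (T ++ twists .pos n k)) ++
      (cable n w ++ (List.range (n - 1)).reverse.map (fun j => (Kind.cap, 1 + j)))) := by
    rw [← e]
    exact hK
  have h5 := slide_par_pow (tl A hA) N hw h1 h2 h3 n h4 k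
  rw [← e] at h5
  exact opv_eq_of A hA h5 (par_twist_pos (tl A hA) N n k) (th_pow_vplus A hA N (n * k)) rfl

/-- The coloured evaluation of a satellite with negative twists. -/
theorem opv_neg {N n k : ℕ} (hn : 1 ≤ n) {w T : Word} (hT : URun n n T)
    (hK : IsKnot (sat w n (T ++ twists .neg n k))) :
    opv A hA N n w ((tl A hA).mirror.th (N * n) ^ k * (tl A hA).ev N T) =
      ((tl A hA).mu N)⁻¹ ^ (n * k) * jj A hA N (sat w n (T ++ twists .neg n k)) := by
  have hT' : URun n n (T ++ twists .neg n k) :=
    (hT.len.append (Len.cross (isBraid_twists _ (Or.inr rfl) n k))).uRun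
  obtain ⟨ℓ, L₁, L₂, h1, h2, h3, h4⟩ := sat_levels hn hT' hK
  have e : sat w n (T ++ twists .neg n k) =
      ((List.range (n - 1)).map (fun j => (Kind.cup, 1 + j)) ++ (T ++ twists .neg n k)) ++
      (cable n w ++ (List.range (n - 1)).reverse.map (fun j => (Kind.cap, 1 + j))) := by
    unfold sat
    simp only [List.append_assoc]
  have hw : IsKnot (((List.range (n - 1)).map (fun j => (Kind.cup, 1 + j)) ++
      (T ++ twists .neg n k)) ++
      (cable n w ++ (List.range (n - 1)).reverse.map (fun j => (Kind.cap, 1 + j)))) := by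
    rw [← e]
    exact hK
  have h5 := slide_mpar_pow (tl A hA) N hw h1 h2 h3 n h4 k
  rw [← e] at h5
  exact opv_eq_of A hA h5 (mpar_twist_neg (tl A hA) N n k) (mth_pow_vplus A hA N (n * k)) rfl

end Concrete

end Pool.Agent.HTW
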