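import Pool.Agent.HTW.Words
import Pool.Agent.HTW.Len

/-!
# The evaluation at `A = 1`: action on basis vectors
-/

namespace Pool.Agent.HTW.Ori

open Pool.Agent.HTW

/-- Basis vectors. -/
noncomputable def eb : List Bool → Hf
  | [] => fun _ => 1
  | y :: ℓ => fun s => if s 0 = y then eb ℓ (stail s) else 0

/-- Put signs in front. -/
noncomputable def consl : List Bool → Hf → Hf
  | [], f => f
  | y :: ℓ, f => fun s => if s 0 = y then consl ℓ f (stail s) else 0

/-- A sequence with a given beginning. -/
def sq : List Bool → (ℕ → Bool)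
  | [] => tt
  | y :: ℓ => scons y (sq ℓ)

/-- The labels of the other end of a cup. -/
def st (b : List Bool) : List Bool := (b.map not).reverse

theorem length_st (b : List Bool) : (st b).length = b.length := by simp [st]

theorem st_st (b : List Bool) : st (st b) = b := by
  simp [st, List.map_reverse, Function.comp_def]

theorem st_snoc (b : List Bool) (x : Bool) : st (b ++ [x]) = (!x) :: st b := by
  simp [st]

theorem st_cons (b : List Bool) (x : Bool) : st (x :: b) = st b ++ [!x] := by
  simp [st]

theorem st_inj {b c : List Bool} (h : st b = st c) : b = c := by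
  rw [← st_st b, h, st_st]

theorem st_replicate (N : ℕ) (y : Bool) : st (List.replicate N y) = List.replicate N (!y) := by
  simp [st]

theorem consl_eb (u v : List Bool) : consl u (eb v) = eb (u ++ v) := by
  induction u with
  | nil => rfl
  | cons y u ih =>
    funext s
    show (if s 0 = y then consl u (eb v) (stail s) else 0) =
      (if s 0 = y then eb (u ++ v) (stail s) else 0)
    rw [ih]

theorem consl_append (u v : List Bool) (f : Hf) : consl (u ++ v) f = consl u (consl v f) := by
  induction u with
  | nil => rfl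
  | cons y u ih =>
    funext s
    show (if s 0 = y then consl (u ++ v) f (stail s) else 0) =
      (if s 0 = y then consl u (consl v f) (stail s) else 0)
    rw [ih]

/-- `consl` as a linear map. -/
noncomputable def conslL (u : List Bool) : Hf →ₗ[ℝ] Hf where
  toFun := consl u
  map_add' := by
    intro f g
    induction u with
    | nil => rfl
    | cons y u ih =>
      funext s
      show (if s 0 = y then consl u (f + g) (stail s) else 0) =
        (if s 0 = y then consl u f (stail s) else 0) + (if s 0 = y then consl u g (stail s) else 0)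
      rw [ih]
      split_ifs
      · rfl
      · simp
  map_smul' := by
    intro c f
    induction u with
    | nil => rfl
    | cons y u ih =>
      funext s
      show (if s 0 = y then consl u (c • f) (stail s) else 0) =
        c * (if s 0 = y then consl u f (stail s) else 0)
      rw [ih]
      split_ifs
      · rfl
      · simp

theorem conslL_apply (u : List Bool) (f : Hf) : conslL u f = consl u f := rfl

theorem shift_consl (x : Bool) (T : RR) (f : Hf) :
    shiftEnd T (consl [x] f) = consl [x] (T f) := by
  funext s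
  rw [shiftEnd_apply]
  show T (fun s' => if scons (s 0) s' 0 = x then f (stail (scons (s 0) s')) else 0) (stail s) =
    if s 0 = x then T f (stail s) else 0
  by_cases h : s 0 = x
  · rw [if_pos h]
    have e : (fun s' : ℕ → Bool => if scons (s 0) s' 0 = x then f (stail (scons (s 0) s')) else 0) =
        f := by
      funext s'
      exact if_pos h
    rw [e]
  · rw [if_neg h]
    have e : (fun s' : ℕ → Bool => if scons (s 0) s' 0 = x then f (stail (scons (s 0) s')) else 0) =
        0 := by
      funext s'
      exact if_neg h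
    rw [e, map_zero]
    rfl

/-- Data at `A = 1`. -/
structure One (D : TLData RR) : Prop where
  S : D.S = shiftEnd
  u : D.u = cupEnd 1
  n : D.n = capEnd 1
  A : D.A = 1

theorem one_tl : One (tl 1 one_ne_zero) := ⟨rfl, rfl, rfl, rfl⟩

theorem one_mirror {D : TLData RR} (h : One D) : One D.mirror :=
  ⟨h.S, h.u, h.n, by
    show D.A⁻¹ = 1
    rw [h.A, inv_one]⟩

section

variable {D : TLData RR} (hD : One D)
include hD

theorem sh_consl (u : List Bool) (T : RR) (f : Hf) :
    D.sh u.length T (consl u f) = consl u (T f) := by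
  induction u with
  | nil => rfl
  | cons y u ih =>
    show D.S (D.sh u.length T) (consl ([y] ++ u) f) = consl ([y] ++ u) (T f)
    rw [hD.S, consl_append, shift_consl, ih, consl_append]

theorem sh_eb (u v : List Bool) (T : RR) :
    D.sh u.length T (eb (u ++ v)) = consl u (T (eb v)) := by
  rw [← consl_eb, sh_consl hD]

theorem u_eb (v : List Bool) :
    D.u (eb v) = eb (true :: false :: v) - eb (false :: true :: v) := by
  rw [hD.u]
  funext s
  rw [cupEnd_apply]
  show _ = (if s 0 = true then (if s 1 = false then eb v (stail (stail s)) else 0) else 0) -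
    (if s 0 = false then (if s 1 = true then eb v (stail (stail s)) else 0) else 0)
  cases h0 : s 0 <;> cases h1 : s 1 <;> simp [wt]

theorem n_eb (x y : Bool) (v : List Bool) :
    D.n (eb (x :: y :: v)) = (-(wt 1 x y)) • eb v := by
  rw [hD.n]
  funext s
  rw [capEnd_eq]
  show -1 * (if true = x then (if false = y then eb v s else 0) else 0) +
    (1 : ℝ)⁻¹ * (if false = x then (if true = y then eb v s else 0) else 0) =
      -(wt 1 x y) * eb v s
  cases x <;> cases y <;> simp [wt]

theorem sg_eb (x y : Bool) (v : List Bool) :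
    D.sg (eb (x :: y :: v)) = eb (y :: x :: v) := by
  show D.A • eb (x :: y :: v) + D.A⁻¹ • D.u (D.n (eb (x :: y :: v))) = _
  rw [hD.A, n_eb hD, map_smul, u_eb hD, inv_one, one_smul, one_smul]
  cases x <;> cases y <;> simp [wt]

theorem X1_eb (c : List Bool) (x : Bool) (v : List Bool) :
    D.X1 c.length (eb (x :: (c ++ v))) = eb (c ++ x :: v) := by
  induction c using List.reverseRecOn generalizing v with
  | nil => rfl
  | append_singleton c y ih =>
    rw [List.length_append, List.length_singleton]
    show D.sh c.length D.sg (D.X1 c.length (eb (x :: (c ++ [y] ++ v)))) = _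
    rw [List.append_assoc, ih, sh_eb hD]
    show consl c (D.sg (eb (x :: y :: v))) = _
    rw [sg_eb hD, consl_eb, List.append_assoc]
    rfl

theorem X_eb (b c v : List Bool) :
    D.X b.length c.length (eb (b ++ (c ++ v))) = eb (c ++ (b ++ v)) := by
  induction b with
  | nil => rfl
  | cons x b ih =>
    show D.X1 c.length (D.S (D.X b.length c.length) (eb ([x] ++ (b ++ (c ++ v))))) = _
    rw [hD.S, ← consl_eb, shift_consl, ih, consl_eb]
    show D.X1 c.length (eb (x :: (c ++ (b ++ v)))) = _
    rw [X1_eb hD]
    rfl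

/-- Nested cups, no term. -/
theorem U_zero (m : ℕ) (v : List Bool) (Φ : Hf →ₗ[ℝ] ℝ)
    (h : ∀ b : List Bool, b.length = m → Φ (eb (b ++ (st b ++ v))) = 0) :
    Φ (D.U m (eb v)) = 0 := by
  induction m generalizing Φ with
  | zero => exact h [] rfl
  | succ m ih =>
    refine ih (Φ.comp (D.sh m D.u)) fun b hb => ?_
    show Φ (D.sh m D.u (eb (b ++ (st b ++ v)))) = 0
    rw [← hb, sh_eb hD, u_eb hD]
    have e : consl b (eb (true :: false :: (st b ++ v)) - eb (false :: true :: (st b ++ v))) =
        eb ((b ++ [true]) ++ (st (b ++ [true]) ++ v)) -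
        eb ((b ++ [false]) ++ (st (b ++ [false]) ++ v)) := by
      rw [← conslL_apply, map_sub, conslL_apply, conslL_apply, consl_eb, consl_eb, st_snoc,
        st_snoc]
      simp
    rw [e, map_sub, h _ (by simp [hb]), h _ (by simp [hb]), sub_zero]

/-- Nested cups, one term. -/
theorem U_one (m : ℕ) (v : List Bool) (Φ : Hf →ₗ[ℝ] ℝ) (b₀ : List Bool) (hb₀ : b₀.length = m)
    (h : ∀ b : List Bool, b.length = m → b ≠ b₀ → Φ (eb (b ++ (st b ++ v))) = 0)
    (h₀ : Φ (eb (b₀ ++ (st b₀ ++ v))) = 1 ∨ Φ (eb (b₀ ++ (st b₀ ++ v))) = -1) :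
    Φ (D.U m (eb v)) = 1 ∨ Φ (D.U m (eb v)) = -1 := by
  induction m generalizing Φ b₀ with
  | zero =>
    rw [List.length_eq_zero_iff] at hb₀
    subst hb₀
    exact h₀
  | succ m ih =>
    have e : ∀ b : List Bool, b.length = m → Φ (D.sh m D.u (eb (b ++ (st b ++ v)))) =
        Φ (eb ((b ++ [true]) ++ (st (b ++ [true]) ++ v))) -
        Φ (eb ((b ++ [false]) ++ (st (b ++ [false]) ++ v))) := by
      intro b hb
      rw [← hb, sh_eb hD, u_eb hD, ← conslL_apply, map_sub, conslL_apply, conslL_apply,
        consl_eb, consl_eb, st_snoc, st_snoc, map_sub]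
      simp
    obtain ⟨b₁, x, rfl⟩ : ∃ b₁ x, b₀ = b₁ ++ [x] := by
      rcases List.eq_nil_or_concat b₀ with rfl | ⟨b₁, x, rfl⟩
      · simp at hb₀
      · exact ⟨b₁, x, by simp⟩
    have hb₁ : b₁.length = m := by simpa using hb₀
    refine ih (Φ.comp (D.sh m D.u)) b₁ hb₁ (fun b hb hne => ?_) ?_
    · show Φ (D.sh m D.u (eb (b ++ (st b ++ v)))) = 0
      rw [e b hb, h _ (by simp [hb]) (by simp [hne]), h _ (by simp [hb]) (by simp [hne]),
        sub_zero]
    · show Φ (D.sh m D.u (eb (b₁ ++ (st b₁ ++ v)))) = 1 ∨
        Φ (D.sh m D.u (eb (b₁ ++ (st b₁ ++ v)))) = -1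
      rw [e b₁ hb₁]
      cases x
      · rw [h (b₁ ++ [true]) (by simp [hb₁]) (by simp), zero_sub]
        rcases h₀ with h₀ | h₀ <;> rw [h₀] <;> simp
      · rw [h (b₁ ++ [false]) (by simp [hb₁]) (by simp), sub_zero]
        exact h₀

/-- Nested caps. -/
theorem N_eb (m : ℕ) (b c v : List Bool) (hb : b.length = m) (hc : c.length = m) :
    (c = st b → (D.N m (eb (b ++ (c ++ v))) = eb v ∨ D.N m (eb (b ++ (c ++ v))) = -eb v)) ∧
    (c ≠ st b → D.N m (eb (b ++ (c ++ v))) = 0) := by
  induction m generalizing b c with
  | zero =>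
    rw [List.length_eq_zero_iff] at hb hc
    subst hb
    subst hc
    exact ⟨fun _ => Or.inl rfl, fun h => absurd rfl h⟩
  | succ m ih =>
    obtain ⟨b₁, x, rfl⟩ : ∃ b₁ x, b = b₁ ++ [x] := by
      rcases List.eq_nil_or_concat b with rfl | ⟨b₁, x, rfl⟩
      · simp at hb
      · exact ⟨b₁, x, by simp⟩
    obtain ⟨y, c₁, rfl⟩ : ∃ y c₁, c = y :: c₁ := by
      cases c with
      | nil => simp at hc
      | cons y c => exact ⟨y, c, rfl⟩
    have hb₁ : b₁.length = m := by simpa using hb
    have hc₁ : c₁.length = m := by simpa using hc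
    have e : D.N (m + 1) (eb (b₁ ++ [x] ++ (y :: c₁ ++ v))) =
        (-(wt 1 x y)) • D.N m (eb (b₁ ++ (c₁ ++ v))) := by
      show D.N m (D.sh m D.n (eb (b₁ ++ [x] ++ (y :: c₁ ++ v)))) = _
      have e1 : b₁ ++ [x] ++ (y :: c₁ ++ v) = b₁ ++ (x :: y :: (c₁ ++ v)) := by simp
      rw [e1, ← hb₁, sh_eb hD, n_eb hD, ← conslL_apply, map_smul, conslL_apply, consl_eb,
        map_smul]
    rw [e, st_snoc]
    obtain ⟨h1, h2⟩ := ih b₁ c₁ hb₁ hc₁
    constructor
    · intro h
      rw [List.cons.injEq] at h
      rcases h1 h.2 with h3 | h3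
      · rw [h3, h.1]
        cases x
        · left
          simp [wt]
        · right
          simp [wt]
      · rw [h3, h.1]
        cases x
        · right
          simp [wt]
        · left
          simp [wt]
    · intro h
      by_cases hxy : y = !x
      · have h3 : c₁ ≠ st b₁ := by
          intro h4
          exact h (by rw [hxy, h4])
        rw [h2 h3, smul_zero]
      · have h4 : wt 1 x y = 0 := by
          cases x <;> cases y <;> simp_all [wt]
        rw [h4, neg_zero, zero_smul]

end

end Pool.Agent.HTW.Ori
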