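import Pool.Agent.HTW.OriA
import Pool.Agent.HTW.ODefs

/-!
# The evaluation at `A = 1` is given by the orientations
-/

namespace Pool.Agent.HTW.Ori

open Pool.Agent.HTW

/-- The labels are blocks of signs; at a cup or a cap the second block is the reversed opposite
of the first one. -/
inductive BStep (N : ℕ) : Letter → List (List Bool) → List (List Bool) → Prop
  | cup (u v : List (List Bool)) (y : List Bool) (hy : y.length = N) :
      BStep N (Kind.cup, u.length) (u ++ v) (u ++ y :: st y :: v)
  | cap (u v : List (List Bool)) (y : List Bool) :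
      BStep N (Kind.cap, u.length) (u ++ y :: st y :: v) (u ++ v)
  | pos (u v : List (List Bool)) (x y : List Bool) :
      BStep N (Kind.pos, u.length) (u ++ x :: y :: v) (u ++ y :: x :: v)
  | neg (u v : List (List Bool)) (x y : List Bool) :
      BStep N (Kind.neg, u.length) (u ++ x :: y :: v) (u ++ y :: x :: v)

/-- Runs with the labels at the bottom and at the top, and the list of the labels above the
bottom. -/
inductive BR (N : ℕ) : Word → List (List Bool) → List (List Bool) → List (List (List Bool)) → Prop
  | nil (ℓ : List (List Bool)) : BR N [] ℓ ℓ []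
  | cons {x : Letter} {w : Word} {ℓ ℓ' t : List (List Bool)} {K : List (List (List Bool))} :
      BStep N x ℓ ℓ' → BR N w ℓ' t K → BR N (x :: w) ℓ t (ℓ' :: K)

theorem cup_iff {N : ℕ} {u v ℓ' : List (List Bool)} :
    BStep N (Kind.cup, u.length) (u ++ v) ℓ' ↔ ∃ y : List Bool, y.length = N ∧
      ℓ' = u ++ y :: st y :: v := by
  constructor
  · intro h
    generalize hx : ((Kind.cup, u.length) : Letter) = x at h
    generalize hℓ : u ++ v = ℓ at h
    cases h with
    | cup u' v' y hy =>
      rw [Prod.mk.injEq] at hx
      obtain ⟨rfl, rfl⟩ := List.append_inj hℓ hx.2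
      exact ⟨y, hy, rfl⟩
    | cap u' v' y => exact absurd (congrArg Prod.fst hx) (by simp)
    | pos u' v' y z => exact absurd (congrArg Prod.fst hx) (by simp)
    | neg u' v' y z => exact absurd (congrArg Prod.fst hx) (by simp)
  · rintro ⟨y, hy, rfl⟩
    exact BStep.cup u v y hy

theorem cap_iff {N : ℕ} {u v ℓ' : List (List Bool)} {y z : List Bool} :
    BStep N (Kind.cap, u.length) (u ++ y :: z :: v) ℓ' ↔ z = st y ∧ ℓ' = u ++ v := by
  constructor
  · intro h
    generalize hx : ((Kind.cap, u.length) : Letter) = x at h
    generalize hℓ : u ++ y :: z :: v = ℓ at h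
    cases h with
    | cup u' v' y' hy => exact absurd (congrArg Prod.fst hx) (by simp)
    | cap u' v' y' =>
      rw [Prod.mk.injEq] at hx
      obtain ⟨rfl, h2⟩ := List.append_inj hℓ hx.2
      simp only [List.cons.injEq] at h2
      obtain ⟨rfl, rfl, rfl⟩ := h2
      exact ⟨rfl, rfl⟩
    | pos u' v' y' z' => exact absurd (congrArg Prod.fst hx) (by simp)
    | neg u' v' y' z' => exact absurd (congrArg Prod.fst hx) (by simp)
  · rintro ⟨rfl, rfl⟩
    exact BStep.cap u v y

theorem pos_iff {N : ℕ} {u v ℓ' : List (List Bool)} {y z : List Bool} :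
    BStep N (Kind.pos, u.length) (u ++ y :: z :: v) ℓ' ↔ ℓ' = u ++ z :: y :: v := by
  constructor
  · intro h
    generalize hx : ((Kind.pos, u.length) : Letter) = x at h
    generalize hℓ : u ++ y :: z :: v = ℓ at h
    cases h with
    | cup u' v' y' hy => exact absurd (congrArg Prod.fst hx) (by simp)
    | cap u' v' y' => exact absurd (congrArg Prod.fst hx) (by simp)
    | pos u' v' y' z' =>
      rw [Prod.mk.injEq] at hx
      obtain ⟨rfl, h2⟩ := List.append_inj hℓ hx.2
      simp only [List.cons.injEq] at h2
      obtain ⟨rfl, rfl, rfl⟩ := h2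
      rfl
    | neg u' v' y' z' => exact absurd (congrArg Prod.fst hx) (by simp)
  · rintro rfl
    exact BStep.pos u v y z

theorem neg_iff {N : ℕ} {u v ℓ' : List (List Bool)} {y z : List Bool} :
    BStep N (Kind.neg, u.length) (u ++ y :: z :: v) ℓ' ↔ ℓ' = u ++ z :: y :: v := by
  constructor
  · intro h
    generalize hx : ((Kind.neg, u.length) : Letter) = x at h
    generalize hℓ : u ++ y :: z :: v = ℓ at h
    cases h with
    | cup u' v' y' hy => exact absurd (congrArg Prod.fst hx) (by simp)
    | cap u' v' y' => exact absurd (congrArg Prod.fst hx) (by simp)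
    | pos u' v' y' z' => exact absurd (congrArg Prod.fst hx) (by simp)
    | neg u' v' y' z' =>
      rw [Prod.mk.injEq] at hx
      obtain ⟨rfl, h2⟩ := List.append_inj hℓ hx.2
      simp only [List.cons.injEq] at h2
      obtain ⟨rfl, rfl, rfl⟩ := h2
      rfl
  · rintro rfl
    exact BStep.neg u v y z

/-! ### Basis vectors at points -/

theorem eb_sq (p q : List Bool) (h : p.length = q.length) :
    eb p (sq q) = if p = q then 1 else 0 := by
  induction p generalizing q with
  | nil =>
    cases q with
    | nil => rfl
    | cons y q => simp at h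
  | cons x p ih =>
    cases q with
    | nil => simp at h
    | cons y q =>
      show (if y = x then eb p (sq q) else 0) = _
      rw [ih q (by simpa using h)]
      by_cases hxy : y = x
      · subst hxy
        simp
      · rw [if_neg hxy, if_neg]
        intro h2
        rw [List.cons.injEq] at h2
        exact hxy h2.1.symm

theorem flatten_inj {N : ℕ} {ℓ t : List (List Bool)} (hℓ : ∀ b ∈ ℓ, b.length = N)
    (ht : ∀ b ∈ t, b.length = N) (hl : ℓ.length = t.length) (h : ℓ.flatten = t.flatten) :
    ℓ = t := by
  induction ℓ generalizing t with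
  | nil =>
    cases t with
    | nil => rfl
    | cons y t => simp at hl
  | cons x ℓ ih =>
    cases t with
    | nil => simp at hl
    | cons y t =>
      rw [List.flatten_cons, List.flatten_cons] at h
      have hx := hℓ x List.mem_cons_self
      have hy := ht y List.mem_cons_self
      obtain ⟨rfl, h2⟩ := List.append_inj h (by rw [hx, hy])
      rw [ih (fun b hb => hℓ b (List.mem_cons_of_mem _ hb))
        (fun b hb => ht b (List.mem_cons_of_mem _ hb)) (by simpa using hl) h2]

theorem length_flatten {N : ℕ} {ℓ : List (List Bool)} (hℓ : ∀ b ∈ ℓ, b.length = N) :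
    ℓ.flatten.length = N * ℓ.length := by
  induction ℓ with
  | nil => simp
  | cons x ℓ ih =>
    rw [List.flatten_cons, List.length_append, hℓ x List.mem_cons_self,
      ih (fun b hb => hℓ b (List.mem_cons_of_mem _ hb)), List.length_cons]
    ring

/-- Splitting a list of labels at a letter. -/
theorem split_at {α : Type} {i : ℕ} {ℓ : List α} (h : i ≤ ℓ.length) :
    ∃ u v, ℓ = u ++ v ∧ u.length = i :=
  ⟨ℓ.take i, ℓ.drop i, (List.take_append_drop i ℓ).symm, by simp [h]⟩

theorem split_at2 {α : Type} {i a : ℕ} {ℓ : List α} (hi : i ≤ a) (h : ℓ.length = a + 2) :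
    ∃ u y z v, ℓ = u ++ y :: z :: v ∧ u.length = i := by
  obtain ⟨u, v, rfl, hu⟩ := split_at (ℓ := ℓ) (i := i) (by omega)
  rw [List.length_append] at h
  cases v with
  | nil => simp at h; omega
  | cons y v =>
    cases v with
    | nil => simp at h; omega
    | cons z v => exact ⟨u, y, z, v, rfl, hu⟩

/-! ### The main lemma -/

section

variable {D : TLData RR} (hD : One D) (N : ℕ)
include hD

theorem evL_eb (k : Kind) {u : List (List Bool)} (hu : ∀ b ∈ u, b.length = N)
    (v : List (List Bool)) :
    D.evL N (k, u.length) (eb (u ++ v).flatten) =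
      consl u.flatten (D.blk N k (eb v.flatten)) := by
  show D.sh (N * u.length) (D.blk N k) (eb (u ++ v).flatten) = _
  rw [← length_flatten hu, List.flatten_append, sh_eb hD]

theorem main (w : Word) (ℓ t : List (List Bool)) (hℓ : ∀ b ∈ ℓ, b.length = N)
    (ht : ∀ b ∈ t, b.length = N) (hL : Len w ℓ.length t.length) :
    ((∀ K, ¬ BR N w ℓ t K) → D.ev N w (eb ℓ.flatten) (sq t.flatten) = 0) ∧
    ((∃ K, BR N w ℓ t K ∧ ∀ K', BR N w ℓ t K' → K' = K) →
      D.ev N w (eb ℓ.flatten) (sq t.flatten) = 1 ∨
      D.ev N w (eb ℓ.flatten) (sq t.flatten) = -1) := by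
  induction w generalizing ℓ with
  | nil =>
    have hl : ℓ.length = t.length := by
      generalize ℓ.length = a at hL
      generalize t.length = b at hL
      cases hL
      rfl
    have e : D.ev N [] (eb ℓ.flatten) (sq t.flatten) = if ℓ.flatten = t.flatten then 1 else 0 := by
      show eb ℓ.flatten (sq t.flatten) = _
      exact eb_sq _ _ (by rw [length_flatten hℓ, length_flatten ht, hl])
    rw [e]
    constructor
    · intro h
      rw [if_neg]
      intro h2
      have h3 := flatten_inj hℓ ht hl h2
      subst h3
      exact h _ (BR.nil _)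
    · rintro ⟨K, hK, -⟩
      left
      have h3 : ℓ = t := by
        cases hK
        rfl
      rw [h3, if_pos rfl]
  | cons x w ih =>
    obtain ⟨k, i⟩ := x
    have e0 : D.ev N ((k, i) :: w) (eb ℓ.flatten) = D.ev N w (D.evL N (k, i) (eb ℓ.flatten)) :=
      rfl
    rw [e0]
    cases k with
    | cup =>
      have hi : i ≤ ℓ.length ∧ Len w (ℓ.length + 2) t.length := by
        generalize ℓ.length = a at hL
        generalize t.length = b at hL
        cases hL with
        | cup h1 h2 => exact ⟨h1, h2⟩
      obtain ⟨u, v, rfl, rfl⟩ := split_at hi.1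
      have hu : ∀ b ∈ u, b.length = N := fun b hb => hℓ b (List.mem_append_left _ hb)
      have hv : ∀ b ∈ v, b.length = N := fun b hb => hℓ b (List.mem_append_right _ hb)
      rw [evL_eb hD N Kind.cup hu v]
      show _ ∧ (_ → (D.ev N w (consl u.flatten (D.U N (eb v.flatten)))) (sq t.flatten) = 1 ∨
        (D.ev N w (consl u.flatten (D.U N (eb v.flatten)))) (sq t.flatten) = -1)
      have hb : ∀ b : List Bool, b.length = N → ∀ c ∈ u ++ b :: st b :: v, c.length = N := by
        intro b hb c hc
        simp only [List.mem_append, List.mem_cons] at hc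
        rcases hc with hc | rfl | rfl | hc
        · exact hu c hc
        · exact hb
        · rw [length_st, hb]
        · exact hv c hc
      have hlen : ∀ b : List Bool, Len w (u ++ b :: st b :: v).length t.length := by
        intro b
        have e : (u ++ b :: st b :: v).length = (u ++ v).length + 2 := by simp; omega
        rw [e]
        exact hi.2
      set Φ : Hf →ₗ[ℝ] ℝ := (LinearMap.proj (sq t.flatten)).comp
        ((D.ev N w).comp (conslL u.flatten)) with hΦ
      have eΦ : ∀ f, Φ f = D.ev N w (consl u.flatten f) (sq t.flatten) := fun f => rfl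
      have eΦ2 : ∀ b : List Bool, Φ (eb (b ++ (st b ++ v.flatten))) =
          D.ev N w (eb (u ++ b :: st b :: v).flatten) (sq t.flatten) := by
        intro b
        rw [eΦ, consl_eb]
        simp
      constructor
      · intro h
        show Φ (D.U N (eb v.flatten)) = 0
        refine U_zero hD N v.flatten Φ fun b hb' => ?_
        rw [eΦ2]
        refine (ih _ (hb b hb') (hlen b)).1 fun K hK => ?_
        exact h _ (BR.cons (BStep.cup u v b hb') hK)
      · rintro ⟨K, hK, huniq⟩
        rw [← eΦ]
        obtain ⟨y, K₀, hy, rfl, hK₀⟩ : ∃ y K₀, y.length = N ∧ K = (u ++ y :: st y :: v) :: K₀ ∧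
            BR N w (u ++ y :: st y :: v) t K₀ := by
          cases hK with
          | cons hs hr =>
            obtain ⟨y, hy, rfl⟩ := cup_iff.1 hs
            exact ⟨y, _, hy, rfl, hr⟩
        have hcan : ∀ b : List Bool, u ++ b :: st b :: v = u ++ y :: st y :: v → b = y := by
          intro b h
          have h2 := List.append_cancel_left h
          rw [List.cons.injEq] at h2
          exact h2.1
        refine U_one hD N v.flatten Φ y hy (fun b hb' hne => ?_) ?_
        · rw [eΦ2]
          refine (ih _ (hb b hb') (hlen b)).1 fun K hK => ?_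
          have h2 := huniq _ (BR.cons (BStep.cup u v b hb') hK)
          rw [List.cons.injEq] at h2
          exact hne (hcan b h2.1)
        · rw [eΦ2]
          refine (ih _ (hb y hy) (hlen y)).2 ⟨K₀, hK₀, fun K' hK' => ?_⟩
          have h2 := huniq _ (BR.cons (BStep.cup u v y hy) hK')
          rw [List.cons.injEq] at h2
          exact h2.2
    | cap =>
      have hi : ∃ a, ℓ.length = a + 2 ∧ i ≤ a ∧ Len w a t.length := by
        generalize ℓ.length = a at hL
        generalize t.length = b at hL
        cases hL with
        | cap h1 h2 => exact ⟨_, rfl, h1, h2⟩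
      obtain ⟨a, ha, hia, hw⟩ := hi
      obtain ⟨u, y, z, v, rfl, rfl⟩ := split_at2 hia ha
      have hu : ∀ b ∈ u, b.length = N := fun b hb => hℓ b (List.mem_append_left _ hb)
      have hv : ∀ b ∈ u ++ v, b.length = N := by
        intro b hb
        refine hℓ b ?_
        rw [List.mem_append] at hb
        rcases hb with hb | hb
        · exact List.mem_append_left _ hb
        · exact List.mem_append_right _ (List.mem_cons_of_mem _ (List.mem_cons_of_mem _ hb))
      have hy : y.length = N := hℓ y (by simp)
      have hz : z.length = N := hℓ z (by simp)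
      have hlen : Len w (u ++ v).length t.length := by
        have e : (u ++ v).length = a := by
          simp only [List.length_append, List.length_cons] at ha ⊢
          omega
        rw [e]
        exact hw
      rw [evL_eb hD N Kind.cap hu]
      have e1 : (y :: z :: v).flatten = y ++ (z ++ v.flatten) := by simp
      rw [e1]
      show (_ → (D.ev N w (consl u.flatten (D.N N (eb (y ++ (z ++ v.flatten))))))
        (sq t.flatten) = 0) ∧ (_ → (D.ev N w (consl u.flatten
          (D.N N (eb (y ++ (z ++ v.flatten)))))) (sq t.flatten) = 1 ∨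
        (D.ev N w (consl u.flatten (D.N N (eb (y ++ (z ++ v.flatten)))))) (sq t.flatten) = -1)
      obtain ⟨n1, n2⟩ := N_eb hD N y z v.flatten hy hz
      obtain ⟨ih1, ih2⟩ := ih (u ++ v) hv hlen
      by_cases hzy : z = st y
      · have hiff : ∀ K, BR N ((Kind.cap, u.length) :: w) (u ++ y :: z :: v) t K ↔
            ∃ K₀, K = (u ++ v) :: K₀ ∧ BR N w (u ++ v) t K₀ := by
          intro K
          constructor
          · intro hK
            cases hK with
            | cons hs hr =>
              obtain ⟨-, rfl⟩ := cap_iff.1 hs
              exact ⟨_, rfl, hr⟩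
          · rintro ⟨K₀, rfl, h⟩
            exact BR.cons (cap_iff.2 ⟨hzy, rfl⟩) h
        have e2 : consl u.flatten (eb v.flatten) = eb (u ++ v).flatten := by
          rw [consl_eb, List.flatten_append]
        rcases n1 hzy with n3 | n3
        · rw [n3, e2]
          constructor
          · intro h
            exact ih1 fun K hK => h _ ((hiff _).2 ⟨K, rfl, hK⟩)
          · rintro ⟨K, hK, huniq⟩
            obtain ⟨K₀, rfl, hK₀⟩ := (hiff K).1 hK
            refine ih2 ⟨K₀, hK₀, fun K' hK' => ?_⟩
            have h2 := huniq _ ((hiff _).2 ⟨K', rfl, hK'⟩)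
            rw [List.cons.injEq] at h2
            exact h2.2
        · have e3 : D.ev N w (consl u.flatten (-eb v.flatten)) (sq t.flatten) =
              -(D.ev N w (eb (u ++ v).flatten) (sq t.flatten)) := by
            rw [← conslL_apply, map_neg, map_neg, conslL_apply, e2]
            rfl
          rw [n3, e3]
          constructor
          · intro h
            rw [ih1 fun K hK => h _ ((hiff _).2 ⟨K, rfl, hK⟩), neg_zero]
          · rintro ⟨K, hK, huniq⟩
            obtain ⟨K₀, rfl, hK₀⟩ := (hiff K).1 hK
            rcases ih2 ⟨K₀, hK₀, fun K' hK' => by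
              have h2 := huniq _ ((hiff _).2 ⟨K', rfl, hK'⟩)
              rw [List.cons.injEq] at h2
              exact h2.2⟩ with h3 | h3
            · right
              rw [h3]
            · left
              rw [h3, neg_neg]
      · have e3 : D.ev N w (consl u.flatten (D.N N (eb (y ++ (z ++ v.flatten)))))
            (sq t.flatten) = 0 := by
          rw [n2 hzy, ← conslL_apply, map_zero, map_zero]
          rfl
        refine ⟨fun _ => e3, ?_⟩
        rintro ⟨K, hK, -⟩
        exfalso
        cases hK with
        | cons hs hr => exact hzy (cap_iff.1 hs).1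
    | pos =>
      have hi : ∃ a, ℓ.length = a + 2 ∧ i ≤ a ∧ Len w (a + 2) t.length := by
        generalize ℓ.length = a at hL
        generalize t.length = b at hL
        cases hL with
        | pos h1 h2 => exact ⟨_, rfl, h1, h2⟩
      obtain ⟨a, ha, hia, hw⟩ := hi
      obtain ⟨u, y, z, v, rfl, rfl⟩ := split_at2 hia ha
      have hu : ∀ b ∈ u, b.length = N := fun b hb => hℓ b (List.mem_append_left _ hb)
      have hv : ∀ b ∈ u ++ z :: y :: v, b.length = N := by
        intro b hb
        refine hℓ b ?_
        simp only [List.mem_append, List.mem_cons] at hb ⊢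
        tauto
      have hy : y.length = N := hℓ y (by simp)
      have hz : z.length = N := hℓ z (by simp)
      have hlen : Len w (u ++ z :: y :: v).length t.length := by
        have e : (u ++ z :: y :: v).length = a + 2 := by
          rw [← ha]
          simp
        rw [e]
        exact hw
      have e2 : D.evL N (Kind.pos, u.length) (eb (u ++ y :: z :: v).flatten) =
          eb (u ++ z :: y :: v).flatten := by
        rw [evL_eb hD N Kind.pos hu]
        have e1 : (y :: z :: v).flatten = y ++ (z ++ v.flatten) := by simp
        rw [e1]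
        show consl u.flatten (D.X N N (eb (y ++ (z ++ v.flatten)))) = _
        have e3 := X_eb hD y z v.flatten
        rw [hy, hz] at e3
        rw [e3, consl_eb]
        simp
      rw [e2]
      obtain ⟨ih1, ih2⟩ := ih (u ++ z :: y :: v) hv hlen
      have hiff : ∀ K, BR N ((Kind.pos, u.length) :: w) (u ++ y :: z :: v) t K ↔
          ∃ K₀, K = (u ++ z :: y :: v) :: K₀ ∧ BR N w (u ++ z :: y :: v) t K₀ := by
        intro K
        constructor
        · intro hK
          cases hK with
          | cons hs hr =>
            obtain rfl := pos_iff.1 hs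
            exact ⟨_, rfl, hr⟩
        · rintro ⟨K₀, rfl, h⟩
          exact BR.cons (pos_iff.2 rfl) h
      constructor
      · intro h
        exact ih1 fun K hK => h _ ((hiff _).2 ⟨K, rfl, hK⟩)
      · rintro ⟨K, hK, huniq⟩
        obtain ⟨K₀, rfl, hK₀⟩ := (hiff K).1 hK
        refine ih2 ⟨K₀, hK₀, fun K' hK' => ?_⟩
        have h2 := huniq _ ((hiff _).2 ⟨K', rfl, hK'⟩)
        rw [List.cons.injEq] at h2
        exact h2.2
    | neg =>
      have hi : ∃ a, ℓ.length = a + 2 ∧ i ≤ a ∧ Len w (a + 2) t.length := by
        generalize ℓ.length = a at hL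
        generalize t.length = b at hL
        cases hL with
        | neg h1 h2 => exact ⟨_, rfl, h1, h2⟩
      obtain ⟨a, ha, hia, hw⟩ := hi
      obtain ⟨u, y, z, v, rfl, rfl⟩ := split_at2 hia ha
      have hu : ∀ b ∈ u, b.length = N := fun b hb => hℓ b (List.mem_append_left _ hb)
      have hv : ∀ b ∈ u ++ z :: y :: v, b.length = N := by
        intro b hb
        refine hℓ b ?_
        simp only [List.mem_append, List.mem_cons] at hb ⊢
        tauto
      have hy : y.length = N := hℓ y (by simp)
      have hz : z.length = N := hℓ z (by simp)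
      have hlen : Len w (u ++ z :: y :: v).length t.length := by
        have e : (u ++ z :: y :: v).length = a + 2 := by
          rw [← ha]
          simp
        rw [e]
        exact hw
      have e2 : D.evL N (Kind.neg, u.length) (eb (u ++ y :: z :: v).flatten) =
          eb (u ++ z :: y :: v).flatten := by
        rw [evL_eb hD N Kind.neg hu]
        have e1 : (y :: z :: v).flatten = y ++ (z ++ v.flatten) := by simp
        rw [e1]
        show consl u.flatten (D.mirror.X N N (eb (y ++ (z ++ v.flatten)))) = _
        have e3 := X_eb (one_mirror hD) y z v.flatten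
        rw [hy, hz] at e3
        rw [e3, consl_eb]
        simp
      rw [e2]
      obtain ⟨ih1, ih2⟩ := ih (u ++ z :: y :: v) hv hlen
      have hiff : ∀ K, BR N ((Kind.neg, u.length) :: w) (u ++ y :: z :: v) t K ↔
          ∃ K₀, K = (u ++ z :: y :: v) :: K₀ ∧ BR N w (u ++ z :: y :: v) t K₀ := by
        intro K
        constructor
        · intro hK
          cases hK with
          | cons hs hr =>
            obtain rfl := neg_iff.1 hs
            exact ⟨_, rfl, hr⟩
        · rintro ⟨K₀, rfl, h⟩
          exact BR.cons (neg_iff.2 rfl) h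
      constructor
      · intro h
        exact ih1 fun K hK => h _ ((hiff _).2 ⟨K, rfl, hK⟩)
      · rintro ⟨K, hK, huniq⟩
        obtain ⟨K₀, rfl, hK₀⟩ := (hiff K).1 hK
        refine ih2 ⟨K₀, hK₀, fun K' hK' => ?_⟩
        have h2 := huniq _ ((hiff _).2 ⟨K', rfl, hK'⟩)
        rw [List.cons.injEq] at h2
        exact h2.2

end

/-! ### Uniqueness -/

/-- Comparison of labels. -/
def ne (ℓ m : List (List Bool)) : List Bool := List.zipWith (fun a b => decide (a ≠ b)) ℓ m

theorem ne_append {u u' : List (List Bool)} (h : u.length = u'.length)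
    (v v' : List (List Bool)) : ne (u ++ v) (u' ++ v') = ne u u' ++ ne v v' :=
  List.zipWith_append h

theorem ne_cons (x y : List Bool) (ℓ m : List (List Bool)) :
    ne (x :: ℓ) (y :: m) = decide (x ≠ y) :: ne ℓ m := rfl

theorem length_ne {ℓ m : List (List Bool)} (h : ℓ.length = m.length) :
    (ne ℓ m).length = ℓ.length := by
  simp [ne, h]

theorem ne_self (ℓ : List (List Bool)) : ne ℓ ℓ = List.replicate ℓ.length false := by
  induction ℓ with
  | nil => rfl
  | cons x ℓ ih =>
    rw [ne_cons, ih, List.length_cons, List.replicate_succ]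
    simp

theorem eq_of_ne {ℓ m : List (List Bool)} (hl : ℓ.length = m.length)
    (h : ∀ y ∈ ne ℓ m, y = false) : ℓ = m := by
  induction ℓ generalizing m with
  | nil =>
    cases m with
    | nil => rfl
    | cons y m => simp at hl
  | cons x ℓ ih =>
    cases m with
    | nil => simp at hl
    | cons y m =>
      rw [ne_cons] at h
      have h1 := h _ List.mem_cons_self
      rw [decide_eq_false_iff_not, not_not] at h1
      rw [h1, ih (by simpa using hl) (fun z hz => h z (List.mem_cons_of_mem _ hz))]

theorem st_ne (y z : List Bool) : decide (st y ≠ st z) = decide (y ≠ z) := by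
  have h : (st y ≠ st z) ↔ (y ≠ z) := ⟨fun h h' => h (by rw [h']), fun h h' => h (st_inj h')⟩
  by_cases h' : y ≠ z
  · rw [decide_eq_true h', decide_eq_true (h.2 h')]
  · rw [decide_eq_false h', decide_eq_false (fun h2 => h' (h.1 h2))]

theorem bstep_length {N : ℕ} {x : Letter} {ℓ ℓ' m m' : List (List Bool)} (h : BStep N x ℓ ℓ')
    (h' : BStep N x m m') (hl : ℓ.length = m.length) : ℓ'.length = m'.length := by
  have key : ∀ {x : Letter} {a b : List (List Bool)}, BStep N x a b →
      b.length + x.1.inn = a.length + x.1.out := by
    intro x a b h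
    cases h <;> simp [Kind.inn, Kind.out] <;> omega
  have h1 := key h
  have h2 := key h'
  omega

theorem bstep_ne {N : ℕ} {x : Letter} {ℓ ℓ' m m' : List (List Bool)} (h : BStep N x ℓ ℓ')
    (h' : BStep N x m m') (hl : ℓ.length = m.length) : Step x (ne ℓ m) (ne ℓ' m') := by
  generalize hy : x = y at h'
  cases h with
  | cup u v y hy' =>
    cases h' with
    | cup u' v' y' hy2 =>
      have e : u.length = u'.length := by
        rw [Prod.mk.injEq] at hy
        exact hy.2
      rw [ne_append e, ne_append e, ne_cons, ne_cons, st_ne]
      have h2 := Step.cup (ne u u') (ne v v') (decide (y ≠ y'))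
      rwa [length_ne e, e] at h2
    | cap u' v' y' => exact absurd (congrArg Prod.fst hy) (by simp)
    | pos u' v' y' z' => exact absurd (congrArg Prod.fst hy) (by simp)
    | neg u' v' y' z' => exact absurd (congrArg Prod.fst hy) (by simp)
  | cap u v y =>
    cases h' with
    | cup u' v' y' hy2 => exact absurd (congrArg Prod.fst hy) (by simp)
    | cap u' v' y' =>
      have e : u.length = u'.length := by
        rw [Prod.mk.injEq] at hy
        exact hy.2
      rw [ne_append e, ne_append e, ne_cons, ne_cons, st_ne]
      have h2 := Step.cap (ne u u') (ne v v') (decide (y ≠ y'))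
      rwa [length_ne e, e] at h2
    | pos u' v' y' z' => exact absurd (congrArg Prod.fst hy) (by simp)
    | neg u' v' y' z' => exact absurd (congrArg Prod.fst hy) (by simp)
  | pos u v y z =>
    cases h' with
    | cup u' v' y' hy2 => exact absurd (congrArg Prod.fst hy) (by simp)
    | cap u' v' y' => exact absurd (congrArg Prod.fst hy) (by simp)
    | pos u' v' y' z' =>
      have e : u.length = u'.length := by
        rw [Prod.mk.injEq] at hy
        exact hy.2
      rw [ne_append e, ne_append e, ne_cons, ne_cons, ne_cons, ne_cons]
      have h2 := Step.pos (ne u u') (ne v v') (decide (y ≠ y')) (decide (z ≠ z'))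
      rwa [length_ne e, e] at h2
    | neg u' v' y' z' => exact absurd (congrArg Prod.fst hy) (by simp)
  | neg u v y z =>
    cases h' with
    | cup u' v' y' hy2 => exact absurd (congrArg Prod.fst hy) (by simp)
    | cap u' v' y' => exact absurd (congrArg Prod.fst hy) (by simp)
    | pos u' v' y' z' => exact absurd (congrArg Prod.fst hy) (by simp)
    | neg u' v' y' z' =>
      have e : u.length = u'.length := by
        rw [Prod.mk.injEq] at hy
        exact hy.2
      rw [ne_append e, ne_append e, ne_cons, ne_cons, ne_cons, ne_cons]
      have h2 := Step.neg (ne u u') (ne v v') (decide (y ≠ y')) (decide (z ≠ z'))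
      rwa [length_ne e, e] at h2

theorem br_ne {N : ℕ} {w : Word} {ℓ t : List (List Bool)} {K : List (List (List Bool))}
    (h : BR N w ℓ t K) :
    ∀ {m s : List (List Bool)} {L : List (List (List Bool))}, BR N w m s L →
      ℓ.length = m.length →
      Run w (ne ℓ m :: List.zipWith ne K L) ∧
      (ne ℓ m :: List.zipWith ne K L).getLast? = some (ne t s) ∧
      ((∀ p ∈ List.zipWith ne K L, ∀ y ∈ p, y = false) → K = L) := by
  induction h with
  | nil ℓ =>
    intro m s L h2 hl
    cases h2
    exact ⟨Run.nil _, rfl, fun _ => rfl⟩
  | @cons x w ℓ ℓ' t K hs hr ih =>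
    intro m s L h2 hl
    cases h2 with
    | @cons _ _ _ m' _ L hs2 hr2 =>
      have hl' := bstep_length hs hs2 hl
      obtain ⟨i1, i2, i3⟩ := ih hr2 hl'
      refine ⟨Run.cons (bstep_ne hs hs2 hl) i1, ?_, ?_⟩
      · rw [List.zipWith_cons_cons, ← i2]
        rfl
      · intro h
        rw [List.zipWith_cons_cons] at h
        have h4 := eq_of_ne hl' (h _ List.mem_cons_self)
        rw [h4, i3 fun p hp => h p (List.mem_cons_of_mem _ hp)]

/-! ### Existence -/

theorem ostep_bstep {x : Letter} {ℓ ℓ' : List Bool} (h : OStep x ℓ ℓ') (N : ℕ) :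
    BStep N x (ℓ.map (List.replicate N)) (ℓ'.map (List.replicate N)) := by
  cases h with
  | cup u v y =>
    have h2 := BStep.cup (N := N) (u.map (List.replicate N)) (v.map (List.replicate N))
      (List.replicate N y) (by simp)
    rw [st_replicate, List.length_map] at h2
    simpa using h2
  | cap u v y =>
    have h2 := BStep.cap (N := N) (u.map (List.replicate N)) (v.map (List.replicate N))
      (List.replicate N y)
    rw [st_replicate, List.length_map] at h2
    simpa using h2
  | pos u v y z =>
    have h2 := BStep.pos (N := N) (u.map (List.replicate N)) (v.map (List.replicate N))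
      (List.replicate N y) (List.replicate N z)
    rw [List.length_map] at h2
    simpa using h2
  | neg u v y z =>
    have h2 := BStep.neg (N := N) (u.map (List.replicate N)) (v.map (List.replicate N))
      (List.replicate N y) (List.replicate N z)
    rw [List.length_map] at h2
    simpa using h2

theorem orun_br {w : Word} {ℓ t : List Bool} (h : ORun w ℓ t) (N : ℕ) :
    ∃ K, BR N w (ℓ.map (List.replicate N)) (t.map (List.replicate N)) K := by
  induction h with
  | nil ℓ => exact ⟨[], BR.nil _⟩
  | cons hs _ ih =>
    obtain ⟨K, hK⟩ := ih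
    exact ⟨_, BR.cons (ostep_bstep hs N) hK⟩

theorem orun_len {w : Word} {ℓ t : List Bool} (h : ORun w ℓ t) : Len w ℓ.length t.length := by
  induction h with
  | nil ℓ => exact Len.nil _
  | cons hs _ ih =>
    cases hs with
    | cup u v y =>
      refine Len.cup (by simp) ?_
      have e : (u ++ v).length + 2 = (u ++ y :: (!y) :: v).length := by simp; omega
      rwa [e]
    | cap u v y =>
      have e : (u ++ y :: (!y) :: v).length = (u ++ v).length + 2 := by simp; omega
      rw [e]
      exact Len.cap (by simp) ih
    | pos u v y z =>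
      have e : (u ++ y :: z :: v).length = (u ++ v).length + 2 := by simp; omega
      have e' : (u ++ z :: y :: v).length = (u ++ v).length + 2 := by simp; omega
      rw [e'] at ih
      rw [e]
      exact Len.pos (by simp) ih
    | neg u v y z =>
      have e : (u ++ y :: z :: v).length = (u ++ v).length + 2 := by simp; omega
      have e' : (u ++ z :: y :: v).length = (u ++ v).length + 2 := by simp; omega
      rw [e'] at ih
      rw [e]
      exact Len.neg (by simp) ih

/-! ### The result -/

theorem vplus_eq (M : ℕ) : vplus M = eb (List.replicate M true) := by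
  induction M with
  | zero =>
    funext s
    show vplus 0 s = 1
    unfold vplus
    exact if_pos fun k hk => absurd hk (Nat.not_lt_zero k)
  | succ M ih =>
    funext s
    rw [List.replicate_succ]
    show vplus (M + 1) s = if s 0 = true then eb (List.replicate M true) (stail s) else 0
    rw [← ih]
    unfold vplus
    by_cases h0 : s 0 = true
    · rw [if_pos h0]
      refine if_congr ⟨fun h k hk => h (k + 1) (by omega), fun h k hk => ?_⟩ rfl rfl
      cases k with
      | zero => exact h0
      | succ k => exact h k (by omega)
    · rw [if_neg h0, if_neg]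
      intro h
      exact h0 (h 0 (by omega))

theorem sq_true (M : ℕ) : sq (List.replicate M true) = tt := by
  induction M with
  | zero => rfl
  | succ M ih =>
    rw [List.replicate_succ]
    show scons true (sq (List.replicate M true)) = tt
    rw [ih]
    funext k
    cases k <;> rfl

theorem flatten_true (N n : ℕ) :
    (List.map (List.replicate N) (List.replicate n true)).flatten =
      List.replicate (N * n) true := by
  rw [List.map_replicate]
  induction n with
  | zero => simp
  | succ n ih =>
    rw [List.replicate_succ, List.flatten_cons, ih, List.replicate_append_replicate]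
    congr 1
    ring

theorem top {D : TLData RR} (hD : One D) {n : ℕ} {T : Word}
    (hT : ORun T (List.replicate n true) (List.replicate n true))
    (hone : ∀ K : List (List Bool), Run T K → K.head? = some (List.replicate n false) →
      K.getLast? = some (List.replicate n false) → ∀ ℓ ∈ K, ∀ y ∈ ℓ, y = false) (N : ℕ) :
    D.ev N T (vplus (N * n)) tt = 1 ∨ D.ev N T (vplus (N * n)) tt = -1 := by
  obtain ⟨K, hK⟩ := orun_br hT N
  have hb : ∀ b ∈ List.map (List.replicate N) (List.replicate n true), b.length = N := by
    intro b hb
    obtain ⟨y, -, rfl⟩ := List.mem_map.1 hb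
    simp
  have hl : (List.map (List.replicate N) (List.replicate n true)).length = n := by simp
  have h1 := (main hD N T _ _ hb hb (by
    have h := orun_len hT
    rw [List.length_replicate] at h
    rwa [hl])).2 ⟨K, hK, fun K' hK' => by
      obtain ⟨i1, i2, i3⟩ := br_ne hK' hK rfl
      refine i3 fun p hp y hy => ?_
      rw [ne_self, hl] at i1 i2
      exact hone _ i1 rfl i2 p (List.mem_cons_of_mem _ hp) y hy⟩
  rw [flatten_true, ← vplus_eq, sq_true] at h1
  exact h1

end Pool.Agent.HTW.Ori
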