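import Pool.Agent.HTW.Spec2
import Pool.Agent.HTW.TDefs

/-!
# Planar words and adequate diagrams: definitions for the state sum

`Flat` words have only cups and caps; `flat w` is the all-A state of a word without negative
letters (all crossings are smoothed vertically).
-/

namespace Pool.Agent.HTW

/-- The word has only cups and caps. -/
def Flat (w : Word) : Prop := ∀ x ∈ w, x.1 = Kind.cup ∨ x.1 = Kind.cap

/-- The all-A state of a word without negative letters: the crossings are removed. -/
def flat (w : Word) : Word := w.filter (fun x => x.1 = Kind.cup ∨ x.1 = Kind.cap)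

/-- The labellings of a diagram (constant along the strands) with the same list of `M` labels
at the bottom and at the top. -/
def Lab (M : ℕ) (w : Word) : Set (List (List Bool)) :=
  {K | Run w K ∧ ∃ ℓ : List Bool, ℓ.length = M ∧ K.head? = some ℓ ∧ K.getLast? = some ℓ}

/-- Some labelling of `a ++ b` separates the strands `i` and `i + 1` at the level between `a`
and `b`. -/
def Sep (M : ℕ) (a b : Word) (i : ℕ) : Prop :=
  ∃ (K₁ K₂ : List (List Bool)) (ℓ₀ ℓ : List Bool), ℓ₀.length = M ∧
    Run a K₁ ∧ K₁.head? = some ℓ₀ ∧ K₁.getLast? = some ℓ ∧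
    Run b K₂ ∧ K₂.head? = some ℓ ∧ K₂.getLast? = some ℓ₀ ∧
    ℓ.getD i false ≠ ℓ.getD (i + 1) false

/-- Adequacy for words with `M` strands at the bottom and at the top and without negative
letters: at each crossing, the two strands lie on different circles of the all-A state. -/
def Adq (M : ℕ) (w : Word) : Prop :=
  ∀ (a b : Word) (i : ℕ), w = a ++ (Kind.pos, i) :: b → Sep M (flat a) (flat b) i

/-- The function is a Laurent polynomial. -/
def Laurent (t : ℝ → ℝ) : Prop :=
  ∃ S : List (ℝ × ℤ), ∀ A : ℝ, A ≠ 0 → t A = (S.map (fun s => s.1 * A ^ s.2)).sum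

/-- The value of a circle. -/
noncomputable def TLData.dl {R : Type} [Ring R] [Algebra ℝ R] (D : TLData R) : ℝ :=
  -(D.A ^ 2) - (D.A⁻¹) ^ 2

end Pool.Agent.HTW
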