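import Pool.Agent.HTW.LabMul2

/-!
# The circles of the all-A and of the all-B state (Kauffman's inequality)
-/

namespace Pool.Agent.HTW

/-- The letters of the all-A state. -/
def stL : Letter → Word
  | (.cup, i) => [(.cup, i)]
  | (.cap, i) => [(.cap, i)]
  | (.pos, _) => []
  | (.neg, i) => [(.cap, i), (.cup, i)]

/-- The all-A state. -/
def stA (w : Word) : Word := w.flatMap stL

namespace Pl

open Finset

theorem flat_state (w : Word) : Flat (stA w) := by
  intro x hx
  obtain ⟨y, _, hy⟩ := List.mem_flatMap.1 hx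
  obtain ⟨k, i⟩ := y
  cases k <;> simp [stL] at hy
  · subst hy
    exact Or.inl rfl
  · subst hy
    exact Or.inr rfl
  · rcases hy with rfl | rfl
    · exact Or.inr rfl
    · exact Or.inl rfl

theorem len_state {w : Word} {a b : ℕ} (h : Len w a b) : Len (stA w) a b := by
  induction h with
  | nil a => exact Len.nil a
  | cup hi _ ih => exact Len.cup hi ih
  | cap hi _ ih => exact Len.cap hi ih
  | pos _ _ ih => exact ih
  | neg hi _ ih => exact Len.cap hi (Len.cup hi ih)

theorem len_mir {w : Word} {a b : ℕ} (h : Len w a b) : Len (mirror w) a b := by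
  induction h with
  | nil a => exact Len.nil a
  | cup hi _ ih => exact Len.cup hi ih
  | cap hi _ ih => exact Len.cap hi ih
  | pos hi _ ih => exact Len.neg hi ih
  | neg hi _ ih => exact Len.pos hi ih

theorem act_state {w : Word} {a b : ℕ} (h : Len w a b) (ψ : List Bool → ℕ) :
    ∀ ℓ : List Bool, ℓ.length = a →
      ((act (stA w) ψ ℓ : ℕ) : ℤ) = ga rA w (fun ℓ => (ψ ℓ : ℤ)) ℓ := by
  induction h with
  | nil a =>
    intro ℓ _
    rfl
  | @cup w i a b hi hw ih =>
    intro ℓ hℓ
    show (((∑ y : Bool, act (stA w) ψ (ins i y ℓ)) : ℕ) : ℤ) =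
      ga rA w (fun ℓ => (ψ ℓ : ℤ)) (ins i false ℓ) + ga rA w (fun ℓ => (ψ ℓ : ℤ)) (ins i true ℓ)
    rw [Fintype.sum_bool, Nat.cast_add, ih _ (by rw [length_ins (by omega), hℓ]),
      ih _ (by rw [length_ins (by omega), hℓ]), add_comm]
  | @cap w i a b hi hw ih =>
    intro ℓ hℓ
    have h1 := length_rem2 (i := i) (ℓ := ℓ) (by omega)
    show (((if ℓ[i]? = ℓ[i + 1]? then act (stA w) ψ (rem2 i ℓ) else 0) : ℕ) : ℤ) =
      if ℓ[i]? = ℓ[i + 1]? then ga rA w (fun ℓ => (ψ ℓ : ℤ)) (rem2 i ℓ) else 0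
    split_ifs with h2
    · exact ih _ (by omega)
    · rfl
  | @pos w i a b hi hw ih =>
    intro ℓ hℓ
    obtain ⟨u, v, x, y, hu, rfl⟩ := split2 (i := i) (ℓ := ℓ) (by omega)
    subst hu
    show ((act (stA w) ψ (u ++ x :: y :: v) : ℕ) : ℤ) =
      st rA (Kind.pos, u.length) (ga rA w (fun ℓ => (ψ ℓ : ℤ))) (u ++ x :: y :: v)
    rw [st_cross rA (Or.inl rfl), ih _ hℓ]
    cases x <;> cases y <;> simp [rA]
  | @neg w i a b hi hw ih =>
    intro ℓ hℓ
    obtain ⟨u, v, x, y, hu, rfl⟩ := split2 (i := i) (ℓ := ℓ) (by omega)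
    subst hu
    show ((stp (.cap, u.length) (stp (.cup, u.length) (act (stA w) ψ)) (u ++ x :: y :: v) : ℕ) :
      ℤ) = st rA (Kind.neg, u.length) (ga rA w (fun ℓ => (ψ ℓ : ℤ))) (u ++ x :: y :: v)
    rw [st_cross rA (Or.inr rfl), stp_cap]
    have h3 : ∀ z : Bool, ((act (stA w) ψ (u ++ z :: z :: v) : ℕ) : ℤ) =
        ga rA w (fun ℓ => (ψ ℓ : ℤ)) (u ++ z :: z :: v) := by
      intro z
      refine ih _ ?_
      rw [← hℓ]
      simp
    split_ifs with h4
    · subst h4
      rw [stp_cup, Fintype.sum_bool, Nat.cast_add, h3, h3]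
      cases x <;> simp [rA]
    · cases x <;> cases y <;> simp [rA] at h4 ⊢

theorem ncard_A {w : Word} (hl : Len w 1 1) :
    (Lab 1 (stA w)).ncard = (Cl rA w).card := by
  have h1 : ((Lab 1 (stA w)).ncard : ℤ) = ((Cl rA w).card : ℤ) := by
    rw [ncard_lab (flat_state w) (len_state hl), card_Cl]
    have hBL : BL 1 = {[false], [true]} := by
      ext ℓ
      rw [mem_BL, List.length_eq_one_iff]
      constructor
      · rintro ⟨y, rfl⟩
        cases y <;> simp
      · intro h
        simp only [Finset.mem_insert, Finset.mem_singleton] at h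
        rcases h with rfl | rfl
        · exact ⟨_, rfl⟩
        · exact ⟨_, rfl⟩
    unfold tot trc
    rw [hBL, Finset.sum_pair (by simp), Nat.cast_add, act_state hl _ _ rfl, act_state hl _ _ rfl]
    have h2 : ∀ x : Bool, (fun ℓ => ((ind [x] ℓ : ℕ) : ℤ)) = idl [x] := by
      intro x
      funext ℓ
      simp only [ind, idl]
      split_ifs <;> rfl
    rw [h2, h2]
  exact_mod_cast h1

theorem st_mir (k : Kind) (i : ℕ) (g : List Bool → ℤ) (ℓ : List Bool) :
    st rA (k.mirror, i) g ℓ = st rB (k, i) g ℓ := by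
  cases k <;> rfl

theorem ga_mir (w : Word) (ψ : List Bool → ℤ) : ga rA (mirror w) ψ = ga rB w ψ := by
  induction w with
  | nil => rfl
  | cons x w ih =>
    funext ℓ
    show st rA (x.1.mirror, x.2) (ga rA (mirror w) ψ) ℓ = st rB x (ga rB w ψ) ℓ
    rw [ih]
    exact st_mir x.1 x.2 _ ℓ

theorem ncard_B {w : Word} (hl : Len w 1 1) :
    (Lab 1 (stA (mirror w))).ncard = (Cl rB w).card := by
  rw [ncard_A (len_mir hl)]
  have h1 : ((Cl rA (mirror w)).card : ℤ) = ((Cl rB w).card : ℤ) := by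
    rw [card_Cl, card_Cl]
    unfold trc
    rw [ga_mir, ga_mir]
  exact_mod_cast h1

end Pl

/-- The numbers of circles of the all-A state and of the all-B state of a connected planar
diagram with `c` crossings add up to at most `c + 2`. -/
theorem lab_mul_le {w : Word} (hw : IsKnot w) :
    (Lab 1 (stA w)).ncard * (Lab 1 (stA (mirror w))).ncard ≤ 2 ^ (crossings w + 2) := by
  rw [Pl.ncard_A hw.1.len, Pl.ncard_B hw.1.len]
  exact Pl.main hw

end Pool.Agent.HTW
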