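import Pool.Agent.HTW.BraidDefs

/-!
# The algebra of block crossings

A ring `R` with a shift `S` (adding a strand on the left), a cup `u` and a cap `n`.  The block
crossing `X p q` moves a block of `p` strands across a block of `q` strands on its right.
-/

namespace Pool.Agent.HTW

/-- Algebraic data: `S` adds a strand on the left, `u` is the cup, `n` the cap. -/
structure TLData (R : Type) [Ring R] [Algebra ℝ R] where
  A : ℝ
  hA : A ≠ 0
  S : R →ₐ[ℝ] R
  u : R
  n : R
  nu : n * u = (-(A ^ 2) - (A⁻¹) ^ 2) • (1 : R)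
  Snu : S n * u = 1
  nSu : n * S u = 1
  SSu : ∀ T : R, S (S T) * u = u * T
  nSS : ∀ T : R, n * S (S T) = T * n

variable {R : Type} [Ring R] [Algebra ℝ R]

namespace TLData

variable (D : TLData R)

/-- The mirror data: `A` is replaced by `A⁻¹`, the cup and the cap are the same. -/
noncomputable def mirror : TLData R where
  A := D.A⁻¹
  hA := inv_ne_zero D.hA
  S := D.S
  u := D.u
  n := D.n
  nu := by
    rw [D.nu, inv_inv]
    congr 1
    ring
  Snu := D.Snu
  nSu := D.nSu
  SSu := D.SSu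
  nSS := D.nSS

/-- Shift by `k` strands. -/
noncomputable def sh : ℕ → (R →ₐ[ℝ] R)
  | 0 => AlgHom.id ℝ R
  | k + 1 => D.S.comp (sh k)

/-- The crossing `A + A⁻¹ u n`. -/
noncomputable def sg : R := D.A • (1 : R) + D.A⁻¹ • (D.u * D.n)

/-- One strand crosses `q` strands on its right. -/
noncomputable def X1 : ℕ → R
  | 0 => 1
  | q + 1 => D.sh q D.sg * X1 q

/-- The block of `p` strands crosses the block of `q` strands on its right. -/
noncomputable def X : ℕ → ℕ → R
  | 0, _ => 1
  | p + 1, q => D.X1 q * D.S (X p q)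

/-- `m` nested cups. -/
noncomputable def U : ℕ → R
  | 0 => 1
  | m + 1 => D.sh m D.u * U m

/-- `m` nested caps. -/
noncomputable def N : ℕ → R
  | 0 => 1
  | m + 1 => N m * D.sh m D.n

/-- The full twist of the ribbon with `m` strands. -/
noncomputable def th : ℕ → R
  | 0 => 1
  | m + 1 => (-(D.A ^ 3)) • (D.X m 1 * D.X1 m * D.S (th m))

/-- The eigenvalues of the full twist. -/
noncomputable def mu (j : ℕ) : ℝ := (-1) ^ j * D.A ^ (j ^ 2 + 2 * j)

/-- The value of the `m`-cable of an elementary tangle. -/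
noncomputable def blk (m : ℕ) : Kind → R
  | .cup => D.U m
  | .cap => D.N m
  | .pos => D.X m m
  | .neg => D.mirror.X m m

/-- The value of the `m`-cable of a letter. -/
noncomputable def evL (m : ℕ) (x : Letter) : R := D.sh (m * x.2) (D.blk m x.1)

/-- The value of the `m`-cable of a word (the first letter acts first). -/
noncomputable def ev (m : ℕ) : Word → R
  | [] => 1
  | x :: w => ev m w * D.evL m x

/-- `T` acts on the first `a` strands and turns them into `b` strands. -/
def Loc (a b : ℕ) (T : R) : Prop := ∀ Y : R, T * D.sh a Y = D.sh b Y * T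

/-- `T` acts on the first `a` strands, turns them into `b` strands, and slides through all
crossings (of both signs). -/
structure Nt (a b : ℕ) (T : R) : Prop where
  loc : D.Loc a b T
  right : ∀ p, D.X p b * D.sh p T = T * D.X p a
  left : ∀ q, D.X b q * T = D.sh q T * D.X a q
  right' : ∀ p, D.mirror.X p b * D.sh p T = T * D.mirror.X p a
  left' : ∀ q, D.mirror.X b q * T = D.sh q T * D.mirror.X a q
  tw : D.th b * T = T * D.th a
  tw' : D.mirror.th b * T = T * D.mirror.th a

/-! ### Shifts -/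

@[simp] theorem sh_zero (T : R) : D.sh 0 T = T := rfl

theorem sh_succ (k : ℕ) (T : R) : D.sh (k + 1) T = D.S (D.sh k T) := rfl

theorem sh_succR (k : ℕ) (T : R) : D.sh (k + 1) T = D.sh k (D.S T) := by
  induction k with
  | zero => rfl
  | succ k ih => rw [sh_succ, ih, sh_succ]

theorem sh_one (T : R) : D.sh 1 T = D.S T := rfl

theorem sh_add (a b : ℕ) (T : R) : D.sh (a + b) T = D.sh a (D.sh b T) := by
  induction a with
  | zero => rw [Nat.zero_add, sh_zero]
  | succ a ih => rw [Nat.succ_add, sh_succ, ih, sh_succ]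

theorem mirror_sh (k : ℕ) (T : R) : D.mirror.sh k T = D.sh k T := by
  induction k with
  | zero => rfl
  | succ k ih => rw [sh_succ, ih, sh_succ]; rfl

theorem mirror_mirror : D.mirror.mirror = D := by
  cases D with
  | mk A hA S u n nu Snu nSu SSu nSS =>
    simp only [mirror, inv_inv]

theorem mirror_U (m : ℕ) : D.mirror.U m = D.U m := by
  induction m with
  | zero => rfl
  | succ m ih =>
    show D.mirror.sh m D.u * D.mirror.U m = D.sh m D.u * D.U m
    rw [ih, mirror_sh]

theorem mirror_N (m : ℕ) : D.mirror.N m = D.N m := by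
  induction m with
  | zero => rfl
  | succ m ih =>
    show D.mirror.N m * D.mirror.sh m D.n = D.N m * D.sh m D.n
    rw [ih, mirror_sh]

theorem mirror_loc {a b : ℕ} {T : R} : D.mirror.Loc a b T ↔ D.Loc a b T := by
  unfold Loc
  simp only [mirror_sh]

/-! ### Locality -/

variable {D}

theorem loc_one (a : ℕ) : D.Loc a a 1 := by
  intro Y; rw [one_mul, mul_one]

theorem Loc.mul {a b c : ℕ} {T T' : R} (h' : D.Loc b c T') (h : D.Loc a b T) :
    D.Loc a c (T' * T) := by
  intro Y
  rw [mul_assoc, h Y, ← mul_assoc, h' Y, mul_assoc]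

theorem Loc.add {a b : ℕ} {T T' : R} (h : D.Loc a b T) (h' : D.Loc a b T') :
    D.Loc a b (T + T') := by
  intro Y
  rw [add_mul, mul_add, h Y, h' Y]

theorem Loc.smul {a b : ℕ} {T : R} (h : D.Loc a b T) (c : ℝ) : D.Loc a b (c • T) := by
  intro Y
  rw [smul_mul_assoc, mul_smul_comm, h Y]

theorem Loc.sh {a b : ℕ} {T : R} (h : D.Loc a b T) (k : ℕ) :
    D.Loc (k + a) (k + b) (D.sh k T) := by
  intro Y
  rw [sh_add, ← map_mul, h Y, map_mul, sh_add]

theorem Loc.ext {a b : ℕ} {T : R} (h : D.Loc a b T) (k : ℕ) : D.Loc (a + k) (b + k) T := by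
  intro Y
  rw [sh_add, h (D.sh k Y), sh_add]

theorem Loc.cast {a b a' b' : ℕ} {T : R} (h : D.Loc a b T) (ha : a = a') (hb : b = b') :
    D.Loc a' b' T := by
  subst ha; subst hb; exact h

variable (D)

theorem loc_u : D.Loc 0 2 D.u := fun Y => (D.SSu Y).symm

theorem loc_n : D.Loc 2 0 D.n := fun Y => D.nSS Y

theorem loc_sg : D.Loc 2 2 D.sg :=
  ((loc_one 2).smul _).add ((D.loc_u.mul D.loc_n).smul _)

theorem loc_X1 (q : ℕ) : D.Loc (q + 1) (q + 1) (D.X1 q) := by
  induction q with
  | zero => exact loc_one 1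
  | succ q ih =>
    exact ((D.loc_sg.sh q).cast (by omega) (by omega)).mul (ih.ext 1)

theorem loc_X (p q : ℕ) : D.Loc (p + q) (p + q) (D.X p q) := by
  induction p with
  | zero => exact (loc_one _)
  | succ p ih =>
    have h1 : D.Loc (p + 1 + q) (p + 1 + q) (D.X1 q) :=
      ((D.loc_X1 q).ext p).cast (by omega) (by omega)
    have h2 : D.Loc (p + 1 + q) (p + 1 + q) (D.S (D.X p q)) :=
      (ih.sh 1).cast (by omega) (by omega)
    exact h1.mul h2

/-! ### The crossing -/

theorem ee : D.u * D.n * (D.u * D.n) = (-(D.A ^ 2) - (D.A⁻¹) ^ 2) • (D.u * D.n) := by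
  rw [mul_assoc, ← mul_assoc D.n, D.nu, smul_mul_assoc, one_mul, mul_smul_comm]

theorem mirror_sg : D.mirror.sg = D.A⁻¹ • (1 : R) + D.A • (D.u * D.n) := by
  show (D.A⁻¹) • (1 : R) + (D.A⁻¹)⁻¹ • (D.u * D.n) = _
  rw [inv_inv]

theorem sg_mul_mirror : D.sg * D.mirror.sg = 1 := by
  rw [mirror_sg]
  have hA := D.hA
  have e1 : D.sg * (D.A⁻¹ • (1 : R) + D.A • (D.u * D.n)) =
      (D.A * D.A⁻¹) • (1 : R) + (D.A ^ 2 + (D.A⁻¹) ^ 2 +
        D.A⁻¹ * D.A * (-(D.A ^ 2) - (D.A⁻¹) ^ 2)) • (D.u * D.n) := by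
    unfold sg
    rw [add_mul, mul_add, mul_add]
    simp only [smul_mul_smul_comm, one_mul, mul_one, D.ee, smul_smul]
    module
  rw [e1, mul_inv_cancel₀ hA, inv_mul_cancel₀ hA, one_smul]
  have : D.A ^ 2 + (D.A⁻¹) ^ 2 + 1 * (-(D.A ^ 2) - (D.A⁻¹) ^ 2) = 0 := by ring
  rw [this, zero_smul, add_zero]

theorem mirror_mul_sg : D.mirror.sg * D.sg = 1 := by
  have h := D.mirror.sg_mul_mirror
  rwa [mirror_mirror] at h

theorem sg_u : D.sg * D.u = (-(D.A⁻¹ ^ 3)) • D.u := by
  have hA := D.hA
  have e1 : D.sg * D.u = (D.A + D.A⁻¹ * (-(D.A ^ 2) - (D.A⁻¹) ^ 2)) • D.u := by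
    unfold sg
    rw [add_mul, smul_mul_assoc, smul_mul_assoc, one_mul, mul_assoc, D.nu, mul_smul_comm,
      mul_one]
    module
  rw [e1]
  congr 1
  field_simp
  ring

theorem n_sg : D.n * D.sg = (-(D.A⁻¹ ^ 3)) • D.n := by
  have hA := D.hA
  have e1 : D.n * D.sg = (D.A + D.A⁻¹ * (-(D.A ^ 2) - (D.A⁻¹) ^ 2)) • D.n := by
    unfold sg
    rw [mul_add, mul_smul_comm, mul_smul_comm, mul_one, ← mul_assoc, D.nu, smul_mul_assoc,
      one_mul]
    module
  rw [e1]
  congr 1
  field_simp
  ring

theorem S_sg : D.S D.sg = D.A • (1 : R) + D.A⁻¹ • (D.S D.u * D.S D.n) := by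
  unfold sg
  rw [map_add, map_smul, map_smul, map_one, map_mul]

/-- A strand slides under or over a cup, from the left. -/
theorem b1 : D.S D.sg * D.sg * D.S D.u = D.u := by
  have hA := D.hA
  have e1 : D.sg * D.S D.u = D.A • D.S D.u + D.A⁻¹ • D.u := by
    unfold sg
    rw [add_mul, smul_mul_assoc, smul_mul_assoc, one_mul, mul_assoc, D.nSu, mul_one]
  have e2 : D.S D.n * D.S D.u = (-(D.A ^ 2) - (D.A⁻¹) ^ 2) • (1 : R) := by
    rw [← map_mul, D.nu, map_smul, map_one]
  rw [mul_assoc, e1, S_sg]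
  have e3 : (D.A • (1 : R) + D.A⁻¹ • (D.S D.u * D.S D.n)) * (D.A • D.S D.u + D.A⁻¹ • D.u) =
      (D.A ^ 2 + D.A⁻¹ * D.A * (-(D.A ^ 2) - (D.A⁻¹) ^ 2) + (D.A⁻¹) ^ 2) • D.S D.u +
        (D.A * D.A⁻¹) • D.u := by
    simp only [add_mul, mul_add, smul_mul_assoc, mul_smul_comm, one_mul, mul_assoc, e2, D.Snu,
      mul_one, smul_smul, smul_add]
    module
  rw [e3, mul_inv_cancel₀ hA, inv_mul_cancel₀ hA, one_smul]
  have : D.A ^ 2 + 1 * (-(D.A ^ 2) - (D.A⁻¹) ^ 2) + (D.A⁻¹) ^ 2 = 0 := by ring
  rw [this, zero_smul, zero_add]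

theorem b2 : D.n * D.S D.sg * D.sg = D.S D.n := by
  have hA := D.hA
  have e1 : D.n * D.S D.sg = D.A • D.n + D.A⁻¹ • D.S D.n := by
    rw [S_sg, mul_add, mul_smul_comm, mul_smul_comm, mul_one, ← mul_assoc, D.nSu, one_mul]
  rw [e1]
  have e3 : (D.A • D.n + D.A⁻¹ • D.S D.n) * D.sg =
      (D.A ^ 2 + D.A * D.A⁻¹ * (-(D.A ^ 2) - (D.A⁻¹) ^ 2) + (D.A⁻¹) ^ 2) • D.n +
        (D.A⁻¹ * D.A) • D.S D.n := by
    unfold sg
    simp only [add_mul, mul_add, smul_mul_assoc, mul_smul_comm, mul_one, ← mul_assoc, D.nu,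
      D.Snu, one_mul, smul_smul, smul_add]
    module
  rw [e3, mul_inv_cancel₀ hA, inv_mul_cancel₀ hA, one_smul]
  have : D.A ^ 2 + 1 * (-(D.A ^ 2) - (D.A⁻¹) ^ 2) + (D.A⁻¹) ^ 2 = 0 := by ring
  rw [this, zero_smul, zero_add]

theorem b3 : D.sg * D.S D.sg * D.u = D.S D.u := by
  have hA := D.hA
  have e1 : D.S D.sg * D.u = D.A • D.u + D.A⁻¹ • D.S D.u := by
    rw [S_sg, add_mul, smul_mul_assoc, smul_mul_assoc, one_mul, mul_assoc, D.Snu, mul_one]
  rw [mul_assoc, e1]
  have e3 : D.sg * (D.A • D.u + D.A⁻¹ • D.S D.u) =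
      (D.A ^ 2 + D.A⁻¹ * D.A * (-(D.A ^ 2) - (D.A⁻¹) ^ 2) + (D.A⁻¹) ^ 2) • D.u +
        (D.A * D.A⁻¹) • D.S D.u := by
    unfold sg
    simp only [add_mul, mul_add, smul_mul_assoc, mul_smul_comm, one_mul, mul_assoc, D.nu,
      D.nSu, mul_one, smul_smul, smul_add]
    module
  rw [e3, mul_inv_cancel₀ hA, inv_mul_cancel₀ hA, one_smul]
  have : D.A ^ 2 + 1 * (-(D.A ^ 2) - (D.A⁻¹) ^ 2) + (D.A⁻¹) ^ 2 = 0 := by ring
  rw [this, zero_smul, zero_add]

theorem b4 : D.S D.n * D.sg * D.S D.sg = D.n := by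
  have hA := D.hA
  have e1 : D.S D.n * D.sg = D.A • D.S D.n + D.A⁻¹ • D.n := by
    unfold sg
    rw [mul_add, mul_smul_comm, mul_smul_comm, mul_one, ← mul_assoc, D.Snu, one_mul]
  have e2 : D.S D.n * D.S D.u = (-(D.A ^ 2) - (D.A⁻¹) ^ 2) • (1 : R) := by
    rw [← map_mul, D.nu, map_smul, map_one]
  rw [e1, S_sg]
  have e3 : (D.A • D.S D.n + D.A⁻¹ • D.n) * (D.A • (1 : R) + D.A⁻¹ • (D.S D.u * D.S D.n)) =
      (D.A ^ 2 + D.A * D.A⁻¹ * (-(D.A ^ 2) - (D.A⁻¹) ^ 2) + (D.A⁻¹) ^ 2) • D.S D.n +
        (D.A⁻¹ * D.A) • D.n := by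
    simp only [add_mul, mul_add, smul_mul_assoc, mul_smul_comm, mul_one, ← mul_assoc, e2,
      D.nSu, one_mul, smul_smul, smul_add]
    module
  rw [e3, mul_inv_cancel₀ hA, inv_mul_cancel₀ hA, one_smul]
  have : D.A ^ 2 + 1 * (-(D.A ^ 2) - (D.A⁻¹) ^ 2) + (D.A⁻¹) ^ 2 = 0 := by ring
  rw [this, zero_smul, zero_add]

/-! ### Block crossings -/

@[simp] theorem X_zero_left (q : ℕ) : D.X 0 q = 1 := rfl

theorem X_succ (p q : ℕ) : D.X (p + 1) q = D.X1 q * D.S (D.X p q) := rfl

theorem X_zero_right (p : ℕ) : D.X p 0 = 1 := by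
  induction p with
  | zero => rfl
  | succ p ih => rw [X_succ, ih, map_one, mul_one]; rfl

theorem X_one_left (q : ℕ) : D.X 1 q = D.X1 q := by
  rw [X_succ, X_zero_left, map_one, mul_one]

theorem X1_succ (q : ℕ) : D.X1 (q + 1) = D.sh q D.sg * D.X1 q := rfl

theorem X1_one : D.X1 1 = D.sg := by
  show D.sh 0 D.sg * 1 = _
  rw [mul_one, sh_zero]

theorem X1_add (q r : ℕ) : D.X1 (q + r) = D.sh q (D.X1 r) * D.X1 q := by
  induction r with
  | zero => show D.X1 q = D.sh q 1 * D.X1 q; rw [map_one, one_mul]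
  | succ r ih =>
    rw [← add_assoc, X1_succ, ih, X1_succ, map_mul, sh_add, mul_assoc]

theorem X_add_left (p q r : ℕ) : D.X (p + q) r = D.X p r * D.sh p (D.X q r) := by
  induction p with
  | zero => rw [Nat.zero_add, X_zero_left, one_mul, sh_zero]
  | succ p ih =>
    rw [show p + 1 + q = (p + q) + 1 by omega, X_succ, ih, map_mul, X_succ, sh_succ, mul_assoc]

theorem X1_sh (q : ℕ) (T : R) : D.X1 q * D.sh (q + 1) T = D.sh (q + 1) T * D.X1 q :=
  D.loc_X1 q T

theorem X_add_right (p q r : ℕ) : D.X p (q + r) = D.sh q (D.X p r) * D.X p q := by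
  induction p with
  | zero => rw [X_zero_left, X_zero_left, X_zero_left, map_one, one_mul]
  | succ p ih =>
    rw [X_succ, X1_add, ih, map_mul, X_succ, X_succ, map_mul, ← sh_succ, ← sh_succR]
    rw [mul_assoc, ← mul_assoc (D.X1 q), X1_sh]
    simp only [mul_assoc]

theorem X_one_right_succ (p : ℕ) : D.X (p + 1) 1 = D.sg * D.S (D.X p 1) := by
  rw [X_succ, X1_one]

theorem X_sh (p q : ℕ) (T : R) : D.X p q * D.sh (p + q) T = D.sh (p + q) T * D.X p q :=
  D.loc_X p q T

theorem X1_mul_mirror (q : ℕ) : D.X q 1 * D.mirror.X1 q = 1 := by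
  induction q with
  | zero => show (1 : R) * 1 = 1; rw [mul_one]
  | succ q ih =>
    have h : D.mirror.X1 (q + 1) = D.S (D.mirror.X1 q) * D.mirror.sg := by
      rw [add_comm, X1_add, X1_one, sh_one]; rfl
    rw [X_one_right_succ, h, mul_assoc, ← mul_assoc (D.S _), ← map_mul, ih, map_one, one_mul,
      sg_mul_mirror]

theorem X_mirror_X (p q : ℕ) : D.X q p * D.mirror.X p q = 1 := by
  induction p with
  | zero => rw [X_zero_right, X_zero_left, mul_one]
  | succ p ih =>
    rw [add_comm p 1, X_add_right, sh_one, add_comm 1 p, X_succ]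
    rw [mul_assoc, ← mul_assoc (D.X q 1), X1_mul_mirror, one_mul]
    show D.S (D.X q p) * D.S (D.mirror.X p q) = 1
    rw [← map_mul, ih, map_one]

theorem mirror_X_X (p q : ℕ) : D.mirror.X q p * D.X p q = 1 := by
  have h := D.mirror.X_mirror_X p q
  rwa [mirror_mirror] at h

/-! ### Naturality (without the twist) -/

/-- `T` slides through the crossings. -/
structure Nt0 (a b : ℕ) (T : R) : Prop where
  loc : D.Loc a b T
  right : ∀ p, D.X p b * D.sh p T = T * D.X p a
  left : ∀ q, D.X b q * T = D.sh q T * D.X a q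

variable {D}

theorem Nt0.cast {a b a' b' : ℕ} {T : R} (h : D.Nt0 a b T) (ha : a = a') (hb : b = b') :
    D.Nt0 a' b' T := by
  subst ha; subst hb; exact h

theorem Nt0.mul {a b c : ℕ} {T T' : R} (h' : D.Nt0 b c T') (h : D.Nt0 a b T) :
    D.Nt0 a c (T' * T) where
  loc := h'.loc.mul h.loc
  right p := by
    rw [map_mul, ← mul_assoc, h'.right, mul_assoc, h.right, mul_assoc]
  left q := by
    rw [← mul_assoc, h'.left, mul_assoc, h.left, map_mul, mul_assoc]

theorem Nt0.add {a b : ℕ} {T T' : R} (h : D.Nt0 a b T) (h' : D.Nt0 a b T') :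
    D.Nt0 a b (T + T') where
  loc := h.loc.add h'.loc
  right p := by rw [map_add, mul_add, h.right, h'.right, add_mul]
  left q := by rw [map_add, mul_add, h.left, h'.left, add_mul]

theorem Nt0.smul {a b : ℕ} {T : R} (h : D.Nt0 a b T) (c : ℝ) : D.Nt0 a b (c • T) where
  loc := h.loc.smul c
  right p := by rw [map_smul, mul_smul_comm, h.right, smul_mul_assoc]
  left q := by rw [map_smul, mul_smul_comm, h.left, smul_mul_assoc]

theorem nt0_one (a : ℕ) : D.Nt0 a a 1 where
  loc := loc_one a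
  right p := by rw [map_one, mul_one, one_mul]
  left q := by rw [map_one, mul_one, one_mul]

theorem Nt0.sh {a b : ℕ} {T : R} (h : D.Nt0 a b T) (k : ℕ) :
    D.Nt0 (k + a) (k + b) (D.sh k T) where
  loc := h.loc.sh k
  right p := by
    calc D.X p (k + b) * D.sh p (D.sh k T)
        = D.sh k (D.X p b) * (D.X p k * D.sh (p + k) T) := by
          rw [X_add_right, sh_add, mul_assoc]
      _ = D.sh k (D.X p b) * (D.sh (k + p) T * D.X p k) := by rw [X_sh, add_comm p k]
      _ = D.sh k (D.X p b * D.sh p T) * D.X p k := by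
          rw [sh_add, map_mul, mul_assoc]
      _ = D.sh k T * D.X p (k + a) := by
          rw [h.right, map_mul, X_add_right, mul_assoc]
  left q := by
    calc D.X (k + b) q * D.sh k T
        = D.X k q * (D.sh k (D.X b q) * D.sh k T) := by rw [X_add_left, mul_assoc]
      _ = D.X k q * (D.sh (k + q) T * D.sh k (D.X a q)) := by
          rw [← map_mul, h.left, map_mul, sh_add]
      _ = D.sh (q + k) T * (D.X k q * D.sh k (D.X a q)) := by
          rw [← mul_assoc, X_sh, mul_assoc, add_comm k q]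
      _ = D.sh q (D.sh k T) * D.X (k + a) q := by rw [sh_add, X_add_left]

theorem Nt0.ext {a b : ℕ} {T : R} (h : D.Nt0 a b T) (k : ℕ) : D.Nt0 (a + k) (b + k) T where
  loc := h.loc.ext k
  right p := by
    rw [X_add_right, X_add_right, mul_assoc, h.right, ← mul_assoc, ← h.loc, mul_assoc]
  left q := by
    rw [X_add_left, X_add_left, mul_assoc, ← h.loc, ← mul_assoc, h.left, mul_assoc]

variable (D)

theorem nt0_u : D.Nt0 0 2 D.u where
  loc := D.loc_u
  right p := by
    rw [X_zero_right, mul_one]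
    induction p with
    | zero => rw [X_zero_left, one_mul, sh_zero]
    | succ p ih =>
      rw [X_succ, sh_succ, mul_assoc, ← map_mul, ih]
      show D.sh 1 D.sg * D.X1 1 * D.S D.u = D.u
      rw [X1_one, sh_one, b1]
  left q := by
    rw [X_zero_left, mul_one]
    rw [X_succ, X_one_left]
    induction q with
    | zero => show (1 : R) * D.S 1 * D.u = D.u; rw [map_one, one_mul, one_mul]
    | succ q ih =>
      calc D.X1 (q + 1) * D.S (D.X1 (q + 1)) * D.u
          = D.sh q D.sg * (D.X1 q * D.sh (q + 1) D.sg) * D.S (D.X1 q) * D.u := by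
            rw [X1_succ, map_mul, ← sh_succ]; simp only [mul_assoc]
        _ = D.sh q D.sg * D.sh (q + 1) D.sg * (D.X1 q * D.S (D.X1 q) * D.u) := by
            rw [X1_sh]; simp only [mul_assoc]
        _ = D.sh q (D.sg * D.S D.sg * D.u) := by
            rw [ih, sh_succR, ← map_mul, ← map_mul]
        _ = D.sh (q + 1) D.u := by rw [b3, sh_succR]

theorem nt0_n : D.Nt0 2 0 D.n where
  loc := D.loc_n
  right p := by
    rw [X_zero_right, one_mul]
    induction p with
    | zero => rw [X_zero_left, mul_one, sh_zero]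
    | succ p ih =>
      have h : D.X1 2 = D.S D.sg * D.sg := by
        show D.sh 1 D.sg * D.X1 1 = _
        rw [X1_one, sh_one]
      rw [X_succ, sh_succ, h, ih, map_mul, ← mul_assoc, ← mul_assoc, b2]
  left q := by
    rw [X_zero_left, one_mul]
    rw [X_succ, X_one_left]
    induction q with
    | zero => show D.n = D.n * ((1 : R) * D.S 1); rw [map_one, one_mul, mul_one]
    | succ q ih =>
      symm
      calc D.sh (q + 1) D.n * (D.X1 (q + 1) * D.S (D.X1 (q + 1)))
          = D.sh (q + 1) D.n * (D.sh q D.sg * (D.X1 q * D.sh (q + 1) D.sg) *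
              D.S (D.X1 q)) := by
            rw [X1_succ, map_mul, ← sh_succ]; simp only [mul_assoc]
        _ = D.sh q (D.S D.n * D.sg * D.S D.sg) * (D.X1 q * D.S (D.X1 q)) := by
            rw [X1_sh, sh_succR, sh_succR, map_mul, map_mul]; simp only [mul_assoc]
        _ = D.n := by rw [b4, ← ih]

theorem nt0_sg : D.Nt0 2 2 D.sg :=
  ((nt0_one 2).smul _).add ((D.nt0_u.mul D.nt0_n).smul _)

theorem mirror_nt0_u : D.mirror.Nt0 0 2 D.u := D.mirror.nt0_u

theorem mirror_nt0_n : D.mirror.Nt0 2 0 D.n := D.mirror.nt0_n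

theorem nt0_X1 (q : ℕ) : D.Nt0 (q + 1) (q + 1) (D.X1 q) := by
  induction q with
  | zero => exact nt0_one 1
  | succ q ih =>
    exact ((D.nt0_sg.sh q).cast (by omega) (by omega)).mul (ih.ext 1)

theorem nt0_X (p q : ℕ) : D.Nt0 (p + q) (p + q) (D.X p q) := by
  induction p with
  | zero => exact nt0_one _
  | succ p ih =>
    have h1 : D.Nt0 (p + 1 + q) (p + 1 + q) (D.X1 q) :=
      ((D.nt0_X1 q).ext p).cast (by omega) (by omega)
    have h2 : D.Nt0 (p + 1 + q) (p + 1 + q) (D.S (D.X p q)) :=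
      (ih.sh 1).cast (by omega) (by omega)
    exact h1.mul h2

theorem nt0_U (m : ℕ) : D.Nt0 0 (2 * m) (D.U m) := by
  induction m with
  | zero => exact nt0_one _
  | succ m ih =>
    exact (((D.nt0_u.sh m).ext m).cast (by omega) (by omega)).mul ih

theorem nt0_N (m : ℕ) : D.Nt0 (2 * m) 0 (D.N m) := by
  induction m with
  | zero => exact nt0_one _
  | succ m ih =>
    exact ih.mul (((D.nt0_n.sh m).ext m).cast (by omega) (by omega))

theorem nt0_th (m : ℕ) : D.Nt0 m m (D.th m) := by
  induction m with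
  | zero => exact nt0_one _
  | succ m ih =>
    exact (((D.nt0_X m 1).mul (D.nt0_X1 m)).mul ((ih.sh 1).cast (by omega) (by omega))).smul _

/-! ### The twist of two blocks -/

theorem th_succ (m : ℕ) :
    D.th (m + 1) = (-(D.A ^ 3)) • (D.X m 1 * D.X1 m * D.S (D.th m)) := rfl

theorem th_one_smul : D.th 1 = (-(D.A ^ 3)) • (1 : R) := by
  rw [th_succ]
  show (-(D.A ^ 3)) • ((1 : R) * 1 * D.S 1) = _
  rw [map_one, mul_one, mul_one]

/-- The twist of two blocks. -/
theorem th_add (p q : ℕ) :
    D.th (p + q) = D.X q p * D.X p q * D.th p * D.sh p (D.th q) := by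
  induction p with
  | zero => 
    show D.th (0 + q) = D.X q 0 * 1 * 1 * D.th q
    rw [Nat.zero_add, X_zero_right, one_mul, one_mul, one_mul]
  | succ p ih =>
    -- Y encircles a strand
    have hY : D.Nt0 (1 + q) (1 + q) (D.X q 1 * D.X 1 q) :=
      ((D.nt0_X q 1).cast (by omega) (by omega)).mul (D.nt0_X 1 q)
    have hZ : D.Nt0 (p + q) (p + q) (D.X q p * D.X p q) :=
      ((D.nt0_X q p).cast (by omega) (by omega)).mul (D.nt0_X p q)
    have key : D.X (p + q) 1 * D.X 1 (p + q) * D.S (D.X q p * D.X p q) =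
        D.X q (p + 1) * D.X (p + 1) q * (D.X p 1 * D.X 1 p) := by
      have e1 : D.X (p + q) 1 * D.X 1 (p + q) * D.S (D.X q p * D.X p q) =
          D.S (D.X q p * D.X p q) * (D.X (p + q) 1 * D.X 1 (p + q)) := by
        have r := hZ.right 1
        have l := hZ.left 1
        rw [sh_one] at r l
        rw [mul_assoc, r, ← mul_assoc, l, mul_assoc]
      have e2 : D.X (p + q) 1 * D.X 1 (p + q) =
          D.X p 1 * D.sh p (D.X q 1 * D.X 1 q) * D.X 1 p := by
        rw [X_add_left, X_add_right, map_mul]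
        simp only [mul_assoc]
      have e3 : D.X q (p + 1) = D.S (D.X q p) * D.X q 1 := by
        rw [add_comm p 1, X_add_right, sh_one]
      have e4 : D.X (p + 1) q = D.X 1 q * D.S (D.X p q) := by
        rw [X_succ, X_one_left]
      have e5 : D.S (D.X p q) * D.X p 1 = D.X p (1 + q) := by
        rw [X_add_right, sh_one]
      have e6 := hY.right p
      calc D.X (p + q) 1 * D.X 1 (p + q) * D.S (D.X q p * D.X p q)
          = D.S (D.X q p) * ((D.S (D.X p q) * D.X p 1) * D.sh p (D.X q 1 * D.X 1 q)) *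
              D.X 1 p := by
            rw [e1, e2, map_mul]; simp only [mul_assoc]
        _ = D.S (D.X q p) * (D.X q 1 * D.X 1 q * (D.S (D.X p q) * D.X p 1)) * D.X 1 p := by
            rw [e5, e6]
        _ = D.X q (p + 1) * D.X (p + 1) q * (D.X p 1 * D.X 1 p) := by
            rw [e3, e4]; simp only [mul_assoc]
    rw [show p + 1 + q = (p + q) + 1 by omega, th_succ, ← X_one_left, ih, th_succ,
      ← X_one_left]
    rw [show D.X q p * D.X p q * D.th p * (D.sh p) (D.th q) =
      (D.X q p * D.X p q) * (D.th p * (D.sh p) (D.th q)) by simp only [mul_assoc]]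
    rw [map_mul, ← mul_assoc, key, map_mul, ← sh_succ]
    rw [mul_smul_comm, smul_mul_assoc]
    simp only [mul_assoc]

/-! ### Naturality -/

theorem mirror_nt0 {a b : ℕ} {T : R} (loc : D.Loc a b T)
    (right' : ∀ p, D.mirror.X p b * D.sh p T = T * D.mirror.X p a)
    (left' : ∀ q, D.mirror.X b q * T = D.sh q T * D.mirror.X a q) : D.mirror.Nt0 a b T where
  loc := D.mirror_loc.2 loc
  right p := by rw [mirror_sh]; exact right' p
  left q := by rw [mirror_sh]; exact left' q

variable {D}

theorem Nt.nt0 {a b : ℕ} {T : R} (h : D.Nt a b T) : D.Nt0 a b T := ⟨h.loc, h.right, h.left⟩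

theorem Nt.nt0' {a b : ℕ} {T : R} (h : D.Nt a b T) : D.mirror.Nt0 a b T :=
  D.mirror_nt0 h.loc h.right' h.left'

theorem Nt.of {a b : ℕ} {T : R} (h : D.Nt0 a b T) (h' : D.mirror.Nt0 a b T)
    (tw : D.th b * T = T * D.th a) (tw' : D.mirror.th b * T = T * D.mirror.th a) :
    D.Nt a b T where
  loc := h.loc
  right := h.right
  left := h.left
  right' p := by have := h'.right p; rwa [mirror_sh] at this
  left' q := by have := h'.left q; rwa [mirror_sh] at this
  tw := tw
  tw' := tw'

theorem Nt.cast {a b a' b' : ℕ} {T : R} (h : D.Nt a b T) (ha : a = a') (hb : b = b') :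
    D.Nt a' b' T := by
  subst ha; subst hb; exact h

theorem nt_one (a : ℕ) : D.Nt a a 1 :=
  Nt.of (nt0_one a) (nt0_one a) (by rw [mul_one, one_mul]) (by rw [mul_one, one_mul])

theorem Nt.mul {a b c : ℕ} {T T' : R} (h' : D.Nt b c T') (h : D.Nt a b T) :
    D.Nt a c (T' * T) :=
  Nt.of (h'.nt0.mul h.nt0) (h'.nt0'.mul h.nt0')
    (by rw [← mul_assoc, h'.tw, mul_assoc, h.tw, mul_assoc])
    (by rw [← mul_assoc, h'.tw', mul_assoc, h.tw', mul_assoc])

theorem Nt.add {a b : ℕ} {T T' : R} (h : D.Nt a b T) (h' : D.Nt a b T') :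
    D.Nt a b (T + T') :=
  Nt.of (h.nt0.add h'.nt0) (h.nt0'.add h'.nt0')
    (by rw [mul_add, h.tw, h'.tw, add_mul])
    (by rw [mul_add, h.tw', h'.tw', add_mul])

theorem Nt.smul {a b : ℕ} {T : R} (h : D.Nt a b T) (c : ℝ) : D.Nt a b (c • T) :=
  Nt.of (h.nt0.smul c) (h.nt0'.smul c)
    (by rw [mul_smul_comm, h.tw, smul_mul_assoc])
    (by rw [mul_smul_comm, h.tw', smul_mul_assoc])

theorem tw_sh {a b : ℕ} {T : R} (h : D.Nt0 a b T) (tw : D.th b * T = T * D.th a) (k : ℕ) :
    D.th (k + b) * D.sh k T = D.sh k T * D.th (k + a) := by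
  have hk := (D.nt0_th k).loc T
  have r := h.right k
  have l := h.left k
  calc D.th (k + b) * D.sh k T
      = D.X b k * D.X k b * D.th k * D.sh k (D.th b * T) := by
        rw [th_add, map_mul]; simp only [mul_assoc]
    _ = D.X b k * D.X k b * (D.th k * D.sh k T) * D.sh k (D.th a) := by
        rw [tw, map_mul]; simp only [mul_assoc]
    _ = D.X b k * (D.X k b * D.sh k T) * D.th k * D.sh k (D.th a) := by
        rw [hk]; simp only [mul_assoc]
    _ = (D.X b k * T) * D.X k a * D.th k * D.sh k (D.th a) := by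
        rw [r]; simp only [mul_assoc]
    _ = D.sh k T * D.th (k + a) := by
        rw [l, th_add]; simp only [mul_assoc]

theorem tw_ext {a b : ℕ} {T : R} (h : D.Nt0 a b T) (tw : D.th b * T = T * D.th a) (k : ℕ) :
    D.th (b + k) * T = T * D.th (a + k) := by
  have hl := h.loc (D.th k)
  have r := h.right k
  have l := h.left k
  calc D.th (b + k) * T
      = D.X k b * D.X b k * D.th b * (D.sh b (D.th k) * T) := by
        rw [th_add]; simp only [mul_assoc]
    _ = D.X k b * D.X b k * (D.th b * T) * D.sh a (D.th k) := by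
        rw [← hl]; simp only [mul_assoc]
    _ = D.X k b * (D.X b k * T) * D.th a * D.sh a (D.th k) := by
        rw [tw]; simp only [mul_assoc]
    _ = (D.X k b * D.sh k T) * D.X a k * D.th a * D.sh a (D.th k) := by
        rw [l]; simp only [mul_assoc]
    _ = T * D.th (a + k) := by
        rw [r, th_add]; simp only [mul_assoc]

theorem Nt.sh {a b : ℕ} {T : R} (h : D.Nt a b T) (k : ℕ) :
    D.Nt (k + a) (k + b) (D.sh k T) := by
  refine Nt.of (h.nt0.sh k) ?_ (tw_sh h.nt0 h.tw k) ?_
  · have := h.nt0'.sh k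
    rwa [mirror_sh] at this
  · have := tw_sh h.nt0' h.tw' k
    rwa [mirror_sh] at this

theorem Nt.ext {a b : ℕ} {T : R} (h : D.Nt a b T) (k : ℕ) : D.Nt (a + k) (b + k) T :=
  Nt.of (h.nt0.ext k) (h.nt0'.ext k) (tw_ext h.nt0 h.tw k) (tw_ext h.nt0' h.tw' k)

theorem Nt.mirror {a b : ℕ} {T : R} (h : D.Nt a b T) : D.mirror.Nt a b T := by
  refine Nt.of h.nt0' ?_ h.tw' ?_
  · rw [mirror_mirror]; exact h.nt0
  · rw [mirror_mirror]; exact h.tw

variable (D)

theorem th_two : D.th 2 = (D.A ^ 6) • (D.sg * D.sg) := by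
  rw [th_succ, th_one_smul, ← X_one_left, X_succ, X_zero_left, X1_one, map_one, mul_one, map_smul,
    map_one, mul_smul_comm, mul_one, smul_smul]
  congr 1
  ring

theorem tw_u : D.th 2 * D.u = D.u * D.th 0 := by
  have hA := D.hA
  rw [th_two, smul_mul_assoc, mul_assoc, sg_u, mul_smul_comm, sg_u, smul_smul, smul_smul]
  show _ = D.u * 1
  rw [mul_one]
  have : D.A ^ 6 * -(D.A⁻¹ ^ 3) * -(D.A⁻¹ ^ 3) = 1 := by
    field_simp
  rw [this, one_smul]

theorem tw_n : D.th 0 * D.n = D.n * D.th 2 := by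
  have hA := D.hA
  rw [th_two, mul_smul_comm, ← mul_assoc, n_sg, smul_mul_assoc, n_sg, smul_smul, smul_smul]
  show 1 * D.n = _
  rw [one_mul]
  have : D.A ^ 6 * -(D.A⁻¹ ^ 3) * -(D.A⁻¹ ^ 3) = 1 := by
    field_simp
  rw [this, one_smul]

theorem nt_u : D.Nt 0 2 D.u := Nt.of D.nt0_u D.mirror.nt0_u D.tw_u D.mirror.tw_u

theorem nt_n : D.Nt 2 0 D.n := Nt.of D.nt0_n D.mirror.nt0_n D.tw_n D.mirror.tw_n

theorem nt_sg : D.Nt 2 2 D.sg :=
  ((nt_one 2).smul _).add ((D.nt_u.mul D.nt_n).smul _)

theorem nt_X1 (q : ℕ) : D.Nt (q + 1) (q + 1) (D.X1 q) := by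
  induction q with
  | zero => exact nt_one 1
  | succ q ih =>
    exact ((D.nt_sg.sh q).cast (by omega) (by omega)).mul (ih.ext 1)

theorem nt_X' (p q : ℕ) : D.Nt (p + q) (p + q) (D.X p q) := by
  induction p with
  | zero => exact nt_one _
  | succ p ih =>
    have h1 : D.Nt (p + 1 + q) (p + 1 + q) (D.X1 q) :=
      ((D.nt_X1 q).ext p).cast (by omega) (by omega)
    have h2 : D.Nt (p + 1 + q) (p + 1 + q) (D.S (D.X p q)) :=
      (ih.sh 1).cast (by omega) (by omega)
    exact h1.mul h2

theorem nt_X (p q : ℕ) : D.Nt (p + q) (q + p) (D.X p q) := (D.nt_X' p q).cast rfl (by omega)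

theorem nt_U (m : ℕ) : D.Nt 0 (2 * m) (D.U m) := by
  induction m with
  | zero => exact nt_one _
  | succ m ih =>
    exact (((D.nt_u.sh m).ext m).cast (by omega) (by omega)).mul ih

theorem nt_N (m : ℕ) : D.Nt (2 * m) 0 (D.N m) := by
  induction m with
  | zero => exact nt_one _
  | succ m ih =>
    exact ih.mul (((D.nt_n.sh m).ext m).cast (by omega) (by omega))

theorem nt_th (m : ℕ) : D.Nt m m (D.th m) := by
  induction m with
  | zero => exact nt_one _
  | succ m ih =>
    exact (((D.nt_X' m 1).mul (D.nt_X1 m)).mul ((ih.sh 1).cast (by omega) (by omega))).smul _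

theorem U_add (p q : ℕ) : D.U (p + q) = D.sh p (D.U q) * D.U p := by
  induction q with
  | zero => show D.U p = D.sh p 1 * D.U p; rw [map_one, one_mul]
  | succ q ih =>
    show D.sh (p + q) D.u * D.U (p + q) = D.sh p (D.sh q D.u * D.U q) * D.U p
    rw [ih, map_mul, sh_add, mul_assoc]

theorem N_add (p q : ℕ) : D.N (p + q) = D.N p * D.sh p (D.N q) := by
  induction q with
  | zero => show D.N p = D.N p * D.sh p 1; rw [map_one, mul_one]
  | succ q ih =>
    show D.N (p + q) * D.sh (p + q) D.n = D.N p * D.sh p (D.N q * D.sh q D.n)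
    rw [ih, map_mul, sh_add, mul_assoc]

theorem U_succ (m : ℕ) : D.U (m + 1) = D.sh m D.u * D.U m := rfl

theorem N_succ (m : ℕ) : D.N (m + 1) = D.N m * D.sh m D.n := rfl

theorem U_one : D.U 1 = D.u := by
  show D.sh 0 D.u * 1 = D.u
  rw [mul_one, sh_zero]

theorem N_one : D.N 1 = D.n := by
  show 1 * D.sh 0 D.n = D.n
  rw [one_mul, sh_zero]

theorem U_succ' (m : ℕ) : D.U (m + 1) = D.S (D.U m) * D.u := by
  rw [add_comm, U_add, sh_one, U_one]

theorem N_succ' (m : ℕ) : D.N (m + 1) = D.n * D.S (D.N m) := by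
  rw [add_comm, N_add, sh_one, N_one]

theorem th_mirror (m : ℕ) : D.th m * D.mirror.th m = 1 := by
  induction m with
  | zero => exact one_mul 1
  | succ m ih =>
    have hc : -(D.A ^ 3) * -((D.A⁻¹) ^ 3) = 1 := by
      have hA := D.hA
      field_simp
    have h1 : D.mirror.th (m + 1) = (-((D.A⁻¹) ^ 3)) •
        (D.mirror.X m 1 * D.mirror.X 1 m * D.S (D.mirror.th m)) := by
      rw [th_succ, ← X_one_left]; rfl
    rw [h1, th_succ, ← X_one_left, smul_mul_smul_comm, hc, one_smul]
    -- S (th m) commutes with the mirror encirclement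
    have r := (D.nt_th m).right' 1
    have l := (D.nt_th m).left' 1
    rw [sh_one] at r l
    have hcomm : D.S (D.th m) * (D.mirror.X m 1 * D.mirror.X 1 m) =
        D.mirror.X m 1 * D.mirror.X 1 m * D.S (D.th m) := by
      rw [mul_assoc, r, ← mul_assoc, ← mul_assoc, l]
    calc D.X m 1 * D.X 1 m * D.S (D.th m) *
          (D.mirror.X m 1 * D.mirror.X 1 m * D.S (D.mirror.th m))
        = D.X m 1 * D.X 1 m * (D.S (D.th m) * (D.mirror.X m 1 * D.mirror.X 1 m)) *
            D.S (D.mirror.th m) := by simp only [mul_assoc]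
      _ = D.X m 1 * (D.X 1 m * D.mirror.X m 1) * D.mirror.X 1 m *
            D.S (D.th m * D.mirror.th m) := by
          rw [hcomm, map_mul]; simp only [mul_assoc]
      _ = 1 := by
          rw [D.X_mirror_X m 1, mul_one, D.X_mirror_X 1 m, one_mul, ih, map_one]

theorem mirror_th (m : ℕ) : D.mirror.th m * D.th m = 1 := by
  have h := D.mirror.th_mirror m
  rwa [mirror_mirror] at h

/-- Zigzags. -/
theorem shN_U (m : ℕ) : D.sh m (D.N m) * D.U m = 1 := by
  induction m with
  | zero => exact one_mul 1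
  | succ m ih =>
    have h1 : D.sh (m + 1) (D.N (m + 1)) =
        D.sh m (D.S D.n) * D.sh m (D.S (D.S (D.N m))) := by
      rw [N_succ', sh_succR, map_mul, map_mul]
    calc D.sh (m + 1) (D.N (m + 1)) * D.U (m + 1)
        = D.sh m (D.S D.n) * D.sh m (D.S (D.S (D.N m)) * D.u) * D.U m := by
          rw [h1, U_succ, map_mul]; simp only [mul_assoc]
      _ = D.sh m (D.S D.n * D.u) * (D.sh m (D.N m) * D.U m) := by
          rw [D.SSu, map_mul, map_mul]; simp only [mul_assoc]
      _ = 1 := by rw [D.Snu, map_one, one_mul, ih]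

theorem N_shU (m : ℕ) : D.N m * D.sh m (D.U m) = 1 := by
  induction m with
  | zero => exact one_mul 1
  | succ m ih =>
    have h1 : D.sh (m + 1) (D.U (m + 1)) =
        D.sh m (D.S (D.S (D.U m))) * D.sh m (D.S D.u) := by
      rw [U_succ', sh_succR, map_mul, map_mul]
    calc D.N (m + 1) * D.sh (m + 1) (D.U (m + 1))
        = D.N m * D.sh m (D.n * D.S (D.S (D.U m))) * D.sh m (D.S D.u) := by
          rw [h1, N_succ, map_mul]; simp only [mul_assoc]
      _ = (D.N m * D.sh m (D.U m)) * D.sh m (D.n * D.S D.u) := by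
          rw [D.nSS, map_mul, map_mul]; simp only [mul_assoc]
      _ = 1 := by rw [D.nSu, map_one, mul_one, ih]

/-- Reidemeister III. -/
theorem braid3 (m : ℕ) :
    D.sh m (D.X m m) * D.X m m * D.sh m (D.X m m) =
      D.X m m * D.sh m (D.X m m) * D.X m m := by
  have h := (D.nt0_X m m).right m
  rw [X_add_right] at h
  rw [h, mul_assoc]

theorem X_two_mul (m : ℕ) : D.X m (2 * m) = D.sh m (D.X m m) * D.X m m := by
  rw [two_mul, X_add_right]

/-- A crossing slides through a minimum. -/
theorem X_shU (m : ℕ) : D.X m m * D.sh m (D.U m) = D.sh m (D.mirror.X m m) * D.U m := by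
  have h := (D.nt0_U m).right m
  rw [X_two_mul, X_zero_right, mul_one] at h
  calc D.X m m * D.sh m (D.U m)
      = D.sh m (D.mirror.X m m * D.X m m) * (D.X m m * D.sh m (D.U m)) := by
        rw [mirror_X_X, map_one, one_mul]
    _ = D.sh m (D.mirror.X m m) * (D.sh m (D.X m m) * D.X m m * D.sh m (D.U m)) := by
        rw [map_mul]; simp only [mul_assoc]
    _ = _ := by rw [h]

/-- A crossing slides through a maximum. -/
theorem shN_X (m : ℕ) : D.sh m (D.N m) * D.X m m = D.N m * D.sh m (D.mirror.X m m) := by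
  have h := (D.nt_N m).right' m
  have h2 : D.mirror.X m (2 * m) = D.sh m (D.mirror.X m m) * D.mirror.X m m := by
    rw [X_two_mul, mirror_sh]
  rw [h2, X_zero_right, one_mul] at h
  rw [h]
  calc D.N m * (D.sh m (D.mirror.X m m) * D.mirror.X m m) * D.X m m
      = D.N m * D.sh m (D.mirror.X m m) * (D.mirror.X m m * D.X m m) := by
        simp only [mul_assoc]
    _ = _ := by rw [mirror_X_X, mul_one]

/-! ### Duals -/

/-- `T'` is `T` rotated by `π` (both act on `m` strands). -/
structure Du (m : ℕ) (T T' : R) : Prop where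
  loc : D.Loc m m T
  loc' : D.Loc m m T'
  cap : D.N m * T = D.N m * D.sh m T'
  cup : T * D.U m = D.sh m T' * D.U m

variable {D}

theorem Du.mul {m : ℕ} {T T' Z Z' : R} (h : D.Du m T T') (h' : D.Du m Z Z') :
    D.Du m (T * Z) (Z' * T') where
  loc := h.loc.mul h'.loc
  loc' := h'.loc'.mul h.loc'
  cap := by
    rw [← mul_assoc, h.cap, mul_assoc, ← h'.loc, ← mul_assoc, h'.cap, mul_assoc, ← map_mul]
  cup := by
    rw [mul_assoc, h'.cup, ← mul_assoc, h.loc, mul_assoc, h.cup, ← mul_assoc, ← map_mul]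

theorem Du.smul {m : ℕ} {T T' : R} (h : D.Du m T T') (c : ℝ) : D.Du m (c • T) (c • T') where
  loc := h.loc.smul c
  loc' := h.loc'.smul c
  cap := by rw [mul_smul_comm, h.cap, map_smul, mul_smul_comm]
  cup := by rw [smul_mul_assoc, h.cup, map_smul, smul_mul_assoc]

theorem Du.add {m : ℕ} {T T' Z Z' : R} (h : D.Du m T T') (h' : D.Du m Z Z') :
    D.Du m (T + Z) (T' + Z') where
  loc := h.loc.add h'.loc
  loc' := h.loc'.add h'.loc'
  cap := by rw [mul_add, h.cap, h'.cap, map_add, mul_add]
  cup := by rw [add_mul, h.cup, h'.cup, map_add, add_mul]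

theorem du_one (m : ℕ) : D.Du m 1 1 where
  loc := loc_one m
  loc' := loc_one m
  cap := by rw [map_one]
  cup := by rw [map_one]

/-- A strand is added on the right. -/
theorem Du.ext {m : ℕ} {T T' : R} (h : D.Du m T T') : D.Du (m + 1) T (D.S T') where
  loc := h.loc.ext 1
  loc' := (h.loc'.sh 1).cast (by omega) (by omega)
  cap := by
    rw [N_succ, mul_assoc, ← h.loc, ← mul_assoc, h.cap, mul_assoc, ← map_mul, ← D.nSS,
      map_mul, mul_assoc, sh_succR]
  cup := by
    rw [U_succ, ← mul_assoc, h.loc, mul_assoc, h.cup, ← mul_assoc, ← map_mul, ← D.SSu,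
      map_mul, mul_assoc, sh_succR]

/-- A strand is added on the left. -/
theorem Du.sh {m : ℕ} {T T' : R} (h : D.Du m T T') : D.Du (m + 1) (D.S T) T' where
  loc := (h.loc.sh 1).cast (by omega) (by omega)
  loc' := h.loc'.ext 1
  cap := by
    rw [N_succ', mul_assoc, ← map_mul, h.cap, map_mul, ← mul_assoc, ← sh_succ]
  cup := by
    rw [U_succ', ← mul_assoc, ← map_mul, h.cup, map_mul, mul_assoc, ← sh_succ]

variable (D)

theorem du_e : D.Du 2 (D.u * D.n) (D.u * D.n) where
  loc := D.loc_u.mul D.loc_n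
  loc' := D.loc_u.mul D.loc_n
  cap := by
    have e1 : D.N 2 * (D.u * D.n) = D.n * D.n := by
      rw [N_succ', N_one, mul_assoc, ← mul_assoc (D.S D.n), D.Snu, one_mul]
    have e2 : D.N 2 * D.sh 2 (D.u * D.n) = D.n * D.n := by
      show D.N 2 * D.S (D.S (D.u * D.n)) = _
      rw [N_succ', N_one]
      calc D.n * D.S D.n * D.S (D.S (D.u * D.n))
          = D.n * D.S (D.n * D.S D.u) * D.S (D.S D.n) := by
            simp only [map_mul, mul_assoc]
        _ = D.n * D.S (D.S D.n) := by rw [D.nSu, map_one, mul_one]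
        _ = D.n * D.n := D.nSS _
    rw [e1, e2]
  cup := by
    have e1 : D.u * D.n * D.U 2 = D.u * D.u := by
      rw [U_succ', U_one, mul_assoc, ← mul_assoc D.n, D.nSu, one_mul]
    have e2 : D.sh 2 (D.u * D.n) * D.U 2 = D.u * D.u := by
      show D.S (D.S (D.u * D.n)) * D.U 2 = _
      rw [U_succ', U_one]
      calc D.S (D.S (D.u * D.n)) * (D.S D.u * D.u)
          = D.S (D.S D.u) * D.S (D.S D.n * D.u) * D.u := by
            simp only [map_mul, mul_assoc]
        _ = D.S (D.S D.u) * D.u := by rw [D.Snu, map_one, mul_one]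
        _ = D.u * D.u := D.SSu _
    rw [e1, e2]

theorem du_sg : D.Du 2 D.sg D.sg := ((du_one 2).smul _).add (D.du_e.smul _)

theorem du_sg_left (k : ℕ) : D.Du (k + 2) D.sg (D.sh k D.sg) := by
  induction k with
  | zero => exact D.du_sg
  | succ k ih => exact ih.ext

theorem du_sg_right (k : ℕ) : D.Du (k + 2) (D.sh k D.sg) D.sg := by
  induction k with
  | zero => exact D.du_sg
  | succ k ih => exact ih.sh

theorem X1_succ' (q : ℕ) : D.X1 (q + 1) = D.S (D.X1 q) * D.sg := by
  rw [add_comm, X1_add, sh_one, X1_one]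

theorem X_one_right_succ' (m : ℕ) : D.X (m + 1) 1 = D.X m 1 * D.sh m D.sg := by
  rw [X_add_left, X_one_left, X1_one]

theorem du_X1 (m : ℕ) : D.Du (m + 1) (D.X 1 m) (D.X 1 m) := by
  rw [X_one_left]
  induction m with
  | zero => exact du_one 1
  | succ m ih =>
    have := (D.du_sg_right m).mul ih.ext
    rw [← X1_succ, ← X1_succ'] at this
    exact this

theorem du_X_one (m : ℕ) : D.Du (m + 1) (D.X m 1) (D.X m 1) := by
  induction m with
  | zero => exact du_one 1
  | succ m ih =>
    have := (D.du_sg_left m).mul ih.sh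
    rw [← X_one_right_succ, ← X_one_right_succ'] at this
    exact this

theorem du_th (m : ℕ) : D.Du m (D.th m) (D.th m) := by
  induction m with
  | zero => exact du_one 0
  | succ m ih =>
    have h := (((D.du_X_one m).mul (D.du_X1 m)).mul ih.sh).smul (-(D.A ^ 3))
    have e : (-(D.A ^ 3)) • (D.th m * (D.X 1 m * D.X m 1)) = D.th (m + 1) := by
      have r := (D.nt_th m).right 1
      have l := (D.nt_th m).left 1
      rw [sh_one] at r l
      rw [D.th_add m 1, th_one_smul, map_smul, map_one, mul_smul_comm, mul_one]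
      congr 1
      rw [mul_assoc, l, ← mul_assoc, ← r, mul_assoc]
    rw [e, X_one_left] at h
    exact h

/-- The twist slides through maxima and minima. -/
theorem N_th (m : ℕ) : D.N m * D.th m = D.N m * D.sh m (D.th m) := (D.du_th m).cap

theorem th_U (m : ℕ) : D.th m * D.U m = D.sh m (D.th m) * D.U m := (D.du_th m).cup

/-! ### Curls -/

theorem n_mirror_sg : D.n * D.mirror.sg = (-(D.A ^ 3)) • D.n := by
  have h := D.mirror.n_sg
  have e : (-((D.mirror.A)⁻¹ ^ 3)) = -(D.A ^ 3) := by
    show (-(((D.A)⁻¹)⁻¹ ^ 3)) = _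
    rw [inv_inv]
  rw [e] at h
  exact h

theorem mirror_sg_u : D.mirror.sg * D.u = (-(D.A ^ 3)) • D.u := by
  have h := D.mirror.sg_u
  have e : (-((D.mirror.A)⁻¹ ^ 3)) = -(D.A ^ 3) := by
    show (-(((D.A)⁻¹)⁻¹ ^ 3)) = _
    rw [inv_inv]
  rw [e] at h
  exact h

/-- A cap slides through a block. -/
theorem shn_mirror_X (p : ℕ) : D.sh p D.n * D.mirror.X 1 p = D.n * D.S (D.X p 1) := by
  have h := D.nt0_n.right p
  rw [X_zero_right, one_mul, show (2 : ℕ) = 1 + 1 from rfl, X_add_right, sh_one] at h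
  rw [h, mul_assoc, mul_assoc, X_mirror_X, mul_one]

theorem X_shu (p : ℕ) : D.X p 1 * D.sh p D.u = D.S (D.mirror.X 1 p) * D.u := by
  have h := D.nt0_u.right p
  rw [X_zero_right, mul_one, show (2 : ℕ) = 1 + 1 from rfl, X_add_right, sh_one] at h
  calc D.X p 1 * D.sh p D.u
      = D.S (D.mirror.X 1 p * D.X p 1) * (D.X p 1 * D.sh p D.u) := by
        rw [mirror_X_X, map_one, one_mul]
    _ = D.S (D.mirror.X 1 p) * (D.S (D.X p 1) * D.X p 1 * D.sh p D.u) := by
        rw [map_mul]; simp only [mul_assoc]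
    _ = _ := by rw [h]

/-- The curls (Reidemeister I). -/
theorem N_mirror_X (m : ℕ) : D.N m * D.mirror.X m m = D.N m * D.th m := by
  induction m with
  | zero => rfl
  | succ p ih =>
    -- the first expansion
    have e1 : D.mirror.X (p + 1) (p + 1) =
        D.sh p D.mirror.sg * D.mirror.X 1 p *
          D.S (D.mirror.X p (1 + p)) := by
      have h1 : D.mirror.X 1 (p + 1) = D.sh p D.mirror.sg * D.mirror.X 1 p := by
        rw [X_one_left, X_one_left]
        show D.mirror.sh p D.mirror.sg * _ = _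
        rw [mirror_sh]
      rw [X_succ, ← X_one_left, h1, add_comm 1 p]
      rfl
    have hn : D.sh p D.n * D.mirror.X 1 p = D.n * D.S (D.X p 1) := D.shn_mirror_X p
    have hn' : D.sh p D.n * D.X 1 p = D.n * D.S (D.mirror.X p 1) := by
      have := D.mirror.shn_mirror_X p
      rw [mirror_mirror, mirror_sh] at this
      exact this
    have hX : D.X p 1 * D.mirror.X p (p + 1) =
        D.mirror.X p (1 + p) * D.sh p (D.X p 1) :=
      ((D.nt_X p 1).right' p).symm
    have hX2 : D.mirror.X p (1 + p) = D.S (D.mirror.X p p) * D.mirror.X p 1 := by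
      rw [X_add_right, mirror_sh, sh_one]
    have hth : D.th p * D.X 1 p = D.X 1 p * D.S (D.th p) := by
      have := (D.nt_th p).right 1
      rw [sh_one] at this
      exact this.symm
    calc D.N (p + 1) * D.mirror.X (p + 1) (p + 1)
        = D.N p * D.sh p (D.n * D.mirror.sg) * D.mirror.X 1 p *
            D.S (D.mirror.X p (p + 1)) := by
          rw [e1, N_succ, map_mul, add_comm 1 p]; simp only [mul_assoc]
      _ = (-(D.A ^ 3)) • (D.N p * (D.sh p D.n * D.mirror.X 1 p) *
            D.S (D.mirror.X p (p + 1))) := by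
          rw [n_mirror_sg, map_smul, mul_smul_comm, smul_mul_assoc, smul_mul_assoc]
          simp only [mul_assoc]
      _ = (-(D.A ^ 3)) • (D.N p * D.n * D.S (D.X p 1 * D.mirror.X p (p + 1))) := by
          rw [hn, map_mul]; simp only [mul_assoc]
      _ = (-(D.A ^ 3)) • (D.N p * (D.n * D.S (D.S (D.mirror.X p p))) *
            D.S (D.mirror.X p 1) * D.sh (p + 1) (D.X p 1)) := by
          rw [hX, hX2, map_mul, map_mul, ← sh_succ]; simp only [mul_assoc]
      _ = (-(D.A ^ 3)) • ((D.N p * D.mirror.X p p) * (D.n * D.S (D.mirror.X p 1)) *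
            D.sh (p + 1) (D.X p 1)) := by
          rw [D.nSS]; simp only [mul_assoc]
      _ = (-(D.A ^ 3)) • (D.N p * (D.th p * D.sh p D.n) * D.X 1 p *
            D.sh (p + 1) (D.X p 1)) := by
          rw [ih, ← hn']; simp only [mul_assoc]
      _ = (-(D.A ^ 3)) • (D.N (p + 1) * (D.th p * D.X 1 p) * D.sh (p + 1) (D.X p 1)) := by
          rw [(D.nt_th p).loc D.n, N_succ]; simp only [mul_assoc]
      _ = (-(D.A ^ 3)) • (D.N (p + 1) * D.sh (p + 1) (D.X p 1) * (D.X 1 p * D.S (D.th p))) := by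
          rw [hth]
          have hl : D.Loc (p + 1) (p + 1) (D.X 1 p * D.S (D.th p)) := by
            have h1 : D.Loc (p + 1) (p + 1) (D.X 1 p) := by
              rw [X_one_left]; exact D.loc_X1 p
            exact h1.mul (((D.nt_th p).loc.sh 1).cast (by omega) (by omega))
          rw [mul_assoc (D.N (p + 1)), hl, ← mul_assoc]
      _ = D.N (p + 1) * D.th (p + 1) := by
          rw [← (D.du_X_one p).cap, th_succ, ← X_one_left, mul_smul_comm]
          simp only [mul_assoc]

theorem N_X (m : ℕ) : D.N m * D.X m m = D.N m * D.mirror.th m := by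
  have h := D.mirror.N_mirror_X m
  rwa [mirror_mirror, mirror_N] at h

theorem mirror_X_U (m : ℕ) : D.mirror.X m m * D.U m = D.th m * D.U m := by
  induction m with
  | zero => rfl
  | succ p ih =>
    have e1 : D.mirror.X (p + 1) (p + 1) =
        D.S (D.mirror.X (p + 1) p) * (D.mirror.X p 1 * D.sh p D.mirror.sg) := by
      have h1 : D.mirror.X (p + 1) (1 + p) =
          D.S (D.mirror.X (p + 1) p) * D.mirror.X (p + 1) 1 := by
        rw [X_add_right, mirror_sh, sh_one]
      rw [add_comm 1 p] at h1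
      rw [h1, X_one_right_succ', mirror_sh]
    have hu : D.X p 1 * D.sh p D.u = D.S (D.mirror.X 1 p) * D.u := D.X_shu p
    have hu' : D.mirror.X p 1 * D.sh p D.u = D.S (D.X 1 p) * D.u := by
      have := D.mirror.X_shu p
      rw [mirror_mirror, mirror_sh] at this
      exact this
    have hX : D.mirror.X (p + 1) p * D.X 1 p = D.sh p (D.X 1 p) * D.mirror.X (1 + p) p :=
      (D.nt_X 1 p).left' p
    have hX2 : D.mirror.X (1 + p) p = D.mirror.X 1 p * D.S (D.mirror.X p p) := by
      rw [X_add_left, mirror_sh, sh_one]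
    have hth : D.X p 1 * D.th p = D.S (D.th p) * D.X p 1 := by
      have := (D.nt_th p).left 1
      rw [sh_one] at this
      exact this
    have hth2 : D.th p * D.X 1 p = D.X 1 p * D.S (D.th p) := by
      have := (D.nt_th p).right 1
      rw [sh_one] at this
      exact this.symm
    have hloc : D.Loc (p + 1) (p + 1) (D.X p 1 * D.th p) :=
      (D.loc_X p 1).mul ((D.nt_th p).loc.ext 1)
    calc D.mirror.X (p + 1) (p + 1) * D.U (p + 1)
        = D.S (D.mirror.X (p + 1) p) * D.mirror.X p 1 * D.sh p (D.mirror.sg * D.u) * D.U p := by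
          rw [e1, U_succ, map_mul]; simp only [mul_assoc]
      _ = (-(D.A ^ 3)) • (D.S (D.mirror.X (p + 1) p) * (D.mirror.X p 1 * D.sh p D.u) *
            D.U p) := by
          rw [mirror_sg_u, map_smul, mul_smul_comm, smul_mul_assoc]
          simp only [mul_assoc]
      _ = (-(D.A ^ 3)) • (D.S (D.mirror.X (p + 1) p * D.X 1 p) * D.u * D.U p) := by
          rw [hu', map_mul]; simp only [mul_assoc]
      _ = (-(D.A ^ 3)) • (D.sh (p + 1) (D.X 1 p) * D.S (D.mirror.X 1 p) *
            (D.S (D.S (D.mirror.X p p)) * D.u) * D.U p) := by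
          rw [hX, hX2, map_mul, map_mul, ← sh_succ]; simp only [mul_assoc]
      _ = (-(D.A ^ 3)) • (D.sh (p + 1) (D.X 1 p) * (D.S (D.mirror.X 1 p) * D.u) *
            (D.mirror.X p p * D.U p)) := by
          rw [D.SSu]; simp only [mul_assoc]
      _ = (-(D.A ^ 3)) • (D.sh (p + 1) (D.X 1 p) * D.X p 1 * (D.sh p D.u * D.th p) *
            D.U p) := by
          rw [ih, ← hu]; simp only [mul_assoc]
      _ = (-(D.A ^ 3)) • (D.sh (p + 1) (D.X 1 p) * (D.X p 1 * D.th p) * D.U (p + 1)) := by
          rw [← (D.nt_th p).loc D.u, U_succ]; simp only [mul_assoc]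
      _ = (-(D.A ^ 3)) • ((D.X p 1 * D.th p) * (D.sh (p + 1) (D.X 1 p) * D.U (p + 1))) := by
          rw [← hloc]; simp only [mul_assoc]
      _ = (-(D.A ^ 3)) • (D.X p 1 * (D.th p * D.X 1 p) * D.U (p + 1)) := by
          rw [← (D.du_X1 p).cup]; simp only [mul_assoc]
      _ = D.th (p + 1) * D.U (p + 1) := by
          rw [hth2, th_succ, ← X_one_left, smul_mul_assoc]; simp only [mul_assoc]

theorem X_U (m : ℕ) : D.X m m * D.U m = D.mirror.th m * D.U m := by
  have h := D.mirror.mirror_X_U m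
  rwa [mirror_mirror, mirror_U] at h

/-! ### Cables of cables -/

theorem ev_nil (m : ℕ) : D.ev m [] = 1 := rfl

theorem ev_cons (m : ℕ) (x : Letter) (w : Word) : D.ev m (x :: w) = D.ev m w * D.evL m x := rfl

theorem ev_single (m : ℕ) (x : Letter) : D.ev m [x] = D.evL m x := by
  rw [ev_cons, ev_nil, one_mul]

theorem ev_append (m : ℕ) (w w' : Word) : D.ev m (w ++ w') = D.ev m w' * D.ev m w := by
  induction w with
  | nil => rw [List.nil_append, ev_nil, mul_one]
  | cons x w ih => rw [List.cons_append, ev_cons, ev_cons, ih, mul_assoc]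

theorem ev_shiftWord (m k : ℕ) (w : Word) :
    D.ev m (shiftWord k w) = D.sh (m * k) (D.ev m w) := by
  induction w with
  | nil =>
    show (1 : R) = D.sh (m * k) 1
    rw [map_one]
  | cons x w ih =>
    show D.ev m ((x.1, x.2 + k) :: shiftWord k w) = _
    rw [ev_cons, ev_cons, ih, map_mul]
    congr 1
    show D.sh (m * (x.2 + k)) (D.blk m x.1) = D.sh (m * k) (D.sh (m * x.2) (D.blk m x.1))
    rw [← sh_add, Nat.mul_add, add_comm]

theorem blk_mirror (m : ℕ) (k : Kind) : D.blk m k.mirror = D.mirror.blk m k := by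
  cases k with
  | cup => exact (D.mirror_U m).symm
  | cap => exact (D.mirror_N m).symm
  | pos => rfl
  | neg =>
    show D.X m m = D.mirror.mirror.X m m
    rw [mirror_mirror]

theorem ev_mirror (m : ℕ) (w : Word) : D.ev m (Pool.Agent.HTW.mirror w) = D.mirror.ev m w := by
  induction w with
  | nil => rfl
  | cons x w ih =>
    show D.ev m ((x.1.mirror, x.2) :: Pool.Agent.HTW.mirror w) = _
    rw [ev_cons, ev_cons, ih]
    congr 1
    show D.sh (m * x.2) (D.blk m x.1.mirror) = D.mirror.sh (m * x.2) (D.mirror.blk m x.1)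
    rw [mirror_sh, blk_mirror]

/-- The `m`-cable of `n` nested cups. -/
theorem ev_cups (m n i : ℕ) :
    D.ev m ((List.range n).map (fun j => (Kind.cup, i + j))) = D.sh (m * i) (D.U (m * n)) := by
  induction n with
  | zero =>
    show (1 : R) = D.sh (m * i) 1
    rw [map_one]
  | succ n ih =>
    rw [List.range_succ, List.map_append, ev_append, ih, List.map_singleton, ev_single]
    show D.sh (m * (i + n)) (D.U m) * _ = _
    rw [Nat.mul_succ, U_add, map_mul, Nat.mul_add, sh_add]

theorem ev_caps (m n i : ℕ) :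
    D.ev m ((List.range n).reverse.map (fun j => (Kind.cap, i + j))) =
      D.sh (m * i) (D.N (m * n)) := by
  induction n with
  | zero =>
    show (1 : R) = D.sh (m * i) 1
    rw [map_one]
  | succ n ih =>
    rw [List.range_succ, List.reverse_append, List.reverse_singleton, List.singleton_append,
      List.map_cons, ev_cons, ih]
    show _ * D.sh (m * (i + n)) (D.N m) = _
    rw [Nat.mul_succ, N_add, map_mul, Nat.mul_add, sh_add]

/-- One block crosses `q` blocks. -/
theorem ev_row (m q : ℕ) :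
    D.ev m ((List.range q).map (fun j => (Kind.pos, j))) = D.X m (m * q) := by
  induction q with
  | zero =>
    show (1 : R) = D.X m 0
    rw [X_zero_right]
  | succ q ih =>
    rw [List.range_succ, List.map_append, ev_append, ih, List.map_singleton, ev_single]
    show D.sh (m * q) (D.X m m) * _ = _
    rw [Nat.mul_succ, X_add_right]

theorem ev_row_reverse (m q : ℕ) :
    D.ev m ((List.range q).reverse.map (fun j => (Kind.pos, j))) = D.X (m * q) m := by
  induction q with
  | zero => rfl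
  | succ q ih =>
    rw [List.range_succ, List.reverse_append, List.reverse_singleton, List.singleton_append,
      List.map_cons, ev_cons, ih]
    show _ * D.sh (m * q) (D.X m m) = _
    rw [Nat.mul_succ, X_add_left]

theorem ev_blockWord (m q p : ℕ) :
    D.ev m (blockWord Kind.pos q p) = D.X (m * p) (m * q) := by
  induction p with
  | zero => rfl
  | succ p ih =>
    show D.ev m (shiftWord 1 (blockWord Kind.pos q p) ++
      (List.range q).map (fun j => (Kind.pos, j))) = _
    rw [ev_append, ev_row, ev_shiftWord, ih, mul_one, Nat.mul_succ, add_comm (m * p) m,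
      X_add_left]

theorem mirror_shiftWord (k : ℕ) (w : Word) :
    Pool.Agent.HTW.mirror (shiftWord k w) = shiftWord k (Pool.Agent.HTW.mirror w) := by
  unfold Pool.Agent.HTW.mirror shiftWord
  rw [List.map_map, List.map_map]
  rfl

theorem mirror_append (w w' : Word) :
    Pool.Agent.HTW.mirror (w ++ w') =
      Pool.Agent.HTW.mirror w ++ Pool.Agent.HTW.mirror w' := by
  unfold Pool.Agent.HTW.mirror
  rw [List.map_append]

theorem mirror_blockWord (q p : ℕ) :
    Pool.Agent.HTW.mirror (blockWord Kind.pos q p) = blockWord Kind.neg q p := by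
  induction p with
  | zero => rfl
  | succ p ih =>
    show Pool.Agent.HTW.mirror (shiftWord 1 (blockWord Kind.pos q p) ++
      (List.range q).map (fun j => (Kind.pos, j))) = shiftWord 1 (blockWord Kind.neg q p) ++
      (List.range q).map (fun j => (Kind.neg, j))
    rw [mirror_append, mirror_shiftWord, ih]
    congr 1
    unfold Pool.Agent.HTW.mirror
    rw [List.map_map]
    rfl

theorem mirror_twistWord (n : ℕ) :
    Pool.Agent.HTW.mirror (twistWord Kind.pos n) = twistWord Kind.neg n := by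
  induction n with
  | zero => rfl
  | succ n ih =>
    show Pool.Agent.HTW.mirror (shiftWord 1 (twistWord Kind.pos n) ++
      (List.range n).map (fun j => (Kind.pos, j)) ++
      (List.range n).reverse.map (fun j => (Kind.pos, j))) =
      shiftWord 1 (twistWord Kind.neg n) ++ (List.range n).map (fun j => (Kind.neg, j)) ++
      (List.range n).reverse.map (fun j => (Kind.neg, j))
    rw [mirror_append, mirror_append, mirror_shiftWord, ih]
    unfold Pool.Agent.HTW.mirror
    rw [List.map_map, List.map_map]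
    rfl

theorem ev_blockWord_neg (m q p : ℕ) :
    D.ev m (blockWord Kind.neg q p) = D.mirror.X (m * p) (m * q) := by
  rw [← mirror_blockWord, ev_mirror, ev_blockWord]

theorem ev_cableLetter (m n : ℕ) (x : Letter) :
    D.ev m (cableLetter n x) = D.evL (m * n) x := by
  obtain ⟨k, i⟩ := x
  cases k with
  | cup =>
    show D.ev m ((List.range n).map (fun j => (Kind.cup, n * i + j))) =
      D.sh (m * n * i) (D.U (m * n))
    rw [ev_cups, mul_assoc]
  | cap =>
    show D.ev m ((List.range n).reverse.map (fun j => (Kind.cap, n * i + j))) =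
      D.sh (m * n * i) (D.N (m * n))
    rw [ev_caps, mul_assoc]
  | pos =>
    show D.ev m (shiftWord (n * i) (blockWord .pos n n)) = D.sh (m * n * i) (D.X (m * n) (m * n))
    rw [ev_shiftWord, ev_blockWord, mul_assoc]
  | neg =>
    show D.ev m (shiftWord (n * i) (blockWord .neg n n)) =
      D.sh (m * n * i) (D.mirror.X (m * n) (m * n))
    rw [ev_shiftWord, ev_blockWord_neg, mul_assoc]

/-- The `m`-cable of the `n`-cable is the `m * n`-cable. -/
theorem ev_cable (m n : ℕ) (w : Word) : D.ev m (cable n w) = D.ev (m * n) w := by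
  induction w with
  | nil => rfl
  | cons x w ih =>
    show D.ev m ((x :: w).flatMap (cableLetter n)) = _
    rw [List.flatMap_cons, ev_append, ev_cableLetter, ev_cons, ← ih]
    rfl

/-- `n` parallel copies of `T` (on blocks of `m` strands). -/
noncomputable def par (m : ℕ) (T : R) : ℕ → R
  | 0 => 1
  | n + 1 => T * D.sh m (par m T n)

/-- The `m`-cable of the full twist on `n` strands, corrected by the twists of the strands. -/
theorem ev_twistWord (m n : ℕ) :
    D.ev m (twistWord .pos n) * D.par m (D.th m) n = D.th (m * n) := by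
  induction n with
  | zero => exact one_mul 1
  | succ n ih =>
    show D.ev m (shiftWord 1 (twistWord .pos n) ++ (List.range n).map (fun j => (Kind.pos, j)) ++
      (List.range n).reverse.map (fun j => (Kind.pos, j))) *
      (D.th m * D.sh m (D.par m (D.th m) n)) = _
    rw [ev_append, ev_append, ev_row, ev_row_reverse, ev_shiftWord, mul_one, Nat.mul_succ,
      add_comm (m * n) m, D.th_add m (m * n), ← ih, map_mul]
    have h := (D.nt_th m).loc (D.ev m (twistWord .pos n))
    calc D.X (m * n) m * (D.X m (m * n) * D.sh m (D.ev m (twistWord Kind.pos n))) *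
          (D.th m * D.sh m (D.par m (D.th m) n))
        = D.X (m * n) m * D.X m (m * n) * (D.sh m (D.ev m (twistWord Kind.pos n)) * D.th m) *
          D.sh m (D.par m (D.th m) n) := by simp only [mul_assoc]
      _ = _ := by
          rw [← h]
          simp only [mul_assoc]

end TLData

end Pool.Agent.HTW
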