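import Pool.Agent.HTW.Side

/-!
# Channels of the satellite: norm bounds
-/

namespace Pool.Agent.HTW

open Finset Polynomial

/-! ### Vectors -/

theorem sq_apply_pre_le (α : List Bool) (f : Hf) : f (pre α tt) ^ 2 ≤ ip α.length f f := by
  induction α generalizing f with
  | nil =>
    show f tt ^ 2 ≤ f tt * f tt
    rw [sq]
  | cons x α ih =>
    have h1 := ih (fun s => f (scons x s))
    show f (scons x (pre α tt)) ^ 2 ≤
      ∑ y : Bool, ip α.length (fun s => f (scons y s)) (fun s => f (scons y s))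
    refine h1.trans ?_
    exact Finset.single_le_sum
      (f := fun y => ip α.length (fun s => f (scons y s)) (fun s => f (scons y s)))
      (fun y _ => ip_self_nonneg _ _) (Finset.mem_univ x)

theorem ip_cvec (α : List Bool) : ip α.length (cvec α) (cvec α) = 1 := by
  induction α with
  | nil =>
    show (1 : ℝ) * 1 = 1
    norm_num
  | cons x α ih =>
    show ∑ y : Bool, ip α.length (fun s => cvec (x :: α) (scons y s))
      (fun s => cvec (x :: α) (scons y s)) = 1
    have h1 : ∀ y, (fun s => cvec (x :: α) (scons y s)) = if y = x then cvec α else 0 := by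
      intro y
      funext s
      show (if y = x then cvec α s else 0) = _
      split_ifs <;> rfl
    simp only [h1]
    rw [Fintype.sum_bool]
    cases x <;> simp [ih, ip_zero_left]

theorem Bd.smul {a b : ℕ} {T : RR} {C : ℝ} (h : Bd a b T C) (c : ℝ) :
    Bd a b (c • T) (c ^ 2 * C) := by
  intro f
  rw [LinearMap.smul_apply, ip_smul_left, ip_smul_right]
  calc c * (c * ip b (T f) (T f)) = c ^ 2 * ip b (T f) (T f) := by ring
    _ ≤ c ^ 2 * (C * ip a f f) := mul_le_mul_of_nonneg_left (h f) (sq_nonneg c)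
    _ = c ^ 2 * C * ip a f f := by ring

theorem Bd.pow {a : ℕ} {T : RR} {C : ℝ} (hC : 0 ≤ C) (h : Bd a a T C) (n : ℕ) :
    Bd a a (T ^ n) (C ^ n) := by
  induction n with
  | zero =>
    rw [pow_zero, pow_zero]
    exact bd_one a
  | succ n ih =>
    rw [pow_succ, pow_succ]
    exact ih.mul (pow_nonneg hC n) h

theorem entry_le {M : ℕ} {T : RR} {C : ℝ} (h : Bd M M T C) (α : List Bool)
    (hα : α.length = M) : (T (cvec α) (pre α tt)) ^ 2 ≤ C := by
  subst hα
  have h1 := sq_apply_pre_le α (T (cvec α))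
  have h2 := h (cvec α)
  rw [ip_cvec, mul_one] at h2
  exact h1.trans h2

/-! ### The top channel -/

section Top

variable (A : ℝ) (hA : A ≠ 0)

theorem commute_Q (M j : ℕ) {T : RR} (h : (tl A hA).Nt M M T) :
    Q A hA M j * T = T * Q A hA M j := aeval_comm h.tw _

theorem shX1_Q (h1 : 1 < A) (M q k : ℕ) (h : k + q + 1 ≤ M) :
    (tl A hA).sh k ((tl A hA).X1 q) * Q A hA M M = A ^ q • Q A hA M M := by
  induction q with
  | zero =>
    show (tl A hA).sh k 1 * _ = _
    rw [map_one, one_mul, pow_zero, one_smul]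
  | succ q ih =>
    show (tl A hA).sh k ((tl A hA).sh q (tl A hA).sg * (tl A hA).X1 q) * _ = _
    rw [map_mul, ← TLData.sh_add, mul_assoc, ih (by omega), mul_smul_comm,
      sg_Q A hA h1 M (k + q) (by omega), smul_smul, pow_succ]

theorem shX_Q (h1 : 1 < A) (M p q k : ℕ) (h : k + p + q ≤ M) :
    (tl A hA).sh k ((tl A hA).X p q) * Q A hA M M = A ^ (p * q) • Q A hA M M := by
  induction p generalizing k with
  | zero =>
    show (tl A hA).sh k 1 * _ = _
    rw [map_one, one_mul, zero_mul, pow_zero, one_smul]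
  | succ p ih =>
    show (tl A hA).sh k ((tl A hA).X1 q * (tl A hA).S ((tl A hA).X p q)) * _ = _
    rw [map_mul, ← (tl A hA).sh_succR, mul_assoc, ih (k + 1) (by omega), mul_smul_comm,
      shX1_Q A hA h1 M q k (by omega), smul_smul]
    congr 1
    ring

theorem shmX_Q (h1 : 1 < A) (M p q k : ℕ) (h : k + p + q ≤ M) :
    (tl A hA).sh k ((tl A hA).mirror.X p q) * Q A hA M M =
      (A ^ (p * q))⁻¹ • Q A hA M M := by
  have e1 := shX_Q A hA h1 M q p k (by omega)
  have e2 : (tl A hA).sh k ((tl A hA).mirror.X p q) *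
      ((tl A hA).sh k ((tl A hA).X q p) * Q A hA M M) = Q A hA M M := by
    rw [← mul_assoc, ← map_mul, (tl A hA).mirror_X_X q p, map_one, one_mul]
  rw [e1, mul_smul_comm, mul_comm q p] at e2
  calc (tl A hA).sh k ((tl A hA).mirror.X p q) * Q A hA M M
      = (A ^ (p * q))⁻¹ • (A ^ (p * q) •
          ((tl A hA).sh k ((tl A hA).mirror.X p q) * Q A hA M M)) := by
        rw [smul_smul, inv_mul_cancel₀ (pow_ne_zero _ hA), one_smul]
    _ = _ := by rw [e2]

theorem ev_braid_Q (h1 : 1 < A) (N n : ℕ) {w : Word} (hw : IsBraid n w) :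
    (tl A hA).ev N w * Q A hA (N * n) (N * n) =
      ((A ^ (N ^ 2)) ^ (expSum w)) • Q A hA (N * n) (N * n) := by
  induction w with
  | nil =>
    show (1 : RR) * _ = _
    rw [one_mul, expSum_nil, zpow_zero, one_smul]
  | cons x w ih =>
    have hx := hw x List.mem_cons_self
    have ih' := ih (fun y hy => hw y (List.mem_cons_of_mem _ hy))
    have e : expSum (x :: w) = expSum [x] + expSum w := expSum_append [x] w
    have hle : N * x.2 + N + N ≤ N * n := by
      have := Nat.mul_le_mul_left N hx.2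
      calc N * x.2 + N + N = N * (x.2 + 2) := by ring
        _ ≤ N * n := this
    have h2 : (tl A hA).evL N x * Q A hA (N * n) (N * n) =
        ((A ^ (N ^ 2)) ^ (expSum [x])) • Q A hA (N * n) (N * n) := by
      obtain ⟨k, i⟩ := x
      rcases hx.1 with h | h
      · simp only at h
        subst h
        have e1 : expSum [(Kind.pos, i)] = 1 := rfl
        show (tl A hA).sh (N * i) ((tl A hA).X N N) * _ = _
        rw [shX_Q A hA h1 _ N N (N * i) hle, e1, zpow_one, sq]
      · simp only at h
        subst h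
        have e1 : expSum [(Kind.neg, i)] = -1 := rfl
        show (tl A hA).sh (N * i) ((tl A hA).mirror.X N N) * _ = _
        rw [shmX_Q A hA h1 _ N N (N * i) hle, e1, zpow_neg_one, sq]
    rw [(tl A hA).ev_cons, mul_assoc, h2, mul_smul_comm, ih', smul_smul, e,
      zpow_add₀ (pow_ne_zero _ hA)]

end Top

/-! ### Norm bounds -/

section Norm

variable (A : ℝ) (hA : A ≠ 0)

theorem bd_ev_pos (h1 : 1 < A) (N n : ℕ) {P : Word} (hP : IsPosBraid n P) :
    Bd (N * n) (N * n) ((tl A hA).ev N P) (A ^ (2 * (N ^ 2 * P.length))) := by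
  induction P with
  | nil =>
    show Bd _ _ 1 _
    have : A ^ (2 * (N ^ 2 * ([] : Word).length)) = 1 := by simp
    rw [this]
    exact bd_one _
  | cons x w ih =>
    have hx := hP x List.mem_cons_self
    have ih' := ih (fun y hy => hP y (List.mem_cons_of_mem _ hy))
    have hle : N * x.2 + N + N ≤ N * n := by
      have := Nat.mul_le_mul_left N hx.2
      calc N * x.2 + N + N = N * (x.2 + 2) := by ring
        _ ≤ N * n := this
    have h2 : Bd (N * n) (N * n) ((tl A hA).evL N x) (A ^ (2 * (N * N))) := by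
      obtain ⟨k, i⟩ := x
      have h := hx.1
      simp only at h
      subst h
      exact bd_X A hA h1.le N N (N * n) (N * i) hle
    have h3 := ih'.mul (by positivity) h2
    rw [(tl A hA).ev_cons]
    have e : A ^ (2 * (N ^ 2 * (x :: w).length)) =
        A ^ (2 * (N ^ 2 * w.length)) * A ^ (2 * (N * N)) := by
      rw [← pow_add, List.length_cons]
      congr 1
      ring
    rw [e]
    exact h3

theorem bd_par (h1 : 1 < A) (N n a k : ℕ) (h : k + N * n ≤ a) :
    Bd a a ((tl A hA).sh k ((tl A hA).par N ((tl A hA).th N) n))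
      (((A ^ (N ^ 2 + 2 * N)) ^ 2) ^ n) := by
  induction n generalizing k with
  | zero =>
    show Bd a a ((tl A hA).sh k 1) _
    rw [map_one, pow_zero]
    exact bd_one a
  | succ n ih =>
    show Bd a a ((tl A hA).sh k ((tl A hA).th N *
      (tl A hA).sh N ((tl A hA).par N ((tl A hA).th N) n))) _
    rw [Nat.mul_succ] at h
    rw [map_mul, ← TLData.sh_add, pow_succ']
    exact (bd_th A hA h1 N a k (by omega)).mul (by positivity) (ih (k + N) (by omega))

/-- The negative twists on the channel `j`. -/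
theorem Q_mirror_th_pow (h1 : 1 < A) {M j : ℕ} (hj : j ∈ chans M) (t : ℕ) :
    Q A hA M j * (tl A hA).mirror.th M ^ t =
      ((((tl A hA).mu j)⁻¹) ^ t) • Q A hA M j := by
  have hn : (tl A hA).Nt M M ((tl A hA).mirror.th M) := by
    have h := ((tl A hA).mirror.nt_th M).mirror
    rwa [TLData.mirror_mirror] at h
  induction t with
  | zero => rw [pow_zero, pow_zero, mul_one, one_smul]
  | succ t ih =>
    rw [pow_succ, ← mul_assoc, ih, smul_mul_assoc, commute_Q A hA M j hn,
      mirror_th_Q A hA h1 M j hj, smul_smul, pow_succ]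

/-- The operator of the channel `j` of the satellite. -/
noncomputable def Tch (N n : ℕ) (w β : Word) (j : ℕ) : RR :=
  (tl A hA).ev (N * n) w * Q A hA (N * n) j * (tl A hA).ev N β

theorem Tch_eq (h1 : 1 < A) (N n m : ℕ) (w P : Word) {j : ℕ} (hj : j ∈ chans (N * n)) :
    Tch A hA N n w (P ++ twists .neg n m) j =
      ((((tl A hA).mu j)⁻¹) ^ m) • ((tl A hA).ev (N * n) w * Q A hA (N * n) j *
        ((tl A hA).par N ((tl A hA).th N) n ^ m * (tl A hA).ev N P)) := by
  unfold Tch
  rw [(tl A hA).ev_append, ev_twists_neg]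
  have e := Q_mirror_th_pow A hA h1 hj m
  calc (tl A hA).ev (N * n) w * Q A hA (N * n) j *
        ((tl A hA).mirror.th (N * n) ^ m * (tl A hA).par N ((tl A hA).th N) n ^ m *
          (tl A hA).ev N P)
      = (tl A hA).ev (N * n) w * (Q A hA (N * n) j * (tl A hA).mirror.th (N * n) ^ m) *
        ((tl A hA).par N ((tl A hA).th N) n ^ m * (tl A hA).ev N P) := by
        simp only [mul_assoc]
    _ = _ := by
        rw [e, mul_smul_comm, smul_mul_assoc]

theorem Tch_top (h1 : 1 < A) (N n : ℕ) (w : Word) {β : Word} (hβ : IsBraid n β) :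
    Tch A hA N n w β (N * n) =
      ((A ^ (N ^ 2)) ^ (expSum β)) • ((tl A hA).ev (N * n) w * Q A hA (N * n) (N * n)) := by
  unfold Tch
  rw [mul_assoc, commute_Q A hA _ _ (nt_braid (tl A hA) N n hβ), ev_braid_Q A hA h1 N n hβ,
    mul_smul_comm]

/-- The norm of the channel `j`. -/
theorem bd_Tch (h1 : 1 < A) (N n m : ℕ) {w P : Word} (hP : IsPosBraid n P) {j : ℕ}
    (hj : j ∈ chans (N * n)) {B : ℝ}
    (hB : Bd (N * n) (N * n) ((tl A hA).ev (N * n) w * Q A hA (N * n) j) (B ^ 2)) :
    Bd (N * n) (N * n) (Tch A hA N n w (P ++ twists .neg n m) j)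
      (((((tl A hA).mu j)⁻¹) ^ m) ^ 2 * (B ^ 2 *
        ((((A ^ (N ^ 2 + 2 * N)) ^ 2) ^ n) ^ m * A ^ (2 * (N ^ 2 * P.length))))) := by
  rw [Tch_eq A hA h1 N n m w P hj]
  have hA0 : 0 < A := lt_trans one_pos h1
  have h2 := bd_par A hA h1 N n (N * n) 0 (by omega)
  have h3 := (Bd.pow (by positivity) h2 m).mul (by positivity) (bd_ev_pos A hA h1 N n hP)
  exact (hB.mul (by positivity) h3).smul _

end Norm

end Pool.Agent.HTW
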