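import Pool.Agent.HTW.Side

/-!
# The twists of the single strands of a pattern slide to the end of the knot
-/

namespace Pool.Agent.HTW

section Abstract

variable {R : Type} [Ring R] [Algebra ℝ R] (D : TLData R)

/-- Variant of `slide_th_run` with an operator between `a` and `b`. -/
theorem slide_Z_run (m : ℕ) {a b : Word} (hw : IsKnot (a ++ b)) {ℓ : List Unit}
    {L₁ L₂ : List (List Unit)} (ha : Run a ([()] :: L₁))
    (hl : ([()] :: L₁).getLast? = some ℓ) (hb : Run b (ℓ :: L₂)) {Z : R}
    (hZ : ∀ q < ℓ.length, Commute Z (D.sh (m * q) (D.th m))) (p : ℕ) (hp : p < ℓ.length) :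
    D.ev m b * (Z * D.sh (m * p) (D.th m)) * D.ev m a =
      D.ev m b * Z * D.ev m a * D.th m := by
  obtain ⟨L, hL1, hL2⟩ := run_label D m 1 (D.ev m b * Z) ha hl
  obtain ⟨ℓ', hl'⟩ : ∃ ℓ', (ℓ :: L₂).getLast? = some ℓ' :=
    ⟨_, List.getLast?_eq_some_getLast (by simp)⟩
  obtain ⟨L', hL1', _⟩ := run_label D m (Z * D.ev m a) 1 hb hl'
  have e1 : (List.range ([()] : List Unit).length).map
      (fun q => D.ev m b * Z * (D.ev m a * D.sh (m * q) (D.th m)) * 1) =
      [D.ev m b * Z * D.ev m a * D.th m] := by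
    have e : D.sh (m * 0) (D.th m) = D.th m := by
      rw [mul_zero]
      rfl
    show [D.ev m b * Z * (D.ev m a * D.sh (m * 0) (D.th m)) * 1] = _
    rw [e, mul_one, ← mul_assoc]
  rw [e1] at hL1 hL2
  have e2 : (List.range ℓ.length).map
      (fun q => D.ev m b * Z * (D.sh (m * q) (D.th m) * D.ev m a) * 1) =
      (List.range ℓ.length).map
      (fun q => 1 * (D.ev m b * D.sh (m * q) (D.th m)) * (Z * D.ev m a)) := by
    refine List.map_congr_left fun q hq => ?_
    have h5 := (hZ q (List.mem_range.1 hq)).eq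
    calc D.ev m b * Z * (D.sh (m * q) (D.th m) * D.ev m a) * 1
        = D.ev m b * (Z * D.sh (m * q) (D.th m)) * D.ev m a := by noncomm_ring
      _ = D.ev m b * (D.sh (m * q) (D.th m) * Z) * D.ev m a := by rw [h5]
      _ = _ := by noncomm_ring
  obtain ⟨L₀, hL₀⟩ := getLast?_split hL2
  rw [e2] at hL₀
  rw [hL₀] at hL1
  have hj := run_join hL1 hL1'
  have e3 : ∃ L₃, L₀ ++ (List.range ℓ.length).map
      (fun q => 1 * (D.ev m b * D.sh (m * q) (D.th m)) * (Z * D.ev m a)) :: L' =
      [D.ev m b * Z * D.ev m a * D.th m] :: L₃ := by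
    cases L₀ with
    | nil =>
      simp only [List.nil_append, List.cons.injEq] at hL₀
      exact ⟨L', by rw [List.nil_append, ← hL₀.1]⟩
    | cons x L₀ =>
      simp only [List.cons_append, List.cons.injEq] at hL₀
      exact ⟨_, by rw [List.cons_append, ← hL₀.1]⟩
  obtain ⟨L₃, hL₃⟩ := e3
  rw [hL₃] at hj
  have hk := hw.2 R _ L₃ hj
  have h4 := hk ((List.range ℓ.length).map
      (fun q => 1 * (D.ev m b * D.sh (m * q) (D.th m)) * (Z * D.ev m a))) (by
        rw [← hL₃]
        simp) (1 * (D.ev m b * D.sh (m * p) (D.th m)) * (Z * D.ev m a)) (by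
        rw [List.mem_map]
        exact ⟨p, by rw [List.mem_range]; exact hp, rfl⟩)
  have h5 := (hZ p hp).eq
  calc D.ev m b * (Z * D.sh (m * p) (D.th m)) * D.ev m a
      = D.ev m b * (D.sh (m * p) (D.th m) * Z) * D.ev m a := by rw [h5]
    _ = 1 * (D.ev m b * D.sh (m * p) (D.th m)) * (Z * D.ev m a) := by noncomm_ring
    _ = _ := h4

/-- The twists of two strands commute. -/
theorem commute_sh_th (m p q : ℕ) :
    Commute (D.sh (m * p) (D.th m)) (D.sh (m * q) (D.th m)) := by
  have key : ∀ a b : ℕ, a < b → Commute (D.sh (m * a) (D.th m)) (D.sh (m * b) (D.th m)) := by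
    intro a b hab
    obtain ⟨c, rfl⟩ : ∃ c, b = a + 1 + c := ⟨b - (a + 1), by omega⟩
    have e : m * (a + 1 + c) = m * a + (m + m * c) := by ring
    rw [e, D.sh_add, D.sh_add]
    have h := (D.nt_th m).loc (D.sh (m * c) (D.th m))
    show D.sh (m * a) (D.th m) * D.sh (m * a) (D.sh m (D.sh (m * c) (D.th m))) =
      D.sh (m * a) (D.sh m (D.sh (m * c) (D.th m))) * D.sh (m * a) (D.th m)
    rw [← map_mul, ← map_mul, h]
  rcases lt_trichotomy p q with h | h | h
  · exact key p q h
  · rw [h]
  · exact (key q p h).symm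

theorem par_succ_right (m : ℕ) (T : R) (n : ℕ) :
    D.par m T (n + 1) = D.par m T n * D.sh (m * n) T := by
  induction n with
  | zero =>
    show T * D.sh m 1 = 1 * D.sh (m * 0) T
    rw [map_one, mul_one, one_mul, mul_zero]
    rfl
  | succ n ih =>
    show T * D.sh m (D.par m T (n + 1)) = T * D.sh m (D.par m T n) * D.sh (m * (n + 1)) T
    have e : m + m * n = m * (n + 1) := by ring
    rw [ih, map_mul, ← TLData.sh_add, e, mul_assoc]

theorem commute_par (m n : ℕ) {Z : R} (q : ℕ) (h : ∀ p < n, Commute (D.sh (m * p) Z)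
    (D.sh (m * q) (D.th m))) : Commute (D.par m Z n) (D.sh (m * q) (D.th m)) := by
  induction n with
  | zero => exact Commute.one_left _
  | succ n ih =>
    rw [par_succ_right]
    exact (ih fun p hp => h p (by omega)).mul_left (h n (by omega))

theorem commute_mirror (m p q : ℕ) :
    Commute (D.sh (m * p) (D.mirror.th m)) (D.sh (m * q) (D.th m)) := by
  have h1 : D.sh (m * p) (D.mirror.th m) * D.sh (m * p) (D.th m) = 1 := by
    rw [← map_mul, D.mirror_th, map_one]
  have h2 : D.sh (m * p) (D.th m) * D.sh (m * p) (D.mirror.th m) = 1 := by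
    rw [← map_mul, D.th_mirror, map_one]
  have h3 := (commute_sh_th D m p q).eq
  set x := D.sh (m * p) (D.th m)
  set y := D.sh (m * p) (D.mirror.th m)
  set z := D.sh (m * q) (D.th m)
  show y * z = z * y
  calc y * z = y * z * (x * y) := by rw [h2, mul_one]
    _ = y * (z * x) * y := by noncomm_ring
    _ = y * (x * z) * y := by rw [h3]
    _ = (y * x) * (z * y) := by noncomm_ring
    _ = z * y := by rw [h1, one_mul]

/-- The twists of all the strands of the pattern. -/
theorem slide_par (m : ℕ) {a b : Word} (hw : IsKnot (a ++ b)) {ℓ : List Unit}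
    {L₁ L₂ : List (List Unit)} (ha : Run a ([()] :: L₁))
    (hl : ([()] :: L₁).getLast? = some ℓ) (hb : Run b (ℓ :: L₂)) {Z : R}
    (hZ : ∀ q < ℓ.length, Commute Z (D.sh (m * q) (D.th m))) (n : ℕ) (hn : n ≤ ℓ.length) :
    D.ev m b * (Z * D.par m (D.th m) n) * D.ev m a =
      D.ev m b * Z * D.ev m a * D.th m ^ n := by
  induction n with
  | zero =>
    show D.ev m b * (Z * 1) * D.ev m a = _
    rw [mul_one, pow_zero, mul_one]
  | succ n ih =>
    have h1 := slide_Z_run D m hw ha hl hb (Z := Z * D.par m (D.th m) n)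
      (fun q hq => (hZ q hq).mul_left (commute_par D m n q fun p _ => commute_sh_th D m p q))
      n (by omega)
    rw [par_succ_right, ← mul_assoc Z, h1, ih (by omega), pow_succ, mul_assoc]

theorem slide_par_pow (m : ℕ) {a b : Word} (hw : IsKnot (a ++ b)) {ℓ : List Unit}
    {L₁ L₂ : List (List Unit)} (ha : Run a ([()] :: L₁))
    (hl : ([()] :: L₁).getLast? = some ℓ) (hb : Run b (ℓ :: L₂)) (n : ℕ) (hn : n ≤ ℓ.length)
    (k : ℕ) :
    D.ev m b * D.par m (D.th m) n ^ k * D.ev m a = D.ev m (a ++ b) * D.th m ^ (n * k) := by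
  induction k with
  | zero => rw [pow_zero, mul_one, mul_zero, pow_zero, mul_one, D.ev_append]
  | succ k ih =>
    have h1 := slide_par D m hw ha hl hb (Z := D.par m (D.th m) n ^ k)
      (fun q _ => (commute_par D m n q fun p _ => commute_sh_th D m p q).pow_left k) n hn
    rw [pow_succ, h1, ih, mul_assoc, ← pow_add, Nat.mul_succ]

theorem slide_mpar_pow (m : ℕ) {a b : Word} (hw : IsKnot (a ++ b)) {ℓ : List Unit}
    {L₁ L₂ : List (List Unit)} (ha : Run a ([()] :: L₁))
    (hl : ([()] :: L₁).getLast? = some ℓ) (hb : Run b (ℓ :: L₂)) (n : ℕ) (hn : n ≤ ℓ.length)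
    (k : ℕ) :
    D.ev m b * D.par m (D.mirror.th m) n ^ k * D.ev m a =
      D.ev m (a ++ b) * D.mirror.th m ^ (n * k) := by
  have hc : ∀ q, Commute (D.par m (D.mirror.th m) n) (D.sh (m * q) (D.th m)) := fun q =>
    commute_par D m n q fun p _ => commute_mirror D m p q
  have hinv : D.par m (D.mirror.th m) n * D.par m (D.th m) n = 1 :=
    par_mul_par D m n (D.mirror_th m) (D.nt_th m).loc
  have hthinv : ∀ j : ℕ, D.th m ^ j * D.mirror.th m ^ j = 1 := by
    intro j
    have hcomm : Commute (D.th m) (D.mirror.th m) := by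
      show D.th m * D.mirror.th m = D.mirror.th m * D.th m
      rw [D.th_mirror, D.mirror_th]
    rw [← hcomm.mul_pow, D.th_mirror, one_pow]
  induction k with
  | zero => rw [pow_zero, mul_one, mul_zero, pow_zero, mul_one, D.ev_append]
  | succ k ih =>
    have h1 := slide_par D m hw ha hl hb (Z := D.par m (D.mirror.th m) n ^ (k + 1))
      (fun q _ => (hc q).pow_left (k + 1)) n hn
    rw [pow_succ (D.par m (D.mirror.th m) n) k, mul_assoc (D.par m (D.mirror.th m) n ^ k), hinv,
      mul_one, ih] at h1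
    rw [pow_succ (D.par m (D.mirror.th m) n) k]
    calc D.ev m b * (D.par m (D.mirror.th m) n ^ k * D.par m (D.mirror.th m) n) * D.ev m a
        = D.ev m b * (D.par m (D.mirror.th m) n ^ k * D.par m (D.mirror.th m) n) * D.ev m a *
            (D.th m ^ n * D.mirror.th m ^ n) := by rw [hthinv, mul_one]
      _ = D.ev m (a ++ b) * D.mirror.th m ^ (n * k) * D.mirror.th m ^ n := by
          rw [← mul_assoc, ← h1]
      _ = _ := by rw [mul_assoc, ← pow_add, Nat.mul_succ]

/-- The twists with positive crossings. -/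
theorem ev_twists_pos (m n t : ℕ) :
    D.ev m (twists .pos n t) = D.th (m * n) ^ t * D.par m (D.mirror.th m) n ^ t := by
  have h := ev_twists_neg D.mirror m n t
  rw [← D.ev_mirror, TLData.mirror_mirror, mirror_par] at h
  have h2 : mirror (twists .neg n t) = twists .pos n t := by
    have e : ∀ k : Kind, mirror (twists k n t) =
        (List.replicate t (mirror (twistWord k n))).flatten := by
      intro k
      unfold mirror twists
      rw [List.map_flatten, List.map_replicate]
    rw [e, ← TLData.mirror_twistWord]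
    have e3 : mirror (mirror (twistWord .pos n)) = twistWord .pos n := by
      unfold mirror
      rw [List.map_map]
      conv_rhs => rw [← List.map_id (twistWord .pos n)]
      refine List.map_congr_left fun x _ => ?_
      obtain ⟨k, i⟩ := x
      cases k <;> rfl
    rw [e3]
    rfl
  rw [h2] at h
  exact h

end Abstract

end Pool.Agent.HTW
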