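import Pool.Agent.HTW.Ring

/-!
# The concrete model: real functions on infinite sequences of signs

`true` is `+`, `false` is `-`.  The operators act on the first entries of the sequences.
-/

namespace Pool.Agent.HTW

open Finset

/-- Functions on infinite sequences of signs. -/
abbrev Hf : Type := (ℕ → Bool) → ℝ

/-- Linear operators. -/
abbrev RR : Type := Module.End ℝ Hf

/-- Put a sign in front of a sequence. -/
def scons (x : Bool) (s : ℕ → Bool) : ℕ → Bool
  | 0 => x
  | k + 1 => s k

/-- Remove the first sign. -/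
def stail (s : ℕ → Bool) : ℕ → Bool := fun k => s (k + 1)

/-- The constant sequence `+`. -/
def tt : ℕ → Bool := fun _ => true

/-- The weights of a cup. -/
noncomputable def wt (A : ℝ) : Bool → Bool → ℝ
  | true, false => A
  | false, true => -A⁻¹
  | _, _ => 0

theorem scons_stail (s : ℕ → Bool) : scons (s 0) (stail s) = s := by
  funext k
  cases k <;> rfl

/-- The shift of operators: `id ⊗ T`. -/
noncomputable def shiftEnd : RR →ₐ[ℝ] RR where
  toFun T :=
    { toFun := fun f s => T (fun s' => f (scons (s 0) s')) (stail s)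
      map_add' := by
        intro f g
        funext s
        exact congrFun (map_add T (fun s' => f (scons (s 0) s')) (fun s' => g (scons (s 0) s')))
          (stail s)
      map_smul' := by
        intro c f
        funext s
        exact congrFun (map_smul T c (fun s' => f (scons (s 0) s'))) (stail s) }
  map_one' := by
    refine LinearMap.ext fun f => ?_
    funext s
    exact congrArg f (scons_stail s)
  map_mul' := by
    intro T T'
    refine LinearMap.ext fun f => ?_
    funext s
    rfl
  map_zero' := by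
    refine LinearMap.ext fun f => ?_
    funext s
    rfl
  map_add' := by
    intro T T'
    refine LinearMap.ext fun f => ?_
    funext s
    rfl
  commutes' := by
    intro r
    refine LinearMap.ext fun f => ?_
    funext s
    exact congrArg (fun t => r * f t) (scons_stail s)

/-- The cup. -/
noncomputable def cupEnd (A : ℝ) : RR where
  toFun f := fun s => wt A (s 0) (s 1) * f (stail (stail s))
  map_add' := by
    intro f g
    funext s
    exact mul_add _ _ _
  map_smul' := by
    intro c f
    funext s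
    exact mul_left_comm _ _ _

/-- The cap. -/
noncomputable def capEnd (A : ℝ) : RR where
  toFun f := fun s => ∑ x : Bool, ∑ y : Bool, -(wt A x y) * f (scons x (scons y s))
  map_add' := by
    intro f g
    funext s
    simp only [Pi.add_apply, mul_add, Finset.sum_add_distrib]
  map_smul' := by
    intro c f
    funext s
    simp only [Pi.smul_apply, smul_eq_mul, RingHom.id_apply, Finset.mul_sum]
    refine Finset.sum_congr rfl fun x _ => Finset.sum_congr rfl fun y _ => ?_
    ring

theorem shiftEnd_apply (T : RR) (f : Hf) (s : ℕ → Bool) :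
    shiftEnd T f s = T (fun s' => f (scons (s 0) s')) (stail s) := rfl

theorem cupEnd_apply (A : ℝ) (f : Hf) (s : ℕ → Bool) :
    cupEnd A f s = wt A (s 0) (s 1) * f (stail (stail s)) := rfl

theorem capEnd_apply (A : ℝ) (f : Hf) (s : ℕ → Bool) :
    capEnd A f s = ∑ x : Bool, ∑ y : Bool, -(wt A x y) * f (scons x (scons y s)) := rfl

theorem capEnd_eq (A : ℝ) (f : Hf) (s : ℕ → Bool) :
    capEnd A f s = -A * f (scons true (scons false s)) +
      A⁻¹ * f (scons false (scons true s)) := by
  rw [capEnd_apply]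
  simp only [Fintype.sum_bool]
  simp only [wt]
  ring

/-- The concrete data. -/
noncomputable def tl (A : ℝ) (hA : A ≠ 0) : TLData RR where
  A := A
  hA := hA
  S := shiftEnd
  u := cupEnd A
  n := capEnd A
  nu := by
    refine LinearMap.ext fun f => ?_
    funext s
    have h1 : (capEnd A * cupEnd A) f s = capEnd A (cupEnd A f) s := rfl
    rw [h1, capEnd_eq, cupEnd_apply, cupEnd_apply]
    have h2 : stail (stail (scons true (scons false s))) = s := rfl
    have h3 : stail (stail (scons false (scons true s))) = s := rfl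
    have h4 : wt A (scons true (scons false s) 0) (scons true (scons false s) 1) = A := rfl
    have h5 : wt A (scons false (scons true s) 0) (scons false (scons true s) 1) = -A⁻¹ := rfl
    rw [h2, h3, h4, h5]
    have h6 : ((-(A ^ 2) - (A⁻¹) ^ 2) • (1 : RR)) f s = (-(A ^ 2) - (A⁻¹) ^ 2) * f s := rfl
    rw [h6]
    ring
  Snu := by
    refine LinearMap.ext fun f => ?_
    funext s
    have h1 : (shiftEnd (capEnd A) * cupEnd A) f s =
        capEnd A (fun s' => cupEnd A f (scons (s 0) s')) (stail s) := rfl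
    rw [h1, capEnd_eq, cupEnd_apply, cupEnd_apply]
    have h2 : stail (stail (scons (s 0) (scons true (scons false (stail s))))) =
        scons false (stail s) := rfl
    have h3 : stail (stail (scons (s 0) (scons false (scons true (stail s))))) =
        scons true (stail s) := rfl
    have h4 : wt A (scons (s 0) (scons true (scons false (stail s))) 0)
        (scons (s 0) (scons true (scons false (stail s))) 1) = wt A (s 0) true := rfl
    have h5 : wt A (scons (s 0) (scons false (scons true (stail s))) 0)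
        (scons (s 0) (scons false (scons true (stail s))) 1) = wt A (s 0) false := rfl
    rw [h2, h3, h4, h5]
    have h6 : (1 : RR) f s = f (scons (s 0) (stail s)) := by
      rw [scons_stail]
      rfl
    rw [h6]
    cases s 0
    · simp only [wt]
      field_simp
      ring
    · simp only [wt]
      field_simp
      ring
  nSu := by
    refine LinearMap.ext fun f => ?_
    funext s
    have h1 : (capEnd A * shiftEnd (cupEnd A)) f s =
        capEnd A (fun s' => cupEnd A (fun s'' => f (scons (s' 0) s'')) (stail s')) s := rfl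
    rw [h1, capEnd_eq, cupEnd_apply, cupEnd_apply]
    have h2 : stail (stail (stail (scons true (scons false s)))) = stail s := rfl
    have h3 : stail (stail (stail (scons false (scons true s)))) = stail s := rfl
    have h4 : wt A (stail (scons true (scons false s)) 0)
        (stail (scons true (scons false s)) 1) = wt A false (s 0) := rfl
    have h5 : wt A (stail (scons false (scons true s)) 0)
        (stail (scons false (scons true s)) 1) = wt A true (s 0) := rfl
    have h7 : scons true (scons false s) 0 = true := rfl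
    have h8 : scons false (scons true s) 0 = false := rfl
    rw [h2, h3, h4, h5, h7, h8]
    have h6 : (1 : RR) f s = f (scons (s 0) (stail s)) := by
      rw [scons_stail]
      rfl
    rw [h6]
    cases s 0
    · simp only [wt]
      field_simp
      ring
    · simp only [wt]
      field_simp
      ring
  SSu := by
    intro T
    refine LinearMap.ext fun f => ?_
    funext s
    have h1 : (shiftEnd (shiftEnd T) * cupEnd A) f s =
        T (fun s'' => cupEnd A f (scons (s 0) (scons (s 1) s''))) (stail (stail s)) := rfl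
    have h2 : (fun s'' => cupEnd A f (scons (s 0) (scons (s 1) s''))) =
        wt A (s 0) (s 1) • f := by
      funext s''
      rfl
    rw [h1, h2, map_smul]
    rfl
  nSS := by
    intro T
    refine LinearMap.ext fun f => ?_
    funext s
    have h1 : (capEnd A * shiftEnd (shiftEnd T)) f s =
        capEnd A (fun s' => T (fun s'' => f (scons (s' 0) (scons (s' 1) s'')))
          (stail (stail s'))) s := rfl
    rw [h1, capEnd_eq]
    have h2 : (T * capEnd A) f s = T (capEnd A f) s := rfl
    have h3 : capEnd A f = (-A) • (fun s'' => f (scons true (scons false s''))) +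
        A⁻¹ • (fun s'' => f (scons false (scons true s''))) := by
      funext s''
      exact capEnd_eq A f s''
    rw [h2, h3, map_add, map_smul, map_smul]
    rfl

/-- `f` depends only on the first `a` signs. -/
def Dep (a : ℕ) (f : Hf) : Prop := ∀ s s' : ℕ → Bool, (∀ k < a, s k = s' k) → f s = f s'

/-- The scalar product on the functions of `a` signs (continued by `+`). -/
noncomputable def ip : ℕ → Hf → Hf → ℝ
  | 0, f, g => f tt * g tt
  | a + 1, f, g => ∑ x : Bool, ip a (fun s => f (scons x s)) (fun s => g (scons x s))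

/-- Adjoint operators. -/
def Adj (a b : ℕ) (T T' : RR) : Prop := ∀ f g : Hf, ip b (T f) g = ip a f (T' g)

/-- `‖T‖² ≤ C` (as an operator from `a` signs to `b` signs). -/
def Bd (a b : ℕ) (T : RR) (C : ℝ) : Prop := ∀ f : Hf, ip b (T f) (T f) ≤ C * ip a f f

theorem ip_symm (a : ℕ) (f g : Hf) : ip a f g = ip a g f := by
  induction a generalizing f g with
  | zero => exact mul_comm _ _
  | succ a ih => exact Finset.sum_congr rfl fun x _ => ih _ _

theorem ip_add_left (a : ℕ) (f g h : Hf) : ip a (f + g) h = ip a f h + ip a g h := by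
  induction a generalizing f g h with
  | zero => exact add_mul _ _ _
  | succ a ih =>
    have h1 : ip (a + 1) (f + g) h = ∑ x : Bool, (ip a (fun s => f (scons x s))
        (fun s => h (scons x s)) + ip a (fun s => g (scons x s)) (fun s => h (scons x s))) :=
      Finset.sum_congr rfl fun x _ => ih _ _ _
    rw [h1, Finset.sum_add_distrib]
    rfl

theorem ip_smul_left (a : ℕ) (c : ℝ) (f h : Hf) : ip a (c • f) h = c * ip a f h := by
  induction a generalizing f h with
  | zero => exact mul_assoc _ _ _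
  | succ a ih =>
    have h1 : ip (a + 1) (c • f) h = ∑ x : Bool, c * ip a (fun s => f (scons x s))
        (fun s => h (scons x s)) := Finset.sum_congr rfl fun x _ => ih _ _
    rw [h1, ← Finset.mul_sum]
    rfl

theorem ip_add_right (a : ℕ) (f g h : Hf) : ip a h (f + g) = ip a h f + ip a h g := by
  rw [ip_symm, ip_add_left, ip_symm a f h, ip_symm a g h]

theorem ip_smul_right (a : ℕ) (c : ℝ) (f h : Hf) : ip a h (c • f) = c * ip a h f := by
  rw [ip_symm, ip_smul_left, ip_symm a f h]

theorem ip_neg_left (a : ℕ) (f h : Hf) : ip a (-f) h = -ip a f h := by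
  have h1 := ip_smul_left a (-1) f h
  rw [neg_one_smul] at h1
  rw [h1]
  ring

theorem ip_neg_right (a : ℕ) (f h : Hf) : ip a h (-f) = -ip a h f := by
  rw [ip_symm, ip_neg_left, ip_symm a f h]

theorem ip_zero_left (a : ℕ) (h : Hf) : ip a 0 h = 0 := by
  have h1 := ip_smul_left a 0 0 h
  rw [zero_smul, zero_mul] at h1
  exact h1

theorem ip_self_nonneg (a : ℕ) (f : Hf) : 0 ≤ ip a f f := by
  induction a generalizing f with
  | zero => exact mul_self_nonneg _
  | succ a ih => exact Finset.sum_nonneg fun x _ => ih _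

theorem ip_mul_le (a : ℕ) (f g : Hf) : ip a f g ^ 2 ≤ ip a f f * ip a g g := by
  have h1 : ∀ t : ℝ, 0 ≤ ip a f f * (t * t) + (2 * ip a f g) * t + ip a g g := by
    intro t
    have h2 := ip_self_nonneg a (t • f + g)
    rw [ip_add_left, ip_add_right, ip_add_right, ip_smul_left, ip_smul_left, ip_smul_right,
      ip_smul_right, ip_symm a g f] at h2
    linarith
  have h3 := discrim_le_zero h1
  rw [discrim] at h3
  nlinarith

theorem sq_apply_tt_le (a : ℕ) (f : Hf) : f tt ^ 2 ≤ ip a f f := by
  induction a generalizing f with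
  | zero =>
    rw [sq]
    exact le_rfl
  | succ a ih =>
    have h1 : ip (a + 1) f f = ∑ x : Bool, ip a (fun s => f (scons x s))
        (fun s => f (scons x s)) := rfl
    rw [h1, Fintype.sum_bool]
    have h2 := ih (fun s => f (scons true s))
    have h3 : scons true tt = tt := by
      funext k
      cases k <;> rfl
    simp only [h3] at h2
    have h4 := ip_self_nonneg a (fun s => f (scons false s))
    linarith

theorem Dep.scons {a : ℕ} {f : Hf} (hf : Dep (a + 1) f) (x : Bool) :
    Dep a (fun s => f (scons x s)) := by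
  intro s s' h
  refine hf _ _ fun k hk => ?_
  cases k with
  | zero => rfl
  | succ k => exact h k (by omega)

theorem dep_of_scons {a : ℕ} {f : Hf} (hf : ∀ x, Dep a (fun s => f (Pool.Agent.HTW.scons x s))) :
    Dep (a + 1) f := by
  intro s s' h
  have h1 := hf (s 0) (stail s) (stail s') fun k hk => h (k + 1) (by omega)
  have h2 : Pool.Agent.HTW.scons (s 0) (stail s) = s := scons_stail s
  have h3 : Pool.Agent.HTW.scons (s 0) (stail s') = s' := by
    rw [h 0 (by omega)]
    exact scons_stail s'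
  simp only [h2, h3] at h1
  exact h1

theorem eq_zero_of_ip {a : ℕ} {f : Hf} (hf : Dep a f) (h : ip a f f = 0) : f = 0 := by
  induction a generalizing f with
  | zero =>
    funext s
    rw [hf s tt fun k hk => absurd hk (Nat.not_lt_zero k)]
    exact mul_self_eq_zero.1 h
  | succ a ih =>
    have h1 : ip (a + 1) f f = ∑ x : Bool, ip a (fun s => f (scons x s))
        (fun s => f (scons x s)) := rfl
    rw [h1] at h
    have h2 := (Finset.sum_eq_zero_iff_of_nonneg fun x _ => ip_self_nonneg a _).1 h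
    funext s
    have h3 := congrFun (ih (hf.scons (s 0)) (h2 (s 0) (Finset.mem_univ _))) (stail s)
    simp only [scons_stail] at h3
    exact h3

variable (A : ℝ) (hA : A ≠ 0)

/-- Evaluation at the sequence `t`. -/
noncomputable def evalEnd (t : ℕ → Bool) : RR where
  toFun f := fun _ => f t
  map_add' := by
    intro f g
    rfl
  map_smul' := by
    intro c f
    rfl

theorem sh_succ_apply (k : ℕ) (T : RR) (f : Hf) (s : ℕ → Bool) :
    (tl A hA).sh (k + 1) T f s = (tl A hA).sh k T (fun s' => f (scons (s 0) s')) (stail s) := rfl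

theorem dep_sh_eval (a : ℕ) (t : ℕ → Bool) (f : Hf) :
    Dep a ((tl A hA).sh a (evalEnd t) f) := by
  induction a generalizing f with
  | zero =>
    intro s s' _
    rfl
  | succ a ih =>
    refine dep_of_scons fun x => ?_
    exact ih (fun s' => f (scons x s'))

theorem sh_eval_of_dep {a : ℕ} {f : Hf} (hf : Dep a f) (t : ℕ → Bool) :
    (tl A hA).sh a (evalEnd t) f = f := by
  induction a generalizing f with
  | zero =>
    funext s
    exact hf t s fun k hk => absurd hk (Nat.not_lt_zero k)
  | succ a ih =>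
    funext s
    rw [sh_succ_apply, ih (hf.scons (s 0))]
    exact congrArg f (scons_stail s)

theorem sh_eval_self (a : ℕ) (f : Hf) (s : ℕ → Bool) :
    (tl A hA).sh a (evalEnd (fun k => s (k + a))) f s = f s := by
  induction a generalizing f s with
  | zero => rfl
  | succ a ih =>
    rw [sh_succ_apply]
    have h1 : (fun k => s (k + (a + 1))) = fun k => stail s (k + a) := by
      funext k
      show s (k + (a + 1)) = s (k + a + 1)
      rfl
    rw [h1, ih, scons_stail]

theorem dep_of_loc {a b : ℕ} {T : RR} (hT : (tl A hA).Loc a b T) {f : Hf} (hf : Dep a f) :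
    Dep b (T f) := by
  have h1 : T ((tl A hA).sh a (evalEnd tt) f) = (tl A hA).sh b (evalEnd tt) (T f) :=
    congrArg (fun Z : RR => Z f) (hT (evalEnd tt))
  rw [sh_eval_of_dep A hA hf] at h1
  rw [h1]
  exact dep_sh_eval A hA b tt (T f)

/-- An operator on `m` strands which vanishes on the functions of `m` signs is zero. -/
theorem eq_zero_of_dep {m : ℕ} {T : RR} (hT : (tl A hA).Loc m m T)
    (h : ∀ f : Hf, Dep m f → T f = 0) : T = 0 := by
  refine LinearMap.ext fun f => ?_
  funext s
  have h1 : T ((tl A hA).sh m (evalEnd (fun k => s (k + m))) f) =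
      (tl A hA).sh m (evalEnd (fun k => s (k + m))) (T f) :=
    congrArg (fun Z : RR => Z f) (hT (evalEnd (fun k => s (k + m))))
  rw [h _ (dep_sh_eval A hA m _ f)] at h1
  rw [← sh_eval_self A hA m (T f) s, ← h1]
  rfl

theorem Adj.mul {a b c : ℕ} {T T' Z Z' : RR} (h : Adj b c T T') (h' : Adj a b Z Z') :
    Adj a c (T * Z) (Z' * T') := by
  intro f g
  exact (h (Z f) g).trans (h' f (T' g))

theorem Adj.add {a b : ℕ} {T T' Z Z' : RR} (h : Adj a b T T') (h' : Adj a b Z Z') :
    Adj a b (T + Z) (T' + Z') := by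
  intro f g
  rw [LinearMap.add_apply, LinearMap.add_apply, ip_add_left, ip_add_right, h f g, h' f g]

theorem Adj.smul {a b : ℕ} {T T' : RR} (h : Adj a b T T') (c : ℝ) :
    Adj a b (c • T) (c • T') := by
  intro f g
  rw [LinearMap.smul_apply, LinearMap.smul_apply, ip_smul_left, ip_smul_right, h f g]

theorem adj_one (a : ℕ) : Adj a a 1 1 := by
  intro f g
  rfl

theorem Adj.symm {a b : ℕ} {T T' : RR} (h : Adj a b T T') : Adj b a T' T := by
  intro f g
  rw [ip_symm, ip_symm b, h g f]

theorem Adj.shiftEnd {a b : ℕ} {T T' : RR} (h : Adj a b T T') :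
    Adj (a + 1) (b + 1) (shiftEnd T) (shiftEnd T') := by
  intro f g
  exact Finset.sum_congr rfl fun x _ => h (fun s => f (scons x s)) (fun s => g (scons x s))

theorem Adj.sh {a b : ℕ} {T T' : RR} (h : Adj a b T T') (k : ℕ) :
    Adj (a + k) (b + k) ((tl A hA).sh k T) ((tl A hA).sh k T') := by
  induction k with
  | zero => exact h
  | succ k ih => exact ih.shiftEnd

theorem adj_u (a : ℕ) : Adj a (a + 2) (tl A hA).u (-(tl A hA).n) := by
  intro f g
  have h1 : ip (a + 2) ((tl A hA).u f) g = ∑ x : Bool, ∑ y : Bool,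
      ip a (wt A x y • f) (fun s => g (scons x (scons y s))) := rfl
  have h2 : (-(tl A hA).n) g = ∑ x : Bool, ∑ y : Bool,
      wt A x y • (fun s => g (scons x (scons y s))) := by
    funext s
    have h3 : (-(tl A hA).n) g s = -(capEnd A g s) := rfl
    rw [h3, capEnd_eq]
    simp only [Fintype.sum_bool]
    simp only [wt, Pi.add_apply, Pi.smul_apply, smul_eq_mul]
    ring
  rw [h1, h2]
  simp only [Fintype.sum_bool, ip_add_right, ip_smul_right, ip_smul_left]

theorem adj_n (a : ℕ) : Adj (a + 2) a (tl A hA).n (-(tl A hA).u) := by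
  have h1 := (adj_u A hA a).symm
  intro f g
  have h2 := h1 f g
  rw [LinearMap.neg_apply, ip_neg_left] at h2
  rw [LinearMap.neg_apply, ip_neg_right, ← h2, neg_neg]

/-! ### The crossings are symmetric -/

/-- Data on the space of functions with the given shift and adjoint cup and cap. -/
structure Good (D : TLData RR) : Prop where
  S : D.S = shiftEnd
  u : ∀ a, Adj a (a + 2) D.u (-D.n)
  n : ∀ a, Adj (a + 2) a D.n (-D.u)

theorem good_tl : Good (tl A hA) := ⟨rfl, adj_u A hA, adj_n A hA⟩

theorem good_mirror : Good (tl A hA).mirror := ⟨rfl, adj_u A hA, adj_n A hA⟩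

section Good

variable {D : TLData RR} (hD : Good D)
include hD

theorem Good.sh_succ (k : ℕ) (Z : RR) : D.sh (k + 1) Z = shiftEnd (D.sh k Z) := by
  rw [← hD.S]
  rfl

theorem Good.adj_sh {a b : ℕ} {T T' : RR} (h : Adj a b T T') (k : ℕ) :
    Adj (a + k) (b + k) (D.sh k T) (D.sh k T') := by
  induction k with
  | zero => exact h
  | succ k ih =>
    rw [hD.sh_succ, hD.sh_succ]
    exact ih.shiftEnd

theorem Good.adj_sg (a : ℕ) : Adj (a + 2) (a + 2) D.sg D.sg := by
  have h1 : Adj (a + 2) (a + 2) (D.u * D.n) (D.u * D.n) := by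
    have h2 := (hD.u a).mul (hD.n a)
    have h3 : -D.u * -D.n = D.u * D.n := neg_mul_neg D.u D.n
    rw [← h3]
    exact (congrArg (fun Z => Adj (a + 2) (a + 2) Z (-D.u * -D.n)) h3).mpr h2
  exact ((adj_one (a + 2)).smul D.A).add (h1.smul D.A⁻¹)

theorem Good.adj_sh_sg (k a : ℕ) (h : k + 2 ≤ a) : Adj a a (D.sh k D.sg) (D.sh k D.sg) := by
  obtain ⟨c, rfl⟩ := Nat.exists_eq_add_of_le h
  have h1 := hD.adj_sh (hD.adj_sg c) k
  have h2 : c + 2 + k = k + 2 + c := by ring
  rw [h2] at h1
  exact h1

omit hD in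
theorem X_one_right_succ (D : TLData RR) (q : ℕ) :
    D.X (q + 1) 1 = D.X q 1 * D.sh q D.sg := by
  rw [D.X_add_left]
  congr 1
  show D.sh q (D.X1 1 * D.S (D.X 0 1)) = D.sh q D.sg
  have h1 : D.X 0 1 = 1 := rfl
  have h2 : D.X1 1 = D.sg := by
    show D.sh 0 D.sg * D.X1 0 = D.sg
    have h3 : D.X1 0 = 1 := rfl
    rw [h3, mul_one]
    rfl
  rw [h1, h2, map_one, mul_one]

omit hD in
theorem X_one_left (D : TLData RR) (q : ℕ) : D.X 1 q = D.X1 q := by
  show D.X1 q * D.S (D.X 0 q) = D.X1 q
  have h1 : D.X 0 q = 1 := rfl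
  rw [h1, map_one, mul_one]

theorem Good.adj_X1 (q a : ℕ) (h : q + 1 ≤ a) : Adj a a (D.X1 q) (D.X q 1) := by
  induction q with
  | zero => exact adj_one a
  | succ q ih =>
    rw [X_one_right_succ]
    exact (hD.adj_sh_sg q a (by omega)).mul (ih (by omega))

theorem Good.adj_X (p q a : ℕ) (h : p + q ≤ a) : Adj a a (D.X p q) (D.X q p) := by
  induction p generalizing a with
  | zero =>
    have h1 : ∀ q, D.X q 0 = 1 := by
      intro q
      induction q with
      | zero => rfl
      | succ q ih =>
        show D.X1 0 * D.S (D.X q 0) = 1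
        have h3 : D.X1 0 = 1 := rfl
        rw [ih, h3, map_one, mul_one]
    rw [h1]
    exact adj_one a
  | succ p ih =>
    obtain ⟨c, rfl⟩ : ∃ c, a = c + 1 := ⟨a - 1, by omega⟩
    have h1 : D.X q (p + 1) = D.S (D.X q p) * D.X q 1 := by
      rw [add_comm p 1, D.X_add_right]
      rfl
    rw [h1]
    have h2 : Adj (c + 1) (c + 1) (D.S (D.X p q)) (D.S (D.X q p)) := by
      rw [hD.S]
      exact (ih c (by omega)).shiftEnd
    exact (hD.adj_X1 q (c + 1) (by omega)).mul h2

theorem Good.adj_th (m a : ℕ) (h : m ≤ a) : Adj a a (D.th m) (D.th m) := by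
  induction m generalizing a with
  | zero => exact adj_one a
  | succ m ih =>
    obtain ⟨c, rfl⟩ : ∃ c, a = c + 1 := ⟨a - 1, by omega⟩
    have h2 : Adj (c + 1) (c + 1) (D.S (D.th m)) (D.S (D.th m)) := by
      rw [hD.S]
      exact (ih c (by omega)).shiftEnd
    have h3 : D.X m 1 * D.X1 m * D.S (D.th m) = D.S (D.th m) * (D.X m 1 * D.X1 m) := by
      have h4 := (D.nt_th m).right 1
      have h5 := (D.nt_th m).left 1
      rw [X_one_left] at h4
      have h6 : ∀ Z : RR, D.sh 1 Z = D.S Z := fun Z => rfl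
      rw [h6] at h4 h5
      rw [mul_assoc, h4, ← mul_assoc, h5, mul_assoc]
    have h7 : Adj (c + 1) (c + 1) (D.X m 1 * D.X1 m) (D.X m 1 * D.X1 m) := by
      have h8 := hD.adj_X m 1 (c + 1) (by omega)
      rw [X_one_left] at h8
      exact h8.mul (hD.adj_X1 m (c + 1) (by omega))
    have h9 := (h7.mul h2).smul (-(D.A ^ 3))
    rw [← h3] at h9
    exact h9

end Good

theorem adj_X (p q a : ℕ) (h : p + q ≤ a) : Adj a a ((tl A hA).X p q) ((tl A hA).X q p) :=
  (good_tl A hA).adj_X p q a h

theorem adj_mirror_X (p q a : ℕ) (h : p + q ≤ a) :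
    Adj a a ((tl A hA).mirror.X p q) ((tl A hA).mirror.X q p) :=
  (good_mirror A hA).adj_X p q a h

theorem adj_th (m a : ℕ) (h : m ≤ a) : Adj a a ((tl A hA).th m) ((tl A hA).th m) :=
  (good_tl A hA).adj_th m a h

theorem adj_mirror_th (m a : ℕ) (h : m ≤ a) :
    Adj a a ((tl A hA).mirror.th m) ((tl A hA).mirror.th m) :=
  (good_mirror A hA).adj_th m a h

theorem Bd.mul {a b c : ℕ} {T Z : RR} {C C' : ℝ} (hC : 0 ≤ C) (h : Bd b c T C)
    (h' : Bd a b Z C') : Bd a c (T * Z) (C * C') := by
  intro f
  calc ip c ((T * Z) f) ((T * Z) f) ≤ C * ip b (Z f) (Z f) := h (Z f)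
    _ ≤ C * (C' * ip a f f) := mul_le_mul_of_nonneg_left (h' f) hC
    _ = C * C' * ip a f f := by ring

theorem Bd.shiftEnd {a b : ℕ} {T : RR} {C : ℝ} (h : Bd a b T C) :
    Bd (a + 1) (b + 1) (shiftEnd T) C := by
  intro f
  have h1 : ip (b + 1) (Pool.Agent.HTW.shiftEnd T f) (Pool.Agent.HTW.shiftEnd T f) =
      ∑ x : Bool, ip b (T (fun s => f (scons x s))) (T (fun s => f (scons x s))) := rfl
  have h2 : ip (a + 1) f f = ∑ x : Bool, ip a (fun s => f (scons x s))
        (fun s => f (scons x s)) := rfl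
  rw [h1, h2, Finset.mul_sum]
  exact Finset.sum_le_sum fun x _ => h (fun s => f (scons x s))

theorem Bd.sh {a b : ℕ} {T : RR} {C : ℝ} (h : Bd a b T C) (k : ℕ) :
    Bd (a + k) (b + k) ((tl A hA).sh k T) C := by
  induction k with
  | zero => exact h
  | succ k ih => exact ih.shiftEnd

theorem bd_one (a : ℕ) : Bd a a 1 1 := by
  intro f
  rw [one_mul]
  exact le_rfl

theorem n_u_apply (f : Hf) :
    (tl A hA).n ((tl A hA).u f) = (-(A ^ 2) - (A⁻¹) ^ 2) • f := by
  have h1 : ((tl A hA).n * (tl A hA).u) f = ((-(A ^ 2) - (A⁻¹) ^ 2) • (1 : RR)) f :=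
    congrArg (fun Z : RR => Z f) (tl A hA).nu
  exact h1

theorem ip_u_u (a : ℕ) (f : Hf) :
    ip (a + 2) ((tl A hA).u f) ((tl A hA).u f) = (A ^ 2 + (A⁻¹) ^ 2) * ip a f f := by
  rw [adj_u A hA a f ((tl A hA).u f), LinearMap.neg_apply, n_u_apply, ip_neg_right,
    ip_smul_right]
  ring

theorem bd_u (a : ℕ) : Bd a (a + 2) (tl A hA).u (A ^ 2 + (A⁻¹) ^ 2) := by
  intro f
  rw [ip_u_u]

theorem ip_n_n (a : ℕ) (f : Hf) : ip a ((tl A hA).n f) ((tl A hA).n f) =
    -ip (a + 2) f ((tl A hA).u ((tl A hA).n f)) := by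
  rw [adj_n A hA a f ((tl A hA).n f), LinearMap.neg_apply, ip_neg_right]

theorem bd_n (a : ℕ) : Bd (a + 2) a (tl A hA).n (A ^ 2 + (A⁻¹) ^ 2) := by
  intro f
  have h1 := ip_n_n A hA a f
  have h2 := ip_mul_le (a + 2) f ((tl A hA).u ((tl A hA).n f))
  rw [ip_u_u] at h2
  have h3 : ip (a + 2) f ((tl A hA).u ((tl A hA).n f)) = -ip a ((tl A hA).n f) ((tl A hA).n f) := by
    rw [h1, neg_neg]
  rw [h3] at h2
  have h4 := ip_self_nonneg a ((tl A hA).n f)
  have h5 := ip_self_nonneg (a + 2) f
  rcases h4.eq_or_lt with h6 | h6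
  · rw [← h6]
    positivity
  · refine le_of_mul_le_mul_right (a := ip a ((tl A hA).n f) ((tl A hA).n f)) ?_ h6
    nlinarith

theorem sg_apply (f : Hf) : (tl A hA).sg f = A • f + A⁻¹ • (tl A hA).u ((tl A hA).n f) := rfl

theorem bd_sg (h1 : 1 ≤ A) (a : ℕ) : Bd (a + 2) (a + 2) (tl A hA).sg (A ^ 2) := by
  intro f
  simp only [sg_apply, ip_add_left, ip_add_right, ip_smul_left, ip_smul_right, ip_u_u]
  rw [ip_symm (a + 2) ((tl A hA).u ((tl A hA).n f)) f]
  have h2 : ip (a + 2) f ((tl A hA).u ((tl A hA).n f)) = -ip a ((tl A hA).n f) ((tl A hA).n f) := by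
    rw [ip_n_n, neg_neg]
  rw [h2]
  have h3 := ip_self_nonneg a ((tl A hA).n f)
  have h4 : A * A⁻¹ = 1 := mul_inv_cancel₀ hA
  have h5 : A⁻¹ ≤ 1 := inv_le_one_of_one_le₀ h1
  have h6 : 0 < A⁻¹ := inv_pos.2 (by linarith)
  set N := ip a ((tl A hA).n f) ((tl A hA).n f)
  set F := ip (a + 2) f f
  set B := A⁻¹
  have h7 : A * (A * F + B * -N) + B * (A * -N + B * ((A ^ 2 + B ^ 2) * N)) =
      A ^ 2 * F - N * (1 - B ^ 4) := by
    have h8 : A * (A * F + B * -N) + B * (A * -N + B * ((A ^ 2 + B ^ 2) * N)) =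
      A ^ 2 * F - 2 * (A * B) * N + (A * B) ^ 2 * N + B ^ 4 * N := by ring
    rw [h8, h4]
    ring
  rw [h7]
  have h9 : B ^ 4 ≤ 1 := pow_le_one₀ h6.le h5
  nlinarith [mul_nonneg h3 (sub_nonneg.2 h9)]

theorem bd_sh_sg (h1 : 1 ≤ A) (k a : ℕ) (h : k + 2 ≤ a) :
    Bd a a ((tl A hA).sh k (tl A hA).sg) (A ^ 2) := by
  obtain ⟨c, rfl⟩ := Nat.exists_eq_add_of_le h
  have h3 := (bd_sg A hA h1 c).sh A hA k
  have h2 : c + 2 + k = k + 2 + c := by ring
  rw [h2] at h3
  exact h3

theorem bd_X1 (h1 : 1 ≤ A) (q a k : ℕ) (h : k + 1 + q ≤ a) :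
    Bd a a ((tl A hA).sh k ((tl A hA).X1 q)) (A ^ (2 * q)) := by
  induction q with
  | zero =>
    have h2 : (tl A hA).X1 0 = 1 := rfl
    rw [h2, map_one]
    exact bd_one a
  | succ q ih =>
    have h2 : (tl A hA).X1 (q + 1) = (tl A hA).sh q (tl A hA).sg * (tl A hA).X1 q := rfl
    rw [h2, map_mul, ← (tl A hA).sh_add]
    have h3 := (bd_sh_sg A hA h1 (k + q) a (by omega)).mul (by positivity) (ih (by omega))
    have h4 : A ^ (2 * (q + 1)) = A ^ 2 * A ^ (2 * q) := by ring
    rw [h4]
    exact h3

theorem bd_X (h1 : 1 ≤ A) (p q a k : ℕ) (h : k + p + q ≤ a) :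
    Bd a a ((tl A hA).sh k ((tl A hA).X p q)) (A ^ (2 * (p * q))) := by
  induction p generalizing k with
  | zero =>
    have h2 : (tl A hA).X 0 q = 1 := rfl
    rw [h2, map_one, zero_mul]
    exact bd_one a
  | succ p ih =>
    have h2 : (tl A hA).X (p + 1) q = (tl A hA).X1 q * (tl A hA).sh 1 ((tl A hA).X p q) := rfl
    rw [h2, map_mul, ← (tl A hA).sh_add]
    have h3 := (bd_X1 A hA h1 q a k (by omega)).mul (by positivity) (ih (k + 1) (by omega))
    have h4 : A ^ (2 * ((p + 1) * q)) = A ^ (2 * q) * A ^ (2 * (p * q)) := by ring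
    rw [h4]
    exact h3

theorem bd_sh_u (a k : ℕ) (h : k ≤ a) :
    Bd a (a + 2) ((tl A hA).sh k (tl A hA).u) (A ^ 2 + (A⁻¹) ^ 2) := by
  obtain ⟨c, rfl⟩ := Nat.exists_eq_add_of_le h
  have h3 := (bd_u A hA c).sh A hA k
  have h2 : c + 2 + k = k + c + 2 := by ring
  rw [h2, add_comm c k] at h3
  exact h3

theorem bd_sh_n (a k : ℕ) (h : k ≤ a) :
    Bd (a + 2) a ((tl A hA).sh k (tl A hA).n) (A ^ 2 + (A⁻¹) ^ 2) := by
  obtain ⟨c, rfl⟩ := Nat.exists_eq_add_of_le h
  have h3 := (bd_n A hA c).sh A hA k
  have h2 : c + 2 + k = k + c + 2 := by ring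
  rw [h2, add_comm c k] at h3
  exact h3

theorem bd_U (h1 : 1 ≤ A) (m a k : ℕ) (h : k ≤ a) :
    Bd a (a + 2 * m) ((tl A hA).sh k ((tl A hA).U m)) ((A ^ 2 + (A⁻¹) ^ 2) ^ m) := by
  induction m with
  | zero =>
    have h2 : (tl A hA).U 0 = 1 := rfl
    rw [h2, map_one]
    exact bd_one a
  | succ m ih =>
    have h2 : (tl A hA).U (m + 1) = (tl A hA).sh m (tl A hA).u * (tl A hA).U m := rfl
    rw [h2, map_mul, ← (tl A hA).sh_add]
    have h3 := (bd_sh_u A hA (a + 2 * m) (k + m) (by omega)).mul (by positivity) ih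
    rw [pow_succ']
    exact h3

theorem bd_N (h1 : 1 ≤ A) (m a k : ℕ) (h : k ≤ a) :
    Bd (a + 2 * m) a ((tl A hA).sh k ((tl A hA).N m)) ((A ^ 2 + (A⁻¹) ^ 2) ^ m) := by
  induction m with
  | zero =>
    have h2 : (tl A hA).N 0 = 1 := rfl
    rw [h2, map_one]
    exact bd_one a
  | succ m ih =>
    have h2 : (tl A hA).N (m + 1) = (tl A hA).N m * (tl A hA).sh m (tl A hA).n := rfl
    rw [h2, map_mul, ← (tl A hA).sh_add]
    have h3 := ih.mul (by positivity) (bd_sh_n A hA (a + 2 * m) (k + m) (by omega))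
    rw [pow_succ]
    exact h3

end Pool.Agent.HTW
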