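import Pool.Agent.HTW.Space

/-!
# Spectral decomposition of the full twist and norm bounds

For `A > 1` the full twist `θ_m` of `m` strands is symmetric, and
`∏_{j = m, m-2, ...} (θ_m - μ_j) = 0` with `μ_j = (-1)^j A^(j^2+2j)`.  `Q m j` is the
corresponding spectral projection, a polynomial in `θ_m`.
-/

namespace Pool.Agent.HTW

open Finset Polynomial

/-- The channels `m, m-2, ...` of `m` strands. -/
def chans (m : ℕ) : Finset ℕ := (range (m + 1)).filter (fun j => (m + j) % 2 = 0)

variable (A : ℝ) (hA : A ≠ 0)

/-- The spectral projection of the full twist on `m` strands. -/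
noncomputable def Q (m j : ℕ) : RR :=
  aeval ((tl A hA).th m) (Lagrange.basis (chans m) (tl A hA).mu j)

/-- The polynomial with the roots `μ_j`, `j` a channel of `m`. -/
noncomputable def chanPoly (m : ℕ) : ℝ[X] := ∏ j ∈ chans m, (X - C ((tl A hA).mu j))

/-- The vector `+ + ... +` (`m` signs). -/
noncomputable def vplus (m : ℕ) : Hf := fun s => if ∀ k < m, s k = true then 1 else 0

theorem dep_vplus (m : ℕ) : Dep m (vplus m) := by
  intro s s' h
  unfold vplus
  have h1 : (∀ k < m, s k = true) ↔ ∀ k < m, s' k = true :=
    forall₂_congr fun k hk => by rw [h k hk]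
  rw [if_congr h1 rfl rfl]

theorem vplus_scons_true (m : ℕ) : (fun s => vplus (m + 1) (scons true s)) = vplus m := by
  funext s
  unfold vplus
  refine if_congr ⟨fun h k hk => h (k + 1) (by omega), fun h k hk => ?_⟩ rfl rfl
  cases k with
  | zero => rfl
  | succ k => exact h k (by omega)

theorem vplus_scons_false (m : ℕ) : (fun s => vplus (m + 1) (scons false s)) = 0 := by
  funext s
  unfold vplus
  rw [if_neg]
  · rfl
  · intro h
    exact Bool.false_ne_true (h 0 (by omega))

theorem ip_vplus (m : ℕ) : ip m (vplus m) (vplus m) = 1 := by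
  induction m with
  | zero =>
    have h1 : vplus 0 tt = 1 := by
      unfold vplus
      exact if_pos fun k hk => absurd hk (Nat.not_lt_zero k)
    show vplus 0 tt * vplus 0 tt = 1
    rw [h1, one_mul]
  | succ m ih =>
    show ∑ x : Bool, ip m (fun s => vplus (m + 1) (scons x s))
      (fun s => vplus (m + 1) (scons x s)) = 1
    rw [Fintype.sum_bool, vplus_scons_true, vplus_scons_false, ih, ip_zero_left, add_zero]

/-- The crossing on `+ +`. -/
theorem sg_vplus (m i : ℕ) (hi : i + 2 ≤ m) :
    (tl A hA).sh i (tl A hA).sg (vplus m) = A • vplus m := by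
  induction i generalizing m with
  | zero =>
    obtain ⟨c, rfl⟩ : ∃ c, m = c + 2 := ⟨m - 2, by omega⟩
    show (tl A hA).sg (vplus (c + 2)) = A • vplus (c + 2)
    have h1 : (tl A hA).n (vplus (c + 2)) = 0 := by
      funext s
      have h2 : (tl A hA).n (vplus (c + 2)) s = -A * vplus (c + 1 + 1) (scons true (scons false s)) +
          A⁻¹ * vplus (c + 1 + 1) (scons false (scons true s)) := capEnd_eq A _ s
      have h3 : vplus (c + 1 + 1) (scons true (scons false s)) =
          vplus (c + 1) (scons false s) := congrFun (vplus_scons_true (c + 1)) (scons false s)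
      have h4 : vplus (c + 1) (scons false s) = 0 := congrFun (vplus_scons_false c) s
      have h5 : vplus (c + 1 + 1) (scons false (scons true s)) = 0 :=
        congrFun (vplus_scons_false (c + 1)) (scons true s)
      rw [h2, h3, h4, h5]
      simp
    rw [sg_apply, h1, map_zero, smul_zero, add_zero]
  | succ i ih =>
    obtain ⟨c, rfl⟩ : ∃ c, m = c + 1 := ⟨m - 1, by omega⟩
    funext s
    rw [sh_succ_apply]
    cases hs : s 0 with
    | true =>
      rw [vplus_scons_true, ih c (by omega)]
      have h1 : vplus c (stail s) = vplus (c + 1) s := by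
        have h2 := congrFun (vplus_scons_true c) (stail s)
        have h3 := scons_stail s
        rw [hs] at h3
        simp only [h3] at h2
        exact h2.symm
      show A * vplus c (stail s) = A * vplus (c + 1) s
      rw [h1]
    | false =>
      rw [vplus_scons_false, map_zero]
      have h1 : vplus (c + 1) s = 0 := by
        have h2 := congrFun (vplus_scons_false c) (stail s)
        have h3 := scons_stail s
        rw [hs] at h3
        simp only [h3] at h2
        exact h2
      show (0 : ℝ) = A * vplus (c + 1) s
      rw [h1, mul_zero]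

end Pool.Agent.HTW
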