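import Pool.Agent.HTW.Spec
import Pool.Agent.HTW.Alg2

/-!
# Spectral decomposition of the full twist: the projections and norm bounds
-/

set_option linter.unusedSectionVars false
set_option linter.unusedVariables false

namespace Pool.Agent.HTW

open Finset Polynomial

/-! ### The channels -/

theorem mem_chans {m j : ℕ} : j ∈ chans m ↔ j ≤ m ∧ (m + j) % 2 = 0 := by
  unfold chans
  rw [mem_filter, mem_range, Nat.lt_succ_iff]

theorem chans_succ (m : ℕ) : chans (m + 2) = insert (m + 2) (chans m) := by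
  ext j
  rw [mem_insert, mem_chans, mem_chans]
  omega

theorem self_mem_chans (m : ℕ) : m ∈ chans m := by
  rw [mem_chans]
  omega

theorem notMem_chans (m : ℕ) : m + 2 ∉ chans m := by
  rw [mem_chans]
  omega

theorem chans_zero : chans 0 = {0} := by
  ext j
  rw [mem_chans, mem_singleton]
  omega

theorem chans_one : chans 1 = {1} := by
  ext j
  rw [mem_chans, mem_singleton]
  omega

/-! ### Polynomials in the full twist (abstract) -/

section Abstract

variable {R : Type} [Ring R] [Algebra ℝ R]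

theorem aeval_comm {a b c : R} (h : b * c = c * a) (p : ℝ[X]) :
    aeval b p * c = c * aeval a p := by
  induction p using Polynomial.induction_on with
  | C r => rw [aeval_C, aeval_C, Algebra.commutes]
  | add p q hp hq => rw [map_add, map_add, add_mul, mul_add, hp, hq]
  | monomial n r ih =>
    have e : ∀ x : R, aeval x (C r * X ^ (n + 1)) = aeval x (C r * X ^ n) * x := by
      intro x
      rw [pow_succ, ← mul_assoc, map_mul, aeval_X]
    rw [e, e, mul_assoc, h, ← mul_assoc, ih, mul_assoc]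

variable (D : TLData R)

namespace TLData

/-- The polynomial with the roots `μ_j`, `j` a channel of `m`. -/
noncomputable def cpoly (m : ℕ) : ℝ[X] := ∏ j ∈ chans m, (Polynomial.X - C (D.mu j))

/-- The roots above `j`. -/
noncomputable def hpoly (m j : ℕ) : ℝ[X] :=
  ∏ i ∈ (chans m).filter (fun i => j < i), (Polynomial.X - C (D.mu i))

theorem cpoly_succ (m : ℕ) : D.cpoly (m + 2) = D.cpoly m * (Polynomial.X - C (D.mu (m + 2))) := by
  unfold cpoly
  rw [chans_succ, prod_insert (notMem_chans m), mul_comm]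

theorem hpoly_succ {m j : ℕ} (h : j ≤ m) :
    D.hpoly (m + 2) j = D.hpoly m j * (Polynomial.X - C (D.mu (m + 2))) := by
  unfold hpoly
  rw [chans_succ, filter_insert, if_pos (by omega), prod_insert, mul_comm]
  intro h'
  exact notMem_chans m (mem_filter.1 h').1

theorem hpoly_self (j : ℕ) : D.hpoly j j = 1 := by
  unfold hpoly
  rw [filter_eq_empty_iff.2, prod_empty]
  intro i hi
  have := (mem_chans.1 hi).1
  omega

theorem nt_aeval (m : ℕ) (p : ℝ[X]) : D.Nt m m (aeval (D.th m) p) := by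
  induction p using Polynomial.induction_on with
  | C r =>
    rw [aeval_C, Algebra.algebraMap_eq_smul_one]
    exact (D.nt_one m).smul r
  | add p q hp hq =>
    rw [map_add]
    exact hp.add hq
  | monomial n r ih =>
    rw [pow_succ, ← mul_assoc, map_mul, aeval_X]
    exact ih.mul (D.nt_th m)

variable {D}

/-- A polynomial which kills the twist of `j` strands kills everything that factors through
`j` strands. -/
theorem Thr.kill {m j : ℕ} {p : ℝ[X]} (hp : aeval (D.th j) p = 0) {Y : R}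
    (hY : Y ∈ D.Thr m j) : aeval (D.th m) p * Y = 0 := by
  refine AddSubgroup.closure_induction (p := fun Y _ => aeval (D.th m) p * Y = 0) ?_ ?_ ?_ ?_ hY
  · rintro _ ⟨c, T, hc, hT, rfl⟩
    rw [← mul_assoc, aeval_comm hc.tw, hp, mul_zero, zero_mul]
  · rw [mul_zero]
  · intro x y _ _ hx hy
    rw [mul_add, hx, hy, add_zero]
  · intro x _ hx
    rw [mul_neg, hx, neg_zero]

theorem Thr.trans {m k j : ℕ} {c T Z : R} (hc : D.Nt k m c) (hT : D.Nt m k T)
    (hZ : Z ∈ D.Thr k j) : c * Z * T ∈ D.Thr m j := by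
  refine AddSubgroup.closure_induction (p := fun Z _ => c * Z * T ∈ D.Thr m j) ?_ ?_ ?_ ?_ hZ
  · rintro _ ⟨c', T', hc', hT', rfl⟩
    rw [← mul_assoc, mul_assoc (c * c')]
    exact Thr.mk (hc.mul hc') (hT'.mul hT)
  · rw [mul_zero, zero_mul]
    exact zero_mem _
  · intro x y _ _ hx hy
    rw [mul_add, add_mul]
    exact add_mem hx hy
  · intro x _ hx
    rw [mul_neg, neg_mul]
    exact neg_mem hx

theorem Thr.tensor {m j : ℕ} {Y Z : R} (hY : Y ∈ D.Thr m j) (hZ : Z ∈ D.Thr m j) :
    Y * D.sh m Z ∈ D.Thr (m + m) (j + j) := by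
  refine AddSubgroup.closure_induction
    (p := fun Y _ => Y * D.sh m Z ∈ D.Thr (m + m) (j + j)) ?_ ?_ ?_ ?_ hY
  · rintro _ ⟨c, T, hc, hT, rfl⟩
    refine AddSubgroup.closure_induction
      (p := fun Z _ => c * T * D.sh m Z ∈ D.Thr (m + m) (j + j)) ?_ ?_ ?_ ?_ hZ
    · rintro _ ⟨c', T', hc', hT', rfl⟩
      have e : c * T * D.sh m (c' * T') = (c * D.sh j c') * (T * D.sh m T') := by
        rw [map_mul]
        calc c * T * (D.sh m c' * D.sh m T') = c * (T * D.sh m c') * D.sh m T' := by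
              simp only [mul_assoc]
          _ = c * (D.sh j c' * T) * D.sh m T' := by rw [hT.loc]
          _ = _ := by simp only [mul_assoc]
      rw [e]
      exact Thr.mk ((hc.ext m).mul (hc'.sh j)) ((hT.ext j).mul (hT'.sh m))
    · rw [map_zero, mul_zero]
      exact zero_mem _
    · intro x y _ _ hx hy
      rw [map_add, mul_add]
      exact add_mem hx hy
    · intro x _ hx
      rw [map_neg, mul_neg]
      exact neg_mem hx
  · rw [zero_mul]
    exact zero_mem _
  · intro x y _ _ hx hy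
    rw [add_mul]
    exact add_mem hx hy
  · intro x _ hx
    rw [neg_mul]
    exact neg_mem hx

variable (D)

theorem cpoly_th (m : ℕ) : aeval (D.th m) (D.cpoly m) = 0 := by
  induction m using Nat.twoStepInduction with
  | zero =>
    unfold cpoly
    rw [chans_zero, prod_singleton, map_sub, aeval_X, aeval_C, D.th_zero,
      Algebra.algebraMap_eq_smul_one, sub_self]
  | one =>
    unfold cpoly
    rw [chans_one, prod_singleton, map_sub, aeval_X, aeval_C, D.th_one,
      Algebra.algebraMap_eq_smul_one, sub_self]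
  | more m ih _ =>
    rw [cpoly_succ, map_mul, map_sub, aeval_X, aeval_C, Algebra.algebraMap_eq_smul_one]
    exact Thr.kill ih (D.th_sub_mu m)

theorem hpoly_th (j r : ℕ) : aeval (D.th (j + 2 * r)) (D.hpoly (j + 2 * r) j) ∈
    D.Thr (j + 2 * r) j := by
  induction r with
  | zero =>
    rw [Nat.mul_zero, Nat.add_zero, hpoly_self, map_one, ← mul_one (1 : R)]
    exact Thr.mk (D.nt_one j) (D.nt_one j)
  | succ r ih =>
    rw [show j + 2 * (r + 1) = j + 2 * r + 2 by ring, D.hpoly_succ (by omega), map_mul, map_sub,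
      aeval_X, aeval_C, Algebra.algebraMap_eq_smul_one]
    have hY := D.th_sub_mu (j + 2 * r)
    refine AddSubgroup.closure_induction
      (p := fun Y _ => aeval (D.th (j + 2 * r + 2)) (D.hpoly (j + 2 * r) j) * Y ∈
        D.Thr (j + 2 * r + 2) j) ?_ ?_ ?_ ?_ hY
    · rintro _ ⟨c, T, hc, hT, rfl⟩
      rw [← mul_assoc, aeval_comm hc.tw]
      exact Thr.trans hc hT ih
    · rw [mul_zero]
      exact zero_mem _
    · intro x y _ _ hx hy
      rw [mul_add]
      exact add_mem hx hy
    · intro x _ hx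
      rw [mul_neg]
      exact neg_mem hx

end TLData

end Abstract

/-! ### Lagrange polynomials -/

theorem basis_eq (s : Finset ℕ) (v : ℕ → ℝ) (i : ℕ) :
    Lagrange.basis s v i = C (∏ j ∈ s.erase i, (v i - v j)⁻¹) *
      ∏ j ∈ s.erase i, (X - C (v j)) := by
  unfold Lagrange.basis Lagrange.basisDivisor
  rw [prod_mul_distrib, map_prod]

theorem sub_mul_basis (s : Finset ℕ) (v : ℕ → ℝ) {i : ℕ} (hi : i ∈ s) :
    (X - C (v i)) * Lagrange.basis s v i = C (∏ j ∈ s.erase i, (v i - v j)⁻¹) *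
      ∏ j ∈ s, (X - C (v j)) := by
  rw [basis_eq, ← mul_prod_erase s (fun j => X - C (v j)) hi]
  ring

theorem basis_mul_basis (s : Finset ℕ) (v : ℕ → ℝ) {i k : ℕ} (hi : i ∈ s) (hik : i ≠ k) :
    ∃ q : ℝ[X], Lagrange.basis s v i * Lagrange.basis s v k = q * ∏ j ∈ s, (X - C (v j)) := by
  rw [basis_eq s v k, ← mul_prod_erase (s.erase k) (fun j => X - C (v j))
    (mem_erase.2 ⟨hik, hi⟩)]
  refine ⟨C (∏ j ∈ s.erase i, (v i - v j)⁻¹) * (C (∏ j ∈ s.erase k, (v k - v j)⁻¹) *
    ∏ j ∈ (s.erase k).erase i, (X - C (v j))), ?_⟩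
  have h := sub_mul_basis s v hi
  linear_combination (C (∏ j ∈ s.erase k, (v k - v j)⁻¹) *
    ∏ j ∈ (s.erase k).erase i, (X - C (v j))) * h

theorem basis_hpoly {R : Type} [Ring R] [Algebra ℝ R] (D : TLData R) (m j : ℕ) :
    ∃ q : ℝ[X], Lagrange.basis (chans m) D.mu j = q * D.hpoly m j := by
  have hsub : (chans m).filter (fun i => j < i) ⊆ (chans m).erase j := by
    intro i hi
    rw [mem_filter] at hi
    exact mem_erase.2 ⟨by omega, hi.1⟩
  refine ⟨C (∏ i ∈ (chans m).erase j, (D.mu j - D.mu i)⁻¹) *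
    ∏ i ∈ (chans m).erase j \ (chans m).filter (fun i => j < i), (X - C (D.mu i)), ?_⟩
  unfold TLData.hpoly
  rw [basis_eq, mul_assoc, prod_sdiff hsub]

/-! ### Symmetric operators -/

/-- The scalar product as a bilinear form. -/
noncomputable def ipL (a : ℕ) : Hf →ₗ[ℝ] Hf →ₗ[ℝ] ℝ :=
  LinearMap.mk₂ ℝ (ip a) (ip_add_left a) (ip_smul_left a)
    (fun f g h => by rw [ip_symm, ip_add_left, ip_symm a g, ip_symm a h])
    (fun c f g => by rw [ip_symm, ip_smul_left, ip_symm a g, smul_eq_mul])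

theorem ipL_apply (a : ℕ) (f g : Hf) : ipL a f g = ip a f g := rfl

theorem ip_sum_left {ι : Type} (a : ℕ) (s : Finset ι) (e : ι → Hf) (g : Hf) :
    ip a (∑ i ∈ s, e i) g = ∑ i ∈ s, ip a (e i) g := by
  simp only [← ipL_apply, map_sum, LinearMap.sum_apply]

theorem ip_sum_right {ι : Type} (a : ℕ) (s : Finset ι) (e : ι → Hf) (f : Hf) :
    ip a f (∑ i ∈ s, e i) = ∑ i ∈ s, ip a f (e i) := by
  simp only [← ipL_apply, map_sum]

/-- The spectral decomposition of a vector with respect to a symmetric operator. -/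
theorem spectral {a : ℕ} {T : RR} (hT : Adj a a T T) (s : Finset ℕ) {v : ℕ → ℝ}
    (hv : Set.InjOn v s) (hs : s.Nonempty) {g : Hf}
    (hg : aeval T (∏ j ∈ s, (X - C (v j))) g = 0) :
    ∃ w : ℕ → ℝ, (∀ i, 0 ≤ w i) ∧ ip a g g = ∑ i ∈ s, w i ∧
      ip a g (T g) = ∑ i ∈ s, v i * w i ∧ ip a (T g) (T g) = ∑ i ∈ s, v i ^ 2 * w i := by
  set e : ℕ → Hf := fun i => aeval T (Lagrange.basis s v i) g with he
  have h1 : ∑ i ∈ s, e i = g := by
    have h := congrArg (fun p => aeval T p g) (Lagrange.sum_basis hv hs)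
    simp only [map_sum, LinearMap.sum_apply, map_one, Module.End.one_apply] at h
    exact h
  have h2 : ∀ i ∈ s, T (e i) = v i • e i := by
    intro i hi
    have h := congrArg (fun p => aeval T p g) (sub_mul_basis s v hi)
    simp only [map_mul, map_sub, aeval_X, aeval_C, Module.End.mul_apply,
      LinearMap.sub_apply, Module.algebraMap_end_apply, hg, smul_zero] at h
    exact sub_eq_zero.1 h
  have h3 : ∀ i ∈ s, ∀ k ∈ s, i ≠ k → ip a (e i) (e k) = 0 := by
    intro i hi k hk hik
    have h := hT (e i) (e k)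
    rw [h2 i hi, h2 k hk, ip_smul_left, ip_smul_right] at h
    have h' : (v i - v k) * ip a (e i) (e k) = 0 := by linear_combination h
    rcases mul_eq_zero.1 h' with h'' | h''
    · exact absurd (hv (mem_coe.2 hi) (mem_coe.2 hk) (sub_eq_zero.1 h'')) hik
    · exact h''
  have h4 : T g = ∑ i ∈ s, v i • e i := by
    rw [← h1, map_sum]
    exact sum_congr rfl h2
  refine ⟨fun i => ip a (e i) (e i), fun i => ip_self_nonneg a _, ?_, ?_, ?_⟩
  · rw [← h1, ip_sum_left]
    refine sum_congr rfl fun i hi => ?_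
    rw [ip_sum_right, sum_eq_single i]
    · intro k hk hki
      exact h3 i hi k hk (Ne.symm hki)
    · intro h
      exact absurd hi h
  · rw [h4]
    conv_lhs => rw [← h1]
    rw [ip_sum_left]
    refine sum_congr rfl fun i hi => ?_
    rw [ip_sum_right, sum_eq_single i]
    · rw [ip_smul_right]
    · intro k hk hki
      rw [ip_smul_right, h3 i hi k hk (Ne.symm hki), mul_zero]
    · intro h
      exact absurd hi h
  · rw [h4, ip_sum_left]
    refine sum_congr rfl fun i hi => ?_
    rw [ip_sum_right, sum_eq_single i]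
    · rw [ip_smul_right, ip_smul_left]
      ring
    · intro k hk hki
      rw [ip_smul_right, ip_smul_left, h3 i hi k hk (Ne.symm hki), mul_zero, mul_zero]
    · intro h
      exact absurd hi h

theorem Adj.aeval' {a : ℕ} {T : RR} (hT : Adj a a T T) (p : ℝ[X]) :
    Adj a a (aeval T p) (aeval T p) := by
  induction p using Polynomial.induction_on with
  | C r =>
    rw [aeval_C, Algebra.algebraMap_eq_smul_one]
    exact (adj_one a).smul r
  | add p q hp hq =>
    rw [map_add]
    exact hp.add hq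
  | monomial n r ih =>
    have e1 : aeval T (C r * X ^ (n + 1)) = aeval T (C r * X ^ n) * T := by
      rw [pow_succ, ← mul_assoc, map_mul, aeval_X]
    have e2 : T * aeval T (C r * X ^ n) = aeval T (C r * X ^ n) * T := by
      rw [← aeval_comm (a := T) (b := T) (c := T) rfl]
    have h := ih.mul hT
    rw [e2] at h
    rwa [e1]

/-! ### The twist of `m` strands -/

variable (A : ℝ) (hA : A ≠ 0)

theorem chanPoly_eq (m : ℕ) : chanPoly A hA m = (tl A hA).cpoly m := rfl

theorem vec_th {m : ℕ} {f : Hf} (hf : ∀ i, i + 2 ≤ m → (tl A hA).sh i (tl A hA).sg f = A • f) :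
    (tl A hA).th m f = (tl A hA).mu m • f := by
  refine (tl A hA).th_induct m (fun Y c => Y f = c • f) ?_ ?_ ?_ ?_ m 0 (by omega)
  · rw [one_smul]
    rfl
  · intro Y Z c d hY hZ
    rw [Module.End.mul_apply, hZ, map_smul, hY, smul_smul, mul_comm]
  · intro Y c a hY
    rw [LinearMap.smul_apply, hY, smul_smul]
  · exact hf

theorem th_vplus (m : ℕ) : (tl A hA).th m (vplus m) = (tl A hA).mu m • vplus m :=
  vec_th A hA (fun i hi => sg_vplus A hA m i hi)

theorem sg_of_cap {i : ℕ} {f : Hf} (hf : (tl A hA).sh i (tl A hA).n f = 0) :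
    (tl A hA).sh i (tl A hA).sg f = A • f := by
  rw [TLData.sh_sg, LinearMap.add_apply, LinearMap.smul_apply, LinearMap.smul_apply,
    Module.End.mul_apply, hf, map_zero, smul_zero, add_zero]
  rfl

/-- On the common kernel of the caps the full twist is the scalar `μ_m`. -/
theorem th_of_caps (m : ℕ) (f : Hf) (hf : ∀ i, i + 2 ≤ m → (tl A hA).sh i (tl A hA).n f = 0) :
    (tl A hA).th m f = (tl A hA).mu m • f :=
  vec_th A hA (fun i hi => sg_of_cap A hA (hf i hi))

theorem chanPoly_th (m : ℕ) : aeval ((tl A hA).th m) (chanPoly A hA m) = 0 :=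
  (tl A hA).cpoly_th m

variable (h1 : 1 < A)
include h1

theorem abs_mu (j : ℕ) : |(tl A hA).mu j| = A ^ (j ^ 2 + 2 * j) := by
  have h0 : 0 < A := by linarith
  unfold TLData.mu
  rw [abs_mul, abs_pow, abs_neg, abs_one, one_pow, one_mul]
  exact abs_of_pos (pow_pos h0 _)

theorem mu_ne_zero (j : ℕ) : (tl A hA).mu j ≠ 0 := by
  have h0 : 0 < A := by linarith
  rw [← abs_pos, abs_mu A hA h1]
  positivity

theorem mu_injOn : Set.InjOn (tl A hA).mu (Set.univ : Set ℕ) := by
  intro i _ j _ hij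
  have h := congrArg abs hij
  rw [abs_mu A hA h1, abs_mu A hA h1] at h
  have h2 : i ^ 2 + 2 * i = j ^ 2 + 2 * j :=
    pow_right_injective₀ (by linarith) (ne_of_gt h1) h
  rcases lt_trichotomy i j with h3 | h3 | h3
  · exfalso
    nlinarith
  · exact h3
  · exfalso
    nlinarith

theorem mu_injOn' (s : Finset ℕ) : Set.InjOn (tl A hA).mu s :=
  (mu_injOn A hA h1).mono (Set.subset_univ _)

theorem sum_Q (m : ℕ) : ∑ j ∈ chans m, Q A hA m j = 1 := by
  have h := congrArg (aeval ((tl A hA).th m))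
    (Lagrange.sum_basis (mu_injOn' A hA h1 (chans m)) ⟨m, self_mem_chans m⟩)
  rw [map_sum, map_one] at h
  exact h

theorem Q_mul_Q (m i j : ℕ) (hi : i ∈ chans m) (hj : j ∈ chans m) (hij : i ≠ j) :
    Q A hA m i * Q A hA m j = 0 := by
  obtain ⟨q, hq⟩ := basis_mul_basis (chans m) (tl A hA).mu hi hij
  unfold Q
  rw [← map_mul, hq, map_mul]
  have h := chanPoly_th A hA m
  unfold chanPoly at h
  rw [h, mul_zero]

theorem Q_mul_self (m j : ℕ) (hj : j ∈ chans m) : Q A hA m j * Q A hA m j = Q A hA m j := by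
  have h : Q A hA m j * ∑ i ∈ chans m, Q A hA m i = Q A hA m j := by
    rw [sum_Q A hA h1, mul_one]
  rw [mul_sum, sum_eq_single j] at h
  · exact h
  · intro i hi hij
    exact Q_mul_Q A hA h1 m j i hj hi (Ne.symm hij)
  · intro h'
    exact absurd hj h'

theorem th_Q (m j : ℕ) (hj : j ∈ chans m) :
    (tl A hA).th m * Q A hA m j = (tl A hA).mu j • Q A hA m j := by
  have h := congrArg (aeval ((tl A hA).th m)) (sub_mul_basis (chans m) (tl A hA).mu hj)
  have h' := chanPoly_th A hA m
  unfold chanPoly at h'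
  rw [map_mul, map_mul, h', mul_zero, map_sub, aeval_X, aeval_C,
    Algebra.algebraMap_eq_smul_one, sub_mul, smul_mul_assoc, one_mul] at h
  exact sub_eq_zero.1 h

theorem mirror_th_Q (m j : ℕ) (hj : j ∈ chans m) :
    (tl A hA).mirror.th m * Q A hA m j = ((tl A hA).mu j)⁻¹ • Q A hA m j := by
  have h : (tl A hA).mirror.th m * ((tl A hA).th m * Q A hA m j) =
      (tl A hA).mirror.th m * ((tl A hA).mu j • Q A hA m j) := by rw [th_Q A hA h1 m j hj]
  rw [← mul_assoc, TLData.mirror_th, one_mul, mul_smul_comm] at h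
  calc (tl A hA).mirror.th m * Q A hA m j = ((tl A hA).mu j)⁻¹ • ((tl A hA).mu j •
        ((tl A hA).mirror.th m * Q A hA m j)) := by
        rw [smul_smul, inv_mul_cancel₀ (mu_ne_zero A hA h1 j), one_smul]
    _ = _ := by rw [← h]

theorem nt_Q (m j : ℕ) : (tl A hA).Nt m m (Q A hA m j) := (tl A hA).nt_aeval m _

theorem adj_Q (m j a : ℕ) (h : m ≤ a) : Adj a a (Q A hA m j) (Q A hA m j) :=
  (adj_th A hA m a h).aeval' _

theorem N_Q (m j : ℕ) : (tl A hA).N m * Q A hA m j =
    (tl A hA).N m * (tl A hA).sh m (Q A hA m j) := by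
  unfold Q
  generalize Lagrange.basis (chans m) (tl A hA).mu j = p
  induction p using Polynomial.induction_on with
  | C r => simp [Algebra.algebraMap_eq_smul_one]
  | add p q hp hq => rw [map_add, map_add, mul_add, mul_add, hp, hq]
  | monomial n r ih =>
    have e : aeval ((tl A hA).th m) (C r * X ^ (n + 1)) =
        aeval ((tl A hA).th m) (C r * X ^ n) * (tl A hA).th m := by
      rw [pow_succ, ← mul_assoc, map_mul, aeval_X]
    have e' : aeval ((tl A hA).th m) (C r * X ^ (n + 1)) =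
        (tl A hA).th m * aeval ((tl A hA).th m) (C r * X ^ n) := by
      rw [pow_succ', mul_left_comm, map_mul, aeval_X]
    rw [e, ← mul_assoc, ih, mul_assoc, ← ((tl A hA).nt_th m).loc, ← mul_assoc,
      (tl A hA).N_th, mul_assoc, ← map_mul, ← e', e]

theorem Q_U (m j : ℕ) : Q A hA m j * (tl A hA).U m =
    (tl A hA).sh m (Q A hA m j) * (tl A hA).U m := by
  unfold Q
  generalize Lagrange.basis (chans m) (tl A hA).mu j = p
  induction p using Polynomial.induction_on with
  | C r => simp [Algebra.algebraMap_eq_smul_one]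
  | add p q hp hq => rw [map_add, map_add, add_mul, add_mul, hp, hq]
  | monomial n r ih =>
    have e : aeval ((tl A hA).th m) (C r * X ^ (n + 1)) =
        aeval ((tl A hA).th m) (C r * X ^ n) * (tl A hA).th m := by
      rw [pow_succ, ← mul_assoc, map_mul, aeval_X]
    have e' : aeval ((tl A hA).th m) (C r * X ^ (n + 1)) =
        (tl A hA).th m * aeval ((tl A hA).th m) (C r * X ^ n) := by
      rw [pow_succ', mul_left_comm, map_mul, aeval_X]
    rw [e', mul_assoc, ih, ← mul_assoc, ((tl A hA).nt_th m).loc, mul_assoc,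
      (tl A hA).th_U, ← mul_assoc, ← map_mul, ← e, e']

theorem Q_vplus (m : ℕ) : Q A hA m m (vplus m) = vplus m := by
  have h : ∀ p : ℝ[X], aeval ((tl A hA).th m) p (vplus m) =
      p.eval ((tl A hA).mu m) • vplus m := by
    intro p
    induction p using Polynomial.induction_on with
    | C r =>
      rw [aeval_C, Module.algebraMap_end_apply, eval_C]
    | add p q hp hq =>
      rw [map_add, LinearMap.add_apply, hp, hq, eval_add, add_smul]
    | monomial n r ih =>
      rw [pow_succ, ← mul_assoc, map_mul, aeval_X, Module.End.mul_apply, th_vplus, map_smul, ih,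
        smul_smul, eval_mul_X, mul_comm]
  unfold Q
  rw [h, Lagrange.eval_basis_self (mu_injOn' A hA h1 (chans m)) (self_mem_chans m), one_smul]

/-- On the top channel the caps vanish. -/
theorem shn_Q (m i : ℕ) (hi : i ≤ m) :
    (tl A hA).sh i (tl A hA).n * Q A hA (m + 2) (m + 2) = 0 := by
  have e : (chans (m + 2)).erase (m + 2) = chans m := by
    rw [chans_succ, erase_insert (notMem_chans m)]
  have h := chanPoly_th A hA m
  unfold chanPoly at h
  unfold Q
  rw [basis_eq, e, ← aeval_comm (TLData.Nt.shn hi).tw, map_mul, h, mul_zero, zero_mul]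

/-- On the top channel all crossings are the scalar `A`. -/
theorem sg_Q (m i : ℕ) (hi : i + 2 ≤ m) :
    (tl A hA).sh i (tl A hA).sg * Q A hA m m = A • Q A hA m m := by
  obtain ⟨m, rfl⟩ : ∃ k, m = k + 2 := ⟨m - 2, by omega⟩
  rw [TLData.sh_sg, add_mul, smul_mul_assoc, smul_mul_assoc, one_mul, mul_assoc,
    shn_Q A hA h1 m i (by omega), mul_zero, smul_zero, add_zero]
  rfl

/-- Bounds for operators with `k` strands on the left. -/
theorem bd_shift {m a k : ℕ} {T : RR} {C : ℝ} (h : k + m ≤ a)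
    (hT : ∀ b, m ≤ b → Bd b b T C) : Bd a a ((tl A hA).sh k T) C := by
  have h' := (hT (a - k) (by omega)).sh A hA k
  rwa [Nat.sub_add_cancel (by omega)] at h'

theorem bd_proj {a : ℕ} {T : RR} (hT : Adj a a T T) (h : T * T = T) : Bd a a T 1 := by
  intro f
  have e : ip a (T f) (T f) = ip a f (T f) := by
    rw [hT f (T f), ← Module.End.mul_apply, h]
  have h2 := ip_mul_le a f (T f)
  rw [← e] at h2
  have h3 := ip_self_nonneg a (T f)
  have h4 := ip_self_nonneg a f
  rw [one_mul]
  by_contra hc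
  rw [not_le] at hc
  nlinarith

theorem bd_Q (m j a k : ℕ) (hj : j ∈ chans m) (h : k + m ≤ a) :
    Bd a a ((tl A hA).sh k (Q A hA m j)) 1 :=
  bd_shift A hA h1 h fun b hb => bd_proj A h1 (adj_Q A hA h1 m j b hb) (Q_mul_self A hA h1 m j hj)

theorem abs_mu_le {i j : ℕ} (h : i ≤ j) : |(tl A hA).mu i| ≤ A ^ (j ^ 2 + 2 * j) := by
  rw [abs_mu A hA h1]
  refine pow_le_pow_right₀ h1.le ?_
  nlinarith

theorem th_spectral (m a : ℕ) (h : m ≤ a) (g : Hf) :
    ∃ w : ℕ → ℝ, (∀ i, 0 ≤ w i) ∧ ip a g g = ∑ i ∈ chans m, w i ∧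
      ip a g ((tl A hA).th m g) = ∑ i ∈ chans m, (tl A hA).mu i * w i ∧
      ip a ((tl A hA).th m g) ((tl A hA).th m g) = ∑ i ∈ chans m, (tl A hA).mu i ^ 2 * w i := by
  refine spectral (adj_th A hA m a h) (chans m) (mu_injOn' A hA h1 _) ⟨m, self_mem_chans m⟩ ?_
  have h' := chanPoly_th A hA m
  unfold chanPoly at h'
  rw [h']
  rfl

theorem bd_th (m a k : ℕ) (h : k + m ≤ a) :
    Bd a a ((tl A hA).sh k ((tl A hA).th m)) ((A ^ (m ^ 2 + 2 * m)) ^ 2) := by
  refine bd_shift A hA h1 h fun b hb g => ?_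
  obtain ⟨w, hw, e1, e2, e3⟩ := th_spectral A hA h1 m b hb g
  rw [e1, e3, mul_sum]
  refine sum_le_sum fun i hi => mul_le_mul_of_nonneg_right ?_ (hw i)
  rw [← sq_abs]
  exact pow_le_pow_left₀ (abs_nonneg _) (abs_mu_le A hA h1 (mem_chans.1 hi).1) 2

theorem bd_mirror_th (m a k : ℕ) (h : k + m ≤ a) :
    Bd a a ((tl A hA).sh k ((tl A hA).mirror.th m)) 1 := by
  refine bd_shift A hA h1 h fun b hb f => ?_
  obtain ⟨w, hw, e1, e2, e3⟩ := th_spectral A hA h1 m b hb ((tl A hA).mirror.th m f)
  have e4 : (tl A hA).th m ((tl A hA).mirror.th m f) = f := by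
    rw [← Module.End.mul_apply, TLData.th_mirror]
    rfl
  rw [e4] at e3
  rw [e1, e3, one_mul]
  refine sum_le_sum fun i hi => ?_
  have h2 : 1 ≤ (tl A hA).mu i ^ 2 := by
    rw [← sq_abs, abs_mu A hA h1]
    exact one_le_pow₀ (one_le_pow₀ h1.le)
  nlinarith [hw i]

theorem Q_thr (m j : ℕ) (hj : j ∈ chans m) : Q A hA m j ∈ (tl A hA).Thr m j := by
  have hj' := mem_chans.1 hj
  obtain ⟨r, rfl⟩ : ∃ r, m = j + 2 * r := ⟨(m - j) / 2, by omega⟩
  obtain ⟨q, hq⟩ := basis_hpoly (tl A hA) (j + 2 * r) j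
  unfold Q
  rw [hq, map_mul]
  exact TLData.Thr.mul_left ((tl A hA).hpoly_th j r) ((tl A hA).nt_aeval _ _)

/-- The norm of the block crossing on a channel. -/
theorem bd_X_Q (m j a k : ℕ) (hj : j ∈ chans m) (h : k + 2 * m ≤ a) :
    Bd a a ((tl A hA).sh k ((tl A hA).X m m * (Q A hA m j * (tl A hA).sh m (Q A hA m j))))
      (A ^ (2 * j ^ 2)) := by
  refine bd_shift A hA h1 h fun b hb f => ?_
  set D := tl A hA with hD
  set P : RR := Q A hA m j * D.sh m (Q A hA m j) with hP
  have hA0 : 0 < A := by linarith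
  -- the projection
  have hcomm : Q A hA m j * D.sh m (Q A hA m j) = D.sh m (Q A hA m j) * Q A hA m j :=
    (nt_Q A hA h1 m j).loc _
  have hPP : P * P = P := by
    have e : P * P = (Q A hA m j * Q A hA m j) * D.sh m (Q A hA m j * Q A hA m j) := by
      rw [map_mul, hP]
      calc Q A hA m j * D.sh m (Q A hA m j) * (Q A hA m j * D.sh m (Q A hA m j))
          = Q A hA m j * (D.sh m (Q A hA m j) * Q A hA m j) * D.sh m (Q A hA m j) := by
            simp only [mul_assoc]
        _ = Q A hA m j * (Q A hA m j * D.sh m (Q A hA m j)) * D.sh m (Q A hA m j) := by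
            rw [hcomm]
        _ = _ := by simp only [mul_assoc]
    rw [e, Q_mul_self A hA h1 m j hj]
  have hPadj : Adj b b P P := by
    have e1 := adj_Q A hA h1 m j b (by omega)
    have e2 := (adj_Q A hA h1 m j (b - m) (by omega)).sh A hA m
    rw [Nat.sub_add_cancel (by omega)] at e2
    have e3 := e1.mul e2
    rw [← hcomm] at e3
    exact e3
  have hPbd : ip b (P f) (P f) ≤ ip b f f := by
    have := bd_proj A h1 hPadj hPP f
    rwa [one_mul] at this
  -- the twist of both blocks
  have ht1 : D.th m * P = D.mu j • P := by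
    rw [hP, ← mul_assoc, th_Q A hA h1 m j hj, smul_mul_assoc]
  have ht2 : D.sh m (D.th m) * P = D.mu j • P := by
    rw [hP, hcomm, ← mul_assoc, ← map_mul, th_Q A hA h1 m j hj, map_smul, smul_mul_assoc]
  have hXX : D.th (m + m) * P = (D.mu j * D.mu j) • (D.X m m * (D.X m m * P)) := by
    rw [D.th_add, mul_assoc, ht2, mul_smul_comm, mul_assoc, ht1, mul_smul_comm, smul_smul,
      mul_assoc]
  -- only the channels up to `2 j`
  have hker : aeval (D.th (m + m)) (D.cpoly (j + j)) * P = 0 := by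
    exact TLData.Thr.kill (D.cpoly_th (j + j))
      (TLData.Thr.tensor (Q_thr A hA h1 m j hj) (Q_thr A hA h1 m j hj))
  obtain ⟨w, hw, e1, e2, e3⟩ := spectral (adj_th A hA (m + m) b (by omega)) (chans (j + j))
    (mu_injOn' A hA h1 _) ⟨j + j, self_mem_chans _⟩ (g := P f) (by
      have := congrArg (fun Y => Y f) hker
      exact this)
  have e4 : ip b (P f) (D.th (m + m) (P f)) = (D.mu j * D.mu j) *
      ip b (D.X m m (P f)) (D.X m m (P f)) := by
    rw [adj_X A hA m m b (by omega) (P f) (D.X m m (P f)), ← ip_smul_right]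
    have := congrArg (fun Y => Y f) hXX
    simp only [Module.End.mul_apply, LinearMap.smul_apply] at this
    rw [this]
  have e5 : ip b (P f) (D.th (m + m) (P f)) ≤ A ^ ((j + j) ^ 2 + 2 * (j + j)) * ip b (P f) (P f) := by
    rw [e1, e2, mul_sum]
    refine sum_le_sum fun i hi => mul_le_mul_of_nonneg_right ?_ (hw i)
    exact (le_abs_self _).trans (abs_mu_le A hA h1 (mem_chans.1 hi).1)
  rw [Module.End.mul_apply]
  have hmu : D.mu j * D.mu j = (A ^ (j ^ 2 + 2 * j)) ^ 2 := by
    rw [← pow_two, ← sq_abs, abs_mu A hA h1]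
  have hpos : 0 < (A ^ (j ^ 2 + 2 * j)) ^ 2 := by positivity
  rw [e4, hmu] at e5
  have e6 : A ^ ((j + j) ^ 2 + 2 * (j + j)) = (A ^ (j ^ 2 + 2 * j)) ^ 2 * A ^ (2 * j ^ 2) := by
    rw [← pow_mul, ← pow_add]
    congr 1
    ring
  rw [e6, mul_assoc] at e5
  have e7 := le_of_mul_le_mul_left e5 hpos
  exact e7.trans (mul_le_mul_of_nonneg_left hPbd (by positivity))

/-- The norm of the inverse block crossing. -/
theorem bd_mirror_X (m a k : ℕ) (h : k + 2 * m ≤ a) :
    Bd a a ((tl A hA).sh k ((tl A hA).mirror.X m m)) (A ^ (2 * (m ^ 2 + 2 * m))) := by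
  refine bd_shift A hA h1 h fun b hb f => ?_
  have hA0 : 0 < A := by linarith
  set D := tl A hA with hD
  have hXX : D.mirror.X m m * D.mirror.X m m =
      D.th m * (D.sh m (D.th m) * D.mirror.th (m + m)) := by
    have e1 : D.mirror.X m m * D.mirror.X m m * D.th (m + m) = D.th m * D.sh m (D.th m) := by
      rw [D.th_add]
      calc D.mirror.X m m * D.mirror.X m m * (D.X m m * D.X m m * D.th m * D.sh m (D.th m))
          = D.mirror.X m m * (D.mirror.X m m * D.X m m) * D.X m m * D.th m *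
              D.sh m (D.th m) := by simp only [mul_assoc]
        _ = _ := by rw [D.mirror_X_X, mul_one, D.mirror_X_X, one_mul]
    calc D.mirror.X m m * D.mirror.X m m
        = D.mirror.X m m * D.mirror.X m m * (D.th (m + m) * D.mirror.th (m + m)) := by
          rw [D.th_mirror, mul_one]
      _ = _ := by rw [← mul_assoc, e1, mul_assoc]
  have e2 : ip b (D.mirror.X m m f) (D.mirror.X m m f) =
      ip b f ((D.th m * (D.sh m (D.th m) * D.mirror.th (m + m))) f) := by
    rw [adj_mirror_X A hA m m b (by omega) f (D.mirror.X m m f), ← hXX]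
    rfl
  have b1 := bd_th A hA h1 m b 0 (by omega)
  have b2 := bd_th A hA h1 m b m (by omega)
  have b3 := bd_mirror_th A hA h1 (m + m) b 0 (by omega)
  have b4 := Bd.mul (by positivity) b1 (Bd.mul (by positivity) b2 b3) f
  have b5 := ip_mul_le b f ((D.th m * (D.sh m (D.th m) * D.mirror.th (m + m))) f)
  rw [← e2] at b5
  have e3 : A ^ (2 * (m ^ 2 + 2 * m)) = (A ^ (m ^ 2 + 2 * m)) ^ 2 := by
    rw [← pow_mul]
    congr 1
    ring
  rw [e3]
  set K : ℝ := (A ^ (m ^ 2 + 2 * m)) ^ 2 with hK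
  have hK0 : 0 ≤ K := by positivity
  have f0 := ip_self_nonneg b f
  have f1 := ip_self_nonneg b (D.mirror.X m m f)
  have b6 : ip b (D.mirror.X m m f) (D.mirror.X m m f) ^ 2 ≤ (K * ip b f f) ^ 2 := by
    refine b5.trans ?_
    have b7 := mul_le_mul_of_nonneg_left b4 f0
    refine b7.trans (le_of_eq ?_)
    ring
  exact abs_le_of_sq_le_sq' b6 (by positivity) |>.2

end Pool.Agent.HTW
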