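import Pool.Agent.HTW.FlatRed
import Pool.Agent.HTW.Words
import Pool.Agent.HTW.Len

/-!
# The state sum (helper30)

`lab_switch_le`, `lab_switch_adq` compare the numbers of circles; `top_coeff` is the
resulting estimate of the scalar by which a diagram acts modulo caps.
-/

namespace Pool.Agent.HTW

open Finset

namespace ST

/-- Sum of two labellings of a level. -/
def xr (ℓ m : List Bool) : List Bool := List.zipWith xor ℓ m

/-- The scalar product of two labellings of a level. -/
def ip2 : List Bool → List Bool → Bool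
  | [], _ => false
  | _ :: _, [] => false
  | x :: ℓ, y :: m => xor (x && y) (ip2 ℓ m)

theorem xr_nil : xr [] [] = [] := rfl

theorem xr_cons (x y : Bool) (ℓ m : List Bool) : xr (x :: ℓ) (y :: m) = xor x y :: xr ℓ m := rfl

theorem xr_append {u u' : List Bool} (h : u.length = u'.length) (v v' : List Bool) :
    xr (u ++ v) (u' ++ v') = xr u u' ++ xr v v' := by
  induction u generalizing u' with
  | nil =>
    cases u' with
    | nil => rfl
    | cons a u' => simp at h
  | cons a u ih =>
    cases u' with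
    | nil => simp at h
    | cons b u' =>
      simp only [List.length_cons, Nat.add_right_cancel_iff] at h
      rw [List.cons_append, List.cons_append, xr_cons, ih h, xr_cons, List.cons_append]

theorem length_xr {ℓ m : List Bool} (h : ℓ.length = m.length) : (xr ℓ m).length = ℓ.length := by
  rw [xr, List.length_zipWith, h, Nat.min_self]

theorem xr_xr {ℓ m : List Bool} (h : ℓ.length = m.length) : xr (xr ℓ m) m = ℓ := by
  induction ℓ generalizing m with
  | nil =>
    cases m with
    | nil => rfl
    | cons a m => simp at h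
  | cons a ℓ ih =>
    cases m with
    | nil => simp at h
    | cons b m =>
      simp only [List.length_cons, Nat.add_right_cancel_iff] at h
      rw [xr_cons, xr_cons, ih h]
      cases a <;> cases b <;> rfl

theorem ip2_append {u u' : List Bool} (h : u.length = u'.length) (v v' : List Bool) :
    ip2 (u ++ v) (u' ++ v') = xor (ip2 u u') (ip2 v v') := by
  induction u generalizing u' with
  | nil =>
    cases u' with
    | nil => cases v <;> cases v' <;> simp [ip2]
    | cons a u' => simp at h
  | cons a u ih =>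
    cases u' with
    | nil => simp at h
    | cons b u' =>
      simp only [List.length_cons, Nat.add_right_cancel_iff] at h
      rw [List.cons_append, List.cons_append, ip2, ih h, ip2, Bool.xor_assoc]

theorem ip2_cons_cons (x x' y y' : Bool) (v v' : List Bool) :
    ip2 (x :: x' :: v) (y :: y' :: v') = xor (xor (x && y) (x' && y')) (ip2 v v') := by
  rw [ip2, ip2, Bool.xor_assoc]

/-- Two decompositions with the same position. -/
theorem split_same {u v w : List Bool} (h : (u ++ v).length = w.length) :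
    ∃ u' v', w = u' ++ v' ∧ u.length = u'.length ∧ v.length = v'.length := by
  refine ⟨w.take u.length, w.drop u.length, (List.take_append_drop _ _).symm, ?_, ?_⟩
  · rw [List.length_take]
    rw [List.length_append] at h
    omega
  · rw [List.length_drop]
    rw [List.length_append] at h
    omega

theorem append_inj2 {u u' v v' : List Bool} (h : u ++ v = u' ++ v') (hl : u.length = u'.length) :
    u = u' ∧ v = v' := List.append_inj h hl

/-- The data of two steps through the same letter. -/
theorem step_pair {x : Letter} {ℓ ℓ' m m' : List Bool} (h : Step x ℓ ℓ') (h' : Step x m m')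
    (hl : ℓ.length = m.length) :
    ℓ'.length = m'.length ∧ Step x (xr ℓ m) (xr ℓ' m') ∧
      ((x.1 = Kind.cup ∨ x.1 = Kind.cap) → ip2 ℓ m = ip2 ℓ' m') := by
  obtain ⟨k, i⟩ := x
  generalize hx : ((k, i) : Letter) = x at h h'
  cases h with
  | cup u v y =>
    generalize hz : ((Kind.cup, u.length) : Letter) = z at h'
    cases h' with
    | cup u' v' y' =>
      simp only [Prod.mk.injEq, true_and] at hz
      have hv : v.length = v'.length := by
        simp only [List.length_append] at hl
        omega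
      refine ⟨by simp [hz, hv], ?_, fun _ => ?_⟩
      · rw [xr_append hz, xr_append hz, xr_cons, xr_cons]
        have e : u'.length = (xr u u').length := hz.symm.trans (length_xr hz).symm
        rw [e]
        exact Step.cup _ _ _
      · rw [ip2_append hz, ip2_append hz, ip2_cons_cons]
        cases (y && y') <;> simp
    | cap u' v' y' => simp at hz
    | pos u' v' y' z' => simp at hz
    | neg u' v' y' z' => simp at hz
  | cap u v y =>
    generalize hz : ((Kind.cap, u.length) : Letter) = z at h'
    cases h' with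
    | cap u' v' y' =>
      simp only [Prod.mk.injEq, true_and] at hz
      have hv : v.length = v'.length := by
        simp only [List.length_append, List.length_cons] at hl
        omega
      refine ⟨by simp [hz, hv], ?_, fun _ => ?_⟩
      · rw [xr_append hz, xr_append hz, xr_cons, xr_cons]
        have e : u'.length = (xr u u').length := hz.symm.trans (length_xr hz).symm
        rw [e]
        exact Step.cap _ _ _
      · rw [ip2_append hz, ip2_append hz, ip2_cons_cons]
        cases (y && y') <;> simp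
    | cup u' v' y' => simp at hz
    | pos u' v' y' z' => simp at hz
    | neg u' v' y' z' => simp at hz
  | pos u v y z₁ =>
    generalize hz : ((Kind.pos, u.length) : Letter) = z at h'
    cases h' with
    | pos u' v' y' z' =>
      simp only [Prod.mk.injEq, true_and] at hz
      have hv : v.length = v'.length := by
        simp only [List.length_append, List.length_cons] at hl
        omega
      refine ⟨by simp [hz, hv], ?_, fun hk => ?_⟩
      · rw [xr_append hz, xr_append hz, xr_cons, xr_cons, xr_cons, xr_cons]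
        have e : u'.length = (xr u u').length := hz.symm.trans (length_xr hz).symm
        rw [e]
        exact Step.pos _ _ _ _
      · simp at hk
    | cup u' v' y' => simp at hz
    | cap u' v' y' => simp at hz
    | neg u' v' y' z' => simp at hz
  | neg u v y z₁ =>
    generalize hz : ((Kind.neg, u.length) : Letter) = z at h'
    cases h' with
    | neg u' v' y' z' =>
      simp only [Prod.mk.injEq, true_and] at hz
      have hv : v.length = v'.length := by
        simp only [List.length_append, List.length_cons] at hl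
        omega
      refine ⟨by simp [hz, hv], ?_, fun hk => ?_⟩
      · rw [xr_append hz, xr_append hz, xr_cons, xr_cons, xr_cons, xr_cons]
        have e : u'.length = (xr u u').length := hz.symm.trans (length_xr hz).symm
        rw [e]
        exact Step.neg _ _ _ _
      · simp at hk
    | cup u' v' y' => simp at hz
    | cap u' v' y' => simp at hz
    | pos u' v' y' z' => simp at hz

/-- Two labellings of the same diagram. -/
inductive PR : Word → List (List Bool) → List (List Bool) → Prop
  | nil (ℓ m : List Bool) (h : ℓ.length = m.length) : PR [] [ℓ] [m]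
  | cons {x : Letter} {w : Word} {ℓ ℓ' m m' : List Bool} {K L : List (List Bool)}
      (hl : ℓ.length = m.length) (h : Step x ℓ ℓ') (h' : Step x m m')
      (hr : PR w (ℓ' :: K) (m' :: L)) : PR (x :: w) (ℓ :: ℓ' :: K) (m :: m' :: L)

theorem pr_of {w : Word} {ℓ m : List Bool} {K L : List (List Bool)} (h : Run w (ℓ :: K))
    (h' : Run w (m :: L)) (hl : ℓ.length = m.length) : PR w (ℓ :: K) (m :: L) := by
  induction w generalizing ℓ m K L with
  | nil =>
    cases h
    cases h'
    exact PR.nil _ _ hl
  | cons x w ih =>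
    cases h with
    | cons hs hr =>
      cases h' with
      | cons hs' hr' =>
        exact PR.cons hl hs hs' (ih hr hr' (step_pair hs hs' hl).1)

/-- The sum of two labellings. -/
def XR (K L : List (List Bool)) : List (List Bool) := List.zipWith xr K L

theorem PR.run {w : Word} {K L : List (List Bool)} (h : PR w K L) : Run w (XR K L) := by
  induction h with
  | nil ℓ m h => exact Run.nil _
  | cons hl hs hs' hr ih => exact Run.cons (step_pair hs hs' hl).2.1 ih

theorem PR.xr_xr {w : Word} {K L : List (List Bool)} (h : PR w K L) : XR (XR K L) L = K := by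
  induction h with
  | nil ℓ m h => simp [XR, ST.xr_xr h]
  | cons hl hs hs' hr ih =>
    have e : ∀ (a b : List Bool) (P Q : List (List Bool)),
        XR (XR (a :: P) (b :: Q)) (b :: Q) = xr (xr a b) b :: XR (XR P Q) Q := fun _ _ _ _ => rfl
    rw [e, ih, ST.xr_xr hl]

theorem PR.last {w : Word} {K L : List (List Bool)} (h : PR w K L) {ℓ m : List Bool}
    (h1 : K.getLast? = some ℓ) (h2 : L.getLast? = some m) :
    ℓ.length = m.length ∧ (XR K L).getLast? = some (xr ℓ m) := by
  induction h with
  | nil ℓ₀ m₀ h =>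
    simp only [List.getLast?_singleton, Option.some.injEq] at h1 h2
    subst h1
    subst h2
    exact ⟨h, rfl⟩
  | cons hl hs hs' hr ih =>
    have h3 := ih (by simpa using h1) (by simpa using h2)
    refine ⟨h3.1, ?_⟩
    rw [← h3.2]
    rfl

theorem PR.ip2 {w : Word} (hw : Flat w) {K L : List (List Bool)} (h : PR w K L)
    {ℓ₀ m₀ ℓ m : List Bool} (h0 : K.head? = some ℓ₀) (h0' : L.head? = some m₀)
    (h1 : K.getLast? = some ℓ) (h2 : L.getLast? = some m) : ip2 ℓ₀ m₀ = ip2 ℓ m := by
  induction h generalizing ℓ₀ m₀ with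
  | nil ℓ' m' h =>
    simp only [List.getLast?_singleton, List.head?_cons, Option.some.injEq] at h1 h2 h0 h0'
    subst h1 h2 h0 h0'
    rfl
  | @cons x w ℓ' ℓ'' m' m'' K L hl hs hs' hr ih =>
    simp only [List.head?_cons, Option.some.injEq] at h0 h0'
    subst h0 h0'
    rw [(step_pair hs hs' hl).2.2 (hw x (List.mem_cons_self ..))]
    exact ih (fun y hy => hw y (List.mem_cons_of_mem _ hy)) rfl rfl (by simpa using h1)
      (by simpa using h2)

/-! ## Closed labellings -/

theorem lab_ne {M : ℕ} {w : Word} {K : List (List Bool)} (h : K ∈ Lab M w) :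
    ∃ ℓ K', K = ℓ :: K' ∧ ℓ.length = M ∧ (ℓ :: K').getLast? = some ℓ ∧ Run w (ℓ :: K') := by
  obtain ⟨h1, ℓ, h2, h3, h4⟩ := h
  cases K with
  | nil => simp at h3
  | cons a K' =>
    simp only [List.head?_cons, Option.some.injEq] at h3
    subst h3
    exact ⟨a, K', rfl, h2, h4, h1⟩

/-- The sum of two closed labellings is a closed labelling. -/
theorem lab_xr {M : ℕ} {w : Word} {K L : List (List Bool)} (h : K ∈ Lab M w) (h' : L ∈ Lab M w) :
    XR K L ∈ Lab M w ∧ XR (XR K L) L = K := by
  obtain ⟨ℓ, K, rfl, h1, h2, h3⟩ := lab_ne h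
  obtain ⟨m, L, rfl, h1', h2', h3'⟩ := lab_ne h'
  have h4 := pr_of h3 h3' (by rw [h1, h1'])
  refine ⟨⟨h4.run, xr ℓ m, ?_, rfl, (h4.last h2 h2').2⟩, h4.xr_xr⟩
  rw [length_xr (by rw [h1, h1']), h1]

theorem XR_append {K L : List (List Bool)} (h : K.length = L.length) (K' L' : List (List Bool)) :
    XR (K ++ K') (L ++ L') = XR K L ++ XR K' L' := by
  induction K generalizing L with
  | nil =>
    cases L with
    | nil => rfl
    | cons a L => simp at h
  | cons a K ih =>
    cases L with
    | nil => simp at h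
    | cons b L =>
      simp only [List.length_cons, Nat.add_right_cancel_iff] at h
      have e : ∀ (a b : List Bool) (P Q : List (List Bool)),
        XR (a :: P) (b :: Q) = xr a b :: XR P Q := fun _ _ _ _ => rfl
      rw [List.cons_append, List.cons_append, e, ih h, e, List.cons_append]

theorem XR_getElem? (K L : List (List Bool)) (n : ℕ) {ℓ m : List Bool} (h : K[n]? = some ℓ)
    (h' : L[n]? = some m) : (XR K L)[n]? = some (xr ℓ m) := by
  rw [XR, List.getElem?_zipWith, h, h']

/-- The shape of the labellings of the diagram with a cap and a cup. -/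
theorem lab_shape {a b : Word} {M i : ℕ} {K : List (List Bool)}
    (h : K ∈ Lab M (a ++ (Kind.cap, i) :: (Kind.cup, i) :: b)) :
    ∃ (K₁ K₂ : List (List Bool)) (u v : List Bool) (y z : Bool) (ℓ₀ : List Bool),
      K = K₁ ++ (u ++ y :: y :: v) :: (u ++ v) :: (u ++ z :: z :: v) :: K₂ ∧
      K₁.length = a.length ∧ u.length = i ∧ ℓ₀.length = M ∧
      Run a (K₁ ++ [u ++ y :: y :: v]) ∧ Run b ((u ++ z :: z :: v) :: K₂) ∧
      (K₁ ++ [u ++ y :: y :: v]).head? = some ℓ₀ ∧
      ((u ++ z :: z :: v) :: K₂).getLast? = some ℓ₀ := by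
  obtain ⟨h1, ℓ₀, h2, h3, h4⟩ := h
  obtain ⟨K₁, ℓ, K', hK, hl, hr1, hr2⟩ := run_append h1
  cases hr2 with
  | cons hs hr2 =>
    cases hr2 with
    | cons hs' hr2 =>
      rename_i mid ℓ' K₂
      generalize hx : ((Kind.cap, i) : Letter) = x at hs
      generalize hx' : ((Kind.cup, i) : Letter) = x' at hs'
      cases hs with
      | cap u v y =>
        generalize hm : u ++ v = mid at hs'
        cases hs' with
        | cup u' v' z =>
          simp only [Prod.mk.injEq, true_and] at hx hx'
          obtain ⟨rfl, rfl⟩ := append_inj2 hm (by rw [← hx, ← hx'])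
          refine ⟨K₁, K₂, u, v, y, z, ℓ₀, hK, hl, hx.symm, h2, hr1, hr2, ?_, ?_⟩
          · rw [← h3, hK]
            cases K₁ <;> rfl
          · rw [← h4, hK]
            simp [List.getLast?_append, List.getLast?_cons]
        | cap u' v' z => simp at hx'
        | pos u' v' z z' => simp at hx'
        | neg u' v' z z' => simp at hx'
      | cup u v y => simp at hx
      | pos u v y z' => simp at hx
      | neg u v y z' => simp at hx


/-- Removal of the cap and the cup. -/
def glue (n : ℕ) (K : List (List Bool)) : List (List Bool) := K.take n ++ K.drop (n + 2)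

theorem glue_eq {n : ℕ} (K₁ K₂ : List (List Bool)) (p q : List Bool) (h : K₁.length = n) :
    glue n (K₁ ++ p :: q :: K₂) = K₁ ++ K₂ := by
  subst h
  unfold glue
  rw [List.take_left, ← List.drop_drop, List.drop_left]
  rfl

theorem getElem_mid {n : ℕ} (K₁ K₂ : List (List Bool)) (p : List Bool) (h : K₁.length = n) :
    (K₁ ++ p :: K₂)[n]? = some p := by
  subst h
  rw [List.getElem?_append_right (le_refl _), Nat.sub_self, List.getElem?_cons_zero]

theorem getElem_mid2 {n : ℕ} (K₁ K₂ : List (List Bool)) (p q r : List Bool) (h : K₁.length = n) :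
    (K₁ ++ p :: q :: r :: K₂)[n + 2]? = some r := by
  subst h
  rw [List.getElem?_append_right (by omega), Nat.add_sub_cancel_left]
  rfl

/-- The labellings for which the cap and the cup have the same label. -/
def B0 (M : ℕ) (a b : Word) (i : ℕ) : Set (List (List Bool)) :=
  {K | K ∈ Lab M (a ++ (Kind.cap, i) :: (Kind.cup, i) :: b) ∧ K[a.length]? = K[a.length + 2]?}

/-- The labellings of the diagram without the crossing, equal labels at `i`, `i + 1`. -/
def A0 (M : ℕ) (a b : Word) (i : ℕ) : Set (List (List Bool)) :=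
  {K | K ∈ Lab M (a ++ b) ∧ ∃ u v : List Bool, ∃ y : Bool, u.length = i ∧
    K[a.length]? = some (u ++ y :: y :: v)}

theorem b0_shape {a b : Word} {M i : ℕ} {K : List (List Bool)} (h : K ∈ B0 M a b i) :
    ∃ (K₁ K₂ : List (List Bool)) (u v : List Bool) (y : Bool) (ℓ₀ : List Bool),
      K = K₁ ++ (u ++ y :: y :: v) :: (u ++ v) :: (u ++ y :: y :: v) :: K₂ ∧
      K₁.length = a.length ∧ u.length = i ∧ ℓ₀.length = M ∧
      Run a (K₁ ++ [u ++ y :: y :: v]) ∧ Run b ((u ++ y :: y :: v) :: K₂) ∧
      (K₁ ++ [u ++ y :: y :: v]).head? = some ℓ₀ ∧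
      ((u ++ y :: y :: v) :: K₂).getLast? = some ℓ₀ := by
  obtain ⟨h1, h2⟩ := h
  obtain ⟨K₁, K₂, u, v, y, z, ℓ₀, rfl, hl, hu, h0, hr1, hr2, hh, ht⟩ := lab_shape h1
  rw [getElem_mid _ _ _ hl, getElem_mid2 _ _ _ _ _ hl, Option.some.injEq,
    List.append_cancel_left_eq, List.cons.injEq] at h2
  obtain ⟨rfl, _⟩ := h2
  exact ⟨K₁, K₂, u, v, y, ℓ₀, rfl, hl, hu, h0, hr1, hr2, hh, ht⟩

theorem glue_mem {a b : Word} {M i : ℕ} {K : List (List Bool)} (h : K ∈ B0 M a b i) :
    glue a.length K ∈ A0 M a b i := by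
  obtain ⟨K₁, K₂, u, v, y, ℓ₀, rfl, hl, hu, h0, hr1, hr2, hh, ht⟩ := b0_shape h
  rw [glue_eq _ _ _ _ hl]
  refine ⟨⟨run_join hr1 hr2, ℓ₀, h0, ?_, ?_⟩, u, v, y, hu, getElem_mid _ _ _ hl⟩
  · rw [← hh]
    cases K₁ <;> rfl
  · rw [← ht]
    simp [List.getLast?_append, List.getLast?_cons]

theorem glue_inj {a b : Word} {M i : ℕ} : Set.InjOn (glue a.length) (B0 M a b i) := by
  intro K hK K' hK' he
  obtain ⟨K₁, K₂, u, v, y, ℓ₀, rfl, hl, hu, _⟩ := b0_shape hK
  obtain ⟨K₁', K₂', u', v', y', ℓ₀', rfl, hl', hu', _⟩ := b0_shape hK'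
  rw [glue_eq _ _ _ _ hl, glue_eq _ _ _ _ hl'] at he
  obtain ⟨e1, e2⟩ := List.append_inj he (hl.trans hl'.symm)
  obtain ⟨e3, e4⟩ := List.cons.inj e2
  obtain ⟨e5, e6⟩ := append_inj2 e3 (hu.trans hu'.symm)
  obtain ⟨e7, e8⟩ := List.cons.inj e6
  obtain ⟨_, e9⟩ := List.cons.inj e8
  rw [e1, e3, e4, e5, e9]

theorem card_b0 {a b : Word} (ha : Flat a) (hb : Flat b) {M i : ℕ} :
    (B0 M a b i).ncard ≤ (A0 M a b i).ncard := by
  refine Set.ncard_le_ncard_of_injOn (glue a.length) (fun K hK => glue_mem hK) glue_inj ?_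
  refine (lab_finite (v := a ++ b) ?_ M).subset fun K hK => hK.1
  intro x hx
  rcases List.mem_append.1 hx with h | h
  · exact ha x h
  · exact hb x h

end ST

open Pool.Agent.HTW.ST

theorem flat_capcup {a b : Word} (ha : Flat a) (hb : Flat b) (i : ℕ) :
    Flat (a ++ (Kind.cap, i) :: (Kind.cup, i) :: b) := by
  intro x hx
  rcases List.mem_append.1 hx with h | h
  · exact ha x h
  · rcases List.mem_cons.1 h with h | h
    · subst h; exact Or.inr rfl
    · rcases List.mem_cons.1 h with h | h
      · subst h; exact Or.inl rfl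
      · exact hb x h

theorem lab_switch_le {a b : Word} (ha : Flat a) (hb : Flat b) {M i : ℕ} :
    (Lab M (a ++ (Kind.cap, i) :: (Kind.cup, i) :: b)).ncard ≤ 2 * (Lab M (a ++ b)).ncard := by
  have hfin := lab_finite (flat_capcup ha hb i) M
  set B := Lab M (a ++ (Kind.cap, i) :: (Kind.cup, i) :: b) with hB
  have hfab : Flat (a ++ b) := by
    intro x hx
    rcases List.mem_append.1 hx with h | h
    · exact ha x h
    · exact hb x h
  have hA0 : (A0 M a b i).ncard ≤ (Lab M (a ++ b)).ncard :=
    Set.ncard_le_ncard (fun K hK => hK.1) (lab_finite hfab M)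
  have hB0 := card_b0 ha hb (M := M) (i := i)
  have hsub : B0 M a b i ⊆ B := fun K hK => hK.1
  have hsplit : B.ncard = (B0 M a b i).ncard + (B \ B0 M a b i).ncard := by
    have h3 := Set.ncard_inter_add_ncard_sdiff_eq_ncard B (B0 M a b i) hfin
    rw [Set.inter_eq_right.2 hsub] at h3
    exact h3.symm
  have hB1 : (B \ B0 M a b i).ncard ≤ (B0 M a b i).ncard := by
    rcases Set.eq_empty_or_nonempty (B \ B0 M a b i) with he | ⟨f, hf⟩
    · rw [he, Set.ncard_empty]
      exact Nat.zero_le _
    · refine Set.ncard_le_ncard_of_injOn (fun K => XR K f) ?_ ?_ (hfin.subset hsub)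
      · intro K hK
        refine ⟨(lab_xr hK.1 hf.1).1, ?_⟩
        obtain ⟨K₁, K₂, u, v, y, z, ℓ₀, hKe, hl, hu, _⟩ := lab_shape hK.1
        obtain ⟨K₁', K₂', u', v', y', z', ℓ₀', hfe, hl', hu', _⟩ := lab_shape hf.1
        have hy : y ≠ z := by
          intro hyz
          apply hK.2
          refine ⟨hK.1, ?_⟩
          rw [hKe, getElem_mid _ _ _ hl, getElem_mid2 _ _ _ _ _ hl, hyz]
        have hy' : y' ≠ z' := by
          intro hyz
          apply hf.2
          refine ⟨hf.1, ?_⟩
          rw [hfe, getElem_mid _ _ _ hl', getElem_mid2 _ _ _ _ _ hl', hyz]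
        have e1 : K[a.length]? = some (u ++ y :: y :: v) := by rw [hKe, getElem_mid _ _ _ hl]
        have e2 : K[a.length + 2]? = some (u ++ z :: z :: v) := by
          rw [hKe, getElem_mid2 _ _ _ _ _ hl]
        have e1' : f[a.length]? = some (u' ++ y' :: y' :: v') := by
          rw [hfe, getElem_mid _ _ _ hl']
        have e2' : f[a.length + 2]? = some (u' ++ z' :: z' :: v') := by
          rw [hfe, getElem_mid2 _ _ _ _ _ hl']
        show (XR K f)[a.length]? = (XR K f)[a.length + 2]?
        rw [XR_getElem? _ _ _ e1 e1', XR_getElem? _ _ _ e2 e2']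
        have huu : u.length = u'.length := hu.trans hu'.symm
        rw [xr_append huu, xr_append huu, xr_cons, xr_cons, xr_cons, xr_cons]
        have e3 : xor y y' = xor z z' := by
          revert hy hy'
          cases y <;> cases y' <;> cases z <;> cases z' <;> simp
        rw [e3]
      · intro K hK K' hK' he
        have h3 := (lab_xr hK.1 hf.1).2
        have h4 := (lab_xr hK'.1 hf.1).2
        rw [← h3, ← h4]
        exact congrArg (fun L => XR L f) he
  omega

theorem lab_switch_adq {a b : Word} (ha : Flat a) (hb : Flat b) {M i : ℕ}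
    (hs : Sep M a b i) :
    2 * (Lab M (a ++ (Kind.cap, i) :: (Kind.cup, i) :: b)).ncard ≤ (Lab M (a ++ b)).ncard := by
  obtain ⟨G₁, G₂, m₀, m, hm0, hg1, hg2, hg3, hg4, hg5, hg6, hne⟩ := hs
  set B := Lab M (a ++ (Kind.cap, i) :: (Kind.cup, i) :: b) with hB
  have hfab : Flat (a ++ b) := by
    intro x hx
    rcases List.mem_append.1 hx with h | h
    · exact ha x h
    · exact hb x h
  have hfinA := lab_finite hfab M
  -- the separating labelling
  obtain ⟨G₁', rfl⟩ : ∃ G₁', G₁ = G₁' ++ [m] := by
    rw [List.getLast?_eq_some_iff] at hg3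
    exact hg3
  obtain ⟨G₂', rfl⟩ : ∃ G₂', G₂ = m :: G₂' := by
    cases G₂ with
    | nil => simp at hg5
    | cons x G₂' =>
      simp only [List.head?_cons, Option.some.injEq] at hg5
      exact ⟨G₂', by rw [hg5]⟩
  have hG : G₁' ++ m :: G₂' ∈ Lab M (a ++ b) := by
    refine ⟨run_join hg1 hg4, m₀, hm0, ?_, ?_⟩
    · rw [← hg2]
      cases G₁' <;> rfl
    · rw [← hg6]
      simp [List.getLast?_append, List.getLast?_cons]
  have hGl : G₁'.length = a.length := by
    obtain ⟨L₁, ℓ, L₂, e1, e2, e3, e4⟩ := run_append (a := a) (b := []) (by simpa using hg1)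
    cases e4
    have e5 : L₁.length + 1 = G₁'.length + 1 := by
      have := congrArg List.length e1
      simp at this
      omega
    omega
  -- the length of the level
  have hlen : ∀ {K₁ : List (List Bool)} {ℓ ℓ₀ : List Bool}, Run a (K₁ ++ [ℓ]) → ℓ₀.length = M →
      (K₁ ++ [ℓ]).head? = some ℓ₀ → PR a (K₁ ++ [ℓ]) (G₁' ++ [m]) := by
    intro K₁ ℓ ℓ₀ hr h0 hh
    have e : ∃ K', K₁ ++ [ℓ] = ℓ₀ :: K' := by
      cases K₁ with
      | nil =>
        simp only [List.nil_append, List.head?_cons, Option.some.injEq] at hh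
        exact ⟨[], by rw [hh]; rfl⟩
      | cons x K₁ =>
        simp only [List.cons_append, List.head?_cons, Option.some.injEq] at hh
        exact ⟨K₁ ++ [ℓ], by rw [hh]; rfl⟩
    have e' : ∃ G', G₁' ++ [m] = m₀ :: G' := by
      cases G₁' with
      | nil =>
        simp only [List.nil_append, List.head?_cons, Option.some.injEq] at hg2
        exact ⟨[], by rw [hg2]; rfl⟩
      | cons x K₁ =>
        simp only [List.cons_append, List.head?_cons, Option.some.injEq] at hg2
        exact ⟨K₁ ++ [m], by rw [hg2]; rfl⟩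
    obtain ⟨K', hK'⟩ := e
    obtain ⟨G', hG'⟩ := e'
    rw [hK'] at hr ⊢
    rw [hG'] at hg1 ⊢
    exact pr_of hr hg1 (by rw [h0, hm0])
  -- the shape of `m`
  have hshape : ∀ u w : List Bool, u.length = i → (u ++ w).length = m.length → 2 ≤ w.length →
      ∃ (u' : List Bool) (p q : Bool) (v' : List Bool), m = u' ++ p :: q :: v' ∧
        u.length = u'.length ∧ p ≠ q := by
    intro u w hu e2 hw2
    obtain ⟨u', w', hm, hu', hw'⟩ := split_same e2
    cases w' with
    | nil => simp at hw'; simp [hw'] at hw2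
    | cons p w' =>
      cases w' with
      | nil => simp at hw'; omega
      | cons q v' =>
        have hi' : u'.length = i := hu'.symm.trans hu
        refine ⟨u', p, q, v', hm, hu', ?_⟩
        intro hpq
        apply hne
        rw [hm, List.getD_eq_getElem?_getD, List.getD_eq_getElem?_getD,
          List.getElem?_append_right (by omega), List.getElem?_append_right (by omega)]
        have e4 : i - u'.length = 0 := by omega
        have e5 : i + 1 - u'.length = 1 := by omega
        rw [e4, e5]
        simp [hpq]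
  -- all labellings of the diagram with the cap and the cup are in `B0`
  have hBB : B ⊆ B0 M a b i := by
    intro K hK
    refine ⟨hK, ?_⟩
    obtain ⟨K₁, K₂, u, v, y, z, ℓ₀, rfl, hl, hu, h0, hr1, hr2, hh, ht⟩ := lab_shape hK
    rw [getElem_mid _ _ _ hl, getElem_mid2 _ _ _ _ _ hl]
    have hp1 := hlen hr1 h0 hh
    have hlast : (K₁ ++ [u ++ y :: y :: v]).getLast? = some (u ++ y :: y :: v) := by simp
    have e1 := hp1.ip2 ha hh hg2 hlast hg3
    have e2 := (hp1.last hlast hg3).1
    have hp2 : PR b ((u ++ z :: z :: v) :: K₂) (m :: G₂') := pr_of hr2 hg4 (by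
      rw [← e2]
      simp)
    have e3 := hp2.ip2 hb rfl rfl ht hg6
    rw [e1] at e3
    obtain ⟨u', p, q, v', rfl, hu', hpq⟩ := hshape u (y :: y :: v) hu e2 (by simp)
    rw [ip2_append hu', ip2_append hu', ip2_cons_cons, ip2_cons_cons] at e3
    have e6 : y = z := by
      revert e3 hpq
      cases ip2 u u' <;> cases ip2 v v' <;> cases y <;> cases z <;> cases p <;> cases q <;>
        simp
    rw [e6]
  have hB0 := card_b0 ha hb (M := M) (i := i)
  have hfinB : (B0 M a b i).Finite := (lab_finite (flat_capcup ha hb i) M).subset fun K hK => hK.1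
  have hBc : B.ncard ≤ (B0 M a b i).ncard := Set.ncard_le_ncard hBB hfinB
  have hsub : A0 M a b i ⊆ Lab M (a ++ b) := fun K hK => hK.1
  have hsplit : (Lab M (a ++ b)).ncard =
      (A0 M a b i).ncard + (Lab M (a ++ b) \ A0 M a b i).ncard := by
    have h3 := Set.ncard_inter_add_ncard_sdiff_eq_ncard (Lab M (a ++ b)) (A0 M a b i) hfinA
    rw [Set.inter_eq_right.2 hsub] at h3
    exact h3.symm
  have hA1 : (A0 M a b i).ncard ≤ (Lab M (a ++ b) \ A0 M a b i).ncard := by
    refine Set.ncard_le_ncard_of_injOn (fun K => XR K (G₁' ++ m :: G₂')) ?_ ?_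
      (hfinA.subset Set.sdiff_subset)
    · intro K hK
      refine ⟨(lab_xr hK.1 hG).1, ?_⟩
      rintro ⟨_, u₂, v₂, y₂, hu₂, e2⟩
      obtain ⟨_, u, v, y, hu, e1⟩ := hK
      have e0 : (G₁' ++ m :: G₂')[a.length]? = some m := getElem_mid _ _ _ hGl
      rw [XR_getElem? _ _ _ e1 e0, Option.some.injEq] at e2
      -- the lengths
      obtain ⟨hK1, ℓ₀, h0, hh, ht⟩ := (show K ∈ Lab M (a ++ b) by assumption)
      obtain ⟨L₁, ℓ, L₂, hKe, hLl, hLr, hLr'⟩ := run_append hK1
      rw [hKe, getElem_mid _ _ _ hLl, Option.some.injEq] at e1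
      have hh' : (L₁ ++ [ℓ]).head? = some ℓ₀ := by
        rw [← hh, hKe]
        cases L₁ <;> rfl
      have hp := hlen hLr h0 hh'
      have hlast : (L₁ ++ [ℓ]).getLast? = some ℓ := by simp
      have e3 := (hp.last hlast hg3).1
      rw [e1] at e3
      obtain ⟨u', p, q, v', rfl, hu', hpq⟩ := hshape u (y :: y :: v) hu e3 (by simp)
      rw [xr_append hu', xr_cons, xr_cons] at e2
      obtain ⟨e4, e5⟩ := append_inj2 e2 (by rw [length_xr hu', hu, hu₂])
      obtain ⟨e6, e7⟩ := List.cons.inj e5
      obtain ⟨e8, _⟩ := List.cons.inj e7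
      apply hpq
      have e9 : xor y p = xor y q := by rw [e6, e8]
      revert e9
      cases y <;> cases p <;> cases q <;> simp
    · intro K hK K' hK' he
      have h3 := (lab_xr hK.1 hG).2
      have h4 := (lab_xr hK'.1 hG).2
      rw [← h3, ← h4]
      exact congrArg (fun L => XR L (G₁' ++ m :: G₂')) he
  omega

/-! ## The states -/

namespace ST

/-- The states different from the all-A state, with the number of B smoothings. -/
def rest : Word → List (ℕ × Word)
  | [] => []
  | (Kind.pos, i) :: w => rest w ++ ((0, flat w) :: rest w).map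
      (fun s => (s.1 + 1, (Kind.cap, i) :: (Kind.cup, i) :: s.2))
  | (Kind.cup, i) :: w => (rest w).map (fun s => (s.1, (Kind.cup, i) :: s.2))
  | (Kind.cap, i) :: w => (rest w).map (fun s => (s.1, (Kind.cap, i) :: s.2))
  | (Kind.neg, _) :: _ => []

theorem flat_cons_flat {x : Letter} (hx : x.1 = Kind.cup ∨ x.1 = Kind.cap) (w : Word) :
    flat (x :: w) = x :: flat w := by
  unfold flat
  rw [List.filter_cons_of_pos]
  simpa using hx

theorem flat_cons_pos (i : ℕ) (w : Word) : flat ((Kind.pos, i) :: w) = flat w := by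
  unfold flat
  rw [List.filter_cons_of_neg]
  simp

theorem flat_is_flat (w : Word) : Flat (flat w) := by
  intro x hx
  unfold flat at hx
  rw [List.mem_filter] at hx
  simpa using hx.2

theorem flat_consF {x : Letter} (hx : x.1 = Kind.cup ∨ x.1 = Kind.cap) {w : Word}
    (hw : Flat w) : Flat (x :: w) := by
  intro y hy
  rcases List.mem_cons.1 hy with h | h
  · rw [h]; exact hx
  · exact hw y h

/-- Lengths of runs of a word, together with a labelling by units. -/
theorem urun_cons {x : Letter} {w : Word} {a b c : ℕ}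
    (hx : Step x (List.replicate a ()) (List.replicate b ())) (h : URun b c w) :
    URun a c (x :: w) := by
  obtain ⟨K, h1, h2, h3⟩ := h
  cases K with
  | nil => simp at h2
  | cons ℓ K =>
    simp only [List.head?_cons, Option.some.injEq] at h2
    subst h2
    exact ⟨_, Run.cons hx h1, rfl, by rw [← h3]; rfl⟩

theorem urun_uncons {x : Letter} {w : Word} {a c : ℕ} (h : URun a c (x :: w)) :
    ∃ b, Step x (List.replicate a ()) (List.replicate b ()) ∧ URun b c w := by
  obtain ⟨K, h1, h2, h3⟩ := h
  cases h1 with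
  | cons hs hr =>
    rename_i ℓ ℓ' K
    simp only [List.head?_cons, Option.some.injEq] at h2
    subst h2
    have e : ℓ' = List.replicate ℓ'.length () := List.eq_replicate_of_mem (fun _ _ => rfl)
    refine ⟨ℓ'.length, by rw [← e]; exact hs, ⟨_, hr, by rw [← e]; rfl, by rw [← h3]; rfl⟩⟩

theorem urun_skip {i : ℕ} {w : Word} {a c : ℕ} (h : URun a c ((Kind.pos, i) :: w)) :
    URun a c w ∧ ∀ v, URun a c v → URun a c ((Kind.cap, i) :: (Kind.cup, i) :: v) := by
  obtain ⟨b, hs, hr⟩ := urun_uncons h
  generalize hx : ((Kind.pos, i) : Letter) = x at hs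
  generalize hl : List.replicate a () = ℓ at hs
  generalize hl' : List.replicate b () = ℓ' at hs
  cases hs with
  | pos u v y z =>
    simp only [Prod.mk.injEq, true_and] at hx
    have e1 := congrArg List.length hl
    have e2 := congrArg List.length hl'
    simp only [List.length_replicate, List.length_append, List.length_cons] at e1 e2
    have e3 : a = b := by omega
    subst e3
    refine ⟨hr, fun v' hv' => ?_⟩
    have s1 : Step (Kind.cap, i) (List.replicate a ()) (u ++ v) := by
      rw [hl, hx]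
      exact Step.cap u v ()
    have s2 : Step (Kind.cup, i) (u ++ v) (List.replicate a ()) := by
      rw [hl, hx]
      exact Step.cup u v ()
    have e4 : u ++ v = List.replicate (u ++ v).length () :=
      List.eq_replicate_of_mem (fun _ _ => rfl)
    rw [e4] at s1 s2
    exact urun_cons s1 (urun_cons s2 hv')
  | cup u v y => simp at hx
  | cap u v y => simp at hx
  | neg u v y z => simp at hx

theorem urun_flat {W : Word} (hW : ∀ x ∈ W, x.1 ≠ Kind.neg) {a c : ℕ} (h : URun a c W) :
    URun a c (flat W) ∧ ∀ s ∈ rest W, URun a c s.2 ∧ Flat s.2 ∧ 1 ≤ s.1 := by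
  induction W generalizing a with
  | nil => exact ⟨h, fun s hs => by simp [rest] at hs⟩
  | cons x w ih =>
    obtain ⟨k, i⟩ := x
    have hw : ∀ x ∈ w, x.1 ≠ Kind.neg := fun x hx => hW x (List.mem_cons_of_mem _ hx)
    cases k with
    | cup =>
      obtain ⟨b, hs, hr⟩ := urun_uncons h
      obtain ⟨ih1, ih2⟩ := ih hw hr
      rw [flat_cons_flat (Or.inl rfl)]
      refine ⟨urun_cons hs ih1, fun s hs' => ?_⟩
      simp only [rest, List.mem_map] at hs'
      obtain ⟨s', hs', rfl⟩ := hs'
      obtain ⟨h1, h2, h3⟩ := ih2 s' hs'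
      exact ⟨urun_cons hs h1, flat_consF (Or.inl rfl) h2, h3⟩
    | cap =>
      obtain ⟨b, hs, hr⟩ := urun_uncons h
      obtain ⟨ih1, ih2⟩ := ih hw hr
      rw [flat_cons_flat (Or.inr rfl)]
      refine ⟨urun_cons hs ih1, fun s hs' => ?_⟩
      simp only [rest, List.mem_map] at hs'
      obtain ⟨s', hs', rfl⟩ := hs'
      obtain ⟨h1, h2, h3⟩ := ih2 s' hs'
      exact ⟨urun_cons hs h1, flat_consF (Or.inr rfl) h2, h3⟩
    | pos =>
      obtain ⟨hr, hv⟩ := urun_skip h
      obtain ⟨ih1, ih2⟩ := ih hw hr
      rw [flat_cons_pos]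
      refine ⟨ih1, fun s hs' => ?_⟩
      simp only [rest, List.mem_append, List.mem_map, List.mem_cons] at hs'
      rcases hs' with hs' | ⟨s', hs' | hs', rfl⟩
      · exact ih2 s hs'
      · subst hs'
        exact ⟨hv _ ih1, flat_consF (Or.inr rfl) (flat_consF (Or.inl rfl) (flat_is_flat w)),
          Nat.le_add_left _ _⟩
      · obtain ⟨h1, h2, h3⟩ := ih2 s' hs'
        exact ⟨hv _ h1, flat_consF (Or.inr rfl) (flat_consF (Or.inl rfl) h2),
          Nat.le_add_left _ _⟩
    | neg => exact absurd rfl (hW _ (List.mem_cons_self ..))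

theorem rest_flat {W : Word} : ∀ s ∈ rest W, Flat s.2 := by
  induction W with
  | nil => exact fun s hs => by simp [rest] at hs
  | cons x w ih =>
    obtain ⟨k, i⟩ := x
    intro s hs'
    cases k with
    | cup =>
      simp only [rest, List.mem_map] at hs'
      obtain ⟨s', hs', rfl⟩ := hs'
      exact flat_consF (Or.inl rfl) (ih s' hs')
    | cap =>
      simp only [rest, List.mem_map] at hs'
      obtain ⟨s', hs', rfl⟩ := hs'
      exact flat_consF (Or.inr rfl) (ih s' hs')
    | pos =>
      simp only [rest, List.mem_append, List.mem_map, List.mem_cons] at hs'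
      rcases hs' with hs' | ⟨s', hs' | hs', rfl⟩
      · exact ih s hs'
      · subst hs'
        exact flat_consF (Or.inr rfl) (flat_consF (Or.inl rfl) (flat_is_flat w))
      · exact flat_consF (Or.inr rfl) (flat_consF (Or.inl rfl) (ih s' hs'))
    | neg => simp [rest] at hs'

theorem flat_snoc {p : Word} (hp : Flat p) {x : Letter} (hx : x.1 = Kind.cup ∨ x.1 = Kind.cap) :
    Flat (p ++ [x]) := by
  intro y hy
  rcases List.mem_append.1 hy with h | h
  · exact hp y h
  · rw [List.mem_singleton] at h
    subst h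
    exact hx

/-- Numbers of circles, all states. -/
theorem count_le {W : Word} (hW : ∀ x ∈ W, x.1 ≠ Kind.neg) {M : ℕ} {p : Word} (hp : Flat p) :
    ∀ s ∈ rest W, (Lab M (p ++ s.2)).ncard ≤ 2 ^ s.1 * (Lab M (p ++ flat W)).ncard := by
  induction W generalizing p with
  | nil => exact fun s hs => by simp [rest] at hs
  | cons x w ih =>
    obtain ⟨k, i⟩ := x
    have hw : ∀ x ∈ w, x.1 ≠ Kind.neg := fun x hx => hW x (List.mem_cons_of_mem _ hx)
    cases k with
    | cup =>
      intro s hs'
      simp only [rest, List.mem_map] at hs'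
      obtain ⟨s', hs', rfl⟩ := hs'
      have h1 := ih hw (p := p ++ [(Kind.cup, i)]) (flat_snoc hp (Or.inl rfl)) s' hs'
      rw [flat_cons_flat (Or.inl rfl)]
      rw [List.append_assoc, List.append_assoc] at h1
      exact h1
    | cap =>
      intro s hs'
      simp only [rest, List.mem_map] at hs'
      obtain ⟨s', hs', rfl⟩ := hs'
      have h1 := ih hw (p := p ++ [(Kind.cap, i)]) (flat_snoc hp (Or.inr rfl)) s' hs'
      rw [flat_cons_flat (Or.inr rfl)]
      rw [List.append_assoc, List.append_assoc] at h1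
      exact h1
    | pos =>
      intro s hs'
      rw [flat_cons_pos]
      simp only [rest, List.mem_append, List.mem_map, List.mem_cons] at hs'
      rcases hs' with hs' | ⟨s', hs' | hs', rfl⟩
      · exact ih hw hp s hs'
      · subst hs'
        have h1 := lab_switch_le hp (flat_is_flat w) (M := M) (i := i)
        simpa using h1
      · have h1 := lab_switch_le hp (rest_flat s' hs') (M := M) (i := i)
        have h2 := ih hw hp s' hs'
        show (Lab M (p ++ (Kind.cap, i) :: (Kind.cup, i) :: s'.2)).ncard ≤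
          2 ^ (s'.1 + 1) * (Lab M (p ++ flat w)).ncard
        rw [pow_succ]
        nlinarith
    | neg => exact absurd rfl (hW _ (List.mem_cons_self ..))

/-- Numbers of circles, all states except the all-A state of an adequate diagram. -/
theorem count_adq {W : Word} (hW : ∀ x ∈ W, x.1 ≠ Kind.neg) {M : ℕ} {p : Word} (hp : Flat p)
    (hs : ∀ (a b : Word) (i : ℕ), W = a ++ (Kind.pos, i) :: b → Sep M (p ++ flat a) (flat b) i) :
    ∀ s ∈ rest W, (Lab M (p ++ s.2)).ncard * 2 ^ 2 ≤
      2 ^ s.1 * (Lab M (p ++ flat W)).ncard := by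
  induction W generalizing p with
  | nil => exact fun s hs => by simp [rest] at hs
  | cons x w ih =>
    obtain ⟨k, i⟩ := x
    have hw : ∀ x ∈ w, x.1 ≠ Kind.neg := fun x hx => hW x (List.mem_cons_of_mem _ hx)
    cases k with
    | cup =>
      intro s hs'
      simp only [rest, List.mem_map] at hs'
      obtain ⟨s', hs', rfl⟩ := hs'
      have h1 := ih hw (p := p ++ [(Kind.cup, i)]) (flat_snoc hp (Or.inl rfl)) (by
        intro a b j hab
        have h2 := hs ((Kind.cup, i) :: a) b j (by rw [hab]; rfl)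
        rw [flat_cons_flat (Or.inl rfl)] at h2
        rw [List.append_assoc]
        exact h2) s' hs'
      rw [flat_cons_flat (Or.inl rfl)]
      rw [List.append_assoc, List.append_assoc] at h1
      exact h1
    | cap =>
      intro s hs'
      simp only [rest, List.mem_map] at hs'
      obtain ⟨s', hs', rfl⟩ := hs'
      have h1 := ih hw (p := p ++ [(Kind.cap, i)]) (flat_snoc hp (Or.inr rfl)) (by
        intro a b j hab
        have h2 := hs ((Kind.cap, i) :: a) b j (by rw [hab]; rfl)
        rw [flat_cons_flat (Or.inr rfl)] at h2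
        rw [List.append_assoc]
        exact h2) s' hs'
      rw [flat_cons_flat (Or.inr rfl)]
      rw [List.append_assoc, List.append_assoc] at h1
      exact h1
    | pos =>
      intro s hs'
      rw [flat_cons_pos]
      have hsep : Sep M p (flat w) i := by
        have h2 := hs [] w i rfl
        have e : flat ([] : Word) = [] := rfl
        rw [e, List.append_nil] at h2
        exact h2
      have hA := lab_switch_adq hp (flat_is_flat w) hsep
      simp only [rest, List.mem_append, List.mem_map, List.mem_cons] at hs'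
      rcases hs' with hs' | ⟨s', hs' | hs', rfl⟩
      · refine ih hw hp ?_ s hs'
        intro a b j hab
        have h2 := hs ((Kind.pos, i) :: a) b j (by rw [hab]; rfl)
        rwa [flat_cons_pos] at h2
      · subst hs'
        show (Lab M (p ++ (Kind.cap, i) :: (Kind.cup, i) :: flat w)).ncard * 2 ^ 2 ≤
          2 ^ (0 + 1) * (Lab M (p ++ flat w)).ncard
        omega
      · have h2 := count_le hw (p := (p ++ [(Kind.cap, i)]) ++ [(Kind.cup, i)]) (M := M)
          (flat_snoc (flat_snoc hp (Or.inr rfl)) (Or.inl rfl)) s' hs'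
        rw [List.append_assoc, List.append_assoc, List.append_assoc, List.append_assoc] at h2
        show (Lab M (p ++ (Kind.cap, i) :: (Kind.cup, i) :: s'.2)).ncard * 2 ^ 2 ≤
          2 ^ (s'.1 + 1) * (Lab M (p ++ flat w)).ncard
        have h3 : (Lab M (p ++ (Kind.cap, i) :: (Kind.cup, i) :: s'.2)).ncard ≤
          2 ^ s'.1 * (Lab M (p ++ (Kind.cap, i) :: (Kind.cup, i) :: flat w)).ncard := h2
        calc (Lab M (p ++ (Kind.cap, i) :: (Kind.cup, i) :: s'.2)).ncard * 2 ^ 2
            ≤ (2 ^ s'.1 * (Lab M (p ++ (Kind.cap, i) :: (Kind.cup, i) :: flat w)).ncard) * 2 ^ 2 :=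
              Nat.mul_le_mul_right _ h3
          _ = 2 ^ (s'.1 + 1) *
              (2 * (Lab M (p ++ (Kind.cap, i) :: (Kind.cup, i) :: flat w)).ncard) := by ring
          _ ≤ 2 ^ (s'.1 + 1) * (Lab M (p ++ flat w)).ncard := Nat.mul_le_mul_left _ hA
    | neg => exact absurd rfl (hW _ (List.mem_cons_self ..))

/-! ## The value of a word as a sum over the states -/

variable {R : Type} [Ring R] [Algebra ℝ R]

theorem evL_pos (D : TLData R) (i : ℕ) :
    D.evL 1 (Kind.pos, i) = D.A • (1 : R) + D.A⁻¹ • (D.sh i D.u * D.sh i D.n) := by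
  have e1 : D.evL 1 (Kind.pos, i) = D.sh (1 * i) (D.X 1 1) := rfl
  have e2 : D.X 1 1 = D.sg := by
    have e3 : D.X 1 1 = D.X1 1 * D.S (D.X 0 1) := rfl
    have e4 : D.X 0 1 = 1 := rfl
    have e5 : D.X1 1 = D.sh 0 D.sg * D.X1 0 := rfl
    have e6 : D.X1 0 = 1 := rfl
    rw [e3, e4, e5, e6, map_one, mul_one, mul_one, TLData.sh_zero]
  rw [e1, e2, one_mul]
  unfold TLData.sg
  rw [map_add, map_smul, map_smul, map_one, map_mul]

theorem evL_cup (D : TLData R) (i : ℕ) : D.evL 1 (Kind.cup, i) = D.sh i D.u := by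
  have e1 : D.evL 1 (Kind.cup, i) = D.sh (1 * i) (D.U 1) := rfl
  have e2 : D.U 1 = D.sh 0 D.u * 1 := rfl
  rw [e1, e2, one_mul, mul_one, TLData.sh_zero]

theorem evL_cap (D : TLData R) (i : ℕ) : D.evL 1 (Kind.cap, i) = D.sh i D.n := by
  have e1 : D.evL 1 (Kind.cap, i) = D.sh (1 * i) (D.N 1) := rfl
  have e2 : D.N 1 = 1 * D.sh 0 D.n := rfl
  rw [e1, e2, one_mul, one_mul, TLData.sh_zero]

theorem crossings_pos (i : ℕ) (w : Word) : crossings ((Kind.pos, i) :: w) = crossings w + 1 := by
  unfold crossings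
  rw [List.countP_cons_of_pos]
  simp

theorem crossings_flat {x : Letter} (hx : x.1 = Kind.cup ∨ x.1 = Kind.cap) (w : Word) :
    crossings (x :: w) = crossings w := by
  unfold crossings
  rw [List.countP_cons_of_neg]
  rcases hx with hx | hx <;> simp [hx]

theorem sum_map_mul (D : TLData R) (L : List (ℕ × Word)) (f : ℕ → ℝ) (T : R) :
    (L.map (fun s => f s.1 • D.ev 1 s.2)).sum * T =
      (L.map (fun s => f s.1 • (D.ev 1 s.2 * T))).sum := by
  induction L with
  | nil => simp
  | cons s L ih =>
    rw [List.map_cons, List.sum_cons, add_mul, ih, List.map_cons, List.sum_cons, smul_mul_assoc]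

theorem sum_map_smul {L : List (ℕ × Word)} (f : ℕ → ℝ) (g : Word → R) (c : ℝ) :
    c • (L.map (fun s => f s.1 • g s.2)).sum =
      (L.map (fun s => (c * f s.1) • g s.2)).sum := by
  induction L with
  | nil => simp
  | cons s L ih =>
    rw [List.map_cons, List.sum_cons, smul_add, ih, List.map_cons, List.sum_cons, smul_smul]

/-- The state sum. -/
theorem ev_states (D : TLData R) {W : Word} (hW : ∀ x ∈ W, x.1 ≠ Kind.neg) :
    D.ev 1 W = D.A ^ (crossings W) • D.ev 1 (flat W) +
      ((rest W).map (fun s => (D.A ^ ((crossings W : ℤ) - 2 * (s.1 : ℤ))) • D.ev 1 s.2)).sum := by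
  induction W with
  | nil => simp [rest, crossings, flat, TLData.ev]
  | cons x w ih =>
    obtain ⟨k, i⟩ := x
    have hw : ∀ x ∈ w, x.1 ≠ Kind.neg := fun x hx => hW x (List.mem_cons_of_mem _ hx)
    have ih := ih hw
    cases k with
    | cup =>
      rw [crossings_flat (Or.inl rfl), flat_cons_flat (Or.inl rfl), TLData.ev_cons, ih, add_mul,
        smul_mul_assoc, TLData.ev_cons,
        sum_map_mul D (rest w) (fun b => D.A ^ ((crossings w : ℤ) - 2 * (b : ℤ)))]
      congr 1
      simp only [rest, List.map_map]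
      rfl
    | cap =>
      rw [crossings_flat (Or.inr rfl), flat_cons_flat (Or.inr rfl), TLData.ev_cons, ih, add_mul,
        smul_mul_assoc, TLData.ev_cons,
        sum_map_mul D (rest w) (fun b => D.A ^ ((crossings w : ℤ) - 2 * (b : ℤ)))]
      congr 1
      simp only [rest, List.map_map]
      rfl
    | pos =>
      have hA := D.hA
      have key : ∀ v : Word, D.ev 1 ((Kind.cap, i) :: (Kind.cup, i) :: v) =
          D.ev 1 v * (D.sh i D.u * D.sh i D.n) := by
        intro v
        rw [TLData.ev_cons, TLData.ev_cons, evL_cap, evL_cup, mul_assoc]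
      have e1 : ((rest ((Kind.pos, i) :: w)).map (fun s =>
          (D.A ^ ((crossings ((Kind.pos, i) :: w) : ℤ) - 2 * (s.1 : ℤ))) • D.ev 1 s.2)).sum =
          D.A • ((rest w).map (fun s =>
            (D.A ^ ((crossings w : ℤ) - 2 * (s.1 : ℤ))) • D.ev 1 s.2)).sum +
          (D.A⁻¹ • (D.A ^ (crossings w) • D.ev 1 (flat w)) +
          D.A⁻¹ • ((rest w).map (fun s =>
            (D.A ^ ((crossings w : ℤ) - 2 * (s.1 : ℤ))) • D.ev 1 s.2)).sum) *
              (D.sh i D.u * D.sh i D.n) := by
        simp only [rest, List.map_append, List.sum_append, List.map_cons, List.sum_cons,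
          List.map_map]
        rw [crossings_pos, add_mul, sum_map_smul (fun b => D.A ^ ((crossings w : ℤ) - 2 * (b : ℤ)))
          (fun v => D.ev 1 v), sum_map_smul (fun b => D.A ^ ((crossings w : ℤ) - 2 * (b : ℤ)))
          (fun v => D.ev 1 v), sum_map_mul D (rest w)
            (fun b => D.A⁻¹ * D.A ^ ((crossings w : ℤ) - 2 * (b : ℤ)))]
        congr 1
        · congr 1
          refine List.map_congr_left fun s _ => ?_
          congr 1
          rw [← zpow_one_add₀ hA]
          congr 1
          push_cast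
          ring
        · congr 1
          · rw [key, smul_smul, smul_mul_assoc]
            congr 1
            rw [← zpow_natCast, ← zpow_neg_one, ← zpow_add₀ hA]
            congr 1
            push_cast
            ring
          · congr 1
            refine List.map_congr_left fun s _ => ?_
            simp only [Function.comp_apply]
            rw [key]
            congr 1
            rw [← zpow_neg_one, ← zpow_add₀ hA]
            congr 1
            push_cast
            ring
      rw [e1, TLData.ev_cons, ih, evL_pos, flat_cons_pos, crossings_pos]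
      generalize D.sh i D.u * D.sh i D.n = T
      generalize ((rest w).map (fun s =>
            (D.A ^ ((crossings w : ℤ) - 2 * (s.1 : ℤ))) • D.ev 1 s.2)).sum = Y
      generalize D.ev 1 (flat w) = F
      rw [mul_add, mul_smul_comm, mul_one, smul_add, smul_smul, mul_smul_comm, ← smul_mul_assoc,
        smul_add, pow_succ, mul_comm D.A, add_assoc]
    | neg => exact absurd rfl (hW _ (List.mem_cons_self ..))

/-! ## Laurent polynomials -/

theorem laurent_zero : Laurent (fun _ => 0) := ⟨[], fun A _ => by simp⟩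

theorem laurent_one : Laurent (fun _ => 1) := ⟨[(1, 0)], fun A _ => by simp⟩

theorem laurent_add {f g : ℝ → ℝ} (hf : Laurent f) (hg : Laurent g) :
    Laurent (fun A => f A + g A) := by
  obtain ⟨S, hS⟩ := hf
  obtain ⟨S', hS'⟩ := hg
  refine ⟨S ++ S', fun A hA => ?_⟩
  beta_reduce
  rw [List.map_append, List.sum_append, hS A hA, hS' A hA]

theorem laurent_mono {f : ℝ → ℝ} (hf : Laurent f) (c : ℝ) (z : ℤ) :
    Laurent (fun A => c * A ^ z * f A) := by
  obtain ⟨S, hS⟩ := hf
  refine ⟨S.map (fun s => (c * s.1, z + s.2)), fun A hA => ?_⟩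
  beta_reduce
  rw [hS A hA, List.map_map]
  clear hS
  induction S with
  | nil => simp
  | cons s S ih =>
    rw [List.map_cons, List.sum_cons, mul_add, ih, List.map_cons, List.sum_cons]
    congr 1
    show c * A ^ z * (s.1 * A ^ s.2) = c * s.1 * A ^ (z + s.2)
    rw [zpow_add₀ hA]
    ring

theorem laurent_congr {f g : ℝ → ℝ} (hf : Laurent f) (h : ∀ A, A ≠ 0 → g A = f A) :
    Laurent g := by
  obtain ⟨S, hS⟩ := hf
  exact ⟨S, fun A hA => by rw [h A hA, hS A hA]⟩

/-- The value of a circle as a function. -/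
noncomputable def dlf (A : ℝ) : ℝ := -(A ^ 2) - (A⁻¹) ^ 2

theorem laurent_dl (k : ℕ) : Laurent (fun A => dlf A ^ k) := by
  induction k with
  | zero => simpa using laurent_one
  | succ k ih =>
    refine laurent_congr (laurent_add (laurent_mono ih (-1) 2) (laurent_mono ih (-1) (-2))) ?_
    intro A hA
    have e1 : A ^ (2 : ℤ) = A ^ 2 := by norm_cast
    have e2 : A ^ (-2 : ℤ) = (A⁻¹) ^ 2 := by
      rw [zpow_neg, e1, inv_pow]
    rw [e1, e2, pow_succ, dlf]
    ring

theorem dl_eq (D : TLData R) : D.dl = dlf D.A := rfl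

theorem abs_dl {A : ℝ} (hA : 1 ≤ A) : A ^ 2 ≤ |dlf A| ∧ |dlf A| ≤ 2 * A ^ 2 := by
  have h1 : 0 ≤ (A⁻¹) ^ 2 := sq_nonneg _
  have h2 : (A⁻¹) ^ 2 ≤ A ^ 2 := by
    have h3 : A⁻¹ ≤ 1 := inv_le_one_of_one_le₀ hA
    have h4 : 0 ≤ A⁻¹ := inv_nonneg.2 (by linarith)
    exact pow_le_pow_left₀ h4 (h3.trans hA) 2
  have h5 : 0 ≤ A ^ 2 := sq_nonneg _
  have h6 : dlf A = -(A ^ 2 + (A⁻¹) ^ 2) := by
    unfold dlf
    ring
  rw [h6, abs_neg, abs_of_nonneg (by linarith)]
  constructor <;> linarith

/-- One state. -/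
theorem state_one {v : Word} (hv : Flat v) {M : ℕ} (hM : URun M M v) :
    ∃ (τ : ℝ → ℝ) (C : ℝ), 0 ≤ C ∧ Laurent τ ∧
      (∀ (R : Type) [Ring R] [Algebra ℝ R] (D : TLData R), ∃ Z : ℕ → R,
        D.ev 1 v = τ D.A • (1 : R) + ∑ i ∈ range (M - 1), Z i * D.sh i D.n) ∧
      (∀ k b e : ℕ, (Lab M v).ncard * 2 ^ e ≤ 2 ^ b * 2 ^ (M + k) →
        ∀ A : ℝ, 1 ≤ A → |τ A| * A ^ (2 * e) ≤ C * A ^ (2 * (k + b))) ∧
      (∀ k : ℕ, (Lab M v).ncard = 2 ^ (M + k) →
        (∀ (R : Type) [Ring R] [Algebra ℝ R] (D : TLData R), D.ev 1 v = D.dl ^ k • (1 : R)) →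
        ∀ A : ℝ, 1 ≤ A → A ^ (2 * k) ≤ |τ A|) := by
  by_cases h : ∃ k : ℕ, (Lab M v).ncard = 2 ^ (M + k) ∧
      ∀ (R : Type) [Ring R] [Algebra ℝ R] (D : TLData R), D.ev 1 v = D.dl ^ k • (1 : R)
  · obtain ⟨k₁, h1, h2⟩ := h
    refine ⟨fun A => dlf A ^ k₁, 2 ^ k₁, by positivity, laurent_dl k₁, ?_, ?_, ?_⟩
    · intro R _ _ D
      refine ⟨fun _ => 0, ?_⟩
      rw [h2 R D, dl_eq]
      simp
    · intro k b e hk A hA
      rw [h1, ← pow_add, ← pow_add] at hk
      have h3 : M + k₁ + e ≤ b + (M + k) := (Nat.pow_le_pow_iff_right (by norm_num)).1 hk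
      have h4 := (abs_dl hA).2
      show |dlf A ^ k₁| * A ^ (2 * e) ≤ 2 ^ k₁ * A ^ (2 * (k + b))
      rw [abs_pow]
      calc |dlf A| ^ k₁ * A ^ (2 * e) ≤ (2 * A ^ 2) ^ k₁ * A ^ (2 * e) := by
            refine mul_le_mul_of_nonneg_right (pow_le_pow_left₀ (abs_nonneg _) h4 k₁) ?_
            exact pow_nonneg (by linarith) _
        _ = 2 ^ k₁ * A ^ (2 * k₁ + 2 * e) := by
            rw [mul_pow, ← pow_mul, pow_add]
            ring
        _ ≤ 2 ^ k₁ * A ^ (2 * (k + b)) := by
            refine mul_le_mul_of_nonneg_left ?_ (by positivity)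
            exact pow_le_pow_right₀ hA (by omega)
    · intro k hk _ A hA
      rw [h1] at hk
      have h3 : k₁ = k := by
        have := Nat.pow_right_injective (le_refl 2) hk
        omega
      subst h3
      show A ^ (2 * k₁) ≤ |dlf A ^ k₁|
      rw [abs_pow, pow_mul]
      exact pow_le_pow_left₀ (sq_nonneg _) (abs_dl hA).1 k₁
  · refine ⟨fun _ => 0, 0, le_refl _, laurent_zero, ?_, ?_, ?_⟩
    · rcases flat_main hv hM with ⟨k, h1, h2⟩ | ⟨i, hi, h2⟩
      · exfalso
        apply h
        refine ⟨k, h1, fun R _ _ D => ?_⟩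
        rw [h2 R D 1, pow_one]
      · intro R _ _ D
        obtain ⟨Z, hZ⟩ := h2 R D 1
        refine ⟨fun j => if j = i then Z else 0, ?_⟩
        rw [zero_smul, zero_add, Finset.sum_eq_single i]
        · beta_reduce
          rw [if_pos rfl, hZ, one_mul]
          have e2 : D.N 1 = 1 * D.sh 0 D.n := rfl
          rw [e2, one_mul, TLData.sh_zero]
        · intro j _ hj
          beta_reduce
          rw [if_neg hj, zero_mul]
        · intro hi'
          exfalso
          apply hi'
          rw [Finset.mem_range]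
          omega
    · intro k b e _ A _
      simp
    · intro k h1 h2 A _
      exact absurd ⟨k, h1, fun R _ _ D => h2 R D⟩ h

/-- The sum over a list of states. -/
theorem state_sum (c M : ℕ) (L : List (ℕ × Word)) (hL : ∀ s ∈ L, URun M M s.2 ∧ Flat s.2) :
    ∃ (t : ℝ → ℝ) (C : ℝ), 0 ≤ C ∧ Laurent t ∧
      (∀ (R : Type) [Ring R] [Algebra ℝ R] (D : TLData R), ∃ Z : ℕ → R,
        (L.map (fun s => (D.A ^ ((c : ℤ) - 2 * (s.1 : ℤ))) • D.ev 1 s.2)).sum =
          t D.A • (1 : R) + ∑ i ∈ range (M - 1), Z i * D.sh i D.n) ∧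
      (∀ k e : ℕ, (∀ s ∈ L, (Lab M s.2).ncard * 2 ^ e ≤ 2 ^ s.1 * 2 ^ (M + k)) →
        ∀ A : ℝ, 1 ≤ A → |t A| * A ^ (2 * e) ≤ C * A ^ (c + 2 * k)) := by
  induction L with
  | nil =>
    refine ⟨fun _ => 0, 0, le_refl _, laurent_zero, fun R _ _ D => ⟨fun _ => 0, by simp⟩, ?_⟩
    intro k e _ A _
    simp
  | cons s L ih =>
    obtain ⟨t, C, hC, hLt, h1, h2⟩ := ih fun s' hs' => hL s' (List.mem_cons_of_mem _ hs')
    obtain ⟨hU, hF⟩ := hL s (List.mem_cons_self ..)
    obtain ⟨τ, C', hC', hLt', h1', h2', _⟩ := state_one hF hU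
    refine ⟨fun A => 1 * A ^ ((c : ℤ) - 2 * (s.1 : ℤ)) * τ A + t A, C' + C, by linarith,
      laurent_add (laurent_mono hLt' 1 _) hLt, ?_, ?_⟩
    · intro R _ _ D
      obtain ⟨Z, hZ⟩ := h1 R D
      obtain ⟨Z', hZ'⟩ := h1' R D
      refine ⟨fun i => D.A ^ ((c : ℤ) - 2 * (s.1 : ℤ)) • Z' i + Z i, ?_⟩
      beta_reduce
      rw [List.map_cons, List.sum_cons, hZ, hZ', smul_add, smul_smul, one_mul, add_smul,
        Finset.smul_sum]
      simp only [add_mul, smul_mul_assoc, Finset.sum_add_distrib]
      abel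
    · intro k e hk A hA
      have h3 := h2 k e (fun s' hs' => hk s' (List.mem_cons_of_mem _ hs')) A hA
      have h4 := h2' k s.1 e (hk s (List.mem_cons_self ..)) A hA
      have hA0 : 0 < A := by linarith
      have h5 : 0 < A ^ ((c : ℤ) - 2 * (s.1 : ℤ)) := zpow_pos hA0 _
      have h6 : |1 * A ^ ((c : ℤ) - 2 * (s.1 : ℤ)) * τ A| * A ^ (2 * e) ≤
          C' * A ^ (c + 2 * k) := by
        rw [one_mul, abs_mul, abs_of_pos h5, mul_assoc]
        refine (mul_le_mul_of_nonneg_left h4 h5.le).trans (le_of_eq ?_)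
        rw [mul_left_comm]
        congr 1
        rw [← zpow_natCast, ← zpow_natCast, ← zpow_add₀ hA0.ne']
        congr 1
        push_cast
        ring
      calc |1 * A ^ ((c : ℤ) - 2 * (s.1 : ℤ)) * τ A + t A| * A ^ (2 * e)
          ≤ (|1 * A ^ ((c : ℤ) - 2 * (s.1 : ℤ)) * τ A| + |t A|) * A ^ (2 * e) :=
            mul_le_mul_of_nonneg_right (abs_add_le _ _) (pow_nonneg hA0.le _)
        _ ≤ (C' + C) * A ^ (c + 2 * k) := by
            rw [add_mul, add_mul]
            exact add_le_add h6 h3

end ST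

/-- The scalar by which a diagram without negative letters acts modulo caps, and its size.
`k₀` is the number of closed circles of the all-A state. -/
theorem top_coeff {W : Word} (hW : ∀ x ∈ W, x.1 ≠ Kind.neg) {M k₀ : ℕ} (hM : URun M M W)
    (h0 : (Lab M (flat W)).ncard = 2 ^ (M + k₀)) :
    ∃ (t : ℝ → ℝ) (C : ℝ), 0 ≤ C ∧ Laurent t ∧
      (∀ (R : Type) [Ring R] [Algebra ℝ R] (D : TLData R), ∃ Z : ℕ → R,
        D.ev 1 W = t D.A • (1 : R) + ∑ i ∈ range (M - 1), Z i * D.sh i D.n) ∧
      (∀ A : ℝ, 1 ≤ A → |t A| ≤ C * A ^ (crossings W + 2 * k₀)) ∧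
      (Adq M W →
        (∀ (R : Type) [Ring R] [Algebra ℝ R] (D : TLData R),
          D.ev 1 (flat W) = D.dl ^ k₀ • (1 : R)) →
        ∀ A : ℝ, 1 ≤ A → A ^ 2 * A ^ (crossings W + 2 * k₀) ≤
          A ^ 2 * |t A| + C * A ^ (crossings W + 2 * k₀)) := by
  obtain ⟨hU, hrest⟩ := urun_flat hW hM
  obtain ⟨τ, C₀, hC₀, hLτ, hτ1, hτ2, hτ3⟩ := state_one (flat_is_flat W) hU
  obtain ⟨t', C', hC', hLt', ht1, ht2⟩ := state_sum (crossings W) M (rest W)
    fun s hs => ⟨(hrest s hs).1, (hrest s hs).2.1⟩
  refine ⟨fun A => 1 * A ^ (crossings W : ℤ) * τ A + t' A, C₀ + C', by linarith,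
    laurent_add (laurent_mono hLτ 1 _) hLt', ?_, ?_, ?_⟩
  · intro R _ _ D
    obtain ⟨Z, hZ⟩ := hτ1 R D
    obtain ⟨Z', hZ'⟩ := ht1 R D
    refine ⟨fun i => D.A ^ crossings W • Z i + Z' i, ?_⟩
    beta_reduce
    rw [ev_states D hW, hZ, hZ', smul_add, smul_smul, one_mul, add_smul, Finset.smul_sum,
      zpow_natCast]
    simp only [add_mul, smul_mul_assoc, Finset.sum_add_distrib]
    abel
  · intro A hA
    have hA0 : 0 < A := by linarith
    have h1 := hτ2 k₀ 0 0 (by rw [h0, pow_zero, one_mul, mul_one]) A hA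
    have h2 := ht2 k₀ 0 (fun s hs => by
      have h3 := count_le hW (M := M) (p := []) (fun x hx => by simp at hx) s hs
      rw [List.nil_append, List.nil_append, h0] at h3
      rw [pow_zero, mul_one]
      exact h3) A hA
    rw [mul_zero, pow_zero, mul_one] at h1 h2
    show |1 * A ^ (crossings W : ℤ) * τ A + t' A| ≤ (C₀ + C') * A ^ (crossings W + 2 * k₀)
    rw [one_mul, zpow_natCast]
    calc |A ^ crossings W * τ A + t' A| ≤ |A ^ crossings W * τ A| + |t' A| := abs_add_le _ _
      _ ≤ A ^ crossings W * (C₀ * A ^ (2 * (k₀ + 0))) + C' * A ^ (crossings W + 2 * k₀) := by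
          refine add_le_add ?_ h2
          rw [abs_mul, abs_of_pos (pow_pos hA0 _)]
          exact mul_le_mul_of_nonneg_left h1 (pow_pos hA0 _).le
      _ = (C₀ + C') * A ^ (crossings W + 2 * k₀) := by
          rw [add_zero, pow_add]
          ring
  · intro hadq hev A hA
    have hA0 : 0 < A := by linarith
    have h1 := hτ3 k₀ h0 hev A hA
    have h2 := ht2 k₀ 2 (fun s hs => by
      have h3 := count_adq hW (M := M) (p := []) (fun x hx => by simp at hx)
        (fun a b i hab => by
          rw [List.nil_append]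
          exact hadq a b i hab) s hs
      rw [List.nil_append, List.nil_append, h0] at h3
      exact h3) A hA
    show A ^ 2 * A ^ (crossings W + 2 * k₀) ≤
      A ^ 2 * |1 * A ^ (crossings W : ℤ) * τ A + t' A| + (C₀ + C') * A ^ (crossings W + 2 * k₀)
    rw [one_mul, zpow_natCast]
    have h3 : A ^ crossings W * |τ A| ≤ |A ^ crossings W * τ A + t' A| + |t' A| := by
      have h4 : A ^ crossings W * |τ A| = |(A ^ crossings W * τ A + t' A) - t' A| := by
        rw [add_sub_cancel_right, abs_mul, abs_of_pos (pow_pos hA0 _)]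
      rw [h4]
      exact abs_sub _ _
    have h5 : A ^ 2 * |t' A| ≤ C' * A ^ (crossings W + 2 * k₀) := by
      refine le_trans ?_ h2
      rw [mul_comm]
      refine mul_le_mul_of_nonneg_left ?_ (abs_nonneg _)
      exact pow_le_pow_right₀ hA (by norm_num)
    have h6 : A ^ (crossings W + 2 * k₀) ≤ A ^ crossings W * |τ A| := by
      rw [pow_add]
      exact mul_le_mul_of_nonneg_left h1 (pow_pos hA0 _).le
    have h7 : 0 ≤ C₀ * A ^ (crossings W + 2 * k₀) := mul_nonneg hC₀ (pow_pos hA0 _).le
    have h8 : A ^ 2 * A ^ (crossings W + 2 * k₀) ≤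
        A ^ 2 * (|A ^ crossings W * τ A + t' A| + |t' A|) :=
      mul_le_mul_of_nonneg_left (h6.trans h3) (sq_nonneg _)
    rw [mul_add] at h8
    rw [add_mul]
    linarith

end Pool.Agent.HTW
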