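import Pool.Agent.HTW.Side2
import Pool.Agent.HTW.TDefs

/-!
# The exponent inequality for one side

`w` is the companion, the pattern is the tangle word `P` followed by `m` negative full twists.
-/

namespace Pool.Agent.HTW

open Finset

/-- The coloured evaluation of the satellite of `w` with the braid `β`. -/
noncomputable def satv (A : ℝ) (hA : A ≠ 0) (N n : ℕ) (w β : Word) : ℝ :=
  (((tl A hA).sh N ((tl A hA).N (N * (n - 1))) * ((tl A hA).ev (N * n) w * (tl A hA).ev N β) *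
    (tl A hA).sh N ((tl A hA).U (N * (n - 1)))) (vplus N)) tt

/-- The top channel of the cables of `w` dominates the other ones. -/
def Dom (w : Word) (c κ : ℕ) : Prop :=
  ∀ M : ℕ, ∃ C A₀ : ℝ, 0 ≤ C ∧ 1 < A₀ ∧ ∀ (A : ℝ) (hA : A ≠ 0), A₀ ≤ A →
    (1 / 2) * A ^ (M ^ 2 * c + M * κ) ≤ |jj A hA M w| ∧
    ∀ j ∈ chans M, Bd M M ((tl A hA).ev M w * Q A hA M j)
      ((C * A ^ (j ^ 2 * c + M * κ)) ^ 2)

/-- The top channel of the cables of the tangle `P`: it is a scalar of the order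
`A^(N^2 p + N κ)`, and the norm of the cable is not much larger. -/
def DomT (n : ℕ) (P : Word) (p κ : ℕ) : Prop :=
  ∀ N : ℕ, ∃ C A₀ : ℝ, 0 ≤ C ∧ 1 < A₀ ∧ ∀ (A : ℝ) (hA : A ≠ 0), A₀ ≤ A →
    ∃ t : ℝ, (tl A hA).ev N P * Q A hA (N * n) (N * n) = t • Q A hA (N * n) (N * n) ∧
      (1 / 2) * A ^ (N ^ 2 * p + N * κ) ≤ |t| ∧ |t| ≤ C * A ^ (N ^ 2 * p + N * κ) ∧
      Bd (N * n) (N * n) ((tl A hA).ev N P) ((C * A ^ (N ^ 2 * p + N * κ + 2 * (N * n))) ^ 2)

theorem sgn_le (α : List Bool) : sgn α ≤ α.length := by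
  induction α with
  | nil => exact le_rfl
  | cons x α ih =>
    show (if x then 1 else -1) + sgn α ≤ ((α.length + 1 : ℕ) : ℤ)
    push_cast
    split_ifs <;> omega

theorem sgn_le' (α : List Bool) (h : α ≠ List.replicate α.length true) :
    sgn α ≤ α.length - 2 := by
  induction α with
  | nil => exact absurd rfl h
  | cons x α ih =>
    show (if x then 1 else -1) + sgn α ≤ ((α.length + 1 : ℕ) : ℤ) - 2
    push_cast
    cases x with
    | true =>
      have h1 : α ≠ List.replicate α.length true := by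
        intro h2
        apply h
        rw [List.length_cons, List.replicate_succ, ← h2]
      have := ih h1
      simp only [if_true]
      omega
    | false =>
      have := sgn_le α
      simp only [Bool.false_eq_true, if_false]
      omega

theorem sgn_replicate (k : ℕ) : sgn (List.replicate k true) = k := by
  induction k with
  | zero => rfl
  | succ k ih =>
    rw [List.replicate_succ]
    show (if true then 1 else -1) + sgn (List.replicate k true) = ((k + 1 : ℕ) : ℤ)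
    rw [ih]
    push_cast
    simp only [if_true]
    ring

theorem pre_replicate (k : ℕ) : pre (List.replicate k true) tt = tt := by
  induction k with
  | zero => rfl
  | succ k ih =>
    rw [List.replicate_succ]
    show scons true (pre (List.replicate k true) tt) = tt
    rw [ih]
    funext j
    cases j <;> rfl

theorem nt_uRun {R : Type} [Ring R] [Algebra ℝ R] (D : TLData R) (m : ℕ) {n n' : ℕ} {w : Word}
    (h : URun n n' w) : D.Nt (m * n) (m * n') (D.ev m w) := by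
  obtain ⟨K, h1, h2, h3⟩ := h
  cases K with
  | nil => simp at h2
  | cons k K =>
    simp only [List.head?_cons, Option.some.injEq] at h2
    have h4 := nt_run D m h1 rfl h3
    rw [h2, List.length_replicate, List.length_replicate] at h4
    exact h4

/-- The labels of the strands of the satellite. -/
def lab (N k : ℕ) (ε : Fin k → Bool) : List Bool := List.replicate N true ++ List.ofFn ε

theorem length_lab (N k : ℕ) (ε : Fin k → Bool) : (lab N k ε).length = N + k := by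
  simp [lab]

/-- The term of the state `ε` and of the channel `j`. -/
noncomputable def tterm (A : ℝ) (hA : A ≠ 0) (N n : ℕ) (w β : Word)
    (x : (Fin (N * (n - 1)) → Bool) × ℕ) : ℝ :=
  A ^ (2 * sgn (List.ofFn x.1)) *
    (Tch A hA N n w β x.2 (cvec (lab N _ x.1))) (pre (lab N _ x.1) tt)

theorem satv_eq (A : ℝ) (hA : A ≠ 0) (h1 : 1 < A) {N n : ℕ} (hn : 1 ≤ n) {w β : Word}
    (hw : LongWord w) (hβ : (tl A hA).Nt (N * n) (N * n) ((tl A hA).ev N β)) :
    satv A hA N n w β = (-1) ^ (N * (n - 1)) *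
      ∑ x ∈ (Finset.univ : Finset (Fin (N * (n - 1)) → Bool)) ×ˢ chans (N * n),
        tterm A hA N n w β x := by
  have hM : N + N * (n - 1) = N * n := by
    obtain ⟨n', rfl⟩ : ∃ n', n = n' + 1 := ⟨n - 1, by omega⟩
    rw [Nat.add_sub_cancel]
    ring
  have hT : (tl A hA).Loc (N + N * (n - 1)) (N + N * (n - 1))
      ((tl A hA).ev (N * n) w * (tl A hA).ev N β) := by
    rw [hM]
    exact ((nt_long (tl A hA) (N * n) hw).mul hβ).loc
  unfold satv
  rw [close_eq A hA N (N * (n - 1)) _ hT, Finset.sum_product]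
  congr 1
  refine Finset.sum_congr rfl fun ε _ => ?_
  have e : (tl A hA).ev (N * n) w * (tl A hA).ev N β =
      ∑ j ∈ chans (N * n), Tch A hA N n w β j := by
    unfold Tch
    rw [← Finset.sum_mul, ← Finset.mul_sum, sum_Q A hA h1, mul_one]
  rw [e, LinearMap.sum_apply, Finset.sum_apply, Finset.mul_sum]
  refine Finset.sum_congr rfl fun j _ => ?_
  unfold tterm lab
  rw [vec_eq, strm_eq]

/-- The comparison of the exponents. -/
theorem exp_ineq {N n m c κ p κP j : ℕ} (hn : 1 ≤ n) (hm : m < c) (hN : 2 * m + 3 ≤ N)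
    (hj : j + 2 ≤ N * n) :
    (-(((j ^ 2 + 2 * j) * m : ℕ) : ℤ) + ((j ^ 2 * c + N * n * κ : ℕ) : ℤ) +
      (((N ^ 2 + 2 * N) * n * m : ℕ) : ℤ) +
        ((N ^ 2 * p + N * κP + 2 * (N * n) : ℕ) : ℤ)) + 2 ≤
      (N : ℤ) ^ 2 * ((p : ℤ) - m * (n * (n - 1))) + ((N * κP : ℕ) : ℤ) +
        (((N * n) ^ 2 * c + N * n * κ : ℕ) : ℤ) := by
  push_cast
  have hj' : (j : ℤ) + 2 ≤ N * n := by exact_mod_cast hj
  have hm' : (m : ℤ) + 1 ≤ c := by exact_mod_cast hm
  have hN' : 2 * (m : ℤ) + 3 ≤ N := by exact_mod_cast hN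
  have hn' : (1 : ℤ) ≤ n := by exact_mod_cast hn
  have hm0 : (0 : ℤ) ≤ m := Int.natCast_nonneg m
  have hj0 : (0 : ℤ) ≤ j := Int.natCast_nonneg j
  set M : ℤ := N * n with hM
  have hMN : (N : ℤ) ≤ M := by
    rw [hM]
    nlinarith
  have h1 : M + j - 2 * m ≤ (M + j) * (c - m) - 2 * m := by nlinarith
  have h2 : (M - j) * (M + j - 2 * m) ≤ (M - j) * ((M + j) * (c - m) - 2 * m) :=
    mul_le_mul_of_nonneg_left h1 (by linarith)
  have h3 : (N : ℤ) ^ 2 * ((p : ℤ) - m * (n * (n - 1))) + N * κP + (M ^ 2 * c + M * κ) -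
      (-((j ^ 2 + 2 * j) * m) + (j ^ 2 * c + M * κ) + (N ^ 2 + 2 * N) * n * m +
        (N ^ 2 * p + N * κP + 2 * M)) =
      (M - j) * ((M + j) * (c - m) - 2 * m) - 2 * M := by
    rw [hM]
    ring
  have h4 : 2 * M + 2 ≤ (M - j) * (M + j - 2 * m) := by nlinarith
  linarith

/-- The main exponent. -/
def mexp (N n c κ p κP m : ℕ) : ℤ :=
  2 * ((N * (n - 1) : ℕ) : ℤ) + ((N : ℤ) ^ 2 * ((p : ℤ) - m * (n * (n - 1))) +
    ((N * κP : ℕ) : ℤ) + (((N * n) ^ 2 * c + N * n * κ : ℕ) : ℤ))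

/-- The scalar of the pattern on the top channel. -/
noncomputable def tw (A : ℝ) (N n m : ℕ) : ℝ := (A ^ (N ^ 2)) ^ (-(m * (n * (n - 1)) : ℤ))

theorem tw_pos {A : ℝ} (hA : 0 < A) (N n m : ℕ) : 0 < tw A N n m :=
  zpow_pos (by positivity) _

theorem Tch_topT (A : ℝ) (hA : A ≠ 0) (h1 : 1 < A) (N n m : ℕ) (w : Word) {P : Word}
    (hP : URun n n P) {t : ℝ}
    (ht : (tl A hA).ev N P * Q A hA (N * n) (N * n) = t • Q A hA (N * n) (N * n)) :
    Tch A hA N n w (P ++ twists .neg n m) (N * n) =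
      (tw A N n m * t) • ((tl A hA).ev (N * n) w * Q A hA (N * n) (N * n)) := by
  have hb : IsBraid n (twists .neg n m) := isBraid_twists _ (Or.inr rfl) n m
  have hN : (tl A hA).Nt (N * n) (N * n) ((tl A hA).ev N (P ++ twists .neg n m)) := by
    rw [(tl A hA).ev_append]
    exact (nt_braid (tl A hA) N n hb).mul (nt_uRun (tl A hA) N hP)
  unfold Tch
  rw [mul_assoc, commute_Q A hA _ _ hN, (tl A hA).ev_append, mul_assoc, ht, mul_smul_comm,
    ev_braid_Q A hA h1 N n hb, smul_smul, mul_smul_comm, expSum_twists_neg, mul_comm t]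
  rfl

/-- The norm of the channel `j`. -/
theorem bd_TchT (A : ℝ) (hA : A ≠ 0) (h1 : 1 < A) (N n m : ℕ) {w P : Word} {j : ℕ}
    (hj : j ∈ chans (N * n)) {B B' : ℝ}
    (hB : Bd (N * n) (N * n) ((tl A hA).ev (N * n) w * Q A hA (N * n) j) (B ^ 2))
    (hB' : Bd (N * n) (N * n) ((tl A hA).ev N P) (B' ^ 2)) :
    Bd (N * n) (N * n) (Tch A hA N n w (P ++ twists .neg n m) j)
      (((((tl A hA).mu j)⁻¹) ^ m) ^ 2 * (B ^ 2 *
        ((((A ^ (N ^ 2 + 2 * N)) ^ 2) ^ n) ^ m * B' ^ 2))) := by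
  rw [Tch_eq A hA h1 N n m w P hj]
  have hA0 : 0 < A := lt_trans one_pos h1
  have h2 := bd_par A hA h1 N n (N * n) 0 (by omega)
  have h3 := (Bd.pow (by positivity) h2 m).mul (by positivity) hB'
  exact (hB.mul (by positivity) h3).smul _

theorem tterm_top (A : ℝ) (hA : A ≠ 0) (h1 : 1 < A) {N n m : ℕ} (hn : 1 ≤ n) {w P : Word}
    (hP : URun n n P) (c κ p κP : ℕ) {t : ℝ}
    (ht : (tl A hA).ev N P * Q A hA (N * n) (N * n) = t • Q A hA (N * n) (N * n))
    (ht1 : (1 / 2) * A ^ (N ^ 2 * p + N * κP) ≤ |t|)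
    (hjj : (1 / 2) * A ^ ((N * n) ^ 2 * c + N * n * κ) ≤ |jj A hA (N * n) w|) :
    (1 / 4) * A ^ (mexp N n c κ p κP m) ≤
      |tterm A hA N n w (P ++ twists .neg n m) (fun _ => true, N * n)| := by
  have hM : N + N * (n - 1) = N * n := by
    obtain ⟨n', rfl⟩ : ∃ n', n = n' + 1 := ⟨n - 1, by omega⟩
    rw [Nat.add_sub_cancel]
    ring
  have hA0 : 0 < A := lt_trans one_pos h1
  have e1 : lab N (N * (n - 1)) (fun _ => true) = List.replicate (N * n) true := by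
    unfold lab
    rw [List.ofFn_const, List.replicate_append_replicate, hM]
  have e2 : tterm A hA N n w (P ++ twists .neg n m) (fun _ => true, N * n) =
      A ^ (2 * ((N * (n - 1) : ℕ) : ℤ)) * ((tw A N n m * t) * jj A hA (N * n) w) := by
    unfold tterm
    simp only
    rw [e1, pre_replicate, cvec_replicate, List.ofFn_const, sgn_replicate,
      Tch_topT A hA h1 N n m w hP ht, LinearMap.smul_apply, Pi.smul_apply,
      Module.End.mul_apply, Q_vplus A hA h1, smul_eq_mul]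
    rfl
  have htw := tw_pos hA0 N n m
  rw [e2, abs_mul, abs_mul, abs_mul, abs_of_pos (zpow_pos hA0 _), abs_of_pos htw]
  calc (1 / 4) * A ^ (mexp N n c κ p κP m)
      = A ^ (2 * ((N * (n - 1) : ℕ) : ℤ)) * ((tw A N n m *
          ((1 / 2) * A ^ (N ^ 2 * p + N * κP))) *
          ((1 / 2) * A ^ ((N * n) ^ 2 * c + N * n * κ))) := by
        have e3 : mexp N n c κ p κP m = 2 * ((N * (n - 1) : ℕ) : ℤ) +
            ((N : ℤ) ^ 2) * (-(m * (n * (n - 1)) : ℤ)) +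
            ((N ^ 2 * p + N * κP : ℕ) : ℤ) + (((N * n) ^ 2 * c + N * n * κ : ℕ) : ℤ) := by
          unfold mexp
          push_cast
          ring
        rw [e3, zpow_add₀ hA, zpow_add₀ hA, zpow_add₀ hA, zpow_natCast, zpow_natCast,
          zpow_mul A ((N : ℤ) ^ 2), show (A ^ ((N : ℤ) ^ 2)) = A ^ (N ^ 2) by
            rw [← zpow_natCast]
            push_cast
            rfl]
        unfold tw
        ring
    _ ≤ _ := by
        refine mul_le_mul_of_nonneg_left ?_ (zpow_nonneg hA0.le _)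
        refine mul_le_mul ?_ hjj (by positivity) (mul_nonneg htw.le (abs_nonneg _))
        exact mul_le_mul_of_nonneg_left ht1 htw.le

theorem tterm_top_ne (A : ℝ) (hA : A ≠ 0) (h1 : 1 < A) {N n m : ℕ} (hn : 1 ≤ n) {w P : Word}
    (hP : URun n n P) (c κ p κP : ℕ) {C C' : ℝ} (hC : 0 ≤ C) (hC' : 0 ≤ C') {t : ℝ}
    (ht : (tl A hA).ev N P * Q A hA (N * n) (N * n) = t • Q A hA (N * n) (N * n))
    (ht1 : |t| ≤ C' * A ^ (N ^ 2 * p + N * κP))
    (hB : Bd (N * n) (N * n) ((tl A hA).ev (N * n) w * Q A hA (N * n) (N * n))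
      ((C * A ^ ((N * n) ^ 2 * c + N * n * κ)) ^ 2))
    {ε : Fin (N * (n - 1)) → Bool} (hε : ε ≠ fun _ => true) :
    |tterm A hA N n w (P ++ twists .neg n m) (ε, N * n)| ≤
      C * C' * A ^ (mexp N n c κ p κP m - 2) := by
  have hM : N + N * (n - 1) = N * n := by
    obtain ⟨n', rfl⟩ : ∃ n', n = n' + 1 := ⟨n - 1, by omega⟩
    rw [Nat.add_sub_cancel]
    ring
  have hA0 : 0 < A := lt_trans one_pos h1
  have htw := tw_pos hA0 N n m
  have h2 := hB.smul (tw A N n m * t)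
  rw [← Tch_topT A hA h1 N n m w hP ht, ← mul_pow] at h2
  have h3 := entry_le h2 (lab N _ ε) (by rw [length_lab, hM])
  rw [← sq_abs (tw A N n m * t * _)] at h3
  have h4 := abs_le_of_sq_le_sq h3 (abs_nonneg _)
  have h5 : |Tch A hA N n w (P ++ twists .neg n m) (N * n) (cvec (lab N _ ε))
      (pre (lab N _ ε) tt)| ≤
      tw A N n m * (C' * A ^ (N ^ 2 * p + N * κP)) *
        (C * A ^ ((N * n) ^ 2 * c + N * n * κ)) := by
    refine h4.trans ?_
    rw [abs_mul, abs_mul, abs_of_pos htw, abs_of_nonneg (a := C * _) (by positivity)]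
    refine mul_le_mul_of_nonneg_right ?_ (by positivity)
    exact mul_le_mul_of_nonneg_left ht1 htw.le
  have h6 : 2 * sgn (List.ofFn ε) ≤ 2 * ((N * (n - 1) : ℕ) : ℤ) - 2 := by
    have h7 := sgn_le' (List.ofFn ε) (by
      intro h8
      rw [List.length_ofFn, ← List.ofFn_const] at h8
      exact hε (List.ofFn_injective h8))
    rw [List.length_ofFn] at h7
    omega
  unfold tterm
  rw [abs_mul, abs_of_pos (zpow_pos hA0 _)]
  calc A ^ (2 * sgn (List.ofFn ε)) * |Tch A hA N n w (P ++ twists .neg n m) (N * n)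
        (cvec (lab N _ ε)) (pre (lab N _ ε) tt)|
      ≤ A ^ (2 * ((N * (n - 1) : ℕ) : ℤ) - 2) *
        (tw A N n m * (C' * A ^ (N ^ 2 * p + N * κP)) *
        (C * A ^ ((N * n) ^ 2 * c + N * n * κ))) := by
        refine mul_le_mul (zpow_le_zpow_right₀ h1.le h6) h5 (abs_nonneg _)
          (zpow_nonneg hA0.le _)
    _ = C * C' * A ^ (mexp N n c κ p κP m - 2) := by
        have e3 : mexp N n c κ p κP m - 2 = (2 * ((N * (n - 1) : ℕ) : ℤ) - 2) +
            ((N : ℤ) ^ 2) * (-(m * (n * (n - 1)) : ℤ)) +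
            ((N ^ 2 * p + N * κP : ℕ) : ℤ) + (((N * n) ^ 2 * c + N * n * κ : ℕ) : ℤ) := by
          unfold mexp
          push_cast
          ring
        rw [e3, zpow_add₀ hA, zpow_add₀ hA, zpow_add₀ hA, zpow_natCast, zpow_natCast,
          zpow_mul A ((N : ℤ) ^ 2), show (A ^ ((N : ℤ) ^ 2)) = A ^ (N ^ 2) by
            rw [← zpow_natCast]
            push_cast
            rfl]
        unfold tw
        ring

theorem tterm_low (A : ℝ) (hA : A ≠ 0) (h1 : 1 < A) {N n m : ℕ} (hn : 1 ≤ n) {w P : Word}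
    (c κ p κP : ℕ) (hm : m < c) (hN : 2 * m + 3 ≤ N) {C C' : ℝ} (hC : 0 ≤ C) (hC' : 0 ≤ C')
    {j : ℕ} (hj : j ∈ chans (N * n)) (hjM : j ≠ N * n)
    (hB : Bd (N * n) (N * n) ((tl A hA).ev (N * n) w * Q A hA (N * n) j)
      ((C * A ^ (j ^ 2 * c + N * n * κ)) ^ 2))
    (hB' : Bd (N * n) (N * n) ((tl A hA).ev N P)
      ((C' * A ^ (N ^ 2 * p + N * κP + 2 * (N * n))) ^ 2))
    (ε : Fin (N * (n - 1)) → Bool) :
    |tterm A hA N n w (P ++ twists .neg n m) (ε, j)| ≤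
      C * C' * A ^ (mexp N n c κ p κP m - 2) := by
  have hM : N + N * (n - 1) = N * n := by
    obtain ⟨n', rfl⟩ : ∃ n', n = n' + 1 := ⟨n - 1, by omega⟩
    rw [Nat.add_sub_cancel]
    ring
  have hA0 : 0 < A := lt_trans one_pos h1
  have hj2 : j + 2 ≤ N * n := by
    have := mem_chans.1 hj
    omega
  have h2 := bd_TchT A hA h1 N n m hj hB hB'
  have e1 : ((((tl A hA).mu j)⁻¹) ^ m) ^ 2 = ((A ^ ((j ^ 2 + 2 * j) * m))⁻¹) ^ 2 := by
    rw [← sq_abs, abs_pow, abs_inv, abs_mu A hA h1, inv_pow, ← pow_mul]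
  have e2 : ((((tl A hA).mu j)⁻¹) ^ m) ^ 2 * ((C * A ^ (j ^ 2 * c + N * n * κ)) ^ 2 *
        ((((A ^ (N ^ 2 + 2 * N)) ^ 2) ^ n) ^ m *
          (C' * A ^ (N ^ 2 * p + N * κP + 2 * (N * n))) ^ 2)) =
      ((A ^ ((j ^ 2 + 2 * j) * m))⁻¹ * (C * A ^ (j ^ 2 * c + N * n * κ)) *
        A ^ ((N ^ 2 + 2 * N) * n * m) *
          (C' * A ^ (N ^ 2 * p + N * κP + 2 * (N * n)))) ^ 2 := by
    rw [e1]
    have e3 : (((A ^ (N ^ 2 + 2 * N)) ^ 2) ^ n) ^ m = (A ^ ((N ^ 2 + 2 * N) * n * m)) ^ 2 := by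
      rw [← pow_mul, ← pow_mul, ← pow_mul, ← pow_mul]
      congr 1
      ring
    rw [e3]
    ring
  rw [e2] at h2
  have h3 := entry_le h2 (lab N _ ε) (by rw [length_lab, hM])
  have h5 := abs_le_of_sq_le_sq h3 (by positivity)
  have h6 : 2 * sgn (List.ofFn ε) ≤ 2 * ((N * (n - 1) : ℕ) : ℤ) := by
    have h7 := sgn_le (List.ofFn ε)
    rw [List.length_ofFn] at h7
    omega
  have h8 := exp_ineq (κ := κ) (p := p) (κP := κP) hn hm hN hj2
  have e5 : (A ^ ((j ^ 2 + 2 * j) * m))⁻¹ * (C * A ^ (j ^ 2 * c + N * n * κ)) *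
        A ^ ((N ^ 2 + 2 * N) * n * m) *
          (C' * A ^ (N ^ 2 * p + N * κP + 2 * (N * n))) =
      C * C' * A ^ (-(((j ^ 2 + 2 * j) * m : ℕ) : ℤ) + ((j ^ 2 * c + N * n * κ : ℕ) : ℤ) +
      (((N ^ 2 + 2 * N) * n * m : ℕ) : ℤ) +
        ((N ^ 2 * p + N * κP + 2 * (N * n) : ℕ) : ℤ)) := by
    rw [zpow_add₀ hA, zpow_add₀ hA, zpow_add₀ hA, zpow_neg, zpow_natCast, zpow_natCast,
      zpow_natCast, zpow_natCast]
    ring
  rw [e5] at h5
  unfold tterm
  rw [abs_mul, abs_of_pos (zpow_pos hA0 _)]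
  calc A ^ (2 * sgn (List.ofFn ε)) * |Tch A hA N n w (P ++ twists .neg n m) j
        (cvec (lab N _ ε)) (pre (lab N _ ε) tt)|
      ≤ A ^ (2 * ((N * (n - 1) : ℕ) : ℤ)) *
        (C * C' * A ^ (-(((j ^ 2 + 2 * j) * m : ℕ) : ℤ) +
        ((j ^ 2 * c + N * n * κ : ℕ) : ℤ) + (((N ^ 2 + 2 * N) * n * m : ℕ) : ℤ) +
        ((N ^ 2 * p + N * κP + 2 * (N * n) : ℕ) : ℤ))) := by
        refine mul_le_mul (zpow_le_zpow_right₀ h1.le h6) h5 (abs_nonneg _)
          (zpow_nonneg hA0.le _)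
    _ = C * C' * A ^ (2 * ((N * (n - 1) : ℕ) : ℤ) +
        (-(((j ^ 2 + 2 * j) * m : ℕ) : ℤ) + ((j ^ 2 * c + N * n * κ : ℕ) : ℤ) +
      (((N ^ 2 + 2 * N) * n * m : ℕ) : ℤ) +
        ((N ^ 2 * p + N * κP + 2 * (N * n) : ℕ) : ℤ))) := by
        rw [zpow_add₀ hA (2 * ((N * (n - 1) : ℕ) : ℤ))]
        ring
    _ ≤ C * C' * A ^ (mexp N n c κ p κP m - 2) := by
        refine mul_le_mul_of_nonneg_left (zpow_le_zpow_right₀ h1.le ?_) (mul_nonneg hC hC')
        unfold mexp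
        linarith

/-- The lower bound of the evaluation of the satellite. -/
theorem satv_ge {w : Word} {c κ : ℕ} (hD : Dom w c κ) (hw : LongWord w) {n m : ℕ} (hn : 1 ≤ n)
    {P : Word} {p κP : ℕ} (hP : DomT n P p κP) (hPr : URun n n P) (hm : m < c) {N : ℕ}
    (hN : 2 * m + 3 ≤ N) :
    ∃ A₁ : ℝ, 1 < A₁ ∧ ∀ (A : ℝ) (hA : A ≠ 0), A₁ ≤ A →
      (1 / 8) * A ^ (mexp N n c κ p κP m) ≤ |satv A hA N n w (P ++ twists .neg n m)| := by
  obtain ⟨C, A₀, hC, hA₀, hdom⟩ := hD (N * n)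
  obtain ⟨C', A₀', hC', hA₀', hdom'⟩ := hP N
  set s := (Finset.univ : Finset (Fin (N * (n - 1)) → Bool)) ×ˢ chans (N * n) with hs
  have hb : IsBraid n (twists .neg n m) := isBraid_twists _ (Or.inr rfl) n m
  refine ⟨max (max A₀ A₀') (8 * (s.card * (C * C')) + 1),
    lt_of_lt_of_le hA₀ ((le_max_left _ _).trans (le_max_left _ _)), ?_⟩
  intro A hA hAA
  have hAA₀ : A₀ ≤ A := (le_max_left _ _).trans ((le_max_left _ _).trans hAA)
  have hAA₀' : A₀' ≤ A := (le_max_right _ _).trans ((le_max_left _ _).trans hAA)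
  have hAK : 8 * (s.card * (C * C')) + 1 ≤ A := (le_max_right _ _).trans hAA
  have h1 : 1 < A := lt_of_lt_of_le hA₀ hAA₀
  have hA0 : 0 < A := lt_trans one_pos h1
  obtain ⟨hj1, hj2⟩ := hdom A hA hAA₀
  obtain ⟨t, ht, ht1, ht2, hB'⟩ := hdom' A hA hAA₀'
  have hN' : (tl A hA).Nt (N * n) (N * n) ((tl A hA).ev N (P ++ twists .neg n m)) := by
    rw [(tl A hA).ev_append]
    exact (nt_braid (tl A hA) N n hb).mul (nt_uRun (tl A hA) N hPr)
  set β := P ++ twists .neg n m with hβd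
  set E := mexp N n c κ p κP m with hE
  set top : (Fin (N * (n - 1)) → Bool) × ℕ := (fun _ => true, N * n) with htop
  have htop_mem : top ∈ s := by
    rw [hs, Finset.mem_product]
    exact ⟨Finset.mem_univ _, self_mem_chans _⟩
  have hb : ∀ x ∈ s.erase top, |tterm A hA N n w β x| ≤ C * C' * A ^ (E - 2) := by
    intro x hx
    obtain ⟨hx1, hx2⟩ := Finset.mem_erase.1 hx
    rw [hs, Finset.mem_product] at hx2
    obtain ⟨ε, j⟩ := x
    by_cases hjM : j = N * n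
    · subst hjM
      refine tterm_top_ne A hA h1 hn hPr c κ p κP hC hC' ht ht2 (hj2 _ (self_mem_chans _)) ?_
      intro h
      apply hx1
      rw [htop, h]
    · exact tterm_low A hA h1 hn c κ p κP hm hN hC hC' hx2.2 hjM (hj2 _ hx2.2) hB' ε
  have hsum : |∑ x ∈ s.erase top, tterm A hA N n w β x| ≤
      s.card * (C * C' * A ^ (E - 2)) := by
    refine (Finset.abs_sum_le_sum_abs _ _).trans ?_
    refine (Finset.sum_le_card_nsmul _ _ _ hb).trans ?_
    rw [nsmul_eq_mul]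
    refine mul_le_mul_of_nonneg_right ?_
      (mul_nonneg (mul_nonneg hC hC') (zpow_nonneg hA0.le _))
    exact_mod_cast Finset.card_le_card (Finset.erase_subset _ _)
  have hmain := tterm_top A hA h1 hn (m := m) hPr c κ p κP ht ht1 hj1
  have e : |satv A hA N n w β| = |∑ x ∈ s, tterm A hA N n w β x| := by
    rw [satv_eq A hA h1 hn hw hN', abs_mul, abs_pow, abs_neg, abs_one, one_pow, one_mul]
  rw [e, ← Finset.add_sum_erase s _ htop_mem]
  have h3 : |tterm A hA N n w β top| - |∑ x ∈ s.erase top, tterm A hA N n w β x| ≤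
      |tterm A hA N n w β top + ∑ x ∈ s.erase top, tterm A hA N n w β x| := by
    have := abs_sub_abs_le_abs_sub (tterm A hA N n w β top)
      (-∑ x ∈ s.erase top, tterm A hA N n w β x)
    rwa [abs_neg, sub_neg_eq_add] at this
  refine le_trans ?_ h3
  have h4 : A ^ E = A ^ 2 * A ^ (E - 2) := by
    rw [← zpow_natCast A 2, ← zpow_add₀ hA]
    congr 1
    push_cast
    ring
  have h5 : 0 < A ^ (E - 2) := zpow_pos hA0 _
  have h6 : 8 * (s.card * (C * C')) ≤ A ^ 2 := by nlinarith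
  have h7 : 8 * (s.card * (C * C' * A ^ (E - 2))) ≤ A ^ E := by
    rw [h4]
    calc 8 * (s.card * (C * C' * A ^ (E - 2))) = 8 * (s.card * (C * C')) * A ^ (E - 2) := by
          ring
      _ ≤ A ^ 2 * A ^ (E - 2) := mul_le_mul_of_nonneg_right h6 h5.le
  linarith

/-- The exponent inequality. -/
theorem side {w : Word} {c κ : ℕ} (hD : Dom w c κ) (hw : LongWord w) {n m : ℕ} (hn : 1 ≤ n)
    {P : Word} {p κP : ℕ} (hP : DomT n P p κP) (hPr : URun n n P) (hm : m < c) (f : ℤ)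
    (c' h' : ℕ)
    (H : ∀ (A : ℝ) (hA : A ≠ 0), 1 < A → ∀ N : ℕ,
      (((tl A hA).mu N) ^ f * satv A hA N n w (P ++ twists .neg n m)) ^ 2 ≤
        A ^ (2 * (N ^ 2 + 2 * N) * c') * (A ^ 2 + (A⁻¹) ^ 2) ^ (N * h')) :
    f + ((p : ℤ) - m * (n * (n - 1))) + (n : ℤ) ^ 2 * c ≤ c' := by
  by_contra hcon
  rw [not_le] at hcon
  set e : ℤ := (p : ℤ) - m * (n * (n - 1)) with he
  set N : ℕ := 2 * m + 3 + 2 * c' + h' + 2 * f.natAbs + 1 with hN
  obtain ⟨A₁, hA₁, hge⟩ := satv_ge hD hw hn hP hPr hm (N := N) (by omega)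
  set A : ℝ := max A₁ (64 * 2 ^ (N * h') + 1) with hAd
  have hA1 : A₁ ≤ A := le_max_left _ _
  have h1 : 1 < A := lt_of_lt_of_le hA₁ hA1
  have hA0 : 0 < A := lt_trans one_pos h1
  have hA : A ≠ 0 := hA0.ne'
  have h2 := hge A hA hA1
  have h3 := H A hA h1 N
  set X : ℕ := 2 * (N ^ 2 + 2 * N) * c' + 2 * (N * h') with hX
  set Y : ℤ := ((N ^ 2 + 2 * N : ℕ) : ℤ) * f + mexp N n c κ p κP m with hY
  have h4 : (1 / 8) * A ^ Y ≤
      |((tl A hA).mu N) ^ f * satv A hA N n w (P ++ twists .neg n m)| := by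
    rw [abs_mul, abs_zpow, abs_mu A hA h1, hY, zpow_add₀ hA, zpow_mul, zpow_natCast]
    calc (1 / 8) * ((A ^ (N ^ 2 + 2 * N)) ^ f * A ^ mexp N n c κ p κP m)
        = (A ^ (N ^ 2 + 2 * N)) ^ f * ((1 / 8) * A ^ mexp N n c κ p κP m) := by ring
      _ ≤ _ := mul_le_mul_of_nonneg_left h2 (zpow_nonneg (by positivity) _)
  have h5 : ((1 / 8) * A ^ Y) ^ 2 ≤
      (((tl A hA).mu N) ^ f * satv A hA N n w (P ++ twists .neg n m)) ^ 2 := by
    rw [← sq_abs (((tl A hA).mu N) ^ f * _)]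
    exact pow_le_pow_left₀ (mul_nonneg (by norm_num) (zpow_nonneg hA0.le _)) h4 2
  have h6 : (A ^ 2 + (A⁻¹) ^ 2) ^ (N * h') ≤ (2 * A ^ 2) ^ (N * h') := by
    refine pow_le_pow_left₀ (by positivity) ?_ _
    have : A⁻¹ ≤ A := (inv_lt_one_of_one_lt₀ h1).le.trans h1.le
    have h7 : (A⁻¹) ^ 2 ≤ A ^ 2 := pow_le_pow_left₀ (by positivity) this 2
    linarith
  have h7 : ((1 / 8) * A ^ Y) ^ 2 ≤ 2 ^ (N * h') * A ^ (X : ℤ) := by
    refine h5.trans (h3.trans ?_)
    calc A ^ (2 * (N ^ 2 + 2 * N) * c') * (A ^ 2 + (A⁻¹) ^ 2) ^ (N * h')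
        ≤ A ^ (2 * (N ^ 2 + 2 * N) * c') * (2 * A ^ 2) ^ (N * h') :=
          mul_le_mul_of_nonneg_left h6 (by positivity)
      _ = 2 ^ (N * h') * A ^ (X : ℤ) := by
          rw [zpow_natCast, hX, pow_add, mul_pow, ← pow_mul]
          ring
  have h8 : ((1 / 8) * A ^ Y) ^ 2 = (1 / 64) * A ^ (2 * Y) := by
    rw [mul_pow, ← zpow_natCast (A ^ Y) 2, ← zpow_mul]
    rw [show Y * ((2 : ℕ) : ℤ) = 2 * Y by push_cast; ring]
    norm_num
  have h9 : (X : ℤ) + 1 ≤ 2 * Y := by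
    have hf : -(f.natAbs : ℤ) ≤ f := by omega
    have hNz : (N : ℤ) = 2 * m + 3 + 2 * c' + h' + 2 * f.natAbs + 1 := by
      rw [hN]
      push_cast
      ring
    have hk : (0 : ℤ) ≤ ((N * (n - 1) : ℕ) : ℤ) := Int.natCast_nonneg _
    have hκ : (0 : ℤ) ≤ (N : ℤ) * n * κ := by positivity
    have hκ' : (0 : ℤ) ≤ (N : ℤ) * κP := by positivity
    have hm0 : (0 : ℤ) ≤ m := Int.natCast_nonneg m
    have hc0 : (0 : ℤ) ≤ c' := Int.natCast_nonneg c'
    have hh0 : (0 : ℤ) ≤ h' := Int.natCast_nonneg h'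
    have hf0 : (0 : ℤ) ≤ f.natAbs := Int.natCast_nonneg _
    have hY' : 2 * Y - X = 4 * ((N * (n - 1) : ℕ) : ℤ) + 2 * ((N : ℤ) * n * κ) +
        2 * ((N : ℤ) * κP) + 2 * (N : ℤ) ^ 2 * (f + e + (n : ℤ) ^ 2 * c - c' - 1) +
        2 * N * (N + 2 * f - 2 * c' - h') := by
      rw [hY, hX]
      unfold mexp
      push_cast
      rw [he]
      ring
    have hN1 : (1 : ℤ) ≤ N := by omega
    have h10 : (0 : ℤ) ≤ 2 * (N : ℤ) ^ 2 * (f + e + (n : ℤ) ^ 2 * c - c' - 1) := by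
      refine mul_nonneg (by positivity) ?_
      linarith
    have h11 : (1 : ℤ) ≤ N + 2 * f - 2 * c' - h' := by omega
    have h12 : (2 : ℤ) ≤ 2 * N * (N + 2 * f - 2 * c' - h') := by nlinarith
    linarith
  have h10 : A ^ ((X : ℤ) + 1) ≤ A ^ (2 * Y) := zpow_le_zpow_right₀ h1.le h9
  rw [h8] at h7
  rw [zpow_add₀ hA, zpow_one] at h10
  have h11 : 0 < A ^ (X : ℤ) := zpow_pos hA0 _
  have h12 : A ^ (X : ℤ) * A ≤ A ^ (X : ℤ) * (64 * 2 ^ (N * h')) := by
    calc A ^ (X : ℤ) * A ≤ A ^ (2 * Y) := h10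
      _ ≤ 64 * (2 ^ (N * h') * A ^ (X : ℤ)) := by linarith
      _ = _ := by ring
  have h13 := le_of_mul_le_mul_left h12 h11
  have h14 : 64 * 2 ^ (N * h') + 1 ≤ A := le_max_right _ _
  linarith

end Pool.Agent.HTW
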