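import Pool.Agent.HTW.Kinks

/-!
# Satellites with clasps are knots
-/

namespace Pool.Agent.HTW

namespace Wh

/-! ### Inversion of steps -/

/-- Exchange of the labels `i` and `i + 1`. -/
def xsw {α : Type} : ℕ → List α → List α
  | 0, x :: y :: v => y :: x :: v
  | i + 1, z :: v => z :: xsw i v
  | _, _ => []

/-- Insertion of two labels `y` at `i`. -/
def xcup {α : Type} (y : α) : ℕ → List α → List α
  | 0, v => y :: y :: v
  | i + 1, z :: v => z :: xcup y i v
  | _, [] => []

/-- The labels `i` and `i + 1` of the first list are equal, and `ℓ'` is the rest. -/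
def xcap {α : Type} : ℕ → List α → List α → Prop
  | 0, x :: y :: v, ℓ' => x = y ∧ ℓ' = v
  | i + 1, z :: v, ℓ' => ∃ ℓ'', ℓ' = z :: ℓ'' ∧ xcap i v ℓ''
  | _, _, _ => False

theorem step_pos_inv {α : Type} {i : ℕ} {ℓ ℓ' : List α} (h : Step (Kind.pos, i) ℓ ℓ') :
    ℓ' = xsw i ℓ := by
  cases h with
  | pos u v x y =>
    induction u with
    | nil => rfl
    | cons z u ih =>
      show z :: (u ++ y :: x :: v) = z :: xsw u.length (u ++ x :: y :: v)
      rw [← ih]

theorem step_neg_inv {α : Type} {i : ℕ} {ℓ ℓ' : List α} (h : Step (Kind.neg, i) ℓ ℓ') :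
    ℓ' = xsw i ℓ := by
  cases h with
  | neg u v x y =>
    induction u with
    | nil => rfl
    | cons z u ih =>
      show z :: (u ++ y :: x :: v) = z :: xsw u.length (u ++ x :: y :: v)
      rw [← ih]

theorem step_cross_inv {α : Type} {k : Kind} {i : ℕ} {ℓ ℓ' : List α}
    (hk : k = Kind.pos ∨ k = Kind.neg) (h : Step (k, i) ℓ ℓ') : ℓ' = xsw i ℓ := by
  rcases hk with rfl | rfl
  · exact step_pos_inv h
  · exact step_neg_inv h

theorem step_cup_inv {α : Type} {i : ℕ} {ℓ ℓ' : List α} (h : Step (Kind.cup, i) ℓ ℓ') :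
    ∃ y, ℓ' = xcup y i ℓ := by
  cases h with
  | cup u v y =>
    refine ⟨y, ?_⟩
    induction u with
    | nil => rfl
    | cons z u ih =>
      show z :: (u ++ y :: y :: v) = z :: xcup y u.length (u ++ v)
      rw [← ih]

theorem step_cap_inv {α : Type} {i : ℕ} {ℓ ℓ' : List α} (h : Step (Kind.cap, i) ℓ ℓ') :
    xcap i ℓ ℓ' := by
  cases h with
  | cap u v y =>
    induction u with
    | nil => exact ⟨rfl, rfl⟩
    | cons z u ih => exact ⟨u ++ v, rfl, ih⟩

theorem xsw_append {α : Type} (A B : List α) (i : ℕ) :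
    xsw (A.length + i) (A ++ B) = A ++ xsw i B := by
  induction A with
  | nil => simp
  | cons z A ih =>
    have e : (z :: A).length + i = (A.length + i) + 1 := by simp; omega
    rw [e]
    show z :: xsw (A.length + i) (A ++ B) = z :: (A ++ xsw i B)
    rw [ih]

theorem xcup_append {α : Type} (y : α) (A B : List α) (i : ℕ) :
    xcup y (A.length + i) (A ++ B) = A ++ xcup y i B := by
  induction A with
  | nil => simp
  | cons z A ih =>
    have e : (z :: A).length + i = (A.length + i) + 1 := by simp; omega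
    rw [e]
    show z :: xcup y (A.length + i) (A ++ B) = z :: (A ++ xcup y i B)
    rw [ih]

theorem xcap_append {α : Type} (A B : List α) (i : ℕ) (ℓ' : List α)
    (h : xcap (A.length + i) (A ++ B) ℓ') : ∃ B', ℓ' = A ++ B' ∧ xcap i B B' := by
  induction A generalizing ℓ' with
  | nil => exact ⟨ℓ', rfl, by simpa using h⟩
  | cons z A ih =>
    have e : (z :: A).length + i = (A.length + i) + 1 := by simp; omega
    rw [e] at h
    obtain ⟨ℓ'', h1, h2⟩ := h
    obtain ⟨B', h3, h4⟩ := ih ℓ'' h2
    exact ⟨B', by rw [h1, h3]; rfl, h4⟩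

theorem run_cons_inv {α : Type} {x : Letter} {w : Word} {K : List (List α)} {ℓ : List α}
    (h : Run (x :: w) K) (h0 : K.head? = some ℓ) :
    ∃ K', K = ℓ :: K' ∧ Run w K' ∧ ∃ ℓ', K'.head? = some ℓ' ∧ Step x ℓ ℓ' := by
  cases h with
  | cons hs hr =>
    simp only [List.head?_cons, Option.some.injEq] at h0
    subst h0
    exact ⟨_, rfl, hr, _, rfl, hs⟩

theorem run_nil_inv {α : Type} {K : List (List α)} {ℓ : List α}
    (h : Run [] K) (h0 : K.head? = some ℓ) : K = [ℓ] := by
  cases h with
  | nil ℓ₁ =>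
    simp only [List.head?_cons, Option.some.injEq] at h0
    rw [h0]

/-! ### Clasp-like tangles -/

/-- The lower ends are joined, the upper ends are joined, and there are no closed
components. -/
def ClaspLike (T : Word) : Prop :=
  Len T 2 2 ∧ ∀ (α : Type) (K : List (List α)) (a b : α), Run T K → K.head? = some [a, b] →
    a = b ∧ ∃ c, K.getLast? = some [c, c] ∧ ∀ ℓ ∈ K, ∀ y ∈ ℓ, y = a ∨ y = c

theorem ClaspLike.snoc {T : Word} (h : ClaspLike T) {k : Kind}
    (hk : k = Kind.pos ∨ k = Kind.neg) : ClaspLike (T ++ [(k, 0)]) := by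
  obtain ⟨h1, h2⟩ := h
  have lapp : ∀ {u v : Word} {x y z : ℕ}, Len u x y → Len v y z → Len (u ++ v) x z := by
    intro u v x y z hu hv
    induction hu with
    | nil a => exact hv
    | cup h _ ih => exact Len.cup h (ih hv)
    | cap h _ ih => exact Len.cap h (ih hv)
    | pos h _ ih => exact Len.pos h (ih hv)
    | neg h _ ih => exact Len.neg h (ih hv)
  refine ⟨?_, ?_⟩
  · refine lapp h1 ?_
    rcases hk with rfl | rfl
    · exact Len.pos (le_refl 0) (Len.nil 2)
    · exact Len.neg (le_refl 0) (Len.nil 2)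
  · intro α K a b hK h0
    obtain ⟨M₁, ℓ, M₂, e1, _, r1, r2⟩ := run_append hK
    have h3 : (M₁ ++ [ℓ]).head? = some [a, b] := by
      rw [← h0, e1]
      cases M₁ <;> rfl
    obtain ⟨hab, c, hc, hall⟩ := h2 α _ a b r1 h3
    have hℓ : ℓ = [c, c] := by simpa using hc
    obtain ⟨K', e2, r3, ℓ', h4, hs⟩ := run_cons_inv r2 rfl
    have h5 := step_cross_inv hk hs
    rw [hℓ] at h5
    have h6 : ℓ' = [c, c] := h5
    have h7 := run_nil_inv r3 h4
    have e3 : M₂ = [[c, c]] := by
      have := List.cons.inj e2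
      rw [this.2, h7, h6]
    refine ⟨hab, c, ?_, ?_⟩
    · rw [e1, e3, List.getLast?_append]
      rfl
    · intro ℓ₁ hℓ₁ y hy
      rw [e1, e3] at hℓ₁
      rcases List.mem_append.1 hℓ₁ with h8 | h8
      · exact hall ℓ₁ (List.mem_append_left _ h8) y hy
      · rcases List.mem_cons.1 h8 with h9 | h9
        · exact hall ℓ₁ (by rw [h9]; simp) y hy
        · rw [List.mem_singleton] at h9
          rw [h9] at hy
          right
          simpa using hy

theorem ClaspLike.append {T : Word} (h : ClaspLike T) {ρ : Word}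
    (hρ : ∀ x ∈ ρ, (x.1 = Kind.pos ∨ x.1 = Kind.neg) ∧ x.2 = 0) : ClaspLike (T ++ ρ) := by
  induction ρ generalizing T with
  | nil => rwa [List.append_nil]
  | cons x ρ ih =>
    obtain ⟨k, i⟩ := x
    have h1 := hρ (k, i) List.mem_cons_self
    simp only at h1
    obtain ⟨h2, rfl⟩ := h1
    have h3 := ih (h.snoc h2) (fun y hy => hρ y (List.mem_cons_of_mem _ hy))
    rw [List.append_assoc] at h3
    exact h3

theorem claspLike_clasp {c : Kind} (hc : c = Kind.pos ∨ c = Kind.neg) :
    ClaspLike (clasp c) := by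
  refine ⟨?_, ?_⟩
  · unfold clasp
    rcases hc with rfl | rfl
    · exact Len.cup (by omega) (Len.pos (by omega) (Len.pos (by omega)
        (Len.cap (by omega) (Len.nil 2))))
    · exact Len.cup (by omega) (Len.neg (by omega) (Len.neg (by omega)
        (Len.cap (by omega) (Len.nil 2))))
  · intro α K a b hK h0
    obtain ⟨K₁, rfl, r1, ℓ₁, g1, s1⟩ := run_cons_inv hK h0
    obtain ⟨y, hy⟩ := step_cup_inv s1
    obtain ⟨K₂, rfl, r2, ℓ₂, g2, s2⟩ := run_cons_inv r1 g1
    have h2 := step_cross_inv hc s2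
    obtain ⟨K₃, rfl, r3, ℓ₃, g3, s3⟩ := run_cons_inv r2 g2
    have h3 := step_cross_inv hc s3
    obtain ⟨K₄, rfl, r4, ℓ₄, g4, s4⟩ := run_cons_inv r3 g3
    have h4 := step_cap_inv s4
    have h5 := run_nil_inv r4 g4
    subst h5
    have e1 : ℓ₁ = [a, y, y, b] := hy
    rw [e1] at h2
    have e2 : ℓ₂ = [y, a, y, b] := h2
    rw [e2] at h3
    have e3 : ℓ₃ = [y, a, b, y] := h3
    rw [e3] at h4
    obtain ⟨m, hm, h6, h7⟩ := h4
    have e4 : ℓ₄ = [y, y] := by rw [hm, h7]
    refine ⟨h6, y, ?_, ?_⟩
    · rw [e4]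
      rfl
    · intro ℓ hℓ z hz
      simp only [List.mem_cons, List.not_mem_nil, or_false] at hℓ
      rcases hℓ with rfl | rfl | rfl | rfl | rfl
      · simp at hz
        rcases hz with rfl | rfl
        · exact Or.inl rfl
        · exact Or.inl h6.symm
      · rw [e1] at hz
        simp at hz
        rcases hz with rfl | rfl | rfl
        · exact Or.inl rfl
        · exact Or.inr rfl
        · exact Or.inl h6.symm
      · rw [e2] at hz
        simp at hz
        rcases hz with rfl | rfl | rfl | rfl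
        · exact Or.inr rfl
        · exact Or.inl rfl
        · exact Or.inr rfl
        · exact Or.inl h6.symm
      · rw [e3] at hz
        simp at hz
        rcases hz with rfl | rfl | rfl | rfl
        · exact Or.inr rfl
        · exact Or.inl rfl
        · exact Or.inl h6.symm
        · exact Or.inr rfl
      · rw [e4] at hz
        simp at hz
        exact Or.inr hz

theorem claspLike_six :
    ClaspLike [(Kind.cup, 1), (Kind.pos, 1), (Kind.pos, 2), (Kind.neg, 1), (Kind.cap, 0)] := by
  refine ⟨?_, ?_⟩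
  · exact Len.cup (by omega) (Len.pos (by omega) (Len.pos (by omega) (Len.neg (by omega)
        (Len.cap (by omega) (Len.nil 2)))))
  · intro α K a b hK h0
    obtain ⟨K₁, rfl, r1, ℓ₁, g1, s1⟩ := run_cons_inv hK h0
    obtain ⟨y, hy⟩ := step_cup_inv s1
    obtain ⟨K₂, rfl, r2, ℓ₂, g2, s2⟩ := run_cons_inv r1 g1
    have h2 := step_pos_inv s2
    obtain ⟨K₃, rfl, r3, ℓ₃, g3, s3⟩ := run_cons_inv r2 g2
    have h3 := step_pos_inv s3
    obtain ⟨K₄, rfl, r4, ℓ₄, g4, s4⟩ := run_cons_inv r3 g3
    have h4 := step_neg_inv s4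
    obtain ⟨K₅, rfl, r5, ℓ₅, g5, s5⟩ := run_cons_inv r4 g4
    have h5 := step_cap_inv s5
    have h5' := run_nil_inv r5 g5
    subst h5'
    have e1 : ℓ₁ = [a, y, y, b] := hy
    rw [e1] at h2
    have e2 : ℓ₂ = [a, y, y, b] := h2
    rw [e2] at h3
    have e3 : ℓ₃ = [a, y, b, y] := h3
    rw [e3] at h4
    have e4 : ℓ₄ = [a, b, y, y] := h4
    rw [e4] at h5
    obtain ⟨h6, h7⟩ := h5
    refine ⟨h6, y, ?_, ?_⟩
    · rw [h7]
      rfl
    · intro ℓ hℓ z hz
      simp only [List.mem_cons, List.not_mem_nil, or_false] at hℓ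
      rcases hℓ with rfl | rfl | rfl | rfl | rfl | rfl
      · simp at hz
        rcases hz with rfl | rfl
        · exact Or.inl rfl
        · exact Or.inl h6.symm
      · rw [e1] at hz
        simp at hz
        rcases hz with rfl | rfl | rfl
        · exact Or.inl rfl
        · exact Or.inr rfl
        · exact Or.inl h6.symm
      · rw [e2] at hz
        simp at hz
        rcases hz with rfl | rfl | rfl
        · exact Or.inl rfl
        · exact Or.inr rfl
        · exact Or.inl h6.symm
      · rw [e3] at hz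
        simp at hz
        rcases hz with rfl | rfl | rfl | rfl
        · exact Or.inl rfl
        · exact Or.inr rfl
        · exact Or.inl h6.symm
        · exact Or.inr rfl
      · rw [e4] at hz
        simp at hz
        rcases hz with rfl | rfl | rfl
        · exact Or.inl rfl
        · exact Or.inl h6.symm
        · exact Or.inr rfl
      · rw [h7] at hz
        simp at hz
        exact Or.inr hz

theorem claspLike_seven :
    ClaspLike [(Kind.cup, 1), (Kind.pos, 2), (Kind.neg, 1), (Kind.cap, 0)] := by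
  refine ⟨?_, ?_⟩
  · exact Len.cup (by omega) (Len.pos (by omega) (Len.neg (by omega)
        (Len.cap (by omega) (Len.nil 2))))
  · intro α K a b hK h0
    obtain ⟨K₁, rfl, r1, ℓ₁, g1, s1⟩ := run_cons_inv hK h0
    obtain ⟨y, hy⟩ := step_cup_inv s1
    obtain ⟨K₂, rfl, r2, ℓ₂, g2, s2⟩ := run_cons_inv r1 g1
    have h2 := step_pos_inv s2
    obtain ⟨K₃, rfl, r3, ℓ₃, g3, s3⟩ := run_cons_inv r2 g2
    have h3 := step_neg_inv s3
    obtain ⟨K₄, rfl, r4, ℓ₄, g4, s4⟩ := run_cons_inv r3 g3
    have h4 := step_cap_inv s4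
    have h5 := run_nil_inv r4 g4
    subst h5
    have e1 : ℓ₁ = [a, y, y, b] := hy
    rw [e1] at h2
    have e2 : ℓ₂ = [a, y, b, y] := h2
    rw [e2] at h3
    have e3 : ℓ₃ = [a, b, y, y] := h3
    rw [e3] at h4
    obtain ⟨h6, h7⟩ := h4
    refine ⟨h6, y, ?_, ?_⟩
    · rw [h7]
      rfl
    · intro ℓ hℓ z hz
      simp only [List.mem_cons, List.not_mem_nil, or_false] at hℓ
      rcases hℓ with rfl | rfl | rfl | rfl | rfl
      · simp at hz
        rcases hz with rfl | rfl
        · exact Or.inl rfl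
        · exact Or.inl h6.symm
      · rw [e1] at hz
        simp at hz
        rcases hz with rfl | rfl | rfl
        · exact Or.inl rfl
        · exact Or.inr rfl
        · exact Or.inl h6.symm
      · rw [e2] at hz
        simp at hz
        rcases hz with rfl | rfl | rfl | rfl
        · exact Or.inl rfl
        · exact Or.inr rfl
        · exact Or.inl h6.symm
        · exact Or.inr rfl
      · rw [e3] at hz
        simp at hz
        rcases hz with rfl | rfl | rfl
        · exact Or.inl rfl
        · exact Or.inl h6.symm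
        · exact Or.inr rfl
      · rw [h7] at hz
        simp at hz
        exact Or.inr hz

end Wh

end Pool.Agent.HTW
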