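import Pool.Agent.HTW.WhA

/-!
# Satellites with clasps are knots, second part
-/

namespace Pool.Agent.HTW

namespace Wh

theorem step_unext {α : Type} {x : Letter} {A v ℓ' : List α} (h : Step x (A ++ v) ℓ')
    (hA : x.2 + x.1.inn ≤ A.length) : ∃ A', ℓ' = A' ++ v ∧ Step x A A' := by
  generalize hL : A ++ v = L at h
  cases h with
  | cup u w y =>
    simp only [Kind.inn, Nat.add_zero] at hA
    rcases List.append_eq_append_iff.1 hL with ⟨a, h1, h2⟩ | ⟨a, h1, h2⟩
    · -- u = A ++ a
      have : a = [] := by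
        rw [h1, List.length_append] at hA
        exact List.eq_nil_of_length_eq_zero (by omega)
      subst this
      rw [List.append_nil] at h1
      subst h1
      rw [List.nil_append] at h2
      subst h2
      refine ⟨u ++ y :: y :: [], by simp, ?_⟩
      have := Step.cup u [] y
      rwa [List.append_nil] at this
    · subst h1
      subst h2
      exact ⟨u ++ y :: y :: a, by simp, Step.cup u a y⟩
  | cap u w y =>
    simp only [Kind.inn] at hA
    rcases List.append_eq_append_iff.1 hL with ⟨a, h1, h2⟩ | ⟨a, h1, h2⟩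
    · rw [h1, List.length_append] at hA
      omega
    · subst h1
      rw [List.length_append] at hA
      match a, hA, h2 with
      | [], hA, _ => simp at hA
      | [_], hA, _ => simp at hA
      | a₁ :: a₂ :: a, _, h2 =>
        simp only [List.cons_append, List.cons.injEq] at h2
        obtain ⟨rfl, rfl, rfl⟩ := h2
        exact ⟨u ++ a, by simp, Step.cap u a _⟩
  | pos u w y z =>
    simp only [Kind.inn] at hA
    rcases List.append_eq_append_iff.1 hL with ⟨a, h1, h2⟩ | ⟨a, h1, h2⟩
    · rw [h1, List.length_append] at hA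
      omega
    · subst h1
      rw [List.length_append] at hA
      match a, hA, h2 with
      | [], hA, _ => simp at hA
      | [_], hA, _ => simp at hA
      | a₁ :: a₂ :: a, _, h2 =>
        simp only [List.cons_append, List.cons.injEq] at h2
        obtain ⟨rfl, rfl, rfl⟩ := h2
        exact ⟨u ++ z :: y :: a, by simp, Step.pos u a _ _⟩
  | neg u w y z =>
    simp only [Kind.inn] at hA
    rcases List.append_eq_append_iff.1 hL with ⟨a, h1, h2⟩ | ⟨a, h1, h2⟩
    · rw [h1, List.length_append] at hA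
      omega
    · subst h1
      rw [List.length_append] at hA
      match a, hA, h2 with
      | [], hA, _ => simp at hA
      | [_], hA, _ => simp at hA
      | a₁ :: a₂ :: a, _, h2 =>
        simp only [List.cons_append, List.cons.injEq] at h2
        obtain ⟨rfl, rfl, rfl⟩ := h2
        exact ⟨u ++ z :: y :: a, by simp, Step.neg u a _ _⟩

theorem run_unext {α : Type} {w : Word} {a b : ℕ} (hw : Len w a b) {K : List (List α)}
    {A v : List α} (h : Run w K) (h0 : K.head? = some (A ++ v)) (hA : A.length = a) :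
    ∃ K', K = K'.map (fun ℓ => ℓ ++ v) ∧ Run w K' ∧ K'.head? = some A := by
  induction hw generalizing K A with
  | nil a =>
    have h1 := run_nil_inv h h0
    exact ⟨[A], by simpa using h1, Run.nil A, rfl⟩
  | cup hi _ ih =>
    obtain ⟨K₁, rfl, r1, ℓ₁, g1, s1⟩ := run_cons_inv h h0
    obtain ⟨A', rfl, s2⟩ := step_unext s1 (by simp [Kind.inn]; omega)
    obtain ⟨K', h1, h2, h3⟩ := ih r1 g1 (by
      have := step_length s2
      simp [Kind.inn, Kind.out] at this
      omega)
    refine ⟨A :: K', by rw [h1]; rfl, ?_, rfl⟩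
    cases K' with
    | nil => simp at h3
    | cons z K' =>
      simp only [List.head?_cons, Option.some.injEq] at h3
      subst h3
      exact Run.cons s2 h2
  | cap hi _ ih =>
    obtain ⟨K₁, rfl, r1, ℓ₁, g1, s1⟩ := run_cons_inv h h0
    obtain ⟨A', rfl, s2⟩ := step_unext s1 (by simp [Kind.inn]; omega)
    obtain ⟨K', h1, h2, h3⟩ := ih r1 g1 (by
      have := step_length s2
      simp [Kind.inn, Kind.out] at this
      omega)
    refine ⟨A :: K', by rw [h1]; rfl, ?_, rfl⟩
    cases K' with
    | nil => simp at h3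
    | cons z K' =>
      simp only [List.head?_cons, Option.some.injEq] at h3
      subst h3
      exact Run.cons s2 h2
  | pos hi _ ih =>
    obtain ⟨K₁, rfl, r1, ℓ₁, g1, s1⟩ := run_cons_inv h h0
    obtain ⟨A', rfl, s2⟩ := step_unext s1 (by simp [Kind.inn]; omega)
    obtain ⟨K', h1, h2, h3⟩ := ih r1 g1 (by
      have := step_length s2
      simp [Kind.inn, Kind.out] at this
      omega)
    refine ⟨A :: K', by rw [h1]; rfl, ?_, rfl⟩
    cases K' with
    | nil => simp at h3
    | cons z K' =>
      simp only [List.head?_cons, Option.some.injEq] at h3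
      subst h3
      exact Run.cons s2 h2
  | neg hi _ ih =>
    obtain ⟨K₁, rfl, r1, ℓ₁, g1, s1⟩ := run_cons_inv h h0
    obtain ⟨A', rfl, s2⟩ := step_unext s1 (by simp [Kind.inn]; omega)
    obtain ⟨K', h1, h2, h3⟩ := ih r1 g1 (by
      have := step_length s2
      simp [Kind.inn, Kind.out] at this
      omega)
    refine ⟨A :: K', by rw [h1]; rfl, ?_, rfl⟩
    cases K' with
    | nil => simp at h3
    | cons z K' =>
      simp only [List.head?_cons, Option.some.injEq] at h3
      subst h3
      exact Run.cons s2 h2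

/-! ### The 2-cable of a knot -/

/-- The list of labels of the cable given by the pairs. -/
def fl {α : Type} (ps : List (α × α)) : List α := ps.flatMap (fun p => [p.1, p.2])

theorem fl_append {α : Type} (p q : List (α × α)) : fl (p ++ q) = fl p ++ fl q := by
  unfold fl
  exact List.flatMap_append ..

theorem fl_cons {α : Type} (p : α × α) (q : List (α × α)) : fl (p :: q) = p.1 :: p.2 :: fl q := by
  rfl

theorem fl_length {α : Type} (p : List (α × α)) : (fl p).length = 2 * p.length := by
  induction p with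
  | nil => rfl
  | cons x p ih =>
    rw [fl_cons, List.length_cons, List.length_cons, ih, List.length_cons]
    ring

/-- The unordered pairs. -/
def sp {α : Type} (p : α × α) : Sym2 α := s(p.1, p.2)

theorem mem_fl {α : Type} {x₀ : α} {ps : List (α × α)}
    (h : ∀ z ∈ ps.map sp, z = s(x₀, x₀)) : ∀ y ∈ fl ps, y = x₀ := by
  intro y hy
  unfold fl at hy
  rw [List.mem_flatMap] at hy
  obtain ⟨p, hp, hy⟩ := hy
  have h1 := h (sp p) (List.mem_map_of_mem hp)
  unfold sp at h1
  rw [Sym2.eq_iff] at h1
  simp at hy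
  rcases h1 with ⟨h2, h3⟩ | ⟨h2, h3⟩ <;> rcases hy with rfl | rfl <;> assumption

/-- One letter: the labels of the cable of the letter. -/
theorem cable_letter {α : Type} {x : Letter} {ps : List (α × α)} {a b : ℕ}
    (hx : Len [x] a b) (hps : ps.length = a) {K : List (List α)}
    (h : Run (cableLetter 2 x) K) (h0 : K.head? = some (fl ps)) :
    ∃ ps' : List (α × α), K.getLast? = some (fl ps') ∧ Step x (ps.map sp) (ps'.map sp) ∧
      ∀ x₀, (∀ z ∈ ps.map sp, z = s(x₀, x₀)) → (∀ z ∈ ps'.map sp, z = s(x₀, x₀)) →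
        ∀ ℓ ∈ K, ∀ y ∈ ℓ, y = x₀ := by
  obtain ⟨k, i⟩ := x
  have hi : i + k.inn ≤ a := by
    cases hx <;> simp [Kind.inn] <;> omega
  obtain ⟨A, B, rfl, hA⟩ : ∃ A B, ps = A ++ B ∧ A.length = i :=
    ⟨ps.take i, ps.drop i, (List.take_append_drop i ps).symm, by
      rw [List.length_take]
      omega⟩
  have hfA : (fl A).length = 2 * i := by rw [fl_length, hA]
  rw [fl_append] at h0
  have key : ∀ (x₀ : α) (C : List (α × α)), (∀ z ∈ (A ++ C).map sp, z = s(x₀, x₀)) →
      (∀ y ∈ fl A, y = x₀) ∧ (∀ y ∈ fl C, y = x₀) := by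
    intro x₀ C h
    constructor
    · exact mem_fl (fun z hz => h z (by rw [List.map_append]; exact List.mem_append_left _ hz))
    · exact mem_fl (fun z hz => h z (by rw [List.map_append]; exact List.mem_append_right _ hz))
  cases k with
  | cup =>
    have hw : cableLetter 2 (Kind.cup, i) = [(Kind.cup, 2 * i + 0), (Kind.cup, 2 * i + 1)] := rfl
    rw [hw] at h
    obtain ⟨K₁, rfl, r1, ℓ₁, g1, s1⟩ := run_cons_inv h h0
    obtain ⟨y, hy⟩ := step_cup_inv s1
    rw [← hfA, xcup_append] at hy
    have e1 : ℓ₁ = fl A ++ (y :: y :: fl B) := hy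
    obtain ⟨K₂, rfl, r2, ℓ₂, g2, s2⟩ := run_cons_inv r1 g1
    obtain ⟨z, hz⟩ := step_cup_inv s2
    rw [← hfA, e1, xcup_append] at hz
    have e2 : ℓ₂ = fl A ++ (y :: z :: z :: y :: fl B) := hz
    have e3 := run_nil_inv r2 g2
    subst e3
    refine ⟨A ++ ((y, z) :: (z, y) :: B), ?_, ?_, ?_⟩
    · rw [fl_append, fl_cons, fl_cons, e2]
      rfl
    · rw [List.map_append, List.map_append, List.map_cons, List.map_cons]
      have e4 : sp (z, y) = sp (y, z) := Sym2.eq_swap
      rw [e4, ← hA, ← List.length_map (as := A) sp]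
      exact Step.cup _ _ _
    · intro x₀ h1 h2 ℓ hℓ t ht
      obtain ⟨k1, k2⟩ := key x₀ _ h1
      obtain ⟨_, k3⟩ := key x₀ _ h2
      have hy0 : y = x₀ := k3 y (by simp [fl])
      have hz0 : z = x₀ := k3 z (by simp [fl])
      subst hy0
      simp only [List.mem_cons, List.not_mem_nil, or_false] at hℓ
      rcases hℓ with rfl | rfl | rfl
      · rcases List.mem_append.1 ht with h | h
        · exact k1 t h
        · exact k2 t h
      · rw [e1] at ht
        rcases List.mem_append.1 ht with h | h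
        · exact k1 t h
        · simp only [List.mem_cons] at h
          rcases h with h | h | h
          · exact h
          · exact h
          · exact k2 t h
      · rw [e2] at ht
        rcases List.mem_append.1 ht with h | h
        · exact k1 t h
        · simp only [List.mem_cons] at h
          rcases h with h | h | h | h | h
          · exact h
          · exact h.trans hz0
          · exact h.trans hz0
          · exact h
          · exact k2 t h
  | cap =>
    have hB : 2 ≤ B.length := by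
      rw [List.length_append] at hps
      simp only [Kind.inn] at hi
      omega
    obtain ⟨p, q, B', rfl⟩ : ∃ p q B', B = p :: q :: B' := by
      match B, hB with
      | p :: q :: B', _ => exact ⟨p, q, B', rfl⟩
    have hw : cableLetter 2 (Kind.cap, i) = [(Kind.cap, 2 * i + 1), (Kind.cap, 2 * i + 0)] := rfl
    rw [hw] at h
    rw [fl_cons, fl_cons] at h0
    obtain ⟨K₁, rfl, r1, ℓ₁, g1, s1⟩ := run_cons_inv h h0
    have h1 := step_cap_inv s1
    rw [← hfA] at h1
    obtain ⟨B₁, e1, ℓ'', e1', c1, c2⟩ := xcap_append _ _ _ _ h1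
    obtain ⟨K₂, rfl, r2, ℓ₂, g2, s2⟩ := run_cons_inv r1 g1
    have h2 := step_cap_inv s2
    rw [e1, ← hfA, e1', c2] at h2
    obtain ⟨B₂, e2, c3, c4⟩ := xcap_append _ _ _ _ h2
    have e3 := run_nil_inv r2 g2
    subst e3
    refine ⟨A ++ B', ?_, ?_, ?_⟩
    · rw [fl_append, e2, c4]
      rfl
    · rw [List.map_append, List.map_append, List.map_cons, List.map_cons]
      have e4 : sp q = sp p := by
        unfold sp
        rw [c1, ← c3]
        exact Sym2.eq_swap
      rw [e4, ← hA, ← List.length_map (as := A) sp]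
      exact Step.cap _ _ _
    · intro x₀ h1 h2 ℓ hℓ t ht
      obtain ⟨k1, k2⟩ := key x₀ _ h1
      rw [fl_cons, fl_cons] at k2
      have k4 : ∀ y ∈ fl B', y = x₀ := fun y hy => k2 y (by simp [hy])
      simp only [List.mem_cons, List.not_mem_nil, or_false] at hℓ
      rcases hℓ with rfl | rfl | rfl
      · rcases List.mem_append.1 ht with h | h
        · exact k1 t h
        · exact k2 t h
      · rw [e1, e1', c2] at ht
        rcases List.mem_append.1 ht with h | h
        · exact k1 t h
        · simp only [List.mem_cons] at h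
          rcases h with h | h | h
          · exact k2 t (by simp [h])
          · exact k2 t (by simp [h])
          · exact k4 t h
      · rw [e2, c4] at ht
        rcases List.mem_append.1 ht with h | h
        · exact k1 t h
        · exact k4 t h
  | pos =>
    have hB : 2 ≤ B.length := by
      rw [List.length_append] at hps
      simp only [Kind.inn] at hi
      omega
    obtain ⟨p, q, B', rfl⟩ : ∃ p q B', B = p :: q :: B' := by
      match B, hB with
      | p :: q :: B', _ => exact ⟨p, q, B', rfl⟩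
    have hw : cableLetter 2 (Kind.pos, i) = [(Kind.pos, 0 + 1 + 2 * i), (Kind.pos, 1 + 1 + 2 * i),
      (Kind.pos, 0 + 2 * i), (Kind.pos, 1 + 2 * i)] := rfl
    rw [hw, show 0 + 1 + 2 * i = 2 * i + 1 by ring, show 1 + 1 + 2 * i = 2 * i + 2 by ring,
      show 0 + 2 * i = 2 * i + 0 by ring] at h
    rw [fl_cons, fl_cons] at h0
    obtain ⟨K₁, rfl, r1, ℓ₁, g1, s1⟩ := run_cons_inv h h0
    have h1 := step_pos_inv s1
    rw [← hfA, xsw_append] at h1
    have e1 : ℓ₁ = fl A ++ (p.1 :: q.1 :: p.2 :: q.2 :: fl B') := h1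
    obtain ⟨K₂, rfl, r2, ℓ₂, g2, s2⟩ := run_cons_inv r1 g1
    have h2 := step_pos_inv s2
    rw [← hfA, e1, xsw_append] at h2
    have e2 : ℓ₂ = fl A ++ (p.1 :: q.1 :: q.2 :: p.2 :: fl B') := h2
    obtain ⟨K₃, rfl, r3, ℓ₃, g3, s3⟩ := run_cons_inv r2 g2
    have h3 := step_pos_inv s3
    rw [← hfA, e2, xsw_append] at h3
    have e3 : ℓ₃ = fl A ++ (q.1 :: p.1 :: q.2 :: p.2 :: fl B') := h3
    obtain ⟨K₄, rfl, r4, ℓ₄, g4, s4⟩ := run_cons_inv r3 g3
    have h4 := step_pos_inv s4
    rw [← hfA, e3, xsw_append] at h4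
    have e4 : ℓ₄ = fl A ++ (q.1 :: q.2 :: p.1 :: p.2 :: fl B') := h4
    have e5 := run_nil_inv r4 g4
    subst e5
    refine ⟨A ++ (q :: p :: B'), ?_, ?_, ?_⟩
    · rw [fl_append, fl_cons, fl_cons, e4]
      rfl
    · rw [List.map_append, List.map_append, List.map_cons, List.map_cons, List.map_cons,
        List.map_cons, ← hA, ← List.length_map (as := A) sp]
      exact Step.pos _ _ _ _
    · intro x₀ h1 h2 ℓ hℓ t ht
      obtain ⟨k1, k2⟩ := key x₀ _ h1
      rw [fl_cons, fl_cons] at k2
      have hp : ∀ ℓ' : List α, (∀ s ∈ ℓ', s ∈ p.1 :: p.2 :: q.1 :: q.2 :: fl B') →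
          t ∈ fl A ++ ℓ' → t = x₀ := by
        intro ℓ' hs h
        rcases List.mem_append.1 h with h | h
        · exact k1 t h
        · exact k2 t (hs t h)
      simp only [List.mem_cons, List.not_mem_nil, or_false] at hℓ
      rcases hℓ with rfl | rfl | rfl | rfl | rfl
      · exact hp _ (fun s hs => hs) ht
      · rw [e1] at ht
        exact hp _ (fun s hs => by simp only [List.mem_cons] at hs ⊢; tauto) ht
      · rw [e2] at ht
        exact hp _ (fun s hs => by simp only [List.mem_cons] at hs ⊢; tauto) ht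
      · rw [e3] at ht
        exact hp _ (fun s hs => by simp only [List.mem_cons] at hs ⊢; tauto) ht
      · rw [e4] at ht
        exact hp _ (fun s hs => by simp only [List.mem_cons] at hs ⊢; tauto) ht
  | neg =>
    have hB : 2 ≤ B.length := by
      rw [List.length_append] at hps
      simp only [Kind.inn] at hi
      omega
    obtain ⟨p, q, B', rfl⟩ : ∃ p q B', B = p :: q :: B' := by
      match B, hB with
      | p :: q :: B', _ => exact ⟨p, q, B', rfl⟩
    have hw : cableLetter 2 (Kind.neg, i) = [(Kind.neg, 0 + 1 + 2 * i), (Kind.neg, 1 + 1 + 2 * i),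
      (Kind.neg, 0 + 2 * i), (Kind.neg, 1 + 2 * i)] := rfl
    rw [hw, show 0 + 1 + 2 * i = 2 * i + 1 by ring, show 1 + 1 + 2 * i = 2 * i + 2 by ring,
      show 0 + 2 * i = 2 * i + 0 by ring] at h
    rw [fl_cons, fl_cons] at h0
    obtain ⟨K₁, rfl, r1, ℓ₁, g1, s1⟩ := run_cons_inv h h0
    have h1 := step_neg_inv s1
    rw [← hfA, xsw_append] at h1
    have e1 : ℓ₁ = fl A ++ (p.1 :: q.1 :: p.2 :: q.2 :: fl B') := h1
    obtain ⟨K₂, rfl, r2, ℓ₂, g2, s2⟩ := run_cons_inv r1 g1
    have h2 := step_neg_inv s2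
    rw [← hfA, e1, xsw_append] at h2
    have e2 : ℓ₂ = fl A ++ (p.1 :: q.1 :: q.2 :: p.2 :: fl B') := h2
    obtain ⟨K₃, rfl, r3, ℓ₃, g3, s3⟩ := run_cons_inv r2 g2
    have h3 := step_neg_inv s3
    rw [← hfA, e2, xsw_append] at h3
    have e3 : ℓ₃ = fl A ++ (q.1 :: p.1 :: q.2 :: p.2 :: fl B') := h3
    obtain ⟨K₄, rfl, r4, ℓ₄, g4, s4⟩ := run_cons_inv r3 g3
    have h4 := step_neg_inv s4
    rw [← hfA, e3, xsw_append] at h4
    have e4 : ℓ₄ = fl A ++ (q.1 :: q.2 :: p.1 :: p.2 :: fl B') := h4
    have e5 := run_nil_inv r4 g4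
    subst e5
    refine ⟨A ++ (q :: p :: B'), ?_, ?_, ?_⟩
    · rw [fl_append, fl_cons, fl_cons, e4]
      rfl
    · rw [List.map_append, List.map_append, List.map_cons, List.map_cons, List.map_cons,
        List.map_cons, ← hA, ← List.length_map (as := A) sp]
      exact Step.neg _ _ _ _
    · intro x₀ h1 h2 ℓ hℓ t ht
      obtain ⟨k1, k2⟩ := key x₀ _ h1
      rw [fl_cons, fl_cons] at k2
      have hp : ∀ ℓ' : List α, (∀ s ∈ ℓ', s ∈ p.1 :: p.2 :: q.1 :: q.2 :: fl B') →
          t ∈ fl A ++ ℓ' → t = x₀ := by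
        intro ℓ' hs h
        rcases List.mem_append.1 h with h | h
        · exact k1 t h
        · exact k2 t (hs t h)
      simp only [List.mem_cons, List.not_mem_nil, or_false] at hℓ
      rcases hℓ with rfl | rfl | rfl | rfl | rfl
      · exact hp _ (fun s hs => hs) ht
      · rw [e1] at ht
        exact hp _ (fun s hs => by simp only [List.mem_cons] at hs ⊢; tauto) ht
      · rw [e2] at ht
        exact hp _ (fun s hs => by simp only [List.mem_cons] at hs ⊢; tauto) ht
      · rw [e3] at ht
        exact hp _ (fun s hs => by simp only [List.mem_cons] at hs ⊢; tauto) ht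
      · rw [e4] at ht
        exact hp _ (fun s hs => by simp only [List.mem_cons] at hs ⊢; tauto) ht

/-- The labels of the 2-cable. -/
theorem cable_run {α : Type} {w : Word} {a b : ℕ} (hw : Len w a b) {ps : List (α × α)}
    (hps : ps.length = a) {K : List (List α)} (h : Run (cable 2 w) K)
    (h0 : K.head? = some (fl ps)) :
    ∃ M : List (List (Sym2 α)), Run w (ps.map sp :: M) ∧
      ∀ x₀, (∀ S ∈ ps.map sp :: M, ∀ z ∈ S, z = s(x₀, x₀)) → ∀ ℓ ∈ K, ∀ y ∈ ℓ, y = x₀ := by
  induction w generalizing a ps K with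
  | nil =>
    have h1 := run_nil_inv h h0
    subst h1
    refine ⟨[], Run.nil _, fun x₀ h2 ℓ hℓ y hy => ?_⟩
    rw [List.mem_singleton] at hℓ
    subst hℓ
    exact mem_fl (h2 _ List.mem_cons_self) y hy
  | cons x w ih =>
    have hc : cable 2 (x :: w) = cableLetter 2 x ++ cable 2 w := rfl
    rw [hc] at h
    obtain ⟨a', hx, hw'⟩ : ∃ a', Len [x] a a' ∧ Len w a' b := by
      cases hw with
      | cup h1 h2 => exact ⟨_, Len.cup h1 (Len.nil _), h2⟩
      | cap h1 h2 => exact ⟨_, Len.cap h1 (Len.nil _), h2⟩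
      | pos h1 h2 => exact ⟨_, Len.pos h1 (Len.nil _), h2⟩
      | neg h1 h2 => exact ⟨_, Len.neg h1 (Len.nil _), h2⟩
    obtain ⟨M₁, ℓ, M₂, e1, _, r1, r2⟩ := run_append h
    have h3 : (M₁ ++ [ℓ]).head? = some (fl ps) := by
      rw [← h0, e1]
      cases M₁ <;> rfl
    obtain ⟨ps', h4, h5, h6⟩ := cable_letter hx hps r1 h3
    have h7 : ℓ = fl ps' := by simpa using h4
    have h8 : ps'.length = a' := by
      have h9 := step_length h5
      rw [List.length_map, List.length_map] at h9
      cases hx with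
      | cup _ h => cases h; simp [Kind.inn, Kind.out] at h9; omega
      | cap _ h => cases h; simp [Kind.inn, Kind.out] at h9; omega
      | pos _ h => cases h; simp [Kind.inn, Kind.out] at h9; omega
      | neg _ h => cases h; simp [Kind.inn, Kind.out] at h9; omega
    obtain ⟨M, m1, m2⟩ := ih hw' h8 r2 (by rw [List.head?_cons, h7])
    refine ⟨ps'.map sp :: M, Run.cons h5 m1, fun x₀ h10 ℓ' hℓ' y hy => ?_⟩
    have h11 := h6 x₀ (h10 _ List.mem_cons_self)
      (h10 _ (List.mem_cons_of_mem _ List.mem_cons_self))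
    have h12 := m2 x₀ (fun S hS => h10 S (List.mem_cons_of_mem _ hS))
    rw [e1] at hℓ'
    rcases List.mem_append.1 hℓ' with h13 | h13
    · exact h11 ℓ' (List.mem_append_left _ h13) y hy
    · exact h12 ℓ' h13 y hy

theorem cable_const {D : Word} (hD : IsKnot D) {α : Type} {c : α} {K : List (List α)}
    (h : Run (cable 2 D) K) (h0 : K.head? = some [c, c]) : ∀ ℓ ∈ K, ∀ y ∈ ℓ, y = c := by
  obtain ⟨M, h1, h2⟩ := cable_run hD.1.len (ps := [(c, c)]) rfl h h0
  refine h2 c ?_
  exact hD.2 (Sym2 α) s(c, c) M h1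

theorem len_ext {w : Word} {a b : ℕ} (h : Len w a b) (k : ℕ) : Len w (a + k) (b + k) := by
  induction h with
  | nil a => exact Len.nil _
  | @cup w i a b hi _ ih =>
    rw [show a + 2 + k = a + k + 2 by omega] at ih
    exact Len.cup (by omega) ih
  | @cap w i a b hi _ ih =>
    rw [show a + 2 + k = a + k + 2 by omega]
    exact Len.cap (by omega) ih
  | @pos w i a b hi _ ih =>
    rw [show a + 2 + k = a + k + 2 by omega] at ih ⊢
    exact Len.pos (by omega) ih
  | @neg w i a b hi _ ih =>
    rw [show a + 2 + k = a + k + 2 by omega] at ih ⊢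
    exact Len.neg (by omega) ih

theorem len_app {u v : Word} {x y z : ℕ} (hu : Len u x y) (hv : Len v y z) :
    Len (u ++ v) x z := by
  induction hu with
  | nil a => exact hv
  | cup h _ ih => exact Len.cup h (ih hv)
  | cap h _ ih => exact Len.cap h (ih hv)
  | pos h _ ih => exact Len.pos h (ih hv)
  | neg h _ ih => exact Len.neg h (ih hv)

theorem isKnot_sat {D T : Word} (hD : IsKnot D) (hT : ClaspLike T) : IsKnot (sat D 2 T) := by
  have e : sat D 2 T = (Kind.cup, 1) :: (T ++ (cable 2 D ++ [(Kind.cap, 1)])) := by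
    unfold sat
    simp
  have hcl : Len (cable 2 D) 2 2 := NHS.len_of_uRun (uRun_cable 2 hD.1)
  rw [e]
  refine ⟨?_, ?_⟩
  · refine long_of_uRun (NHS.uRun_of_len ?_)
    refine Len.cup (le_refl 1) ?_
    exact len_app (len_ext hT.1 1) (len_app (len_ext hcl 1) (Len.cap (le_refl 1) (Len.nil 1)))
  · intro α x L hL
    obtain ⟨K₁, e1, r1, ℓ₁, g1, s1⟩ := run_cons_inv hL rfl
    obtain ⟨y, hy⟩ := step_cup_inv s1
    have hy' : ℓ₁ = [x, y] ++ [y] := hy
    obtain ⟨M₁, ℓ₂, M₂, e2, _, r2, r3⟩ := run_append r1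
    obtain ⟨M₃, ℓ₃, M₄, e3, _, r4, r5⟩ := run_append r3
    -- the tangle
    have h1 : (M₁ ++ [ℓ₂]).head? = some ([x, y] ++ [y]) := by
      rw [← hy', ← g1, e2]
      cases M₁ <;> rfl
    obtain ⟨KT, t1, t2, t3⟩ := run_unext hT.1 r2 h1 rfl
    obtain ⟨hxy, c, hc, hall⟩ := hT.2 α KT x y t2 t3
    subst hxy
    have h2 : ℓ₂ = [c, c] ++ [x] := by
      have h3 := congrArg List.getLast? t1
      rw [List.getLast?_map, hc] at h3
      simpa using h3
    -- the cable
    have h4 : (M₃ ++ [ℓ₃]).head? = some ([c, c] ++ [x]) := by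
      have h5 : (ℓ₂ :: M₂).head? = some ([c, c] ++ [x]) := by rw [List.head?_cons, h2]
      rw [← h5, e3]
      cases M₃ <;> rfl
    obtain ⟨KC, c1, c2, c3⟩ := run_unext hcl r4 h4 rfl
    have h6 := cable_const hD c2 c3
    have h7 : ∃ q₁ q₂, ℓ₃ = [q₁, q₂] ++ [x] ∧ q₁ = c ∧ q₂ = c := by
      have h8 := congrArg List.getLast? c1
      rw [List.getLast?_map] at h8
      cases hq : KC.getLast? with
      | none =>
        rw [hq] at h8
        simp at h8
      | some q =>
        rw [hq] at h8
        have h9 : ℓ₃ = q ++ [x] := by simpa using h8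
        have h10 : q.length = 2 := by
          have := c2.len c3 hq
          exact (len_unique this hcl)
        obtain ⟨q₁, q₂, rfl⟩ := List.length_eq_two.1 h10
        have hmem : [q₁, q₂] ∈ KC := List.mem_of_getLast? hq
        exact ⟨q₁, q₂, h9, h6 _ hmem _ (by simp), h6 _ hmem _ (by simp)⟩
    obtain ⟨q₁, q₂, h8, rfl, rfl⟩ := h7
    obtain ⟨K₅, e5, r6, ℓ₅, g5, s5⟩ := run_cons_inv r5 rfl
    have h9 := step_cap_inv s5
    rw [h8] at h9
    obtain ⟨ℓ'', h10, h11, h12⟩ := h9
    have h13 := run_nil_inv r6 g5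
    subst h11
    -- everything is constant
    have hA : ∀ ℓ ∈ M₁ ++ [ℓ₂], ∀ z ∈ ℓ, z = q₂ := by
      intro ℓ hℓ z hz
      rw [t1, List.mem_map] at hℓ
      obtain ⟨ℓ', hℓ', rfl⟩ := hℓ
      rcases List.mem_append.1 hz with h | h
      · rcases hall ℓ' hℓ' z h with h | h <;> exact h
      · simpa using h
    have hB : ∀ ℓ ∈ M₃ ++ [ℓ₃], ∀ z ∈ ℓ, z = q₂ := by
      intro ℓ hℓ z hz
      rw [c1, List.mem_map] at hℓ
      obtain ⟨ℓ', hℓ', rfl⟩ := hℓ
      rcases List.mem_append.1 hz with h | h
      · exact h6 ℓ' hℓ' z h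
      · simpa using h
    intro ℓ hℓ z hz
    rw [e1] at hℓ
    rcases List.mem_cons.1 hℓ with h | h
    · rw [h] at hz
      simpa using hz
    · rw [e2] at h
      rcases List.mem_append.1 h with h | h
      · exact hA ℓ (List.mem_append_left _ h) z hz
      · rcases List.mem_cons.1 h with h | h
        · rw [h] at hz
          exact hA ℓ₂ (List.mem_append_right _ (by simp)) z hz
        · have h' : ℓ ∈ ℓ₂ :: M₂ := List.mem_cons_of_mem _ h
          rw [e3] at h'
          rcases List.mem_append.1 h' with h | h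
          · exact hB ℓ (List.mem_append_left _ h) z hz
          · rcases List.mem_cons.1 h with h | h
            · rw [h] at hz
              exact hB ℓ₃ (List.mem_append_right _ (by simp)) z hz
            · have h14 : M₄ = K₅ := by
                have := List.cons.inj e5
                exact this.2
              rw [h14, h13, List.mem_singleton] at h
              rw [h, h10, h12] at hz
              simpa using hz

end Wh

end Pool.Agent.HTW
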