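import Pool.Agent.HTW.WhB

/-!
# Clasps with full twists
-/

namespace Pool.Agent.HTW

namespace Wh

/-! ### The isotopy -/

/-- Words of crossings of two strands. -/
def Tw (ρ : Word) : Prop := ∀ x ∈ ρ, (x.1 = Kind.pos ∨ x.1 = Kind.neg) ∧ x.2 = 0

theorem Tw.len {ρ : Word} (h : Tw ρ) : Len ρ 2 2 := by
  induction ρ with
  | nil => exact Len.nil 2
  | cons x ρ ih =>
    obtain ⟨k, i⟩ := x
    have h1 := h (k, i) List.mem_cons_self
    simp only at h1
    obtain ⟨h2, rfl⟩ := h1
    have h3 := ih (fun y hy => h y (List.mem_cons_of_mem _ hy))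
    rcases h2 with rfl | rfl
    · exact Len.pos (le_refl 0) h3
    · exact Len.neg (le_refl 0) h3

theorem tstep {w w' : Word} (a b l r : Word) (h : Len w 2 2) (h' : Len w' 2 2)
    (hm : FMove l r) (e : w = a ++ l ++ b) (e' : w' = a ++ r ++ b) : TStep 2 w w' :=
  ⟨NHS.uRun_of_len h, NHS.uRun_of_len h', a, b, l, r, hm, e, e'⟩

/-- The negative clasp followed by a positive crossing is isotopic to the positive clasp, with
one kink. -/
theorem clasp_iso {D : Word} (hD : IsKnot D) {ρ : Word} (hρ : Tw ρ) :
    PIso D 2 1 (clasp .neg ++ (Kind.pos, 0) :: ρ) (clasp .pos ++ ρ) := by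
  have hl := hρ.len
  let W0 : Word := (Kind.cup, 1) :: (Kind.neg, 0) :: (Kind.neg, 2) :: (Kind.cap, 1) ::
    (Kind.pos, 0) :: ρ
  let W1 : Word := (Kind.cup, 1) :: (Kind.neg, 2) :: (Kind.neg, 0) :: (Kind.cap, 1) ::
    (Kind.pos, 0) :: ρ
  let W2 : Word := (Kind.cup, 1) :: (Kind.neg, 2) :: (Kind.pos, 1) :: (Kind.cap, 0) ::
    (Kind.pos, 0) :: ρ
  let W3 : Word := (Kind.cup, 1) :: (Kind.neg, 2) :: (Kind.pos, 1) :: (Kind.pos, 2) ::
    (Kind.cap, 0) :: ρ
  let W4 : Word := (Kind.cup, 1) :: (Kind.neg, 2) :: (Kind.pos, 1) :: (Kind.pos, 2) ::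
    (Kind.pos, 1) :: (Kind.neg, 1) :: (Kind.cap, 0) :: ρ
  let W5 : Word := (Kind.cup, 1) :: (Kind.neg, 2) :: (Kind.pos, 2) :: (Kind.pos, 1) ::
    (Kind.pos, 2) :: (Kind.neg, 1) :: (Kind.cap, 0) :: ρ
  let W6 : Word := (Kind.cup, 1) :: (Kind.pos, 1) ::
    (Kind.pos, 2) :: (Kind.neg, 1) :: (Kind.cap, 0) :: ρ
  let W7 : Word := (Kind.cup, 1) :: (Kind.pos, 2) :: (Kind.neg, 1) :: (Kind.cap, 0) :: ρ
  let W8 : Word := (Kind.cup, 1) :: (Kind.pos, 2) :: (Kind.pos, 0) :: (Kind.cap, 1) :: ρ
  let W9 : Word := (Kind.cup, 1) :: (Kind.pos, 0) :: (Kind.pos, 2) :: (Kind.cap, 1) :: ρ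
  have l0 : Len W0 2 2 := Len.cup (by omega) (Len.neg (by omega) (Len.neg (by omega)
    (Len.cap (by omega) (Len.pos (by omega) hl))))
  have l1 : Len W1 2 2 := Len.cup (by omega) (Len.neg (by omega) (Len.neg (by omega)
    (Len.cap (by omega) (Len.pos (by omega) hl))))
  have l2 : Len W2 2 2 := Len.cup (by omega) (Len.neg (by omega) (Len.pos (by omega)
    (Len.cap (by omega) (Len.pos (by omega) hl))))
  have l3 : Len W3 2 2 := Len.cup (by omega) (Len.neg (by omega) (Len.pos (by omega)
    (Len.pos (by omega) (Len.cap (by omega) hl))))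
  have l4 : Len W4 2 2 := Len.cup (by omega) (Len.neg (by omega) (Len.pos (by omega)
    (Len.pos (by omega) (Len.pos (by omega) (Len.neg (by omega) (Len.cap (by omega) hl))))))
  have l5 : Len W5 2 2 := Len.cup (by omega) (Len.neg (by omega) (Len.pos (by omega)
    (Len.pos (by omega) (Len.pos (by omega) (Len.neg (by omega) (Len.cap (by omega) hl))))))
  have l6 : Len W6 2 2 := Len.cup (by omega) (Len.pos (by omega)
    (Len.pos (by omega) (Len.neg (by omega) (Len.cap (by omega) hl))))
  have l7 : Len W7 2 2 := Len.cup (by omega)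
    (Len.pos (by omega) (Len.neg (by omega) (Len.cap (by omega) hl)))
  have l8 : Len W8 2 2 := Len.cup (by omega)
    (Len.pos (by omega) (Len.pos (by omega) (Len.cap (by omega) hl)))
  have l9 : Len W9 2 2 := Len.cup (by omega)
    (Len.pos (by omega) (Len.pos (by omega) (Len.cap (by omega) hl)))
  have s1 : TStep 2 W0 W1 := tstep [(Kind.cup, 1)] ((Kind.cap, 1) :: (Kind.pos, 0) :: ρ)
    _ _ l0 l1 (FMove.far .neg .neg 0 0) rfl rfl
  have s2 : TStep 2 W1 W2 := tstep [(Kind.cup, 1), (Kind.neg, 2)] ((Kind.pos, 0) :: ρ)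
    _ _ l1 l2 (FMove.capNeg 0) rfl rfl
  have s3 : TStep 2 W2 W3 := tstep [(Kind.cup, 1), (Kind.neg, 2), (Kind.pos, 1)] ρ
    _ _ l2 l3 (FMove.far .cap .pos 0 0) rfl rfl
  have s4 : TStep 2 W4 W3 := tstep [(Kind.cup, 1), (Kind.neg, 2), (Kind.pos, 1), (Kind.pos, 2)]
    ((Kind.cap, 0) :: ρ) _ _ l4 l3 (FMove.r2a 1) rfl rfl
  have s5 : TStep 2 W4 W5 := tstep [(Kind.cup, 1), (Kind.neg, 2)]
    ((Kind.neg, 1) :: (Kind.cap, 0) :: ρ) _ _ l4 l5 (FMove.r3 1) rfl rfl
  have s6 : TStep 2 W5 W6 := tstep [(Kind.cup, 1)]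
    ((Kind.pos, 1) :: (Kind.pos, 2) :: (Kind.neg, 1) :: (Kind.cap, 0) :: ρ)
    _ _ l5 l6 (FMove.r2b 2) rfl rfl
  have k6 : IsKnot (sat D 2 W6) := isKnot_sat hD (claspLike_six.append hρ)
  have k7 : IsKnot (sat D 2 W7) := isKnot_sat hD (claspLike_seven.append hρ)
  have s7 : KStep D 2 1 W6 W7 := ⟨NHS.uRun_of_len l6, NHS.uRun_of_len l7, k6, k7, [],
    (Kind.pos, 2) :: (Kind.neg, 1) :: (Kind.cap, 0) :: ρ, _, _, KMove.cupPos 1, rfl, rfl⟩
  have s8 : TStep 2 W8 W7 := tstep [(Kind.cup, 1), (Kind.pos, 2)] ρ
    _ _ l8 l7 (FMove.capPos 0) rfl rfl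
  have s9 : TStep 2 W9 W8 := tstep [(Kind.cup, 1)] ((Kind.cap, 1) :: ρ)
    _ _ l9 l8 (FMove.far .pos .pos 0 0) rfl rfl
  have p3 : PIso D 2 0 W0 W3 := by
    have := ((PIso.reg (D := D) s1).trans (PIso.reg s2)).trans (PIso.reg s3)
    simpa using this
  have p6 : PIso D 2 0 W3 W6 := by
    have := ((PIso.reg (D := D) s4).symm.trans (PIso.reg s5)).trans (PIso.reg s6)
    simpa using this
  have p9 : PIso D 2 0 W7 W9 := by
    have := ((PIso.reg (D := D) s8).symm.trans (PIso.reg s9).symm)
    simpa using this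
  have h := ((p3.trans p6).trans (PIso.kink s7)).trans p9
  have e : (0 + 0 + 1 + 0 : ℤ) = 1 := by norm_num
  rw [e] at h
  exact h

/-- Cancellation of two crossings. -/
theorem cancel {D T ρ : Word} (hT : Len T 2 2) (hρ : Tw ρ) :
    PIso D 2 0 (T ++ (Kind.pos, 0) :: (Kind.neg, 0) :: ρ) (T ++ ρ) ∧
      PIso D 2 0 (T ++ (Kind.neg, 0) :: (Kind.pos, 0) :: ρ) (T ++ ρ) := by
  constructor
  · refine PIso.reg (tstep T ρ _ _ ?_ (len_app hT hρ.len) (FMove.r2a 0) (by simp) (by simp))
    exact len_app hT (Len.pos (le_refl 0) (Len.neg (le_refl 0) hρ.len))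
  · refine PIso.reg (tstep T ρ _ _ ?_ (len_app hT hρ.len) (FMove.r2b 0) (by simp) (by simp))
    exact len_app hT (Len.neg (le_refl 0) (Len.pos (le_refl 0) hρ.len))

/-! ### Adequacy -/

theorem aRun_rep {α : Type} (j : ℕ) (p q : α) :
    ARun (List.replicate j (Kind.pos, 0)) [p, q] [p, q] := by
  induction j with
  | zero => exact ARun.nil _
  | succ j ih =>
    rw [List.replicate_succ]
    exact ARun.cons (AStep.pos [] [] p q) ih

theorem adequate_clasp (j : ℕ) :
    AAdequate 2 (clasp .pos ++ List.replicate j (Kind.pos, 0)) := by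
  have base : ∀ {α : Type} (p q y : α), ARun (clasp .pos) [p, q] [p, q] := by
    intro α p q y
    exact ARun.cons (AStep.cup [p] [q] y) (ARun.cons (AStep.pos [] [y, q] p y)
      (ARun.cons (AStep.pos [p, y] [] y q) (ARun.cons (AStep.cap [p] [q] y) (ARun.nil _))))
  have app : ∀ {α : Type} {u v : Word} {ℓ ℓ' ℓ'' : List α}, ARun u ℓ ℓ' → ARun v ℓ' ℓ'' →
      ARun (u ++ v) ℓ ℓ'' := by
    intro α u v ℓ ℓ' ℓ'' h h'
    induction h with
    | nil ℓ => exact h'
    | cons hs _ ih => exact ARun.cons hs (ih h')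
  refine ⟨app (base 0 1 0) (aRun_rep j 0 1), ?_⟩
  intro a b x h hx
  have hR := @aRun_rep Bool
  -- the crossings of the clasp
  rcases a with _ | ⟨x₀, a⟩
  · simp [clasp] at h
    obtain ⟨rfl, _⟩ := h
    simp at hx
  simp only [clasp, List.cons_append, List.nil_append, List.cons.injEq] at h
  obtain ⟨rfl, h⟩ := h
  rcases a with _ | ⟨x₁, a⟩
  · simp only [List.nil_append, List.cons.injEq] at h
    obtain ⟨rfl, rfl⟩ := h
    refine ⟨[false, false], [false, true, true, false], [false, true, true, false], rfl, ?_, ?_,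
      ?_, by simp⟩
    · exact ARun.cons (AStep.cup [false] [false] true) (ARun.nil _)
    · exact AStep.pos [] [true, false] false true
    · exact ARun.cons (AStep.pos [false, true] [] true false)
        (ARun.cons (AStep.cap [false] [false] true) (hR j false false))
  simp only [List.cons_append, List.cons.injEq] at h
  obtain ⟨rfl, h⟩ := h
  rcases a with _ | ⟨x₂, a⟩
  · simp only [List.nil_append, List.cons.injEq] at h
    obtain ⟨rfl, rfl⟩ := h
    refine ⟨[false, false], [false, true, true, false], [false, true, true, false], rfl, ?_, ?_,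
      ?_, by simp⟩
    · exact ARun.cons (AStep.cup [false] [false] true)
        (ARun.cons (AStep.pos [] [true, false] false true) (ARun.nil _))
    · exact AStep.pos [false, true] [] true false
    · exact ARun.cons (AStep.cap [false] [false] true) (hR j false false)
  simp only [List.cons_append, List.cons.injEq] at h
  obtain ⟨rfl, h⟩ := h
  rcases a with _ | ⟨x₃, a⟩
  · simp only [List.nil_append, List.cons.injEq] at h
    obtain ⟨rfl, _⟩ := h
    simp at hx
  simp only [List.cons_append, List.cons.injEq] at h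
  obtain ⟨rfl, h⟩ := h
  -- the other crossings
  have hmem : ∀ z ∈ a ++ x :: b, z = (Kind.pos, 0) := by
    intro z hz
    rw [← h] at hz
    exact List.eq_of_mem_replicate hz
  have hx0 : x = (Kind.pos, 0) := hmem x (by simp)
  subst hx0
  have ha : a = List.replicate a.length (Kind.pos, 0) :=
    List.eq_replicate_of_mem (fun z hz => hmem z (List.mem_append_left _ hz))
  have hb : b = List.replicate b.length (Kind.pos, 0) :=
    List.eq_replicate_of_mem (fun z hz => hmem z (by simp [hz]))
  refine ⟨[false, true], [false, true], [false, true], rfl, ?_, ?_, ?_, by simp⟩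
  · have h1 := app (base false true false) (hR a.length false true)
    rw [← ha] at h1
    exact h1
  · exact AStep.pos [] [] false true
  · rw [hb]
    exact hR _ _ _

/-! ### Twists -/

theorem twists_two (k : Kind) (m : ℕ) : twists k 2 m = List.replicate (2 * m) (k, 0) := by
  induction m with
  | zero => rfl
  | succ m ih =>
    have h : twists k 2 (m + 1) = twistWord k 2 ++ twists k 2 m := by
      simp [twists, List.replicate_succ]
    have h2 : twistWord k 2 = [(k, 0), (k, 0)] := rfl
    rw [h, h2, ih, show 2 * (m + 1) = 2 * m + 1 + 1 by ring, List.replicate_succ,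
      List.replicate_succ]
    rfl

theorem tw_rep {k : Kind} (hk : k = Kind.pos ∨ k = Kind.neg) (j : ℕ) :
    Tw (List.replicate j (k, 0)) := by
  intro x hx
  rw [List.eq_of_mem_replicate hx]
  exact ⟨hk, rfl⟩

theorem crossings_clasp (j : ℕ) :
    crossings (clasp .pos ++ List.replicate j (Kind.pos, 0)) = 2 + j := by
  unfold crossings
  rw [List.countP_append, List.countP_replicate]
  simp [clasp]

theorem mirror_clasp (j : ℕ) :
    mirror (clasp .pos ++ List.replicate j (Kind.pos, 0)) =
      clasp .neg ++ List.replicate j (Kind.neg, 0) := by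
  unfold mirror
  rw [List.map_append, List.map_replicate]
  rfl

/-- The crossing numbers of Whitehead doubles. -/
theorem whitehead {D : Word} (hD : IsKnot D) (hDA : AAdequate 1 D)
    (hDB : AAdequate 1 (mirror D)) {c s : Kind} (hc : c = Kind.pos ∨ c = Kind.neg)
    (hs : s = Kind.pos ∨ s = Kind.neg) {m : ℕ} (hm : m + 1 < crossings D) :
    4 * crossingNumber D + 1 ≤ crossingNumber (sat D 2 (clasp c ++ twists s 2 m)) := by
  have hK : IsKnot (sat D 2 (clasp c ++ twists s 2 m)) := by
    rw [twists_two]
    exact isKnot_sat hD ((claspLike_clasp hc).append (tw_rep hs _))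
  have hlc : ∀ {c : Kind}, (c = Kind.pos ∨ c = Kind.neg) → Len (clasp c) 2 2 :=
    fun h => (claspLike_clasp h).1
  -- the data
  suffices h : ∃ (p q k l : ℕ) (f g : ℤ),
      PIso D 2 f (clasp c ++ twists s 2 m)
        ((clasp .pos ++ List.replicate p (Kind.pos, 0)) ++ twists .neg 2 k) ∧
      PIso D 2 g (clasp c ++ twists s 2 m)
        (mirror (clasp .pos ++ List.replicate q (Kind.pos, 0)) ++ twists .pos 2 l) ∧
      k < crossings D ∧ l < crossings D ∧
      (2 + p + (2 + q) : ℤ) - (k + l) * 2 + (g - f) = 2 by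
    obtain ⟨p, q, k, l, f, g, h1, h2, h3, h4, h5⟩ := h
    obtain ⟨_, h6⟩ := main_kink hD hDA hDB (by norm_num) h1 h2 (adequate_clasp p)
      (adequate_clasp q) h3 h4 hK
    rw [crossings_clasp, crossings_clasp] at h6
    push_cast at h6
    have h7 : (2 : ℤ) * (4 * crossingNumber D) + 2 ≤
        2 * crossingNumber (sat D 2 (clasp c ++ twists s 2 m)) := by
      rw [h5] at h6
      exact h6
    omega
  rcases hc with rfl | rfl
  · rcases hs with rfl | rfl
    · -- positive clasp, positive twists
      refine ⟨2 * m, 1, 0, m + 1, 0, -1, ?_, ?_, by omega, hm, by push_cast; ring⟩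
      · rw [twists_two]
        have : twists .neg 2 0 = [] := rfl
        rw [this, List.append_nil]
        exact PIso.refl _
      · rw [mirror_clasp, twists_two, twists_two]
        have h1 := (clasp_iso hD (tw_rep (Or.inl rfl) (2 * m))).symm
        have h2 := (cancel (D := D) (T := clasp .neg) (ρ := List.replicate (2 * m + 1)
          (Kind.pos, 0)) (hlc (Or.inr rfl)) (tw_rep (Or.inl rfl) _)).2.symm
        have h3 := h1.trans h2
        have e : (clasp Kind.neg ++ (Kind.neg, 0) :: (Kind.pos, 0) ::
            List.replicate (2 * m + 1) (Kind.pos, 0)) =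
            clasp Kind.neg ++ List.replicate 1 (Kind.neg, 0) ++
              List.replicate (2 * (m + 1)) (Kind.pos, 0) := by
          rw [show 2 * (m + 1) = 2 * m + 1 + 1 by ring, List.replicate_succ (n := 2 * m + 1),
            List.append_assoc]
          rfl
        rw [e] at h3
        simpa using h3
    · -- positive clasp, negative twists
      rcases Nat.eq_zero_or_pos m with rfl | hm0
      · refine ⟨0, 1, 0, 1, 0, -1, ?_, ?_, by omega, hm, by norm_num⟩
        · exact PIso.refl _
        · rw [mirror_clasp, twists_two, twists_two]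
          have h1 := (clasp_iso hD (tw_rep (Or.inl rfl) 0)).symm
          have h2 := (cancel (D := D) (T := clasp .neg) (ρ := List.replicate 1
            (Kind.pos, 0)) (hlc (Or.inr rfl)) (tw_rep (Or.inl rfl) _)).2.symm
          exact h1.trans h2
      · refine ⟨0, 2 * m - 1, m, 0, 0, -1, ?_, ?_, by omega, by omega, ?_⟩
        · rw [List.replicate_zero, List.append_nil]
          exact PIso.refl _
        · rw [mirror_clasp, twists_two]
          have h1 := (clasp_iso hD (tw_rep (Or.inr rfl) (2 * m))).symm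
          have h2 := (cancel (D := D) (T := clasp .neg) (ρ := List.replicate (2 * m - 1)
            (Kind.neg, 0)) (hlc (Or.inr rfl)) (tw_rep (Or.inr rfl) _)).1
          have e : (clasp Kind.neg ++ (Kind.pos, 0) :: (Kind.neg, 0) ::
              List.replicate (2 * m - 1) (Kind.neg, 0)) =
              clasp Kind.neg ++ (Kind.pos, 0) :: List.replicate (2 * m) (Kind.neg, 0) := by
            rw [show 2 * m = 2 * m - 1 + 1 by omega, List.replicate_succ (n := 2 * m - 1)]
            rfl
          rw [e] at h2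
          have h3 := h1.trans h2
          have : twists .pos 2 0 = [] := rfl
          rw [this, List.append_nil]
          simpa using h3
        · push_cast [Nat.cast_sub (show 1 ≤ 2 * m by omega)]
          ring
  · rcases hs with rfl | rfl
    · -- negative clasp, positive twists
      rcases Nat.eq_zero_or_pos m with rfl | hm0
      · refine ⟨1, 0, 1, 0, 1, 0, ?_, ?_, hm, by omega, by norm_num⟩
        · rw [twists_two, twists_two]
          have h1 := clasp_iso hD (tw_rep (Or.inr rfl) 1)
          have h2 := (cancel (D := D) (T := clasp .neg) (ρ := [])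
            (hlc (Or.inr rfl)) (tw_rep (Or.inl rfl) 0)).1
          have h3 := (cancel (D := D) (T := clasp .pos) (ρ := List.replicate 1
            (Kind.neg, 0)) (hlc (Or.inl rfl)) (tw_rep (Or.inr rfl) _)).1.symm
          have h4 := (h2.symm.trans h1).trans h3
          simpa using h4
        · rw [List.replicate_zero, List.append_nil]
          exact PIso.refl _
      · refine ⟨2 * m - 1, 0, 0, m, 1, 0, ?_, ?_, by omega, by omega, ?_⟩
        · rw [twists_two]
          have h1 := clasp_iso hD (tw_rep (Or.inl rfl) (2 * m - 1))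
          have e : (clasp Kind.neg ++ (Kind.pos, 0) ::
              List.replicate (2 * m - 1) (Kind.pos, 0)) =
              clasp Kind.neg ++ List.replicate (2 * m) (Kind.pos, 0) := by
            rw [show 2 * m = 2 * m - 1 + 1 by omega, List.replicate_succ (n := 2 * m - 1)]
            rfl
          rw [e] at h1
          have : twists .neg 2 0 = [] := rfl
          rw [this, List.append_nil]
          exact h1
        · rw [List.replicate_zero, List.append_nil]
          exact PIso.refl _
        · push_cast [Nat.cast_sub (show 1 ≤ 2 * m by omega)]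
          ring
    · -- negative clasp, negative twists
      refine ⟨1, 2 * m, m + 1, 0, 1, 0, ?_, ?_, hm, by omega, by push_cast; ring⟩
      · rw [twists_two, twists_two]
        have h1 := clasp_iso hD (tw_rep (Or.inr rfl) (2 * m + 1))
        have h2 := (cancel (D := D) (T := clasp .neg) (ρ := List.replicate (2 * m)
          (Kind.neg, 0)) (hlc (Or.inr rfl)) (tw_rep (Or.inr rfl) _)).1.symm
        have h3 := (cancel (D := D) (T := clasp .pos) (ρ := List.replicate (2 * m + 1)
          (Kind.neg, 0)) (hlc (Or.inl rfl)) (tw_rep (Or.inr rfl) _)).1.symm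
        have e1 : (clasp Kind.neg ++ (Kind.pos, 0) :: (Kind.neg, 0) ::
            List.replicate (2 * m) (Kind.neg, 0)) =
            clasp Kind.neg ++ (Kind.pos, 0) :: List.replicate (2 * m + 1) (Kind.neg, 0) := by
          rw [List.replicate_succ (n := 2 * m)]
        rw [e1] at h2
        have e2 : (clasp Kind.pos ++ (Kind.pos, 0) :: (Kind.neg, 0) ::
            List.replicate (2 * m + 1) (Kind.neg, 0)) =
            clasp Kind.pos ++ List.replicate 1 (Kind.pos, 0) ++
              List.replicate (2 * (m + 1)) (Kind.neg, 0) := by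
          rw [show 2 * (m + 1) = 2 * m + 1 + 1 by ring, List.replicate_succ (n := 2 * m + 1),
            List.append_assoc]
          rfl
        rw [e2] at h3
        have h4 := (h2.trans h1).trans h3
        simpa using h4
      · rw [mirror_clasp, twists_two]
        have : twists .pos 2 0 = [] := rfl
        rw [this, List.append_nil]
        exact PIso.refl _

end Wh

end Pool.Agent.HTW
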