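import Pool.Agent.HTW.GSide
import Pool.Agent.HTW.WhC

/-!
# The clasp with negative crossings: domination of the top channel

The crossing of two `N`-cables is self-adjoint and its square is a product of twists; this gives
its norm on every channel.
-/

namespace Pool.Agent.HTW

namespace Wh

open Finset

/-! ### The norm of a negative crossing on a channel -/

theorem cross_sq (A : ℝ) (hA : A ≠ 0) (N : ℕ) :
    (tl A hA).mirror.X N N * (tl A hA).mirror.X N N =
      (tl A hA).mirror.th (N + N) * ((tl A hA).sh N ((tl A hA).th N) * (tl A hA).th N) := by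
  have h := (tl A hA).mirror.th_add N N
  rw [TLData.mirror_sh] at h
  have e1 : (tl A hA).sh N ((tl A hA).mirror.th N) * (tl A hA).sh N ((tl A hA).th N) = 1 := by
    rw [← map_mul, TLData.mirror_th, map_one]
  have e2 : (tl A hA).mirror.th N * (tl A hA).th N = 1 := (tl A hA).mirror_th N
  calc (tl A hA).mirror.X N N * (tl A hA).mirror.X N N
      = (tl A hA).mirror.X N N * (tl A hA).mirror.X N N *
          ((tl A hA).mirror.th N * (tl A hA).th N) := by rw [e2, mul_one]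
    _ = (tl A hA).mirror.X N N * (tl A hA).mirror.X N N * ((tl A hA).mirror.th N *
          ((tl A hA).sh N ((tl A hA).mirror.th N) * (tl A hA).sh N ((tl A hA).th N)) *
            (tl A hA).th N) := by rw [e1, mul_one]
    _ = (tl A hA).mirror.X N N * (tl A hA).mirror.X N N * (tl A hA).mirror.th N *
          (tl A hA).sh N ((tl A hA).mirror.th N) *
            ((tl A hA).sh N ((tl A hA).th N) * (tl A hA).th N) := by
        simp only [mul_assoc]
    _ = _ := by rw [← h]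

theorem nt_cross (A : ℝ) (hA : A ≠ 0) (N : ℕ) :
    (tl A hA).Nt (N + N) (N + N) ((tl A hA).mirror.X N N) := by
  have h := ((tl A hA).mirror.nt_X' N N).mirror
  rwa [TLData.mirror_mirror] at h

theorem bd_cross (A : ℝ) (hA : A ≠ 0) (h1 : 1 < A) (N : ℕ) {j : ℕ} (hj : j ∈ chans (N + N)) :
    Bd (N + N) (N + N) ((tl A hA).mirror.X N N * Q A hA (N + N) j)
      ((A ^ (j ^ 2 + 2 * j))⁻¹ * A ^ (2 * (N ^ 2 + 2 * N))) := by
  have hA0 : 0 < A := lt_trans one_pos h1
  set M := N + N with hM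
  set h := (tl A hA).mirror.X N N with hh
  set q := Q A hA M j with hq
  have hc : q * h = h * q := commute_Q A hA M j (nt_cross A hA N)
  have hqq : q * q = q := Q_mul_self A hA h1 M j hj
  have hcc : q * (tl A hA).mirror.th M = ((tl A hA).mu j)⁻¹ • q := by
    have := Q_mirror_th_pow A hA h1 hj 1
    rwa [pow_one, pow_one] at this
  set Z := (tl A hA).sh N ((tl A hA).th N) * (tl A hA).th N with hZ
  have e1 : q * h * (h * q) = ((tl A hA).mu j)⁻¹ • (q * Z) := by
    calc q * h * (h * q) = q * h * (q * h) := by rw [hc]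
      _ = q * (h * q) * h := by simp only [mul_assoc]
      _ = q * (q * h) * h := by rw [hc]
      _ = (q * q) * (h * h) := by simp only [mul_assoc]
      _ = q * (h * h) := by rw [hqq]
      _ = q * ((tl A hA).mirror.th M * Z) := by rw [hh, cross_sq]
      _ = (q * (tl A hA).mirror.th M) * Z := by rw [mul_assoc]
      _ = _ := by rw [hcc, smul_mul_assoc]
  have hadj : Adj M M (h * q) (q * h) :=
    (adj_mirror_X A hA N N M (by omega)).mul (adj_Q A hA h1 M j M le_rfl)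
  have hbQ : Bd M M q 1 := by
    have := bd_Q A hA h1 M j M 0 hj (by omega)
    rwa [(tl A hA).sh_zero] at this
  have hbZ : Bd M M (q * Z) (((A ^ (N ^ 2 + 2 * N)) ^ 2) * ((A ^ (N ^ 2 + 2 * N)) ^ 2)) := by
    have h2 := bd_th A hA h1 N M N (by omega)
    have h3 := bd_th A hA h1 N M 0 (by omega)
    rw [(tl A hA).sh_zero] at h3
    have h4 := hbQ.mul (by norm_num) (h2.mul (by positivity) h3)
    rwa [one_mul] at h4
  have hbT : Bd M M (q * h * (h * q))
      (((A ^ (j ^ 2 + 2 * j))⁻¹ * A ^ (2 * (N ^ 2 + 2 * N))) ^ 2) := by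
    rw [e1]
    refine (hbZ.smul _).mono (le_of_eq ?_)
    rw [← sq_abs, abs_inv, abs_mu A hA h1]
    ring
  intro f
  set C := (A ^ (j ^ 2 + 2 * j))⁻¹ * A ^ (2 * (N ^ 2 + 2 * N)) with hC
  have hC0 : 0 ≤ C := by positivity
  have e2 : ip M ((h * q) f) ((h * q) f) = ip M f ((q * h * (h * q)) f) := hadj f ((h * q) f)
  rw [e2]
  have h5 := ip_mul_le M f ((q * h * (h * q)) f)
  have h6 := hbT f
  have h7 := ip_self_nonneg M f
  have h8 : ip M f ((q * h * (h * q)) f) ^ 2 ≤ (C * ip M f f) ^ 2 := by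
    refine h5.trans ?_
    calc ip M f f * ip M ((q * h * (h * q)) f) ((q * h * (h * q)) f)
        ≤ ip M f f * (C ^ 2 * ip M f f) := mul_le_mul_of_nonneg_left h6 h7
      _ = _ := by ring
  exact (le_abs_self _).trans (abs_le_of_sq_le_sq h8 (mul_nonneg hC0 h7))

theorem bd_cross_pow (A : ℝ) (hA : A ≠ 0) (h1 : 1 < A) (N : ℕ) {j : ℕ}
    (hj : j ∈ chans (N + N)) (k : ℕ) :
    Bd (N + N) (N + N) ((tl A hA).mirror.X N N ^ k * Q A hA (N + N) j)
      (((A ^ (j ^ 2 + 2 * j))⁻¹ * A ^ (2 * (N ^ 2 + 2 * N))) ^ k) := by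
  have hA0 : 0 < A := lt_trans one_pos h1
  induction k with
  | zero =>
    rw [pow_zero, one_mul, pow_zero]
    have := bd_Q A hA h1 (N + N) j (N + N) 0 hj (by omega)
    rwa [(tl A hA).sh_zero] at this
  | succ k ih =>
    set h := (tl A hA).mirror.X N N with hh
    set q := Q A hA (N + N) j with hq
    have hc : q * h = h * q := commute_Q A hA (N + N) j (nt_cross A hA N)
    have hcp : q * h ^ k = h ^ k * q := by
      have : Commute q h := hc
      exact (this.pow_right k)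
    have hqq : q * q = q := Q_mul_self A hA h1 (N + N) j hj
    have e : h ^ (k + 1) * q = (h * q) * (h ^ k * q) := by
      calc h ^ (k + 1) * q = h * h ^ k * (q * q) := by rw [hqq, pow_succ']
        _ = h * (h ^ k * q) * q := by simp only [mul_assoc]
        _ = h * (q * h ^ k) * q := by rw [hcp]
        _ = _ := by simp only [mul_assoc]
    rw [e, pow_succ']
    exact (bd_cross A hA h1 N hj).mul (by positivity) ih

theorem ev_rep_neg (A : ℝ) (hA : A ≠ 0) (N k : ℕ) :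
    (tl A hA).ev N (List.replicate k (Kind.neg, 0)) = (tl A hA).mirror.X N N ^ k := by
  induction k with
  | zero => rfl
  | succ k ih =>
    rw [List.replicate_succ, TLData.ev_cons, ih, pow_succ]
    rfl

theorem isBraid_rep {k : Kind} (hk : k = Kind.pos ∨ k = Kind.neg) (j : ℕ) :
    IsBraid 2 (List.replicate j (k, 0)) := by
  intro x hx
  rw [List.eq_of_mem_replicate hx]
  exact ⟨hk, le_rfl⟩

theorem expSum_rep_neg (j : ℕ) : expSum (List.replicate j (Kind.neg, 0)) = -(j : ℤ) := by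
  induction j with
  | zero => rfl
  | succ j ih =>
    rw [List.replicate_succ]
    have e : expSum ((Kind.neg, 0) :: List.replicate j (Kind.neg, 0)) =
        expSum [(Kind.neg, 0)] + expSum (List.replicate j (Kind.neg, 0)) :=
      expSum_append [(Kind.neg, 0)] (List.replicate j (Kind.neg, 0))
    rw [e, ih]
    have e1 : expSum [(Kind.neg, 0)] = -1 := rfl
    rw [e1]
    push_cast
    ring

/-! ### The norm of the clasp -/

theorem bd_clasp (A : ℝ) (hA : A ≠ 0) (h1 : 1 < A) (N : ℕ) :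
    Bd (N * 2) (N * 2) ((tl A hA).ev N (clasp .pos))
      ((2 ^ N * A ^ (2 * N ^ 2 + 2 * N)) ^ 2) := by
  have hA0 : 0 < A := lt_trans one_pos h1
  have e : (tl A hA).ev N (clasp .pos) =
      (tl A hA).sh (N * 1) ((tl A hA).N N) * ((tl A hA).sh (N * 2) ((tl A hA).X N N) *
        ((tl A hA).sh (N * 0) ((tl A hA).X N N) *
          (tl A hA).sh (N * 1) ((tl A hA).U N))) := by
    show 1 * (tl A hA).sh (N * 1) ((tl A hA).N N) * (tl A hA).sh (N * 2) ((tl A hA).X N N) *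
        (tl A hA).sh (N * 0) ((tl A hA).X N N) * (tl A hA).sh (N * 1) ((tl A hA).U N) = _
    simp only [one_mul, mul_assoc]
  rw [e]
  have h2 := bd_U A hA h1.le N (N * 2) (N * 1) (by omega)
  have h3 := bd_X A hA h1.le N N (N * 2 + 2 * N) (N * 0) (by omega)
  have h4 := bd_X A hA h1.le N N (N * 2 + 2 * N) (N * 2) (by omega)
  have h5 := bd_N A hA h1.le N (N * 2) (N * 1) (by omega)
  have h6 := h5.mul (by positivity) (h4.mul (by positivity) (h3.mul (by positivity) h2))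
  refine h6.mono ?_
  have h7 : (A ^ 2 + (A⁻¹) ^ 2) ^ N ≤ (2 * A ^ 2) ^ N := by
    refine pow_le_pow_left₀ (by positivity) ?_ _
    have : A⁻¹ ≤ A := (inv_lt_one_of_one_lt₀ h1).le.trans h1.le
    have h7 : (A⁻¹) ^ 2 ≤ A ^ 2 := pow_le_pow_left₀ (by positivity) this 2
    linarith
  calc (A ^ 2 + A⁻¹ ^ 2) ^ N * (A ^ (2 * (N * N)) * (A ^ (2 * (N * N)) *
        (A ^ 2 + A⁻¹ ^ 2) ^ N))
      ≤ (2 * A ^ 2) ^ N * (A ^ (2 * (N * N)) * (A ^ (2 * (N * N)) * (2 * A ^ 2) ^ N)) := by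
        refine mul_le_mul h7 ?_ (by positivity) (by positivity)
        refine mul_le_mul_of_nonneg_left ?_ (by positivity)
        exact mul_le_mul_of_nonneg_left h7 (by positivity)
    _ = (2 ^ N * A ^ (2 * N ^ 2 + 2 * N)) ^ 2 := by
        rw [mul_pow, mul_pow, ← pow_mul, ← pow_mul, ← pow_mul]
        rw [show (2 * N ^ 2 + 2 * N) * 2 = 2 * N + 2 * (N * N) + 2 * (N * N) + 2 * N by ring,
          pow_add, pow_add, pow_add, show N * 2 = N + N by ring, pow_add]
        ring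

/-! ### The exponents -/

theorem exp_clasp {N k c κ κP j : ℕ} (hk : k < 2 * c) (hN : k + 2 ≤ N) (hj : j + 2 ≤ N * 2) :
    2 * ((j ^ 2 * c + N * 2 * κ : ℕ) : ℤ) + (-(((j ^ 2 + 2 * j) * k : ℕ) : ℤ) +
      ((2 * (N ^ 2 + 2 * N) * k : ℕ) : ℤ)) + 2 * ((2 * N ^ 2 + 2 * N : ℕ) : ℤ) ≤
    2 * (((N : ℤ) ^ 2 * (2 - k) + ((N * κP : ℕ) : ℤ)) +
      (((N * 2) ^ 2 * c + N * 2 * κ : ℕ) : ℤ) - 2) := by
  push_cast
  have hj' : (j : ℤ) + 2 ≤ N * 2 := by exact_mod_cast hj
  have hk' : (k : ℤ) + 1 ≤ 2 * c := by exact_mod_cast hk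
  have hN' : (k : ℤ) + 2 ≤ N := by exact_mod_cast hN
  have hk0 : (0 : ℤ) ≤ k := Int.natCast_nonneg k
  have hj0 : (0 : ℤ) ≤ j := Int.natCast_nonneg j
  have hκ : (0 : ℤ) ≤ (N : ℤ) * κP := by positivity
  set M : ℤ := N * 2 with hM
  -- the main inequality
  have h1 : (M + j) * 1 ≤ (M + j) * (2 * c - k) :=
    mul_le_mul_of_nonneg_left (by linarith) (by linarith)
  have h2 : (M - j) * (M + j - 2 * k) ≤ (M - j) * ((M + j) * (2 * c - k) - 2 * k) :=
    mul_le_mul_of_nonneg_left (by linarith) (by linarith)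
  have h3 : 0 ≤ (M - j - 2) * j := mul_nonneg (by linarith) hj0
  have h4 : 0 ≤ (M - j - 2) * (M - 2 * k - 4) := mul_nonneg (by linarith) (by linarith)
  have h5 : 2 * M + 4 ≤ (M - j) * (M + j - 2 * k) := by nlinarith
  have hid : 2 * (((N : ℤ) ^ 2 * (2 - k) + N * κP) + (M ^ 2 * c + M * κ) - 2) -
      (2 * (j ^ 2 * c + M * κ) + (-((j ^ 2 + 2 * j) * k) + 2 * ((N : ℤ) ^ 2 + 2 * N) * k) +
        2 * (2 * (N : ℤ) ^ 2 + 2 * N)) =
      (M - j) * ((M + j) * (2 * c - k) - 2 * k) - 2 * M - 4 + 2 * (N * κP) := by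
    rw [hM]
    ring
  linarith

/-! ### Domination -/

theorem gdom_clasp {w : Word} {c κ : ℕ} (hD : Dom w c κ) {k : ℕ} (hk : k < 2 * c) :
    ∃ κP : ℕ, ∀ N, k + 2 ≤ N → GDom w (clasp .pos ++ List.replicate k (Kind.neg, 0)) 2 c κ
      ((N : ℤ) ^ 2 * (2 - k) + ((N * κP : ℕ) : ℤ)) N := by
  obtain ⟨κP, t, CP, hP⟩ := topData_of_adequate (adequate_clasp 0)
  have e0 : clasp .pos ++ List.replicate 0 (Kind.pos, 0) = clasp .pos := by simp
  have hr : URun 2 2 (clasp .pos) := by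
    have := (adequate_clasp 0).uRun
    rwa [e0] at this
  rw [e0] at hP
  have hcr : crossings (clasp .pos) = 2 := rfl
  refine ⟨κP, fun N hN => ?_⟩
  obtain ⟨C, A₀, hC, hA₀, hdom⟩ := hD (N * 2)
  obtain ⟨C', A₀', hC', hA₀', hdomP⟩ := hP.domT N
  rw [hcr] at hdomP
  set K : ℝ := C' + C * 2 ^ N with hK
  refine ⟨K, max A₀ A₀', add_nonneg hC' (by positivity),
    lt_of_lt_of_le hA₀ (le_max_left _ _), fun A hA hAA => ?_⟩
  have hAA₀ : A₀ ≤ A := (le_max_left _ _).trans hAA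
  have hAA₀' : A₀' ≤ A := (le_max_right _ _).trans hAA
  have h1 : 1 < A := lt_of_lt_of_le hA₀ hAA₀
  have hA0 : 0 < A := lt_trans one_pos h1
  obtain ⟨_, hj2⟩ := hdom A hA hAA₀
  obtain ⟨t, ht, ht1, ht2, _⟩ := hdomP A hA hAA₀'
  have hb := isBraid_rep (Or.inr rfl : Kind.neg = Kind.pos ∨ Kind.neg = Kind.neg) k
  have hNt : (tl A hA).Nt (N * 2) (N * 2)
      ((tl A hA).ev N (clasp .pos ++ List.replicate k (Kind.neg, 0))) := by
    rw [(tl A hA).ev_append]
    exact (nt_braid (tl A hA) N 2 hb).mul (nt_uRun (tl A hA) N hr)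
  refine ⟨hNt, ⟨(A ^ (N ^ 2)) ^ (-(k : ℤ)) * t, ?_, ?_, ?_⟩, ?_⟩
  · unfold Tch
    rw [mul_assoc, commute_Q A hA _ _ hNt, (tl A hA).ev_append, mul_assoc, ht, mul_smul_comm,
      ev_braid_Q A hA h1 N 2 hb, smul_smul, mul_smul_comm, expSum_rep_neg, mul_comm t]
  · rw [abs_mul, abs_of_pos (zpow_pos (by positivity) _)]
    calc (1 / 2) * A ^ ((N : ℤ) ^ 2 * (2 - k) + ((N * κP : ℕ) : ℤ))
        = (A ^ (N ^ 2)) ^ (-(k : ℤ)) * ((1 / 2) * A ^ (N ^ 2 * 2 + N * κP)) := by
          rw [← zpow_natCast A (N ^ 2 * 2 + N * κP), ← zpow_natCast A (N ^ 2), ← zpow_mul,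
            show ((N : ℤ) ^ 2 * (2 - k) + ((N * κP : ℕ) : ℤ)) =
              ((N ^ 2 : ℕ) : ℤ) * (-(k : ℤ)) + ((N ^ 2 * 2 + N * κP : ℕ) : ℤ) by
                push_cast; ring, zpow_add₀ hA]
          ring
      _ ≤ _ := mul_le_mul_of_nonneg_left ht1 (zpow_nonneg (by positivity) _)
  · rw [abs_mul, abs_of_pos (zpow_pos (by positivity) _)]
    calc (A ^ (N ^ 2)) ^ (-(k : ℤ)) * |t|
        ≤ (A ^ (N ^ 2)) ^ (-(k : ℤ)) * (C' * A ^ (N ^ 2 * 2 + N * κP)) :=
          mul_le_mul_of_nonneg_left ht2 (zpow_nonneg (by positivity) _)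
      _ = C' * A ^ ((N : ℤ) ^ 2 * (2 - k) + ((N * κP : ℕ) : ℤ)) := by
          rw [← zpow_natCast A (N ^ 2 * 2 + N * κP), ← zpow_natCast A (N ^ 2), ← zpow_mul,
            show ((N : ℤ) ^ 2 * (2 - k) + ((N * κP : ℕ) : ℤ)) =
              ((N ^ 2 : ℕ) : ℤ) * (-(k : ℤ)) + ((N ^ 2 * 2 + N * κP : ℕ) : ℤ) by
                push_cast; ring, zpow_add₀ hA]
          ring
      _ ≤ _ := by
          refine mul_le_mul_of_nonneg_right ?_ (zpow_nonneg hA0.le _)
          rw [hK]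
          have : 0 ≤ C * 2 ^ N := by positivity
          linarith
  · intro j hj hjM
    have hjj : j + 2 ≤ N * 2 := by
      have := mem_chans.1 hj
      omega
    have hM : N * 2 = N + N := by ring
    have e1 : Tch A hA N 2 w (clasp .pos ++ List.replicate k (Kind.neg, 0)) j =
        ((tl A hA).ev (N * 2) w * Q A hA (N * 2) j) *
          (((tl A hA).mirror.X N N ^ k * Q A hA (N * 2) j) * (tl A hA).ev N (clasp .pos)) := by
      have hqq : Q A hA (N * 2) j * Q A hA (N * 2) j = Q A hA (N * 2) j :=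
        Q_mul_self A hA h1 (N * 2) j hj
      have hc : Q A hA (N * 2) j * (tl A hA).mirror.X N N ^ k =
          (tl A hA).mirror.X N N ^ k * Q A hA (N * 2) j := by
        have hc1 : Commute (Q A hA (N * 2) j) ((tl A hA).mirror.X N N) := by
          have := nt_cross A hA N
          rw [← hM] at this
          exact commute_Q A hA (N * 2) j this
        exact hc1.pow_right k
      unfold Tch
      rw [(tl A hA).ev_append, ev_rep_neg, ← hc]
      conv_lhs => rw [← hqq]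
      simp only [mul_assoc]
    rw [e1]
    have hj' : j ∈ chans (N + N) := by rwa [hM] at hj
    have h2 := bd_cross_pow A hA h1 N hj' k
    rw [← hM] at h2
    have h3 := (hj2 j hj).mul (by positivity) (h2.mul (by positivity) (bd_clasp A hA h1 N))
    refine h3.mono ?_
    have hexp := exp_clasp (κ := κ) (κP := κP) hk hN hjj
    set τ : ℤ := (N : ℤ) ^ 2 * (2 - k) + ((N * κP : ℕ) : ℤ) with hτ
    have e2 : (C * A ^ (j ^ 2 * c + N * 2 * κ)) ^ 2 *
        (((A ^ (j ^ 2 + 2 * j))⁻¹ * A ^ (2 * (N ^ 2 + 2 * N))) ^ k *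
          (2 ^ N * A ^ (2 * N ^ 2 + 2 * N)) ^ 2) =
        (C * 2 ^ N) ^ 2 * A ^ (2 * ((j ^ 2 * c + N * 2 * κ : ℕ) : ℤ) +
          (-(((j ^ 2 + 2 * j) * k : ℕ) : ℤ) + ((2 * (N ^ 2 + 2 * N) * k : ℕ) : ℤ)) +
            2 * ((2 * N ^ 2 + 2 * N : ℕ) : ℤ)) := by
      have e3 : ∀ m : ℕ, A ^ (2 * (m : ℤ)) = (A ^ m) ^ 2 := by
        intro m
        rw [← pow_mul, ← zpow_natCast]
        congr 1
        push_cast
        ring
      rw [zpow_add₀ hA, zpow_add₀ hA, zpow_add₀ hA, e3, e3, zpow_neg, zpow_natCast, zpow_natCast,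
        mul_pow (A ^ (j ^ 2 + 2 * j))⁻¹, inv_pow, ← pow_mul A (j ^ 2 + 2 * j),
        ← pow_mul A (2 * (N ^ 2 + 2 * N))]
      ring
    rw [e2]
    have e4 : (K * A ^ (τ + (((N * 2) ^ 2 * c + N * 2 * κ : ℕ) : ℤ) - 2)) ^ 2 =
        K ^ 2 * A ^ (2 * (τ + (((N * 2) ^ 2 * c + N * 2 * κ : ℕ) : ℤ) - 2)) := by
      rw [mul_pow, ← zpow_natCast (A ^ _) 2, ← zpow_mul]
      congr 2
      push_cast
      ring
    rw [e4]
    refine mul_le_mul ?_ (zpow_le_zpow_right₀ h1.le hexp) (zpow_nonneg hA0.le _) (sq_nonneg _)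
    refine pow_le_pow_left₀ (by positivity) ?_ 2
    rw [hK]
    linarith

end Wh

end Pool.Agent.HTW
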