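import Pool.Agent.HTW.WhS

/-!
# Both sides: all framings but finitely many
-/

namespace Pool.Agent.HTW

namespace Wh

/-- The other side and the writhe. -/
theorem one_sided' {D : Word} (hD : IsKnot D) (hDB : AAdequate 1 (mirror D)) {e : List Bool}
    {T Q : Word} {k : ℕ} {g : ℤ}
    (hTQ : PIso D (e.length + 1) g T (mirror Q ++ twists .pos (e.length + 1) k))
    (hQ : AAdequate (e.length + 1) Q) (hk : k < crossings D)
    (hK : IsKnot (sat D (e.length + 1) T)) {t u : ℤ} (hT : OR T (true :: e) (true :: e) t)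
    (hu : OR D [true] [true] u) :
    ((e.length + 1 : ℕ) : ℤ) ^ 2 * crossings D + crossings Q -
        k * (((e.length + 1 : ℕ) : ℤ) * (((e.length + 1 : ℕ) : ℤ) - 1)) + g + t +
          sgn (true :: e) ^ 2 * u ≤
      2 * (crossingNumber (sat D (e.length + 1) T) : ℤ) := by
  set n := e.length + 1 with hn
  obtain ⟨D', hiso, hcr⟩ := crossingNumber_spec (sat D n T)
  rw [← hcr]
  have hD'k : IsKnot D' := (isotopic_isKnot hiso).1 hK
  obtain ⟨κB, hdB⟩ := dom_of_adequate (isKnot_mirror hD) hDB
  rw [crossings_mirror] at hdB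
  obtain ⟨κQ, t', C', hQt⟩ := topData_of_adequate hQ
  obtain ⟨F, ho, hF⟩ := isotopic_or hiso
  have hor := or_abs ((ho _).1 (or_sat hT hu))
  have hB := side hdB (isKnot_mirror hD).1 (by omega : 1 ≤ n) hQt.domT hQ.uRun hk (-F + g)
    (crossings D') (extrema D') (by
    intro A hA h1 N
    have hμ := mu_ne A hA N
    have e1 : (tl A hA).mu N ^ (-F + g) * satv A hA N n (mirror D) (Q ++ twists .neg n k) =
        jm A hA N D' := by
      have e2 : satv A hA N n (mirror D) (Q ++ twists .neg n k) =
          jm A hA N (sat D n (mirror Q ++ twists .pos n k)) := by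
        rw [jm_sat, TLData.mirror_append, mirror_mirror_word, mirror_twists_pos]
      rw [e2, (piso_jj hTQ A hA N).2, (hF A hA N).2, ← mul_assoc, ← zpow_add₀ hμ]
      congr 2
      ring
    rw [e1]
    exact jm_sq_le A hA h1 N hD'k.1)
  have h2 := (abs_le.1 hor).2
  linarith

theorem ztwists_nonneg (n m : ℕ) : ztwists n (m : ℤ) = twists .pos n m := by
  unfold ztwists
  rw [if_pos (Int.natCast_nonneg m), Int.toNat_natCast]

theorem ztwists_nonpos (n m : ℕ) : ztwists n (-(m : ℤ)) = twists .neg n m := by
  unfold ztwists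
  split_ifs with h
  · have h0 : m = 0 := by omega
    subst h0
    rfl
  · rw [neg_neg, Int.toNat_natCast]

theorem or_ztwists (e : List Bool) (m : ℤ) :
    OR (ztwists e.length m) e e (m * (sgn e ^ 2 - e.length)) := by
  rcases Int.le_total 0 m with h | h
  · obtain ⟨m, rfl⟩ := Int.eq_ofNat_of_zero_le h
    rw [ztwists_nonneg]
    exact (or_twists (Or.inl ⟨rfl, rfl⟩) e m).cast rfl rfl rfl (by ring)
  · obtain ⟨k, hk⟩ : ∃ k : ℕ, m = -(k : ℤ) := ⟨(-m).toNat, by omega⟩
    subst hk
    rw [ztwists_nonpos]
    exact (or_twists (Or.inr ⟨rfl, rfl⟩) e k).cast rfl rfl rfl (by ring)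

/-- The other side for an adequate pattern with any framing. -/
theorem framed' {D : Word} (hD : IsKnot D) (hDB : AAdequate 1 (mirror D))
    {e : List Bool} {T : Word} (hT : AAdequate (e.length + 1) (mirror T)) {t u : ℤ}
    (ht : OR T (true :: e) (true :: e) t) (hu : OR D [true] [true] u) {m : ℤ}
    (hm : m ≤ 0) (hc : 0 < crossings D)
    (hK : IsKnot (sat D (e.length + 1) (T ++ ztwists (e.length + 1) m))) :
    (((e.length + 1 : ℕ) : ℤ) ^ 2 - sgn (true :: e) ^ 2) * (crossings D - m) +
        sgn (true :: e) ^ 2 * (crossings D + u) + (crossings T + t) ≤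
      2 * (crossingNumber (sat D (e.length + 1) (T ++ ztwists (e.length + 1) m)) : ℤ) := by
  obtain ⟨k, hk⟩ : ∃ k : ℕ, m = -(k : ℤ) := ⟨(-m).toNat, by omega⟩
  subst hk
  have hor : OR (T ++ ztwists (e.length + 1) (-(k : ℤ))) (true :: e) (true :: e)
      (t + -(k : ℤ) * (sgn (true :: e) ^ 2 - (e.length + 1 : ℕ))) :=
    or_append.2 ⟨_, _, _, ht, or_ztwists (true :: e) (-(k : ℤ)), rfl⟩
  have hQ := adequate_append hT (posBraid_twists (e.length + 1) k)
  have e1 : T ++ ztwists (e.length + 1) (-(k : ℤ)) =
      mirror (mirror T ++ twists .pos (e.length + 1) k) := by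
    rw [TLData.mirror_append, mirror_mirror_word, mirror_twists_pos, ztwists_nonpos]
  have h := one_sided' hD hDB (T := T ++ ztwists (e.length + 1) (-(k : ℤ))) (g := 0) (k := 0)
    (Q := mirror T ++ twists .pos (e.length + 1) k) (by
      have e0 : twists Kind.pos (e.length + 1) 0 = [] := by simp [twists]
      rw [e0, List.append_nil, ← e1]
      exact PIso.refl _) hQ hc hK hor hu
  rw [crossings_append, crossings_mirror] at h
  have h2 := crossings_twists (e.length + 1) k
  push_cast at h h2 ⊢
  rw [h2] at h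
  linarith

/-- The question for adequate patterns and companions: all framings but finitely many. -/
theorem framings {D : Word} (hD : IsKnot D) (hDA : AAdequate 1 D) (hDB : AAdequate 1 (mirror D))
    (hc : 0 < crossings D) {e : List Bool} {T : Word} (hTA : AAdequate (e.length + 1) T)
    (hTB : AAdequate (e.length + 1) (mirror T)) {t u : ℤ}
    (ht : OR T (true :: e) (true :: e) t) (hu : OR D [true] [true] u) {m : ℤ}
    (hK : IsKnot (sat D (e.length + 1) (T ++ ztwists (e.length + 1) m)))
    (h : |m| < crossings D ∨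
      (0 ≤ m ∧ ((e.length + 1 : ℕ) : ℤ) ^ 2 * crossings D + sgn (true :: e) ^ 2 * u ≤
        m * (((e.length + 1 : ℕ) : ℤ) ^ 2 - sgn (true :: e) ^ 2)) ∨
      (m ≤ 0 ∧ ((e.length + 1 : ℕ) : ℤ) ^ 2 * crossings D - sgn (true :: e) ^ 2 * u ≤
        -m * (((e.length + 1 : ℕ) : ℤ) ^ 2 - sgn (true :: e) ^ 2))) :
    (e.length + 1) ^ 2 * crossingNumber D ≤
      crossingNumber (sat D (e.length + 1) (T ++ ztwists (e.length + 1) m)) := by
  have h3 := crossingNumber_le (Relation.EqvGen.refl D)
  have h4 : ((e.length + 1 : ℕ) : ℤ) ^ 2 * crossingNumber D ≤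
      ((e.length + 1 : ℕ) : ℤ) ^ 2 * crossings D :=
    mul_le_mul_of_nonneg_left (by exact_mod_cast h3) (by positivity)
  have hc' : (0 : ℤ) < crossings D := by exact_mod_cast hc
  have htt := or_abs ht
  rcases h with h | ⟨h0, h⟩ | ⟨h0, h⟩
  · -- a small framing
    rcases Int.le_total 0 m with h0 | h0
    · obtain ⟨m, rfl⟩ := Int.eq_ofNat_of_zero_le h0
      rw [Nat.abs_cast] at h
      have hlt : m < crossings D := by exact_mod_cast h
      have hP := adequate_append hTA (posBraid_twists (e.length + 1) m)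
      have e0 : twists Kind.neg (e.length + 1) 0 = [] := by simp [twists]
      have h5 := main_kink hD hDA hDB (by omega : 1 ≤ e.length + 1)
        (T := T ++ ztwists (e.length + 1) (m : ℤ)) (f := 0) (g := 0)
        (by
          rw [e0, List.append_nil, ztwists_nonneg]
          exact PIso.refl _)
        (by
          rw [mirror_mirror_word, ztwists_nonneg]
          exact PIso.refl _) hP hTB hc hlt hK
      have h6 : ((e.length + 1 : ℕ) : ℤ) ^ 2 * crossingNumber D ≤
          (crossingNumber (sat D (e.length + 1) (T ++ ztwists (e.length + 1) (m : ℤ))) : ℤ) := by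
        linarith [h5.1, h5.2]
      exact_mod_cast h6
    · obtain ⟨k, hk⟩ : ∃ k : ℕ, m = -(k : ℤ) := ⟨(-m).toNat, by omega⟩
      subst hk
      rw [abs_neg, Nat.abs_cast] at h
      have hlt : k < crossings D := by exact_mod_cast h
      have hQ := adequate_append hTB (posBraid_twists (e.length + 1) k)
      have e0 : twists Kind.pos (e.length + 1) 0 = [] := by simp [twists]
      have h5 := main_kink hD hDA hDB (by omega : 1 ≤ e.length + 1)
        (T := T ++ ztwists (e.length + 1) (-(k : ℤ))) (f := 0) (g := 0)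
        (by
          rw [ztwists_nonpos]
          exact PIso.refl _)
        (by
          rw [TLData.mirror_append, mirror_mirror_word, mirror_twists_pos, e0, List.append_nil,
            ztwists_nonpos]
          exact PIso.refl _) hTA hQ hlt hc hK
      have h6 : ((e.length + 1 : ℕ) : ℤ) ^ 2 * crossingNumber D ≤
          (crossingNumber (sat D (e.length + 1) (T ++ ztwists (e.length + 1) (-(k : ℤ)))) : ℤ) := by
        linarith [h5.1, h5.2]
      exact_mod_cast h6
  · -- many positive twists
    exact semi_adequate_sq hD hDA hc hTA ht hu (PIso.refl _) (by linarith) hK h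
  · -- many negative twists
    have h5 := framed' hD hDB hTB ht hu h0 hc hK
    have h6 : ((e.length + 1 : ℕ) : ℤ) ^ 2 * crossingNumber D ≤
        (crossingNumber (sat D (e.length + 1) (T ++ ztwists (e.length + 1) m)) : ℤ) := by
      linarith [(abs_le.1 htt).1]
    exact_mod_cast h6

end Wh

end Pool.Agent.HTW
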