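import Pool.Agent.HTW.WhV
import Pool.Agent.HTW.Braids

/-!
# One side and the writhe: companions with an A-adequate diagram
-/

namespace Pool.Agent.HTW

namespace Wh

/-! ### Positive twists keep the adequacy -/

theorem aStep_map {α β : Type} {x : Letter} {ℓ ℓ' : List α} (h : AStep x ℓ ℓ') (g : α → β) :
    AStep x (ℓ.map g) (ℓ'.map g) := by
  cases h with
  | cup u v y =>
    have h := AStep.cup (u.map g) (v.map g) (g y)
    rw [List.length_map] at h
    simpa using h
  | cap u v y =>
    have h := AStep.cap (u.map g) (v.map g) (g y)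
    rw [List.length_map] at h
    simpa using h
  | pos u v y z =>
    have h := AStep.pos (u.map g) (v.map g) (g y) (g z)
    rw [List.length_map] at h
    simpa using h
  | neg u v y z =>
    have h := AStep.neg (u.map g) (v.map g) (g y) (g z)
    rw [List.length_map] at h
    simpa using h

theorem aRun_map {α β : Type} {w : Word} {ℓ ℓ' : List α} (h : ARun w ℓ ℓ') (g : α → β) :
    ARun w (ℓ.map g) (ℓ'.map g) := by
  induction h with
  | nil ℓ => exact ARun.nil _
  | cons h1 _ ih => exact ARun.cons (aStep_map h1 g) ih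

theorem aRun_append {α : Type} {u v : Word} {ℓ ℓ' ℓ'' : List α} (h : ARun u ℓ ℓ')
    (h' : ARun v ℓ' ℓ'') : ARun (u ++ v) ℓ ℓ'' := by
  induction h with
  | nil ℓ => exact h'
  | cons hs _ ih => exact ARun.cons hs (ih h')

theorem cons_eq_append {α : Type} {u v a b : List α} {x : α} (h : u ++ v = a ++ x :: b) :
    (∃ b', u = a ++ x :: b' ∧ b = b' ++ v) ∨ (∃ a', a = u ++ a' ∧ v = a' ++ x :: b) := by
  induction u generalizing a with
  | nil => exact Or.inr ⟨a, rfl, h⟩
  | cons y u ih =>
    cases a with
    | nil =>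
      simp only [List.cons_append, List.nil_append, List.cons.injEq] at h
      obtain ⟨rfl, rfl⟩ := h
      exact Or.inl ⟨u, rfl, rfl⟩
    | cons z a =>
      simp only [List.cons_append, List.cons.injEq] at h
      obtain ⟨rfl, h⟩ := h
      rcases ih h with ⟨b', rfl, rfl⟩ | ⟨a', rfl, rfl⟩
      · exact Or.inl ⟨b', rfl, rfl⟩
      · exact Or.inr ⟨a', rfl, rfl⟩

/-- An A-adequate tangle followed by a positive braid. -/
theorem adequate_append {n : ℕ} {P β : Word} (hP : AAdequate n P) (hβ : IsPosBraid n β) :
    AAdequate n (P ++ β) := by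
  refine ⟨aRun_append hP.1 (aRun_pos hβ _ List.length_range), ?_⟩
  intro a b x h hx
  rcases cons_eq_append h with ⟨b', rfl, rfl⟩ | ⟨a', rfl, rfl⟩
  · obtain ⟨t, ℓ, ℓ', h1, h2, h3, h4, h5⟩ := hP.2 a b' x rfl hx
    exact ⟨t, ℓ, ℓ', h1, h2, h3, aRun_append h4 (aRun_pos hβ t h1), h5⟩
  · have hx' := hβ x (by simp)
    obtain ⟨k, i⟩ := x
    have h1 := hx'.1
    have hi := hx'.2
    simp only at h1 hi
    subst h1
    have ha : IsPosBraid n a' := fun y hy => hβ y (by simp [hy])
    have hb : IsPosBraid n b := fun y hy => hβ y (by simp [hy])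
    set t : List Bool := (List.range n).map (fun j => decide (j ≤ i)) with ht
    have hlen : t.length = n := by simp [ht]
    have hPt : ARun P t t := aRun_map hP.1 _
    obtain ⟨u, v, y, z, he, hu⟩ := split_at t i (by rw [hlen]; exact hi)
    have hy : y = true := by
      have h2 : t[i]? = some true := by
        rw [ht, List.getElem?_map, List.getElem?_range (by omega)]
        simp
      rw [he, ← hu, List.getElem?_append_right le_rfl] at h2
      simpa using h2
    have hz : z = false := by
      have h2 : t[i + 1]? = some false := by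
        rw [ht, List.getElem?_map, List.getElem?_range (by omega)]
        simp
      rw [he, ← hu, List.getElem?_append_right (by omega)] at h2
      simpa using h2
    refine ⟨t, t, t, hlen, aRun_append hPt (aRun_pos ha t hlen), ?_, aRun_pos hb t hlen, ?_⟩
    · rw [he, ← hu]
      exact AStep.pos u v y z
    · rw [he, ← hu, List.getElem?_append_right le_rfl, List.getElem?_append_right (by omega),
        hy, hz]
      simp

theorem posBraid_twists (n m : ℕ) : IsPosBraid n (twists .pos n m) := by
  intro x hx
  have h1 := isBraid_twists .pos (Or.inl rfl) n m x hx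
  refine ⟨?_, h1.2⟩
  unfold twists at hx
  rw [List.mem_flatten] at hx
  obtain ⟨w, hw, hx⟩ := hx
  rw [List.eq_of_mem_replicate hw] at hx
  exact twistWord_pos_mem n x hx

theorem crossings_twists (n m : ℕ) :
    (crossings (twists .pos n m) : ℤ) = m * (n * (n - 1)) := by
  have key : ∀ w : Word, (∀ x ∈ w, x.1 = Kind.pos) → crossings w = w.length := by
    intro w hw
    unfold crossings
    rw [List.countP_eq_length]
    intro x hx
    simp [hw x hx]
  rw [key _ (fun x hx => (posBraid_twists n m x hx).1)]
  unfold twists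
  rw [List.length_flatten, List.map_replicate, List.sum_replicate, smul_eq_mul]
  push_cast
  rw [length_twistWord]

/-! ### The bound -/

/-- One side and the writhe. -/
theorem one_sided {D : Word} (hD : IsKnot D) (hDA : AAdequate 1 D) {e : List Bool}
    {T P : Word} {k : ℕ} {f : ℤ}
    (hTP : PIso D (e.length + 1) f T (P ++ twists .neg (e.length + 1) k))
    (hP : AAdequate (e.length + 1) P) (hk : k < crossings D)
    (hK : IsKnot (sat D (e.length + 1) T)) {t u : ℤ} (hT : OR T (true :: e) (true :: e) t)
    (hu : OR D [true] [true] u) :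
    ((e.length + 1 : ℕ) : ℤ) ^ 2 * crossings D + crossings P -
        k * (((e.length + 1 : ℕ) : ℤ) * (((e.length + 1 : ℕ) : ℤ) - 1)) - f - t -
          sgn (true :: e) ^ 2 * u ≤
      2 * (crossingNumber (sat D (e.length + 1) T) : ℤ) := by
  set n := e.length + 1 with hn
  obtain ⟨D', hiso, hcr⟩ := crossingNumber_spec (sat D n T)
  rw [← hcr]
  have hD'k : IsKnot D' := (isotopic_isKnot hiso).1 hK
  obtain ⟨κA, hdA⟩ := dom_of_adequate hD hDA
  obtain ⟨κP, tt', C, hPt⟩ := topData_of_adequate hP
  obtain ⟨F, ho, hF⟩ := isotopic_or hiso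
  have hor := or_abs ((ho _).1 (or_sat hT hu))
  have hA := side hdA hD.1 (by omega : 1 ≤ n) hPt.domT hP.uRun hk (F - f) (crossings D')
    (extrema D') (by
      intro A hA h1 N
      have hμ := mu_ne A hA N
      have e1 : (tl A hA).mu N ^ (F - f) * satv A hA N n D (P ++ twists .neg n k) =
          jj A hA N D' := by
        rw [← jj_sat, (piso_jj hTP A hA N).1, (hF A hA N).1, ← mul_assoc, ← zpow_add₀ hμ]
        congr 2
        ring
      rw [e1]
      exact jj_sq_le A hA h1 N hD'k.1)
  have h2 := (abs_le.1 hor).1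
  linarith

/-- `m` full twists, `m` an integer. -/
def ztwists (n : ℕ) (m : ℤ) : Word :=
  if 0 ≤ m then twists .pos n m.toNat else twists .neg n (-m).toNat

/-- One side and the writhe, for a pattern with any framing. -/
theorem framed {D : Word} (hD : IsKnot D) (hDA : AAdequate 1 D) (hc : 0 < crossings D)
    {e : List Bool} {P : Word} (hP : AAdequate (e.length + 1) P) {p u : ℤ}
    (hp : OR P (true :: e) (true :: e) p) (hu : OR D [true] [true] u) {m : ℤ}
    (hm : -(crossings D : ℤ) < m)
    (hK : IsKnot (sat D (e.length + 1) (P ++ ztwists (e.length + 1) m))) :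
    ((e.length + 1 : ℕ) : ℤ) ^ 2 * crossings D - sgn (true :: e) ^ 2 * u +
        m * (((e.length + 1 : ℕ) : ℤ) ^ 2 - sgn (true :: e) ^ 2) + (crossings P - p) ≤
      2 * (crossingNumber (sat D (e.length + 1) (P ++ ztwists (e.length + 1) m)) : ℤ) := by
  by_cases h0 : 0 ≤ m
  · obtain ⟨m, rfl⟩ := Int.eq_ofNat_of_zero_le h0
    have ez : ztwists (e.length + 1) ((m : ℕ) : ℤ) = twists .pos (e.length + 1) m := by
      unfold ztwists
      rw [if_pos h0, Int.toNat_natCast]
    rw [ez] at hK ⊢
    have hPm := adequate_append hP (posBraid_twists (e.length + 1) m)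
    have htm : OR (P ++ twists .pos (e.length + 1) m) (true :: e) (true :: e)
        (p + m * (1 * (sgn (true :: e) ^ 2 - (e.length + 1 : ℕ)))) :=
      or_append.2 ⟨_, _, _, hp, or_twists (Or.inl ⟨rfl, rfl⟩) (true :: e) m, rfl⟩
    have h := one_sided hD hDA (k := 0) (f := 0) (by
      have e0 : twists Kind.neg (e.length + 1) 0 = [] := by simp [twists]
      rw [e0, List.append_nil]
      exact PIso.refl _) hPm hc hK htm hu
    rw [crossings_append] at h
    push_cast at h ⊢
    have h2 := crossings_twists (e.length + 1) m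
    push_cast at h2
    rw [h2] at h
    linarith
  · obtain ⟨k, hk⟩ : ∃ k : ℕ, m = -(k : ℤ) := ⟨(-m).toNat, by omega⟩
    subst hk
    have ez : ztwists (e.length + 1) (-(k : ℤ)) = twists .neg (e.length + 1) k := by
      unfold ztwists
      rw [if_neg h0, neg_neg, Int.toNat_natCast]
    rw [ez] at hK ⊢
    have htm : OR (P ++ twists .neg (e.length + 1) k) (true :: e) (true :: e)
        (p + k * (-1 * (sgn (true :: e) ^ 2 - (e.length + 1 : ℕ)))) :=
      or_append.2 ⟨_, _, _, hp, or_twists (Or.inr ⟨rfl, rfl⟩) (true :: e) k, rfl⟩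
    have h := one_sided hD hDA (k := k) (f := 0) (PIso.refl _) hP (by omega) hK htm hu
    push_cast at h ⊢
    linarith

/-- Isotopic tangles have the same directions at the ends; the writhe changes by `f`. -/
theorem piso_or {D : Word} {n : ℕ} {f : ℤ} {w w' : Word} (h : PIso D n f w w')
    {ℓ ℓ' : List Bool} (hℓ : ℓ.length = n) (t : ℤ) : OR w ℓ ℓ' t ↔ OR w' ℓ ℓ' (t + f) := by
  induction h generalizing t with
  | refl w => rw [add_zero]
  | reg h =>
    obtain ⟨h1, h2, a, b, l, r, hm, rfl, rfl⟩ := h
    exact or_context (leq_fmove hm) h1.len h2.len hℓ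
  | kink h =>
    obtain ⟨h1, h2, _, _, a, b, l, r, hm, rfl, rfl⟩ := h
    exact or_context (leq_kmove hm) h1.len h2.len hℓ
  | symm _ ih => rw [ih, neg_add_cancel_right]
  | trans _ _ ih1 ih2 => rw [ih1, ih2, add_assoc]

/-- The main inequality for companions with an A-adequate diagram. -/
theorem semi_adequate {D : Word} (hD : IsKnot D) (hDA : AAdequate 1 D) (hc : 0 < crossings D)
    {e : List Bool} {T P : Word} (hP : AAdequate (e.length + 1) P) {p u f : ℤ}
    (hp : OR P (true :: e) (true :: e) p) (hu : OR D [true] [true] u) {m : ℤ}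
    (hTP : PIso D (e.length + 1) f T (P ++ ztwists (e.length + 1) m))
    (hm : -(crossings D : ℤ) < m) (hK : IsKnot (sat D (e.length + 1) T)) :
    (((e.length + 1 : ℕ) : ℤ) ^ 2 - sgn (true :: e) ^ 2) * (crossings D + m) +
        sgn (true :: e) ^ 2 * (crossings D - u) + (crossings P - p) ≤
      2 * (crossingNumber (sat D (e.length + 1) T) : ℤ) := by
  by_cases h0 : 0 ≤ m
  · obtain ⟨m, rfl⟩ := Int.eq_ofNat_of_zero_le h0
    have ez : ztwists (e.length + 1) ((m : ℕ) : ℤ) = twists .pos (e.length + 1) m := by
      unfold ztwists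
      rw [if_pos h0, Int.toNat_natCast]
    rw [ez] at hTP
    have hPm := adequate_append hP (posBraid_twists (e.length + 1) m)
    have htm : OR (P ++ twists .pos (e.length + 1) m) (true :: e) (true :: e)
        (p + m * (1 * (sgn (true :: e) ^ 2 - (e.length + 1 : ℕ)))) :=
      or_append.2 ⟨_, _, _, hp, or_twists (Or.inl ⟨rfl, rfl⟩) (true :: e) m, rfl⟩
    have hT := (piso_or hTP.symm rfl _).1 htm
    have h := one_sided hD hDA (T := T) (P := P ++ twists .pos (e.length + 1) m) (k := 0)
      (f := f) (by
        have e0 : twists Kind.neg (e.length + 1) 0 = [] := by simp [twists]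
        rw [e0, List.append_nil]
        exact hTP) hPm hc hK hT hu
    rw [crossings_append] at h
    push_cast at h ⊢
    have h2 := crossings_twists (e.length + 1) m
    push_cast at h2
    rw [h2] at h
    linarith
  · obtain ⟨k, hk⟩ : ∃ k : ℕ, m = -(k : ℤ) := ⟨(-m).toNat, by omega⟩
    subst hk
    have ez : ztwists (e.length + 1) (-(k : ℤ)) = twists .neg (e.length + 1) k := by
      unfold ztwists
      rw [if_neg h0, neg_neg, Int.toNat_natCast]
    rw [ez] at hTP
    have htm : OR (P ++ twists .neg (e.length + 1) k) (true :: e) (true :: e)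
        (p + k * (-1 * (sgn (true :: e) ^ 2 - (e.length + 1 : ℕ)))) :=
      or_append.2 ⟨_, _, _, hp, or_twists (Or.inr ⟨rfl, rfl⟩) (true :: e) k, rfl⟩
    have hT := (piso_or hTP.symm rfl _).1 htm
    have h := one_sided hD hDA (k := k) hTP hP (by omega) hK hT hu
    push_cast at h ⊢
    linarith

/-- The question for the satellites in `semi_adequate` with many positive twists. -/
theorem semi_adequate_sq {D : Word} (hD : IsKnot D) (hDA : AAdequate 1 D)
    (hc : 0 < crossings D) {e : List Bool} {T P : Word} (hP : AAdequate (e.length + 1) P)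
    {p u f : ℤ} (hp : OR P (true :: e) (true :: e) p) (hu : OR D [true] [true] u) {m : ℤ}
    (hTP : PIso D (e.length + 1) f T (P ++ ztwists (e.length + 1) m))
    (hm : -(crossings D : ℤ) < m) (hK : IsKnot (sat D (e.length + 1) T))
    (h : ((e.length + 1 : ℕ) : ℤ) ^ 2 * crossings D + sgn (true :: e) ^ 2 * u ≤
      m * (((e.length + 1 : ℕ) : ℤ) ^ 2 - sgn (true :: e) ^ 2)) :
    (e.length + 1) ^ 2 * crossingNumber D ≤ crossingNumber (sat D (e.length + 1) T) := by
  have h1 := semi_adequate hD hDA hc hP hp hu hTP hm hK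
  have h2 := (abs_le.1 (or_abs hp)).2
  have h3 := crossingNumber_le (Relation.EqvGen.refl D)
  have h4 : ((e.length + 1 : ℕ) : ℤ) ^ 2 * crossingNumber D ≤
      ((e.length + 1 : ℕ) : ℤ) ^ 2 * crossings D :=
    mul_le_mul_of_nonneg_left (by exact_mod_cast h3) (by positivity)
  have h5 : ((e.length + 1 : ℕ) : ℤ) ^ 2 * crossingNumber D ≤
      (crossingNumber (sat D (e.length + 1) T) : ℤ) := by linarith
  exact_mod_cast h5

end Wh

end Pool.Agent.HTW
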