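import Pool.Agent.HTW.WhY

/-!
# The writhe of cables and satellites
-/

namespace Pool.Agent.HTW

namespace Wh

/-- The opposite directions, in the opposite order. -/
def star (e : List Bool) : List Bool := (e.map (fun x => !x)).reverse

/-- The directions of the cable of a strand with the direction `y`. -/
def dblk (e : List Bool) (y : Bool) : List Bool := if y then e else star e

/-- The directions of the cable. -/
def dcab (e ℓ : List Bool) : List Bool := ℓ.flatMap (dblk e)

/-- The sign of a kind of crossings. -/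
def KS (k : Kind) (σ : ℤ) : Prop := (k = .pos ∧ σ = 1) ∨ (k = .neg ∧ σ = -1)

theorem star_cons (x : Bool) (e : List Bool) : star (x :: e) = star e ++ [!x] := by
  simp [star]

theorem star_star (e : List Bool) : star (star e) = e := by
  simp [star, List.map_reverse, List.map_map, Function.comp_def]

theorem star_length (e : List Bool) : (star e).length = e.length := by
  simp [star]

theorem dblk_length (e : List Bool) (y : Bool) : (dblk e y).length = e.length := by
  cases y
  · exact star_length e
  · rfl

theorem dblk_not (e : List Bool) (y : Bool) : dblk e (!y) = star (dblk e y) := by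
  cases y
  · show e = star (star e)
    rw [star_star]
  · rfl

theorem dcab_cons (e : List Bool) (y : Bool) (ℓ : List Bool) :
    dcab e (y :: ℓ) = dblk e y ++ dcab e ℓ := by
  simp [dcab]

theorem sgn_append (a b : List Bool) : sgn (a ++ b) = sgn a + sgn b := by
  induction a with
  | nil =>
    show sgn b = 0 + sgn b
    rw [zero_add]
  | cons x a ih =>
    show (if x then 1 else -1) + sgn (a ++ b) = (if x then 1 else -1) + sgn a + sgn b
    rw [ih]
    ring

theorem sgn_star (e : List Bool) : sgn (star e) = -sgn e := by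
  induction e with
  | nil => rfl
  | cons x e ih =>
    rw [star_cons, sgn_append, ih]
    show -sgn e + ((if (!x) = true then 1 else -1) + 0) = -((if x = true then 1 else -1) + sgn e)
    cases x <;> simp

theorem sgn_dblk (e : List Bool) (y : Bool) :
    sgn (dblk e y) = (if y then 1 else -1) * sgn e := by
  cases y
  · show sgn (star e) = _
    rw [sgn_star]
    simp
  · show sgn e = _
    simp

theorem sg2_eq (x y : Bool) : sg2 x y = (if x then 1 else -1) * (if y then 1 else -1) := by
  cases x <;> cases y <;> rfl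

/-! ### Strands at the sides -/

theorem os_ext {k : Kind} {i : ℕ} {ℓ ℓ' : List Bool} {r : ℤ} (h : OS k i ℓ ℓ' r)
    (Z : List Bool) : OS k i (ℓ ++ Z) (ℓ' ++ Z) r := by
  induction h with
  | cup v y => exact OS.cup _ _
  | cap v y => exact OS.cap _ _
  | pos v x y => exact OS.pos _ _ _
  | neg v x y => exact OS.neg _ _ _
  | succ z _ ih => exact OS.succ z ih

theorem or_ext {w : Word} {ℓ ℓ' : List Bool} {t : ℤ} (h : OR w ℓ ℓ' t) (Z : List Bool) :
    OR w (ℓ ++ Z) (ℓ' ++ Z) t := by
  induction h with
  | nil ℓ => exact OR.nil _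
  | cons h1 _ ih => exact OR.cons (os_ext h1 Z) ih

theorem shiftWord_succ (i : ℕ) (w : Word) : shiftWord (i + 1) w = shiftWord 1 (shiftWord i w) := by
  unfold shiftWord
  rw [List.map_map]
  rfl

theorem shiftWord_zero (w : Word) : shiftWord 0 w = w := by
  unfold shiftWord
  simp

theorem or_shifts {w : Word} {ℓ ℓ' : List Bool} {t : ℤ} (h : OR w ℓ ℓ' t) (u : List Bool) :
    OR (shiftWord u.length w) (u ++ ℓ) (u ++ ℓ') t := by
  induction u with
  | nil =>
    rw [List.length_nil, shiftWord_zero]
    exact h
  | cons z u ih =>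
    rw [List.length_cons, shiftWord_succ]
    exact or_shift.2 ⟨_, rfl, ih⟩

/-! ### Rows and blocks of crossings -/

theorem os_cross {k : Kind} {σ : ℤ} (hk : KS k σ) (x y : Bool) (v : List Bool) :
    OS k 0 (x :: y :: v) (y :: x :: v) (σ * sg2 x y) := by
  rcases hk with ⟨rfl, rfl⟩ | ⟨rfl, rfl⟩
  · rw [one_mul]
    exact OS.pos _ _ _
  · rw [neg_one_mul]
    exact OS.neg _ _ _

theorem row_succ (k : Kind) (n : ℕ) :
    (List.range (n + 1)).map (fun j => ((k, j) : Letter)) =
      (k, 0) :: shiftWord 1 ((List.range n).map (fun j => ((k, j) : Letter))) := by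
  rw [List.range_succ_eq_map]
  simp [shiftWord, List.map_map, Function.comp_def]

theorem wor_succ (k : Kind) (n : ℕ) :
    (List.range (n + 1)).reverse.map (fun j => ((k, j) : Letter)) =
      shiftWord 1 ((List.range n).reverse.map (fun j => ((k, j) : Letter))) ++ [(k, 0)] := by
  rw [List.range_succ_eq_map]
  simp [shiftWord, List.map_map, Function.comp_def]

theorem OR.cast {w w' : Word} {ℓ ℓ₁ ℓ' ℓ₁' : List Bool} {t t' : ℤ} (h : OR w ℓ ℓ' t)
    (hw : w' = w) (h1 : ℓ₁ = ℓ) (h2 : ℓ₁' = ℓ') (h3 : t' = t) : OR w' ℓ₁ ℓ₁' t' := by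
  subst hw
  subst h1
  subst h2
  subst h3
  exact h

theorem or_row {k : Kind} {σ : ℤ} (hk : KS k σ) (x : Bool) (Y Z : List Bool) :
    OR ((List.range Y.length).map (fun j => (k, j))) (x :: (Y ++ Z)) (Y ++ x :: Z)
      (σ * ((if x then 1 else -1) * sgn Y)) := by
  induction Y with
  | nil => exact (OR.nil (x :: Z)).cast rfl rfl rfl (by show σ * (_ * 0) = 0; ring)
  | cons y Y ih =>
    rw [List.length_cons, row_succ]
    refine (OR.cons (os_cross hk x y (Y ++ Z)) (or_shift.2 ⟨_, rfl, ih⟩)).cast rfl rfl rfl ?_
    rw [sg2_eq]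
    show σ * (_ * ((if y then 1 else -1) + sgn Y)) = _
    ring

theorem or_wor {k : Kind} {σ : ℤ} (hk : KS k σ) (x : Bool) (Y Z : List Bool) :
    OR ((List.range Y.length).reverse.map (fun j => (k, j))) (Y ++ x :: Z) (x :: (Y ++ Z))
      (σ * ((if x then 1 else -1) * sgn Y)) := by
  induction Y with
  | nil => exact (OR.nil (x :: Z)).cast rfl rfl rfl (by show σ * (_ * 0) = 0; ring)
  | cons y Y ih =>
    rw [List.length_cons, wor_succ]
    refine (or_append.2 ⟨_, _, _, or_shift.2 ⟨_, rfl, ih⟩,
      OR.cons (os_cross hk y x (Y ++ Z)) (OR.nil _), rfl⟩ :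
        OR _ (y :: (Y ++ x :: Z)) (x :: y :: (Y ++ Z)) _).cast rfl rfl rfl ?_
    rw [sg2_eq]
    show σ * (_ * ((if y then 1 else -1) + sgn Y)) = _
    ring

theorem or_block {k : Kind} {σ : ℤ} (hk : KS k σ) (X Y Z : List Bool) :
    OR (blockWord k Y.length X.length) (X ++ (Y ++ Z)) (Y ++ (X ++ Z))
      (σ * (sgn X * sgn Y)) := by
  induction X with
  | nil => exact (OR.nil (Y ++ Z)).cast rfl rfl rfl (by show σ * (0 * _) = 0; ring)
  | cons x X ih =>
    refine (or_append.2 ⟨_, _, _, or_shift.2 ⟨_, rfl, ih⟩, or_row hk x Y (X ++ Z), rfl⟩ :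
      OR (shiftWord 1 (blockWord k Y.length X.length) ++
        (List.range Y.length).map (fun j => (k, j))) (x :: (X ++ (Y ++ Z)))
          (Y ++ x :: (X ++ Z)) _).cast rfl rfl rfl ?_
    show σ * (((if x then 1 else -1) + sgn X) * sgn Y) = _
    ring

/-- The full twist. -/
theorem or_twist {k : Kind} {σ : ℤ} (hk : KS k σ) (e : List Bool) :
    OR (twistWord k e.length) e e (σ * (sgn e ^ 2 - e.length)) := by
  induction e with
  | nil => exact (OR.nil []).cast rfl rfl rfl (by show σ * (0 ^ 2 - ((0 : ℕ) : ℤ)) = 0; simp)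
  | cons x e ih =>
    have h1 := or_row hk x e []
    have h2 := or_wor hk x e []
    rw [List.append_nil] at h1 h2
    refine (or_append.2 ⟨_, _, _, or_append.2 ⟨_, _, _, or_shift.2 ⟨_, rfl, ih⟩, h1, rfl⟩, h2,
      rfl⟩ : OR (shiftWord 1 (twistWord k e.length) ++
        (List.range e.length).map (fun j => (k, j)) ++
          (List.range e.length).reverse.map (fun j => (k, j))) (x :: e) (x :: e) _).cast
        rfl rfl rfl ?_
    rw [List.length_cons]
    show σ * (((if x then 1 else -1) + sgn e) ^ 2 - ((e.length + 1 : ℕ) : ℤ)) = _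
    push_cast
    cases x <;> simp <;> ring

theorem or_twists {k : Kind} {σ : ℤ} (hk : KS k σ) (e : List Bool) (m : ℕ) :
    OR (twists k e.length m) e e (m * (σ * (sgn e ^ 2 - e.length))) := by
  induction m with
  | zero =>
    refine (OR.nil e).cast ?_ rfl rfl (by push_cast; ring)
    simp [twists]
  | succ m ih =>
    have h : twists k e.length (m + 1) = twistWord k e.length ++ twists k e.length m := by
      simp [twists, List.replicate_succ]
    rw [h]
    refine (or_append.2 ⟨_, _, _, or_twist hk e, ih, rfl⟩ : OR _ e e _).cast rfl rfl rfl ?_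
    push_cast
    ring

/-! ### Cups and caps -/

theorem or_cups (a Z : List Bool) :
    OR ((List.range a.length).map (fun j => (Kind.cup, j))) Z (a ++ (star a ++ Z)) 0 := by
  induction a generalizing Z with
  | nil => exact OR.nil Z
  | cons x a ih =>
    rw [List.length_cons, row_succ]
    refine (OR.cons (OS.cup Z x) (or_shift.2 ⟨_, rfl, ih ((!x) :: Z)⟩)).cast rfl rfl ?_
      (by ring)
    rw [star_cons]
    simp

theorem or_caps (a Z : List Bool) :
    OR ((List.range a.length).reverse.map (fun j => (Kind.cap, j))) (a ++ (star a ++ Z)) Z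
      0 := by
  induction a generalizing Z with
  | nil => exact OR.nil Z
  | cons x a ih =>
    rw [List.length_cons, wor_succ]
    refine (or_append.2 ⟨_, _, _, or_shift.2 ⟨_, rfl, ih ((!x) :: Z)⟩,
      OR.cons (OS.cap Z x) (OR.nil _), rfl⟩ :
        OR _ (x :: (a ++ (star a ++ (!x) :: Z))) Z _).cast rfl ?_ rfl (by ring)
    rw [star_cons]
    simp

/-! ### Cables -/

theorem cableLetter_succ (n : ℕ) (k : Kind) (i : ℕ) :
    cableLetter n (k, i + 1) = shiftWord n (cableLetter n (k, i)) := by
  have e : ∀ w : Word, shiftWord (n * (i + 1)) w = shiftWord n (shiftWord (n * i) w) := by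
    intro w
    unfold shiftWord
    rw [List.map_map]
    refine List.map_congr_left fun x _ => ?_
    show (x.1, x.2 + n * (i + 1)) = (x.1, x.2 + n * i + n)
    rw [show x.2 + n * (i + 1) = x.2 + n * i + n by ring]
  cases k with
  | cup =>
    show (List.range n).map (fun j => (Kind.cup, n * (i + 1) + j)) =
      ((List.range n).map (fun j => (Kind.cup, n * i + j))).map (fun x => (x.1, x.2 + n))
    rw [List.map_map]
    refine List.map_congr_left fun j _ => ?_
    show (Kind.cup, n * (i + 1) + j) = (Kind.cup, n * i + j + n)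
    rw [show n * (i + 1) + j = n * i + j + n by ring]
  | cap =>
    show (List.range n).reverse.map (fun j => (Kind.cap, n * (i + 1) + j)) =
      ((List.range n).reverse.map (fun j => (Kind.cap, n * i + j))).map (fun x => (x.1, x.2 + n))
    rw [List.map_map]
    refine List.map_congr_left fun j _ => ?_
    show (Kind.cap, n * (i + 1) + j) = (Kind.cap, n * i + j + n)
    rw [show n * (i + 1) + j = n * i + j + n by ring]
  | pos => exact e _
  | neg => exact e _

theorem cableLetter_zero (n : ℕ) (k : Kind) :
    cableLetter n (k, 0) = match k with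
      | .cup => (List.range n).map (fun j => (Kind.cup, j))
      | .cap => (List.range n).reverse.map (fun j => (Kind.cap, j))
      | .pos => blockWord .pos n n
      | .neg => blockWord .neg n n := by
  cases k with
  | cup =>
    show (List.range n).map (fun j => (Kind.cup, n * 0 + j)) = _
    simp
  | cap =>
    show (List.range n).reverse.map (fun j => (Kind.cap, n * 0 + j)) = _
    simp
  | pos =>
    show shiftWord (n * 0) _ = _
    rw [mul_zero, shiftWord_zero]
  | neg =>
    show shiftWord (n * 0) _ = _
    rw [mul_zero, shiftWord_zero]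

theorem or_cableLetter (e : List Bool) {k : Kind} {i : ℕ} {ℓ ℓ' : List Bool} {r : ℤ}
    (h : OS k i ℓ ℓ' r) :
    OR (cableLetter e.length (k, i)) (dcab e ℓ) (dcab e ℓ') (sgn e ^ 2 * r) := by
  induction h with
  | cup v y =>
    rw [cableLetter_zero]
    have h := or_cups (dblk e y) (dcab e v)
    rw [dblk_length] at h
    refine h.cast rfl rfl ?_ (by ring)
    rw [dcab_cons, dcab_cons, dblk_not]
  | cap v y =>
    rw [cableLetter_zero]
    have h := or_caps (dblk e y) (dcab e v)
    rw [dblk_length] at h
    refine h.cast rfl ?_ rfl (by ring)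
    rw [dcab_cons, dcab_cons, dblk_not]
  | pos v x y =>
    rw [cableLetter_zero]
    have h := or_block (Or.inl ⟨rfl, rfl⟩ : KS .pos 1) (dblk e x) (dblk e y) (dcab e v)
    rw [dblk_length, dblk_length] at h
    refine h.cast rfl ?_ ?_ ?_
    · rw [dcab_cons, dcab_cons]
    · rw [dcab_cons, dcab_cons]
    · rw [sgn_dblk, sgn_dblk, sg2_eq]
      ring
  | neg v x y =>
    rw [cableLetter_zero]
    have h := or_block (Or.inr ⟨rfl, rfl⟩ : KS .neg (-1)) (dblk e x) (dblk e y) (dcab e v)
    rw [dblk_length, dblk_length] at h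
    refine h.cast rfl ?_ ?_ ?_
    · rw [dcab_cons, dcab_cons]
    · rw [dcab_cons, dcab_cons]
    · rw [sgn_dblk, sgn_dblk, sg2_eq]
      ring
  | succ z _ ih =>
    rw [cableLetter_succ, dcab_cons, dcab_cons]
    have h := or_shifts ih (dblk e z)
    rwa [dblk_length] at h

theorem or_cable (e : List Bool) {w : Word} {ℓ ℓ' : List Bool} {t : ℤ} (h : OR w ℓ ℓ' t) :
    OR (cable e.length w) (dcab e ℓ) (dcab e ℓ') (sgn e ^ 2 * t) := by
  induction h with
  | nil ℓ => exact (OR.nil _).cast rfl rfl rfl (by ring)
  | @cons k i w ℓ ℓ' ℓ'' r s h1 _ ih =>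
    refine (or_append.2 ⟨_, _, _, or_cableLetter e h1, ih, rfl⟩ :
      OR (cableLetter e.length (k, i) ++ cable e.length w) _ _ _).cast ?_ rfl rfl (by ring)
    simp [cable]

/-- Satellites, from the directions of the cable. -/
theorem or_sat_of {D T : Word} {e : List Bool} {t u : ℤ}
    (hT : OR T (true :: e) (true :: e) t)
    (hD : OR (cable (e.length + 1) D) (true :: e) (true :: e) u) :
    OR (sat D (e.length + 1) T) [true] [true] (t + u) := by
  have e1 : (List.range (e.length + 1 - 1)).map (fun j => ((Kind.cup, 1 + j) : Letter)) =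
      shiftWord 1 ((List.range e.length).map (fun j => ((Kind.cup, j) : Letter))) := by
    unfold shiftWord
    rw [List.map_map, Nat.add_sub_cancel]
    refine List.map_congr_left fun j _ => ?_
    show (Kind.cup, 1 + j) = (Kind.cup, j + 1)
    rw [Nat.add_comm]
  have e2 : (List.range (e.length + 1 - 1)).reverse.map
      (fun j => ((Kind.cap, 1 + j) : Letter)) =
      shiftWord 1 ((List.range e.length).reverse.map (fun j => ((Kind.cap, j) : Letter))) := by
    unfold shiftWord
    rw [List.map_map, Nat.add_sub_cancel]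
    refine List.map_congr_left fun j _ => ?_
    show (Kind.cap, 1 + j) = (Kind.cap, j + 1)
    rw [Nat.add_comm]
  unfold sat
  rw [e1, e2]
  have h1 : OR (shiftWord 1 ((List.range e.length).map (fun j => ((Kind.cup, j) : Letter))))
      [true] (true :: (e ++ (star e ++ []))) 0 := or_shift.2 ⟨_, rfl, or_cups e []⟩
  have h2 : OR (shiftWord 1 ((List.range e.length).reverse.map
      (fun j => ((Kind.cap, j) : Letter)))) (true :: (e ++ (star e ++ []))) [true] 0 :=
    or_shift.2 ⟨_, rfl, or_caps e []⟩
  have h3 := or_ext hT (star e ++ [])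
  have h4 := or_ext hD (star e ++ [])
  refine (or_append.2 ⟨_, _, _, or_append.2 ⟨_, _, _, or_append.2 ⟨_, _, _, h1, h3, rfl⟩,
    h4, rfl⟩, h2, rfl⟩ : OR _ [true] [true] _).cast rfl rfl rfl (by ring)

/-- Satellites. -/
theorem or_sat {D T : Word} {e : List Bool} {t u : ℤ}
    (hT : OR T (true :: e) (true :: e) t) (hD : OR D [true] [true] u) :
    OR (sat D (e.length + 1) T) [true] [true] (t + sgn (true :: e) ^ 2 * u) := by
  have h := or_cable (true :: e) hD
  have e1 : dcab (true :: e) [true] = true :: e := by simp [dcab, dblk]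
  rw [e1] at h
  exact or_sat_of hT h

end Wh

end Pool.Agent.HTW
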