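import Pool.Agent.HTW.WhD
import Pool.Agent.HTW.WhZ

/-!
# Whitehead doubles with any number of twists
-/

namespace Pool.Agent.HTW

namespace Wh

theorem sideP {w : Word} {c κ : ℕ} (hD : Dom w c κ) (hw : LongWord w) {n : ℕ} (hn : 1 ≤ n)
    {P : Word} (hP : AAdequate n P) (hc : 0 < c) (f : ℤ) (c' h' : ℕ)
    (H : ∀ (A : ℝ) (hA : A ≠ 0), 1 < A → ∀ N : ℕ,
      (((tl A hA).mu N) ^ f * satv A hA N n w P) ^ 2 ≤
        A ^ (2 * (N ^ 2 + 2 * N) * c') * (A ^ 2 + (A⁻¹) ^ 2) ^ (N * h')) :
    f + crossings P + (n : ℤ) ^ 2 * c ≤ c' := by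
  obtain ⟨κP, t, C, hPt⟩ := topData_of_adequate hP
  have e : P ++ twists .neg n 0 = P := by simp [twists]
  have h := side hD hw hn hPt.domT hP.uRun (m := 0) hc f c' h' (by rw [e]; exact H)
  push_cast at h
  linarith

/-- The other clasp. -/
theorem qval {D : Word} (hD : IsKnot D) {ρ : Word} (hρ : Tw ρ) (A : ℝ) (hA : A ≠ 0) (N : ℕ) :
    satv A hA N 2 (mirror D) (mirror (clasp .pos ++ ρ)) =
      ((tl A hA).mu N) ^ (-1 : ℤ) *
        satv A hA N 2 (mirror D) (clasp .pos ++ (Kind.neg, 0) :: mirror ρ) := by
  have h := (piso_jj (clasp_iso hD hρ) A hA N).2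
  rw [jm_sat, jm_sat] at h
  have e : mirror (clasp .neg ++ (Kind.pos, 0) :: ρ) =
      clasp .pos ++ (Kind.neg, 0) :: mirror ρ := by
    unfold mirror
    rw [List.map_append]
    rfl
  rw [e] at h
  exact h

theorem mirror_rep (k : Kind) (j : ℕ) :
    mirror (List.replicate j (k, 0)) = List.replicate j (k.mirror, 0) := by
  unfold mirror
  rw [List.map_replicate]

/-- The bounds for a diagram `K'` of the positive Whitehead double. -/
theorem core {D : Word} (hD : IsKnot D) (hDA : AAdequate 1 D) (hDB : AAdequate 1 (mirror D))
    (hc : 0 < crossings D) {s : Kind} {σ : ℤ} (hs : KS s σ) (m : ℕ) {K' : Word}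
    (hK' : LongWord K') (F : ℤ)
    (h1 : ∀ (A : ℝ) (hA : A ≠ 0) (N : ℕ), jj A hA N K' =
      ((tl A hA).mu N) ^ F * satv A hA N 2 D (clasp .pos ++ List.replicate (2 * m) (s, 0)))
    (h2 : ∀ (A : ℝ) (hA : A ≠ 0) (N : ℕ), jm A hA N K' =
      ((tl A hA).mu N) ^ (-F) *
        satv A hA N 2 (mirror D) (mirror (clasp .pos ++ List.replicate (2 * m) (s, 0))))
    (hw : |2 - 2 * m * σ + F| ≤ crossings K') :
    (m < crossings D → 8 * crossings D + 2 ≤ 2 * crossings K') ∧
      (crossings D ≤ m → 4 * crossings D + 4 * m ≤ 2 * crossings K') := by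
  obtain ⟨κA, hdA⟩ := dom_of_adequate hD hDA
  obtain ⟨κB, hdB⟩ := dom_of_adequate (isKnot_mirror hD) hDB
  rw [crossings_mirror] at hdB
  have hw1 : -(crossings K' : ℤ) ≤ 2 - 2 * m * σ + F := (abs_le.1 hw).1
  have hw2 : 2 - 2 * m * σ + F ≤ crossings K' := (abs_le.1 hw).2
  have hDm := isKnot_mirror hD
  -- the other side, for the first form
  have hq : ∀ (A : ℝ) (hA : A ≠ 0), 1 < A → ∀ N : ℕ,
      (((tl A hA).mu N) ^ (-F - 1) * satv A hA N 2 (mirror D)
        (clasp .pos ++ (Kind.neg, 0) :: mirror (List.replicate (2 * m) (s, 0)))) ^ 2 ≤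
        A ^ (2 * (N ^ 2 + 2 * N) * crossings K') *
          (A ^ 2 + (A⁻¹) ^ 2) ^ (N * extrema K') := by
    intro A hA h1' N
    have hμ := mu_ne A hA N
    have hs' : s = Kind.pos ∨ s = Kind.neg := by
      rcases hs with ⟨rfl, _⟩ | ⟨rfl, _⟩
      · exact Or.inl rfl
      · exact Or.inr rfl
    have e := qval hD (tw_rep hs' (2 * m)) A hA N
    have e2 : ((tl A hA).mu N) ^ (-F - 1) * satv A hA N 2 (mirror D)
        (clasp .pos ++ (Kind.neg, 0) :: mirror (List.replicate (2 * m) (s, 0))) =
        jm A hA N K' := by
      rw [h2, e, ← mul_assoc, ← zpow_add₀ hμ]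
      rfl
    rw [e2]
    exact jm_sq_le A hA h1' N hK'
  rcases hs with ⟨rfl, rfl⟩ | ⟨rfl, rfl⟩
  · -- positive twists
    have hP := sideP hdA hD.1 (by norm_num : 1 ≤ 2) (adequate_clasp (2 * m)) hc F (crossings K')
      (extrema K') (by
        intro A hA h1' N
        rw [← h1]
        exact jj_sq_le A hA h1' N hK')
    rw [crossings_clasp] at hP
    push_cast at hP
    refine ⟨fun hm => ?_, fun hm => ?_⟩
    · obtain ⟨κP, hG⟩ := gdom_clasp hdB (k := 2 * m + 1) (by omega)
      have hQ := gside hdB hDm.1 (by norm_num : 1 ≤ 2) (N₀ := 2 * m + 1 + 2)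
        (e := 2 - ((2 * m + 1 : ℕ) : ℤ)) (κ' := κP) hG (-F - 1) (crossings K') (extrema K') (by
          intro A hA h1' N
          have := hq A hA h1' N
          rw [mirror_rep] at this
          rw [List.replicate_succ]
          exact this)
      push_cast at hQ
      have : (8 * crossings D + 2 : ℤ) ≤ 2 * crossings K' := by linarith
      exact_mod_cast this
    · have : (4 * crossings D + 4 * m : ℤ) ≤ 2 * crossings K' := by linarith
      exact_mod_cast this
  · -- negative twists
    have hQ : (-F - 1) + (2 * m + 1 : ℤ) + 4 * crossings D ≤ crossings K' := by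
      rcases Nat.eq_zero_or_pos m with rfl | hm0
      · obtain ⟨κP, hG⟩ := gdom_clasp hdB (k := 1) (by omega)
        have hQ := gside hdB hDm.1 (by norm_num : 1 ≤ 2) (N₀ := 1 + 2)
          (e := 2 - ((1 : ℕ) : ℤ)) (κ' := κP) hG (-F - 1) (crossings K') (extrema K') (by
            intro A hA h1' N
            exact hq A hA h1' N)
        push_cast at hQ ⊢
        linarith
      · have hQ := sideP hdB hDm.1 (by norm_num : 1 ≤ 2) (adequate_clasp (2 * m - 1)) hc (-F - 1)
          (crossings K') (extrema K') (by
            intro A hA h1' N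
            have h3 := hq A hA h1' N
            rw [mirror_rep] at h3
            have e : satv A hA N 2 (mirror D) (clasp .pos ++
                (Kind.neg, 0) :: List.replicate (2 * m) (Kind.neg.mirror, 0)) =
                satv A hA N 2 (mirror D) (clasp .pos ++
                  List.replicate (2 * m - 1) (Kind.pos, 0)) := by
              refine satv_congr A hA N 2 _ ?_
              have e1 : clasp .pos ++ (Kind.neg, 0) ::
                  List.replicate (2 * m) (Kind.neg.mirror, 0) =
                  clasp .pos ++ [(Kind.neg, 0), (Kind.pos, 0)] ++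
                    List.replicate (2 * m - 1) (Kind.pos, 0) := by
                rw [show 2 * m = 2 * m - 1 + 1 by omega,
                  List.replicate_succ (n := 2 * m - 1), List.append_assoc]
                rfl
              rw [e1, ev_three, ev_fmove (tl A hA) N (FMove.r2b 0), TLData.ev_nil, mul_one,
                TLData.ev_append]
            rw [e] at h3
            exact h3)
        rw [crossings_clasp] at hQ
        push_cast [Nat.cast_sub (show 1 ≤ 2 * m by omega)] at hQ
        linarith
    refine ⟨fun hm => ?_, fun hm => ?_⟩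
    · obtain ⟨κP, hG⟩ := gdom_clasp hdA (k := 2 * m) (by omega)
      have hP := gside hdA hD.1 (by norm_num : 1 ≤ 2) (N₀ := 2 * m + 2)
        (e := 2 - ((2 * m : ℕ) : ℤ)) (κ' := κP) hG F (crossings K') (extrema K') (by
          intro A hA h1' N
          rw [← h1]
          exact jj_sq_le A hA h1' N hK')
      push_cast at hP
      have : (8 * crossings D + 2 : ℤ) ≤ 2 * crossings K' := by linarith
      exact_mod_cast this
    · have : (4 * crossings D + 4 * m : ℤ) ≤ 2 * crossings K' := by linarith
      exact_mod_cast this

/-! ### The writhe of the doubles -/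

theorem or_clasp {a : Kind} {α : ℤ} (ha : KS a α) :
    OR (clasp a) [true, false] [true, false] (2 * α) := by
  have h1 : OS .cup 1 [true, false] [true, true, false, false] 0 :=
    os_cup1.2 ⟨true, true, [false], rfl, rfl, rfl⟩
  have h2 := os_cross ha true true [false, false]
  have h3 : OS a 2 [true, true, false, false] [true, true, false, false]
      (α * sg2 false false) := OS.succ _ (OS.succ _ (os_cross ha false false []))
  have h4 : OS .cap 1 [true, true, false, false] [true, false] 0 :=
    os_cap1.2 ⟨true, true, [false], rfl, rfl, rfl⟩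
  refine (OR.cons h1 (OR.cons h2 (OR.cons h3 (OR.cons h4 (OR.nil _))))).cast rfl rfl rfl ?_
  have e1 : sg2 true true = 1 := rfl
  have e2 : sg2 false false = 1 := rfl
  rw [e1, e2]
  ring

/-- The cables of two antiparallel strands have the writhe zero. -/
theorem or_cable_two {w : Word} {a b : ℕ} (h : Len w a b) :
    OR (cable 2 w) (dcab [true, false] (List.replicate a true))
      (dcab [true, false] (List.replicate b true)) 0 := by
  have hd : ∀ ℓ : List Bool, dcab [true, false] ℓ =
      dcab [true, false] (List.replicate ℓ.length true) := by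
    intro ℓ
    induction ℓ with
    | nil => rfl
    | cons y ℓ ih =>
      rw [List.length_cons, List.replicate_succ, dcab_cons, dcab_cons, ih]
      cases y <;> rfl
  have key : ∀ {k : Kind} {i : ℕ} {ℓ ℓ' : List Bool} {r : ℤ}, OS k i ℓ ℓ' r →
      OR (cableLetter 2 (k, i)) (dcab [true, false] (List.replicate ℓ.length true))
        (dcab [true, false] (List.replicate ℓ'.length true)) 0 := by
    intro k i ℓ ℓ' r h
    have h1 := or_cableLetter [true, false] h
    rw [hd ℓ, hd ℓ'] at h1
    exact h1.cast rfl rfl rfl (by show (0 : ℤ) = (1 + (-1 + 0)) ^ 2 * r; ring)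
  have shf : ∀ {k : Kind} {i : ℕ} {u v : List Bool} {r : ℤ}, OS k 0 u v r →
      OS k i (List.replicate i true ++ u) (List.replicate i true ++ v) r := by
    intro k i u v r h
    induction i with
    | zero => exact h
    | succ i ih => exact OS.succ true ih
  have app : ∀ {x : Letter} {w : Word} {a b c : ℕ},
      OR (cableLetter 2 x) (dcab [true, false] (List.replicate a true))
        (dcab [true, false] (List.replicate b true)) 0 →
      OR (cable 2 w) (dcab [true, false] (List.replicate b true))
        (dcab [true, false] (List.replicate c true)) 0 →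
      OR (cable 2 (x :: w)) (dcab [true, false] (List.replicate a true))
        (dcab [true, false] (List.replicate c true)) 0 := by
    intro x w a b c g1 g2
    refine (or_append.2 ⟨_, _, _, g1, g2, rfl⟩ : OR (cableLetter 2 x ++ cable 2 w) _ _ _).cast
      ?_ rfl rfl (by ring)
    simp [cable]
  induction h with
  | nil a => exact OR.nil _
  | @cup w i a b hi _ ih =>
    refine app ?_ ih
    have h1 := key (shf (i := i) (OS.cup (List.replicate (a - i) true) true))
    have e1 : (List.replicate i true ++ List.replicate (a - i) true).length = a := by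
      simp
      omega
    have e2 : (List.replicate i true ++ true :: (!true) :: List.replicate (a - i) true).length =
        a + 2 := by
      simp
      omega
    rwa [e1, e2] at h1
  | @cap w i a b hi _ ih =>
    refine app ?_ ih
    have h1 := key (shf (i := i) (OS.cap (List.replicate (a - i) true) true))
    have e1 : (List.replicate i true ++ List.replicate (a - i) true).length = a := by
      simp
      omega
    have e2 : (List.replicate i true ++ true :: (!true) :: List.replicate (a - i) true).length =
        a + 2 := by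
      simp
      omega
    rwa [e1, e2] at h1
  | @pos w i a b hi _ ih =>
    refine app ?_ ih
    have h1 := key (shf (i := i) (OS.pos (List.replicate (a - i) true) true true))
    have e2 : (List.replicate i true ++ true :: true :: List.replicate (a - i) true).length =
        a + 2 := by
      simp
      omega
    rwa [e2] at h1
  | @neg w i a b hi _ ih =>
    refine app ?_ ih
    have h1 := key (shf (i := i) (OS.neg (List.replicate (a - i) true) true true))
    have e2 : (List.replicate i true ++ true :: true :: List.replicate (a - i) true).length =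
        a + 2 := by
      simp
      omega
    rwa [e2] at h1

theorem or_double {D : Word} (hD : IsKnot D) {a s : Kind} {α σ : ℤ} (ha : KS a α)
    (hs : KS s σ) (m : ℕ) :
    OR (sat D 2 (clasp a ++ twists s 2 m)) [true] [true] (2 * α - 2 * m * σ) := by
  have h1 := or_clasp ha
  have h2 := or_twists hs [true, false] m
  have h3 : OR (clasp a ++ twists s 2 m) [true, false] [true, false] (2 * α - 2 * m * σ) := by
    refine (or_append.2 ⟨_, _, _, h1, h2, rfl⟩ : OR _ _ _ _).cast rfl rfl rfl ?_
    show _ = 2 * α + m * (σ * ((1 + (-1 + 0)) ^ 2 - ((2 : ℕ) : ℤ)))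
    push_cast
    ring
  have h4 := or_cable_two hD.1.len
  have e1 : dcab [true, false] (List.replicate 1 true) = [true, false] := rfl
  rw [e1] at h4
  have h5 := or_sat_of (e := [false]) h3 h4
  rw [add_zero] at h5
  exact h5

/-! ### The theorem -/

/-- Whitehead doubles of an adequate knot, with any number of twists. -/
theorem whitehead_all {D : Word} (hD : IsKnot D) (hDA : AAdequate 1 D)
    (hDB : AAdequate 1 (mirror D)) (hc : 0 < crossings D) {a s : Kind}
    (ha : a = Kind.pos ∨ a = Kind.neg) (hs : s = Kind.pos ∨ s = Kind.neg) (m : ℕ) :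
    max (4 * crossingNumber D + (if m < crossingNumber D then 1 else 0))
        (2 * crossingNumber D + 2 * m) ≤
      crossingNumber (sat D 2 (clasp a ++ twists s 2 m)) := by
  obtain ⟨K', hiso, hcr⟩ := crossingNumber_spec (sat D 2 (clasp a ++ twists s 2 m))
  rw [← hcr]
  have hK : IsKnot (sat D 2 (clasp a ++ twists s 2 m)) := by
    rw [twists_two]
    exact isKnot_sat hD ((claspLike_clasp ha).append (tw_rep hs _))
  have hK' : IsKnot K' := (isotopic_isKnot hiso).1 hK
  obtain ⟨F, ho, hF⟩ := isotopic_or hiso
  have main : (m < crossings D → 8 * crossings D + 2 ≤ 2 * crossings K') ∧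
      (crossings D ≤ m → 4 * crossings D + 4 * m ≤ 2 * crossings K') := by
    have hs' : ∃ σ, KS s σ := by
      rcases hs with rfl | rfl
      · exact ⟨1, Or.inl ⟨rfl, rfl⟩⟩
      · exact ⟨-1, Or.inr ⟨rfl, rfl⟩⟩
    obtain ⟨σ, hσ⟩ := hs'
    rcases ha with rfl | rfl
    · have hor := (ho _).1 (or_double hD (Or.inl ⟨rfl, rfl⟩ : KS .pos 1) hσ m)
      have hab := or_abs hor
      refine core hD hDA hDB hc hσ m hK'.1 F ?_ ?_ ?_
      · intro A hA N
        rw [← jj_sat, ← twists_two]
        exact (hF A hA N).1
      · intro A hA N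
        rw [← jm_sat, ← twists_two]
        exact (hF A hA N).2
      · rwa [mul_one] at hab
    · have hor := (ho _).1 (or_double hD (Or.inr ⟨rfl, rfl⟩ : KS .neg (-1)) hσ m)
      have hab := or_abs hor
      have hDm := isKnot_mirror hD
      have hDmm : mirror (mirror D) = D := mirror_mirror_word D
      have hσ' : KS s.mirror (-σ) := by
        rcases hσ with ⟨rfl, rfl⟩ | ⟨rfl, rfl⟩
        · exact Or.inr ⟨rfl, rfl⟩
        · exact Or.inl ⟨rfl, by norm_num⟩
      have eT : mirror (clasp .neg ++ twists s 2 m) =
          clasp .pos ++ List.replicate (2 * m) (s.mirror, 0) := by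
        rw [twists_two]
        unfold mirror
        rw [List.map_append, List.map_replicate]
        rfl
      have eT' : mirror (clasp .pos ++ List.replicate (2 * m) (s.mirror, 0)) =
          clasp .neg ++ twists s 2 m := by
        rw [← eT, mirror_mirror_word]
      have hjm : ∀ (w : Word) (A : ℝ) (hA : A ≠ 0) (N : ℕ),
          jj A hA N (mirror w) = jm A hA N w := by
        intro w A hA N
        unfold jj jm
        rw [TLData.ev_mirror]
      have hmj : ∀ (A : ℝ) (hA : A ≠ 0) (N : ℕ), jm A hA N (mirror K') = jj A hA N K' := by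
        intro A hA N
        have h := hjm (mirror K') A hA N
        rw [mirror_mirror_word] at h
        exact h.symm
      have h := core hDm hDB (by rw [hDmm]; exact hDA) (by rw [crossings_mirror]; exact hc) hσ' m
        (isKnot_mirror hK').1 (-F) (by
          intro A hA N
          rw [hjm, ← eT, ← jm_sat]
          exact (hF A hA N).2) (by
          intro A hA N
          rw [hmj, hDmm, eT', neg_neg, ← jj_sat]
          exact (hF A hA N).1) (by
          rw [crossings_mirror]
          have e : (2 - 2 * (m : ℤ) * -σ + -F) = -(2 * -1 - 2 * m * σ + F) := by ring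
          rw [e, abs_neg]
          exact hab)
      rw [crossings_mirror, crossings_mirror] at h
      exact h
  have hle := crossingNumber_le (Relation.EqvGen.refl D)
  rw [max_le_iff]
  obtain ⟨h1, h2⟩ := main
  rcases Nat.lt_or_ge m (crossings D) with hm | hm
  · have h3 := h1 hm
    split_ifs <;> omega
  · have h3 := h2 hm
    split_ifs <;> omega

end Wh

end Pool.Agent.HTW
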