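import Pool.Agent.HTW.WhC

/-!
# The writhe
-/

namespace Pool.Agent.HTW

namespace Wh

/-- The sign of a positive letter whose lower ends have the directions `x` and `y`. -/
def sg2 (x y : Bool) : ℤ := if x = y then 1 else -1

/-- Directions of the strands below and above a letter; the integer is the sign of the
crossing. -/
inductive OS : Kind → ℕ → List Bool → List Bool → ℤ → Prop
  | cup (v : List Bool) (y : Bool) : OS .cup 0 v (y :: (!y) :: v) 0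
  | cap (v : List Bool) (y : Bool) : OS .cap 0 (y :: (!y) :: v) v 0
  | pos (v : List Bool) (x y : Bool) : OS .pos 0 (x :: y :: v) (y :: x :: v) (sg2 x y)
  | neg (v : List Bool) (x y : Bool) : OS .neg 0 (x :: y :: v) (y :: x :: v) (-(sg2 x y))
  | succ {k : Kind} {i : ℕ} {ℓ ℓ' : List Bool} {r : ℤ} (z : Bool) :
      OS k i ℓ ℓ' r → OS k (i + 1) (z :: ℓ) (z :: ℓ') r

/-- Directions of the strands of a diagram, and its writhe. -/
inductive OR : Word → List Bool → List Bool → ℤ → Prop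
  | nil (ℓ : List Bool) : OR [] ℓ ℓ 0
  | cons {k : Kind} {i : ℕ} {w : Word} {ℓ ℓ' ℓ'' : List Bool} {r s : ℤ} :
      OS k i ℓ ℓ' r → OR w ℓ' ℓ'' s → OR ((k, i) :: w) ℓ ℓ'' (r + s)

theorem os_succ {k : Kind} {i : ℕ} {z : Bool} {ℓ ℓ' : List Bool} {r : ℤ} :
    OS k (i + 1) (z :: ℓ) ℓ' r ↔ ∃ ℓ'', ℓ' = z :: ℓ'' ∧ OS k i ℓ ℓ'' r := by
  constructor
  · intro h
    cases h with
    | succ _ h => exact ⟨_, rfl, h⟩
  · rintro ⟨ℓ'', rfl, h⟩
    exact OS.succ z h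

theorem os_succ' {k : Kind} {i : ℕ} {ℓ ℓ' : List Bool} {r : ℤ} (h : OS k (i + 1) ℓ ℓ' r) :
    ∃ z ℓ₁ ℓ'', ℓ = z :: ℓ₁ ∧ ℓ' = z :: ℓ'' ∧ OS k i ℓ₁ ℓ'' r := by
  cases h with
  | succ z h => exact ⟨z, _, _, rfl, rfl, h⟩

theorem or_cons {k : Kind} {i : ℕ} {w : Word} {ℓ ℓ'' : List Bool} {t : ℤ} :
    OR ((k, i) :: w) ℓ ℓ'' t ↔ ∃ ℓ' r s, OS k i ℓ ℓ' r ∧ OR w ℓ' ℓ'' s ∧ t = r + s := by
  constructor
  · intro h
    cases h with
    | cons h1 h2 => exact ⟨_, _, _, h1, h2, rfl⟩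
  · rintro ⟨ℓ', r, s, h1, h2, rfl⟩
    exact OR.cons h1 h2

theorem or_nil {ℓ ℓ' : List Bool} {t : ℤ} : OR [] ℓ ℓ' t ↔ ℓ' = ℓ ∧ t = 0 := by
  constructor
  · intro h
    cases h
    exact ⟨rfl, rfl⟩
  · rintro ⟨rfl, rfl⟩
    exact OR.nil _

theorem or_append {a b : Word} {ℓ ℓ'' : List Bool} {t : ℤ} :
    OR (a ++ b) ℓ ℓ'' t ↔ ∃ ℓ' r s, OR a ℓ ℓ' r ∧ OR b ℓ' ℓ'' s ∧ t = r + s := by
  induction a generalizing ℓ t with
  | nil =>
    constructor
    · intro h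
      exact ⟨ℓ, 0, t, OR.nil ℓ, h, by ring⟩
    · rintro ⟨ℓ', r, s, h1, h2, rfl⟩
      rw [or_nil] at h1
      obtain ⟨rfl, rfl⟩ := h1
      rw [zero_add]
      exact h2
  | cons x a ih =>
    obtain ⟨k, i⟩ := x
    rw [List.cons_append, or_cons]
    constructor
    · rintro ⟨ℓ₁, r, s, h1, h2, rfl⟩
      obtain ⟨ℓ', r', s', h3, h4, rfl⟩ := ih.1 h2
      exact ⟨ℓ', r + r', s', OR.cons h1 h3, h4, by ring⟩
    · rintro ⟨ℓ', r, s, h1, h2, rfl⟩
      obtain ⟨ℓ₁, r₁, s₁, h3, h4, rfl⟩ := or_cons.1 h1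
      exact ⟨ℓ₁, r₁, s₁ + s, h3, ih.2 ⟨ℓ', s₁, s, h4, h2, rfl⟩, by ring⟩

theorem or_shift {w : Word} {z : Bool} {ℓ ℓ'' : List Bool} {t : ℤ} :
    OR (shiftWord 1 w) (z :: ℓ) ℓ'' t ↔ ∃ ℓ', ℓ'' = z :: ℓ' ∧ OR w ℓ ℓ' t := by
  induction w generalizing ℓ t with
  | nil =>
    show OR [] (z :: ℓ) ℓ'' t ↔ _
    rw [or_nil]
    constructor
    · rintro ⟨rfl, rfl⟩
      exact ⟨ℓ, rfl, OR.nil _⟩
    · rintro ⟨ℓ', rfl, h⟩
      rw [or_nil] at h
      obtain ⟨rfl, rfl⟩ := h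
      exact ⟨rfl, rfl⟩
  | cons x w ih =>
    obtain ⟨k, i⟩ := x
    show OR ((k, i + 1) :: shiftWord 1 w) (z :: ℓ) ℓ'' t ↔ _
    rw [or_cons]
    constructor
    · rintro ⟨ℓ₁, r, s, h1, h2, rfl⟩
      obtain ⟨ℓ₂, rfl, h3⟩ := os_succ.1 h1
      obtain ⟨ℓ', h4, h5⟩ := ih.1 h2
      exact ⟨ℓ', h4, OR.cons h3 h5⟩
    · rintro ⟨ℓ', rfl, h⟩
      obtain ⟨ℓ₁, r, s, h1, h2, rfl⟩ := or_cons.1 h
      exact ⟨z :: ℓ₁, r, s, OS.succ z h1, ih.2 ⟨ℓ', rfl, h2⟩, rfl⟩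

theorem sg2_comm (x y : Bool) : sg2 x y = sg2 y x := by
  cases x <;> cases y <;> rfl

theorem sg2_not (x : Bool) : sg2 x (!x) = -1 := by
  cases x <;> rfl

theorem sg2_not' (x : Bool) : sg2 (!x) x = -1 := by
  cases x <;> rfl

theorem sg2_not_right (x y : Bool) : sg2 x (!y) = -(sg2 x y) := by
  cases x <;> cases y <;> rfl

theorem sg2_not_left (x y : Bool) : sg2 (!x) y = -(sg2 x y) := by
  cases x <;> cases y <;> rfl

theorem sg2_abs (x y : Bool) : |sg2 x y| ≤ 1 := by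
  cases x <;> cases y <;> simp [sg2]

/-! ### Inversion at the first strand -/

theorem os_cup0 {ℓ ℓ' : List Bool} {r : ℤ} :
    OS .cup 0 ℓ ℓ' r ↔ ∃ y, ℓ' = y :: (!y) :: ℓ ∧ r = 0 := by
  constructor
  · intro h
    cases h with
    | cup v y => exact ⟨y, rfl, rfl⟩
  · rintro ⟨y, rfl, rfl⟩
    exact OS.cup _ _

theorem os_cap0 {ℓ ℓ' : List Bool} {r : ℤ} :
    OS .cap 0 ℓ ℓ' r ↔ ∃ y, ℓ = y :: (!y) :: ℓ' ∧ r = 0 := by
  constructor
  · intro h
    cases h with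
    | cap v y => exact ⟨y, rfl, rfl⟩
  · rintro ⟨y, rfl, rfl⟩
    exact OS.cap _ _

theorem os_pos0 {ℓ ℓ' : List Bool} {r : ℤ} :
    OS .pos 0 ℓ ℓ' r ↔ ∃ x y v, ℓ = x :: y :: v ∧ ℓ' = y :: x :: v ∧ r = sg2 x y := by
  constructor
  · intro h
    cases h with
    | pos v x y => exact ⟨x, y, v, rfl, rfl, rfl⟩
  · rintro ⟨x, y, v, rfl, rfl, rfl⟩
    exact OS.pos _ _ _

theorem os_neg0 {ℓ ℓ' : List Bool} {r : ℤ} :
    OS .neg 0 ℓ ℓ' r ↔ ∃ x y v, ℓ = x :: y :: v ∧ ℓ' = y :: x :: v ∧ r = -(sg2 x y) := by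
  constructor
  · intro h
    cases h with
    | neg v x y => exact ⟨x, y, v, rfl, rfl, rfl⟩
  · rintro ⟨x, y, v, rfl, rfl, rfl⟩
    exact OS.neg _ _ _

/-- The directions are bounded by the number of crossings. -/
theorem or_abs {w : Word} {ℓ ℓ' : List Bool} {t : ℤ} (h : OR w ℓ ℓ' t) :
    |t| ≤ crossings w := by
  induction h with
  | nil => simp [crossings]
  | @cons k i w ℓ ℓ' ℓ'' r s h1 _ ih =>
    have h2 : |r| ≤ (crossings [(k, i)] : ℤ) := by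
      clear ih
      have : ∀ {k : Kind} {i : ℕ} {ℓ ℓ' : List Bool} {r : ℤ}, OS k i ℓ ℓ' r →
          |r| ≤ (crossings [(k, 0)] : ℤ) := by
        intro k i ℓ ℓ' r h
        induction h with
        | cup => simp [crossings]
        | cap => simp [crossings]
        | pos v x y =>
          have := sg2_abs x y
          simpa [crossings] using this
        | neg v x y =>
          have := sg2_abs x y
          simpa [crossings] using this
        | succ _ _ ih => exact ih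
      have h3 := this h1
      have h4 : crossings [(k, i)] = crossings [(k, 0)] := by
        unfold crossings
        simp [List.countP_cons]
      rw [h4]
      exact h3
    have h5 : crossings ((k, i) :: w) = crossings [(k, i)] + crossings w := by
      unfold crossings
      rw [← List.countP_append]
      rfl
    rw [h5]
    push_cast
    exact (abs_add_le r s).trans (add_le_add h2 ih)

end Wh

end Pool.Agent.HTW
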