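import Pool.Agent.HTW.WhW

/-!
# The writhe and the moves
-/

namespace Pool.Agent.HTW

namespace Wh

/-- Local equivalence of words with respect to directions, with a change of the writhe. -/
def LEq (l r : Word) (e : ℤ) : Prop :=
  ∀ (ℓ ℓ'' : List Bool) (a : ℕ) (t : ℤ), Len l ℓ.length a → Len r ℓ.length a →
    (OR l ℓ ℓ'' t ↔ OR r ℓ ℓ'' (t + e))

theorem len_shift {w : Word} {n a : ℕ} (h : Len (shiftWord 1 w) (n + 1) a) :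
    ∃ a', a = a' + 1 ∧ Len w n a' := by
  induction w generalizing n with
  | nil =>
    have h' : Len [] (n + 1) a := h
    cases h'
    exact ⟨n, rfl, Len.nil n⟩
  | cons x w ih =>
    obtain ⟨k, i⟩ := x
    have h' : Len ((k, i + 1) :: shiftWord 1 w) (n + 1) a := h
    generalize hm : n + 1 = m at h'
    cases h' with
    | cup h1 h2 =>
      subst hm
      obtain ⟨a', h3, h4⟩ := ih (n := n + 2) (by
        rw [show n + 2 + 1 = n + 1 + 2 by ring]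
        exact h2)
      exact ⟨a', h3, Len.cup (by omega) h4⟩
    | @cap _ _ m' _ h1 h2 =>
      obtain ⟨n', rfl⟩ : ∃ n', n = n' + 2 := ⟨n - 2, by omega⟩
      have e : m' = n' + 1 := by omega
      subst e
      obtain ⟨a', h3, h4⟩ := ih h2
      exact ⟨a', h3, Len.cap (by omega) h4⟩
    | @pos _ _ m' _ h1 h2 =>
      obtain ⟨n', rfl⟩ : ∃ n', n = n' + 2 := ⟨n - 2, by omega⟩
      have e : m' = n' + 1 := by omega
      subst e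
      obtain ⟨a', h3, h4⟩ := ih (n := n' + 2) (by
        rw [show n' + 2 + 1 = n' + 1 + 2 by ring]
        exact h2)
      exact ⟨a', h3, Len.pos (by omega) h4⟩
    | @neg _ _ m' _ h1 h2 =>
      obtain ⟨n', rfl⟩ : ∃ n', n = n' + 2 := ⟨n - 2, by omega⟩
      have e : m' = n' + 1 := by omega
      subst e
      obtain ⟨a', h3, h4⟩ := ih (n := n' + 2) (by
        rw [show n' + 2 + 1 = n' + 1 + 2 by ring]
        exact h2)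
      exact ⟨a', h3, Len.neg (by omega) h4⟩

theorem LEq.shift {l r : Word} {e : ℤ} (h : LEq l r e) :
    LEq (shiftWord 1 l) (shiftWord 1 r) e := by
  intro ℓ ℓ'' a t h1 h2
  cases ℓ with
  | nil =>
    have key : ∀ {w : Word} {a : ℕ}, Len (shiftWord 1 w) 0 a → w = [] := by
      intro w a hw
      cases w with
      | nil => rfl
      | cons x w =>
        obtain ⟨k, i⟩ := x
        have h' : Len ((k, i + 1) :: shiftWord 1 w) 0 a := hw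
        cases h' with
        | cup h1 _ => omega
    have e1 := key h1
    have e2 := key h2
    subst e1
    subst e2
    exact h [] ℓ'' a t h1 h2
  | cons z ℓ =>
    rw [List.length_cons] at h1 h2
    obtain ⟨a', rfl, h3⟩ := len_shift h1
    obtain ⟨a'', h4, h5⟩ := len_shift h2
    have e1 : a' = a'' := by omega
    subst e1
    rw [or_shift, or_shift]
    constructor
    · rintro ⟨ℓ', h6, h7⟩
      exact ⟨ℓ', h6, (h ℓ ℓ' a' t h3 h5).1 h7⟩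
    · rintro ⟨ℓ', h6, h7⟩
      exact ⟨ℓ', h6, (h ℓ ℓ' a' t h3 h5).2 h7⟩

theorem leq_far (x y : Kind) (d : ℕ) :
    LEq [(x, 0), (y, x.out + d)] [(y, x.inn + d), (x, 0)] 0 := by
  intro ℓ ℓ'' a t h1 h2
  rw [add_zero]
  cases x with
  | cup =>
    simp only [Kind.out, Kind.inn]
    rw [show 2 + d = d + 1 + 1 by ring, Nat.zero_add]
    constructor
    · intro h
      obtain ⟨ℓ₁, r, s, g1, g2, rfl⟩ := or_cons.1 h
      obtain ⟨ℓ₂, r', s', g3, g4, rfl⟩ := or_cons.1 g2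
      obtain ⟨b, rfl, rfl⟩ := os_cup0.1 g1
      obtain ⟨ℓ₃, rfl, g5⟩ := os_succ.1 g3
      obtain ⟨ℓ₄, rfl, g6⟩ := os_succ.1 g5
      obtain ⟨rfl, rfl⟩ := or_nil.1 g4
      exact or_cons.2 ⟨ℓ₄, r', 0, g6, OR.cons (s := 0) (OS.cup ℓ₄ b) (OR.nil _), by ring⟩
    · intro h
      obtain ⟨ℓ₁, r, s, g1, g2, rfl⟩ := or_cons.1 h
      obtain ⟨ℓ₂, r', s', g3, g4, rfl⟩ := or_cons.1 g2
      obtain ⟨b, rfl, rfl⟩ := os_cup0.1 g3
      obtain ⟨rfl, rfl⟩ := or_nil.1 g4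
      exact or_cons.2 ⟨b :: (!b) :: ℓ, 0, r, OS.cup ℓ b,
        or_cons.2 ⟨_, r, 0, OS.succ _ (OS.succ _ g1), OR.nil _, by ring⟩, by ring⟩
  | cap =>
    simp only [Kind.out, Kind.inn]
    rw [show 2 + d = d + 1 + 1 by ring, Nat.zero_add]
    constructor
    · intro h
      obtain ⟨ℓ₁, r, s, g1, g2, rfl⟩ := or_cons.1 h
      obtain ⟨ℓ₂, r', s', g3, g4, rfl⟩ := or_cons.1 g2
      obtain ⟨b, rfl, rfl⟩ := os_cap0.1 g1
      obtain ⟨rfl, rfl⟩ := or_nil.1 g4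
      exact or_cons.2 ⟨b :: (!b) :: ℓ'', r', 0, OS.succ _ (OS.succ _ g3),
        or_cons.2 ⟨ℓ'', 0, 0, OS.cap _ _, OR.nil _, by ring⟩, by ring⟩
    · intro h
      obtain ⟨ℓ₁, r, s, g1, g2, rfl⟩ := or_cons.1 h
      obtain ⟨ℓ₂, r', s', g3, g4, rfl⟩ := or_cons.1 g2
      obtain ⟨b, rfl, rfl⟩ := os_cap0.1 g3
      obtain ⟨rfl, rfl⟩ := or_nil.1 g4
      obtain ⟨z, m, m', rfl, e2, g5⟩ := os_succ' g1
      obtain ⟨z', m₂, m₂', rfl, e3, g6⟩ := os_succ' g5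
      simp only [List.cons.injEq] at e2
      obtain ⟨rfl, e2⟩ := e2
      rw [← e2] at e3
      simp only [List.cons.injEq] at e3
      obtain ⟨rfl, e3⟩ := e3
      subst e3
      exact or_cons.2 ⟨m₂, 0, r, OS.cap _ _, or_cons.2 ⟨_, r, 0, g6, OR.nil _, by ring⟩,
        by ring⟩
  | pos =>
    simp only [Kind.out, Kind.inn]
    rw [show 2 + d = d + 1 + 1 by ring]
    constructor
    · intro h
      obtain ⟨ℓ₁, r, s, g1, g2, rfl⟩ := or_cons.1 h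
      obtain ⟨ℓ₂, r', s', g3, g4, rfl⟩ := or_cons.1 g2
      obtain ⟨p, q, v, rfl, rfl, rfl⟩ := os_pos0.1 g1
      obtain ⟨ℓ₃, rfl, g5⟩ := os_succ.1 g3
      obtain ⟨ℓ₄, rfl, g6⟩ := os_succ.1 g5
      obtain ⟨rfl, rfl⟩ := or_nil.1 g4
      exact or_cons.2 ⟨p :: q :: ℓ₄, r', sg2 p q, OS.succ _ (OS.succ _ g6),
        or_cons.2 ⟨_, _, 0, OS.pos _ _ _, OR.nil _, by ring⟩, by ring⟩
    · intro h
      obtain ⟨ℓ₁, r, s, g1, g2, rfl⟩ := or_cons.1 h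
      obtain ⟨ℓ₂, r', s', g3, g4, rfl⟩ := or_cons.1 g2
      obtain ⟨p, q, v, rfl, rfl, rfl⟩ := os_pos0.1 g3
      obtain ⟨rfl, rfl⟩ := or_nil.1 g4
      obtain ⟨z, m, m', rfl, e2, g5⟩ := os_succ' g1
      obtain ⟨z', m₂, m₂', rfl, e3, g6⟩ := os_succ' g5
      simp only [List.cons.injEq] at e2
      obtain ⟨rfl, e2⟩ := e2
      rw [← e2] at e3
      simp only [List.cons.injEq] at e3
      obtain ⟨rfl, e3⟩ := e3
      subst e3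
      exact or_cons.2 ⟨_, _, r, OS.pos _ _ _,
        or_cons.2 ⟨_, r, 0, OS.succ _ (OS.succ _ g6), OR.nil _, by ring⟩, by ring⟩
  | neg =>
    simp only [Kind.out, Kind.inn]
    rw [show 2 + d = d + 1 + 1 by ring]
    constructor
    · intro h
      obtain ⟨ℓ₁, r, s, g1, g2, rfl⟩ := or_cons.1 h
      obtain ⟨ℓ₂, r', s', g3, g4, rfl⟩ := or_cons.1 g2
      obtain ⟨p, q, v, rfl, rfl, rfl⟩ := os_neg0.1 g1
      obtain ⟨ℓ₃, rfl, g5⟩ := os_succ.1 g3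
      obtain ⟨ℓ₄, rfl, g6⟩ := os_succ.1 g5
      obtain ⟨rfl, rfl⟩ := or_nil.1 g4
      exact or_cons.2 ⟨p :: q :: ℓ₄, r', -(sg2 p q), OS.succ _ (OS.succ _ g6),
        or_cons.2 ⟨_, _, 0, OS.neg _ _ _, OR.nil _, by ring⟩, by ring⟩
    · intro h
      obtain ⟨ℓ₁, r, s, g1, g2, rfl⟩ := or_cons.1 h
      obtain ⟨ℓ₂, r', s', g3, g4, rfl⟩ := or_cons.1 g2
      obtain ⟨p, q, v, rfl, rfl, rfl⟩ := os_neg0.1 g3
      obtain ⟨rfl, rfl⟩ := or_nil.1 g4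
      obtain ⟨z, m, m', rfl, e2, g5⟩ := os_succ' g1
      obtain ⟨z', m₂, m₂', rfl, e3, g6⟩ := os_succ' g5
      simp only [List.cons.injEq] at e2
      obtain ⟨rfl, e2⟩ := e2
      rw [← e2] at e3
      simp only [List.cons.injEq] at e3
      obtain ⟨rfl, e3⟩ := e3
      subst e3
      exact or_cons.2 ⟨_, _, r, OS.neg _ _ _,
        or_cons.2 ⟨_, r, 0, OS.succ _ (OS.succ _ g6), OR.nil _, by ring⟩, by ring⟩

theorem leq_zig : LEq [(.cup, 0), (.cap, 1)] [] 0 := by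
  intro ℓ ℓ'' a t h1 h2
  rw [add_zero, or_nil]
  constructor
  · intro h
    obtain ⟨ℓ₁, r, s, g1, g2, rfl⟩ := or_cons.1 h
    obtain ⟨ℓ₂, r', s', g3, g4, rfl⟩ := or_cons.1 g2
    obtain ⟨b, rfl, rfl⟩ := os_cup0.1 g1
    obtain ⟨ℓ₃, rfl, g5⟩ := os_succ.1 g3
    obtain ⟨b', e1, rfl⟩ := os_cap0.1 g5
    obtain ⟨rfl, rfl⟩ := or_nil.1 g4
    simp only [List.cons.injEq] at e1
    obtain ⟨rfl, rfl⟩ := e1
    simp
  · rintro ⟨rfl, rfl⟩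
    cases h1 with
    | cup _ h1 =>
      generalize hm : ℓ''.length + 2 = m at h1
      cases h1 with
      | cap h3 _ =>
        cases ℓ'' with
        | nil => simp at hm; omega
        | cons z v =>
          refine or_cons.2 ⟨z :: (!z) :: z :: v, 0, 0, OS.cup _ _,
            or_cons.2 ⟨z :: v, 0, 0, OS.succ _ ?_, OR.nil _, by ring⟩, by ring⟩
          exact os_cap0.2 ⟨!z, by simp, rfl⟩

theorem leq_zag : LEq [(.cup, 1), (.cap, 0)] [] 0 := by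
  intro ℓ ℓ'' a t h1 h2
  rw [add_zero, or_nil]
  constructor
  · intro h
    obtain ⟨ℓ₁, r, s, g1, g2, rfl⟩ := or_cons.1 h
    obtain ⟨ℓ₂, r', s', g3, g4, rfl⟩ := or_cons.1 g2
    obtain ⟨z, v, v', rfl, rfl, g5⟩ := os_succ' g1
    obtain ⟨b, rfl, rfl⟩ := os_cup0.1 g5
    obtain ⟨b', e1, rfl⟩ := os_cap0.1 g3
    obtain ⟨rfl, rfl⟩ := or_nil.1 g4
    simp only [List.cons.injEq] at e1
    obtain ⟨rfl, rfl, rfl⟩ := e1
    simp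
  · rintro ⟨rfl, rfl⟩
    cases h1 with
    | cup h3 _ =>
      cases ℓ'' with
      | nil => simp at h3
      | cons z v =>
        refine or_cons.2 ⟨z :: (!z) :: z :: v, 0, 0, OS.succ _ ?_,
          or_cons.2 ⟨z :: v, 0, 0, OS.cap _ _, OR.nil _, by ring⟩, by ring⟩
        exact os_cup0.2 ⟨!z, by simp, rfl⟩

theorem two_of_len {k : Kind} (hk : k = .pos ∨ k = .neg) {i : ℕ} {w : Word} {ℓ : List Bool}
    {a : ℕ} (h : Len ((k, i) :: w) ℓ.length a) : i + 2 ≤ ℓ.length := by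
  generalize hm : ℓ.length = m at h
  rcases hk with rfl | rfl
  · cases h with
    | pos h _ => omega
  · cases h with
    | neg h _ => omega

theorem leq_r2a : LEq [(.pos, 0), (.neg, 0)] [] 0 := by
  intro ℓ ℓ'' a t h1 h2
  rw [add_zero, or_nil]
  constructor
  · intro h
    obtain ⟨ℓ₁, r, s, g1, g2, rfl⟩ := or_cons.1 h
    obtain ⟨ℓ₂, r', s', g3, g4, rfl⟩ := or_cons.1 g2
    obtain ⟨x, y, v, rfl, rfl, rfl⟩ := os_pos0.1 g1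
    obtain ⟨x', y', v', e, rfl, rfl⟩ := os_neg0.1 g3
    obtain ⟨rfl, rfl⟩ := or_nil.1 g4
    simp only [List.cons.injEq] at e
    obtain ⟨rfl, rfl, rfl⟩ := e
    rw [sg2_comm x]
    exact ⟨rfl, by ring⟩
  · rintro ⟨rfl, rfl⟩
    have := two_of_len (Or.inl rfl) h1
    match ℓ'', this with
    | x :: y :: v, _ =>
      exact or_cons.2 ⟨_, _, -(sg2 y x), OS.pos _ _ _,
        or_cons.2 ⟨_, _, 0, OS.neg _ _ _, OR.nil _, by ring⟩, by rw [sg2_comm x]; ring⟩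

theorem leq_r2b : LEq [(.neg, 0), (.pos, 0)] [] 0 := by
  intro ℓ ℓ'' a t h1 h2
  rw [add_zero, or_nil]
  constructor
  · intro h
    obtain ⟨ℓ₁, r, s, g1, g2, rfl⟩ := or_cons.1 h
    obtain ⟨ℓ₂, r', s', g3, g4, rfl⟩ := or_cons.1 g2
    obtain ⟨x, y, v, rfl, rfl, rfl⟩ := os_neg0.1 g1
    obtain ⟨x', y', v', e, rfl, rfl⟩ := os_pos0.1 g3
    obtain ⟨rfl, rfl⟩ := or_nil.1 g4
    simp only [List.cons.injEq] at e
    obtain ⟨rfl, rfl, rfl⟩ := e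
    rw [sg2_comm x]
    exact ⟨rfl, by ring⟩
  · rintro ⟨rfl, rfl⟩
    have := two_of_len (Or.inr rfl) h1
    match ℓ'', this with
    | x :: y :: v, _ =>
      exact or_cons.2 ⟨_, _, sg2 y x, OS.neg _ _ _,
        or_cons.2 ⟨_, _, 0, OS.pos _ _ _, OR.nil _, by ring⟩, by rw [sg2_comm x]; ring⟩

theorem os_pos1 {ℓ ℓ' : List Bool} {r : ℤ} :
    OS .pos 1 ℓ ℓ' r ↔ ∃ z x y v, ℓ = z :: x :: y :: v ∧ ℓ' = z :: y :: x :: v ∧
      r = sg2 x y := by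
  constructor
  · intro h
    obtain ⟨z, m, m', rfl, rfl, g⟩ := os_succ' h
    obtain ⟨x, y, v, rfl, rfl, rfl⟩ := os_pos0.1 g
    exact ⟨z, x, y, v, rfl, rfl, rfl⟩
  · rintro ⟨z, x, y, v, rfl, rfl, rfl⟩
    exact OS.succ _ (OS.pos _ _ _)

theorem os_neg1 {ℓ ℓ' : List Bool} {r : ℤ} :
    OS .neg 1 ℓ ℓ' r ↔ ∃ z x y v, ℓ = z :: x :: y :: v ∧ ℓ' = z :: y :: x :: v ∧
      r = -(sg2 x y) := by
  constructor
  · intro h
    obtain ⟨z, m, m', rfl, rfl, g⟩ := os_succ' h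
    obtain ⟨x, y, v, rfl, rfl, rfl⟩ := os_neg0.1 g
    exact ⟨z, x, y, v, rfl, rfl, rfl⟩
  · rintro ⟨z, x, y, v, rfl, rfl, rfl⟩
    exact OS.succ _ (OS.neg _ _ _)

theorem os_cup1 {ℓ ℓ' : List Bool} {r : ℤ} :
    OS .cup 1 ℓ ℓ' r ↔ ∃ z y v, ℓ = z :: v ∧ ℓ' = z :: y :: (!y) :: v ∧ r = 0 := by
  constructor
  · intro h
    obtain ⟨z, m, m', rfl, rfl, g⟩ := os_succ' h
    obtain ⟨y, rfl, rfl⟩ := os_cup0.1 g
    exact ⟨z, y, m, rfl, rfl, rfl⟩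
  · rintro ⟨z, y, v, rfl, rfl, rfl⟩
    exact OS.succ _ (OS.cup _ _)

theorem os_cap1 {ℓ ℓ' : List Bool} {r : ℤ} :
    OS .cap 1 ℓ ℓ' r ↔ ∃ z y v, ℓ = z :: y :: (!y) :: v ∧ ℓ' = z :: v ∧ r = 0 := by
  constructor
  · intro h
    obtain ⟨z, m, m', rfl, rfl, g⟩ := os_succ' h
    obtain ⟨y, rfl, rfl⟩ := os_cap0.1 g
    exact ⟨z, y, m', rfl, rfl, rfl⟩
  · rintro ⟨z, y, v, rfl, rfl, rfl⟩
    exact OS.succ _ (OS.cap _ _)

theorem leq_r3 : LEq [(.pos, 0), (.pos, 1), (.pos, 0)] [(.pos, 1), (.pos, 0), (.pos, 1)] 0 := by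
  intro ℓ ℓ'' a t h1 h2
  rw [add_zero]
  constructor
  · intro h
    obtain ⟨ℓ₁, r, s, g1, g2, rfl⟩ := or_cons.1 h
    obtain ⟨ℓ₂, r', s', g3, g4, rfl⟩ := or_cons.1 g2
    obtain ⟨ℓ₃, r'', s'', g5, g6, rfl⟩ := or_cons.1 g4
    obtain ⟨x, y, v, rfl, rfl, rfl⟩ := os_pos0.1 g1
    obtain ⟨z', x', y', v', e, rfl, rfl⟩ := os_pos1.1 g3
    simp only [List.cons.injEq] at e
    obtain ⟨rfl, rfl, rfl⟩ := e
    obtain ⟨x'', y'', v'', e, rfl, rfl⟩ := os_pos0.1 g5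
    simp only [List.cons.injEq] at e
    obtain ⟨rfl, rfl, rfl⟩ := e
    obtain ⟨rfl, rfl⟩ := or_nil.1 g6
    exact or_cons.2 ⟨_, _, _, OS.succ _ (OS.pos _ _ _), or_cons.2 ⟨_, _, _, OS.pos _ _ _,
      or_cons.2 ⟨_, _, 0, OS.succ _ (OS.pos _ _ _), OR.nil _, rfl⟩, rfl⟩, by ring⟩
  · intro h
    obtain ⟨ℓ₁, r, s, g1, g2, rfl⟩ := or_cons.1 h
    obtain ⟨ℓ₂, r', s', g3, g4, rfl⟩ := or_cons.1 g2
    obtain ⟨ℓ₃, r'', s'', g5, g6, rfl⟩ := or_cons.1 g4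
    obtain ⟨z, x, y, v, rfl, rfl, rfl⟩ := os_pos1.1 g1
    obtain ⟨x', y', v', e, rfl, rfl⟩ := os_pos0.1 g3
    simp only [List.cons.injEq] at e
    obtain ⟨rfl, rfl, rfl⟩ := e
    obtain ⟨z'', x'', y'', v'', e, rfl, rfl⟩ := os_pos1.1 g5
    simp only [List.cons.injEq] at e
    obtain ⟨rfl, rfl, rfl, rfl⟩ := e
    obtain ⟨rfl, rfl⟩ := or_nil.1 g6
    exact or_cons.2 ⟨_, _, _, OS.pos _ _ _, or_cons.2 ⟨_, _, _, OS.succ _ (OS.pos _ _ _),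
      or_cons.2 ⟨_, _, 0, OS.pos _ _ _, OR.nil _, rfl⟩, rfl⟩, by ring⟩

theorem leq_cupPos : LEq [(.cup, 1), (.pos, 0)] [(.cup, 0), (.neg, 1)] 0 := by
  intro ℓ ℓ'' a t h1 h2
  rw [add_zero]
  constructor
  · intro h
    obtain ⟨ℓ₁, r, s, g1, g2, rfl⟩ := or_cons.1 h
    obtain ⟨ℓ₂, r', s', g3, g4, rfl⟩ := or_cons.1 g2
    obtain ⟨z, y, v, rfl, rfl, rfl⟩ := os_cup1.1 g1
    obtain ⟨p, q, v', e, rfl, rfl⟩ := os_pos0.1 g3
    simp only [List.cons.injEq] at e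
    obtain ⟨rfl, rfl, rfl⟩ := e
    obtain ⟨rfl, rfl⟩ := or_nil.1 g4
    exact or_cons.2 ⟨_, 0, _, OS.cup _ y, or_cons.2 ⟨_, _, 0, OS.succ _ (OS.neg _ _ _),
      OR.nil _, rfl⟩, by rw [sg2_not_left, sg2_comm]; ring⟩
  · intro h
    obtain ⟨ℓ₁, r, s, g1, g2, rfl⟩ := or_cons.1 h
    obtain ⟨ℓ₂, r', s', g3, g4, rfl⟩ := or_cons.1 g2
    obtain ⟨y, rfl, rfl⟩ := os_cup0.1 g1
    obtain ⟨z, p, q, v', e, rfl, rfl⟩ := os_neg1.1 g3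
    simp only [List.cons.injEq] at e
    obtain ⟨rfl, rfl, rfl⟩ := e
    obtain ⟨rfl, rfl⟩ := or_nil.1 g4
    exact or_cons.2 ⟨_, 0, _, OS.succ _ (OS.cup _ y), or_cons.2 ⟨_, _, 0, OS.pos _ _ _,
      OR.nil _, rfl⟩, by rw [sg2_not_left, sg2_comm]; ring⟩

theorem leq_cupNeg : LEq [(.cup, 1), (.neg, 0)] [(.cup, 0), (.pos, 1)] 0 := by
  intro ℓ ℓ'' a t h1 h2
  rw [add_zero]
  constructor
  · intro h
    obtain ⟨ℓ₁, r, s, g1, g2, rfl⟩ := or_cons.1 h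
    obtain ⟨ℓ₂, r', s', g3, g4, rfl⟩ := or_cons.1 g2
    obtain ⟨z, y, v, rfl, rfl, rfl⟩ := os_cup1.1 g1
    obtain ⟨p, q, v', e, rfl, rfl⟩ := os_neg0.1 g3
    simp only [List.cons.injEq] at e
    obtain ⟨rfl, rfl, rfl⟩ := e
    obtain ⟨rfl, rfl⟩ := or_nil.1 g4
    exact or_cons.2 ⟨_, 0, _, OS.cup _ y, or_cons.2 ⟨_, _, 0, OS.succ _ (OS.pos _ _ _),
      OR.nil _, rfl⟩, by rw [sg2_not_left, sg2_comm]⟩
  · intro h
    obtain ⟨ℓ₁, r, s, g1, g2, rfl⟩ := or_cons.1 h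
    obtain ⟨ℓ₂, r', s', g3, g4, rfl⟩ := or_cons.1 g2
    obtain ⟨y, rfl, rfl⟩ := os_cup0.1 g1
    obtain ⟨z, p, q, v', e, rfl, rfl⟩ := os_pos1.1 g3
    simp only [List.cons.injEq] at e
    obtain ⟨rfl, rfl, rfl⟩ := e
    obtain ⟨rfl, rfl⟩ := or_nil.1 g4
    exact or_cons.2 ⟨_, 0, _, OS.succ _ (OS.cup _ y), or_cons.2 ⟨_, _, 0, OS.neg _ _ _,
      OR.nil _, rfl⟩, by rw [sg2_not_left, sg2_comm]⟩

theorem leq_capPos : LEq [(.pos, 0), (.cap, 1)] [(.neg, 1), (.cap, 0)] 0 := by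
  intro ℓ ℓ'' a t h1 h2
  rw [add_zero]
  constructor
  · intro h
    obtain ⟨ℓ₁, r, s, g1, g2, rfl⟩ := or_cons.1 h
    obtain ⟨ℓ₂, r', s', g3, g4, rfl⟩ := or_cons.1 g2
    obtain ⟨x, y, v, rfl, rfl, rfl⟩ := os_pos0.1 g1
    obtain ⟨z, b, v', e, rfl, rfl⟩ := os_cap1.1 g3
    simp only [List.cons.injEq] at e
    obtain ⟨rfl, rfl, rfl⟩ := e
    obtain ⟨rfl, rfl⟩ := or_nil.1 g4
    exact or_cons.2 ⟨_, _, 0, OS.succ _ (OS.neg _ _ _), or_cons.2 ⟨_, 0, 0,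
      OS.cap _ _, OR.nil _, rfl⟩, by rw [sg2_not_right, sg2_comm]; ring⟩
  · intro h
    obtain ⟨ℓ₁, r, s, g1, g2, rfl⟩ := or_cons.1 h
    obtain ⟨ℓ₂, r', s', g3, g4, rfl⟩ := or_cons.1 g2
    obtain ⟨z, x, y, v, rfl, rfl, rfl⟩ := os_neg1.1 g1
    obtain ⟨b, e, rfl⟩ := os_cap0.1 g3
    simp only [List.cons.injEq] at e
    obtain ⟨rfl, rfl, rfl⟩ := e
    obtain ⟨rfl, rfl⟩ := or_nil.1 g4
    exact or_cons.2 ⟨_, _, 0, OS.pos _ _ _, or_cons.2 ⟨_, 0, 0,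
      OS.succ _ (OS.cap _ _), OR.nil _, rfl⟩, by rw [sg2_not_right, sg2_comm]; ring⟩

theorem leq_capNeg : LEq [(.neg, 0), (.cap, 1)] [(.pos, 1), (.cap, 0)] 0 := by
  intro ℓ ℓ'' a t h1 h2
  rw [add_zero]
  constructor
  · intro h
    obtain ⟨ℓ₁, r, s, g1, g2, rfl⟩ := or_cons.1 h
    obtain ⟨ℓ₂, r', s', g3, g4, rfl⟩ := or_cons.1 g2
    obtain ⟨x, y, v, rfl, rfl, rfl⟩ := os_neg0.1 g1
    obtain ⟨z, b, v', e, rfl, rfl⟩ := os_cap1.1 g3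
    simp only [List.cons.injEq] at e
    obtain ⟨rfl, rfl, rfl⟩ := e
    obtain ⟨rfl, rfl⟩ := or_nil.1 g4
    exact or_cons.2 ⟨_, _, 0, OS.succ _ (OS.pos _ _ _), or_cons.2 ⟨_, 0, 0,
      OS.cap _ _, OR.nil _, rfl⟩, by rw [sg2_not_right, sg2_comm]; ring⟩
  · intro h
    obtain ⟨ℓ₁, r, s, g1, g2, rfl⟩ := or_cons.1 h
    obtain ⟨ℓ₂, r', s', g3, g4, rfl⟩ := or_cons.1 g2
    obtain ⟨z, x, y, v, rfl, rfl, rfl⟩ := os_pos1.1 g1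
    obtain ⟨b, e, rfl⟩ := os_cap0.1 g3
    simp only [List.cons.injEq] at e
    obtain ⟨rfl, rfl, rfl⟩ := e
    obtain ⟨rfl, rfl⟩ := or_nil.1 g4
    exact or_cons.2 ⟨_, _, 0, OS.neg _ _ _, or_cons.2 ⟨_, 0, 0,
      OS.succ _ (OS.cap _ _), OR.nil _, rfl⟩, by rw [sg2_not_right, sg2_comm]; ring⟩

theorem leq_kCup {k : Kind} {e : ℤ} (hk : (k = .pos ∧ e = 1) ∨ (k = .neg ∧ e = -1)) :
    LEq [(.cup, 0), (k, 0)] [(.cup, 0)] e := by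
  intro ℓ ℓ'' a t h1 h2
  rcases hk with ⟨rfl, rfl⟩ | ⟨rfl, rfl⟩
  · constructor
    · intro h
      obtain ⟨ℓ₁, r, s, g1, g2, rfl⟩ := or_cons.1 h
      obtain ⟨ℓ₂, r', s', g3, g4, rfl⟩ := or_cons.1 g2
      obtain ⟨y, rfl, rfl⟩ := os_cup0.1 g1
      obtain ⟨p, q, v', e, rfl, rfl⟩ := os_pos0.1 g3
      simp only [List.cons.injEq] at e
      obtain ⟨rfl, rfl, rfl⟩ := e
      obtain ⟨rfl, rfl⟩ := or_nil.1 g4
      refine or_cons.2 ⟨_, 0, 0, os_cup0.2 ⟨!y, rfl, rfl⟩, ?_, by rw [sg2_not]; ring⟩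
      rw [Bool.not_not]
      exact OR.nil _
    · intro h
      obtain ⟨ℓ₁, r, s, g1, g2, h3⟩ := or_cons.1 h
      obtain ⟨y, rfl, rfl⟩ := os_cup0.1 g1
      obtain ⟨rfl, rfl⟩ := or_nil.1 g2
      refine or_cons.2 ⟨(!y) :: y :: ℓ, 0, t, os_cup0.2 ⟨!y, by simp, rfl⟩,
        or_cons.2 ⟨y :: (!y) :: ℓ, _, 0, OS.pos _ _ _, OR.nil _, ?_⟩, by ring⟩
      rw [sg2_not']
      linarith
  · constructor
    · intro h
      obtain ⟨ℓ₁, r, s, g1, g2, rfl⟩ := or_cons.1 h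
      obtain ⟨ℓ₂, r', s', g3, g4, rfl⟩ := or_cons.1 g2
      obtain ⟨y, rfl, rfl⟩ := os_cup0.1 g1
      obtain ⟨p, q, v', e, rfl, rfl⟩ := os_neg0.1 g3
      simp only [List.cons.injEq] at e
      obtain ⟨rfl, rfl, rfl⟩ := e
      obtain ⟨rfl, rfl⟩ := or_nil.1 g4
      refine or_cons.2 ⟨_, 0, 0, os_cup0.2 ⟨!y, rfl, rfl⟩, ?_, by rw [sg2_not]; ring⟩
      rw [Bool.not_not]
      exact OR.nil _
    · intro h
      obtain ⟨ℓ₁, r, s, g1, g2, h3⟩ := or_cons.1 h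
      obtain ⟨y, rfl, rfl⟩ := os_cup0.1 g1
      obtain ⟨rfl, rfl⟩ := or_nil.1 g2
      refine or_cons.2 ⟨(!y) :: y :: ℓ, 0, t, os_cup0.2 ⟨!y, by simp, rfl⟩,
        or_cons.2 ⟨y :: (!y) :: ℓ, _, 0, OS.neg _ _ _, OR.nil _, ?_⟩, by ring⟩
      rw [sg2_not']
      linarith

theorem leq_kCap {k : Kind} {e : ℤ} (hk : (k = .pos ∧ e = 1) ∨ (k = .neg ∧ e = -1)) :
    LEq [(k, 0), (.cap, 0)] [(.cap, 0)] e := by
  intro ℓ ℓ'' a t h1 h2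
  rcases hk with ⟨rfl, rfl⟩ | ⟨rfl, rfl⟩
  · constructor
    · intro h
      obtain ⟨ℓ₁, r, s, g1, g2, rfl⟩ := or_cons.1 h
      obtain ⟨ℓ₂, r', s', g3, g4, rfl⟩ := or_cons.1 g2
      obtain ⟨x, y, v, rfl, rfl, rfl⟩ := os_pos0.1 g1
      obtain ⟨b, e, rfl⟩ := os_cap0.1 g3
      simp only [List.cons.injEq] at e
      obtain ⟨rfl, rfl, rfl⟩ := e
      obtain ⟨rfl, rfl⟩ := or_nil.1 g4
      exact or_cons.2 ⟨_, 0, 0, os_cap0.2 ⟨!y, by simp, rfl⟩, OR.nil _,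
        by rw [sg2_not']; ring⟩
    · intro h
      obtain ⟨ℓ₁, r, s, g1, g2, h3⟩ := or_cons.1 h
      obtain ⟨y, rfl, rfl⟩ := os_cap0.1 g1
      obtain ⟨rfl, rfl⟩ := or_nil.1 g2
      refine or_cons.2 ⟨(!y) :: y :: ℓ'', _, 0, OS.pos _ _ _,
        or_cons.2 ⟨_, 0, 0, os_cap0.2 ⟨!y, by simp, rfl⟩, OR.nil _, by ring⟩, ?_⟩
      rw [sg2_not]
      linarith
  · constructor
    · intro h
      obtain ⟨ℓ₁, r, s, g1, g2, rfl⟩ := or_cons.1 h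
      obtain ⟨ℓ₂, r', s', g3, g4, rfl⟩ := or_cons.1 g2
      obtain ⟨x, y, v, rfl, rfl, rfl⟩ := os_neg0.1 g1
      obtain ⟨b, e, rfl⟩ := os_cap0.1 g3
      simp only [List.cons.injEq] at e
      obtain ⟨rfl, rfl, rfl⟩ := e
      obtain ⟨rfl, rfl⟩ := or_nil.1 g4
      exact or_cons.2 ⟨_, 0, 0, os_cap0.2 ⟨!y, by simp, rfl⟩, OR.nil _,
        by rw [sg2_not']; ring⟩
    · intro h
      obtain ⟨ℓ₁, r, s, g1, g2, h3⟩ := or_cons.1 h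
      obtain ⟨y, rfl, rfl⟩ := os_cap0.1 g1
      obtain ⟨rfl, rfl⟩ := or_nil.1 g2
      refine or_cons.2 ⟨(!y) :: y :: ℓ'', _, 0, OS.neg _ _ _,
        or_cons.2 ⟨_, 0, 0, os_cap0.2 ⟨!y, by simp, rfl⟩, OR.nil _, by ring⟩, ?_⟩
      rw [sg2_not]
      linarith

end Wh

end Pool.Agent.HTW
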