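import Pool.Agent.HTW.WhX

/-!
# The writhe of isotopic diagrams
-/

namespace Pool.Agent.HTW

namespace Wh

/-! ### The moves at any place -/

theorem LEq.shifts {l r : Word} {e : ℤ} (h : LEq l r e) (i : ℕ) :
    LEq (shiftWord i l) (shiftWord i r) e := by
  induction i with
  | zero =>
    have e0 : ∀ w : Word, shiftWord 0 w = w := by
      intro w
      unfold shiftWord
      simp
    rw [e0, e0]
    exact h
  | succ i ih =>
    have e1 : ∀ w : Word, shiftWord (i + 1) w = shiftWord 1 (shiftWord i w) := by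
      intro w
      unfold shiftWord
      rw [List.map_map]
      rfl
    rw [e1, e1]
    exact ih.shift

theorem LEq.at {l r l' r' : Word} {e : ℤ} (h : LEq l r e) (i : ℕ)
    (hl : l' = shiftWord i l) (hr : r' = shiftWord i r) : LEq l' r' e := by
  rw [hl, hr]
  exact h.shifts i

theorem leq_fmove {l r : Word} (h : FMove l r) : LEq l r 0 := by
  cases h with
  | far x y i d =>
    refine (leq_far x y d).at i ?_ ?_
    · simp only [shiftWord, List.map_cons, List.map_nil, Nat.zero_add]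
      rw [show x.out + d + i = i + x.out + d by omega]
    · simp only [shiftWord, List.map_cons, List.map_nil, Nat.zero_add]
      rw [show x.inn + d + i = i + x.inn + d by omega]
  | zig i => exact leq_zig.at i (by simp [shiftWord, Nat.add_comm]) (by simp [shiftWord])
  | zag i => exact leq_zag.at i (by simp [shiftWord, Nat.add_comm]) (by simp [shiftWord])
  | r2a i => exact leq_r2a.at i (by simp [shiftWord]) (by simp [shiftWord])
  | r2b i => exact leq_r2b.at i (by simp [shiftWord]) (by simp [shiftWord])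
  | r3 i =>
    exact leq_r3.at i (by simp [shiftWord, Nat.add_comm]) (by simp [shiftWord, Nat.add_comm])
  | cupPos i =>
    exact leq_cupPos.at i (by simp [shiftWord, Nat.add_comm]) (by simp [shiftWord, Nat.add_comm])
  | cupNeg i =>
    exact leq_cupNeg.at i (by simp [shiftWord, Nat.add_comm]) (by simp [shiftWord, Nat.add_comm])
  | capPos i =>
    exact leq_capPos.at i (by simp [shiftWord, Nat.add_comm]) (by simp [shiftWord, Nat.add_comm])
  | capNeg i =>
    exact leq_capNeg.at i (by simp [shiftWord, Nat.add_comm]) (by simp [shiftWord, Nat.add_comm])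

theorem leq_kmove {l r : Word} {e : ℤ} (h : KMove e l r) : LEq l r e := by
  cases h with
  | cupPos i =>
    exact (leq_kCup (Or.inl ⟨rfl, rfl⟩)).at i (by simp [shiftWord]) (by simp [shiftWord])
  | cupNeg i =>
    exact (leq_kCup (Or.inr ⟨rfl, rfl⟩)).at i (by simp [shiftWord]) (by simp [shiftWord])
  | capPos i =>
    exact (leq_kCap (Or.inl ⟨rfl, rfl⟩)).at i (by simp [shiftWord]) (by simp [shiftWord])
  | capNeg i =>
    exact (leq_kCap (Or.inr ⟨rfl, rfl⟩)).at i (by simp [shiftWord]) (by simp [shiftWord])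

theorem kmove_of_rmove {l r : Word} (h : RMove l r) : ∃ e, KMove e l r := by
  cases h with
  | cupPos i => exact ⟨_, KMove.cupPos i⟩
  | cupNeg i => exact ⟨_, KMove.cupNeg i⟩
  | capPos i => exact ⟨_, KMove.capPos i⟩
  | capNeg i => exact ⟨_, KMove.capNeg i⟩

/-! ### Numbers of strands -/

theorem len_split : ∀ {u v : Word} {x y : ℕ}, Len (u ++ v) x y → ∃ z, Len u x z ∧ Len v z y := by
  intro u
  induction u with
  | nil => intro v x y h; exact ⟨x, Len.nil x, h⟩
  | cons t u ih =>
    intro v x y h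
    cases h with
    | cup h1 h2 =>
      obtain ⟨z, h3, h4⟩ := ih h2
      exact ⟨z, Len.cup h1 h3, h4⟩
    | cap h1 h2 =>
      obtain ⟨z, h3, h4⟩ := ih h2
      exact ⟨z, Len.cap h1 h3, h4⟩
    | pos h1 h2 =>
      obtain ⟨z, h3, h4⟩ := ih h2
      exact ⟨z, Len.pos h1 h3, h4⟩
    | neg h1 h2 =>
      obtain ⟨z, h3, h4⟩ := ih h2
      exact ⟨z, Len.neg h1 h3, h4⟩

theorem len_diff {w : Word} {a b : ℕ} (h : Len w a b) :
    ∀ {a' b' : ℕ}, Len w a' b' → a + b' = a' + b := by
  induction h with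
  | nil a =>
    intro a' b' h'
    cases h'
    omega
  | cup _ _ ih =>
    intro a' b' h'
    cases h' with
    | cup _ h'' =>
      have := ih h''
      omega
  | cap _ _ ih =>
    intro a' b' h'
    cases h' with
    | cap _ h'' =>
      have := ih h''
      omega
  | pos _ _ ih =>
    intro a' b' h'
    cases h' with
    | pos _ h'' =>
      have := ih h''
      omega
  | neg _ _ ih =>
    intro a' b' h'
    cases h' with
    | neg _ h'' =>
      have := ih h''
      omega

theorem os_len {k : Kind} {i : ℕ} {ℓ ℓ' : List Bool} {r : ℤ} (h : OS k i ℓ ℓ' r) :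
    ℓ'.length + k.inn = ℓ.length + k.out ∧ i + k.inn ≤ ℓ.length := by
  induction h with
  | cup v y => simp [Kind.inn, Kind.out]
  | cap v y => simp [Kind.inn, Kind.out]
  | pos v x y => simp [Kind.inn, Kind.out]
  | neg v x y => simp [Kind.inn, Kind.out]
  | succ z _ ih =>
    simp only [List.length_cons]
    omega

theorem or_len {w : Word} {ℓ ℓ' : List Bool} {t : ℤ} (h : OR w ℓ ℓ' t) :
    Len w ℓ.length ℓ'.length := by
  induction h with
  | nil ℓ => exact Len.nil _
  | @cons k i w ℓ ℓ' ℓ'' r s h1 _ ih =>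
    obtain ⟨h2, h3⟩ := os_len h1
    cases k with
    | cup =>
      simp only [Kind.inn, Kind.out] at h2 h3
      exact Len.cup (by omega) (by rwa [show ℓ.length + 2 = ℓ'.length by omega])
    | cap =>
      simp only [Kind.inn, Kind.out] at h2 h3
      rw [show ℓ.length = ℓ'.length + 2 by omega]
      exact Len.cap (by omega) ih
    | pos =>
      simp only [Kind.inn, Kind.out] at h2 h3
      obtain ⟨q, hq⟩ : ∃ q, ℓ.length = q + 2 := ⟨ℓ.length - 2, by omega⟩
      rw [hq]
      exact Len.pos (by omega) (by rwa [show q + 2 = ℓ'.length by omega])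
    | neg =>
      simp only [Kind.inn, Kind.out] at h2 h3
      obtain ⟨q, hq⟩ : ∃ q, ℓ.length = q + 2 := ⟨ℓ.length - 2, by omega⟩
      rw [hq]
      exact Len.neg (by omega) (by rwa [show q + 2 = ℓ'.length by omega])

/-! ### The moves in a diagram -/

theorem or_context {a b l r : Word} {e : ℤ} (h : LEq l r e) {p q : ℕ}
    (hl : Len (a ++ l ++ b) p q) (hr : Len (a ++ r ++ b) p q) {ℓ ℓ' : List Bool}
    (hp : ℓ.length = p) {t : ℤ} :
    OR (a ++ l ++ b) ℓ ℓ' t ↔ OR (a ++ r ++ b) ℓ ℓ' (t + e) := by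
  subst hp
  rw [List.append_assoc] at hl hr
  obtain ⟨x, h1, h2⟩ := len_split hl
  obtain ⟨y, h3, h4⟩ := len_split h2
  obtain ⟨x', h5, h6⟩ := len_split hr
  obtain ⟨y', h7, h8⟩ := len_split h6
  have e1 : x = x' := len_unique h1 h5
  subst e1
  have e2 := len_diff h4 h8
  have e3 : y = y' := by omega
  subst e3
  have key : ∀ {ℓ₁ ℓ₂ : List Bool} {s₁ : ℤ} {s : ℤ}, OR a ℓ ℓ₁ s₁ →
      (OR l ℓ₁ ℓ₂ s ↔ OR r ℓ₁ ℓ₂ (s + e)) := by
    intro ℓ₁ ℓ₂ s₁ s g
    have g1 := or_len g
    have g2 := len_unique h1 g1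
    subst g2
    exact h ℓ₁ ℓ₂ y s h3 h7
  rw [List.append_assoc, List.append_assoc]
  constructor
  · intro g
    obtain ⟨ℓ₁, r₁, s₁, g1, g2, rfl⟩ := or_append.1 g
    obtain ⟨ℓ₂, r₂, s₂, g3, g4, rfl⟩ := or_append.1 g2
    exact or_append.2 ⟨ℓ₁, r₁, r₂ + e + s₂, g1,
      or_append.2 ⟨ℓ₂, r₂ + e, s₂, (key g1).1 g3, g4, rfl⟩, by ring⟩
  · intro g
    obtain ⟨ℓ₁, r₁, s₁, g1, g2, hs⟩ := or_append.1 g
    obtain ⟨ℓ₂, r₂, s₂, g3, g4, rfl⟩ := or_append.1 g2
    refine or_append.2 ⟨ℓ₁, r₁, r₂ - e + s₂, g1,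
      or_append.2 ⟨ℓ₂, r₂ - e, s₂, (key g1).2 ?_, g4, rfl⟩, by linarith⟩
    rwa [sub_add_cancel]

/-! ### Isotopic knot diagrams -/

/-- The change of the writhe in an isotopy determines the change of the coloured
evaluations. -/
theorem isotopic_or {w w' : Word} (h : Isotopic w w') :
    ∃ f : ℤ, (∀ t : ℤ, OR w [true] [true] t ↔ OR w' [true] [true] (t + f)) ∧
      ∀ (A : ℝ) (hA : A ≠ 0) (m : ℕ),
        jj A hA m w' = ((tl A hA).mu m) ^ f * jj A hA m w ∧
        jm A hA m w' = ((tl A hA).mu m) ^ (-f) * jm A hA m w := by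
  induction h with
  | rel x y h =>
    rcases h with h | h
    · have hr : RegIso x y := Relation.EqvGen.rel x y h
      obtain ⟨hx, hy, a, b, l, r, hm, rfl, rfl⟩ := h
      refine ⟨0, fun t => or_context (leq_fmove hm) hx.1.len hy.1.len rfl, fun A hA m => ⟨?_, ?_⟩⟩
      · rw [zpow_zero, one_mul]
        unfold jj
        rw [regIso_ev (tl A hA) m hr]
      · rw [neg_zero, zpow_zero, one_mul]
        unfold jm
        rw [regIso_ev (tl A hA).mirror m hr]
    · obtain ⟨hx, hy, a, b, l, r, hm, rfl, rfl⟩ := h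
      obtain ⟨e, he⟩ := kmove_of_rmove hm
      refine ⟨e, fun t => or_context (leq_kmove he) hx.1.len hy.1.len rfl, fun A hA m => ?_⟩
      have hμ := mu_ne A hA m
      have h1 := ev_kmove (tl A hA) m he hx hy
      have h2 := ev_kmove (tl A hA).mirror m he hx hy
      unfold jj jm
      rcases h1 with ⟨rfl, h1⟩ | ⟨rfl, h1⟩
      · rcases h2 with ⟨_, h2⟩ | ⟨h3, _⟩
        · rw [h1, h2, Module.End.mul_apply, Module.End.mul_apply, th_vplus, mirror_th_vplus,
            map_smul, map_smul, zpow_one, zpow_neg_one]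
          exact ⟨rfl, rfl⟩
        · exact absurd h3 (by norm_num)
      · rcases h2 with ⟨h3, _⟩ | ⟨_, h2⟩
        · exact absurd h3 (by norm_num)
        · rw [h1, h2, Module.End.mul_apply, Module.End.mul_apply, th_vplus, mirror_th_vplus,
            map_smul, map_smul, neg_neg, zpow_one, zpow_neg_one, Pi.smul_apply, Pi.smul_apply,
            smul_eq_mul, smul_eq_mul, ← mul_assoc, ← mul_assoc,
            inv_mul_cancel₀ hμ, mul_inv_cancel₀ hμ, one_mul, one_mul]
          exact ⟨rfl, rfl⟩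
  | refl x =>
    exact ⟨0, fun t => by rw [add_zero], fun A hA m =>
      ⟨by rw [zpow_zero, one_mul], by rw [neg_zero, zpow_zero, one_mul]⟩⟩
  | symm x y _ ih =>
    obtain ⟨f, ho, hf⟩ := ih
    refine ⟨-f, fun t => ?_, fun A hA m => ?_⟩
    · rw [ho (t + -f), neg_add_cancel_right]
    · obtain ⟨h1, h2⟩ := hf A hA m
      have h3 := mu_ne A hA m
      rw [h1, h2, ← mul_assoc, ← mul_assoc, ← zpow_add₀ h3, ← zpow_add₀ h3]
      simp
  | trans x y z _ _ ih1 ih2 =>
    obtain ⟨f, ho1, hf⟩ := ih1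
    obtain ⟨g, ho2, hg⟩ := ih2
    refine ⟨g + f, fun t => ?_, fun A hA m => ?_⟩
    · rw [ho1 t, ho2 (t + f), show t + f + g = t + (g + f) by ring]
    · obtain ⟨h1, h2⟩ := hf A hA m
      obtain ⟨h4, h5⟩ := hg A hA m
      have h3 := mu_ne A hA m
      rw [h4, h5, h1, h2, ← mul_assoc, ← mul_assoc, ← zpow_add₀ h3, ← zpow_add₀ h3,
        neg_add]
      exact ⟨rfl, rfl⟩

end Wh

end Pool.Agent.HTW
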